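import Pool.Agent.H20.Gen2

set_option autoImplicit false

namespace Pool.Agent.H20

open Polynomial Finset

section

variable {K : Type} [Field K] [CharZero K]

/-- the leading form splits into pairwise non-proportional linear forms -/
def LeadSplits (K : Type) [Field K] (d : ℕ) (F : MvPolynomial (Fin 2) ℤ) (u v : Fin d → K) : Prop :=
  (∀ i j, i ≠ j → u i * v j ≠ u j * v i) ∧
    MvPolynomial.map (Int.castRingHom K) (MvPolynomial.homogeneousComponent d F)
      = ∏ i, (MvPolynomial.C (u i) * MvPolynomial.X 0 + MvPolynomial.C (v i) * MvPolynomial.X 1)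

lemma LeadSplits.eval {d : ℕ} {F : MvPolynomial (Fin 2) ℤ} {u v : Fin d → K}
    (h : LeadSplits K d F u v) (x y : K) :
    MvPolynomial.eval₂ (Int.castRingHom K) ![x, y] (MvPolynomial.homogeneousComponent d F)
      = ∏ i, (u i * x + v i * y) := by
  rw [← MvPolynomial.eval_map, h.2, map_prod]
  refine Finset.prod_congr rfl (fun i _ => ?_)
  simp

lemma ld_mon_eval (d : ℕ) (hd : 1 ≤ d) (c : ℕ → ℕ → ℤ) (z : K) :
    eval₂ (Int.castRingHom K) ((c 0 d : K) * z) (ld d (mon d c))
      = (c 0 d : K) ^ (d - 1) * ∑ j ∈ range (d + 1), (c (d - j) j : K) * 1 ^ (d - j) * z ^ j := by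
  rw [eval₂_ld, Finset.mul_sum]
  refine Finset.sum_congr rfl (fun j hj => ?_)
  have hj' := Finset.mem_range.mp hj
  unfold mon
  by_cases h : j = d
  · subst h
    simp only [Nat.sub_self, if_true, Int.cast_one, one_mul, pow_zero, mul_one]
    rw [mul_pow, ← mul_assoc, ← pow_succ]
    congr 2
    omega
  · rw [if_neg h]
    push_cast
    rw [mul_pow, one_pow, mul_one]
    have : (c 0 d : K) ^ (d - 1) = (c 0 d : K) ^ (d - 1 - j) * (c 0 d : K) ^ j := by
      rw [← pow_add]; congr 1; omega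
    rw [this]
    ring

lemma ld_mon_prod (d : ℕ) (hd : 1 ≤ d) (k : ℤ) (F : MvPolynomial (Fin 2) ℤ)
    (hF : F.totalDegree ≤ d) (u v : Fin d → K) (h : LeadSplits K d F u v)
    (h0 : cf k F 0 d ≠ 0) :
    (ld d (mon d (cf k F))).map (Int.castRingHom K)
      = ∏ i, (X - C (-((cf k F 0 d : K) * u i / (u i * k + v i)))) := by
  have h0K : ((cf k F 0 d : ℤ) : K) ≠ 0 := by exact_mod_cast h0
  have htop : ((cf k F 0 d : ℤ) : K) = ∏ i, (u i * k + v i) := by
    have h1 := lead_cf k F d hF (0 : K) 1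
    rw [h.eval] at h1
    rw [Finset.sum_eq_single d] at h1
    · simpa using h1
    · intro j hj hne
      have := Finset.mem_range.mp hj
      rw [zero_pow (by omega), mul_zero, zero_mul]
    · intro hn
      exact absurd (Finset.mem_range.mpr (by omega)) hn
  have hw : ∀ i, u i * k + v i ≠ 0 := by
    intro i hi
    apply h0K
    rw [htop]
    exact Finset.prod_eq_zero (Finset.mem_univ i) hi
  apply Polynomial.funext
  intro z
  obtain ⟨z', rfl⟩ : ∃ z', z = (cf k F 0 d : K) * z' := ⟨z / (cf k F 0 d : K), by field_simp⟩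
  rw [eval_map, ld_mon_eval d hd (cf k F) z', lead_cf k F d hF (1 : K) z', h.eval, eval_prod]
  have h2 : ∏ i, eval ((cf k F 0 d : K) * z')
      (X - C (-((cf k F 0 d : K) * u i / (u i * k + v i))))
      = ∏ i, ((cf k F 0 d : K) * ((u i * (1 + k * z') + v i * z') / (u i * k + v i))) := by
    refine Finset.prod_congr rfl (fun i _ => ?_)
    have := hw i
    simp only [eval_sub, eval_X, eval_C]
    field_simp
    ring
  rw [h2, Finset.prod_mul_distrib, Finset.prod_const, Finset.card_univ, Fintype.card_fin,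
    Finset.prod_div_distrib, ← htop]
  have h3 : (cf k F 0 d : K) ^ d = (cf k F 0 d : K) ^ (d - 1) * (cf k F 0 d : K) := by
    rw [← pow_succ]; congr 1; omega
  rw [h3]
  field_simp
  exact Finset.prod_congr rfl (fun i _ => by ring)

lemma ld_mon_splits (d : ℕ) (hd : 1 ≤ d) (k : ℤ) (F : MvPolynomial (Fin 2) ℤ)
    (hF : F.totalDegree ≤ d) (u v : Fin d → K) (h : LeadSplits K d F u v)
    (h0 : cf k F 0 d ≠ 0) :
    ((ld d (mon d (cf k F))).map (Int.castRingHom K)).Splits := by
  rw [ld_mon_prod d hd k F hF u v h h0]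
  exact Splits.prod (fun i _ => Splits.X_sub_C _)

lemma ld_mon_simple (d : ℕ) (hd : 1 ≤ d) (k : ℤ) (F : MvPolynomial (Fin 2) ℤ)
    (hF : F.totalDegree ≤ d) (u v : Fin d → K) (h : LeadSplits K d F u v)
    (h0 : cf k F 0 d ≠ 0) (z : K)
    (hz : eval₂ (Int.castRingHom K) z (ld d (mon d (cf k F))) = 0) :
    eval₂ (Int.castRingHom K) z (derivative (ld d (mon d (cf k F)))) ≠ 0 := by
  have h0K : ((cf k F 0 d : ℤ) : K) ≠ 0 := by exact_mod_cast h0
  have htop : ((cf k F 0 d : ℤ) : K) = ∏ i, (u i * k + v i) := by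
    have h1 := lead_cf k F d hF (0 : K) 1
    rw [h.eval] at h1
    rw [Finset.sum_eq_single d] at h1
    · simpa using h1
    · intro j hj hne
      have := Finset.mem_range.mp hj
      rw [zero_pow (by omega), mul_zero, zero_mul]
    · intro hn
      exact absurd (Finset.mem_range.mpr (by omega)) hn
  have hw : ∀ i, u i * k + v i ≠ 0 := by
    intro i hi
    apply h0K
    rw [htop]
    exact Finset.prod_eq_zero (Finset.mem_univ i) hi
  have hsep : ((ld d (mon d (cf k F))).map (Int.castRingHom K)).Separable := by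
    rw [ld_mon_prod d hd k F hF u v h h0, separable_prod_X_sub_C_iff]
    intro i j hij
    by_contra hne
    have h1 := neg_injective hij
    have hi := hw i
    have hj := hw j
    rw [div_eq_div_iff hi hj] at h1
    have h2 : (cf k F 0 d : K) * (u i * v j - u j * v i) = 0 := by linear_combination h1
    rcases mul_eq_zero.mp h2 with h3 | h3
    · exact h0K h3
    · exact h.1 i j hne (sub_eq_zero.mp h3)
  have h1 := hsep.eval₂_derivative_ne_zero (RingHom.id K) (x := z) (by
    rw [eval₂_id, eval_map]; exact hz)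
  rw [eval₂_id, derivative_map, eval_map] at h1
  exact h1

/-- a good shear -/
lemma exists_shear (d : ℕ) (hd : 2 ≤ d) (F : MvPolynomial (Fin 2) ℤ)
    (hF : F.totalDegree ≤ d) (u v : Fin d → K) (h : LeadSplits K d F u v) :
    ∃ k : ℕ, k ≤ d ∧ cf k F 0 d ≠ 0 := by
  classical
  let P : K[X] := ∏ i, (C (u i) * X + C (v i))
  have hP : P ≠ 0 := by
    rw [Finset.prod_ne_zero_iff]
    intro i _ h0
    have hu : u i = 0 := by
      have := congrArg (fun p => p.coeff 1) h0
      simpa using this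
    have hv : v i = 0 := by
      have := congrArg (fun p => p.coeff 0) h0
      simpa using this
    obtain ⟨j, hj⟩ : ∃ j : Fin d, i ≠ j := by
      have : Nontrivial (Fin d) := Fin.nontrivial_iff_two_le.mpr hd
      obtain ⟨j, hj⟩ := exists_ne i
      exact ⟨j, hj.symm⟩
    apply h.1 i j hj
    rw [hu, hv]
    ring
  have hdeg : P.natDegree ≤ d := by
    refine (natDegree_prod_le _ _).trans ?_
    have h1 : ∑ i : Fin d, (C (u i) * X + C (v i) : K[X]).natDegree ≤ ∑ _i : Fin d, 1 :=
      Finset.sum_le_sum (fun i _ => natDegree_linear_le)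
    simpa using h1
  by_contra hne
  push Not at hne
  apply hP
  let f : Fin (d + 1) → K := fun k => ((k : ℕ) : K)
  refine eq_zero_of_natDegree_lt_card_of_eval_eq_zero P (f := f) ?_ ?_ ?_
  · intro a b hab
    exact Fin.ext (by exact_mod_cast (Nat.cast_injective hab))
  · intro k
    have h1 := hne k (by have := k.isLt; omega)
    have h2 := lead_cf ((k : ℕ) : ℤ) F d hF (0 : K) 1
    rw [h.eval] at h2
    rw [Finset.sum_eq_single d] at h2
    · rw [Nat.sub_self, h1] at h2
      simp only [P, eval_prod, f]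
      simp only [eval_add, eval_mul, eval_C, eval_X]
      simp at h2
      exact h2.symm
    · intro j hj hne
      have := Finset.mem_range.mp hj
      rw [zero_pow (by omega), mul_zero, zero_mul]
    · intro hn
      exact absurd (Finset.mem_range.mpr (by omega)) hn
  · rw [Fintype.card_fin]
    omega

end

/-- sum of the absolute values of the coefficients -/
noncomputable def HF (F : MvPolynomial (Fin 2) ℤ) : ℝ := ∑ m ∈ F.support, |((F.coeff m : ℤ) : ℝ)|

lemma fP_nrm_eq (d : ℕ) (c : ℕ → ℕ → ℤ) : nrm2.v (fP d c) = hS d c := by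
  have h1 : nrm2.v (fP d c) = ∑ j ∈ range (d + 1), nrm1.v ((fP d c).coeff j) :=
    nrm1.l1_eq_range _ _ (Nat.lt_succ_of_le (fP_deg2 d c).2)
  rw [h1]
  unfold hS
  refine Finset.sum_congr rfl (fun j hj => ?_)
  have hj' := Finset.mem_range.mp hj
  rw [fP_coeff, if_pos hj']
  have h2 : (∑ i ∈ range (d + 1 - j), monomial i (c i j) : ℤ[X]).natDegree < d + 1 - j := by
    have : (∑ i ∈ range (d + 1 - j), monomial i (c i j) : ℤ[X]).natDegree ≤ d - j := by
      refine natDegree_sum_le_of_forall_le _ _ (fun i hi => ?_)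
      refine (natDegree_monomial_le _).trans ?_
      have := Finset.mem_range.mp hi
      omega
    omega
  have h3 : nrm1.v (∑ i ∈ range (d + 1 - j), monomial i (c i j) : ℤ[X])
      = ∑ i' ∈ range (d + 1 - j),
        nrmInt.v ((∑ i ∈ range (d + 1 - j), monomial i (c i j) : ℤ[X]).coeff i') :=
    nrmInt.l1_eq_range _ _ h2
  rw [h3]
  refine Finset.sum_congr rfl (fun i hi => ?_)
  rw [finsetSum_coeff]
  simp only [coeff_monomial]
  rw [Finset.sum_ite_eq', if_pos hi]
  rfl

lemma hS_cf_le (k : ℕ) (F : MvPolynomial (Fin 2) ℤ) (d : ℕ) (hF : F.totalDegree ≤ d) (hk : k ≤ d) :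
    hS d (cf k F) ≤ (1 + d) ^ d * HF F := by
  rw [← fP_nrm_eq, ← shear_eq_fP k F d hF, shear_eq_sum]
  refine (nrm2.sum_le _ _).trans ?_
  unfold HF
  rw [Finset.mul_sum]
  refine Finset.sum_le_sum (fun m hm => ?_)
  have h1 : m 0 + m 1 ≤ d := by
    rw [← fin2_degree]
    exact (MvPolynomial.le_totalDegree hm).trans hF
  have hX : nrm2.v (X : ℤ[X][X]) ≤ 1 := by
    have : (X : ℤ[X][X]) = monomial 1 (monomial 0 1) := by
      rw [monomial_zero_one, monomial_one_one_eq_X]
    rw [this, nrm2_monomial]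
    simp
  have hCX : nrm2.v (C X : ℤ[X][X]) ≤ 1 := by
    have : (C X : ℤ[X][X]) = monomial 0 (monomial 1 1) := by
      rw [monomial_one_one_eq_X, monomial_zero_left]
    rw [this, nrm2_monomial]
    simp
  have hCC : ∀ z : ℤ, nrm2.v (C (C z) : ℤ[X][X]) = |(z : ℝ)| := by
    intro z
    have : (C (C z) : ℤ[X][X]) = monomial 0 (monomial 0 z) := by
      rw [monomial_zero_left, monomial_zero_left]
    rw [this, nrm2_monomial]
  have hlin : nrm2.v (C X + C (C (k : ℤ)) * X : ℤ[X][X]) ≤ 1 + d := by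
    refine (nrm2.add_le _ _).trans ?_
    have h2 := (nrm2.mul_le (C (C (k : ℤ))) (X : ℤ[X][X]))
    rw [hCC] at h2
    have h3 : |(((k : ℤ) : ℤ) : ℝ)| ≤ d := by
      push_cast
      rw [abs_of_nonneg (by positivity)]
      exact_mod_cast hk
    have h4 : |(((k : ℤ) : ℤ) : ℝ)| * nrm2.v (X : ℤ[X][X]) ≤ d * 1 :=
      mul_le_mul h3 hX (nrm2.nonneg _) (by positivity)
    linarith
  have hd0 : (0 : ℝ) ≤ d := by positivity
  calc nrm2.v (C (C (F.coeff m)) * (C X + C (C (k : ℤ)) * X) ^ m 0 * X ^ m 1)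
      ≤ |((F.coeff m : ℤ) : ℝ)| * (1 + d) ^ m 0 * 1 ^ m 1 := by
        refine (nrm2.mul_le _ _).trans ?_
        refine mul_le_mul ?_ ?_ (nrm2.nonneg _) (by positivity)
        · refine (nrm2.mul_le _ _).trans ?_
          rw [hCC]
          refine mul_le_mul_of_nonneg_left ?_ (abs_nonneg _)
          exact (nrm2.pow_le _ _).trans (pow_le_pow_left₀ (nrm2.nonneg _) hlin _)
        · exact (nrm2.pow_le _ _).trans (pow_le_pow_left₀ (nrm2.nonneg _) hX _)
    _ ≤ |((F.coeff m : ℤ) : ℝ)| * (1 + d) ^ d * 1 := by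
        rw [one_pow]
        refine mul_le_mul_of_nonneg_right ?_ zero_le_one
        refine mul_le_mul_of_nonneg_left ?_ (abs_nonneg _)
        exact pow_le_pow_right₀ (by linarith) (by omega)
    _ = (1 + d) ^ d * |((F.coeff m : ℤ) : ℝ)| := by ring

lemma hS_coeff_le (d : ℕ) (c : ℕ → ℕ → ℤ) (j i : ℕ) (hj : j < d + 1) (hi : i < d + 1 - j) :
    |(c i j : ℝ)| ≤ hS d c := by
  unfold hS
  refine le_trans ?_ (Finset.single_le_sum (f := fun j => ∑ i ∈ range (d + 1 - j), |(c i j : ℝ)|)
    (fun j _ => Finset.sum_nonneg (fun _ _ => abs_nonneg _)) (Finset.mem_range.mpr hj))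
  exact Finset.single_le_sum (f := fun i => |(c i j : ℝ)|)
    (fun i _ => abs_nonneg _) (Finset.mem_range.mpr hi)

lemma hS_mon_le (d : ℕ) (hd : 1 ≤ d) (c : ℕ → ℕ → ℤ) (h : c 0 d ≠ 0) :
    hS d (mon d c) ≤ hS d c ^ d := by
  have h1 : |(c 0 d : ℝ)| ≤ hS d c := hS_coeff_le d c d 0 (by omega) (by omega)
  have h2 : (1 : ℝ) ≤ |(c 0 d : ℝ)| := by exact_mod_cast Int.one_le_abs h
  have h3 : (1 : ℝ) ≤ hS d c := h2.trans h1
  have h4 : ∀ j ∈ range (d + 1), ∀ i ∈ range (d + 1 - j),
      |(mon d c i j : ℝ)| ≤ |(c i j : ℝ)| * hS d c ^ (d - 1) := by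
    intro j hj i hi
    have hj' := Finset.mem_range.mp hj
    have hi' := Finset.mem_range.mp hi
    unfold mon
    by_cases hjd : j = d
    · have hi0 : i = 0 := by omega
      subst hjd
      subst hi0
      simp only [if_true, Int.cast_one, abs_one]
      exact one_le_mul_of_one_le_of_one_le h2 (one_le_pow₀ h3)
    · rw [if_neg hjd]
      push_cast
      rw [abs_mul, abs_pow]
      refine mul_le_mul_of_nonneg_left ?_ (abs_nonneg _)
      calc |(c 0 d : ℝ)| ^ (d - 1 - j) ≤ hS d c ^ (d - 1 - j) :=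
            pow_le_pow_left₀ (abs_nonneg _) h1 _
        _ ≤ hS d c ^ (d - 1) := pow_le_pow_right₀ h3 (by omega)
  calc hS d (mon d c) ≤ ∑ j ∈ range (d + 1), ∑ i ∈ range (d + 1 - j),
        |(c i j : ℝ)| * hS d c ^ (d - 1) :=
        Finset.sum_le_sum (fun j hj => Finset.sum_le_sum (fun i hi => h4 j hj i hi))
    _ = hS d c * hS d c ^ (d - 1) := by
        conv_rhs => rw [hS, Finset.sum_mul]
        refine Finset.sum_congr rfl (fun j _ => ?_)
        rw [Finset.sum_mul]
        rfl
    _ = hS d c ^ d := by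
        rw [← pow_succ']; congr 1; omega

end Pool.Agent.H20
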