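import Pool.Agent.H20.Gen4

set_option autoImplicit false

namespace Pool.Agent.H20

open Polynomial Finset NumberField

section

variable {R : Type*} [CommRing R]

/-- the change of variables `x ↦ x + k y` over a general ring -/
noncomputable def shR (k : R) : MvPolynomial (Fin 2) R →+* R[X][X] :=
  MvPolynomial.eval₂Hom (C.comp C) ![C X + C (C k) * X, X]

/-- inverse of `shR` -/
noncomputable def unshR (k : R) : R[X][X] →+* MvPolynomial (Fin 2) R :=
  eval₂RingHom (eval₂RingHom MvPolynomial.C
    (MvPolynomial.X 0 - MvPolynomial.C k * MvPolynomial.X 1)) (MvPolynomial.X 1)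

lemma shR_C (k r : R) : shR k (MvPolynomial.C r) = C (C r) := by simp [shR]

lemma shR_X0 (k : R) : shR k (MvPolynomial.X 0) = C X + C (C k) * X := by simp [shR]

lemma shR_X1 (k : R) : shR k (MvPolynomial.X 1) = X := by simp [shR]

lemma unshR_CC (k r : R) : unshR k (C (C r)) = MvPolynomial.C r := by simp [unshR]

lemma unshR_CX (k : R) : unshR k (C X)
    = MvPolynomial.X 0 - MvPolynomial.C k * MvPolynomial.X 1 := by simp [unshR]

lemma unshR_X (k : R) : unshR k X = MvPolynomial.X 1 := by simp [unshR]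

lemma unshR_shR (k : R) : (unshR k).comp (shR k) = RingHom.id _ := by
  apply MvPolynomial.ringHom_ext
  · intro r
    change unshR k (shR k (MvPolynomial.C r)) = MvPolynomial.C r
    rw [shR_C, unshR_CC]
  · intro i
    fin_cases i
    · change unshR k (shR k (MvPolynomial.X 0)) = MvPolynomial.X 0
      rw [shR_X0, map_add, map_mul, unshR_CX, unshR_X, unshR_CC]
      ring
    · change unshR k (shR k (MvPolynomial.X 1)) = MvPolynomial.X 1
      rw [shR_X1, unshR_X]

lemma shR_unshR (k : R) : (shR k).comp (unshR k) = RingHom.id _ := by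
  apply Polynomial.ringHom_ext'
  · apply Polynomial.ringHom_ext'
    · ext1 r
      change shR k (unshR k (C (C r))) = C (C r)
      rw [unshR_CC, shR_C]
    · change shR k (unshR k (C X)) = C X
      rw [unshR_CX, map_sub, map_mul, shR_X0, shR_X1, shR_C]
      ring
  · change shR k (unshR k X) = X
    rw [unshR_X, shR_X1]

lemma shR_irreducible (k : R) (F : MvPolynomial (Fin 2) R) (hF : Irreducible F) :
    Irreducible (shR k F) :=
  (MulEquiv.irreducible_iff
    (RingEquiv.ofRingHom (shR k) (unshR k) (shR_unshR k) (unshR_shR k))).mpr hF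

lemma shear_map (k : ℤ) (F : MvPolynomial (Fin 2) ℤ) :
    (shear k F).map (mapRingHom (Int.castRingHom R))
      = shR (k : R) (MvPolynomial.map (Int.castRingHom R) F) := by
  have h : ((mapRingHom (mapRingHom (Int.castRingHom R))).comp (shear k))
      = (shR (k : R)).comp (MvPolynomial.map (Int.castRingHom R)) := by
    apply MvPolynomial.ringHom_ext
    · intro r
      have h1 : (MvPolynomial.C r : MvPolynomial (Fin 2) ℤ) = ((r : ℤ) : MvPolynomial (Fin 2) ℤ) := by
        simp
      rw [h1, map_intCast, map_intCast]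
    · intro i
      fin_cases i
      · change mapRingHom (mapRingHom (Int.castRingHom R)) (shear k (MvPolynomial.X 0))
          = shR (k : R) (MvPolynomial.map (Int.castRingHom R) (MvPolynomial.X 0))
        rw [shear_X0, MvPolynomial.map_X, shR_X0]
        simp
      · change mapRingHom (mapRingHom (Int.castRingHom R)) (shear k (MvPolynomial.X 1))
          = shR (k : R) (MvPolynomial.map (Int.castRingHom R) (MvPolynomial.X 1))
        rw [shear_X1, MvPolynomial.map_X, shR_X1]
        simp
  exact RingHom.congr_fun h F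

end

lemma mon_irreducible' (d : ℕ) (hd : 1 ≤ d) (c : ℕ → ℕ → ℤ) (h : c 0 d ≠ 0)
    (hirr : Irreducible ((fP d c).map (mapRingHom (Int.castRingHom ℚ)))) :
    Irreducible (fP d (mon d c)) := by
  have hm := fP_monic d (mon d c) (mon_top d c)
  have hdeg := fP_natDegree d (mon d c) (mon_top d c)
  have hcQ : ((c 0 d : ℤ) : ℚ) ≠ 0 := by exact_mod_cast h
  rw [hm.irreducible_iff_natDegree]
  refine ⟨?_, ?_⟩
  · intro h1
    rw [h1, natDegree_one] at hdeg
    omega
  · intro f g hf hg hfg
    have hprime : Prime ((fP d c).map (mapRingHom (Int.castRingHom ℚ))) := hirr.prime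
    have hcomp := congrArg (Polynomial.map (mapRingHom (Int.castRingHom ℚ))) (mon_comp d hd c)
    rw [← hfg, mul_comp, Polynomial.map_mul, Polynomial.map_mul, map_comp, map_comp] at hcomp
    set S : ℚ[X][X] := Polynomial.map (mapRingHom (Int.castRingHom ℚ)) (C (C (c 0 d)) * X) with hS
    have hSeq : S = C (C ((c 0 d : ℤ) : ℚ)) * X := by
      rw [hS]; simp
    set f' := f.map (mapRingHom (Int.castRingHom ℚ)) with hf'
    set g' := g.map (mapRingHom (Int.castRingHom ℚ)) with hg'
    have hdvd : (fP d c).map (mapRingHom (Int.castRingHom ℚ)) ∣ f'.comp S * g'.comp S := by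
      rw [hcomp]; exact Dvd.intro_left _ rfl
    have hnd : ∀ q : ℚ[X][X], (q.comp S).natDegree = q.natDegree := by
      intro q
      rw [natDegree_comp, hSeq, natDegree_C_mul_X _ (by simpa using hcQ), mul_one]
    have hf'm : f'.Monic := hf.map _
    have hg'm : g'.Monic := hg.map _
    have hne : ∀ q : ℚ[X][X], q.Monic → q.comp S ≠ 0 := by
      intro q hq h0
      by_cases hq0 : q.natDegree = 0
      · rw [hq.natDegree_eq_zero.mp hq0, one_comp] at h0
        exact one_ne_zero h0
      · apply hq0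
        rw [← hnd q, h0, natDegree_zero]
    have hsum : f.natDegree + g.natDegree = d := by
      rw [← hdeg, ← hfg, hf.natDegree_mul hg]
    have hfn : f'.natDegree = f.natDegree := hf.natDegree_map _
    have hgn : g'.natDegree = g.natDegree := hg.natDegree_map _
    have hinj : Function.Injective (mapRingHom (Int.castRingHom ℚ)) :=
      Polynomial.map_injective _ (RingHom.injective_int _)
    have hdc : ((fP d c).map (mapRingHom (Int.castRingHom ℚ))).natDegree = d := by
      rw [natDegree_map_eq_of_injective hinj, fP_natDegree' d c h]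
    rcases hprime.dvd_or_dvd hdvd with h1 | h1
    · right
      have := natDegree_le_of_dvd h1 (hne f' hf'm)
      rw [hnd, hdc] at this
      omega
    · left
      have := natDegree_le_of_dvd h1 (hne g' hg'm)
      rw [hnd, hdc] at this
      omega

/-- The bound for all polynomials irreducible over `ℚ` whose leading form splits over `K`. -/
theorem general_bound' (d : ℕ) (hd : 3 ≤ d) (K : Type) [Field K] [NumberField K] :
    ∃ A : ℝ, 1 ≤ A ∧ ∀ F : MvPolynomial (Fin 2) ℤ,
      Irreducible (MvPolynomial.map (Int.castRingHom ℚ) F) → F.totalDegree ≤ d →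
      ∀ u v : Fin d → K, LeadSplits K d F u v →
      ∀ x y : ℤ, MvPolynomial.eval ![x, y] F = 0 →
        |(x : ℝ)| ≤ A * HF F ^ (d * (kap d + 1)) ∧ |(y : ℝ)| ≤ A * HF F ^ (d * (kap d + 1)) := by
  obtain ⟨A, hA1, hA⟩ := monic_case K d hd
  refine ⟨(1 + d) * (A * ((1 + d) ^ d) ^ (d * (kap d + 1))), ?_, ?_⟩
  · have h1 : (1 : ℝ) ≤ 1 + d := by
      have : (0 : ℝ) ≤ d := by positivity
      linarith
    exact one_le_mul_of_one_le_of_one_le h1
      (one_le_mul_of_one_le_of_one_le hA1 (one_le_pow₀ (one_le_pow₀ h1)))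
  intro F hirr hF u v hL x y hxy
  have hd1 : 1 ≤ d := by omega
  obtain ⟨k, hkd, hk0⟩ := exists_shear d (by omega) F hF u v hL
  have hk0' : cf (k : ℤ) F 0 d ≠ 0 := hk0
  set c := cf (k : ℤ) F with hc
  have hirr2 : Irreducible ((fP d c).map (mapRingHom (Int.castRingHom ℚ))) := by
    rw [hc, ← shear_eq_fP k F d hF, shear_map]
    exact shR_irreducible _ _ hirr
  have hirr3 := mon_irreducible' d hd1 c hk0' hirr2
  -- the point
  have h1 : evalEval (x - k * y) y (fP d c) = 0 := by
    have h2 := evR_shear (R := ℤ) (k : ℤ) (x - k * y) y F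
    rw [shear_eq_fP k F d hF, Int.cast_id] at h2
    have h3 : MvPolynomial.eval₂ (Int.castRingHom ℤ) ![x - k * y + (k : ℤ) * y, y] F = 0 := by
      have h4 : (x - k * y + (k : ℤ) * y) = x := by ring
      rw [h4, ← hxy]
      have h5 : (Int.castRingHom ℤ) = RingHom.id ℤ := RingHom.ext_int _ _
      rw [h5, MvPolynomial.eval₂_id]
    rw [h3] at h2
    rw [← h2]
    have h6 : (Int.castRingHom ℤ) = RingHom.id ℤ := RingHom.ext_int _ _
    unfold evR evalEval
    rw [h6, coe_eval₂RingHom]
    have h7 : (eval₂RingHom (RingHom.id ℤ) (x - k * y)) = evalRingHom (x - k * y) := by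
      ext <;> simp
    rw [h7, eval₂_evalRingHom]
  have h2 : evalEval (x - k * y) (c 0 d * y) (fP d (mon d c)) = 0 := by
    have h3 := congrArg (evalEval (x - k * y) y) (mon_comp d hd1 c)
    rw [evalEval_mul, h1, mul_zero] at h3
    rw [← h3]
    unfold evalEval
    rw [eval_comp]
    simp
  obtain ⟨ha, hb⟩ := hA (mon d c) (mon_top d c) hirr3
    (ld_mon_splits d hd1 k F hF u v hL hk0') (ld_mon_simple d hd1 k F hF u v hL hk0')
    (x - k * y) (c 0 d * y) h2
  -- sizes
  have hH0 : 0 ≤ HF F := Finset.sum_nonneg (fun _ _ => abs_nonneg _)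
  have hS1 : hS d (mon d c) ≤ ((1 + d) ^ d * HF F) ^ d :=
    (hS_mon_le d hd1 c hk0').trans
      (pow_le_pow_left₀ (hS_nonneg _ _) (hS_cf_le k F d hF hkd) _)
  have hS2 : (1 : ℝ) ≤ hS d (mon d c) := one_le_hS d _ (mon_top d c)
  set X := A * (((1 + d) ^ d) ^ (d * (kap d + 1)) * HF F ^ (d * (kap d + 1))) with hX
  have hpow : A * hS d (mon d c) ^ (kap d + 1) ≤ X := by
    rw [hX]
    refine mul_le_mul_of_nonneg_left ?_ (by linarith)
    calc hS d (mon d c) ^ (kap d + 1) ≤ (((1 + d) ^ d * HF F) ^ d) ^ (kap d + 1) :=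
          pow_le_pow_left₀ (hS_nonneg _ _) hS1 _
      _ = ((1 + d) ^ d) ^ (d * (kap d + 1)) * HF F ^ (d * (kap d + 1)) := by
          rw [← pow_mul, mul_pow]
  have ha' : |((x - k * y : ℤ) : ℝ)| ≤ X := by
    refine ha.trans (le_trans ?_ hpow)
    refine mul_le_mul_of_nonneg_left ?_ (by linarith)
    exact pow_le_pow_right₀ hS2 (by omega)
  have hb' : |(y : ℝ)| ≤ X := by
    refine le_trans ?_ (hb.trans hpow)
    push_cast
    rw [abs_mul]
    have : (1 : ℝ) ≤ |(c 0 d : ℝ)| := by exact_mod_cast Int.one_le_abs hk0'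
    nlinarith [abs_nonneg (y : ℝ)]
  have hX0 : 0 ≤ X := (abs_nonneg _).trans hb'
  have hx' : |(x : ℝ)| ≤ (1 + d) * X := by
    have h3 : (x : ℝ) = ((x - k * y : ℤ) : ℝ) + k * y := by push_cast; ring
    have hkR : (k : ℝ) ≤ d := by exact_mod_cast hkd
    calc |(x : ℝ)| = |((x - k * y : ℤ) : ℝ) + k * y| := by rw [← h3]
      _ ≤ |((x - k * y : ℤ) : ℝ)| + |(k : ℝ) * y| := abs_add_le _ _
      _ = |((x - k * y : ℤ) : ℝ)| + k * |(y : ℝ)| := by
          rw [abs_mul, abs_of_nonneg (by positivity : (0 : ℝ) ≤ k)]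
      _ ≤ X + d * X := add_le_add ha' (mul_le_mul hkR hb' (abs_nonneg _) (by positivity))
      _ = (1 + d) * X := by ring
  have e1 : (1 + d) * (A * ((1 + d) ^ d) ^ (d * (kap d + 1))) * HF F ^ (d * (kap d + 1))
      = (1 + d) * X := by rw [hX]; ring
  rw [e1]
  refine ⟨hx', hb'.trans ?_⟩
  have : (0 : ℝ) ≤ d := by positivity
  nlinarith

end Pool.Agent.H20
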