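import Pool.Agent.H20.Tau

set_option autoImplicit false

namespace Pool.Agent.H20

open Polynomial Finset Metric

/-- Parametrised contraction: the fixed point is holomorphic. -/
lemma branch_exists (Θ : ℂ → ℂ → ℂ) (ρ ε : ℝ) (hε : 0 ≤ ε)
    (hmap : ∀ t ∈ ball (0 : ℂ) ρ, ∀ ζ : ℂ, ‖ζ‖ ≤ ε → ‖Θ t ζ‖ ≤ ε)
    (hlip : ∀ t ∈ ball (0 : ℂ) ρ, ∀ ζ ζ' : ℂ, ‖ζ‖ ≤ ε → ‖ζ'‖ ≤ ε →
      ‖Θ t ζ - Θ t ζ'‖ ≤ (1 / 2) * ‖ζ - ζ'‖)
    (hdiff : ∀ h : ℂ → ℂ, DifferentiableOn ℂ h (ball (0 : ℂ) ρ) →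
      (∀ t ∈ ball (0 : ℂ) ρ, ‖h t‖ ≤ ε) → DifferentiableOn ℂ (fun t => Θ t (h t)) (ball (0 : ℂ) ρ)) :
    ∃ Z : ℂ → ℂ, DifferentiableOn ℂ Z (ball (0 : ℂ) ρ) ∧
      ∀ t ∈ ball (0 : ℂ) ρ, ‖Z t‖ ≤ ε ∧ Θ t (Z t) = Z t := by
  let z : ℕ → ℂ → ℂ := fun n => Nat.rec (fun _ => 0) (fun _ w t => Θ t (w t)) n
  have hz0 : ∀ t, z 0 t = 0 := fun t => rfl
  have hzs : ∀ n t, z (n + 1) t = Θ t (z n t) := fun n t => rfl
  have hzb : ∀ n, ∀ t ∈ ball (0 : ℂ) ρ, ‖z n t‖ ≤ ε := by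
    intro n
    induction n with
    | zero => intro t _; rw [hz0]; simpa using hε
    | succ n ih => intro t ht; rw [hzs]; exact hmap t ht _ (ih t ht)
  have hzd : ∀ n, DifferentiableOn ℂ (z n) (ball (0 : ℂ) ρ) := by
    intro n
    induction n with
    | zero => exact differentiableOn_const 0
    | succ n ih => exact hdiff _ ih (hzb n)
  have hstep : ∀ n, ∀ t ∈ ball (0 : ℂ) ρ, ‖z (n + 1) t - z n t‖ ≤ ε * (1 / 2) ^ n := by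
    intro n
    induction n with
    | zero =>
      intro t ht
      rw [hz0, sub_zero, pow_zero, mul_one]
      exact hzb 1 t ht
    | succ n ih =>
      intro t ht
      have h1 := hlip t ht _ _ (hzb (n + 1) t ht) (hzb n t ht)
      rw [← hzs (n + 1), ← hzs n] at h1
      refine h1.trans ?_
      rw [pow_succ]
      have := ih t ht
      linarith
  have hcauchy : ∀ t ∈ ball (0 : ℂ) ρ, CauchySeq (fun n => z n t) := by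
    intro t ht
    refine cauchySeq_of_le_geometric (1 / 2) ε (by norm_num) (fun n => ?_)
    rw [dist_comm, dist_eq_norm]
    exact hstep n t ht
  have hex : ∀ t : ℂ, ∃ w : ℂ, t ∈ ball (0 : ℂ) ρ →
      Filter.Tendsto (fun n => z n t) Filter.atTop (nhds w) := by
    intro t
    by_cases ht : t ∈ ball (0 : ℂ) ρ
    · obtain ⟨w, hw⟩ := cauchySeq_tendsto_of_complete (hcauchy t ht)
      exact ⟨w, fun _ => hw⟩
    · exact ⟨0, fun h => absurd h ht⟩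
  choose Z hlim using hex
  have hdist : ∀ n, ∀ t ∈ ball (0 : ℂ) ρ, dist (z n t) (Z t) ≤ ε * (1 / 2) ^ n / (1 - 1 / 2) := by
    intro n t ht
    refine dist_le_of_le_geometric_of_tendsto (1 / 2) ε (by norm_num) (fun m => ?_) (hlim t ht) n
    rw [dist_comm, dist_eq_norm]
    exact hstep m t ht
  have hunif : TendstoUniformlyOn z Z Filter.atTop (ball (0 : ℂ) ρ) := by
    rw [Metric.tendstoUniformlyOn_iff]
    intro η hη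
    have h1 : Filter.Tendsto (fun n : ℕ => ε * (1 / 2 : ℝ) ^ n / (1 - 1 / 2)) Filter.atTop (nhds 0) := by
      have h2 := (tendsto_pow_atTop_nhds_zero_of_lt_one (by norm_num : (0:ℝ) ≤ 1 / 2)
        (by norm_num : (1 / 2 : ℝ) < 1))
      have h3 := (h2.const_mul ε).div_const (1 - 1 / 2)
      simpa using h3
    filter_upwards [h1.eventually (gt_mem_nhds hη)] with n hn t ht
    rw [dist_comm]
    exact lt_of_le_of_lt (hdist n t ht) hn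
  refine ⟨Z, ?_, ?_⟩
  · exact hunif.tendstoLocallyUniformlyOn.differentiableOn (Filter.Eventually.of_forall hzd)
      isOpen_ball
  · intro t ht
    have hZb : ‖Z t‖ ≤ ε :=
      le_of_tendsto (hlim t ht).norm (Filter.Eventually.of_forall (fun n => hzb n t ht))
    refine ⟨hZb, ?_⟩
    have h1 : Filter.Tendsto (fun n => Θ t (z n t)) Filter.atTop (nhds (Θ t (Z t))) := by
      rw [tendsto_iff_norm_sub_tendsto_zero]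
      have h2 : Filter.Tendsto (fun n => (1 / 2 : ℝ) * ‖z n t - Z t‖) Filter.atTop (nhds 0) := by
        have h3 := (tendsto_iff_norm_sub_tendsto_zero.mp (hlim t ht)).const_mul (1 / 2 : ℝ)
        simpa using h3
      exact squeeze_zero (fun n => norm_nonneg _)
        (fun n => hlip t ht _ _ (hzb n t ht) hZb) h2
    have h2 : Filter.Tendsto (fun n => z (n + 1) t) Filter.atTop (nhds (Z t)) :=
      (hlim t ht).comp (Filter.tendsto_add_atTop_nat 1)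
    exact tendsto_nhds_unique h1 h2

section

variable {R : Type*} [CommRing R] (ν : Nrm R) (φ : R →+* ℂ)

lemma eval₂_lip (hφ : ∀ a, ‖φ a‖ ≤ ν.v a) (p : R[X]) (d : ℕ) (hd : p.natDegree ≤ d) (ζ ζ' : ℂ)
    (hζ : ‖ζ‖ ≤ 1) (hζ' : ‖ζ'‖ ≤ 1) :
    ‖eval₂ φ ζ p - eval₂ φ ζ' p‖ ≤ d * ν.l1 p * ‖ζ - ζ'‖ := by
  rw [eval₂_eq_sum, eval₂_eq_sum, Polynomial.sum_def, Polynomial.sum_def,
    ← Finset.sum_sub_distrib]
  refine (norm_sum_le _ _).trans ?_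
  have h1 : ∀ i ∈ p.support, ‖φ (p.coeff i) * ζ ^ i - φ (p.coeff i) * ζ' ^ i‖
      ≤ ν.v (p.coeff i) * (d * ‖ζ - ζ'‖) := by
    intro i hi
    rw [← mul_sub, norm_mul]
    refine mul_le_mul (hφ _) ?_ (norm_nonneg _) (ν.nonneg _)
    rw [← (Commute.all ζ ζ').geom_sum₂_mul, norm_mul]
    refine mul_le_mul_of_nonneg_right ?_ (norm_nonneg _)
    refine (norm_sum_le _ _).trans ?_
    calc ∑ j ∈ range i, ‖ζ ^ j * ζ' ^ (i - 1 - j)‖ ≤ ∑ _j ∈ range i, (1 : ℝ) := by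
          refine Finset.sum_le_sum (fun j _ => ?_)
          rw [norm_mul, norm_pow, norm_pow]
          exact mul_le_one₀ (pow_le_one₀ (norm_nonneg _) hζ) (pow_nonneg (norm_nonneg _) _)
            (pow_le_one₀ (norm_nonneg _) hζ')
      _ = (i : ℝ) := by simp
      _ ≤ d := by exact_mod_cast (le_natDegree_of_mem_supp i hi).trans hd
  refine (Finset.sum_le_sum h1).trans ?_
  rw [← Finset.sum_mul]
  apply le_of_eq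
  unfold Nrm.l1
  ring

lemma ev_lip (hφ : ∀ a, ‖φ a‖ ≤ ν.v a) (u : R[X][X]) (d : ℕ)
    (hd : ∀ i, (u.coeff i).natDegree ≤ d) (t ζ ζ' : ℂ) (ht : ‖t‖ ≤ 1)
    (hζ : ‖ζ‖ ≤ 1) (hζ' : ‖ζ'‖ ≤ 1) :
    ‖ev φ t ζ u - ev φ t ζ' u‖ ≤ d * ν.poly.l1 u * ‖ζ - ζ'‖ := by
  have h0 : ∀ w : ℂ, ev φ t w u = ∑ i ∈ u.support, eval₂ φ w (u.coeff i) * t ^ i := by
    intro w
    change eval₂ (eval₂RingHom φ w) t u = _
    rw [eval₂_eq_sum, Polynomial.sum_def]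
    rfl
  rw [h0, h0, ← Finset.sum_sub_distrib]
  refine (norm_sum_le _ _).trans ?_
  have h1 : ∀ i ∈ u.support, ‖eval₂ φ ζ (u.coeff i) * t ^ i - eval₂ φ ζ' (u.coeff i) * t ^ i‖
      ≤ ν.poly.v (u.coeff i) * (d * ‖ζ - ζ'‖) := by
    intro i hi
    rw [← sub_mul, norm_mul, norm_pow]
    have h2 := eval₂_lip ν φ hφ (u.coeff i) d (hd i) ζ ζ' hζ hζ'
    calc ‖eval₂ φ ζ (u.coeff i) - eval₂ φ ζ' (u.coeff i)‖ * ‖t‖ ^ i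
        ≤ (d * ν.l1 (u.coeff i) * ‖ζ - ζ'‖) * 1 := by
          refine mul_le_mul h2 (pow_le_one₀ (norm_nonneg _) ht) (pow_nonneg (norm_nonneg _) _) ?_
          exact (norm_nonneg _).trans h2
      _ = ν.poly.v (u.coeff i) * (d * ‖ζ - ζ'‖) := by
          change _ = ν.l1 (u.coeff i) * _
          ring
  refine (Finset.sum_le_sum h1).trans ?_
  rw [← Finset.sum_mul]
  apply le_of_eq
  change (∑ i ∈ u.support, ν.poly.v (u.coeff i)) * _ = d * (∑ i ∈ u.support, ν.poly.v (u.coeff i)) * _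
  ring

lemma ev_split (t ζ : ℂ) (Φ : R[X][X]) (hΦ : c0 Φ = 0) :
    ev φ t ζ Φ = t * ev φ t ζ Φ.divX + ζ * eval₂ φ ζ (tB Φ) := by
  have h2 : Φ = X * Φ.divX + C (X * tB Φ) := by
    conv_lhs => rw [← X_mul_divX_add Φ]
    conv_lhs => rw [← X_mul_divX_add (Φ.coeff 0)]
    have : (Φ.coeff 0).coeff 0 = 0 := hΦ
    rw [this, C_0, add_zero]
    rfl
  conv_lhs => rw [h2]
  rw [map_add, map_mul]
  have e1 : ev φ t ζ (C (X * tB Φ)) = ζ * eval₂ φ ζ (tB Φ) := by simp [ev]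
  have e3 : ev φ t ζ X = t := by simp [ev]
  rw [e1, e3]

/-- lower bound for the cofactor -/
lemma norm_tB_ge (hφ : ∀ a, ‖φ a‖ ≤ ν.v a) (Φ : R[X][X]) (ζ : ℂ) (hζ : ‖ζ‖ ≤ 1) (β : ℝ)
    (hβ : β ≤ ‖φ ((tB Φ).coeff 0)‖) (h2 : ‖ζ‖ * ν.poly.l1 Φ ≤ β / 2) :
    β / 2 ≤ ‖eval₂ φ ζ (tB Φ)‖ := by
  have h3 : eval₂ φ ζ (tB Φ) = ζ * eval₂ φ ζ (tB Φ).divX + φ ((tB Φ).coeff 0) := by
    conv_lhs => rw [← X_mul_divX_add (tB Φ)]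
    rw [eval₂_add, eval₂_mul, eval₂_X, eval₂_C]
  have h4 : ‖eval₂ φ ζ (tB Φ).divX‖ ≤ ν.poly.l1 Φ := by
    refine (ν.eval₂_le nrmC φ hφ ζ hζ _).trans ?_
    exact (ν.l1_divX_le _).trans ((ν.l1_divX_le _).trans (ν.poly.coeff_le _ _))
  have h5 : ‖ζ * eval₂ φ ζ (tB Φ).divX‖ ≤ β / 2 := by
    rw [norm_mul]
    exact (mul_le_mul_of_nonneg_left h4 (norm_nonneg _)).trans h2
  have h6 : ‖φ ((tB Φ).coeff 0)‖ ≤ ‖eval₂ φ ζ (tB Φ)‖ + ‖ζ * eval₂ φ ζ (tB Φ).divX‖ := by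
    have : φ ((tB Φ).coeff 0) = eval₂ φ ζ (tB Φ) - ζ * eval₂ φ ζ (tB Φ).divX := by
      rw [h3]; ring
    rw [this]
    exact norm_sub_le _ _
  linarith

/-- The analytic branch at infinity. -/
theorem analytic_branch (hφ : ∀ a, ‖φ a‖ ≤ ν.v a) (Φ : R[X][X]) (hΦ : c0 Φ = 0) (d : ℕ)
    (hd1 : 1 ≤ d) (hd : ∀ i, (Φ.coeff i).natDegree ≤ d) (H β : ℝ) (hH1 : 1 ≤ H)
    (hH : ν.poly.l1 Φ ≤ H) (hβ0 : 0 < β) (hβ1 : β ≤ 1) (hβ : β ≤ ‖φ ((tB Φ).coeff 0)‖) :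
    ∃ Z : ℂ → ℂ, DifferentiableOn ℂ Z (ball (0 : ℂ) (β ^ 2 / (16 * d * H ^ 2))) ∧
      ∀ t ∈ ball (0 : ℂ) (β ^ 2 / (16 * d * H ^ 2)), ‖Z t‖ ≤ β / (2 * H) ∧
        ev φ t (Z t) Φ = 0 ∧
        ∀ ζ : ℂ, ‖ζ‖ ≤ β / (2 * H) → (β / 4) * ‖ζ - Z t‖ ≤ ‖ev φ t ζ Φ‖ := by
  obtain ⟨ρ, hρ⟩ : ∃ ρ : ℝ, ρ = β ^ 2 / (16 * d * H ^ 2) := ⟨_, rfl⟩
  obtain ⟨ε, hε⟩ : ∃ ε : ℝ, ε = β / (2 * H) := ⟨_, rfl⟩
  rw [← hρ, ← hε]
  have hd1' : (1 : ℝ) ≤ d := by exact_mod_cast hd1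
  have hH0 : 0 < H := by linarith
  have hε0 : 0 ≤ ε := by rw [hε]; positivity
  have hε1 : ε ≤ 1 := by
    rw [hε, div_le_one (by positivity)]; linarith
  have hρ0 : 0 ≤ ρ := by rw [hρ]; positivity
  have hρ1 : ρ ≤ 1 := by
    rw [hρ, div_le_one (by positivity)]
    have h1 : β ^ 2 ≤ 1 := pow_le_one₀ hβ0.le hβ1
    have h2 : (1 : ℝ) ≤ H ^ 2 := one_le_pow₀ hH1
    nlinarith
  have hl0 := ν.poly.l1_nonneg Φ
  have hBge : ∀ ζ : ℂ, ‖ζ‖ ≤ ε → β / 2 ≤ ‖eval₂ φ ζ (tB Φ)‖ := by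
    intro ζ hζ
    refine norm_tB_ge ν φ hφ Φ ζ (hζ.trans hε1) β hβ ?_
    calc ‖ζ‖ * ν.poly.l1 Φ ≤ ε * H := mul_le_mul hζ hH hl0 hε0
      _ = β / 2 := by rw [hε]; field_simp
  have hBne : ∀ ζ : ℂ, ‖ζ‖ ≤ ε → eval₂ φ ζ (tB Φ) ≠ 0 := by
    intro ζ hζ h0
    have := hBge ζ hζ
    rw [h0, norm_zero] at this
    linarith
  have hAle : ∀ t ζ : ℂ, ‖t‖ ≤ 1 → ‖ζ‖ ≤ 1 → ‖ev φ t ζ Φ.divX‖ ≤ H := by
    intro t ζ ht hζ
    exact (ev_le ν φ hφ t ζ ht hζ _).trans ((ν.poly.l1_divX_le _).trans hH)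
  have hAlip : ∀ t ζ ζ' : ℂ, ‖t‖ ≤ 1 → ‖ζ‖ ≤ 1 → ‖ζ'‖ ≤ 1 →
      ‖ev φ t ζ Φ.divX - ev φ t ζ' Φ.divX‖ ≤ d * H * ‖ζ - ζ'‖ := by
    intro t ζ ζ' ht hζ hζ'
    refine (ev_lip ν φ hφ Φ.divX d (fun i => by rw [coeff_divX]; exact hd _) t ζ ζ' ht hζ hζ').trans ?_
    refine mul_le_mul_of_nonneg_right ?_ (norm_nonneg _)
    exact mul_le_mul_of_nonneg_left ((ν.poly.l1_divX_le _).trans hH) (by positivity)
  have hBlip : ∀ ζ ζ' : ℂ, ‖ζ‖ ≤ 1 → ‖ζ'‖ ≤ 1 →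
      ‖eval₂ φ ζ (tB Φ) - eval₂ φ ζ' (tB Φ)‖ ≤ d * H * ‖ζ - ζ'‖ := by
    intro ζ ζ' hζ hζ'
    have hdeg : (tB Φ).natDegree ≤ d := by
      unfold tB
      rw [natDegree_divX_eq_natDegree_tsub_one]
      exact (Nat.sub_le _ _).trans (hd 0)
    refine (eval₂_lip ν φ hφ (tB Φ) d hdeg ζ ζ' hζ hζ').trans ?_
    refine mul_le_mul_of_nonneg_right ?_ (norm_nonneg _)
    refine mul_le_mul_of_nonneg_left ?_ (by positivity)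
    exact (ν.l1_divX_le _).trans ((ν.poly.coeff_le _ _).trans hH)
  let Θ : ℂ → ℂ → ℂ := fun t ζ => -(t * ev φ t ζ Φ.divX) / eval₂ φ ζ (tB Φ)
  have hball : ∀ t ∈ ball (0 : ℂ) ρ, ‖t‖ ≤ ρ := by
    intro t ht
    rw [mem_ball_zero_iff] at ht
    exact ht.le
  -- fixed points are zeros
  have hfix : ∀ t ζ : ℂ, ‖ζ‖ ≤ ε → (Θ t ζ = ζ ↔ ev φ t ζ Φ = 0) := by
    intro t ζ hζ
    have hne := hBne ζ hζ
    rw [ev_split φ t ζ Φ hΦ]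
    simp only [Θ]
    rw [div_eq_iff hne]
    constructor
    · intro h; linear_combination -h
    · intro h; linear_combination -h
  have hmap : ∀ t ∈ ball (0 : ℂ) ρ, ∀ ζ : ℂ, ‖ζ‖ ≤ ε → ‖Θ t ζ‖ ≤ ε := by
    intro t ht ζ hζ
    have ht' := hball t ht
    have hB := hBge ζ hζ
    simp only [Θ]
    rw [norm_div, norm_neg, norm_mul, div_le_iff₀ (by linarith)]
    have h1 : ‖t‖ * ‖ev φ t ζ Φ.divX‖ ≤ ρ * H :=
      mul_le_mul ht' (hAle t ζ (ht'.trans hρ1) (hζ.trans hε1)) (norm_nonneg _) hρ0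
    have h2 : ρ * H ≤ ε * (β / 2) := by
      rw [hρ, hε]
      rw [div_mul_eq_mul_div, div_mul_eq_mul_div, div_le_div_iff₀ (by positivity) (by positivity)]
      have h3 : β ^ 2 * H * (2 * H) = 2 * (β ^ 2 * H ^ 2) := by ring
      have h4 : β * (β / 2) * (16 * d * H ^ 2) = 8 * d * (β ^ 2 * H ^ 2) := by ring
      rw [h3, h4]
      have h5 : 0 ≤ β ^ 2 * H ^ 2 := by positivity
      nlinarith
    calc ‖t‖ * ‖ev φ t ζ Φ.divX‖ ≤ ε * (β / 2) := h1.trans h2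
      _ ≤ ε * ‖eval₂ φ ζ (tB Φ)‖ := mul_le_mul_of_nonneg_left hB hε0
  have hlip : ∀ t ∈ ball (0 : ℂ) ρ, ∀ ζ ζ' : ℂ, ‖ζ‖ ≤ ε → ‖ζ'‖ ≤ ε →
      ‖Θ t ζ - Θ t ζ'‖ ≤ (1 / 2) * ‖ζ - ζ'‖ := by
    intro t ht ζ ζ' hζ hζ'
    have ht' := hball t ht
    have hB := hBge ζ hζ
    have hB' := hBge ζ' hζ'
    have hne := hBne ζ hζ
    have hne' := hBne ζ' hζ'
    have hz1 := hζ.trans hε1
    have hz1' := hζ'.trans hε1
    have ht1 := ht'.trans hρ1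
    have e1 : Θ t ζ - Θ t ζ' = -(t * ((ev φ t ζ Φ.divX - ev φ t ζ' Φ.divX) * eval₂ φ ζ' (tB Φ)
        - ev φ t ζ' Φ.divX * (eval₂ φ ζ (tB Φ) - eval₂ φ ζ' (tB Φ))))
          / (eval₂ φ ζ (tB Φ) * eval₂ φ ζ' (tB Φ)) := by
      simp only [Θ]
      field_simp
      ring
    rw [e1, norm_div, norm_neg, norm_mul, norm_mul]
    have hBH : ‖eval₂ φ ζ' (tB Φ)‖ ≤ H := by
      refine (ν.eval₂_le nrmC φ hφ ζ' hz1' _).trans ?_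
      exact (ν.l1_divX_le _).trans ((ν.poly.coeff_le _ _).trans hH)
    have h1 : ‖(ev φ t ζ Φ.divX - ev φ t ζ' Φ.divX) * eval₂ φ ζ' (tB Φ)
        - ev φ t ζ' Φ.divX * (eval₂ φ ζ (tB Φ) - eval₂ φ ζ' (tB Φ))‖
        ≤ 2 * d * H ^ 2 * ‖ζ - ζ'‖ := by
      refine (norm_sub_le _ _).trans ?_
      rw [norm_mul, norm_mul]
      have h2 : ‖ev φ t ζ Φ.divX - ev φ t ζ' Φ.divX‖ * ‖eval₂ φ ζ' (tB Φ)‖
          ≤ (d * H * ‖ζ - ζ'‖) * H :=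
        mul_le_mul (hAlip t ζ ζ' ht1 hz1 hz1') hBH (norm_nonneg _) (by positivity)
      have h3 : ‖ev φ t ζ' Φ.divX‖ * ‖eval₂ φ ζ (tB Φ) - eval₂ φ ζ' (tB Φ)‖
          ≤ H * (d * H * ‖ζ - ζ'‖) :=
        mul_le_mul (hAle t ζ' ht1 hz1') (hBlip ζ ζ' hz1 hz1') (norm_nonneg _) hH0.le
      nlinarith
    have hBB : β ^ 2 / 4 ≤ ‖eval₂ φ ζ (tB Φ)‖ * ‖eval₂ φ ζ' (tB Φ)‖ := by
      calc β ^ 2 / 4 = (β / 2) * (β / 2) := by ring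
        _ ≤ _ := mul_le_mul hB hB' (by positivity) (norm_nonneg _)
    have hBB0 : 0 < ‖eval₂ φ ζ (tB Φ)‖ * ‖eval₂ φ ζ' (tB Φ)‖ :=
      lt_of_lt_of_le (by positivity) hBB
    rw [div_le_iff₀ hBB0]
    have h4 : ‖t‖ * ‖(ev φ t ζ Φ.divX - ev φ t ζ' Φ.divX) * eval₂ φ ζ' (tB Φ)
        - ev φ t ζ' Φ.divX * (eval₂ φ ζ (tB Φ) - eval₂ φ ζ' (tB Φ))‖
        ≤ ρ * (2 * d * H ^ 2 * ‖ζ - ζ'‖) :=
      mul_le_mul ht' h1 (norm_nonneg _) hρ0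
    have h5 : ρ * (2 * d * H ^ 2 * ‖ζ - ζ'‖) = β ^ 2 / 8 * ‖ζ - ζ'‖ := by
      rw [hρ]
      field_simp
      ring
    have h6 : 1 / 2 * ‖ζ - ζ'‖ * (β ^ 2 / 4) ≤ 1 / 2 * ‖ζ - ζ'‖ *
        (‖eval₂ φ ζ (tB Φ)‖ * ‖eval₂ φ ζ' (tB Φ)‖) :=
      mul_le_mul_of_nonneg_left hBB (by positivity)
    have h7 := norm_nonneg (ζ - ζ')
    calc _ ≤ ρ * (2 * d * H ^ 2 * ‖ζ - ζ'‖) := h4
      _ = 1 / 2 * ‖ζ - ζ'‖ * (β ^ 2 / 4) := by rw [h5]; ring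
      _ ≤ _ := h6
  have hdiff : ∀ h : ℂ → ℂ, DifferentiableOn ℂ h (ball (0 : ℂ) ρ) →
      (∀ t ∈ ball (0 : ℂ) ρ, ‖h t‖ ≤ ε) →
      DifferentiableOn ℂ (fun t => Θ t (h t)) (ball (0 : ℂ) ρ) := by
    intro h hh hb
    have hp : ∀ p : R[X], DifferentiableOn ℂ (fun t => eval₂ φ (h t) p) (ball (0 : ℂ) ρ) := by
      intro p
      simp only [eval₂_eq_sum, Polynomial.sum_def]
      refine DifferentiableOn.fun_sum (fun i _ => ?_)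
      exact (differentiableOn_const _).mul (hh.pow i)
    have hu : ∀ u : R[X][X], DifferentiableOn ℂ (fun t => ev φ t (h t) u) (ball (0 : ℂ) ρ) := by
      intro u
      have h0 : ∀ t : ℂ, ev φ t (h t) u = ∑ i ∈ u.support, eval₂ φ (h t) (u.coeff i) * t ^ i := by
        intro t
        change eval₂ (eval₂RingHom φ (h t)) t u = _
        rw [eval₂_eq_sum, Polynomial.sum_def]
        rfl
      simp only [h0]
      refine DifferentiableOn.fun_sum (fun i _ => ?_)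
      exact (hp _).mul (differentiableOn_id.pow i)
    have h1 : DifferentiableOn ℂ (fun t : ℂ => -(t * ev φ t (h t) Φ.divX)) (ball (0 : ℂ) ρ) :=
      (differentiableOn_id.mul (hu _)).neg
    exact h1.div (hp (tB Φ)) (fun t ht => hBne _ (hb t ht))
  obtain ⟨Z, hZd, hZ⟩ := branch_exists Θ ρ ε hε0 hmap hlip hdiff
  refine ⟨Z, hZd, fun t ht => ⟨(hZ t ht).1, (hfix t _ (hZ t ht).1).mp (hZ t ht).2, ?_⟩⟩
  intro ζ hζ
  have h2 := hlip t ht ζ (Z t) hζ (hZ t ht).1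
  rw [(hZ t ht).2] at h2
  have hne := hBne ζ hζ
  have h3 : ev φ t ζ Φ = (ζ - Θ t ζ) * eval₂ φ ζ (tB Φ) := by
    rw [ev_split φ t ζ Φ hΦ]
    simp only [Θ]
    field_simp
    ring
  rw [h3, norm_mul]
  have h4 : ‖ζ - Z t‖ ≤ ‖ζ - Θ t ζ‖ + ‖Θ t ζ - Z t‖ := by
    have : ζ - Z t = (ζ - Θ t ζ) + (Θ t ζ - Z t) := by ring
    rw [this]
    exact norm_add_le _ _
  have h5 : (1 / 2) * ‖ζ - Z t‖ ≤ ‖ζ - Θ t ζ‖ := by linarith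
  have h6 := hBge ζ hζ
  calc β / 4 * ‖ζ - Z t‖ = ((1 / 2) * ‖ζ - Z t‖) * (β / 2) := by ring
    _ ≤ ‖ζ - Θ t ζ‖ * ‖eval₂ φ ζ (tB Φ)‖ :=
      mul_le_mul h5 h6 (by positivity) (norm_nonneg _)

end

end Pool.Agent.H20
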