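import Mathlib

set_option autoImplicit false

namespace Pool.Agent.H20

lemma natAbs_eq_encode (z : ℤ) : z.natAbs = (Encodable.encode z + 1) / 2 := by
  rcases z with n | n
  · have h : Encodable.encode (Int.ofNat n) = 2 * n := rfl
    rw [h]
    simp only [Int.ofNat_eq_natCast, Int.natAbs_natCast]
    omega
  · have h : Encodable.encode (Int.negSucc n) = 2 * n + 1 := rfl
    rw [h, Int.natAbs_negSucc]
    omega

lemma primrec_natAbs : Primrec (fun z : ℤ => z.natAbs) := by
  have h : (fun z : ℤ => z.natAbs) = fun z => (Encodable.encode z + 1) / 2 :=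
    funext natAbs_eq_encode
  rw [h]
  exact Primrec.nat_div.comp (Primrec.succ.comp Primrec.encode) (Primrec.const 2)

lemma primrec_sum : Primrec (fun L : List (ℕ × ℕ × ℤ) => (L.map (fun t => t.2.2.natAbs)).sum) := by
  have h : (fun L : List (ℕ × ℕ × ℤ) => (L.map (fun t => t.2.2.natAbs)).sum)
      = fun L => L.foldr (fun t s => t.2.2.natAbs + s) 0 := by
    funext L
    induction L with
    | nil => rfl
    | cons t L ih => simp only [List.map_cons, List.sum_cons, List.foldr_cons, ih]
  rw [h]
  refine Primrec.list_foldr (f := fun L : List (ℕ × ℕ × ℤ) => L) (g := fun _ => (0 : ℕ))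
    (h := fun _ p => p.1.2.2.natAbs + p.2) Primrec.id (Primrec.const 0) ?_
  refine Primrec.nat_add.comp ?_ ?_
  · exact primrec_natAbs.comp (Primrec.snd.comp (Primrec.snd.comp (Primrec.fst.comp Primrec.snd)))
  · exact Primrec.snd.comp Primrec.snd

lemma primrec_pow (k : ℕ) {f : List (ℕ × ℕ × ℤ) → ℕ} (hf : Primrec f) :
    Primrec (fun L => f L ^ k) := by
  induction k with
  | zero => simpa using Primrec.const 1
  | succ k ih =>
    have h : (fun L => f L ^ (k + 1)) = fun L => f L ^ k * f L := by
      funext L; rw [pow_succ]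
    rw [h]
    exact Primrec.nat_mul.comp ih hf

lemma computable_bound (C k : ℕ) : Computable (fun L : List (ℕ × ℕ × ℤ) =>
    C * ((L.map (fun t => t.2.2.natAbs)).sum) ^ k) :=
  (Primrec.nat_mul.comp (Primrec.const C) (primrec_pow k primrec_sum)).to_comp

end Pool.Agent.H20
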