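import Pool.Agent.H20.L1

set_option autoImplicit false

namespace Pool.Agent.H20

open Polynomial Finset NumberField Module

attribute [local instance] Matrix.seminormedAddCommGroup

section

variable (K : Type*) [Field K] [NumberField K]

/-- The house as a seminorm on the ring of integers. -/
noncomputable def nrmHouse : Nrm (𝓞 K) where
  v a := house (algebraMap (𝓞 K) K a)
  nonneg a := house_nonneg _
  zero := by
    have h := house_intCast (K := K) 0
    simpa using h
  one_le := by
    have h := house_intCast (K := K) 1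
    simp only [Int.cast_one, abs_one] at h
    rw [map_one, h]
  add_le a b := by rw [map_add]; exact house_add_le _ _
  mul_le a b := by rw [map_mul]; exact house_mul_le _ _
  neg a := by
    rw [map_neg]
    unfold house
    rw [map_neg, norm_neg]

/-- Integer coordinates of an algebraic integer are bounded by its house. -/
lemma exists_coord_bound : ∃ cK : ℝ, 1 ≤ cK ∧ ∀ (x : 𝓞 K) (i : Free.ChooseBasisIndex ℤ (𝓞 K)),
    |(((RingOfIntegers.basis K).repr x i : ℤ) : ℝ)| ≤ cK * (nrmHouse K).v x := by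
  classical
  obtain ⟨c, hc⟩ : ∃ c : ℝ, ∀ (x : 𝓞 K) (i : K →+* ℂ),
      ‖(((integralBasis K).reindex (equivReindex K).symm).repr x i : ℂ)‖ ≤
        c * house (algebraMap (𝓞 K) K x) :=
    ⟨_, fun x i => house.basis_repr_norm_le_const_mul_house K x i⟩
  refine ⟨max 1 c, le_max_left _ _, fun x i => ?_⟩
  have h1 := hc x ((equivReindex K).symm i)
  rw [Basis.repr_reindex_apply, Equiv.symm_symm, Equiv.apply_symm_apply,
    integralBasis_repr_apply] at h1
  have h2 : ‖(((algebraMap ℤ ℚ) ((RingOfIntegers.basis K).repr x i) : ℚ) : ℂ)‖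
      = |(((RingOfIntegers.basis K).repr x i : ℤ) : ℝ)| := by
    simp
  rw [h2] at h1
  refine h1.trans ?_
  exact mul_le_mul_of_nonneg_right (le_max_right _ _) (house_nonneg _)

/-- Siegel's lemma with coefficients in the ring of integers and integer unknowns. -/
theorem siegel_int (cK : ℝ) (hcK1 : 1 ≤ cK)
    (hcK : ∀ (x : 𝓞 K) (i : Free.ChooseBasisIndex ℤ (𝓞 K)),
      |(((RingOfIntegers.basis K).repr x i : ℤ) : ℝ)| ≤ cK * (nrmHouse K).v x)
    {P U : Type} [Fintype P] [Fintype U] [Nonempty P]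
    (M : P → U → 𝓞 K) (A : ℝ) (hA1 : 1 ≤ A) (hA : ∀ p u, (nrmHouse K).v (M p u) ≤ A)
    (hcard : 8 * (finrank ℚ K * Fintype.card P) ≤ 7 * Fintype.card U) :
    ∃ g : U → ℤ, g ≠ 0 ∧ (∀ p, ∑ u, (g u : 𝓞 K) * M p u = 0) ∧
      ∀ u, |(g u : ℝ)| ≤ ((Fintype.card U : ℝ) * (cK * A)) ^ 7 := by
  classical
  set I := Free.ChooseBasisIndex ℤ (𝓞 K)
  have hI : Fintype.card I = finrank ℚ K := by
    rw [← RingOfIntegers.rank K, finrank_eq_card_chooseBasisIndex]
  let B := RingOfIntegers.basis K
  let Mz : Matrix (P × I) U ℤ := fun pi u => B.repr (M pi.1 u) pi.2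
  have hfr : 0 < finrank ℚ K := finrank_pos
  have hP : 0 < Fintype.card P := Fintype.card_pos
  have hm : Fintype.card (P × I) = finrank ℚ K * Fintype.card P := by
    rw [Fintype.card_prod, hI, mul_comm]
  have hmpos : 0 < Fintype.card (P × I) := by rw [hm]; positivity
  have hmn : Fintype.card (P × I) < Fintype.card U := by
    rw [hm] at hmpos ⊢
    omega
  obtain ⟨t, ht0, htM, htn⟩ := Int.Matrix.exists_ne_zero_int_vec_norm_le Mz hmn hmpos
  refine ⟨t, ht0, ?_, ?_⟩
  · intro p
    apply B.repr.injective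
    rw [map_zero]
    ext i
    have h1 := congrFun htM (p, i)
    simp only [Matrix.mulVec, dotProduct, Pi.zero_apply, Mz] at h1
    rw [map_sum, Finsupp.finsetSum_apply, Finsupp.zero_apply, ← h1]
    refine Finset.sum_congr rfl (fun u _ => ?_)
    have h2 : (t u : 𝓞 K) * M p u = t u • M p u := by rw [zsmul_eq_mul]
    rw [h2, map_zsmul, Finsupp.smul_apply, smul_eq_mul, mul_comm]
  · intro u
    have hnorm : |(t u : ℝ)| ≤ ‖t‖ := by
      have := norm_le_pi_norm t u
      rwa [Int.norm_eq_abs] at this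
    refine hnorm.trans (htn.trans ?_)
    have hMz : ‖Mz‖ ≤ cK * A := by
      rw [Matrix.norm_le_iff (by positivity)]
      rintro ⟨p, i⟩ u
      rw [Int.norm_eq_abs]
      refine (hcK (M p u) i).trans ?_
      exact mul_le_mul_of_nonneg_left (hA p u) (by linarith)
    have hcA1 : 1 ≤ cK * A := one_le_mul_of_one_le_of_one_le hcK1 hA1
    have hmax : max 1 ‖Mz‖ ≤ cK * A := max_le hcA1 hMz
    have hU1 : (1 : ℝ) ≤ Fintype.card U := by
      have : 1 ≤ Fintype.card U := by omega
      exact_mod_cast this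
    have hbase : (Fintype.card U : ℝ) * max 1 ‖Mz‖ ≤ (Fintype.card U : ℝ) * (cK * A) :=
      mul_le_mul_of_nonneg_left hmax (by linarith)
    have hbase1 : 1 ≤ (Fintype.card U : ℝ) * (cK * A) :=
      one_le_mul_of_one_le_of_one_le hU1 hcA1
    have hexp : ((Fintype.card (P × I) : ℝ) / ((Fintype.card U : ℝ) - (Fintype.card (P × I) : ℝ)))
        ≤ 7 := by
      have h3 : ((Fintype.card (P × I) : ℝ)) < (Fintype.card U : ℝ) := by exact_mod_cast hmn
      rw [div_le_iff₀ (by linarith)]
      have h4 : (8 : ℝ) * (Fintype.card (P × I) : ℝ) ≤ 7 * (Fintype.card U : ℝ) := by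
        rw [hm]
        exact_mod_cast hcard
      linarith
    have hexp0 : 0 ≤ ((Fintype.card (P × I) : ℝ) / ((Fintype.card U : ℝ) - (Fintype.card (P × I) : ℝ))) := by
      have h3 : ((Fintype.card (P × I) : ℝ)) < (Fintype.card U : ℝ) := by exact_mod_cast hmn
      apply div_nonneg (by positivity) (by linarith)
    calc ((Fintype.card U : ℝ) * max 1 ‖Mz‖)
          ^ ((Fintype.card (P × I) : ℝ) / ((Fintype.card U : ℝ) - (Fintype.card (P × I) : ℝ)))
        ≤ ((Fintype.card U : ℝ) * (cK * A))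
          ^ ((Fintype.card (P × I) : ℝ) / ((Fintype.card U : ℝ) - (Fintype.card (P × I) : ℝ))) := by
          apply Real.rpow_le_rpow _ hbase hexp0
          have : (0:ℝ) ≤ max 1 ‖Mz‖ := le_trans zero_le_one (le_max_left _ _)
          positivity
      _ ≤ ((Fintype.card U : ℝ) * (cK * A)) ^ (7 : ℝ) :=
          Real.rpow_le_rpow_of_exponent_le hbase1 hexp
      _ = ((Fintype.card U : ℝ) * (cK * A)) ^ 7 := by
          norm_cast

end

end Pool.Agent.H20
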