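import Pool.Agent.H20.DivP
import Pool.Agent.H20.Branch
import Pool.Agent.H20.Siegel

set_option autoImplicit false

namespace Pool.Agent.H20

open Polynomial Finset

/-- `f = ∑_{i+j ≤ d} c i j x^i y^j` -/
noncomputable def fP (d : ℕ) (c : ℕ → ℕ → ℤ) : ℤ[X][X] :=
  ∑ j ∈ range (d + 1), monomial j (∑ i ∈ range (d + 1 - j), monomial i (c i j))

/-- sum of the absolute values of the coefficients -/
noncomputable def hS (d : ℕ) (c : ℕ → ℕ → ℤ) : ℝ :=
  ∑ j ∈ range (d + 1), ∑ i ∈ range (d + 1 - j), |(c i j : ℝ)|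

lemma hS_nonneg (d : ℕ) (c : ℕ → ℕ → ℤ) : 0 ≤ hS d c :=
  Finset.sum_nonneg (fun _ _ => Finset.sum_nonneg (fun _ _ => abs_nonneg _))

lemma fP_coeff (d : ℕ) (c : ℕ → ℕ → ℤ) (j : ℕ) :
    (fP d c).coeff j = if j < d + 1 then ∑ i ∈ range (d + 1 - j), monomial i (c i j) else 0 := by
  unfold fP
  rw [finsetSum_coeff]
  simp only [coeff_monomial]
  rw [Finset.sum_ite_eq']
  simp

lemma fP_deg2 (d : ℕ) (c : ℕ → ℕ → ℤ) : Deg2 (fP d c) d d := by
  constructor
  · intro j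
    rw [fP_coeff]
    split_ifs with h
    · refine natDegree_sum_le_of_forall_le _ _ (fun i hi => ?_)
      refine (natDegree_monomial_le _).trans ?_
      have := Finset.mem_range.mp hi
      omega
    · simp
  · rw [natDegree_le_iff_coeff_eq_zero]
    intro j hj
    rw [fP_coeff, if_neg (by omega)]

lemma fP_coeff_top (d : ℕ) (c : ℕ → ℕ → ℤ) (h : c 0 d = 1) : (fP d c).coeff d = 1 := by
  rw [fP_coeff, if_pos (by omega)]
  have : d + 1 - d = 1 := by omega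
  rw [this, Finset.sum_range_one, h]
  rfl

lemma fP_monic (d : ℕ) (c : ℕ → ℕ → ℤ) (h : c 0 d = 1) : (fP d c).Monic :=
  monic_of_natDegree_le_of_coeff_eq_one d (fP_deg2 d c).2 (fP_coeff_top d c h)

lemma fP_natDegree (d : ℕ) (c : ℕ → ℕ → ℤ) (h : c 0 d = 1) : (fP d c).natDegree = d := by
  refine le_antisymm (fP_deg2 d c).2 (le_natDegree_of_ne_zero ?_)
  rw [fP_coeff_top d c h]
  exact one_ne_zero

lemma fP_nrm (d : ℕ) (c : ℕ → ℕ → ℤ) : nrm2.v (fP d c) ≤ hS d c := by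
  unfold fP hS
  refine (nrm2.sum_le _ _).trans (Finset.sum_le_sum (fun j _ => ?_))
  change nrm1.l1 _ ≤ _
  rw [nrm1.l1_monomial]
  refine (nrm1.sum_le _ _).trans (Finset.sum_le_sum (fun i _ => ?_))
  change nrmInt.l1 _ ≤ _
  rw [nrmInt.l1_monomial]
  rfl

lemma fP_evC (d : ℕ) (c : ℕ → ℕ → ℤ) (x y : ℂ) :
    evC x y (fP d c) = ∑ j ∈ range (d + 1), ∑ i ∈ range (d + 1 - j), (c i j : ℂ) * x ^ i * y ^ j := by
  unfold fP
  rw [map_sum]
  refine Finset.sum_congr rfl (fun j _ => ?_)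
  rw [← C_mul_X_pow_eq_monomial, map_mul, map_pow, evC_X, evC_C, eval₂_finsetSum, Finset.sum_mul]
  refine Finset.sum_congr rfl (fun i _ => ?_)
  rw [eval₂_monomial]
  rfl

section

variable {R : Type*} [CommRing R]

/-- the equation near the point at infinity in the direction `α`:
`t^d f(1/t, (α+ζ)/t)` -/
noncomputable def Phi (d : ℕ) (c : ℕ → ℕ → ℤ) (α : R) : R[X][X] :=
  ∑ j ∈ range (d + 1), ∑ i ∈ range (d + 1 - j),
    monomial (d - i - j) (C ((c i j : ℤ) : R) * (X + C α) ^ j)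

/-- monomials `t^m z^j` -/
noncomputable def mono (α : R) (m j : ℕ) : R[X][X] := monomial m ((X + C α) ^ j)

lemma l1_X_add_C_pow_le (ν : Nrm R) (α : R) (j : ℕ) : ν.l1 ((X + C α) ^ j) ≤ (1 + ν.v α) ^ j := by
  refine (ν.poly.pow_le _ _).trans (pow_le_pow_left₀ (ν.poly.nonneg _) ?_ _)
  refine (ν.poly.add_le _ _).trans ?_
  have h1 : ν.poly.v (X : R[X]) ≤ 1 := by
    change ν.l1 X ≤ 1
    rw [← monomial_one_one_eq_X, ν.l1_monomial]
    exact ν.one_le
  have h2 : ν.poly.v (C α : R[X]) = ν.v α := ν.l1_C α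
  rw [h2]
  linarith

lemma mono_l1 (ν : Nrm R) (α : R) (m j d : ℕ) (hj : j ≤ d) :
    ν.poly.l1 (mono α m j) ≤ (1 + ν.v α) ^ d := by
  unfold mono
  rw [ν.poly.l1_monomial]
  refine (l1_X_add_C_pow_le ν α j).trans ?_
  exact pow_le_pow_right₀ (by have := ν.nonneg α; linarith) hj

lemma ev_C (φ : R →+* ℂ) (t ζ : ℂ) (p : R[X]) : ev φ t ζ (C p) = eval₂ φ ζ p := by
  simp [ev]

lemma ev_X (φ : R →+* ℂ) (t ζ : ℂ) : ev φ t ζ X = t := by
  simp [ev]

lemma ev_mono (φ : R →+* ℂ) (t ζ : ℂ) (α : R) (m j : ℕ) :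
    ev φ t ζ (mono α m j) = t ^ m * (ζ + φ α) ^ j := by
  unfold mono
  rw [← C_mul_X_pow_eq_monomial, map_mul (ev φ t ζ), map_pow (ev φ t ζ), ev_C, ev_X, eval₂_pow,
    eval₂_add, eval₂_X, eval₂_C, mul_comm]

lemma nrm_intCast_le (ν : Nrm R) (z : ℤ) : ν.v (z : R) ≤ |(z : ℝ)| := by
  rcases Int.natAbs_eq z with h | h
  · rw [h]
    simpa using ν.natCast_le z.natAbs
  · rw [h]
    push_cast
    rw [ν.neg, abs_neg]
    simpa using ν.natCast_le z.natAbs

lemma Phi_l1 (ν : Nrm R) (d : ℕ) (c : ℕ → ℕ → ℤ) (α : R) :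
    ν.poly.l1 (Phi d c α) ≤ hS d c * (1 + ν.v α) ^ d := by
  unfold Phi hS
  have h0 := ν.nonneg α
  rw [Finset.sum_mul]
  refine (ν.poly.l1_sum_le' _ _).trans (Finset.sum_le_sum (fun j hj => ?_))
  rw [Finset.sum_mul]
  refine (ν.poly.l1_sum_le' _ _).trans (Finset.sum_le_sum (fun i _ => ?_))
  rw [ν.poly.l1_monomial]
  refine (ν.poly.mul_le _ _).trans ?_
  have h1 : ν.poly.v (C ((c i j : ℤ) : R)) ≤ |(c i j : ℝ)| := by
    change ν.l1 _ ≤ _
    rw [ν.l1_C]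
    exact nrm_intCast_le ν _
  have h2 : ν.poly.v ((X + C α) ^ j) ≤ (1 + ν.v α) ^ d := by
    refine (l1_X_add_C_pow_le ν α j).trans ?_
    exact pow_le_pow_right₀ (by linarith) (by have := Finset.mem_range.mp hj; omega)
  exact mul_le_mul h1 h2 (ν.poly.nonneg _) (abs_nonneg _)

lemma Phi_coeff_natDegree (d : ℕ) (c : ℕ → ℕ → ℤ) (α : R) (k : ℕ) :
    ((Phi d c α).coeff k).natDegree ≤ d := by
  unfold Phi
  rw [finsetSum_coeff]
  refine natDegree_sum_le_of_forall_le _ _ (fun j hj => ?_)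
  rw [finsetSum_coeff]
  refine natDegree_sum_le_of_forall_le _ _ (fun i _ => ?_)
  rw [coeff_monomial]
  split_ifs
  · refine (natDegree_C_mul_le _ _).trans ?_
    have h1 : (X + C α : R[X]).natDegree ≤ 1 := by
      refine (natDegree_add_le _ _).trans ?_
      simp only [natDegree_C, max_le_iff]
      exact ⟨natDegree_X_le, Nat.zero_le _⟩
    refine (natDegree_pow_le_of_le j h1).trans ?_
    have := Finset.mem_range.mp hj
    omega
  · simp

lemma Phi_coeff_zero (d : ℕ) (c : ℕ → ℕ → ℤ) (α : R) :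
    (Phi d c α).coeff 0 = ∑ j ∈ range (d + 1), C ((c (d - j) j : ℤ) : R) * (X + C α) ^ j := by
  unfold Phi
  rw [finsetSum_coeff]
  refine Finset.sum_congr rfl (fun j hj => ?_)
  have hj' := Finset.mem_range.mp hj
  rw [finsetSum_coeff, Finset.sum_eq_single (d - j)]
  · rw [coeff_monomial, if_pos (by omega)]
  · intro i hi hne
    rw [coeff_monomial, if_neg]
    have := Finset.mem_range.mp hi
    omega
  · intro h
    exact absurd (Finset.mem_range.mpr (by omega)) h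

lemma c0_Phi (d : ℕ) (c : ℕ → ℕ → ℤ) (α : R) :
    c0 (Phi d c α) = ∑ j ∈ range (d + 1), ((c (d - j) j : ℤ) : R) * α ^ j := by
  rw [c0_apply, Phi_coeff_zero, finsetSum_coeff]
  refine Finset.sum_congr rfl (fun j _ => ?_)
  rw [coeff_C_mul, coeff_zero_eq_eval_zero, eval_pow, eval_add, eval_X, eval_C, zero_add]

lemma tB_Phi (d : ℕ) (c : ℕ → ℕ → ℤ) (α : R) :
    (tB (Phi d c α)).coeff 0
      = ∑ j ∈ range (d + 1), ((c (d - j) j : ℤ) : R) * ((j : R) * α ^ (j - 1)) := by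
  unfold tB
  rw [coeff_divX, Phi_coeff_zero, finsetSum_coeff]
  refine Finset.sum_congr rfl (fun j _ => ?_)
  rw [coeff_C_mul]
  congr 1
  have h1 : (((X + C α) ^ j : R[X])).coeff (0 + 1) = (derivative ((X + C α) ^ j : R[X])).coeff 0 := by
    rw [coeff_derivative]; simp
  rw [h1, coeff_zero_eq_eval_zero, derivative_X_add_C_pow, eval_mul, eval_pow, eval_add, eval_X,
    eval_C, zero_add, eval_C]

lemma ev_Phi (φ : R →+* ℂ) (x ζ : ℂ) (hx : x ≠ 0) (d : ℕ) (c : ℕ → ℕ → ℤ) (α : R) :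
    x ^ d * ev φ (1 / x) ζ (Phi d c α) = evC x (x * (φ α + ζ)) (fP d c) := by
  rw [fP_evC]
  unfold Phi
  rw [map_sum, Finset.mul_sum]
  refine Finset.sum_congr rfl (fun j hj => ?_)
  rw [map_sum, Finset.mul_sum]
  refine Finset.sum_congr rfl (fun i hi => ?_)
  have hj' := Finset.mem_range.mp hj
  have hi' := Finset.mem_range.mp hi
  rw [← C_mul_X_pow_eq_monomial, map_mul, map_pow]
  have e1 : ev φ (1 / x) ζ (C (C ((c i j : ℤ) : R) * (X + C α) ^ j))
      = (c i j : ℂ) * (ζ + φ α) ^ j := by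
    rw [ev_C, eval₂_mul, eval₂_C, eval₂_pow, eval₂_add, eval₂_X, eval₂_C, map_intCast]
  rw [e1, ev_X]
  have h3 : x ^ d = x ^ (i + j) * x ^ (d - i - j) := by rw [← pow_add]; congr 1; omega
  rw [h3, mul_pow, one_div, inv_pow]
  have h4 : x ^ (d - i - j) ≠ 0 := pow_ne_zero _ hx
  field_simp
  ring

end

end Pool.Agent.H20
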