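import Pool.Agent.H20.Gap5

set_option autoImplicit false

namespace Pool.Agent.H20

open Polynomial Finset NumberField Module Metric

/-- A curve with an integral point near a point at infinity; the point is large compared with
the height of the curve. -/
structure Pt (K : Type*) [Field K] [NumberField K] (φ : 𝓞 K →+* ℂ) (d : ℕ) where
  c : ℕ → ℕ → ℤ
  α : 𝓞 K
  a : ℤ
  b : ℤ
  top : c 0 d = 1
  irr : Irreducible (fP d c)
  root : c0 (Phi d c α) = 0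
  simple : (tB (Phi d c α)).coeff 0 ≠ 0
  a_ne : a ≠ 0
  zero : evalEval a b (fP d c) = 0
  y : ℝ
  y_two : 2 ≤ y
  y_pow : |(a : ℝ)| = y ^ kap d
  hS_le : hS d c ≤ y
  α_le : 1 + (nrmHouse K).v α ≤ y
  near : ‖(b : ℂ) / a - φ α‖ ≤ 1 / (4 * (y ^ 2) ^ (3 * d ^ 2 + d + 1))

section

variable {K : Type*} [Field K] [NumberField K] {φ : 𝓞 K →+* ℂ} {d : ℕ}

/-- change of level -/
def Pt.toCP (P : Pt K φ d) (h : ℝ) (h1 : P.y ≤ h) (h2 : h ≤ P.y ^ 2) : CP K φ d h where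
  c := P.c
  α := P.α
  a := P.a
  b := P.b
  top := P.top
  irr := P.irr
  root := P.root
  simple := P.simple
  hS_le := P.hS_le.trans h1
  α_le := P.α_le.trans h1
  a_ne := P.a_ne
  zero := P.zero
  near := by
    refine P.near.trans ?_
    have hy := P.y_two
    have hh : 0 < h := by linarith
    have e1 : bet d h / (4 * h ^ (d + 1)) = 1 / (4 * h ^ (3 * d ^ 2 + d + 1)) := by
      unfold bet
      have : h ^ (3 * d ^ 2 + d + 1) = h ^ (3 * d ^ 2) * h ^ (d + 1) := by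
        rw [← pow_add]; congr 1
      rw [this]
      have h3 : h ^ (3 * d ^ 2) ≠ 0 := by positivity
      have h4 : h ^ (d + 1) ≠ 0 := by positivity
      field_simp
    rw [e1]
    apply one_div_le_one_div_of_le (by positivity)
    have : h ^ (3 * d ^ 2 + d + 1) ≤ (P.y ^ 2) ^ (3 * d ^ 2 + d + 1) :=
      pow_le_pow_left₀ hh.le h2 _
    linarith

theorem Pt.bounded (ψ : K →+* ℂ) (hψ : φ = ψ.comp (algebraMap (𝓞 K) K)) (hd : 3 ≤ d)
    (he : finrank ℚ K ≤ d) : ∃ A : ℝ, ∀ P : Pt K φ d, P.y ≤ A := by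
  by_contra hne
  push Not at hne
  obtain ⟨cK, hcK1, hcK⟩ := exists_coord_bound (K := K)
  obtain ⟨P₁, hP₁⟩ := hne cK
  have hy2 := P₁.y_two
  obtain ⟨P₂, hP₂⟩ := hne (P₁.y ^ (68 * d ^ 2))
  have hy1 : 1 < P₁.y := by linarith
  have hP₂1 : 1 ≤ P₂.y := by have := P₂.y_two; linarith
  obtain ⟨n, hn1, hn2⟩ := exists_nat_pow_near hP₂1 hy1
  have hn : 68 * d ^ 2 ≤ n := by
    by_contra hlt
    push Not at hlt
    have h1 : P₁.y ^ (n + 1) ≤ P₁.y ^ (68 * d ^ 2) := pow_le_pow_right₀ hy1.le hlt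
    linarith
  have hn0 : 1 ≤ n := by
    have : 0 < 68 * d ^ 2 := by positivity
    omega
  have hlev : P₁.y ^ (n + 1) ≤ P₂.y ^ 2 := by
    calc P₁.y ^ (n + 1) ≤ P₁.y ^ (n * 2) := pow_le_pow_right₀ hy1.le (by omega)
      _ = (P₁.y ^ n) ^ 2 := pow_mul _ _ _
      _ ≤ P₂.y ^ 2 := pow_le_pow_left₀ (by positivity) hn1 2
  refine gap φ ψ hψ cK hcK1 hcK d n hd hn he P₁.y hy2 hP₁.le
    (P₁.toCP P₁.y le_rfl (by nlinarith)) (P₂.toCP (P₁.y ^ (n + 1)) hn2.le hlev) P₁.y_pow ?_ ?_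
  · change _ ≤ |(P₂.a : ℝ)|
    rw [P₂.y_pow, mul_comm (kap d) n, pow_mul]
    exact pow_le_pow_left₀ (by positivity) hn1 _
  · change |(P₂.a : ℝ)| ≤ _
    rw [P₂.y_pow, mul_comm (kap d) (n + 1), pow_mul]
    exact pow_le_pow_left₀ (by linarith) hn2.le _

end

/-- the leading form, dehomogenised -/
noncomputable def ld (d : ℕ) (c : ℕ → ℕ → ℤ) : ℤ[X] :=
  ∑ j ∈ range (d + 1), monomial j (c (d - j) j)

lemma ld_coeff (d : ℕ) (c : ℕ → ℕ → ℤ) (j : ℕ) :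
    (ld d c).coeff j = if j < d + 1 then c (d - j) j else 0 := by
  unfold ld
  rw [finsetSum_coeff]
  simp only [coeff_monomial]
  rw [Finset.sum_ite_eq']
  simp

lemma ld_monic (d : ℕ) (c : ℕ → ℕ → ℤ) (h : c 0 d = 1) : (ld d c).Monic := by
  refine monic_of_natDegree_le_of_coeff_eq_one d ?_ ?_
  · rw [natDegree_le_iff_coeff_eq_zero]
    intro j hj
    rw [ld_coeff, if_neg (by omega)]
  · rw [ld_coeff, if_pos (by omega), Nat.sub_self, h]

lemma ld_natDegree (d : ℕ) (c : ℕ → ℕ → ℤ) (h : c 0 d = 1) : (ld d c).natDegree = d := by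
  refine le_antisymm ?_ (le_natDegree_of_ne_zero ?_)
  · rw [natDegree_le_iff_coeff_eq_zero]
    intro j hj
    rw [ld_coeff, if_neg (by omega)]
  · rw [ld_coeff, if_pos (by omega), Nat.sub_self, h]
    exact one_ne_zero

lemma eval₂_ld {R : Type*} [CommRing R] (d : ℕ) (c : ℕ → ℕ → ℤ) (α : R) :
    eval₂ (Int.castRingHom R) α (ld d c) = ∑ j ∈ range (d + 1), ((c (d - j) j : ℤ) : R) * α ^ j := by
  unfold ld
  rw [eval₂_finsetSum]
  refine Finset.sum_congr rfl (fun j _ => ?_)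
  rw [eval₂_monomial]
  rfl

lemma c0_Phi_eq {R : Type*} [CommRing R] (d : ℕ) (c : ℕ → ℕ → ℤ) (α : R) :
    c0 (Phi d c α) = eval₂ (Int.castRingHom R) α (ld d c) := by
  rw [c0_Phi, eval₂_ld]

lemma tB_Phi_eq {R : Type*} [CommRing R] (d : ℕ) (c : ℕ → ℕ → ℤ) (α : R) :
    (tB (Phi d c α)).coeff 0 = eval₂ (Int.castRingHom R) α (derivative (ld d c)) := by
  rw [tB_Phi]
  unfold ld
  rw [derivative_sum, eval₂_finsetSum]
  refine Finset.sum_congr rfl (fun j _ => ?_)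
  rw [derivative_monomial, eval₂_monomial]
  push_cast
  simp only [Int.coe_castRingHom]
  push_cast
  ring

lemma one_le_hS (d : ℕ) (c : ℕ → ℕ → ℤ) (h : c 0 d = 1) : (1 : ℝ) ≤ hS d c := by
  unfold hS
  have h1 : (1 : ℝ) = ∑ i ∈ range (d + 1 - d), |(c i d : ℝ)| := by
    have : d + 1 - d = 1 := by omega
    rw [this, Finset.sum_range_one, h]; simp
  rw [h1]
  exact Finset.single_le_sum (f := fun j => ∑ i ∈ range (d + 1 - j), |(c i j : ℝ)|)
    (fun j _ => Finset.sum_nonneg (fun _ _ => abs_nonneg _)) (Finset.mem_range.mpr (by omega))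

/-- bound for the roots of a monic polynomial -/
lemma root_le_gen (d : ℕ) (c : ℕ → ℕ → ℤ) (hd : 1 ≤ d) (h : c 0 d = 1) (z : ℂ) (u : ℕ → ℕ → ℂ)
    (hu : ∀ i j, ‖u i j‖ ≤ 1) (hu0 : u 0 d = 1)
    (hz : ∑ j ∈ range (d + 1), ∑ i ∈ range (d + 1 - j), (c i j : ℂ) * u i j * z ^ j = 0) :
    ‖z‖ ≤ hS d c := by
  have hH1 := one_le_hS d c h
  by_contra hlt
  push Not at hlt
  have hz1 : 1 ≤ ‖z‖ := by linarith
  rw [Finset.sum_range_succ] at hz
  have h1 : ∑ i ∈ range (d + 1 - d), (c i d : ℂ) * u i d * z ^ d = z ^ d := by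
    have : d + 1 - d = 1 := by omega
    rw [this, Finset.sum_range_one, h, hu0]
    simp
  rw [h1] at hz
  have h2 : z ^ d = -∑ j ∈ range d, ∑ i ∈ range (d + 1 - j), (c i j : ℂ) * u i j * z ^ j := by
    rw [eq_neg_iff_add_eq_zero, add_comm]; exact hz
  have h3 : ‖z‖ ^ d ≤ (hS d c - 1) * ‖z‖ ^ (d - 1) := by
    rw [← norm_pow, h2, norm_neg]
    have h4 : hS d c - 1 = ∑ j ∈ range d, ∑ i ∈ range (d + 1 - j), |(c i j : ℝ)| := by
      unfold hS
      rw [Finset.sum_range_succ]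
      have : d + 1 - d = 1 := by omega
      rw [this, Finset.sum_range_one, h]
      simp
    rw [h4, Finset.sum_mul]
    refine (norm_sum_le _ _).trans (Finset.sum_le_sum (fun j hj => ?_))
    rw [Finset.sum_mul]
    refine (norm_sum_le _ _).trans (Finset.sum_le_sum (fun i _ => ?_))
    rw [norm_mul, norm_mul, norm_pow, Complex.norm_intCast]
    have hj' := Finset.mem_range.mp hj
    have h5 := hu i j
    have h6 : ‖z‖ ^ j ≤ ‖z‖ ^ (d - 1) := pow_le_pow_right₀ hz1 (by omega)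
    calc |(c i j : ℝ)| * ‖u i j‖ * ‖z‖ ^ j ≤ |(c i j : ℝ)| * 1 * ‖z‖ ^ (d - 1) := by
          gcongr
      _ = |(c i j : ℝ)| * ‖z‖ ^ (d - 1) := by ring
  have h7 : ‖z‖ ^ d = ‖z‖ * ‖z‖ ^ (d - 1) := by
    rw [← pow_succ']; congr 1; omega
  rw [h7] at h3
  have h8 : 0 < ‖z‖ ^ (d - 1) := by positivity
  have h9 := le_of_mul_le_mul_right h3 h8
  linarith

lemma root_le (d : ℕ) (c : ℕ → ℕ → ℤ) (hd : 1 ≤ d) (h : c 0 d = 1) (z : ℂ) (t : ℂ) (ht : ‖t‖ ≤ 1)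
    (hz : ∑ j ∈ range (d + 1), ∑ i ∈ range (d + 1 - j), (c i j : ℂ) * t ^ (d - i - j) * z ^ j = 0) :
    ‖z‖ ≤ hS d c := by
  refine root_le_gen d c hd h z (fun i j => t ^ (d - i - j)) (fun i j => ?_) (by simp) hz
  rw [norm_pow]
  exact pow_le_one₀ (norm_nonneg _) ht

lemma evC_eq_scaled (d : ℕ) (c : ℕ → ℕ → ℤ) (x r : ℂ) (hx : x ≠ 0) :
    evC x (x * r) (fP d c) = x ^ d *
      ∑ j ∈ range (d + 1), ∑ i ∈ range (d + 1 - j), (c i j : ℂ) * (1 / x) ^ (d - i - j) * r ^ j := by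
  rw [fP_evC, Finset.mul_sum]
  refine Finset.sum_congr rfl (fun j hj => ?_)
  rw [Finset.mul_sum]
  refine Finset.sum_congr rfl (fun i hi => ?_)
  have hj' := Finset.mem_range.mp hj
  have hi' := Finset.mem_range.mp hi
  have h3 : x ^ d = x ^ (i + j) * x ^ (d - i - j) := by rw [← pow_add]; congr 1; omega
  rw [h3, mul_pow, one_div, inv_pow]
  have h4 : x ^ (d - i - j) ≠ 0 := pow_ne_zero _ hx
  field_simp
  ring

/-- ratio of the coordinates of an integral point -/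
lemma ratio_le (d : ℕ) (c : ℕ → ℕ → ℤ) (hd : 1 ≤ d) (h : c 0 d = 1) (a b : ℤ) (ha : a ≠ 0)
    (hz : evalEval a b (fP d c) = 0) :
    (∑ j ∈ range (d + 1), ∑ i ∈ range (d + 1 - j),
      (c i j : ℂ) * (1 / (a : ℂ)) ^ (d - i - j) * ((b : ℂ) / a) ^ j = 0) ∧
      ‖(b : ℂ) / a‖ ≤ hS d c ∧ ‖(1 : ℂ) / a‖ ≤ 1 := by
  have haC : (a : ℂ) ≠ 0 := by exact_mod_cast ha
  have h1 := evC_eq_scaled d c (a : ℂ) ((b : ℂ) / a) haC
  have h2 : (a : ℂ) * ((b : ℂ) / a) = b := by field_simp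
  rw [h2, evC_int, hz, Int.cast_zero] at h1
  have h3 : ∑ j ∈ range (d + 1), ∑ i ∈ range (d + 1 - j),
      (c i j : ℂ) * (1 / (a : ℂ)) ^ (d - i - j) * ((b : ℂ) / a) ^ j = 0 := by
    rcases mul_eq_zero.mp h1.symm with h4 | h4
    · exact absurd h4 (pow_ne_zero _ haC)
    · exact h4
  have h5 : ‖(1 : ℂ) / a‖ ≤ 1 := by
    rw [norm_div, norm_one, Complex.norm_intCast, div_le_one]
    · exact_mod_cast Int.one_le_abs ha
    · exact abs_pos.mpr (by exact_mod_cast ha)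
  exact ⟨h3, root_le d c hd h _ _ h5 h3, h5⟩

/-- the leading form is small at the ratio -/
lemma ld_small (d : ℕ) (c : ℕ → ℕ → ℤ) (hd : 1 ≤ d) (h : c 0 d = 1) (a b : ℤ) (ha : a ≠ 0)
    (hz : evalEval a b (fP d c) = 0) :
    ‖eval₂ (Int.castRingHom ℂ) ((b : ℂ) / a) (ld d c)‖ * |(a : ℝ)| ≤ hS d c ^ (d + 1) := by
  obtain ⟨h1, h2, h3⟩ := ratio_le d c hd h a b ha hz
  have hH := one_le_hS d c h
  set r : ℂ := (b : ℂ) / a with hr
  set t : ℂ := (1 : ℂ) / a with ht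
  have hapos : 0 < |(a : ℝ)| := abs_pos.mpr (by exact_mod_cast ha)
  have htn : ‖t‖ * |(a : ℝ)| = 1 := by
    rw [ht, norm_div, norm_one, Complex.norm_intCast]
    field_simp
  have h4 : eval₂ (Int.castRingHom ℂ) r (ld d c)
      = -∑ j ∈ range (d + 1), ∑ i ∈ range (d - j), (c i j : ℂ) * t ^ (d - i - j) * r ^ j := by
    rw [eval₂_ld, eq_neg_iff_add_eq_zero, ← Finset.sum_add_distrib, ← h1]
    refine Finset.sum_congr rfl (fun j hj => ?_)
    have hj' := Finset.mem_range.mp hj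
    have e : d + 1 - j = (d - j) + 1 := by omega
    rw [e, Finset.sum_range_succ, add_comm]
    congr 1
    have : d - (d - j) - j = 0 := by omega
    rw [this, pow_zero, mul_one]
  have h5 : ‖eval₂ (Int.castRingHom ℂ) r (ld d c)‖ ≤ hS d c * (‖t‖ * hS d c ^ d) := by
    rw [h4, norm_neg]
    have h6 : ∑ j ∈ range (d + 1), ∑ i ∈ range (d - j), |(c i j : ℝ)| ≤ hS d c := by
      unfold hS
      refine Finset.sum_le_sum (fun j _ => ?_)
      refine Finset.sum_le_sum_of_subset_of_nonneg ?_ (fun _ _ _ => abs_nonneg _)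
      intro i hi
      rw [Finset.mem_range] at hi ⊢
      omega
    refine le_trans ?_ (mul_le_mul_of_nonneg_right h6 (by positivity))
    rw [Finset.sum_mul]
    refine (norm_sum_le _ _).trans (Finset.sum_le_sum (fun j hj => ?_))
    rw [Finset.sum_mul]
    refine (norm_sum_le _ _).trans (Finset.sum_le_sum (fun i hi => ?_))
    have hj' := Finset.mem_range.mp hj
    have hi' := Finset.mem_range.mp hi
    rw [norm_mul, norm_mul, norm_pow, norm_pow, Complex.norm_intCast]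
    have h7 : ‖t‖ ^ (d - i - j) ≤ ‖t‖ := by
      calc ‖t‖ ^ (d - i - j) ≤ ‖t‖ ^ 1 := pow_le_pow_of_le_one (norm_nonneg _) h3 (by omega)
        _ = ‖t‖ := pow_one _
    have h8 : ‖r‖ ^ j ≤ hS d c ^ d := by
      calc ‖r‖ ^ j ≤ hS d c ^ j := pow_le_pow_left₀ (norm_nonneg _) h2 _
        _ ≤ hS d c ^ d := pow_le_pow_right₀ hH (by omega)
    calc |(c i j : ℝ)| * ‖t‖ ^ (d - i - j) * ‖r‖ ^ j
        ≤ |(c i j : ℝ)| * ‖t‖ * hS d c ^ d := by gcongr
      _ = |(c i j : ℝ)| * (‖t‖ * hS d c ^ d) := by ring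
  calc ‖eval₂ (Int.castRingHom ℂ) r (ld d c)‖ * |(a : ℝ)|
      ≤ hS d c * (‖t‖ * hS d c ^ d) * |(a : ℝ)| := mul_le_mul_of_nonneg_right h5 hapos.le
    _ = hS d c ^ (d + 1) * (‖t‖ * |(a : ℝ)|) := by ring
    _ = hS d c ^ (d + 1) := by rw [htn, mul_one]

end Pool.Agent.H20
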