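import Pool.Agent.H20.Ded1

set_option autoImplicit false

namespace Pool.Agent.H20

open Polynomial Finset NumberField Module Metric IntermediateField

lemma multiset_pow_le_prod (s : Multiset ℝ) (δ : ℝ) (hδ : 0 ≤ δ) (h : ∀ x ∈ s, δ ≤ x) :
    δ ^ (Multiset.card s) ≤ s.prod := by
  induction s using Multiset.induction_on with
  | empty => simp
  | cons x s ih =>
    rw [Multiset.card_cons, Multiset.prod_cons, pow_succ']
    have h1 : δ ≤ x := h x (Multiset.mem_cons_self _ _)
    have h2 := ih (fun y hy => h y (Multiset.mem_cons_of_mem hy))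
    exact mul_le_mul h1 h2 (pow_nonneg hδ _) (hδ.trans h1)

lemma norm_mprod (s : Multiset ℂ) : ‖s.prod‖ = (s.map (fun z => ‖z‖)).prod := by
  induction s using Multiset.induction_on with
  | empty => simp
  | cons x s ih => rw [Multiset.prod_cons, Multiset.map_cons, Multiset.prod_cons, norm_mul, ih]

/-- uniform bound over all subfields and embeddings -/
lemma uniform_bound (K : Type) [Field K] [NumberField K] (d : ℕ) (hd : 3 ≤ d) :
    ∃ A : ℝ, 2 ≤ A ∧ ∀ (E : IntermediateField ℚ K) (ψ : E →+* ℂ), finrank ℚ E ≤ d →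
      ∀ P : Pt E (ψ.comp (algebraMap (𝓞 E) E)) d, P.y ≤ A := by
  classical
  have hfin : Finite (IntermediateField ℚ K) :=
    (Field.exists_primitive_element_iff_finite_intermediateField ℚ K).mp
      ⟨inferInstance, Field.exists_primitive_element ℚ K⟩
  let I := Σ E : IntermediateField ℚ K, (E →+* ℂ)
  have hIfin : Finite I := inferInstance
  have h1 : ∀ i : I, ∃ A : ℝ, finrank ℚ i.1 ≤ d →
      ∀ P : Pt i.1 (i.2.comp (algebraMap (𝓞 i.1) i.1)) d, P.y ≤ A := by
    intro i
    by_cases h : finrank ℚ i.1 ≤ d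
    · obtain ⟨A, hA⟩ := Pt.bounded (φ := i.2.comp (algebraMap (𝓞 i.1) i.1)) i.2 rfl hd h
      exact ⟨A, fun _ => hA⟩
    · exact ⟨0, fun h' => absurd h' h⟩
  choose A hA using h1
  obtain ⟨B, hB⟩ := (Set.finite_range A).bddAbove
  refine ⟨max 2 B, le_max_left _ _, fun E ψ he P => ?_⟩
  refine (hA ⟨E, ψ⟩ he P).trans (le_trans ?_ (le_max_right _ _))
  exact hB (Set.mem_range_self _)

lemma house_le_of_root (E : Type) [Field E] [NumberField E] (d : ℕ) (c : ℕ → ℕ → ℤ) (hd : 1 ≤ d)
    (h : c 0 d = 1) (α : E) (hα : eval₂ (Int.castRingHom E) α (ld d c) = 0) :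
    house α ≤ hS d c := by
  have hH := one_le_hS d c h
  rw [house_eq_sup']
  have h1 : (univ.sup' univ_nonempty (fun φ : E →+* ℂ ↦ ‖φ α‖₊)) ≤ (hS d c).toNNReal := by
    refine Finset.sup'_le _ _ (fun φ _ => ?_)
    rw [← NNReal.coe_le_coe, Real.coe_toNNReal _ (by linarith), coe_nnnorm]
    refine root_le d c hd h (φ α) 0 (by simp) ?_
    have h2 := congrArg φ hα
    rw [map_zero, eval₂_ld, map_sum] at h2
    refine Eq.trans ?_ h2
    refine Finset.sum_congr rfl (fun j hj => ?_)
    have hj' := Finset.mem_range.mp hj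
    rw [Finset.sum_eq_single (d - j)]
    · have : d - (d - j) - j = 0 := by omega
      rw [this, pow_zero, mul_one, map_mul, map_pow, map_intCast]
    · intro i hi hne
      have hi' := Finset.mem_range.mp hi
      have : d - i - j ≠ 0 := by omega
      rw [zero_pow this, mul_zero, zero_mul]
    · intro hn
      exact absurd (Finset.mem_range.mpr (by omega)) hn
  have h2 : ((univ.sup' univ_nonempty (fun φ : E →+* ℂ ↦ ‖φ α‖₊) : NNReal) : ℝ)
      ≤ ((hS d c).toNNReal : ℝ) := by exact_mod_cast h1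
  rwa [Real.coe_toNNReal _ (by linarith)] at h2

lemma kap_gt (d : ℕ) (hd : 3 ≤ d) : 6 * d ^ 3 + 2 * d ^ 2 + 5 * d + 1 < kap d := by
  unfold kap
  have h1 : d ^ 2 ≤ d ^ 3 := Nat.pow_le_pow_right (by omega) (by norm_num)
  have h2 : d ≤ d ^ 3 := Nat.le_self_pow (by norm_num) d
  omega

/-- the monic case -/
theorem monic_case (K : Type) [Field K] [NumberField K] (d : ℕ) (hd : 3 ≤ d) :
    ∃ A : ℝ, 1 ≤ A ∧ ∀ c : ℕ → ℕ → ℤ, c 0 d = 1 → Irreducible (fP d c) →
      ((ld d c).map (Int.castRingHom K)).Splits →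
      (∀ z : K, eval₂ (Int.castRingHom K) z (ld d c) = 0 →
        eval₂ (Int.castRingHom K) z (derivative (ld d c)) ≠ 0) →
      ∀ a b : ℤ, evalEval a b (fP d c) = 0 →
        |(a : ℝ)| ≤ A * hS d c ^ kap d ∧ |(b : ℝ)| ≤ A * hS d c ^ (kap d + 1) := by
  obtain ⟨A, hA2, hA⟩ := uniform_bound K d hd
  refine ⟨(2 * A) ^ kap d, one_le_pow₀ (by linarith), ?_⟩
  intro c hc hirr hsplit hsimple a b hz
  have hd1 : 1 ≤ d := by omega
  have hH := one_le_hS d c hc
  have hH0 : 0 < hS d c := by linarith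
  have hA1 : (1 : ℝ) ≤ (2 * A) ^ kap d := one_le_pow₀ (by linarith)
  by_cases ha : a = 0
  · -- the first coordinate vanishes
    subst ha
    refine ⟨by simp; positivity, ?_⟩
    have h1 : ‖(b : ℂ)‖ ≤ hS d c := by
      refine root_le_gen d c hd1 hc (b : ℂ) (fun i _ => (0 : ℂ) ^ i) (fun i j => ?_) (by simp) ?_
      · change ‖(0 : ℂ) ^ i‖ ≤ 1
        rw [norm_pow, norm_zero]
        exact pow_le_one₀ le_rfl zero_le_one
      · have h2 := evC_int 0 b (fP d c)
        rw [hz, Int.cast_zero, fP_evC] at h2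
        simpa using h2
    rw [Complex.norm_intCast] at h1
    calc |(b : ℝ)| ≤ hS d c := h1
      _ = 1 * hS d c ^ 1 := by ring
      _ ≤ (2 * A) ^ kap d * hS d c ^ (kap d + 1) := by
          refine mul_le_mul hA1 (pow_le_pow_right₀ hH (by omega)) (by positivity) (by positivity)
  have hκ0 : (kap d : ℝ) ≠ 0 := by
    have : kap d ≠ 0 := by unfold kap; omega
    exact_mod_cast this
  have hapos : 0 < |(a : ℝ)| := abs_pos.mpr (by exact_mod_cast ha)
  have ha1 : (1 : ℝ) ≤ |(a : ℝ)| := by exact_mod_cast Int.one_le_abs ha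
  obtain ⟨y, hy⟩ : ∃ y : ℝ, y = |(a : ℝ)| ^ (1 / (kap d : ℝ)) := ⟨_, rfl⟩
  have hy0 : 0 < y := by rw [hy]; positivity
  have hyk : |(a : ℝ)| = y ^ kap d := by
    rw [hy, ← Real.rpow_natCast, ← Real.rpow_mul hapos.le, one_div, inv_mul_cancel₀ hκ0,
      Real.rpow_one]
  have hmain : y ≤ 2 * A * hS d c := by
    by_contra hlt
    push Not at hlt
    have hyA : A < y := by nlinarith
    have hyH : 2 * hS d c ≤ y := by nlinarith
    have hy2 : 2 ≤ y := by linarith
    have hy1 : 1 ≤ y := by linarith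
    -- the roots
    obtain ⟨ψ₀⟩ : Nonempty (K →+* ℂ) := inferInstance
    obtain ⟨r, hr⟩ : ∃ r : ℂ, r = (b : ℂ) / a := ⟨_, rfl⟩
    have hsmall := ld_small d c hd1 hc a b ha hz
    rw [← hr] at hsmall
    have hmonK : ((ld d c).map (Int.castRingHom K)).Monic := (ld_monic d c hc).map _
    have hcomp : ψ₀.comp (Int.castRingHom K) = Int.castRingHom ℂ := RingHom.ext_int _ _
    have hspC : ((ld d c).map (Int.castRingHom ℂ)) =
        ((((ld d c).map (Int.castRingHom K)).roots.map (fun z => X - C (ψ₀ z))).prod) := by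
      rw [← hcomp, ← Polynomial.map_map]
      conv_lhs => rw [hsplit.eq_prod_roots_of_monic hmonK]
      rw [Polynomial.map_multiset_prod, Multiset.map_map]
      congr 1
      refine Multiset.map_congr rfl (fun z _ => ?_)
      simp
    set R := ((ld d c).map (Int.castRingHom K)).roots with hR
    have hcard : Multiset.card R = d := by
      rw [hR, ← hsplit.natDegree_eq_card_roots, (ld_monic d c hc).natDegree_map, ld_natDegree d c hc]
    have hprod : ‖eval₂ (Int.castRingHom ℂ) r (ld d c)‖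
        = (R.map (fun z => ‖r - ψ₀ z‖)).prod := by
      rw [← eval_map, hspC, eval_multiset_prod, Multiset.map_map, norm_mprod, Multiset.map_map]
      congr 1
      refine Multiset.map_congr rfl (fun z _ => ?_)
      simp
    obtain ⟨δ, hδ⟩ : ∃ δ : ℝ, δ = 1 / (4 * (y ^ 2) ^ (3 * d ^ 2 + d + 1)) := ⟨_, rfl⟩
    have hδ0 : 0 < δ := by rw [hδ]; positivity
    obtain ⟨α, hαR, hαδ⟩ : ∃ α ∈ R, ‖r - ψ₀ α‖ ≤ δ := by
      by_contra hne
      push Not at hne
      have h1 := multiset_pow_le_prod (R.map (fun z => ‖r - ψ₀ z‖)) δ hδ0.le (by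
        intro x hx
        obtain ⟨z, hz1, rfl⟩ := Multiset.mem_map.mp hx
        exact (hne z hz1).le)
      rw [Multiset.card_map, hcard, ← hprod] at h1
      have h2 : δ ^ d * y ^ kap d ≤ y ^ (d + 1) := by
        calc δ ^ d * y ^ kap d ≤ ‖eval₂ (Int.castRingHom ℂ) r (ld d c)‖ * |(a : ℝ)| := by
              rw [hyk]; exact mul_le_mul_of_nonneg_right h1 (by positivity)
          _ ≤ hS d c ^ (d + 1) := hsmall
          _ ≤ y ^ (d + 1) := pow_le_pow_left₀ (by linarith) (by linarith) _
      have h3 : δ ^ d * y ^ (6 * d ^ 3 + 2 * d ^ 2 + 4 * d) ≥ 1 := by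
        rw [hδ, div_pow, one_pow, div_mul_eq_mul_div, one_mul, ge_iff_le, one_le_div (by positivity)]
        calc (4 * (y ^ 2) ^ (3 * d ^ 2 + d + 1)) ^ d
            ≤ (y ^ 2 * (y ^ 2) ^ (3 * d ^ 2 + d + 1)) ^ d := by
              apply pow_le_pow_left₀ (by positivity)
              apply mul_le_mul_of_nonneg_right _ (by positivity)
              nlinarith
          _ = y ^ (6 * d ^ 3 + 2 * d ^ 2 + 4 * d) := by
              rw [← pow_succ', ← pow_mul, ← pow_mul]
              congr 1
              ring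
      have h4 : y ^ (d + 1) * y ^ (6 * d ^ 3 + 2 * d ^ 2 + 4 * d) < y ^ kap d := by
        rw [← pow_add]
        apply pow_lt_pow_right₀ (by linarith)
        have := kap_gt d hd
        omega
      have h5 : y ^ kap d ≤ (δ ^ d * y ^ kap d) * y ^ (6 * d ^ 3 + 2 * d ^ 2 + 4 * d) := by
        calc y ^ kap d = 1 * y ^ kap d := (one_mul _).symm
          _ ≤ (δ ^ d * y ^ (6 * d ^ 3 + 2 * d ^ 2 + 4 * d)) * y ^ kap d :=
              mul_le_mul_of_nonneg_right h3 (by positivity)
          _ = _ := by ring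
      have h6 := mul_le_mul_of_nonneg_right h2
        (by positivity : (0 : ℝ) ≤ y ^ (6 * d ^ 3 + 2 * d ^ 2 + 4 * d))
      linarith
    have hα0 : eval₂ (Int.castRingHom K) α (ld d c) = 0 := by
      rw [← eval_map]
      exact (mem_roots hmonK.ne_zero).mp hαR
    -- the subfield
    let E : IntermediateField ℚ K := ℚ⟮α⟯
    let α' : E := AdjoinSimple.gen ℚ α
    have hinj : Function.Injective (algebraMap E K) := (algebraMap E K).injective
    have hmapα : algebraMap E K α' = α := AdjoinSimple.algebraMap_gen ℚ α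
    have hEev : ∀ p : ℤ[X], algebraMap E K (eval₂ (Int.castRingHom E) α' p)
        = eval₂ (Int.castRingHom K) α p := by
      intro p
      rw [hom_eval₂, hmapα]
      congr 1
    have hα'0 : eval₂ (Int.castRingHom E) α' (ld d c) = 0 := by
      apply hinj
      rw [hEev, hα0, map_zero]
    have hint : IsIntegral ℤ α' := ⟨ld d c, ld_monic d c hc, by
      rw [← hα'0]; rfl⟩
    let α'' : 𝓞 E := ⟨α', hint⟩
    have hOev : ∀ p : ℤ[X], algebraMap (𝓞 E) E (eval₂ (Int.castRingHom (𝓞 E)) α'' p)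
        = eval₂ (Int.castRingHom E) α' p := by
      intro p
      rw [hom_eval₂]
      congr 1
    have hinjO : Function.Injective (algebraMap (𝓞 E) E) := RingOfIntegers.coe_injective
    have hroot : c0 (Phi d c α'') = 0 := by
      rw [c0_Phi_eq]
      apply hinjO
      rw [hOev, hα'0, map_zero]
    have hsimp : (tB (Phi d c α'')).coeff 0 ≠ 0 := by
      rw [tB_Phi_eq]
      intro h0
      apply hsimple α hα0
      rw [← hEev, ← hOev, h0, map_zero, map_zero]
    have hdeg : finrank ℚ E ≤ d := by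
      have h1 : IsIntegral ℚ α := Algebra.IsIntegral.isIntegral α
      rw [adjoin.finrank h1]
      have h2 : minpoly ℚ α ∣ (ld d c).map (Int.castRingHom ℚ) := by
        apply minpoly.dvd
        rw [aeval_def, eval₂_map]
        rw [← hα0]
        congr 1
        exact RingHom.ext_int _ _
      have h3 := natDegree_le_of_dvd h2 ((ld_monic d c hc).map _).ne_zero
      rwa [(ld_monic d c hc).natDegree_map, ld_natDegree d c hc] at h3
    have hhouse : 1 + (nrmHouse E).v α'' ≤ y := by
      have h1 : (nrmHouse E).v α'' ≤ hS d c := house_le_of_root E d c hd1 hc α' hα'0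
      linarith
    let ψ : E →+* ℂ := ψ₀.comp (algebraMap E K)
    have hφα : (ψ.comp (algebraMap (𝓞 E) E)) α'' = ψ₀ α := by
      change ψ₀ (algebraMap E K α') = ψ₀ α
      rw [hmapα]
    let P : Pt E (ψ.comp (algebraMap (𝓞 E) E)) d :=
      { c := c, α := α'', a := a, b := b, top := hc, irr := hirr, root := hroot, simple := hsimp
        a_ne := ha, zero := hz, y := y, y_two := hy2, y_pow := hyk, hS_le := by linarith
        α_le := hhouse
        near := by
          rw [hφα, ← hr, ← hδ]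
          exact hαδ }
    have hPy := hA E ψ hdeg P
    have : P.y = y := rfl
    rw [this] at hPy
    linarith
  have hfin1 : |(a : ℝ)| ≤ (2 * A) ^ kap d * hS d c ^ kap d := by
    rw [hyk, ← mul_pow]
    exact pow_le_pow_left₀ hy0.le hmain _
  refine ⟨hfin1, ?_⟩
  obtain ⟨-, h2, -⟩ := ratio_le d c hd1 hc a b ha hz
  rw [norm_div, Complex.norm_intCast, Complex.norm_intCast, div_le_iff₀ hapos] at h2
  calc |(b : ℝ)| ≤ hS d c * |(a : ℝ)| := h2
    _ ≤ hS d c * ((2 * A) ^ kap d * hS d c ^ kap d) := mul_le_mul_of_nonneg_left hfin1 hH0.le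
    _ = (2 * A) ^ kap d * hS d c ^ (kap d + 1) := by ring

end Pool.Agent.H20
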