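import Pool.Agent.H20.ZeroEst

set_option autoImplicit false

namespace Pool.Agent.H20

open Polynomial Finset

/-- evaluation of an integer bivariate polynomial at a complex point -/
noncomputable def evC (x y : ℂ) : ℤ[X][X] →+* ℂ :=
  eval₂RingHom (eval₂RingHom (Int.castRingHom ℂ) x) y

lemma evC_C (x y : ℂ) (q : ℤ[X]) : evC x y (C q) = eval₂ (Int.castRingHom ℂ) x q := by
  simp [evC]

lemma evC_X (x y : ℂ) : evC x y X = y := by simp [evC]

lemma evC_int (a b : ℤ) (p : ℤ[X][X]) : evC (a : ℂ) (b : ℂ) p = ((evalEval a b p : ℤ) : ℂ) := by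
  induction p using Polynomial.induction_on' with
  | add p q hp hq => simp only [map_add, hp, hq, evalEval_add, Int.cast_add]
  | monomial n c =>
    rw [← C_mul_X_pow_eq_monomial, map_mul, map_pow, evC_C, evC_X]
    have : eval₂ (Int.castRingHom ℂ) (a : ℂ) c = ((c.eval a : ℤ) : ℂ) := by
      have h := eval₂_at_apply (Int.castRingHom ℂ) (p := c) a
      simpa using h
    rw [this]
    simp [evalEval]

/-- cofactor: `cof p b * (Y - b) = p - p(X,b)` -/
noncomputable def cof (p : ℤ[X][X]) (b : ℤ) : ℤ[X][X] :=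
  ∑ j ∈ range (p.natDegree + 1), C (p.coeff j) * ∑ i ∈ range j, X ^ i * (C (C b)) ^ (j - 1 - i)

lemma cof_mul (p : ℤ[X][X]) (b : ℤ) :
    cof p b * (X - C (C b)) = p - C (p.eval (C b)) := by
  unfold cof
  rw [Finset.sum_mul]
  have h1 : ∀ j ∈ range (p.natDegree + 1),
      C (p.coeff j) * (∑ i ∈ range j, X ^ i * (C (C b)) ^ (j - 1 - i)) * (X - C (C b))
        = C (p.coeff j) * X ^ j - C (p.coeff j * (C b) ^ j) := by
    intro j _
    rw [mul_assoc, (Commute.all _ _).geom_sum₂_mul, mul_sub, C_mul, C_pow]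
  rw [Finset.sum_congr rfl h1, Finset.sum_sub_distrib, ← map_sum]
  congr 1
  · exact (p.as_sum_range_C_mul_X_pow).symm
  · rw [eval_eq_sum_range]

lemma evalEval_cof (f : ℤ[X][X]) (a b : ℤ) :
    evalEval a b (cof f b) = evalEval a b (derivative f) := by
  have h1 := congrArg derivative (cof_mul f b)
  rw [derivative_mul, derivative_sub, derivative_sub, derivative_X, derivative_C, derivative_C,
    sub_zero, sub_zero, mul_one] at h1
  rw [← h1, evalEval_add, evalEval_mul]
  have : evalEval a b (X - C (C b) : ℤ[X][X]) = 0 := by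
    rw [evalEval_sub, evalEval_X, evalEval_C, eval_C, sub_self]
  rw [this, mul_zero, zero_add]

lemma eval_C_dvd (p : ℤ[X][X]) (a b : ℤ) (h : evalEval a b p = 0) :
    ∃ q : ℤ[X], p.eval (C b) = (X - C a) * q := by
  have : (X - C a) ∣ p.eval (C b) := by
    rw [dvd_iff_isRoot]
    exact h
  exact this

lemma div_step (f u : ℤ[X][X]) (a b : ℤ) (hf : evalEval a b f = 0) (hu : evalEval a b u = 0) :
    ∃ u' : ℤ[X][X], f ∣ cof f b * u - C (X - C a) * u' := by
  obtain ⟨A, hA⟩ := eval_C_dvd f a b hf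
  obtain ⟨p, hp⟩ := eval_C_dvd u a b hu
  have h1 := cof_mul f b
  have h2 := cof_mul u b
  rw [hA, C_mul] at h1
  rw [hp, C_mul] at h2
  refine ⟨cof f b * C p - C A * cof u b, cof u b, ?_⟩
  have e1 : u = cof u b * (X - C (C b)) + C (X - C a) * C p := by rw [h2]; ring
  have e2 : f = cof f b * (X - C (C b)) + C (X - C a) * C A := by rw [h1]; ring
  calc cof f b * u - C (X - C a) * (cof f b * C p - C A * cof u b)
      = cof f b * (cof u b * (X - C (C b)) + C (X - C a) * C p)
        - C (X - C a) * (cof f b * C p - C A * cof u b) := by rw [← e1]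
    _ = (cof f b * (X - C (C b)) + C (X - C a) * C A) * cof u b := by ring
    _ = f * cof u b := by rw [← e2]

lemma sg_X_sub (a : ℤ) : sg a (X - C a) = PowerSeries.X := by
  rw [map_sub, sg_X, sg_C]; ring

lemma div_seq (f u : ℤ[X][X]) (a b : ℤ) (hf : evalEval a b f = 0)
    (ys : PowerSeries ℚ) (hys : PowerSeries.constantCoeff ys = b) (hfz : io a ys f = 0) (k : ℕ)
    (hk : PowerSeries.X ^ k ∣ io a ys u) :
    ∃ uk : ℤ[X][X], f ∣ (cof f b) ^ k * u - C (X - C a) ^ k * uk := by
  induction k with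
  | zero => exact ⟨u, by simp⟩
  | succ k ih =>
    obtain ⟨uk, huk⟩ := ih (dvd_trans (pow_dvd_pow _ (by omega)) hk)
    have h1 : io a ys ((cof f b) ^ k * u) = PowerSeries.X ^ k * io a ys uk := by
      obtain ⟨q, hq⟩ := huk
      have := congrArg (io a ys) hq
      rw [map_sub, map_mul (io a ys) f, hfz, zero_mul, sub_eq_zero] at this
      rw [this, map_mul, map_pow, io_C, sg_X_sub]
    have h2 : (PowerSeries.X : PowerSeries ℚ) ∣ io a ys uk := by
      have h3 : PowerSeries.X ^ (k + 1) ∣ PowerSeries.X ^ k * io a ys uk := by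
        rw [← h1, map_mul]
        exact Dvd.dvd.mul_left hk _
      rw [pow_succ] at h3
      exact (mul_dvd_mul_iff_left (pow_ne_zero _ PowerSeries.X_ne_zero)).mp h3
    have h4 : evalEval a b uk = 0 := by
      rw [PowerSeries.X_dvd_iff, constantCoeff_io a b ys hys] at h2
      exact_mod_cast h2
    obtain ⟨u', hu'⟩ := div_step f uk a b hf h4
    refine ⟨u', ?_⟩
    have h5 : (cof f b) ^ (k + 1) * u - C (X - C a) ^ (k + 1) * u'
        = cof f b * ((cof f b) ^ k * u - C (X - C a) ^ k * uk)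
          + C (X - C a) ^ k * (cof f b * uk - C (X - C a) * u') := by ring
    rw [h5]
    exact dvd_add (Dvd.dvd.mul_left huk _) (Dvd.dvd.mul_left hu' _)

/-- Exact division at a simple point. -/
lemma exact_div (f u : ℤ[X][X]) (a b : ℤ) (hf : evalEval a b f = 0)
    (hfy : evalEval a b (derivative f) ≠ 0)
    (ys : PowerSeries ℚ) (hys : PowerSeries.constantCoeff ys = b) (hfz : io a ys f = 0)
    (hu : io a ys u ≠ 0) :
    ∃ (k : ℕ) (uk : ℤ[X][X]), PowerSeries.X ^ k ∣ io a ys u ∧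
      f ∣ (cof f b) ^ k * u - C (X - C a) ^ k * uk ∧ evalEval a b uk ≠ 0 := by
  have hk : PowerSeries.X ^ (io a ys u).order.toNat ∣ io a ys u :=
    ⟨_, (PowerSeries.X_pow_order_mul_divXPowOrder).symm⟩
  obtain ⟨uk, huk⟩ := div_seq f u a b hf ys hys hfz _ hk
  refine ⟨_, uk, hk, huk, ?_⟩
  intro h0
  set k := (io a ys u).order.toNat with hkdef
  have h1 : io a ys ((cof f b) ^ k * u) = PowerSeries.X ^ k * io a ys uk := by
    obtain ⟨q, hq⟩ := huk
    have := congrArg (io a ys) hq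
    rw [map_sub, map_mul (io a ys) f, hfz, zero_mul, sub_eq_zero] at this
    rw [this, map_mul, map_pow, io_C, sg_X_sub]
  have h2 : (PowerSeries.X : PowerSeries ℚ) ∣ io a ys uk := by
    rw [PowerSeries.X_dvd_iff, constantCoeff_io a b ys hys, h0]
    simp
  have h3 : PowerSeries.X ^ k * io a ys uk
      = PowerSeries.X ^ k * (io a ys (cof f b) ^ k * (io a ys u).divXPowOrder) := by
    rw [← h1, map_mul, map_pow]
    conv_lhs => rw [← PowerSeries.X_pow_order_mul_divXPowOrder (f := io a ys u)]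
    rw [← hkdef]
    ring
  have h4 := mul_left_cancel₀ (pow_ne_zero _ PowerSeries.X_ne_zero) h3
  rw [PowerSeries.X_dvd_iff, h4, map_mul, map_pow, constantCoeff_io a b ys hys, evalEval_cof,
    PowerSeries.constantCoeff_divXPowOrder] at h2
  rcases mul_eq_zero.mp h2 with h5 | h5
  · have : ((evalEval a b (derivative f) : ℤ) : ℚ) = 0 := by
      exact eq_zero_of_pow_eq_zero h5
    exact hfy (by exact_mod_cast this)
  · exact PowerSeries.coeff_order hu h5

lemma norm_evC_cof_le (f : ℤ[X][X]) (d : ℕ) (hf : Deg2 f d d) (b : ℤ) (x y : ℂ) (M : ℝ)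
    (hM : 1 ≤ M) (hx : ‖x‖ ≤ M) (hy : ‖y‖ ≤ M) (hb : |(b : ℝ)| ≤ M) :
    ‖evC x y (cof f b)‖ ≤ d * nrm2.v f * M ^ (2 * d) := by
  have hM0 : 0 ≤ M := by linarith
  unfold cof
  rw [map_sum]
  refine (norm_sum_le _ _).trans ?_
  have h1 : ∀ j ∈ range (f.natDegree + 1),
      ‖evC x y (C (f.coeff j) * ∑ i ∈ range j, X ^ i * (C (C b)) ^ (j - 1 - i))‖
        ≤ nrm1.v (f.coeff j) * (d * M ^ (2 * d)) := by
    intro j hj
    have hjd : j ≤ d := by
      have := hf.2
      have := Finset.mem_range.mp hj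
      omega
    rw [map_mul, map_sum, norm_mul, evC_C]
    have h2 : ‖eval₂ (Int.castRingHom ℂ) x (f.coeff j)‖ ≤ nrm1.v (f.coeff j) * M ^ d := by
      refine nrmInt.eval₂_le' nrmC (Int.castRingHom ℂ) (fun a => ?_) x M hM hx _ d (hf.1 j)
      simp [nrmC, nrmInt]
    have h3 : ‖∑ i ∈ range j, evC x y (X ^ i * (C (C b)) ^ (j - 1 - i))‖ ≤ d * M ^ d := by
      refine (norm_sum_le _ _).trans ?_
      calc ∑ i ∈ range j, ‖evC x y (X ^ i * (C (C b)) ^ (j - 1 - i))‖
          ≤ ∑ _i ∈ range j, M ^ d := by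
            refine Finset.sum_le_sum (fun i hi => ?_)
            have hi' := Finset.mem_range.mp hi
            rw [map_mul, map_pow, map_pow, evC_X, evC_C, norm_mul, norm_pow, norm_pow]
            have h4 : ‖eval₂ (Int.castRingHom ℂ) x (C b)‖ ≤ M := by
              rw [eval₂_C]; simpa using hb
            calc ‖y‖ ^ i * ‖eval₂ (Int.castRingHom ℂ) x (C b)‖ ^ (j - 1 - i)
                ≤ M ^ i * M ^ (j - 1 - i) := by gcongr
              _ = M ^ (i + (j - 1 - i)) := by rw [pow_add]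
              _ ≤ M ^ d := pow_le_pow_right₀ hM (by omega)
        _ = j * M ^ d := by simp
        _ ≤ d * M ^ d := by
            have : (j : ℝ) ≤ d := by exact_mod_cast hjd
            exact mul_le_mul_of_nonneg_right this (pow_nonneg hM0 _)
    calc ‖eval₂ (Int.castRingHom ℂ) x (f.coeff j)‖
          * ‖∑ i ∈ range j, evC x y (X ^ i * (C (C b)) ^ (j - 1 - i))‖
        ≤ (nrm1.v (f.coeff j) * M ^ d) * (d * M ^ d) :=
          mul_le_mul h2 h3 (norm_nonneg _) (mul_nonneg (nrm1.nonneg _) (pow_nonneg hM0 _))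
      _ = nrm1.v (f.coeff j) * (d * M ^ (2 * d)) := by ring
  refine (Finset.sum_le_sum h1).trans ?_
  rw [← Finset.sum_mul]
  have h2 : nrm2.v f = ∑ i ∈ range (f.natDegree + 1), nrm1.v (f.coeff i) :=
    nrm1.l1_eq_range f _ (Nat.lt_succ_self _)
  rw [h2]
  apply le_of_eq
  ring

end Pool.Agent.H20
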