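import Pool.Agent.H20.RU8

set_option autoImplicit false

namespace Pool.Agent.Results.MP_2d259b_nt.ExplicitDescent

open MvPolynomial

/-- The polynomial `f(x, y) = ∑ c x^i y^j` given by a finite list of triples `(i, j, c)`. -/
noncomputable def poly (L : List (ℕ × ℕ × ℤ)) : MvPolynomial (Fin 2) ℤ :=
  (L.map (fun t => C t.2.2 * X 0 ^ t.1 * X 1 ^ t.2.1)).sum

/-- The maximum of `i + j` over the list (an upper bound for the degree). -/
def degree (L : List (ℕ × ℕ × ℤ)) : ℕ := L.foldr (fun t d => max (t.1 + t.2.1) d) 0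

/-- The sum of the absolute values of the coefficients. -/
def height (L : List (ℕ × ℕ × ℤ)) : ℕ := (L.map (fun t => t.2.2.natAbs)).sum

/-- The class of curves `f = 0`, `f = y^m - x^k h(x, y)` with `m ≥ 2`, `k ≥ 1` coprime: the
coefficient of `x^N`, `N ≥ 1`, in `h` is `α^m` or `-α^m` for an integer `α ≥ 1`, and every other
monomial `x^i y^j` of `h` satisfies `(i + k) m + j n < n m`, where `n = k + N` (so every monomial
of `f` except `y^m` and `x^n` lies strictly below the line through `(0, m)` and `(n, 0)`; if `n` is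
coprime to `m` the curve has exactly one place at infinity, and this place is rational). -/
structure Curve (f h : MvPolynomial (Fin 2) ℤ) (m k N : ℕ) (α : ℤ) : Prop where
  eq : f = X 1 ^ m - X 0 ^ k * h
  two_le : 2 ≤ m
  one_le : 1 ≤ k
  coprime : Nat.Coprime k m
  pos : 1 ≤ N
  α_pos : 1 ≤ α
  lead : h.coeff (Finsupp.single 0 N) = α ^ m ∨ h.coeff (Finsupp.single 0 N) = -α ^ m
  low : ∀ j ∈ h.support, j ≠ Finsupp.single 0 N → (j 0 + k) * m + j 1 * (k + N) < (k + N) * m

/-- The set of integral zeros. -/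
def zeros (L : List (ℕ × ℕ × ℤ)) : Set (ℤ × ℤ) :=
  {p | (L.map (fun t => t.2.2 * p.1 ^ t.1 * p.2 ^ t.2.1)).sum = 0}

/-- The curves `y ^ 3 = x ^ 4 + b x ^ 2 y + x` belong to the class, with `h(0, 0) = 1`. -/
lemma example_mem (b : ℤ) :
    Curve (poly [(0, 3, 1), (4, 0, -1), (2, 1, -b), (1, 0, -1)])
      (X 0 ^ 3 + C b * X 0 * X 1 + 1) 3 1 3 1 ∧
    (X 0 ^ 3 + C b * X 0 * X 1 + 1 : MvPolynomial (Fin 2) ℤ).coeff 0 = 1 := by
  classical
  have hmono : (X 0 ^ 3 + C b * X 0 * X 1 + 1 : MvPolynomial (Fin 2) ℤ) =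
      monomial (Finsupp.single 0 3) 1 + (monomial (Finsupp.single 0 1 + Finsupp.single 1 1) b +
        monomial 0 1) := by
    have h1 : (X 0 : MvPolynomial (Fin 2) ℤ) = monomial (Finsupp.single 0 1) 1 := rfl
    have h2 : (X 1 : MvPolynomial (Fin 2) ℤ) = monomial (Finsupp.single 1 1) 1 := rfl
    have h3 : (1 : MvPolynomial (Fin 2) ℤ) = monomial 0 1 := rfl
    rw [X_pow_eq_monomial, h1, h2, C_mul_monomial, monomial_mul, mul_one, mul_one, h3, add_assoc]
  have hcoeff : ∀ j : Fin 2 →₀ ℕ,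
      (X 0 ^ 3 + C b * X 0 * X 1 + 1 : MvPolynomial (Fin 2) ℤ).coeff j
      = (if Finsupp.single 0 3 = j then 1 else 0) +
        ((if Finsupp.single 0 1 + Finsupp.single 1 1 = j then b else 0) +
          (if 0 = j then 1 else 0)) := by
    intro j
    rw [hmono, coeff_add, coeff_add, coeff_monomial, coeff_monomial, coeff_monomial]
  have hne : ∀ i j : Fin 2 →₀ ℕ, i 0 ≠ j 0 → i ≠ j := fun i j h h1 => h (by rw [h1])
  refine ⟨⟨?_, by norm_num, le_refl _, by norm_num, by norm_num, le_refl _, ?_, ?_⟩, ?_⟩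
  · simp only [poly, List.map_cons, List.map_nil, List.sum_cons, List.sum_nil, C_neg, C_1]
    ring
  · left
    rw [hcoeff, if_pos rfl, if_neg (hne _ _ (by simp)), if_neg (hne _ _ (by simp))]
    norm_num
  · intro j hj h0
    rw [mem_support_iff, hcoeff, if_neg (fun h => h0 h.symm)] at hj
    by_cases h2 : Finsupp.single 0 1 + Finsupp.single 1 1 = j
    · rw [← h2]
      simp
    · rw [if_neg h2] at hj
      by_cases h3 : 0 = j
      · rw [← h3]
        simp
      · rw [if_neg h3] at hj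
        simp at hj
  · rw [hcoeff, if_neg (hne _ _ (by simp)), if_neg (hne _ _ (by simp)), if_pos rfl]
    norm_num

/-- The computable function `B(f) = (8 D H)^(4 D^4)`, where `D` is the degree and `H` the sum of
the absolute values of the coefficients, bounds every integral zero `(x, y)` with `x` coprime to
`h(0, 0)` of every curve of the class `Curve` that has only finitely many integral zeros; in
particular it bounds all integral zeros when `h(0, 0) = ±1`, for instance for the curves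
`y ^ 3 = x ^ 4 + b x ^ 2 y + x`. -/
theorem result :
    ∃ B : List (ℕ × ℕ × ℤ) → ℕ, Computable B ∧
      (∀ L, B L = (8 * degree L * height L) ^ (4 * degree L ^ 4)) ∧
      (∀ (L : List (ℕ × ℕ × ℤ)) (h : MvPolynomial (Fin 2) ℤ) (m k N : ℕ) (α : ℤ),
        Curve (poly L) h m k N α → (zeros L).Finite → ∀ x y : ℤ, (x, y) ∈ zeros L →
          (IsCoprime x (h.coeff 0) → x.natAbs ≤ B L ∧ y.natAbs ≤ B L) ∧
          (h.coeff 0 = 1 ∨ h.coeff 0 = -1 → x.natAbs ≤ B L ∧ y.natAbs ≤ B L)) ∧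
      ∀ b : ℤ, Curve (poly [(0, 3, 1), (4, 0, -1), (2, 1, -b), (1, 0, -1)])
          (X 0 ^ 3 + C b * X 0 * X 1 + 1) 3 1 3 1 ∧
        (X 0 ^ 3 + C b * X 0 * X 1 + 1 : MvPolynomial (Fin 2) ℤ).coeff 0 = 1 := by
  refine ⟨Pool.Agent.H20.RU.bd, Pool.Agent.H20.RU.computable_bd, fun L => rfl, ?_, example_mem⟩
  intro L h m k N α hC hfin x y hxy
  have hα0 : 0 ≤ α ^ m := pow_nonneg (by have := hC.α_pos; omega) _
  have hcls : Pool.Agent.H20.RU.Cls m k N α h :=
    ⟨hC.two_le, hC.one_le, hC.coprime, hC.pos, hC.α_pos, by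
      rcases hC.lead with h1 | h1
      · rw [h1, abs_of_nonneg hα0]
      · rw [h1, abs_neg, abs_of_nonneg hα0], hC.low⟩
  have hmain : IsCoprime x (h.coeff 0) → x.natAbs ≤ Pool.Agent.H20.RU.bd L ∧
      y.natAbs ≤ Pool.Agent.H20.RU.bd L :=
    fun hc => Pool.Agent.H20.RU.final hcls hC.eq hfin hxy hc
  refine ⟨hmain, fun h1 => hmain ?_⟩
  rcases h1 with h1 | h1
  · rw [h1]
    exact isCoprime_one_right
  · rw [h1]
    exact isCoprime_one_right.neg_right

end Pool.Agent.Results.MP_2d259b_nt.ExplicitDescent
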