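import Pool.Agent.H20.Gen5
import Pool.Agent.H20.Comp

set_option autoImplicit false

namespace Pool.Agent.H20.FixedField

open MvPolynomial

/-- The polynomial `f(x, y) = ∑ c x^i y^j` given by a finite list of triples `(i, j, c)`. -/
noncomputable def poly (L : List (ℕ × ℕ × ℤ)) : MvPolynomial (Fin 2) ℤ :=
  (L.map (fun t => C t.2.2 * X 0 ^ t.1 * X 1 ^ t.2.1)).sum

/-- The homogeneous part of degree `d` of `f` is a product of `d` pairwise non-proportional
linear forms with coefficients in `K`. -/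
def LeadingFormSplits (K : Type) [Field K] (d : ℕ) (f : MvPolynomial (Fin 2) ℤ) : Prop :=
  ∃ u v : Fin d → K, (∀ i j, i ≠ j → u i * v j ≠ u j * v i) ∧
    map (Int.castRingHom K) (homogeneousComponent d f) = ∏ i, (C (u i) * X 0 + C (v i) * X 1)

lemma eval_poly (L : List (ℕ × ℕ × ℤ)) (x y : ℤ) :
    eval ![x, y] (poly L) = (L.map (fun t => t.2.2 * x ^ t.1 * y ^ t.2.1)).sum := by
  unfold poly
  rw [map_list_sum, List.map_map]
  congr 1
  refine List.map_congr_left (fun t _ => ?_)
  simp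

lemma HF_eq (F : MvPolynomial (Fin 2) ℤ) (s : Finset (Fin 2 →₀ ℕ)) (hs : F.support ⊆ s) :
    Pool.Agent.H20.HF F = ∑ m ∈ s, |((F.coeff m : ℤ) : ℝ)| := by
  unfold Pool.Agent.H20.HF
  refine Finset.sum_subset hs (fun m _ hm => ?_)
  rw [notMem_support_iff.mp hm]
  simp

lemma HF_add_le (F G : MvPolynomial (Fin 2) ℤ) :
    Pool.Agent.H20.HF (F + G) ≤ Pool.Agent.H20.HF F + Pool.Agent.H20.HF G := by
  classical
  rw [HF_eq (F + G) (F.support ∪ G.support) support_add,
    HF_eq F (F.support ∪ G.support) Finset.subset_union_left,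
    HF_eq G (F.support ∪ G.support) Finset.subset_union_right, ← Finset.sum_add_distrib]
  refine Finset.sum_le_sum (fun m _ => ?_)
  rw [coeff_add]
  push_cast
  exact abs_add_le _ _

lemma HF_monomial_le (i j : ℕ) (c : ℤ) :
    Pool.Agent.H20.HF (C c * X 0 ^ i * X 1 ^ j) ≤ c.natAbs := by
  classical
  have h : (C c * X 0 ^ i * X 1 ^ j : MvPolynomial (Fin 2) ℤ)
      = monomial (Finsupp.single 0 i + Finsupp.single 1 j) c := by
    rw [X_pow_eq_monomial, X_pow_eq_monomial, C_mul_monomial, monomial_mul, mul_one, mul_one]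
  rw [h, HF_eq _ {Finsupp.single 0 i + Finsupp.single 1 j} support_monomial_subset,
    Finset.sum_singleton, coeff_monomial, if_pos rfl]
  have h1 : ((c.natAbs : ℕ) : ℝ) = |(c : ℝ)| := by
    rw [Nat.cast_natAbs]
    push_cast
    rfl
  rw [h1]

lemma HF_poly_le (L : List (ℕ × ℕ × ℤ)) :
    Pool.Agent.H20.HF (poly L) ≤ ((L.map (fun t => t.2.2.natAbs)).sum : ℕ) := by
  induction L with
  | nil =>
    simp [poly, Pool.Agent.H20.HF]
  | cons t L ih =>
    have h : poly (t :: L) = C t.2.2 * X 0 ^ t.1 * X 1 ^ t.2.1 + poly L := by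
      simp [poly]
    rw [h, List.map_cons, List.sum_cons]
    push_cast
    have h1 := HF_monomial_le t.1 t.2.1 t.2.2
    have h2 := HF_add_le (C t.2.2 * X 0 ^ t.1 * X 1 ^ t.2.1) (poly L)
    push_cast at ih
    linarith

/-- For every degree `d ≥ 3` there is an exponent `k`, and for every number field `K` there is a
constant `C`, such that for all plane curves `f = 0` of degree `d` over `ℤ`, irreducible over `ℚ`,
whose points at infinity are `d` distinct points rational over `K`, all integral points satisfy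
`max(|x|, |y|) ≤ C * (∑ |coefficients|)^k`. In particular a computable function bounds the
integral points of all curves in this class. -/
theorem result (d : ℕ) (hd : 3 ≤ d) :
    ∃ k : ℕ, ∀ (K : Type) [Field K] [NumberField K],
      ∃ (C : ℕ) (B : List (ℕ × ℕ × ℤ) → ℕ), Computable B ∧
        (∀ L, B L = C * (L.map (fun t => t.2.2.natAbs)).sum ^ k) ∧
        ∀ L : List (ℕ × ℕ × ℤ), (poly L).totalDegree = d →
          Irreducible (map (Int.castRingHom ℚ) (poly L)) →
          LeadingFormSplits K d (poly L) →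
          ∀ x y : ℤ, (L.map (fun t => t.2.2 * x ^ t.1 * y ^ t.2.1)).sum = 0 →
            x.natAbs ≤ B L ∧ y.natAbs ≤ B L := by
  refine ⟨d * (Pool.Agent.H20.kap d + 1), fun K _ _ => ?_⟩
  obtain ⟨A, hA1, hA⟩ := Pool.Agent.H20.general_bound' d hd K
  refine ⟨⌈A⌉₊, _, Pool.Agent.H20.computable_bound ⌈A⌉₊ (d * (Pool.Agent.H20.kap d + 1)),
    fun L => rfl, ?_⟩
  intro L hL hirr hsplit x y hxy
  obtain ⟨u, v, huv, hprod⟩ := hsplit
  have h1 := hA (poly L) hirr hL.le u v ⟨huv, hprod⟩ x y (by rw [eval_poly]; exact hxy)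
  have h0 : 0 ≤ Pool.Agent.H20.HF (poly L) := Finset.sum_nonneg (fun _ _ => abs_nonneg _)
  have h2 : A * Pool.Agent.H20.HF (poly L) ^ (d * (Pool.Agent.H20.kap d + 1))
      ≤ ((⌈A⌉₊ * (L.map (fun t => t.2.2.natAbs)).sum ^ (d * (Pool.Agent.H20.kap d + 1)) : ℕ) : ℝ)
      := by
    push_cast
    refine mul_le_mul (Nat.le_ceil A) ?_ (pow_nonneg h0 _) (by positivity)
    have h3 := HF_poly_le L
    push_cast at h3
    exact pow_le_pow_left₀ h0 h3 _
  have hcast : ∀ z : ℤ, ((z.natAbs : ℕ) : ℝ) = |(z : ℝ)| := by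
    intro z
    rw [Nat.cast_natAbs]
    push_cast
    rfl
  constructor
  · have h4 := (h1.1).trans h2
    rw [← hcast] at h4
    exact_mod_cast h4
  · have h4 := (h1.2).trans h2
    rw [← hcast] at h4
    exact_mod_cast h4

end Pool.Agent.H20.FixedField
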