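import Pool.Agent.H20.Siegel

set_option autoImplicit false

namespace Pool.Agent.H20.G

open Polynomial Finset NumberField Module

attribute [local instance] Matrix.seminormedAddCommGroup

section

variable {R : Type*} [CommRing R]

/-- Siegel's lemma with coefficients in a ring with integer coordinates and integer unknowns. -/
theorem siegel_co {I P U : Type} [Fintype I] [Fintype P] [Fintype U] [Nonempty P] [Nonempty I]
    (co : R →+ (I → ℤ)) (hinj : Function.Injective co) (ν : Nrm R) (cK : ℝ) (hcK1 : 1 ≤ cK)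
    (hco : ∀ x i, |(co x i : ℝ)| ≤ cK * ν.v x)
    (M : P → U → R) (A : ℝ) (hA1 : 1 ≤ A) (hA : ∀ p u, ν.v (M p u) ≤ A) (ρ : ℕ)
    (hcard : (ρ + 1) * (Fintype.card I * Fintype.card P) ≤ ρ * Fintype.card U) :
    ∃ g : U → ℤ, g ≠ 0 ∧ (∀ p, ∑ u, (g u : R) * M p u = 0) ∧
      ∀ u, |(g u : ℝ)| ≤ ((Fintype.card U : ℝ) * (cK * A)) ^ ρ := by
  classical
  let Mz : Matrix (P × I) U ℤ := fun pi u => co (M pi.1 u) pi.2
  have hI : 0 < Fintype.card I := Fintype.card_pos
  have hP : 0 < Fintype.card P := Fintype.card_pos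
  have hm : Fintype.card (P × I) = Fintype.card I * Fintype.card P := by
    rw [Fintype.card_prod, mul_comm]
  have hmpos : 0 < Fintype.card (P × I) := by rw [hm]; positivity
  have hmn : Fintype.card (P × I) < Fintype.card U := by
    rw [hm] at hmpos ⊢
    by_contra hle
    push Not at hle
    have h1 : ρ * Fintype.card U ≤ ρ * (Fintype.card I * Fintype.card P) :=
      Nat.mul_le_mul_left _ hle
    have h2 : (ρ + 1) * (Fintype.card I * Fintype.card P)
        = ρ * (Fintype.card I * Fintype.card P) + Fintype.card I * Fintype.card P := by ring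
    omega
  obtain ⟨t, ht0, htM, htn⟩ := Int.Matrix.exists_ne_zero_int_vec_norm_le Mz hmn hmpos
  refine ⟨t, ht0, ?_, ?_⟩
  · intro p
    apply hinj
    rw [map_zero]
    funext i
    have h1 := congrFun htM (p, i)
    simp only [Matrix.mulVec, dotProduct, Pi.zero_apply, Mz] at h1
    rw [map_sum, Finset.sum_apply, Pi.zero_apply, ← h1]
    refine Finset.sum_congr rfl (fun u _ => ?_)
    have h2 : (t u : R) * M p u = t u • M p u := by rw [zsmul_eq_mul]
    rw [h2, map_zsmul, Pi.smul_apply, smul_eq_mul, mul_comm]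
  · intro u
    have hnorm : |(t u : ℝ)| ≤ ‖t‖ := by
      have := norm_le_pi_norm t u
      rwa [Int.norm_eq_abs] at this
    refine hnorm.trans (htn.trans ?_)
    have hMz : ‖Mz‖ ≤ cK * A := by
      rw [Matrix.norm_le_iff (by positivity)]
      rintro ⟨p, i⟩ u
      rw [Int.norm_eq_abs]
      refine (hco (M p u) i).trans ?_
      exact mul_le_mul_of_nonneg_left (hA p u) (by linarith)
    have hcA1 : 1 ≤ cK * A := one_le_mul_of_one_le_of_one_le hcK1 hA1
    have hmax : max 1 ‖Mz‖ ≤ cK * A := max_le hcA1 hMz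
    have hU1 : (1 : ℝ) ≤ Fintype.card U := by
      have : 1 ≤ Fintype.card U := by omega
      exact_mod_cast this
    have hbase : (Fintype.card U : ℝ) * max 1 ‖Mz‖ ≤ (Fintype.card U : ℝ) * (cK * A) :=
      mul_le_mul_of_nonneg_left hmax (by linarith)
    have hbase1 : 1 ≤ (Fintype.card U : ℝ) * (cK * A) :=
      one_le_mul_of_one_le_of_one_le hU1 hcA1
    have hexp : ((Fintype.card (P × I) : ℝ) / ((Fintype.card U : ℝ) - (Fintype.card (P × I) : ℝ)))
        ≤ (ρ : ℝ) := by
      have h3 : ((Fintype.card (P × I) : ℝ)) < (Fintype.card U : ℝ) := by exact_mod_cast hmn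
      rw [div_le_iff₀ (by linarith)]
      have h4 : ((ρ : ℝ) + 1) * (Fintype.card (P × I) : ℝ) ≤ ρ * (Fintype.card U : ℝ) := by
        rw [hm]
        exact_mod_cast hcard
      linarith
    have hexp0 : 0 ≤ ((Fintype.card (P × I) : ℝ) / ((Fintype.card U : ℝ) - (Fintype.card (P × I) : ℝ))) := by
      have h3 : ((Fintype.card (P × I) : ℝ)) < (Fintype.card U : ℝ) := by exact_mod_cast hmn
      apply div_nonneg (by positivity) (by linarith)
    calc ((Fintype.card U : ℝ) * max 1 ‖Mz‖)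
          ^ ((Fintype.card (P × I) : ℝ) / ((Fintype.card U : ℝ) - (Fintype.card (P × I) : ℝ)))
        ≤ ((Fintype.card U : ℝ) * (cK * A))
          ^ ((Fintype.card (P × I) : ℝ) / ((Fintype.card U : ℝ) - (Fintype.card (P × I) : ℝ))) := by
          apply Real.rpow_le_rpow _ hbase hexp0
          have : (0:ℝ) ≤ max 1 ‖Mz‖ := le_trans zero_le_one (le_max_left _ _)
          positivity
      _ ≤ ((Fintype.card U : ℝ) * (cK * A)) ^ (ρ : ℝ) :=
          Real.rpow_le_rpow_of_exponent_le hbase1 hexp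
      _ = ((Fintype.card U : ℝ) * (cK * A)) ^ ρ := by
          norm_cast

end

/-- Trace coordinates. -/
theorem exists_co (L : Type*) [Field L] [NumberField L] (S : Set (𝓞 L))
    (hS : Submodule.span ℚ ((algebraMap (𝓞 L) L) '' S) = ⊤) (M : ℝ)
    (hM : ∀ s ∈ S, (nrmHouse L).v s ≤ M) :
    ∃ co : 𝓞 L →+ (Fin (finrank ℚ L) → ℤ), Function.Injective co ∧
      ∀ x i, |(co x i : ℝ)| ≤ (finrank ℚ L * M) * (nrmHouse L).v x := by
  obtain ⟨f, hf1, hf2, hf3⟩ := Submodule.exists_fun_fin_finrank_span_eq ℚ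
    ((algebraMap (𝓞 L) L) '' S)
  have hfr : finrank ℚ (Submodule.span ℚ ((algebraMap (𝓞 L) L) '' S)) = finrank ℚ L := by
    rw [hS]; exact finrank_top ℚ L
  have hf2 := hf2.trans hS
  have hf1' : ∀ i, ∃ b : 𝓞 L, b ∈ S ∧ algebraMap (𝓞 L) L b = f i := fun i => hf1 i
  choose b hbS hb using hf1'
  let e : Fin (finrank ℚ L) → Fin (finrank ℚ (Submodule.span ℚ ((algebraMap (𝓞 L) L) '' S))) :=
    Fin.cast hfr.symm
  refine ⟨{ toFun := fun x i => Algebra.trace ℤ (𝓞 L) (x * b (e i))
            map_zero' := ?_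
            map_add' := ?_ }, ?_, ?_⟩
  · funext i
    simp
  · intro x y
    funext i
    simp only [add_mul, map_add, Pi.add_apply]
  · rw [injective_iff_map_eq_zero]
    intro x hx
    have h1 : ∀ j, Algebra.trace ℚ L ((x : L) * f j) = 0 := by
      intro j
      have h2 := congrFun hx (Fin.cast hfr j)
      have h3 : e (Fin.cast hfr j) = j := by
        apply Fin.ext; rfl
      have h4 : (Algebra.trace ℤ (𝓞 L)) (x * b j) = 0 := by
        rw [← h3]; exact h2
      have h5 := Algebra.coe_trace_int (x * b j)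
      rw [h4, Int.cast_zero] at h5
      rw [← hb j]
      have h6 : ((x * b j : 𝓞 L) : L) = (x : L) * algebraMap (𝓞 L) L (b j) :=
        map_mul (algebraMap (𝓞 L) L) x (b j)
      rw [← h6]
      exact h5.symm
    have h2 : ∀ z : L, Algebra.traceForm ℚ L (x : L) z = 0 := by
      intro z
      have hz : z ∈ Submodule.span ℚ (Set.range f) := by rw [hf2]; trivial
      induction hz using Submodule.span_induction with
      | mem z hz =>
        obtain ⟨j, rfl⟩ := hz
        rw [Algebra.traceForm_apply]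
        exact h1 j
      | zero => rw [map_zero]
      | add y z _ _ hy hz => rw [map_add, hy, hz, add_zero]
      | smul r z _ hz => rw [map_smul, hz, smul_zero]
    have h3 : (x : L) = 0 := (traceForm_nondegenerate ℚ L).1 (x : L) h2
    exact RingOfIntegers.coe_eq_zero_iff.mp h3
  · intro x i
    change |((Algebra.trace ℤ (𝓞 L) (x * b (e i)) : ℤ) : ℝ)| ≤ _
    have h1 := Algebra.coe_trace_int (x * b (e i))
    have h2 := trace_eq_sum_embeddings (K := ℚ) (L := L) ℂ (x := ((x * b (e i) : 𝓞 L) : L))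
    have h3 : ((Algebra.trace ℤ (𝓞 L) (x * b (e i)) : ℤ) : ℂ)
        = ∑ σ : L →ₐ[ℚ] ℂ, σ ((x * b (e i) : 𝓞 L) : L) := by
      rw [← h2, ← h1]
      simp
    have h4 : |((Algebra.trace ℤ (𝓞 L) (x * b (e i)) : ℤ) : ℝ)|
        = ‖((Algebra.trace ℤ (𝓞 L) (x * b (e i)) : ℤ) : ℂ)‖ := (Complex.norm_intCast _).symm
    rw [h4, h3]
    refine (norm_sum_le _ _).trans ?_
    have h5 : ∀ σ : L →ₐ[ℚ] ℂ, ‖σ ((x * b (e i) : 𝓞 L) : L)‖ ≤ M * (nrmHouse L).v x := by
      intro σ
      have h6 : ‖σ ((x * b (e i) : 𝓞 L) : L)‖ ≤ (nrmHouse L).v (x * b (e i)) :=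
        norm_embedding_le_house _ σ.toRingHom
      refine h6.trans (((nrmHouse L).mul_le _ _).trans ?_)
      rw [mul_comm]
      exact mul_le_mul_of_nonneg_right (hM _ (hbS _)) ((nrmHouse L).nonneg _)
    refine (Finset.sum_le_sum (fun σ _ => h5 σ)).trans ?_
    rw [Finset.sum_const, Finset.card_univ, nsmul_eq_mul]
    have h6 : Fintype.card (L →ₐ[ℚ] ℂ) = finrank ℚ L := AlgHom.card ℚ L ℂ
    rw [h6]
    apply le_of_eq
    ring

end Pool.Agent.H20.G
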