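import Pool.Agent.H20.G1
import Pool.Agent.H20.Ded1

set_option autoImplicit false

namespace Pool.Agent.H20.G

open Polynomial Finset NumberField Module Metric

/-- index set of vanishing conditions -/
abbrev PIdx (T n : ℕ) : Type := Σ b : Fin T, Fin (T * n - n * b)

lemma card_PIdx (T n : ℕ) : 2 * Fintype.card (PIdx T n) = T * n * (T + 1) := by
  rw [Fintype.card_sigma]
  simp only [Fintype.card_fin]
  rw [Fin.sum_univ_eq_sum_range (fun b => T * n - n * b) T]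
  rw [← Finset.sum_range_reflect]
  have h2 : ∀ j ∈ range T, T * n - n * (T - 1 - j) = n * (j + 1) := by
    intro j hj
    have hj' := Finset.mem_range.mp hj
    obtain ⟨k, hk⟩ : ∃ k, T = j + 1 + k := ⟨T - (j + 1), by omega⟩
    have h3 : T - 1 - j = k := by omega
    rw [h3, hk]
    have : (j + 1 + k) * n = n * (j + 1) + n * k := by ring
    omega
  rw [Finset.sum_congr rfl h2, ← Finset.mul_sum, Finset.sum_add_distrib]
  have h4 := Finset.sum_range_id_mul_two T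
  simp only [Finset.sum_const, Finset.card_range, smul_eq_mul, mul_one]
  rcases Nat.eq_zero_or_pos T with rfl | hm
  · simp
  · obtain ⟨k, rfl⟩ : ∃ k, T = k + 1 := ⟨T - 1, by omega⟩
    simp only [Nat.add_sub_cancel] at h4
    have : 2 * (n * (∑ i ∈ range (k + 1), i + (k + 1)))
        = n * ((∑ i ∈ range (k + 1), i) * 2) + 2 * n * (k + 1) := by ring
    rw [this, h4]
    ring

section

variable {R : Type*} [CommRing R]

/-- the function `y / x` in local coordinates -/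
noncomputable def zt (V : R[X]) (v : R) (k₀ : ℕ) : R[X][X] :=
  V.map C + monomial k₀ (C v * X)

lemma ev_map_C (φ : R →+* ℂ) (s ζ : ℂ) (P : R[X]) : ev φ s ζ (P.map C) = eval₂ φ s P := by
  induction P using Polynomial.induction_on' with
  | add p q hp hq => rw [Polynomial.map_add, map_add, hp, hq, eval₂_add]
  | monomial n a =>
    rw [map_monomial, ← C_mul_X_pow_eq_monomial, map_mul, map_pow, ev_C, ev_X, eval₂_C,
      eval₂_monomial]

lemma ev_zt (φ : R →+* ℂ) (s ζ : ℂ) (V : R[X]) (v : R) (k₀ : ℕ) :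
    ev φ s ζ (zt V v k₀) = eval₂ φ s V + φ v * s ^ k₀ * ζ := by
  unfold zt
  rw [map_add, ev_map_C, ← C_mul_X_pow_eq_monomial, map_mul, map_pow, ev_C, ev_X, eval₂_mul,
    eval₂_C, eval₂_X]
  ring

/-- monomials `x^{-i} (y/x)^j` in local coordinates -/
noncomputable def mn (w : R) (m : ℕ) (Z : R[X][X]) (i j : ℕ) : R[X][X] :=
  (C (C w) * X ^ m) ^ i * Z ^ j

lemma l1_X_pow (ν : Nrm R) (k : ℕ) : ν.poly.l1 (X ^ k : R[X][X]) ≤ 1 := by
  rw [← monomial_one_right_eq_X_pow, ν.poly.l1_monomial]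
  exact ν.poly.one_le

lemma l1_CC (ν : Nrm R) (r : R) : ν.poly.l1 (C (C r) : R[X][X]) = ν.v r := by
  rw [ν.poly.l1_C]
  exact ν.l1_C r

lemma l1_pow_le (ν : Nrm R) (Z : R[X][X]) (j : ℕ) : ν.poly.l1 (Z ^ j) ≤ ν.poly.l1 Z ^ j :=
  ν.poly.poly.pow_le Z j

lemma l1_T_le (ν : Nrm R) (w : R) (m : ℕ) : ν.poly.l1 (C (C w) * X ^ m : R[X][X]) ≤ ν.v w := by
  refine (ν.poly.l1_mul_le _ _).trans ?_
  rw [l1_CC]
  exact mul_le_of_le_one_right (ν.nonneg _) (l1_X_pow ν m)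

lemma mn_l1 (ν : Nrm R) (w : R) (m d Λ : ℕ) (Z : R[X][X]) (i j : ℕ) (h : ℝ) (h1 : 1 ≤ h)
    (hw : ν.v w ≤ h) (hZ : ν.poly.l1 Z ≤ h) (hi : i ≤ Λ) (hj : j ≤ d) :
    ν.poly.l1 (mn w m Z i j) ≤ h ^ (Λ + d) := by
  unfold mn
  have h0 : 0 ≤ h := by linarith
  have e1 : ν.poly.l1 ((C (C w) * X ^ m) ^ i : R[X][X]) ≤ h ^ i :=
    (l1_pow_le ν _ i).trans
      (pow_le_pow_left₀ (ν.poly.l1_nonneg _) ((l1_T_le ν w m).trans hw) _)
  have e2 : ν.poly.l1 (Z ^ j) ≤ h ^ j :=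
    (l1_pow_le ν Z j).trans (pow_le_pow_left₀ (ν.poly.l1_nonneg _) hZ _)
  calc ν.poly.l1 ((C (C w) * X ^ m) ^ i * Z ^ j)
      ≤ h ^ i * h ^ j :=
        (ν.poly.l1_mul_le _ _).trans (mul_le_mul e1 e2 (ν.poly.l1_nonneg _) (by positivity))
    _ = h ^ (i + j) := by rw [← pow_add]
    _ ≤ h ^ (Λ + d) := pow_le_pow_right₀ h1 (by omega)

lemma ev_T (φ : R →+* ℂ) (s ζ x : ℂ) (w : R) (m : ℕ) (hx : x ≠ 0)
    (hs : x * (φ w * s ^ m) = 1) : ev φ s ζ (C (C w) * X ^ m) = x⁻¹ := by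
  rw [map_mul, map_pow, ev_C, ev_X, eval₂_C]
  field_simp
  linear_combination hs

lemma ev_mn (φ : R →+* ℂ) (s ζ x z : ℂ) (w : R) (m : ℕ) (Z : R[X][X]) (i j : ℕ)
    (hx : x ≠ 0) (hs : x * (φ w * s ^ m) = 1)
    (hz : ev φ s ζ Z = z) :
    ev φ s ζ (mn w m Z i j) = (x ^ i)⁻¹ * z ^ j := by
  unfold mn
  rw [map_mul, map_pow, map_pow, ev_T φ s ζ x w m hx hs, hz, inv_pow]

lemma ell_le (ν : Nrm R) (Φ : R[X][X]) (w : R) (m d Λ : ℕ) (Z : R[X][X]) (i j : ℕ) (h : ℝ)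
    (h1 : 1 ≤ h) (hw : ν.v w ≤ h) (hZ : ν.poly.l1 Z ≤ h)
    (hΦ : ν.poly.l1 Φ ≤ h) (hi : i ≤ Λ) (hj : j ≤ d) (a : ℕ) :
    ν.v (c0 ((tau Φ ^ a) (mn w m Z i j))) ≤ h ^ (a + (Λ + d)) := by
  refine (c0_le ν _).trans ((tau_pow_le ν _ _ a).trans ?_)
  rw [pow_add]
  exact mul_le_mul (pow_le_pow_left₀ (ν.poly.l1_nonneg _) hΦ a)
    (mn_l1 ν w m d Λ Z i j h h1 hw hZ hi hj) (ν.poly.l1_nonneg _) (by positivity)

end

section

variable {A B : Type*} [CommRing A] [CommRing B]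

/-- the homogenised equation `T^d f(1/T, Z/T)` -/
def F0 (d : ℕ) (c : ℕ → ℕ → ℤ) (T Z : A) : A :=
  ∑ j ∈ range (d + 1), ∑ i ∈ range (d + 1 - j), (c i j : A) * T ^ (d - i - j) * Z ^ j

lemma map_F0 (g : A →+* B) (d : ℕ) (c : ℕ → ℕ → ℤ) (T Z : A) :
    g (F0 d c T Z) = F0 d c (g T) (g Z) := by
  unfold F0
  rw [map_sum]
  refine Finset.sum_congr rfl (fun j _ => ?_)
  rw [map_sum]
  refine Finset.sum_congr rfl (fun i _ => ?_)
  rw [map_mul, map_mul, map_pow, map_pow, map_intCast]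

lemma F0_eval (d : ℕ) (c : ℕ → ℕ → ℤ) (x z : ℂ) (hx : x ≠ 0) :
    x ^ d * F0 d c x⁻¹ z = evC x (x * z) (fP d c) := by
  have hf : evC x (x * z) (fP d c) = ∑ j ∈ range (d + 1), ∑ i ∈ range (d + 1 - j),
      (c i j : ℂ) * x ^ i * (x * z) ^ j := by
    unfold fP
    rw [map_sum]
    refine Finset.sum_congr rfl (fun j _ => ?_)
    rw [← C_mul_X_pow_eq_monomial, map_mul, map_pow, evC_X, evC_C, eval₂_finsetSum,
      Finset.sum_mul]
    refine Finset.sum_congr rfl (fun i _ => ?_)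
    rw [eval₂_monomial]
    simp
  rw [hf]
  unfold F0
  rw [Finset.mul_sum]
  refine Finset.sum_congr rfl (fun j hj => ?_)
  rw [Finset.mul_sum]
  refine Finset.sum_congr rfl (fun i hi => ?_)
  have hj' := Finset.mem_range.mp hj
  have hi' := Finset.mem_range.mp hi
  have e1 : x ^ d = x ^ (d - i - j) * x ^ (i + j) := by
    rw [← pow_add]; congr 1; omega
  rw [e1, mul_pow, inv_pow, pow_add]
  have : x ^ (d - i - j) ≠ 0 := pow_ne_zero _ hx
  field_simp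

end

/-- lower bound for the derivative at infinity -/
noncomputable def bet (d : ℕ) (h : ℝ) : ℝ := (h ^ (d ^ 2))⁻¹

/-- radius of the disc of holomorphy -/
noncomputable def rho (d : ℕ) (h : ℝ) : ℝ := (bet d h) ^ 2 / (16 * d * h ^ 2)

/-- A curve, local coordinates `(s, ζ)` at a place at infinity, and an integral point near it.
The coordinates are `1 / x = w s ^ m` and `y / x = V(s) + v s ^ k₀ ζ`. -/
structure CP (L : Type*) [Field L] [NumberField L] (φ : 𝓞 L →+* ℂ) (d m : ℕ) (h : ℝ) where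
  c : ℕ → ℕ → ℤ
  w : 𝓞 L
  V : (𝓞 L)[X]
  v : 𝓞 L
  k₀ : ℕ
  μ : ℕ
  Φ : (𝓞 L)[X][X]
  a : ℤ
  b : ℤ
  s : ℂ
  ζ : ℂ
  top : c 0 d = 1
  irr : Irreducible (fP d c)
  w_ne : w ≠ 0
  v_ne : v ≠ 0
  root : c0 Φ = 0
  simple : (tB Φ).coeff 0 ≠ 0
  deg : ∀ k, (Φ.coeff k).natDegree ≤ d
  rel : X ^ μ * Φ = F0 d c (C (C w) * X ^ m) (zt V v k₀)
  hS_le : hS d c ≤ h
  w_le : (nrmHouse L).v w ≤ h
  Φ_le : (nrmHouse L).poly.l1 Φ ≤ h
  z_le : (nrmHouse L).poly.l1 (zt V v k₀) ≤ h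
  a_ne : a ≠ 0
  s_ne : s ≠ 0
  zero : evalEval a b (fP d c) = 0
  hs : (a : ℂ) * (φ w * s ^ m) = 1
  hb : (b : ℂ) = a * ev φ s ζ (zt V v k₀)
  near : ‖ζ‖ ≤ bet d h / (4 * h)

section

variable {L : Type*} [Field L] [NumberField L] {φ : 𝓞 L →+* ℂ} {d m : ℕ}

/-- the monomials attached to a local chart -/
noncomputable def CP.mn {h : ℝ} (P : CP L φ d m h) (i j : ℕ) : (𝓞 L)[X][X] :=
  G.mn P.w m (zt P.V P.v P.k₀) i j

/-- Construction of the auxiliary function. -/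
theorem exists_aux (cK : ℝ) (hcK1 : 1 ≤ cK)
    (co : 𝓞 L →+ (Fin (finrank ℚ L) → ℤ)) (hinj : Function.Injective co)
    (hco : ∀ x i, |(co x i : ℝ)| ≤ cK * (nrmHouse L).v x)
    (n : ℕ) (hd : 3 ≤ d) (hm : 1 ≤ m) (hn : 1 ≤ n) (he : 3 * (finrank ℚ L * m ^ 2) ≤ d ^ 2)
    (y : ℝ) (hy2 : 2 ≤ y) (hycK : cK ≤ y ^ (d ^ 6 * n))
    (P₁ : CP L φ d m y) (P₂ : CP L φ d m (y ^ (n + 1))) :
    ∃ g : (Fin (8 * d * m * n) × Fin d) → (Fin (8 * d * m) × Fin d) → ℤ, (∃ i j, g i j ≠ 0) ∧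
      (∀ a b : ℕ, a + n * b < 18 * d * m ^ 2 * n →
        ∑ i, ∑ j, (g i j : 𝓞 L) * (c0 ((tau P₁.Φ ^ a) (P₁.mn i.1 i.2)) *
          c0 ((tau P₂.Φ ^ b) (P₂.mn j.1 j.2))) = 0) ∧
      ∀ i j, |(g i j : ℝ)| ≤ y ^ (500 * d ^ 6 * n) := by
  classical
  have hy1 : 1 ≤ y := by linarith
  have hyn1 : 1 ≤ y ^ (n + 1) := one_le_pow₀ hy1
  have hmd : m ≤ d := by
    have h1 : 0 < finrank ℚ L := finrank_pos
    have h2 : m ^ 2 ≤ finrank ℚ L * m ^ 2 := Nat.le_mul_of_pos_left _ h1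
    have h3 : m ^ 2 ≤ d ^ 2 := by omega
    exact (Nat.pow_le_pow_iff_left (by norm_num)).mp h3
  let M : PIdx (18 * d * m ^ 2) n →
      ((Fin (8 * d * m * n) × Fin d) × (Fin (8 * d * m) × Fin d)) → 𝓞 L := fun p u =>
    c0 ((tau P₁.Φ ^ (p.2 : ℕ)) (P₁.mn u.1.1 u.1.2)) *
      c0 ((tau P₂.Φ ^ (p.1 : ℕ)) (P₂.mn u.2.1 u.2.2))
  have hMle : ∀ p u, (nrmHouse L).v (M p u) ≤ y ^ (81 * d ^ 3 * n) := by
    rintro ⟨b, a⟩ ⟨⟨m1, j1⟩, ⟨m2, j2⟩⟩
    refine ((nrmHouse L).mul_le _ _).trans ?_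
    have e1 := ell_le (nrmHouse L) P₁.Φ P₁.w m d (8 * d * m * n) (zt P₁.V P₁.v P₁.k₀) m1 j1 y
      hy1 P₁.w_le P₁.z_le P₁.Φ_le m1.isLt.le j1.isLt.le a
    have e2 := ell_le (nrmHouse L) P₂.Φ P₂.w m d (8 * d * m) (zt P₂.V P₂.v P₂.k₀) m2 j2 _
      hyn1 P₂.w_le P₂.z_le P₂.Φ_le m2.isLt.le j2.isLt.le b
    refine (mul_le_mul e1 e2 ((nrmHouse L).nonneg _) (by positivity)).trans ?_
    rw [← pow_mul, ← pow_add]
    apply pow_le_pow_right₀ hy1
    have ha : (a : ℕ) ≤ 18 * d * m ^ 2 * n := by have := a.isLt; omega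
    have hb : (b : ℕ) ≤ 18 * d * m ^ 2 := b.isLt.le
    have e5 : (n + 1) * ((b : ℕ) + (8 * d * m + d)) ≤
        (2 * n) * (18 * d * m ^ 2 + (8 * d * m + d)) :=
      Nat.mul_le_mul (by omega) (by omega)
    have e6 : d ≤ d * n := Nat.le_mul_of_pos_right _ (by omega)
    have e7 : d * m ≤ d * m ^ 2 := Nat.mul_le_mul_left _ (Nat.le_self_pow (by norm_num) m)
    have e8 : d ≤ d * m := Nat.le_mul_of_pos_right _ (by omega)
    calc (a : ℕ) + (8 * d * m * n + d) + (n + 1) * ((b : ℕ) + (8 * d * m + d))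
        ≤ 18 * d * m ^ 2 * n + (8 * d * m * n + d * n) +
          (2 * n) * (18 * d * m ^ 2 + (8 * d * m + d)) := by omega
      _ = (54 * (d * m ^ 2) + 24 * (d * m) + 3 * d) * n := by ring
      _ ≤ 81 * (d * m ^ 2) * n := by
          apply Nat.mul_le_mul_right
          omega
      _ ≤ 81 * (d * d ^ 2) * n := by
          apply Nat.mul_le_mul_right
          apply Nat.mul_le_mul_left
          apply Nat.mul_le_mul_left
          exact Nat.pow_le_pow_left hmd 2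
      _ = 81 * d ^ 3 * n := by ring
  have hcard : (7 + 1) * (Fintype.card (Fin (finrank ℚ L)) *
      Fintype.card (PIdx (18 * d * m ^ 2) n)) ≤
      7 * Fintype.card ((Fin (8 * d * m * n) × Fin d) × (Fin (8 * d * m) × Fin d)) := by
    have hP := card_PIdx (18 * d * m ^ 2) n
    rw [Fintype.card_fin]
    simp only [Fintype.card_prod, Fintype.card_fin]
    set e := finrank ℚ L
    set p := Fintype.card (PIdx (18 * d * m ^ 2) n)
    have h1 : 6 * ((7 + 1) * (e * p)) = 144 * (d * n) * (18 * d * m ^ 2 + 1) * (3 * (e * m ^ 2)) := by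
      calc 6 * ((7 + 1) * (e * p)) = 24 * e * (2 * p) := by ring
        _ = 24 * e * (18 * d * m ^ 2 * n * (18 * d * m ^ 2 + 1)) := by rw [hP]
        _ = _ := by ring
    have h2 : 144 * (d * n) * (18 * d * m ^ 2 + 1) * (3 * (e * m ^ 2))
        ≤ 144 * (d * n) * (18 * d * m ^ 2 + 1) * d ^ 2 := Nat.mul_le_mul_left _ he
    have h3 : 144 * (d * n) * (18 * d * m ^ 2 + 1) * d ^ 2
        ≤ 6 * (7 * (8 * d * m * n * d * (8 * d * m * d))) := by
      have e1 : 144 * (d * n) * (18 * d * m ^ 2 + 1) * d ^ 2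
          = (d ^ 3 * n) * (144 * (18 * (d * m ^ 2) + 1)) := by ring
      have e2 : 6 * (7 * (8 * d * m * n * d * (8 * d * m * d)))
          = (d ^ 3 * n) * (2688 * (d * m ^ 2)) := by ring
      rw [e1, e2]
      apply Nat.mul_le_mul_left
      have : 3 * 1 ≤ d * m ^ 2 := Nat.mul_le_mul hd (Nat.one_le_pow _ _ (by omega))
      omega
    have h4 := h2.trans h3
    rw [← h1] at h4
    exact Nat.le_of_mul_le_mul_left h4 (by norm_num)
  have hT0 : 0 < 18 * d * m ^ 2 := by positivity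
  have hne : Nonempty (PIdx (18 * d * m ^ 2) n) := by
    refine ⟨⟨⟨0, hT0⟩, ⟨0, ?_⟩⟩⟩
    have : 0 < 18 * d * m ^ 2 * n := by positivity
    simpa using this
  have hne2 : Nonempty (Fin (finrank ℚ L)) := ⟨⟨0, finrank_pos⟩⟩
  obtain ⟨g, hg0, hgM, hgb⟩ := siegel_co co hinj (nrmHouse L) cK hcK1 hco M (y ^ (81 * d ^ 3 * n))
    (one_le_pow₀ hy1) hMle 7 hcard
  refine ⟨fun i j => g (i, j), ?_, ?_, ?_⟩
  · by_contra hne
    push Not at hne
    exact hg0 (funext fun u => hne u.1 u.2)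
  · intro a b hab
    have hb : b < 18 * d * m ^ 2 := by
      by_contra hb
      push Not at hb
      have : n * (18 * d * m ^ 2) ≤ n * b := Nat.mul_le_mul_left _ hb
      have e : n * (18 * d * m ^ 2) = 18 * d * m ^ 2 * n := by ring
      omega
    have ha : a < 18 * d * m ^ 2 * n - n * b := by omega
    have h := hgM ⟨⟨b, hb⟩, ⟨a, ha⟩⟩
    rw [Fintype.sum_prod_type] at h
    exact h
  · intro i j
    refine (hgb (i, j)).trans ?_
    have hU : (Fintype.card ((Fin (8 * d * m * n) × Fin d) × (Fin (8 * d * m) × Fin d)) : ℝ)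
        ≤ y ^ (64 * d ^ 6 * n) := by
      apply natCast_le_pow' _ _ y hy2
      simp only [Fintype.card_prod, Fintype.card_fin]
      calc 8 * d * m * n * d * (8 * d * m * d) = 64 * (d ^ 4 * m ^ 2) * n := by ring
        _ ≤ 64 * (d ^ 4 * d ^ 2) * n := by
            apply Nat.mul_le_mul_right
            apply Nat.mul_le_mul_left
            apply Nat.mul_le_mul_left
            exact Nat.pow_le_pow_left hmd 2
        _ = 64 * d ^ 6 * n := by ring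
    calc ((Fintype.card ((Fin (8 * d * m * n) × Fin d) × (Fin (8 * d * m) × Fin d)) : ℝ)
          * (cK * y ^ (81 * d ^ 3 * n))) ^ 7
        ≤ (y ^ (64 * d ^ 6 * n) * (y ^ (d ^ 6 * n) * y ^ (81 * d ^ 3 * n))) ^ 7 := by
          gcongr
      _ = y ^ ((64 * d ^ 6 * n + (d ^ 6 * n + 81 * d ^ 3 * n)) * 7) := by
          rw [← pow_add, ← pow_add, ← pow_mul]
      _ ≤ y ^ (500 * d ^ 6 * n) := by
          apply pow_le_pow_right₀ hy1
          have e2 : 27 * d ^ 3 ≤ d ^ 6 := by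
            calc 27 * d ^ 3 = 3 ^ 3 * d ^ 3 := by norm_num
              _ ≤ d ^ 3 * d ^ 3 := Nat.mul_le_mul_right _ (Nat.pow_le_pow_left hd 3)
              _ = d ^ 6 := by ring
          calc (64 * d ^ 6 * n + (d ^ 6 * n + 81 * d ^ 3 * n)) * 7
              = (455 * d ^ 6 + 21 * (27 * d ^ 3)) * n := by ring
            _ ≤ (455 * d ^ 6 + 21 * d ^ 6) * n := by
                apply Nat.mul_le_mul_right
                omega
            _ ≤ 500 * d ^ 6 * n := by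
                apply Nat.mul_le_mul_right
                omega

end

end Pool.Agent.H20.G
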