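import Pool.Agent.H20.Gap1

set_option autoImplicit false

namespace Pool.Agent.H20

open Polynomial Finset NumberField Module

/-- zero estimate for a general finite index type -/
theorem zero_estimate' (f : ℤ[X][X]) (hf : f.Monic) (hirr : Irreducible f) (d : ℕ)
    (hd : 1 ≤ d) (hdeg : f.natDegree = d) (hf2 : Deg2 f d d) (a : ℤ) (ha : a ≠ 0)
    (ys : PowerSeries ℚ) (hfz : io a ys f = 0)
    (hfy : io a ys (derivative f) ≠ 0)
    {ι : Type} [Fintype ι] (N : ℕ) (A : ι → ℤ[X][X]) (hA : ∀ l, Deg2 (A l) N d) (𝓐 : ℝ)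
    (h1 : 1 ≤ 𝓐) (h𝓐 : ∀ l, nrm2.v (A l) ≤ 𝓐) (w : ι → ℤ)
    (hu : ¬ f ∣ ∑ l, C (C (w l)) * A l) (J : ℕ)
    (hJ : PowerSeries.X ^ J ∣ io a ys (∑ l, C (C (w l)) * A l)) :
    |(a : ℝ)| ^ (J - Fintype.card ι) ≤ zeBound d (Fintype.card ι) N (nrm2.v f) 𝓐 := by
  let e := (Fintype.equivFin ι).symm
  have hsum : ∑ l : Fin (Fintype.card ι), C (C (w (e l))) * A (e l) = ∑ l, C (C (w l)) * A l :=
    Equiv.sum_comp e (fun l => C (C (w l)) * A l)
  refine zero_estimate f hf hirr d hd hdeg hf2 a ha ys hfz hfy (Fintype.card ι) N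
    (fun l => A (e l)) (fun l => hA _) 𝓐 h1 (fun l => h𝓐 _) (fun l => w (e l)) ?_ J ?_
  · rw [hsum]; exact hu
  · rw [hsum]; exact hJ

section

variable {d n : ℕ}

/-- the coefficient polynomials in the first pair of variables -/
noncomputable def Apoly (d n : ℕ) (g : (Fin (8 * d * n) × Fin d) → (Fin (8 * d) × Fin d) → ℤ)
    (j : Fin (8 * d) × Fin d) : ℤ[X][X] :=
  ∑ i : Fin (8 * d * n) × Fin d,
    monomial (i.2 : ℕ) (monomial (8 * d * n + d - i.1 - i.2) (g i j))

/-- the coefficient polynomials in the second pair of variables -/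
noncomputable def Cpoly (d n : ℕ) (g : (Fin (8 * d * n) × Fin d) → (Fin (8 * d) × Fin d) → ℤ)
    (i : Fin (8 * d * n) × Fin d) : ℤ[X][X] :=
  ∑ j : Fin (8 * d) × Fin d,
    monomial (j.2 : ℕ) (monomial (9 * d - j.1 - j.2) (g i j))

/-- values of the second monomials -/
def wval (d : ℕ) (a b : ℤ) (j : Fin (8 * d) × Fin d) : ℤ :=
  a ^ (9 * d - j.1 - j.2) * b ^ (j.2 : ℕ)

/-- the auxiliary polynomial with the second point substituted -/
noncomputable def Upoly (d n : ℕ) (g : (Fin (8 * d * n) × Fin d) → (Fin (8 * d) × Fin d) → ℤ)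
    (a b : ℤ) : ℤ[X][X] := ∑ j, C (C (wval d a b j)) * Apoly d n g j

lemma nrm2_monomial (i j : ℕ) (z : ℤ) : nrm2.v (monomial i (monomial j z)) = |(z : ℝ)| := by
  change nrm1.l1 _ = _
  rw [nrm1.l1_monomial]
  change nrmInt.l1 _ = _
  rw [nrmInt.l1_monomial]
  rfl

lemma Deg2.monomial (i j : ℕ) (z : ℤ) : Deg2 (monomial i (Polynomial.monomial j z)) j i := by
  constructor
  · intro k
    rw [coeff_monomial]
    split_ifs
    · exact natDegree_monomial_le _
    · simp
  · exact natDegree_monomial_le _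

lemma Deg2.sum {ι : Type} (s : Finset ι) (p : ι → ℤ[X][X]) (N M : ℕ)
    (h : ∀ i ∈ s, Deg2 (p i) N M) : Deg2 (∑ i ∈ s, p i) N M := by
  constructor
  · intro j
    rw [finsetSum_coeff]
    exact natDegree_sum_le_of_forall_le _ _ (fun i hi => (h i hi).1 j)
  · exact natDegree_sum_le_of_forall_le _ _ (fun i hi => (h i hi).2)

variable (g : (Fin (8 * d * n) × Fin d) → (Fin (8 * d) × Fin d) → ℤ)

lemma Apoly_deg2 (j : Fin (8 * d) × Fin d) : Deg2 (Apoly d n g j) (8 * d * n + d) d := by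
  refine Deg2.sum _ _ _ _ (fun i _ => (Deg2.monomial _ _ _).mono ?_ i.2.isLt.le)
  omega

lemma Apoly_natDegree_lt (hd : 1 ≤ d) (j : Fin (8 * d) × Fin d) :
    (Apoly d n g j).natDegree < d := by
  have : (Apoly d n g j).natDegree ≤ d - 1 := by
    refine natDegree_sum_le_of_forall_le _ _ (fun i _ => ?_)
    refine (natDegree_monomial_le _).trans ?_
    have := i.2.isLt
    omega
  omega

lemma Cpoly_natDegree_lt (hd : 1 ≤ d) (i : Fin (8 * d * n) × Fin d) :
    (Cpoly d n g i).natDegree < d := by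
  have : (Cpoly d n g i).natDegree ≤ d - 1 := by
    refine natDegree_sum_le_of_forall_le _ _ (fun j _ => ?_)
    refine (natDegree_monomial_le _).trans ?_
    have := j.2.isLt
    omega
  omega

lemma Apoly_nrm (G : ℝ) (hG : ∀ i j, |(g i j : ℝ)| ≤ G) (j : Fin (8 * d) × Fin d) :
    nrm2.v (Apoly d n g j) ≤ ((8 * d * n * d : ℕ) : ℝ) * G := by
  unfold Apoly
  refine (nrm2.sum_le _ _).trans ?_
  calc ∑ i : Fin (8 * d * n) × Fin d,
        nrm2.v (monomial (i.2 : ℕ) (monomial (8 * d * n + d - i.1 - i.2) (g i j)))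
      ≤ ∑ _i : Fin (8 * d * n) × Fin d, G := by
        refine Finset.sum_le_sum (fun i _ => ?_)
        rw [nrm2_monomial]
        exact hG _ _
    _ = ((8 * d * n * d : ℕ) : ℝ) * G := by
        rw [Finset.sum_const, Finset.card_univ, nsmul_eq_mul]
        simp only [Fintype.card_prod, Fintype.card_fin]

lemma Cpoly_nrm (G : ℝ) (hG : ∀ i j, |(g i j : ℝ)| ≤ G) (i : Fin (8 * d * n) × Fin d) :
    nrm2.v (Cpoly d n g i) ≤ ((8 * d * d : ℕ) : ℝ) * G := by
  unfold Cpoly
  refine (nrm2.sum_le _ _).trans ?_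
  calc ∑ j : Fin (8 * d) × Fin d,
        nrm2.v (monomial (j.2 : ℕ) (monomial (9 * d - j.1 - j.2) (g i j)))
      ≤ ∑ _j : Fin (8 * d) × Fin d, G := by
        refine Finset.sum_le_sum (fun i _ => ?_)
        rw [nrm2_monomial]
        exact hG _ _
    _ = ((8 * d * d : ℕ) : ℝ) * G := by
        rw [Finset.sum_const, Finset.card_univ, nsmul_eq_mul]
        simp only [Fintype.card_prod, Fintype.card_fin]

lemma Upoly_natDegree_lt (hd : 1 ≤ d) (a b : ℤ) : (Upoly d n g a b).natDegree < d := by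
  have : (Upoly d n g a b).natDegree ≤ d - 1 := by
    refine natDegree_sum_le_of_forall_le _ _ (fun j _ => ?_)
    refine (natDegree_C_mul_le _ _).trans ?_
    have := Apoly_natDegree_lt g hd j
    omega
  omega

/-- The coefficients of `Cpoly` are the `g i j`. -/
lemma Cpoly_coeff (i : Fin (8 * d * n) × Fin d) (m : Fin (8 * d)) (l : Fin d) :
    ((Cpoly d n g i).coeff l).coeff (9 * d - m - l) = g i (m, l) := by
  classical
  unfold Cpoly
  rw [finsetSum_coeff, finsetSum_coeff, Finset.sum_eq_single (m, l)]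
  · rw [coeff_monomial, if_pos rfl, coeff_monomial, if_pos rfl]
  · rintro ⟨m', l'⟩ _ hne
    rw [coeff_monomial]
    split_ifs with h1
    · rw [coeff_monomial, if_neg]
      intro h2
      apply hne
      have h3 : l' = l := Fin.ext h1
      have h4 : (m' : ℕ) = m := by
        have := m.isLt
        have := m'.isLt
        have := l.isLt
        simp only at h1 h2
        omega
      rw [Prod.mk.injEq]
      exact ⟨Fin.ext h4, h3⟩
    · simp
  · intro h
    exact absurd (Finset.mem_univ _) h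

lemma Cpoly_ne_zero (i : Fin (8 * d * n) × Fin d) (j : Fin (8 * d) × Fin d) (h : g i j ≠ 0) :
    Cpoly d n g i ≠ 0 := by
  intro h0
  apply h
  have h1 := Cpoly_coeff g i j.1 j.2
  rw [h0] at h1
  simpa using h1.symm

/-- The coefficients of `Upoly` are the values of the `Cpoly`. -/
lemma Upoly_coeff (a b : ℤ) (m : Fin (8 * d * n)) (l : Fin d) :
    ((Upoly d n g a b).coeff l).coeff (8 * d * n + d - m - l)
      = evalEval a b (Cpoly d n g (m, l)) := by
  classical
  unfold Upoly Cpoly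
  rw [finsetSum_coeff, finsetSum_coeff, evalEval_finsetSum]
  refine Finset.sum_congr rfl (fun j _ => ?_)
  rw [coeff_C_mul, coeff_C_mul]
  have h1 : ((Apoly d n g j).coeff l).coeff (8 * d * n + d - m - l) = g (m, l) j := by
    unfold Apoly
    rw [finsetSum_coeff, finsetSum_coeff, Finset.sum_eq_single (m, l)]
    · rw [coeff_monomial, if_pos rfl, coeff_monomial, if_pos rfl]
    · rintro ⟨m', l'⟩ _ hne
      rw [coeff_monomial]
      split_ifs with h1
      · rw [coeff_monomial, if_neg]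
        intro h2
        apply hne
        have h3 : l' = l := Fin.ext h1
        have h4 : (m' : ℕ) = m := by
          have := m.isLt
          have := m'.isLt
          have := l.isLt
          simp only at h1 h2
          omega
        rw [Prod.mk.injEq]
        exact ⟨Fin.ext h4, h3⟩
      · simp
    · intro h
      exact absurd (Finset.mem_univ _) h
  rw [h1]
  unfold wval
  rw [← C_mul_X_pow_eq_monomial, evalEval_mul, evalEval_pow, evalEval_X, evalEval_C, eval_monomial]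
  ring

/-- If the auxiliary polynomial degenerates, the second point is a zero of a small polynomial. -/
lemma Upoly_eq_zero (a b : ℤ) (h : Upoly d n g a b = 0) (i : Fin (8 * d * n) × Fin d) :
    evalEval a b (Cpoly d n g i) = 0 := by
  have h1 := Upoly_coeff g a b i.1 i.2
  rw [h] at h1
  simpa using h1.symm

lemma evC_Apoly {R : Type*} [CommRing R] (φ : R →+* ℂ) (α : R) (x ζ : ℂ) (hx : x ≠ 0)
    (j : Fin (8 * d) × Fin d) :
    evC x (x * (φ α + ζ)) (Apoly d n g j)
      = x ^ (8 * d * n + d) * ∑ i : Fin (8 * d * n) × Fin d,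
          (g i j : ℂ) * ev φ (1 / x) ζ (mono α i.1 i.2) := by
  unfold Apoly
  rw [map_sum, Finset.mul_sum]
  refine Finset.sum_congr rfl (fun i _ => ?_)
  rw [ev_mono, ← C_mul_X_pow_eq_monomial, map_mul, map_pow, evC_X, evC_C, eval₂_monomial]
  have h1 := i.1.isLt
  have h2 := i.2.isLt
  have h3 : x ^ (8 * d * n + d) = x ^ (8 * d * n + d - i.1 - i.2) * x ^ (i.1 : ℕ) * x ^ (i.2 : ℕ) := by
    rw [← pow_add, ← pow_add]; congr 1; omega
  rw [h3, mul_pow, one_div, inv_pow]
  have h4 : x ^ (i.1 : ℕ) ≠ 0 := pow_ne_zero _ hx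
  simp only [Int.coe_castRingHom]
  field_simp
  ring

lemma wval_eq {R : Type*} [CommRing R] (φ : R →+* ℂ) (α : R) (a b : ℤ) (ha : a ≠ 0) (ζ : ℂ)
    (hζ : (b : ℂ) = a * (φ α + ζ)) (j : Fin (8 * d) × Fin d) :
    ((wval d a b j : ℤ) : ℂ) = (a : ℂ) ^ (9 * d) * ev φ (1 / (a : ℂ)) ζ (mono α j.1 j.2) := by
  unfold wval
  rw [ev_mono]
  push_cast
  rw [hζ]
  have h1 := j.1.isLt
  have h2 := j.2.isLt
  have hx : (a : ℂ) ≠ 0 := by exact_mod_cast ha
  have h3 : (a : ℂ) ^ (9 * d) = (a : ℂ) ^ (9 * d - j.1 - j.2) * (a : ℂ) ^ (j.1 : ℕ)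
      * (a : ℂ) ^ (j.2 : ℕ) := by
    rw [← pow_add, ← pow_add]; congr 1; omega
  rw [h3, mul_pow, one_div, inv_pow]
  have h4 : (a : ℂ) ^ (j.1 : ℕ) ≠ 0 := pow_ne_zero _ hx
  field_simp
  ring

/-- The value of the auxiliary polynomial on the branch. -/
lemma evC_Upoly {R : Type*} [CommRing R] (φ : R →+* ℂ) (α₁ α₂ : R) (x ζ₁ ζ₂ : ℂ) (hx : x ≠ 0)
    (a b : ℤ) (ha : a ≠ 0) (hζ : (b : ℂ) = a * (φ α₂ + ζ₂)) :
    evC x (x * (φ α₁ + ζ₁)) (Upoly d n g a b)
      = x ^ (8 * d * n + d) * (a : ℂ) ^ (9 * d) *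
        ∑ i : Fin (8 * d * n) × Fin d, ∑ j : Fin (8 * d) × Fin d,
          (g i j : ℂ) * (ev φ (1 / x) ζ₁ (mono α₁ i.1 i.2)
            * ev φ (1 / (a : ℂ)) ζ₂ (mono α₂ j.1 j.2)) := by
  unfold Upoly
  rw [map_sum, Finset.sum_comm, Finset.mul_sum]
  refine Finset.sum_congr rfl (fun j _ => ?_)
  rw [map_mul, evC_C, eval₂_C, evC_Apoly g φ α₁ x ζ₁ hx]
  have h1 := wval_eq φ α₂ a b ha ζ₂ hζ j
  simp only [Int.coe_castRingHom] at h1 ⊢
  rw [h1]
  simp only [Finset.mul_sum]
  refine Finset.sum_congr rfl (fun i _ => ?_)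
  ring

end

end Pool.Agent.H20
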