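import Pool.Agent.H20.G2
import Pool.Agent.H20.Gap2

set_option autoImplicit false

namespace Pool.Agent.H20.G

open Polynomial Finset NumberField Module

section

variable {d Λ₁ Λ₂ : ℕ}

/-- the coefficient polynomials in the first pair of variables -/
noncomputable def Apoly (g : (Fin Λ₁ × Fin d) → (Fin Λ₂ × Fin d) → ℤ)
    (j : Fin Λ₂ × Fin d) : ℤ[X][X] :=
  ∑ i : Fin Λ₁ × Fin d,
    monomial (i.2 : ℕ) (monomial (Λ₁ + d - i.1 - i.2) (g i j))

/-- the coefficient polynomials in the second pair of variables -/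
noncomputable def Cpoly (g : (Fin Λ₁ × Fin d) → (Fin Λ₂ × Fin d) → ℤ)
    (i : Fin Λ₁ × Fin d) : ℤ[X][X] :=
  ∑ j : Fin Λ₂ × Fin d,
    monomial (j.2 : ℕ) (monomial (Λ₂ + d - j.1 - j.2) (g i j))

/-- values of the second monomials -/
def wval (a b : ℤ) (j : Fin Λ₂ × Fin d) : ℤ :=
  a ^ (Λ₂ + d - j.1 - j.2) * b ^ (j.2 : ℕ)

/-- the auxiliary polynomial with the second point substituted -/
noncomputable def Upoly (g : (Fin Λ₁ × Fin d) → (Fin Λ₂ × Fin d) → ℤ)
    (a b : ℤ) : ℤ[X][X] := ∑ j, C (C (wval a b j)) * Apoly g j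

variable (g : (Fin Λ₁ × Fin d) → (Fin Λ₂ × Fin d) → ℤ)

lemma Apoly_deg2 (j : Fin Λ₂ × Fin d) : Deg2 (Apoly g j) (Λ₁ + d) d := by
  refine Deg2.sum _ _ _ _ (fun i _ => (Deg2.monomial _ _ _).mono ?_ i.2.isLt.le)
  omega

lemma Apoly_natDegree_lt (hd : 1 ≤ d) (j : Fin Λ₂ × Fin d) :
    (Apoly g j).natDegree < d := by
  have : (Apoly g j).natDegree ≤ d - 1 := by
    refine natDegree_sum_le_of_forall_le _ _ (fun i _ => ?_)
    refine (natDegree_monomial_le _).trans ?_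
    have := i.2.isLt
    omega
  omega

lemma Cpoly_natDegree_lt (hd : 1 ≤ d) (i : Fin Λ₁ × Fin d) :
    (Cpoly g i).natDegree < d := by
  have : (Cpoly g i).natDegree ≤ d - 1 := by
    refine natDegree_sum_le_of_forall_le _ _ (fun j _ => ?_)
    refine (natDegree_monomial_le _).trans ?_
    have := j.2.isLt
    omega
  omega

lemma Apoly_nrm (G : ℝ) (hG : ∀ i j, |(g i j : ℝ)| ≤ G) (j : Fin Λ₂ × Fin d) :
    nrm2.v (Apoly g j) ≤ ((Λ₁ * d : ℕ) : ℝ) * G := by
  unfold Apoly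
  refine (nrm2.sum_le _ _).trans ?_
  calc ∑ i : Fin Λ₁ × Fin d,
        nrm2.v (monomial (i.2 : ℕ) (monomial (Λ₁ + d - i.1 - i.2) (g i j)))
      ≤ ∑ _i : Fin Λ₁ × Fin d, G := by
        refine Finset.sum_le_sum (fun i _ => ?_)
        rw [nrm2_monomial]
        exact hG _ _
    _ = ((Λ₁ * d : ℕ) : ℝ) * G := by
        rw [Finset.sum_const, Finset.card_univ, nsmul_eq_mul]
        simp only [Fintype.card_prod, Fintype.card_fin]

lemma Cpoly_nrm (G : ℝ) (hG : ∀ i j, |(g i j : ℝ)| ≤ G) (i : Fin Λ₁ × Fin d) :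
    nrm2.v (Cpoly g i) ≤ ((Λ₂ * d : ℕ) : ℝ) * G := by
  unfold Cpoly
  refine (nrm2.sum_le _ _).trans ?_
  calc ∑ j : Fin Λ₂ × Fin d,
        nrm2.v (monomial (j.2 : ℕ) (monomial (Λ₂ + d - j.1 - j.2) (g i j)))
      ≤ ∑ _j : Fin Λ₂ × Fin d, G := by
        refine Finset.sum_le_sum (fun j _ => ?_)
        rw [nrm2_monomial]
        exact hG _ _
    _ = ((Λ₂ * d : ℕ) : ℝ) * G := by
        rw [Finset.sum_const, Finset.card_univ, nsmul_eq_mul]
        simp only [Fintype.card_prod, Fintype.card_fin]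

lemma Upoly_natDegree_lt (hd : 1 ≤ d) (a b : ℤ) : (Upoly g a b).natDegree < d := by
  have : (Upoly g a b).natDegree ≤ d - 1 := by
    refine natDegree_sum_le_of_forall_le _ _ (fun j _ => ?_)
    refine (natDegree_C_mul_le _ _).trans ?_
    have := Apoly_natDegree_lt g hd j
    omega
  omega

/-- The coefficients of `Cpoly` are the `g i j`. -/
lemma Cpoly_coeff (i : Fin Λ₁ × Fin d) (m : Fin Λ₂) (l : Fin d) :
    ((Cpoly g i).coeff l).coeff (Λ₂ + d - m - l) = g i (m, l) := by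
  classical
  unfold Cpoly
  rw [finsetSum_coeff, finsetSum_coeff, Finset.sum_eq_single (m, l)]
  · rw [coeff_monomial, if_pos rfl, coeff_monomial, if_pos rfl]
  · rintro ⟨m', l'⟩ _ hne
    rw [coeff_monomial]
    split_ifs with h1
    · rw [coeff_monomial, if_neg]
      intro h2
      apply hne
      have h3 : l' = l := Fin.ext h1
      have h4 : (m' : ℕ) = m := by
        have := m.isLt
        have := m'.isLt
        have := l.isLt
        simp only at h1 h2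
        omega
      rw [Prod.mk.injEq]
      exact ⟨Fin.ext h4, h3⟩
    · simp
  · intro h
    exact absurd (Finset.mem_univ _) h

lemma Cpoly_ne_zero (i : Fin Λ₁ × Fin d) (j : Fin Λ₂ × Fin d) (h : g i j ≠ 0) :
    Cpoly g i ≠ 0 := by
  intro h0
  apply h
  have h1 := Cpoly_coeff g i j.1 j.2
  rw [h0] at h1
  simpa using h1.symm

/-- The coefficients of `Upoly` are the values of the `Cpoly`. -/
lemma Upoly_coeff (a b : ℤ) (m : Fin Λ₁) (l : Fin d) :
    ((Upoly g a b).coeff l).coeff (Λ₁ + d - m - l)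
      = evalEval a b (Cpoly g (m, l)) := by
  classical
  unfold Upoly Cpoly
  rw [finsetSum_coeff, finsetSum_coeff, evalEval_finsetSum]
  refine Finset.sum_congr rfl (fun j _ => ?_)
  rw [coeff_C_mul, coeff_C_mul]
  have h1 : ((Apoly g j).coeff l).coeff (Λ₁ + d - m - l) = g (m, l) j := by
    unfold Apoly
    rw [finsetSum_coeff, finsetSum_coeff, Finset.sum_eq_single (m, l)]
    · rw [coeff_monomial, if_pos rfl, coeff_monomial, if_pos rfl]
    · rintro ⟨m', l'⟩ _ hne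
      rw [coeff_monomial]
      split_ifs with h1
      · rw [coeff_monomial, if_neg]
        intro h2
        apply hne
        have h3 : l' = l := Fin.ext h1
        have h4 : (m' : ℕ) = m := by
          have := m.isLt
          have := m'.isLt
          have := l.isLt
          simp only at h1 h2
          omega
        rw [Prod.mk.injEq]
        exact ⟨Fin.ext h4, h3⟩
      · simp
    · intro h
      exact absurd (Finset.mem_univ _) h
  rw [h1]
  unfold wval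
  rw [← C_mul_X_pow_eq_monomial, evalEval_mul, evalEval_pow, evalEval_X, evalEval_C, eval_monomial]
  ring

/-- If the auxiliary polynomial degenerates, the second point is a zero of a small polynomial. -/
lemma Upoly_eq_zero (a b : ℤ) (h : Upoly g a b = 0) (i : Fin Λ₁ × Fin d) :
    evalEval a b (Cpoly g i) = 0 := by
  have h1 := Upoly_coeff g a b i.1 i.2
  rw [h] at h1
  simpa using h1.symm

lemma evC_Apoly (x z : ℂ) (hx : x ≠ 0) (j : Fin Λ₂ × Fin d) :
    evC x (x * z) (Apoly g j)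
      = x ^ (Λ₁ + d) * ∑ i : Fin Λ₁ × Fin d,
          (g i j : ℂ) * ((x ^ (i.1 : ℕ))⁻¹ * z ^ (i.2 : ℕ)) := by
  unfold Apoly
  rw [map_sum, Finset.mul_sum]
  refine Finset.sum_congr rfl (fun i _ => ?_)
  rw [← C_mul_X_pow_eq_monomial, map_mul, map_pow, evC_X, evC_C, eval₂_monomial]
  have h1 := i.1.isLt
  have h2 := i.2.isLt
  have h3 : x ^ (Λ₁ + d) = x ^ (Λ₁ + d - i.1 - i.2) * x ^ (i.1 : ℕ) * x ^ (i.2 : ℕ) := by
    rw [← pow_add, ← pow_add]; congr 1; omega
  rw [h3, mul_pow]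
  have h4 : x ^ (i.1 : ℕ) ≠ 0 := pow_ne_zero _ hx
  simp only [Int.coe_castRingHom]
  field_simp

lemma wval_eq (a b : ℤ) (ha : a ≠ 0) (z : ℂ) (hz : (b : ℂ) = a * z) (j : Fin Λ₂ × Fin d) :
    ((wval a b j : ℤ) : ℂ) = (a : ℂ) ^ (Λ₂ + d) * (((a : ℂ) ^ (j.1 : ℕ))⁻¹ * z ^ (j.2 : ℕ)) := by
  unfold wval
  push_cast
  rw [hz]
  have h1 := j.1.isLt
  have h2 := j.2.isLt
  have hx : (a : ℂ) ≠ 0 := by exact_mod_cast ha
  have h3 : (a : ℂ) ^ (Λ₂ + d) = (a : ℂ) ^ (Λ₂ + d - j.1 - j.2) * (a : ℂ) ^ (j.1 : ℕ)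
      * (a : ℂ) ^ (j.2 : ℕ) := by
    rw [← pow_add, ← pow_add]; congr 1; omega
  rw [h3, mul_pow]
  have h4 : (a : ℂ) ^ (j.1 : ℕ) ≠ 0 := pow_ne_zero _ hx
  field_simp

/-- The value of the auxiliary polynomial. -/
lemma evC_Upoly (x z₁ z₂ : ℂ) (hx : x ≠ 0) (a b : ℤ) (ha : a ≠ 0) (hz : (b : ℂ) = a * z₂) :
    evC x (x * z₁) (Upoly g a b)
      = x ^ (Λ₁ + d) * (a : ℂ) ^ (Λ₂ + d) *
        ∑ i : Fin Λ₁ × Fin d, ∑ j : Fin Λ₂ × Fin d,
          (g i j : ℂ) * (((x ^ (i.1 : ℕ))⁻¹ * z₁ ^ (i.2 : ℕ))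
            * (((a : ℂ) ^ (j.1 : ℕ))⁻¹ * z₂ ^ (j.2 : ℕ))) := by
  unfold Upoly
  rw [map_sum, Finset.sum_comm, Finset.mul_sum]
  refine Finset.sum_congr rfl (fun j _ => ?_)
  rw [map_mul, evC_C, eval₂_C, evC_Apoly g x z₁ hx]
  have h1 := wval_eq a b ha z₂ hz j
  simp only [Int.coe_castRingHom] at h1 ⊢
  rw [h1]
  simp only [Finset.mul_sum]
  refine Finset.sum_congr rfl (fun i _ => ?_)
  ring

end

end Pool.Agent.H20.G
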