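import Pool.Agent.H20.Gap4

set_option autoImplicit false

namespace Pool.Agent.H20

open Polynomial Finset NumberField Module Metric

lemma evC_differentiableOn (p : ℤ[X][X]) (Y : ℂ → ℂ) (s : Set ℂ) (hY : DifferentiableOn ℂ Y s) :
    DifferentiableOn ℂ (fun x => evC x (Y x) p) s := by
  have h : (fun x => evC x (Y x) p) = fun x => ∑ i ∈ range (p.natDegree + 1),
      (((p.coeff i).map (Int.castRingHom ℂ)).eval x) * (Y x) ^ i := by
    funext x
    unfold evC
    rw [coe_eval₂RingHom, eval₂_eq_sum_range]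
    simp only [eval_map, coe_eval₂RingHom]
  rw [h]
  refine DifferentiableOn.fun_sum (fun i _ => ?_)
  exact (Polynomial.differentiable _).differentiableOn.mul (hY.pow i)

lemma not_dvd_of_natDegree_lt (f W : ℤ[X][X]) (hf : f.Monic) (hW : W ≠ 0)
    (h : W.natDegree < f.natDegree) : ¬ f ∣ W := by
  intro hdvd
  have := natDegree_le_of_dvd hdvd hW
  omega

variable {K : Type*} [Field K] [NumberField K]

/-- the degenerate case cannot occur -/
lemma Upoly_ne_zero (φ : 𝓞 K →+* ℂ) (d n : ℕ) (hd : 3 ≤ d) (hn : 1 ≤ n) (y : ℝ) (hy : 2 ≤ y)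
    (P₂ : CP K φ d (y ^ (n + 1)))
    (ha₂ : y ^ (kap d * n) ≤ |(P₂.a : ℝ)|)
    (g : (Fin (8 * d * n) × Fin d) → (Fin (8 * d) × Fin d) → ℤ)
    (hg0 : ∃ i j, g i j ≠ 0)
    (hgb : ∀ i j, |(g i j : ℝ)| ≤ y ^ (1232 * d ^ 4 * n)) :
    Upoly d n g P₂.a P₂.b ≠ 0 := by
  intro hU
  have hy0 : 0 < y := by linarith
  have hy1 : 1 ≤ y := by linarith
  obtain ⟨i, j, hij⟩ := hg0
  have h1 := Upoly_eq_zero g P₂.a P₂.b hU i
  have h2 := Cpoly_ne_zero g i j hij
  have hm := fP_monic d P₂.c P₂.top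
  have hdeg := fP_natDegree d P₂.c P₂.top
  have hdeg0 : (fP d P₂.c).natDegree ≠ 0 := by omega
  have hlt := Cpoly_natDegree_lt g (by omega : 1 ≤ d) i
  have h3 := not_dvd_of_natDegree_lt (fP d P₂.c) (Cpoly d n g i) hm h2 (by rw [hdeg]; exact hlt)
  have h4 := root_bound (fP d P₂.c) (Cpoly d n g i) hm P₂.irr P₂.a P₂.b P₂.a_ne hdeg0 P₂.zero h3 h1
  have e1 : d ≤ d ^ 4 := Nat.le_self_pow (by norm_num) d
  have e2 : 1 ≤ d ^ 4 * n := Nat.one_le_iff_ne_zero.mpr (by positivity)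
  have hB1 : nrm2.v (fP d P₂.c) ≤ y ^ (1240 * d ^ 4 * n) := by
    refine (fP_nrm d P₂.c).trans (P₂.hS_le.trans ?_)
    apply pow_le_pow_right₀ hy1
    have : n ≤ d ^ 4 * n := Nat.le_mul_of_pos_left _ (by positivity)
    have e3 : 1240 * d ^ 4 * n = 1240 * (d ^ 4 * n) := by ring
    rw [e3]
    omega
  have hB2 : nrm2.v (Cpoly d n g i) ≤ y ^ (1240 * d ^ 4 * n) := by
    refine (Cpoly_nrm g _ hgb i).trans ?_
    calc ((8 * d * d : ℕ) : ℝ) * y ^ (1232 * d ^ 4 * n)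
        ≤ y ^ (8 * d * d) * y ^ (1232 * d ^ 4 * n) :=
          mul_le_mul_of_nonneg_right (natCast_le_pow _ y hy) (by positivity)
      _ = y ^ (8 * d * d + 1232 * d ^ 4 * n) := by rw [← pow_add]
      _ ≤ y ^ (1240 * d ^ 4 * n) := by
          apply pow_le_pow_right₀ hy1
          have e4 : d * d ≤ d ^ 4 * n := by
            calc d * d = d ^ 2 := by ring
              _ ≤ d ^ 4 := Nat.pow_le_pow_right (by omega) (by norm_num)
              _ ≤ d ^ 4 * n := Nat.le_mul_of_pos_right _ (by omega)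
          calc 8 * d * d + 1232 * d ^ 4 * n = 8 * (d * d) + 1232 * (d ^ 4 * n) := by ring
            _ ≤ 8 * (d ^ 4 * n) + 1232 * (d ^ 4 * n) :=
                Nat.add_le_add_right (Nat.mul_le_mul_left _ e4) _
            _ = 1240 * d ^ 4 * n := by ring
  have h5 := res_l1_le (fP d P₂.c) (Cpoly d n g i) (fP d P₂.c).natDegree (Cpoly d n g i).natDegree
    _ hB1 hB2
  have h6 : |(P₂.a : ℝ)| ≤ y ^ ((2 * d).factorial + 2480 * d ^ 5 * n) := by
    refine h4.trans ?_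
    change nrm1.v _ ≤ _
    refine h5.trans ?_
    rw [hdeg]
    have e5 : d + (Cpoly d n g i).natDegree ≤ 2 * d := by omega
    calc ((d + (Cpoly d n g i).natDegree).factorial : ℝ) *
          (y ^ (1240 * d ^ 4 * n)) ^ (d + (Cpoly d n g i).natDegree)
        ≤ ((2 * d).factorial : ℝ) * (y ^ (1240 * d ^ 4 * n)) ^ (2 * d) := by
          refine mul_le_mul ?_ ?_ (by positivity) (by positivity)
          · exact_mod_cast Nat.factorial_le e5
          · exact pow_le_pow_right₀ (one_le_pow₀ hy1) e5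
      _ ≤ y ^ ((2 * d).factorial) * (y ^ (1240 * d ^ 4 * n)) ^ (2 * d) :=
          mul_le_mul_of_nonneg_right (natCast_le_pow _ y hy) (by positivity)
      _ = y ^ ((2 * d).factorial + 2480 * d ^ 5 * n) := by
          rw [← pow_mul, ← pow_add]; congr 1; ring
  have h7 : y ^ (kap d * n) ≤ y ^ ((2 * d).factorial + 2480 * d ^ 5 * n) := ha₂.trans h6
  have h8 : kap d * n ≤ (2 * d).factorial + 2480 * d ^ 5 * n :=
    (pow_le_pow_iff_right₀ (by linarith : (1 : ℝ) < y)).mp h7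
  have h9 : (2 * d).factorial + 2480 * d ^ 5 * n < kap d * n := by
    unfold kap
    have e6 : (2 * d).factorial ≤ (2 * d).factorial * n := Nat.le_mul_of_pos_right _ (by omega)
    have e7 : (6 * cZ d + 2870 * d ^ 3 + (2 * d).factorial + 2480 * d ^ 5 + 1) * n
        = (6 * cZ d + 2870 * d ^ 3) * n + (2 * d).factorial * n + 2480 * d ^ 5 * n + n := by ring
    rw [e7]
    omega
  omega

/-- The gap theorem. -/
theorem gap (φ : 𝓞 K →+* ℂ) (ψ : K →+* ℂ) (hψ : φ = ψ.comp (algebraMap (𝓞 K) K))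
    (cK : ℝ) (hcK1 : 1 ≤ cK)
    (hcK : ∀ (x : 𝓞 K) (i : Free.ChooseBasisIndex ℤ (𝓞 K)),
      |(((RingOfIntegers.basis K).repr x i : ℤ) : ℝ)| ≤ cK * (nrmHouse K).v x)
    (d n : ℕ) (hd : 3 ≤ d) (hn : 68 * d ^ 2 ≤ n) (he : finrank ℚ K ≤ d) (y : ℝ) (hy : 2 ≤ y)
    (hyc : cK ≤ y) (P₁ : CP K φ d y) (P₂ : CP K φ d (y ^ (n + 1)))
    (ha₁ : |(P₁.a : ℝ)| = y ^ kap d)
    (ha₂ : y ^ (kap d * n) ≤ |(P₂.a : ℝ)|) (ha₂' : |(P₂.a : ℝ)| ≤ y ^ (kap d * (n + 1))) :
    False := by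
  have hφn : ∀ a, ‖φ a‖ ≤ (nrmHouse K).v a := by
    intro a; rw [hψ]; exact norm_phi_le ψ a
  have hy0 : 0 < y := by linarith
  have hy1 : 1 ≤ y := by linarith
  have hn1 : 1 ≤ n := by
    have : 0 < 68 * d ^ 2 := by positivity
    omega
  have hd1 : 1 ≤ d := by omega
  obtain ⟨κ, hκ⟩ : ∃ κ, κ = kap d := ⟨_, rfl⟩
  have hκ1 : 6 * cZ d + 2870 * d ^ 3 + 1 ≤ κ := by
    rw [hκ]; unfold kap; omega
  have hκ2 : 2870 * d ^ 2 ≤ κ := by
    have : d ^ 2 ≤ d ^ 3 := Nat.pow_le_pow_right (by omega) (by norm_num)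
    omega
  obtain ⟨g, hg0, hg, hgb⟩ := exists_aux K cK hcK1 hcK d n hd hn1 he y hy hyc P₁.c P₂.c P₁.α P₂.α
    P₁.hS_le P₁.α_le P₂.hS_le P₂.α_le
  have hU0 := Upoly_ne_zero φ d n hd hn1 y hy P₂ ha₂ g hg0 hgb
  rw [← hκ] at ha₁ ha₂ ha₂'
  set U := Upoly d n g P₂.a P₂.b with hU
  set f := fP d P₁.c with hf
  have hm : f.Monic := fP_monic d P₁.c P₁.top
  have hdeg : f.natDegree = d := fP_natDegree d P₁.c P₁.top
  have hf2 : Deg2 f d d := fP_deg2 d P₁.c
  have hUlt := Upoly_natDegree_lt g hd1 P₂.a P₂.b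
  have hUdvd : ¬ f ∣ U := not_dvd_of_natDegree_lt f U hm hU0 (by rw [hdeg]; exact hUlt)
  -- the branch
  have haC : (P₁.a : ℂ) ≠ 0 := by exact_mod_cast P₁.a_ne
  have hna : ‖(P₁.a : ℂ)‖ = y ^ κ := by rw [Complex.norm_intCast, ha₁]
  have hrho : ∀ x : ℂ, y ^ κ / 2 ≤ ‖x‖ → ‖1 / x‖ < rho d y := by
    intro x hx
    have hxpos : 0 < ‖x‖ := lt_of_lt_of_le (by positivity) hx
    refine lt_of_lt_of_le ?_ (rho_ge d y hy hd1)
    rw [norm_div, norm_one, one_div]
    rw [inv_lt_inv₀ hxpos (by positivity)]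
    refine lt_of_lt_of_le ?_ hx
    rw [lt_div_iff₀ (by norm_num)]
    calc y ^ (6 * d ^ 2 + 3 * d + 6) * 2 ≤ y ^ (6 * d ^ 2 + 3 * d + 6) * y := by gcongr
      _ = y ^ (6 * d ^ 2 + 3 * d + 7) := by rw [← pow_succ]
      _ < y ^ κ := by
          apply pow_lt_pow_right₀ (by linarith)
          nlinarith
  have hhalf : y ^ κ / 2 ≤ ‖(P₁.a : ℂ)‖ := by
    rw [hna]
    have : 0 < y ^ κ := by positivity
    linarith
  obtain ⟨Z, hZd, hZ, hZa, hfy⟩ := CP.package φ ψ hψ d hd1 he y hy P₁ (hrho _ hhalf)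
  -- power series expansion
  obtain ⟨ys, hys, hfz⟩ := exists_ys f hm P₁.a P₁.b P₁.zero hfy
  have hio : io P₁.a ys U ≠ 0 := by
    intro h0
    exact hUdvd (dvd_of_io_eq_zero f U hm P₁.irr P₁.a (by omega) ys hfz h0)
  have hfy' : io P₁.a ys (derivative f) ≠ 0 := by
    intro h0
    have h1 := constantCoeff_io P₁.a P₁.b ys hys (derivative f)
    rw [h0, map_zero] at h1
    exact hfy (by exact_mod_cast h1.symm)
  obtain ⟨k, uk, hk, hdvd, huk⟩ := exact_div f U P₁.a P₁.b P₁.zero hfy ys hys hfz hio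
  -- the zero estimate
  have hkb : κ * k ≤ cZ d * n + κ * (8 * d * d) := by
    have h1 := zero_estimate' f hm P₁.irr d hd1 hdeg hf2 P₁.a P₁.a_ne ys hfz hfy'
      (8 * d * n + d) (Apoly d n g) (fun j => Apoly_deg2 g j) (y ^ (1240 * d ^ 4 * n))
      (one_le_pow₀ hy1) (fun j => ?_) (wval d P₂.a P₂.b) hUdvd k hk
    · have hcard : Fintype.card (Fin (8 * d) × Fin d) = 8 * d * d := by
        rw [Fintype.card_prod, Fintype.card_fin, Fintype.card_fin]
      rw [hcard, ha₁] at h1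
      have h2 := h1.trans (zeBound_le d n hd hn1 y hy (nrm2.v f) (y ^ (1240 * d ^ 4 * n))
        (nrm2.nonneg _) ((fP_nrm d P₁.c).trans P₁.hS_le) (by positivity) le_rfl)
      rw [← pow_mul] at h2
      have h3 := (pow_le_pow_iff_right₀ (by linarith : (1 : ℝ) < y)).mp h2
      have h4 : κ * k ≤ κ * (k - 8 * d * d) + κ * (8 * d * d) := by
        rw [← mul_add]
        exact Nat.mul_le_mul_left _ (by omega)
      omega
    · refine (Apoly_nrm g _ hgb j).trans ?_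
      calc ((8 * d * n * d : ℕ) : ℝ) * y ^ (1232 * d ^ 4 * n)
          ≤ y ^ (8 * d * n * d) * y ^ (1232 * d ^ 4 * n) :=
            mul_le_mul_of_nonneg_right (natCast_le_pow _ y hy) (by positivity)
        _ = y ^ (8 * d * n * d + 1232 * d ^ 4 * n) := by rw [← pow_add]
        _ ≤ y ^ (1240 * d ^ 4 * n) := by
            apply pow_le_pow_right₀ hy1
            have e4 : d * d ≤ d ^ 4 := by
              calc d * d = d ^ 2 := by ring
                _ ≤ d ^ 4 := Nat.pow_le_pow_right (by omega) (by norm_num)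
            calc 8 * d * n * d + 1232 * d ^ 4 * n = 8 * (d * d * n) + 1232 * (d ^ 4 * n) := by ring
              _ ≤ 8 * (d ^ 4 * n) + 1232 * (d ^ 4 * n) := by
                  apply Nat.add_le_add_right
                  exact Nat.mul_le_mul_left _ (Nat.mul_le_mul_right _ e4)
              _ = 1240 * d ^ 4 * n := by ring
  -- the function `G`
  let Y : ℂ → ℂ := fun x => x * (φ P₁.α + Z (1 / x))
  let G : ℂ → ℂ := fun x => evC x (Y x) uk
  let s : Set ℂ := {x | y ^ κ / 2 ≤ ‖x‖}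
  have hs0 : ∀ x ∈ s, x ≠ 0 := by
    intro x hx h0
    have hx' : y ^ κ / 2 ≤ ‖x‖ := hx
    rw [h0, norm_zero] at hx'
    have : 0 < y ^ κ / 2 := by positivity
    linarith
  have hYd : DifferentiableOn ℂ Y s := by
    have h1 : DifferentiableOn ℂ (fun x : ℂ => 1 / x) s := by
      intro x hx
      have := hs0 x hx
      exact (DifferentiableAt.div (differentiableAt_const _) differentiableAt_id this).differentiableWithinAt
    have h2 : DifferentiableOn ℂ (fun x : ℂ => Z (1 / x)) s := by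
      refine hZd.comp h1 (fun x hx => ?_)
      rw [mem_ball_zero_iff]
      exact hrho x hx
    exact differentiableOn_id.mul ((differentiableOn_const _).add h2)
  have hGd : DifferentiableOn ℂ G s := evC_differentiableOn uk Y s hYd
  have hball : closedBall (P₁.a : ℂ) (y ^ κ / 2) ⊆ s := by
    intro x hx
    rw [mem_closedBall, dist_eq_norm] at hx
    have h1 : ‖(P₁.a : ℂ)‖ ≤ ‖x - P₁.a‖ + ‖x‖ := by
      have : (P₁.a : ℂ) = x - (x - P₁.a) := by ring
      calc ‖(P₁.a : ℂ)‖ = ‖x - (x - P₁.a)‖ := by rw [← this]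
        _ ≤ ‖x‖ + ‖x - P₁.a‖ := norm_sub_le _ _
        _ = _ := add_comm _ _
    rw [hna] at h1
    change y ^ κ / 2 ≤ ‖x‖
    linarith
  have hκpos : 0 < y ^ κ := by positivity
  have hr : y ^ κ / 2 ≠ 0 := by positivity
  have hκ6 : 6 ≤ κ := by
    have : 1 ≤ d ^ 2 := Nat.one_le_iff_ne_zero.mpr (by positivity)
    omega
  -- bound on the boundary
  have hbd : ∀ x ∈ frontier (ball (P₁.a : ℂ) (y ^ κ / 2)),
      ‖G x‖ ≤ y ^ (3 * d * (cZ d * n + κ * (8 * d * d)) + (10 * κ * d + 1435 * d ^ 4 * n))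
        / y ^ (κ * d * n) := by
    intro x hx
    rw [frontier_ball _ hr, mem_sphere, dist_eq_norm] at hx
    have hxs : x ∈ s := hball (by rw [mem_closedBall, dist_eq_norm, hx])
    have hx0 := hs0 x hxs
    have hxle : ‖x‖ ≤ y ^ (κ + 1) := by
      have h1 : ‖x‖ ≤ ‖x - P₁.a‖ + ‖(P₁.a : ℂ)‖ := by
        calc ‖x‖ = ‖(x - P₁.a) + P₁.a‖ := by rw [sub_add_cancel]
          _ ≤ _ := norm_add_le _ _
      rw [hx, hna] at h1
      rw [pow_succ]
      nlinarith
    have hmem : (1 / x) ∈ ball (0 : ℂ) (rho d y) := by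
      rw [mem_ball_zero_iff]; exact hrho x hxs
    obtain ⟨hZ1, hZ2⟩ := hZ _ hmem
    have hval := value_bound φ ψ hψ d n hd hn1 he y hy κ (by omega) P₁ P₂ ha₂ ha₂' g hg hgb x
      hxs hxle (Z (1 / x)) hZ1 hZ2
    have hfx : evC x (Y x) f = 0 := by
      have := ev_Phi φ x (Z (1 / x)) hx0 d P₁.c P₁.α
      rw [hZ2, mul_zero] at this
      exact this.symm
    have hrel : (evC x (Y x) (cof f P₁.b)) ^ k * evC x (Y x) U = (x - P₁.a) ^ k * G x := by
      obtain ⟨q, hq⟩ := hdvd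
      have h1 := congrArg (evC x (Y x)) hq
      rw [map_sub, map_mul, map_mul, map_mul, map_pow, map_pow, hfx, zero_mul, sub_eq_zero,
        evC_C, eval₂_sub, eval₂_X, eval₂_C] at h1
      simpa using h1
    have hZsmall : ‖Z (1 / x)‖ ≤ 1 := by
      refine hZ1.trans ?_
      have h1 := bet_le_one d y hy
      have h2 : (1 : ℝ) ≤ y ^ (d + 1) := one_le_pow₀ hy1
      rw [div_le_one (by positivity)]
      linarith
    have hαZ : ∀ z : ℂ, ‖z‖ ≤ 1 → ‖φ P₁.α + z‖ ≤ y := by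
      intro z hz
      refine (norm_add_le _ _).trans ?_
      have := hφn P₁.α
      have := P₁.α_le
      linarith
    have hYle : ‖Y x‖ ≤ y ^ (κ + 2) := by
      change ‖x * (φ P₁.α + Z (1 / x))‖ ≤ _
      rw [norm_mul]
      calc ‖x‖ * ‖φ P₁.α + Z (1 / x)‖ ≤ y ^ (κ + 1) * y :=
            mul_le_mul hxle (hαZ _ hZsmall) (norm_nonneg _) (by positivity)
        _ = y ^ (κ + 2) := by rw [← pow_succ]
    have hble : |(P₁.b : ℝ)| ≤ y ^ (κ + 2) := by
      have h1 : ‖(P₁.b : ℂ)‖ ≤ y ^ κ * y := by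
        rw [P₁.b_eq, norm_mul, hna]
        refine mul_le_mul_of_nonneg_left (hαZ _ ?_) (by positivity)
        rw [← hZa]
        have hmem' : (1 / (P₁.a : ℂ)) ∈ ball (0 : ℂ) (rho d y) := by
          rw [mem_ball_zero_iff]; exact hrho _ hhalf
        refine (hZ _ hmem').1.trans ?_
        have h1 := bet_le_one d y hy
        have h2 : (1 : ℝ) ≤ y ^ (d + 1) := one_le_pow₀ hy1
        rw [div_le_one (by positivity)]
        linarith
      rw [Complex.norm_intCast] at h1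
      refine h1.trans ?_
      rw [← pow_succ]
      exact pow_le_pow_right₀ hy1 (by omega)
    have hcof : ‖evC x (Y x) (cof f P₁.b)‖ ≤ y ^ (3 * d * κ) := by
      refine (norm_evC_cof_le f d hf2 P₁.b x (Y x) (y ^ (κ + 2)) (one_le_pow₀ hy1)
        (hxle.trans (pow_le_pow_right₀ hy1 (by omega))) hYle hble).trans ?_
      calc (d : ℝ) * nrm2.v f * (y ^ (κ + 2)) ^ (2 * d) ≤ y ^ d * y * (y ^ (κ + 2)) ^ (2 * d) := by
            refine mul_le_mul_of_nonneg_right ?_ (by positivity)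
            exact mul_le_mul (natCast_le_pow _ y hy) ((fP_nrm d P₁.c).trans P₁.hS_le)
              (nrm2.nonneg _) (by positivity)
        _ = y ^ (d + 1 + (κ + 2) * (2 * d)) := by rw [← pow_succ, ← pow_mul, ← pow_add]
        _ ≤ y ^ (3 * d * κ) := by
            apply pow_le_pow_right₀ hy1
            have : 6 * d ≤ κ * d := Nat.mul_le_mul_right _ hκ6
            have e1 : d + 1 + (κ + 2) * (2 * d) = 5 * d + 1 + 2 * (κ * d) := by ring
            have e2 : 3 * d * κ = 3 * (κ * d) := by ring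
            rw [e1, e2]
            omega
    -- combine
    have hge1 : (1 : ℝ) ≤ ‖x - P₁.a‖ ^ k := by
      apply one_le_pow₀
      rw [hx, le_div_iff₀ (by norm_num)]
      calc (1 : ℝ) * 2 ≤ y ^ 1 := by rw [pow_one, one_mul]; exact hy
        _ ≤ y ^ κ := pow_le_pow_right₀ hy1 (by omega)
    have hG : ‖G x‖ ≤ (y ^ (3 * d * κ)) ^ k * ‖evC x (Y x) U‖ := by
      have h1 := congrArg norm hrel
      rw [norm_mul, norm_mul, norm_pow, norm_pow] at h1
      calc ‖G x‖ = 1 * ‖G x‖ := (one_mul _).symm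
        _ ≤ ‖x - P₁.a‖ ^ k * ‖G x‖ := mul_le_mul_of_nonneg_right hge1 (norm_nonneg _)
        _ = ‖evC x (Y x) (cof f P₁.b)‖ ^ k * ‖evC x (Y x) U‖ := h1.symm
        _ ≤ _ := mul_le_mul_of_nonneg_right (pow_le_pow_left₀ (norm_nonneg _) hcof _)
            (norm_nonneg _)
    have hP : 0 < y ^ (κ * d * n) := by positivity
    rw [le_div_iff₀ hP]
    calc ‖G x‖ * y ^ (κ * d * n) ≤ ((y ^ (3 * d * κ)) ^ k * ‖evC x (Y x) U‖) * y ^ (κ * d * n) :=
          mul_le_mul_of_nonneg_right hG hP.le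
      _ = (y ^ (3 * d * κ)) ^ k * (‖evC x (Y x) U‖ * y ^ (κ * d * n)) := by ring
      _ ≤ (y ^ (3 * d * κ)) ^ k * y ^ (10 * κ * d + 1435 * d ^ 4 * n) :=
          mul_le_mul_of_nonneg_left hval (by positivity)
      _ ≤ y ^ (3 * d * (cZ d * n + κ * (8 * d * d))) * y ^ (10 * κ * d + 1435 * d ^ 4 * n) := by
          refine mul_le_mul_of_nonneg_right ?_ (by positivity)
          rw [← pow_mul]
          apply pow_le_pow_right₀ hy1
          calc 3 * d * κ * k = 3 * d * (κ * k) := by ring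
            _ ≤ 3 * d * (cZ d * n + κ * (8 * d * d)) := Nat.mul_le_mul_left _ hkb
      _ = y ^ (3 * d * (cZ d * n + κ * (8 * d * d)) + (10 * κ * d + 1435 * d ^ 4 * n)) := by
          rw [← pow_add]
  have hmax := Complex.norm_le_of_forall_mem_frontier_norm_le isBounded_ball
    (hGd.diffContOnCl_ball hball) hbd (subset_closure (mem_ball_self (by positivity)))
  -- lower bound at the centre
  have hGa : G P₁.a = ((evalEval P₁.a P₁.b uk : ℤ) : ℂ) := by
    change evC (P₁.a : ℂ) (P₁.a * (φ P₁.α + Z (1 / (P₁.a : ℂ)))) uk = _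
    rw [hZa, ← P₁.b_eq, evC_int]
  rw [hGa, Complex.norm_intCast] at hmax
  have hone : (1 : ℝ) ≤ |((evalEval P₁.a P₁.b uk : ℤ) : ℝ)| := by
    have := Int.one_le_abs huk
    exact_mod_cast this
  have hfin := hone.trans hmax
  rw [le_div_iff₀ (by positivity), one_mul] at hfin
  have hfin' := (pow_le_pow_iff_right₀ (by linarith : (1 : ℝ) < y)).mp hfin
  -- numerology
  have e1 : 3 * d * (cZ d * n + κ * (8 * d * d)) + (10 * κ * d + 1435 * d ^ 4 * n)
      = d * ((3 * cZ d + 1435 * d ^ 3) * n + κ * (24 * d ^ 2 + 10)) := by ring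
  have e2 : κ * d * n = d * (κ * n) := by ring
  rw [e1, e2] at hfin'
  have hfin2 := Nat.le_of_mul_le_mul_left hfin' (by omega : 0 < d)
  have e3 : (6 * cZ d + 2870 * d ^ 3 + 1) * n ≤ κ * n := Nat.mul_le_mul_right _ hκ1
  have e4 : (6 * cZ d + 2870 * d ^ 3 + 1) * n = 2 * ((3 * cZ d + 1435 * d ^ 3) * n) + n := by ring
  have e5 : κ * (68 * d ^ 2) ≤ κ * n := Nat.mul_le_mul_left _ hn
  have e6 : κ * (68 * d ^ 2) = 2 * (κ * (24 * d ^ 2 + 10)) + κ * (20 * d ^ 2 - 20) := by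
    have h1 : 1 ≤ d ^ 2 := Nat.one_le_iff_ne_zero.mpr (by positivity)
    have h2 : 68 * d ^ 2 = 2 * (24 * d ^ 2 + 10) + (20 * d ^ 2 - 20) := by omega
    calc κ * (68 * d ^ 2) = κ * (2 * (24 * d ^ 2 + 10) + (20 * d ^ 2 - 20)) := by rw [← h2]
      _ = _ := by ring
  omega

end Pool.Agent.H20
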