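import Pool.Agent.H20.G3
import Pool.Agent.H20.Gap5

set_option autoImplicit false

namespace Pool.Agent.H20.G

open Polynomial Finset NumberField Module Metric

lemma bet_pos (d : ℕ) (h : ℝ) (hh : 2 ≤ h) : 0 < bet d h := by
  unfold bet
  have : 0 < h := by linarith
  positivity

lemma bet_le_one (d : ℕ) (h : ℝ) (hh : 2 ≤ h) : bet d h ≤ 1 := by
  unfold bet
  exact inv_le_one_of_one_le₀ (one_le_pow₀ (by linarith))

lemma rho_ge (d : ℕ) (h : ℝ) (hh : 2 ≤ h) (hd : 1 ≤ d) :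
    (h ^ (2 * d ^ 2 + d + 6))⁻¹ ≤ rho d h := by
  have hh0 : 0 < h := by linarith
  have hd0 : (0 : ℝ) < d := by exact_mod_cast hd
  unfold rho bet
  rw [inv_pow, ← pow_mul, inv_eq_one_div, inv_eq_one_div, div_div]
  apply one_div_le_one_div_of_le (by positivity)
  have h1 : (16 : ℝ) ≤ h ^ 4 := by
    calc (16 : ℝ) = 2 ^ 4 := by norm_num
      _ ≤ h ^ 4 := pow_le_pow_left₀ (by norm_num) hh 4
  have h2 : (d : ℝ) ≤ h ^ d := natCast_le_pow d h hh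
  calc h ^ (d ^ 2 * 2) * (16 * d * h ^ 2)
      ≤ h ^ (d ^ 2 * 2) * (h ^ 4 * h ^ d * h ^ 2) := by gcongr
    _ = h ^ (2 * d ^ 2 + d + 6) := by
      rw [← pow_add, ← pow_add, ← pow_add]; congr 1; ring

variable {L : Type*} [Field L] [NumberField L]

namespace CP

variable {φ : 𝓞 L →+* ℂ} {d m : ℕ} {h : ℝ} (P : CP L φ d m h)

lemma ev_eq (s ζ x z : ℂ) (hx : x ≠ 0) (hxs : x * (φ P.w * s ^ m) = 1)
    (hz : ev φ s ζ (zt P.V P.v P.k₀) = z) :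
    x ^ d * (s ^ P.μ * ev φ s ζ P.Φ) = evC x (x * z) (fP d P.c) := by
  rw [← F0_eval d P.c x z hx]
  have h1 := congrArg (ev φ s ζ) P.rel
  rw [map_mul, map_pow, ev_X, map_F0, ev_T φ s ζ x P.w m hx hxs, hz] at h1
  rw [h1]

lemma a_neC : (P.a : ℂ) ≠ 0 := by exact_mod_cast P.a_ne

lemma φw_ne : φ P.w ≠ 0 := by
  intro h0
  have := P.hs
  rw [h0, zero_mul, mul_zero] at this
  exact zero_ne_one this

/-- the value of `y / x` -/
noncomputable def z : ℂ := ev φ P.s P.ζ (zt P.V P.v P.k₀)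

lemma b_eq : (P.b : ℂ) = P.a * P.z := P.hb

lemma ev_zero : ev φ P.s P.ζ P.Φ = 0 := by
  have h1 := P.ev_eq P.s P.ζ P.a P.z P.a_neC P.hs rfl
  rw [← P.b_eq, evC_int, P.zero, Int.cast_zero] at h1
  rcases mul_eq_zero.mp h1 with h2 | h2
  · exact absurd h2 (pow_ne_zero _ P.a_neC)
  · rcases mul_eq_zero.mp h2 with h3 | h3
    · exact absurd h3 (pow_ne_zero _ P.s_ne)
    · exact h3

end CP

lemma bet_le_norm (φ : 𝓞 L →+* ℂ) (ψ : L →+* ℂ) (hψ : φ = ψ.comp (algebraMap (𝓞 L) L))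
    (d m : ℕ) (he : finrank ℚ L ≤ d ^ 2) (h : ℝ) (hh : 2 ≤ h)
    (P : CP L φ d m h) :
    bet d h ≤ ‖φ ((tB P.Φ).coeff 0)‖ := by
  set D := (tB P.Φ).coeff 0 with hD
  have h1 := one_le_norm_mul ψ D P.simple
  rw [← hψ] at h1
  have h2 : (nrmHouse L).v D ≤ h := by
    refine le_trans ?_ P.Φ_le
    refine ((nrmHouse L).coeff_le _ _).trans ?_
    exact ((nrmHouse L).l1_divX_le _).trans ((nrmHouse L).poly.coeff_le _ _)
  have hh0 : 0 < h := by linarith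
  have h3 : ((nrmHouse L).v D) ^ (finrank ℚ L - 1) ≤ h ^ (d ^ 2) := by
    calc ((nrmHouse L).v D) ^ (finrank ℚ L - 1) ≤ h ^ (finrank ℚ L - 1) :=
          pow_le_pow_left₀ ((nrmHouse L).nonneg _) h2 _
      _ ≤ h ^ (d ^ 2) := pow_le_pow_right₀ (by linarith) (by omega)
  unfold bet
  rw [inv_le_iff_one_le_mul₀ (by positivity)]
  refine h1.trans ?_
  rw [mul_comm]
  exact mul_le_mul_of_nonneg_right h3 (norm_nonneg _) |>.trans (by rw [mul_comm])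

lemma sm_le_one (d : ℕ) (h : ℝ) (hh : 2 ≤ h) : bet d h / (2 * h) ≤ 1 := by
  have h1 := bet_le_one d h hh
  rw [div_le_one (by linarith)]
  linarith

lemma CP.near' {φ : 𝓞 L →+* ℂ} {d m : ℕ} {h : ℝ} (hh : 2 ≤ h) (P : CP L φ d m h) :
    ‖P.ζ‖ < bet d h / (2 * h) := by
  refine lt_of_le_of_lt P.near ?_
  have := bet_pos d h hh
  apply div_lt_div_of_pos_left this (by linarith)
  linarith

/-- The branch through an integral point. -/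
theorem CP.package (φ : 𝓞 L →+* ℂ) (ψ : L →+* ℂ) (hψ : φ = ψ.comp (algebraMap (𝓞 L) L))
    (d m : ℕ) (hd : 1 ≤ d) (he : finrank ℚ L ≤ d ^ 2) (h : ℝ) (hh : 2 ≤ h)
    (P : CP L φ d m h) (hs : ‖P.s‖ < rho d h) :
    ∃ Z : ℂ → ℂ, DifferentiableOn ℂ Z (ball (0 : ℂ) (rho d h)) ∧
      (∀ t ∈ ball (0 : ℂ) (rho d h), ‖Z t‖ ≤ bet d h / (2 * h) ∧
        ev φ t (Z t) P.Φ = 0) ∧
      Z P.s = P.ζ ∧ evalEval P.a P.b (derivative (fP d P.c)) ≠ 0 := by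
  have hφn : ∀ a, ‖φ a‖ ≤ (nrmHouse L).v a := by
    intro a; rw [hψ]; exact norm_phi_le ψ a
  have hβ := bet_le_norm φ ψ hψ d m he h hh P
  have hβ0 := bet_pos d h hh
  have hh0 : 0 < h := by linarith
  obtain ⟨Z, hZd, hZ⟩ := analytic_branch (nrmHouse L) φ hφn P.Φ P.root d hd
    P.deg h (bet d h) (by linarith) P.Φ_le
    hβ0 (bet_le_one d h hh) hβ
  have hmem : P.s ∈ ball (0 : ℂ) (rho d h) := by
    rw [mem_ball_zero_iff]; exact hs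
  obtain ⟨hZ1, hZ2, hZ3⟩ := hZ _ hmem
  have hZeq : Z P.s = P.ζ := by
    have h1 := hZ3 P.ζ (P.near' hh).le
    rw [P.ev_zero, norm_zero] at h1
    have h2 : ‖P.ζ - Z P.s‖ ≤ 0 := by
      by_contra hne
      push Not at hne
      have : 0 < bet d h / 4 * ‖P.ζ - Z P.s‖ := by positivity
      linarith
    have h3 := norm_le_zero_iff.mp h2
    exact (sub_eq_zero.mp h3).symm
  refine ⟨Z, hZd, fun t ht => ⟨(hZ t ht).1, (hZ t ht).2.1⟩, hZeq, ?_⟩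
  -- the derivative does not vanish
  rw [← evalEval_cof]
  intro hcof
  have haC : (P.a : ℂ) ≠ 0 := by exact_mod_cast P.a_ne
  let zf : ℂ → ℂ := fun ζ => eval₂ φ P.s P.V + φ P.v * P.s ^ P.k₀ * ζ
  have hzf : ∀ ζ, ev φ P.s ζ (zt P.V P.v P.k₀) = zf ζ := by
    intro ζ
    rw [ev_zt]
  let F : ℂ → ℂ := fun ζ => evC (P.a : ℂ) (P.a * zf ζ) (cof (fP d P.c) P.b)
  have hFcont : Continuous F := by
    have h1 : ∀ p : ℤ[X][X], Continuous (fun y : ℂ => evC (P.a : ℂ) y p) := by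
      intro p
      have : (fun y : ℂ => evC (P.a : ℂ) y p)
          = fun y => (p.map (eval₂RingHom (Int.castRingHom ℂ) (P.a : ℂ))).eval y := by
        funext y
        rw [eval_map]; rfl
      rw [this]
      exact Polynomial.continuous _
    refine (h1 _).comp ?_
    simp only [zf]
    fun_prop
  have hz0 : zf P.ζ = P.z := (hzf P.ζ).symm
  have hdiff : ∀ ζ, P.a * zf ζ - P.b = P.a * (φ P.v * P.s ^ P.k₀) * (ζ - P.ζ) := by
    intro ζ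
    rw [P.b_eq, ← hz0]
    simp only [zf]
    ring
  have hF0 : F P.ζ = 0 := by
    simp only [F]
    rw [hz0, ← P.b_eq, evC_int, hcof, Int.cast_zero]
  have hapos : 0 < ‖(P.a : ℂ)‖ := norm_pos_iff.mpr haC
  have hspos : 0 < ‖P.s‖ := norm_pos_iff.mpr P.s_ne
  have hvpos : 0 < ‖φ P.v‖ := by
    refine norm_pos_iff.mpr (fun h0 => P.v_ne ?_)
    have h1 := one_le_norm_mul ψ P.v P.v_ne
    rw [← hψ, h0, norm_zero, zero_mul] at h1
    linarith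
  set D : ℝ := ‖(P.a : ℂ)‖ * (‖φ P.v‖ * ‖P.s‖ ^ P.k₀) with hD
  have hD0 : 0 < D := by rw [hD]; positivity
  set M : ℝ := ‖(P.a : ℂ)‖ ^ d * (‖P.s‖ ^ P.μ * (bet d h / 4)) / D with hM
  have hM0 : 0 < M := by
    rw [hM]; positivity
  have hlow : ∀ ζ : ℂ, ‖ζ‖ ≤ bet d h / (2 * h) → ζ ≠ P.ζ → M ≤ ‖F ζ‖ := by
    intro ζ hζ hne
    have h1 := hZ3 ζ hζ
    rw [hZeq] at h1
    have h2 := P.ev_eq P.s ζ (P.a : ℂ) (zf ζ) haC P.hs (hzf ζ)
    have h3 : evC (P.a : ℂ) (P.a * zf ζ) (fP d P.c)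
        = F ζ * (P.a * (φ P.v * P.s ^ P.k₀) * (ζ - P.ζ)) := by
      have h4 := congrArg (evC (P.a : ℂ) (P.a * zf ζ)) (cof_mul (fP d P.c) P.b)
      rw [map_mul, map_sub, map_sub, evC_X, evC_C, evC_C, eval₂_C] at h4
      have h5 : eval₂ (Int.castRingHom ℂ) (P.a : ℂ) ((fP d P.c).eval (C P.b)) = 0 := by
        have h6 : ((fP d P.c).eval (C P.b)).eval P.a = 0 := P.zero
        have h7 := eval₂_at_apply (Int.castRingHom ℂ) (p := (fP d P.c).eval (C P.b)) P.a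
        rw [h6] at h7
        simpa using h7
      rw [h5, sub_zero] at h4
      rw [← h4]
      simp only [F, Int.coe_castRingHom]
      congr 1
      exact (hdiff ζ)
    rw [h3] at h2
    have h8 := congrArg norm h2
    rw [norm_mul, norm_mul, norm_mul, norm_mul, norm_mul, norm_mul, norm_pow, norm_pow,
      norm_pow] at h8
    have hpos : 0 < ‖ζ - P.ζ‖ := norm_pos_iff.mpr (sub_ne_zero.mpr hne)
    rw [hM, div_le_iff₀ hD0]
    have h9 : ‖(P.a : ℂ)‖ ^ d * (‖P.s‖ ^ P.μ * (bet d h / 4)) * ‖ζ - P.ζ‖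
        ≤ ‖F ζ‖ * D * ‖ζ - P.ζ‖ := by
      calc ‖(P.a : ℂ)‖ ^ d * (‖P.s‖ ^ P.μ * (bet d h / 4)) * ‖ζ - P.ζ‖
          = ‖(P.a : ℂ)‖ ^ d * (‖P.s‖ ^ P.μ * (bet d h / 4 * ‖ζ - P.ζ‖)) := by ring
        _ ≤ ‖(P.a : ℂ)‖ ^ d * (‖P.s‖ ^ P.μ * ‖ev φ P.s ζ P.Φ‖) := by
            refine mul_le_mul_of_nonneg_left ?_ (by positivity)
            exact mul_le_mul_of_nonneg_left h1 (by positivity)
        _ = _ := h8
        _ = ‖F ζ‖ * D * ‖ζ - P.ζ‖ := by rw [hD]; ring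
    exact le_of_mul_le_mul_right h9 hpos
  have hev : ∀ᶠ ζ in nhdsWithin P.ζ {P.ζ}ᶜ, M ≤ ‖F ζ‖ := by
    have h1 : ∀ᶠ ζ in nhds P.ζ, ‖ζ‖ < bet d h / (2 * h) :=
      (continuous_norm.tendsto P.ζ).eventually (gt_mem_nhds (P.near' hh))
    rw [eventually_nhdsWithin_iff]
    filter_upwards [h1] with ζ hζ hne
    exact hlow ζ hζ.le hne
  have hlim : Filter.Tendsto (fun ζ => ‖F ζ‖) (nhdsWithin P.ζ {P.ζ}ᶜ) (nhds ‖F P.ζ‖) :=
    ((hFcont.norm).tendsto P.ζ).mono_left nhdsWithin_le_nhds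
  have := ge_of_tendsto hlim hev
  rw [hF0, norm_zero] at this
  linarith

lemma CP.tB_bound (φ : 𝓞 L →+* ℂ) (ψ : L →+* ℂ) (hψ : φ = ψ.comp (algebraMap (𝓞 L) L))
    (d m : ℕ) (he : finrank ℚ L ≤ d ^ 2) (h : ℝ) (hh : 2 ≤ h)
    (P : CP L φ d m h) (ζ : ℂ) (hζ : ‖ζ‖ ≤ bet d h / (2 * h)) (t : ℂ) :
    eval₂ φ ζ (tB P.Φ) ≠ 0 ∧
      ‖t / eval₂ φ ζ (tB P.Φ)‖ * (nrmHouse L).poly.l1 P.Φ
        ≤ ‖t‖ * h ^ (d ^ 2 + 2) := by
  have hφn : ∀ a, ‖φ a‖ ≤ (nrmHouse L).v a := by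
    intro a; rw [hψ]; exact norm_phi_le ψ a
  have hh0 : 0 < h := by linarith
  have hβ0 := bet_pos d h hh
  have hβ1 := bet_le_one d h hh
  have hζ1 : ‖ζ‖ ≤ 1 := hζ.trans (sm_le_one d h hh)
  have h1 : bet d h / 2 ≤ ‖eval₂ φ ζ (tB P.Φ)‖ := by
    refine norm_tB_ge (nrmHouse L) φ hφn _ ζ hζ1 _ (bet_le_norm φ ψ hψ d m he h hh P) ?_
    calc ‖ζ‖ * (nrmHouse L).poly.l1 P.Φ
        ≤ (bet d h / (2 * h)) * h := by
          exact mul_le_mul hζ P.Φ_le ((nrmHouse L).poly.l1_nonneg _) (by positivity)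
      _ = bet d h / 2 := by field_simp
  have h2 : 0 < ‖eval₂ φ ζ (tB P.Φ)‖ := lt_of_lt_of_le (by positivity) h1
  refine ⟨norm_pos_iff.mp h2, ?_⟩
  rw [norm_div, div_mul_eq_mul_div, div_le_iff₀ h2]
  have h3 : h ^ (d ^ 2 + 2) * (bet d h / 2) = h * h / 2 := by
    unfold bet
    have : h ^ (d ^ 2 + 2) = h ^ (d ^ 2) * (h * h) := by
      rw [pow_add, pow_two h]
    rw [this]
    have h4 : h ^ (d ^ 2) ≠ 0 := by positivity
    field_simp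
  calc ‖t‖ * (nrmHouse L).poly.l1 P.Φ
      ≤ ‖t‖ * h := mul_le_mul_of_nonneg_left P.Φ_le (norm_nonneg _)
    _ ≤ ‖t‖ * (h * h / 2) := by
        refine mul_le_mul_of_nonneg_left ?_ (norm_nonneg _)
        nlinarith
    _ = ‖t‖ * h ^ (d ^ 2 + 2) * (bet d h / 2) := by rw [mul_assoc, h3]
    _ ≤ ‖t‖ * h ^ (d ^ 2 + 2) * ‖eval₂ φ ζ (tB P.Φ)‖ :=
        mul_le_mul_of_nonneg_left h1 (by positivity)

end Pool.Agent.H20.G
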