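import Pool.Agent.H20.G4

set_option autoImplicit false

namespace Pool.Agent.H20.G

open Polynomial Finset NumberField Module Metric

variable {L : Type*} [Field L] [NumberField L]

lemma s_le (s w x : ℂ) (m : ℕ) (hm : 1 ≤ m) (hxs : x * (w * s ^ m) = 1) (y : ℝ)
    (hy : 1 ≤ y) (A : ℝ) (hA : 1 ≤ A) (κ : ℕ)
    (h : y ^ (m * κ) ≤ A * (‖x‖ * ‖w‖)) : ‖s‖ ≤ A / y ^ κ := by
  have hy0 : 0 < y := by linarith
  rw [le_div_iff₀ (by positivity)]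
  have h1 : (‖s‖ * y ^ κ) ^ m ≤ A ^ m := by
    rw [mul_pow, ← pow_mul, mul_comm κ m]
    have h2 : ‖x‖ * (‖w‖ * ‖s‖ ^ m) = 1 := by
      rw [← norm_pow, ← norm_mul, ← norm_mul, hxs, norm_one]
    calc ‖s‖ ^ m * y ^ (m * κ) ≤ ‖s‖ ^ m * (A * (‖x‖ * ‖w‖)) :=
          mul_le_mul_of_nonneg_left h (by positivity)
      _ = A * (‖x‖ * (‖w‖ * ‖s‖ ^ m)) := by ring
      _ = A := by rw [h2, mul_one]
      _ ≤ A ^ m := le_self_pow₀ hA (by omega)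
  exact le_of_pow_le_pow_left₀ (by omega) (by linarith) h1

lemma one_le_w (φ : 𝓞 L →+* ℂ) (ψ : L →+* ℂ) (hψ : φ = ψ.comp (algebraMap (𝓞 L) L))
    (d : ℕ) (he : finrank ℚ L ≤ d ^ 2) (h : ℝ) (hh : 1 ≤ h) (w : 𝓞 L) (hw : w ≠ 0)
    (hwh : (nrmHouse L).v w ≤ h) : 1 ≤ ‖φ w‖ * h ^ (d ^ 2) := by
  have h1 := one_le_norm_mul ψ w hw
  rw [← hψ] at h1
  refine h1.trans (mul_le_mul_of_nonneg_left ?_ (norm_nonneg _))
  calc ((nrmHouse L).v w) ^ (finrank ℚ L - 1) ≤ h ^ (finrank ℚ L - 1) :=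
        pow_le_pow_left₀ ((nrmHouse L).nonneg _) hwh _
    _ ≤ h ^ (d ^ 2) := pow_le_pow_right₀ hh (by omega)

lemma exp_bound (d m n κ' κ₁ : ℕ) (hd : 3 ≤ d) (hmd : m ≤ d) (hm : 1 ≤ m) (hn : 1 ≤ n)
    (hκ : κ₁ = κ' + 5 * d ^ 2) :
    (m * κ₁ + 1) * (8 * d * m * n + d) + (m * κ₁ * (n + 1)) * (8 * d * m + d) +
        (18 * d * m ^ 2 * n + 1 + 565 * d ^ 6 * n) + m * κ₁ * d * m * n
      ≤ 10 * (m * κ₁) * d * m + 600 * d ^ 6 * n + κ' * (18 * d * m ^ 2 * n) := by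
  have e1 : m * κ₁ * d * (18 * m * n) = κ' * (18 * d * m ^ 2 * n) + 90 * (d ^ 3 * m ^ 2) * n := by
    rw [hκ]; ring
  have e2 : d ^ 3 * m ^ 2 ≤ d ^ 5 := by
    calc d ^ 3 * m ^ 2 ≤ d ^ 3 * d ^ 2 := Nat.mul_le_mul_left _ (Nat.pow_le_pow_left hmd 2)
      _ = d ^ 5 := by ring
  have e3 : 3 * d ^ 5 ≤ d ^ 6 := by
    calc 3 * d ^ 5 ≤ d * d ^ 5 := Nat.mul_le_mul_right _ hd
      _ = d ^ 6 := by ring
  have e4 : 3 * d ^ 4 ≤ d ^ 5 := by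
    calc 3 * d ^ 4 ≤ d * d ^ 4 := Nat.mul_le_mul_right _ hd
      _ = d ^ 5 := by ring
  have e5 : 3 * d ^ 3 ≤ d ^ 4 := by
    calc 3 * d ^ 3 ≤ d * d ^ 3 := Nat.mul_le_mul_right _ hd
      _ = d ^ 4 := by ring
  have e6 : 3 * d ^ 2 ≤ d ^ 3 := by
    calc 3 * d ^ 2 ≤ d * d ^ 2 := Nat.mul_le_mul_right _ hd
      _ = d ^ 3 := by ring
  have e7 : 3 * d ≤ d ^ 2 := by
    calc 3 * d ≤ d * d := Nat.mul_le_mul_right _ hd
      _ = d ^ 2 := by ring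
  have e8 : d * m ≤ d ^ 2 := by
    calc d * m ≤ d * d := Nat.mul_le_mul_left _ hmd
      _ = d ^ 2 := by ring
  have e9 : d * m ^ 2 ≤ d ^ 3 := by
    calc d * m ^ 2 ≤ d * d ^ 2 := Nat.mul_le_mul_left _ (Nat.pow_le_pow_left hmd 2)
      _ = d ^ 3 := by ring
  -- bound of each piece
  have f1 : (m * κ₁ + 1) * (8 * d * m * n + d) + (m * κ₁ * (n + 1)) * (8 * d * m + d)
      + m * κ₁ * d * m * n
      = m * κ₁ * d * (17 * m * n + n + 8 * m + 2) + (8 * (d * m) * n + d) := by ring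
  have f2 : m * κ₁ * d * (17 * m * n + n + 8 * m + 2)
      ≤ m * κ₁ * d * (18 * m * n) + 10 * (m * κ₁) * d * m := by
    calc m * κ₁ * d * (17 * m * n + n + 8 * m + 2)
        ≤ m * κ₁ * d * (18 * m * n + 10 * m) := by
          apply Nat.mul_le_mul_left
          have : n ≤ m * n := Nat.le_mul_of_pos_left _ hm
          have h2 : 17 * m * n = 17 * (m * n) := by ring
          have h3 : 18 * m * n = 18 * (m * n) := by ring
          omega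
      _ = m * κ₁ * d * (18 * m * n) + 10 * (m * κ₁) * d * m := by ring
  have f4 : 8 * (d * m) * n + d + (18 * d * m ^ 2 * n + 1 + 565 * d ^ 6 * n)
      + 90 * (d ^ 3 * m ^ 2) * n ≤ 600 * d ^ 6 * n := by
    have h1 : d ≤ d * n := Nat.le_mul_of_pos_right _ (by omega)
    calc 8 * (d * m) * n + d + (18 * d * m ^ 2 * n + 1 + 565 * d ^ 6 * n)
          + 90 * (d ^ 3 * m ^ 2) * n
        ≤ 8 * (d * m) * n + d * n + (18 * d * m ^ 2 * n + n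
          + 565 * d ^ 6 * n) + 90 * (d ^ 3 * m ^ 2) * n := by omega
      _ = (8 * (d * m) + d + 18 * (d * m ^ 2) + 1 + 565 * d ^ 6
          + 90 * (d ^ 3 * m ^ 2)) * n := by ring
      _ ≤ 600 * d ^ 6 * n := by
          apply Nat.mul_le_mul_right
          omega
  omega

/-- Upper bound for the auxiliary polynomial on the branch. -/
lemma value_bound (φ : 𝓞 L →+* ℂ) (ψ : L →+* ℂ) (hψ : φ = ψ.comp (algebraMap (𝓞 L) L))
    (d m n : ℕ) (hd : 3 ≤ d) (hm : 1 ≤ m) (hn : 1 ≤ n) (he : 3 * (finrank ℚ L * m ^ 2) ≤ d ^ 2)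
    (y : ℝ) (hy : 2 ≤ y)
    (κ₁ : ℕ) (hκ : 5 * d ^ 2 ≤ κ₁) (P₁ : CP L φ d m y) (P₂ : CP L φ d m (y ^ (n + 1)))
    (ha₂ : y ^ (m * κ₁ * n) ≤ |(P₂.a : ℝ)|) (ha₂' : |(P₂.a : ℝ)| ≤ y ^ (m * κ₁ * (n + 1)))
    (g : (Fin (8 * d * m * n) × Fin d) → (Fin (8 * d * m) × Fin d) → ℤ)
    (hg : ∀ a b : ℕ, a + n * b < 18 * d * m ^ 2 * n →
        ∑ i, ∑ j, (g i j : 𝓞 L) * (c0 ((tau P₁.Φ ^ a) (P₁.mn i.1 i.2)) *
          c0 ((tau P₂.Φ ^ b) (P₂.mn j.1 j.2))) = 0)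
    (hgb : ∀ i j, |(g i j : ℝ)| ≤ y ^ (500 * d ^ 6 * n))
    (x s ζ₁ z₁ : ℂ) (hx1 : y ^ (m * κ₁) / 2 ≤ ‖x‖) (hx2 : ‖x‖ ≤ y ^ (m * κ₁ + 1))
    (hxs : x * (φ P₁.w * s ^ m) = 1)
    (hζ₁ : ‖ζ₁‖ ≤ bet d y / (2 * y))
    (hz₁ : ev φ s ζ₁ P₁.Φ = 0) (hzz : ev φ s ζ₁ (zt P₁.V P₁.v P₁.k₀) = z₁) :
    ‖evC x (x * z₁) (Upoly g P₂.a P₂.b)‖ * y ^ (m * κ₁ * d * m * n)
      ≤ y ^ (10 * (m * κ₁) * d * m + 600 * d ^ 6 * n) := by
  have hφn : ∀ a, ‖φ a‖ ≤ (nrmHouse L).v a := by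
    intro a; rw [hψ]; exact norm_phi_le ψ a
  have he' : finrank ℚ L ≤ d ^ 2 := by
    have : finrank ℚ L ≤ finrank ℚ L * m ^ 2 := Nat.le_mul_of_pos_right _ (by positivity)
    omega
  have hmd : m ≤ d := by
    have h1 : 0 < finrank ℚ L := finrank_pos
    have h2 : m ^ 2 ≤ finrank ℚ L * m ^ 2 := Nat.le_mul_of_pos_left _ h1
    have h3 : m ^ 2 ≤ d ^ 2 := by omega
    exact (Nat.pow_le_pow_iff_left (by norm_num)).mp h3
  have hy0 : 0 < y := by linarith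
  have hy1 : 1 ≤ y := by linarith
  have hyn : 2 ≤ y ^ (n + 1) := by
    calc (2 : ℝ) ≤ y := hy
      _ = y ^ 1 := (pow_one y).symm
      _ ≤ y ^ (n + 1) := pow_le_pow_right₀ hy1 (by omega)
  have hyn0 : 0 < y ^ (n + 1) := by positivity
  have hyn1 : 1 ≤ y ^ (n + 1) := by linarith
  have hx0 : x ≠ 0 := by
    intro h
    rw [h, norm_zero] at hx1
    have : 0 < y ^ (m * κ₁) / 2 := by positivity
    linarith
  have hxpos : 0 < ‖x‖ := norm_pos_iff.mpr hx0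
  obtain ⟨κ', hκ'⟩ : ∃ κ', κ₁ = κ' + 5 * d ^ 2 := ⟨κ₁ - 5 * d ^ 2, by omega⟩
  have ha₂C : (P₂.a : ℂ) ≠ 0 := by exact_mod_cast P₂.a_ne
  have hna₂ : ‖(P₂.a : ℂ)‖ = |(P₂.a : ℝ)| := Complex.norm_intCast _
  have hd7 : 6 ≤ d ^ 2 := by
    calc 6 ≤ 3 * 3 := by norm_num
      _ ≤ d * d := Nat.mul_le_mul hd hd
      _ = d ^ 2 := by ring
  -- size of the local parameters
  have hw₁ := one_le_w φ ψ hψ d he' y hy1 P₁.w P₁.w_ne P₁.w_le
  have hw₂ := one_le_w φ ψ hψ d he' _ hyn1 P₂.w P₂.w_ne P₂.w_le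
  have hs₁ : ‖s‖ ≤ y ^ (d ^ 2 + 1) / y ^ κ₁ := by
    refine s_le s (φ P₁.w) x m hm hxs y hy1 (y ^ (d ^ 2 + 1)) (one_le_pow₀ hy1) κ₁ ?_
    calc y ^ (m * κ₁) ≤ 2 * ‖x‖ := by linarith
      _ ≤ y * ‖x‖ := mul_le_mul_of_nonneg_right hy hxpos.le
      _ = y * ‖x‖ * 1 := (mul_one _).symm
      _ ≤ y * ‖x‖ * (‖φ P₁.w‖ * y ^ (d ^ 2)) :=
          mul_le_mul_of_nonneg_left hw₁ (by positivity)
      _ = y ^ (d ^ 2 + 1) * (‖x‖ * ‖φ P₁.w‖) := by rw [pow_succ]; ring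
  have hs₂ : ‖P₂.s‖ ≤ (y ^ (n + 1)) ^ (d ^ 2) / y ^ (κ₁ * n) := by
    refine s_le P₂.s (φ P₂.w) P₂.a m hm P₂.hs y hy1 ((y ^ (n + 1)) ^ (d ^ 2))
      (one_le_pow₀ hyn1) (κ₁ * n) ?_
    rw [hna₂]
    calc y ^ (m * (κ₁ * n)) ≤ |(P₂.a : ℝ)| := by rw [← mul_assoc]; exact ha₂
      _ = |(P₂.a : ℝ)| * 1 := (mul_one _).symm
      _ ≤ |(P₂.a : ℝ)| * (‖φ P₂.w‖ * (y ^ (n + 1)) ^ (d ^ 2)) :=
          mul_le_mul_of_nonneg_left hw₂ (abs_nonneg _)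
      _ = (y ^ (n + 1)) ^ (d ^ 2) * (|(P₂.a : ℝ)| * ‖φ P₂.w‖) := by ring
  -- second point
  have hζ₂ : ‖P₂.ζ‖ ≤ bet d (y ^ (n + 1)) / (2 * (y ^ (n + 1))) := (P₂.near' hyn).le
  obtain ⟨hB₁, hδ₁⟩ := CP.tB_bound φ ψ hψ d m he' y hy P₁ ζ₁ hζ₁ s
  obtain ⟨hB₂, hδ₂⟩ := CP.tB_bound φ ψ hψ d m he' _ hyn P₂ P₂.ζ hζ₂ P₂.s
  set δ : ℝ := (y ^ κ')⁻¹ with hδ
  have hδ0 : 0 ≤ δ := by positivity
  have hδ1 : δ ≤ 1 := inv_le_one_of_one_le₀ (one_le_pow₀ hy1)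
  have hd₁ : ‖s‖ * y ^ (d ^ 2 + 2) ≤ δ := by
    calc ‖s‖ * y ^ (d ^ 2 + 2) ≤ (y ^ (d ^ 2 + 1) / y ^ κ₁) * y ^ (d ^ 2 + 2) :=
          mul_le_mul_of_nonneg_right hs₁ (by positivity)
      _ = y ^ (d ^ 2 + 1 + (d ^ 2 + 2)) / y ^ κ₁ := by rw [div_mul_eq_mul_div, ← pow_add]
      _ ≤ y ^ (5 * d ^ 2) / y ^ κ₁ := by
          refine div_le_div_of_nonneg_right ?_ (by positivity)
          exact pow_le_pow_right₀ hy1 (by omega)
      _ = δ := by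
          rw [hδ, hκ', pow_add]
          have : y ^ (5 * d ^ 2) ≠ 0 := by positivity
          field_simp
  have hd₂ : ‖P₂.s‖ * (y ^ (n + 1)) ^ (d ^ 2 + 2) ≤ δ ^ n := by
    calc ‖P₂.s‖ * (y ^ (n + 1)) ^ (d ^ 2 + 2)
        ≤ ((y ^ (n + 1)) ^ (d ^ 2) / y ^ (κ₁ * n)) * (y ^ (n + 1)) ^ (d ^ 2 + 2) :=
          mul_le_mul_of_nonneg_right hs₂ (by positivity)
      _ = (y ^ (n + 1)) ^ (d ^ 2 + (d ^ 2 + 2)) / y ^ (κ₁ * n) := by
          rw [div_mul_eq_mul_div, ← pow_add (y ^ (n + 1))]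
      _ ≤ y ^ (5 * d ^ 2 * n) / y ^ (κ₁ * n) := by
          rw [← pow_mul]
          refine div_le_div_of_nonneg_right ?_ (by positivity)
          apply pow_le_pow_right₀ hy1
          calc (n + 1) * (d ^ 2 + (d ^ 2 + 2)) ≤ (2 * n) * (d ^ 2 + (d ^ 2 + 2)) :=
                Nat.mul_le_mul_right _ (by omega)
            _ = (4 * d ^ 2 + 4) * n := by ring
            _ ≤ 5 * d ^ 2 * n := by
                apply Nat.mul_le_mul_right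
                omega
      _ = δ ^ n := by
          rw [hδ, hκ', inv_pow, ← pow_mul, add_mul, pow_add]
          have : y ^ (5 * d ^ 2 * n) ≠ 0 := by positivity
          field_simp
  have hbig : ∀ h : ℝ, 2 ≤ h → (1 : ℝ) ≤ h ^ (d ^ 2 + 2) := fun h hh => one_le_pow₀ (by linarith)
  have h1s : ‖s‖ ≤ 1 := by
    calc ‖s‖ = ‖s‖ * 1 := (mul_one _).symm
      _ ≤ ‖s‖ * y ^ (d ^ 2 + 2) := mul_le_mul_of_nonneg_left (hbig y hy) (norm_nonneg _)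
      _ ≤ 1 := hd₁.trans hδ1
  have h1s₂ : ‖P₂.s‖ ≤ 1 := by
    calc ‖P₂.s‖ = ‖P₂.s‖ * 1 := (mul_one _).symm
      _ ≤ ‖P₂.s‖ * (y ^ (n + 1)) ^ (d ^ 2 + 2) :=
          mul_le_mul_of_nonneg_left (hbig _ hyn) (norm_nonneg _)
      _ ≤ 1 := hd₂.trans (pow_le_one₀ hδ0 hδ1)
  -- the sum of the coefficients
  have hQ : ∑ i, ∑ j, |(g i j : ℝ)| * ((nrmHouse L).poly.l1 (P₁.mn i.1 i.2) *
      (nrmHouse L).poly.l1 (P₂.mn j.1 j.2)) ≤ y ^ (565 * d ^ 6 * n) := by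
    have hterm : ∀ (i : Fin (8 * d * m * n) × Fin d) (j : Fin (8 * d * m) × Fin d),
        |(g i j : ℝ)| * ((nrmHouse L).poly.l1 (P₁.mn i.1 i.2) *
          (nrmHouse L).poly.l1 (P₂.mn j.1 j.2)) ≤ y ^ (501 * d ^ 6 * n) := by
      intro i j
      have e1 := mn_l1 (nrmHouse L) P₁.w m d (8 * d * m * n) (zt P₁.V P₁.v P₁.k₀) i.1 i.2 y
        hy1 P₁.w_le P₁.z_le i.1.isLt.le i.2.isLt.le
      have e2 := mn_l1 (nrmHouse L) P₂.w m d (8 * d * m) (zt P₂.V P₂.v P₂.k₀) j.1 j.2 _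
        hyn1 P₂.w_le P₂.z_le j.1.isLt.le j.2.isLt.le
      calc |(g i j : ℝ)| * ((nrmHouse L).poly.l1 (P₁.mn i.1 i.2) *
          (nrmHouse L).poly.l1 (P₂.mn j.1 j.2))
          ≤ y ^ (500 * d ^ 6 * n) * (y ^ (8 * d * m * n + d) * (y ^ (n + 1)) ^ (8 * d * m + d)) := by
            refine mul_le_mul (hgb i j) ?_ ?_ (by positivity)
            · exact mul_le_mul e1 e2 ((nrmHouse L).poly.l1_nonneg _) (by positivity)
            · exact mul_nonneg ((nrmHouse L).poly.l1_nonneg _) ((nrmHouse L).poly.l1_nonneg _)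
        _ = y ^ (500 * d ^ 6 * n + (8 * d * m * n + d + (n + 1) * (8 * d * m + d))) := by
            rw [← pow_mul, ← pow_add, ← pow_add]
        _ ≤ y ^ (501 * d ^ 6 * n) := by
            apply pow_le_pow_right₀ hy1
            have e3 : 81 * d ^ 2 ≤ d ^ 6 := by
              calc 81 * d ^ 2 = 3 ^ 4 * d ^ 2 := by norm_num
                _ ≤ d ^ 4 * d ^ 2 := Nat.mul_le_mul_right _ (Nat.pow_le_pow_left hd 4)
                _ = d ^ 6 := by ring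
            have e8 : d * m ≤ d ^ 2 := by
              calc d * m ≤ d * d := Nat.mul_le_mul_left _ hmd
                _ = d ^ 2 := by ring
            have e9 : d ≤ d ^ 2 := Nat.le_self_pow (by norm_num) d
            have e10 : (n + 1) * (8 * d * m + d) ≤ (2 * n) * (8 * d * m + d) :=
              Nat.mul_le_mul_right _ (by omega)
            have e11 : d ≤ d * n := Nat.le_mul_of_pos_right _ (by omega)
            calc 500 * d ^ 6 * n + (8 * d * m * n + d + (n + 1) * (8 * d * m + d))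
                ≤ 500 * d ^ 6 * n + (8 * d * m * n + d * n + (2 * n) * (8 * d * m + d)) := by
                  omega
              _ = (500 * d ^ 6 + 24 * (d * m) + 3 * d) * n := by ring
              _ ≤ 501 * d ^ 6 * n := by
                  apply Nat.mul_le_mul_right
                  omega
    calc ∑ i, ∑ j, |(g i j : ℝ)| * ((nrmHouse L).poly.l1 (P₁.mn i.1 i.2) *
          (nrmHouse L).poly.l1 (P₂.mn j.1 j.2))
        ≤ ∑ _i : Fin (8 * d * m * n) × Fin d, ∑ _j : Fin (8 * d * m) × Fin d,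
            y ^ (501 * d ^ 6 * n) :=
          Finset.sum_le_sum (fun i _ => Finset.sum_le_sum (fun j _ => hterm i j))
      _ = ((64 * (d ^ 4 * m ^ 2) * n : ℕ) : ℝ) * y ^ (501 * d ^ 6 * n) := by
          simp only [Finset.sum_const, Finset.card_univ, Fintype.card_prod, Fintype.card_fin,
            nsmul_eq_mul]
          push_cast
          ring
      _ ≤ y ^ (64 * d ^ 6 * n) * y ^ (501 * d ^ 6 * n) := by
          refine mul_le_mul_of_nonneg_right (natCast_le_pow' _ _ y hy ?_) (by positivity)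
          apply Nat.mul_le_mul_right
          have : d ^ 4 * m ^ 2 ≤ d ^ 4 * d ^ 2 := Nat.mul_le_mul_left _ (Nat.pow_le_pow_left hmd 2)
          have h2 : d ^ 4 * d ^ 2 = d ^ 6 := by ring
          omega
      _ = y ^ (565 * d ^ 6 * n) := by rw [← pow_add]; congr 1; ring
  have hmain := two_curve_bound (nrmHouse L) φ hφn P₁.Φ P₂.Φ
    P₁.root P₂.root (fun i : Fin (8 * d * m * n) × Fin d => P₁.mn i.1 i.2)
    (fun j : Fin (8 * d * m) × Fin d => P₂.mn j.1 j.2) g n (18 * d * m ^ 2 * n) hn hg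
    s ζ₁ P₂.s P₂.ζ h1s (hζ₁.trans (sm_le_one d y hy)) h1s₂
    (hζ₂.trans (sm_le_one d _ hyn)) hz₁ P₂.ev_zero hB₁ hB₂ δ hδ0 hδ1 (hδ₁.trans hd₁)
    (hδ₂.trans hd₂) (y ^ (565 * d ^ 6 * n)) hQ
  -- rewrite in terms of the values
  set W : ℂ := ∑ i : Fin (8 * d * m * n) × Fin d, ∑ j : Fin (8 * d * m) × Fin d,
          (g i j : ℂ) * (((x ^ (i.1 : ℕ))⁻¹ * z₁ ^ (i.2 : ℕ))
            * (((P₂.a : ℂ) ^ (j.1 : ℕ))⁻¹ * P₂.z ^ (j.2 : ℕ))) with hW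
  have hWeq : ∑ i : Fin (8 * d * m * n) × Fin d, ∑ j : Fin (8 * d * m) × Fin d,
        (g i j : ℂ) * (ev φ s ζ₁ (P₁.mn i.1 i.2) *
          ev φ P₂.s P₂.ζ (P₂.mn j.1 j.2)) = W := by
    rw [hW]
    refine Finset.sum_congr rfl (fun i _ => ?_)
    refine Finset.sum_congr rfl (fun j _ => ?_)
    unfold CP.mn
    rw [ev_mn φ s ζ₁ x z₁ P₁.w m _ i.1 i.2 hx0 hxs hzz,
      ev_mn φ P₂.s P₂.ζ P₂.a P₂.z P₂.w m _ j.1 j.2 ha₂C P₂.hs rfl]
  rw [hWeq] at hmain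
  rw [evC_Upoly g x z₁ P₂.z hx0 P₂.a P₂.b P₂.a_ne P₂.b_eq, ← hW]
  rw [norm_mul, norm_mul, norm_pow, norm_pow, hna₂]
  have hT : ((18 * d * m ^ 2 * n : ℕ) : ℝ) + 1 ≤ y ^ (18 * d * m ^ 2 * n + 1) := by
    have := natCast_le_pow (18 * d * m ^ 2 * n + 1) y hy
    push_cast at this ⊢
    exact this
  have hδT : δ ^ (18 * d * m ^ 2 * n) * y ^ (κ' * (18 * d * m ^ 2 * n)) = 1 := by
    rw [hδ, inv_pow, ← pow_mul]
    exact inv_mul_cancel₀ (by positivity)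
  have hP : 0 < y ^ (κ' * (18 * d * m ^ 2 * n)) := by positivity
  refine le_of_mul_le_mul_right ?_ hP
  calc ‖x‖ ^ (8 * d * m * n + d) * |(P₂.a : ℝ)| ^ (8 * d * m + d) * ‖W‖ * y ^ (m * κ₁ * d * m * n)
            * y ^ (κ' * (18 * d * m ^ 2 * n))
      ≤ (y ^ (m * κ₁ + 1)) ^ (8 * d * m * n + d) * (y ^ (m * κ₁ * (n + 1))) ^ (8 * d * m + d) *
        (y ^ (18 * d * m ^ 2 * n + 1) * y ^ (565 * d ^ 6 * n) * δ ^ (18 * d * m ^ 2 * n))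
          * y ^ (m * κ₁ * d * m * n) * y ^ (κ' * (18 * d * m ^ 2 * n)) := by
        refine mul_le_mul_of_nonneg_right (mul_le_mul_of_nonneg_right ?_ (by positivity))
          (by positivity)
        refine mul_le_mul ?_ ?_ (norm_nonneg _) (by positivity)
        · exact mul_le_mul (pow_le_pow_left₀ (norm_nonneg _) hx2 _)
            (pow_le_pow_left₀ (abs_nonneg _) ha₂' _) (by positivity) (by positivity)
        · refine hmain.trans ?_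
          refine mul_le_mul_of_nonneg_right ?_ (by positivity)
          exact mul_le_mul_of_nonneg_right hT (by positivity)
    _ = (y ^ (m * κ₁ + 1)) ^ (8 * d * m * n + d) * (y ^ (m * κ₁ * (n + 1))) ^ (8 * d * m + d) *
        (y ^ (18 * d * m ^ 2 * n + 1) * y ^ (565 * d ^ 6 * n)) * y ^ (m * κ₁ * d * m * n)
          * (δ ^ (18 * d * m ^ 2 * n) * y ^ (κ' * (18 * d * m ^ 2 * n))) := by ring
    _ = y ^ ((m * κ₁ + 1) * (8 * d * m * n + d) + (m * κ₁ * (n + 1)) * (8 * d * m + d) +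
        (18 * d * m ^ 2 * n + 1 + 565 * d ^ 6 * n) + m * κ₁ * d * m * n) := by
        rw [hδT, mul_one, ← pow_mul, ← pow_mul, ← pow_add, ← pow_add, ← pow_add, ← pow_add]
    _ ≤ y ^ (10 * (m * κ₁) * d * m + 600 * d ^ 6 * n + κ' * (18 * d * m ^ 2 * n)) :=
        pow_le_pow_right₀ hy1 (exp_bound d m n κ' κ₁ hd hmd hm hn hκ')
    _ = y ^ (10 * (m * κ₁) * d * m + 600 * d ^ 6 * n) * y ^ (κ' * (18 * d * m ^ 2 * n)) := by
        rw [pow_add]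

end Pool.Agent.H20.G
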