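import Pool.Agent.H20.G5

set_option autoImplicit false

namespace Pool.Agent.H20.G

open Polynomial Finset NumberField Module Metric

/-- size of the Wronskian matrix -/
def m0 (d m : ℕ) : ℕ := d + 8 * d * m * d * (d + 8 * d * m * d * d)

/-- exponent in the zero estimate -/
def cZ (d m : ℕ) : ℕ := (m0 d m).factorial + ((8 * d * m * d).factorial +
  (27 * d ^ 4 * (8 * d * m * d) + 510 * d ^ 6) * (8 * d * m * d)) * m0 d m

/-- the exponent of the theorem -/
def kap (d m : ℕ) : ℕ := 6 * cZ d m + 1200 * d ^ 6 + (2 * d).factorial + 1020 * d ^ 7 + 1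

lemma zeBound_le (d m n : ℕ) (hd : 3 ≤ d) (hmd : m ≤ d) (hn : 1 ≤ n) (y : ℝ)
    (hy : 2 ≤ y) (F A : ℝ)
    (hF0 : 0 ≤ F) (hF : F ≤ y) (hA0 : 0 ≤ A) (hA : A ≤ y ^ (510 * d ^ 6 * n)) :
    zeBound d (8 * d * m * d) (8 * d * m * n + d) F A ≤ y ^ (cZ d m * n) := by
  have hy0 : 0 < y := by linarith
  have hy1 : 1 ≤ y := by linarith
  unfold zeBound
  change ((m0 d m).factorial : ℝ) * ((((8 * d * m * d).factorial : ℕ) : ℝ) *
    ((d * F * (((8 * d * m * n + d : ℕ) : ℝ) + d + 2 * (((8 * d * m * d : ℕ) : ℝ) * d)))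
      ^ (8 * d * m * d) * A) ^ (8 * d * m * d)) ^ (m0 d m) ≤ _
  have h1 : d * F * (((8 * d * m * n + d : ℕ) : ℝ) + d + 2 * (((8 * d * m * d : ℕ) : ℝ) * d))
      ≤ y ^ (27 * d ^ 4 * n) := by
    have e1 : (((8 * d * m * n + d : ℕ) : ℝ) + d + 2 * (((8 * d * m * d : ℕ) : ℝ) * d))
        = ((8 * d * m * n + d + d + 2 * (8 * d * m * d * d) : ℕ) : ℝ) := by push_cast; ring
    rw [e1]
    calc (d : ℝ) * F * ((8 * d * m * n + d + d + 2 * (8 * d * m * d * d) : ℕ) : ℝ)
        ≤ y ^ d * y * y ^ (8 * d * m * n + d + d + 2 * (8 * d * m * d * d)) := by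
          refine mul_le_mul ?_ (natCast_le_pow _ y hy) (by positivity) (by positivity)
          exact mul_le_mul (natCast_le_pow _ y hy) hF hF0 (by positivity)
      _ = y ^ (d + 1 + (8 * d * m * n + d + d + 2 * (8 * d * m * d * d))) := by
          rw [← pow_succ, ← pow_add]
      _ ≤ y ^ (27 * d ^ 4 * n) := by
          apply pow_le_pow_right₀ hy1
          have e5 : 3 * d ^ 3 ≤ d ^ 4 := by
            calc 3 * d ^ 3 ≤ d * d ^ 3 := Nat.mul_le_mul_right _ hd
              _ = d ^ 4 := by ring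
          have e6 : 3 * d ^ 2 ≤ d ^ 3 := by
            calc 3 * d ^ 2 ≤ d * d ^ 2 := Nat.mul_le_mul_right _ hd
              _ = d ^ 3 := by ring
          have e7 : 3 * d ≤ d ^ 2 := by
            calc 3 * d ≤ d * d := Nat.mul_le_mul_right _ hd
              _ = d ^ 2 := by ring
          have e8 : d * m ≤ d ^ 2 := by
            calc d * m ≤ d * d := Nat.mul_le_mul_left _ hmd
              _ = d ^ 2 := by ring
          have e9 : d ^ 3 * m ≤ d ^ 4 := by
            calc d ^ 3 * m ≤ d ^ 3 * d := Nat.mul_le_mul_left _ hmd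
              _ = d ^ 4 := by ring
          have e10 : (3 * d + 1 + 16 * (d ^ 3 * m)) ≤ (3 * d + 1 + 16 * (d ^ 3 * m)) * n :=
            Nat.le_mul_of_pos_right _ (by omega)
          calc d + 1 + (8 * d * m * n + d + d + 2 * (8 * d * m * d * d))
              = 8 * (d * m) * n + (3 * d + 1 + 16 * (d ^ 3 * m)) := by ring
            _ ≤ 8 * (d * m) * n + (3 * d + 1 + 16 * (d ^ 3 * m)) * n := by omega
            _ = (8 * (d * m) + 3 * d + 1 + 16 * (d ^ 3 * m)) * n := by ring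
            _ ≤ 27 * d ^ 4 * n := by
                apply Nat.mul_le_mul_right
                omega
  have h1' : 0 ≤ d * F * (((8 * d * m * n + d : ℕ) : ℝ) + d
      + 2 * (((8 * d * m * d : ℕ) : ℝ) * d)) := by
    positivity
  have h2 : ((d * F * (((8 * d * m * n + d : ℕ) : ℝ) + d + 2 * (((8 * d * m * d : ℕ) : ℝ) * d)))
      ^ (8 * d * m * d) * A) ^ (8 * d * m * d)
        ≤ y ^ ((27 * d ^ 4 * (8 * d * m * d) + 510 * d ^ 6) * (8 * d * m * d) * n) := by
    calc ((d * F * (((8 * d * m * n + d : ℕ) : ℝ) + d + 2 * (((8 * d * m * d : ℕ) : ℝ) * d)))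
          ^ (8 * d * m * d) * A) ^ (8 * d * m * d)
        ≤ ((y ^ (27 * d ^ 4 * n)) ^ (8 * d * m * d) * y ^ (510 * d ^ 6 * n)) ^ (8 * d * m * d) := by
          refine pow_le_pow_left₀ (by positivity) ?_ _
          exact mul_le_mul (pow_le_pow_left₀ h1' h1 _) hA hA0 (by positivity)
      _ = y ^ ((27 * d ^ 4 * n * (8 * d * m * d) + 510 * d ^ 6 * n) * (8 * d * m * d)) := by
          rw [← pow_mul, ← pow_add, ← pow_mul]
      _ = y ^ ((27 * d ^ 4 * (8 * d * m * d) + 510 * d ^ 6) * (8 * d * m * d) * n) := by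
          congr 1; ring
  calc ((m0 d m).factorial : ℝ) * ((((8 * d * m * d).factorial : ℕ) : ℝ) *
        ((d * F * (((8 * d * m * n + d : ℕ) : ℝ) + d + 2 * (((8 * d * m * d : ℕ) : ℝ) * d)))
          ^ (8 * d * m * d) * A) ^ (8 * d * m * d)) ^ (m0 d m)
      ≤ y ^ ((m0 d m).factorial) * (y ^ ((8 * d * m * d).factorial) *
        y ^ ((27 * d ^ 4 * (8 * d * m * d) + 510 * d ^ 6) * (8 * d * m * d) * n)) ^ (m0 d m) := by
        refine mul_le_mul (natCast_le_pow _ y hy) ?_ (by positivity) (by positivity)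
        refine pow_le_pow_left₀ (by positivity) ?_ _
        exact mul_le_mul (natCast_le_pow _ y hy) h2 (by positivity) (by positivity)
    _ = y ^ ((m0 d m).factorial + ((8 * d * m * d).factorial +
        (27 * d ^ 4 * (8 * d * m * d) + 510 * d ^ 6) * (8 * d * m * d) * n) * m0 d m) := by
        rw [← pow_add, ← pow_mul, ← pow_add]
    _ ≤ y ^ (cZ d m * n) := by
        apply pow_le_pow_right₀ hy1
        unfold cZ
        have e1 : (m0 d m).factorial ≤ (m0 d m).factorial * n :=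
          Nat.le_mul_of_pos_right _ (by omega)
        have e2 : (8 * d * m * d).factorial ≤ (8 * d * m * d).factorial * n :=
          Nat.le_mul_of_pos_right _ (by omega)
        calc (m0 d m).factorial + ((8 * d * m * d).factorial +
              (27 * d ^ 4 * (8 * d * m * d) + 510 * d ^ 6) * (8 * d * m * d) * n) * m0 d m
            ≤ (m0 d m).factorial * n + ((8 * d * m * d).factorial * n +
              (27 * d ^ 4 * (8 * d * m * d) + 510 * d ^ 6) * (8 * d * m * d) * n) * m0 d m := by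
              gcongr
          _ = ((m0 d m).factorial + ((8 * d * m * d).factorial +
              (27 * d ^ 4 * (8 * d * m * d) + 510 * d ^ 6) * (8 * d * m * d)) * m0 d m) * n := by
              ring

variable {L : Type*} [Field L] [NumberField L]

/-- the degenerate case cannot occur -/
lemma Upoly_ne_zero (φ : 𝓞 L →+* ℂ) (d m n : ℕ) (hd : 3 ≤ d) (hm : 1 ≤ m) (hmd : m ≤ d)
    (hn : 1 ≤ n) (y : ℝ) (hy : 2 ≤ y) (κ₁ : ℕ) (hκ₁ : kap d m ≤ κ₁)
    (P₂ : CP L φ d m (y ^ (n + 1)))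
    (ha₂ : y ^ (m * κ₁ * n) ≤ |(P₂.a : ℝ)|)
    (g : (Fin (8 * d * m * n) × Fin d) → (Fin (8 * d * m) × Fin d) → ℤ)
    (hg0 : ∃ i j, g i j ≠ 0)
    (hgb : ∀ i j, |(g i j : ℝ)| ≤ y ^ (500 * d ^ 6 * n)) :
    Upoly g P₂.a P₂.b ≠ 0 := by
  intro hU
  have hy0 : 0 < y := by linarith
  have hy1 : 1 ≤ y := by linarith
  obtain ⟨i, j, hij⟩ := hg0
  have h1 := Upoly_eq_zero g P₂.a P₂.b hU i
  have h2 := Cpoly_ne_zero g i j hij
  have hmon := fP_monic d P₂.c P₂.top
  have hdeg := fP_natDegree d P₂.c P₂.top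
  have hdeg0 : (fP d P₂.c).natDegree ≠ 0 := by omega
  have hlt := Cpoly_natDegree_lt g (by omega : 1 ≤ d) i
  have h3 := not_dvd_of_natDegree_lt (fP d P₂.c) (Cpoly g i) hmon h2 (by rw [hdeg]; exact hlt)
  have h4 := root_bound (fP d P₂.c) (Cpoly g i) hmon P₂.irr P₂.a P₂.b P₂.a_ne hdeg0 P₂.zero h3 h1
  have e2 : 1 ≤ d ^ 6 * n := Nat.one_le_iff_ne_zero.mpr (by positivity)
  have hB1 : nrm2.v (fP d P₂.c) ≤ y ^ (510 * d ^ 6 * n) := by
    refine (fP_nrm d P₂.c).trans (P₂.hS_le.trans ?_)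
    apply pow_le_pow_right₀ hy1
    have : n ≤ d ^ 6 * n := Nat.le_mul_of_pos_left _ (by positivity)
    have e3 : 510 * d ^ 6 * n = 510 * (d ^ 6 * n) := by ring
    rw [e3]
    omega
  have hB2 : nrm2.v (Cpoly g i) ≤ y ^ (510 * d ^ 6 * n) := by
    refine (Cpoly_nrm g _ hgb i).trans ?_
    calc ((8 * d * m * d : ℕ) : ℝ) * y ^ (500 * d ^ 6 * n)
        ≤ y ^ (8 * d * m * d) * y ^ (500 * d ^ 6 * n) :=
          mul_le_mul_of_nonneg_right (natCast_le_pow _ y hy) (by positivity)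
      _ = y ^ (8 * d * m * d + 500 * d ^ 6 * n) := by rw [← pow_add]
      _ ≤ y ^ (510 * d ^ 6 * n) := by
          apply pow_le_pow_right₀ hy1
          have e4 : d * m * d ≤ d ^ 6 * n := by
            calc d * m * d ≤ d * d * d := by
                  apply Nat.mul_le_mul_right
                  exact Nat.mul_le_mul_left _ hmd
              _ = d ^ 3 := by ring
              _ ≤ d ^ 6 := Nat.pow_le_pow_right (by omega) (by norm_num)
              _ ≤ d ^ 6 * n := Nat.le_mul_of_pos_right _ (by omega)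
          calc 8 * d * m * d + 500 * d ^ 6 * n = 8 * (d * m * d) + 500 * (d ^ 6 * n) := by ring
            _ ≤ 8 * (d ^ 6 * n) + 500 * (d ^ 6 * n) :=
                Nat.add_le_add_right (Nat.mul_le_mul_left _ e4) _
            _ = 508 * (d ^ 6 * n) := by ring
            _ ≤ 510 * (d ^ 6 * n) := Nat.mul_le_mul_right _ (by norm_num)
            _ = 510 * d ^ 6 * n := by ring
  have h5 := res_l1_le (fP d P₂.c) (Cpoly g i) (fP d P₂.c).natDegree (Cpoly g i).natDegree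
    _ hB1 hB2
  have h6 : |(P₂.a : ℝ)| ≤ y ^ ((2 * d).factorial + 1020 * d ^ 7 * n) := by
    refine h4.trans ?_
    change nrm1.v _ ≤ _
    refine h5.trans ?_
    rw [hdeg]
    have e5 : d + (Cpoly g i).natDegree ≤ 2 * d := by omega
    calc ((d + (Cpoly g i).natDegree).factorial : ℝ) *
          (y ^ (510 * d ^ 6 * n)) ^ (d + (Cpoly g i).natDegree)
        ≤ ((2 * d).factorial : ℝ) * (y ^ (510 * d ^ 6 * n)) ^ (2 * d) := by
          refine mul_le_mul ?_ ?_ (by positivity) (by positivity)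
          · exact_mod_cast Nat.factorial_le e5
          · exact pow_le_pow_right₀ (one_le_pow₀ hy1) e5
      _ ≤ y ^ ((2 * d).factorial) * (y ^ (510 * d ^ 6 * n)) ^ (2 * d) :=
          mul_le_mul_of_nonneg_right (natCast_le_pow _ y hy) (by positivity)
      _ = y ^ ((2 * d).factorial + 1020 * d ^ 7 * n) := by
          rw [← pow_mul, ← pow_add]; congr 1; ring
  have h7 : y ^ (m * κ₁ * n) ≤ y ^ ((2 * d).factorial + 1020 * d ^ 7 * n) := ha₂.trans h6
  have h8 : m * κ₁ * n ≤ (2 * d).factorial + 1020 * d ^ 7 * n :=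
    (pow_le_pow_iff_right₀ (by linarith : (1 : ℝ) < y)).mp h7
  have h9 : (2 * d).factorial + 1020 * d ^ 7 * n < kap d m * n := by
    unfold kap
    have e6 : (2 * d).factorial ≤ (2 * d).factorial * n := Nat.le_mul_of_pos_right _ (by omega)
    have e7 : (6 * cZ d m + 1200 * d ^ 6 + (2 * d).factorial + 1020 * d ^ 7 + 1) * n
        = (6 * cZ d m + 1200 * d ^ 6) * n + (2 * d).factorial * n + 1020 * d ^ 7 * n + n := by ring
    rw [e7]
    omega
  have h10 : kap d m * n ≤ m * κ₁ * n := by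
    apply Nat.mul_le_mul_right
    exact hκ₁.trans (Nat.le_mul_of_pos_left _ hm)
  omega

lemma CP.norm_z_le (φ : 𝓞 L →+* ℂ) (hφn : ∀ a, ‖φ a‖ ≤ (nrmHouse L).v a) (d m : ℕ) (h : ℝ)
    (P : CP L φ d m h) (s ζ z : ℂ) (hs : ‖s‖ ≤ 1) (hζ : ‖ζ‖ ≤ 1)
    (hz : ev φ s ζ (zt P.V P.v P.k₀) = z) : ‖z‖ ≤ h := by
  have h1 := ev_le (nrmHouse L) φ hφn s ζ hs hζ (zt P.V P.v P.k₀)
  rw [hz] at h1
  exact h1.trans P.z_le

/-- The gap theorem. -/
theorem gap (φ : 𝓞 L →+* ℂ) (ψ : L →+* ℂ) (hψ : φ = ψ.comp (algebraMap (𝓞 L) L))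
    (cK : ℝ) (hcK1 : 1 ≤ cK)
    (co : 𝓞 L →+ (Fin (finrank ℚ L) → ℤ)) (hinj : Function.Injective co)
    (hco : ∀ x i, |(co x i : ℝ)| ≤ cK * (nrmHouse L).v x)
    (d m n : ℕ) (hd : 3 ≤ d) (hm : 1 ≤ m) (hn : 68 * d ^ 2 ≤ n)
    (he : 3 * (finrank ℚ L * m ^ 2) ≤ d ^ 2) (y : ℝ) (hy : 2 ≤ y)
    (hyc : cK ≤ y ^ (d ^ 6 * n)) (κ₁ : ℕ) (hκ₁ : kap d m ≤ κ₁)
    (P₁ : CP L φ d m y) (P₂ : CP L φ d m (y ^ (n + 1)))
    (ha₁ : |(P₁.a : ℝ)| = y ^ (m * κ₁))
    (ha₂ : y ^ (m * κ₁ * n) ≤ |(P₂.a : ℝ)|)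
    (ha₂' : |(P₂.a : ℝ)| ≤ y ^ (m * κ₁ * (n + 1))) :
    False := by
  have hφn : ∀ a, ‖φ a‖ ≤ (nrmHouse L).v a := by
    intro a; rw [hψ]; exact norm_phi_le ψ a
  have he' : finrank ℚ L ≤ d ^ 2 := by
    have : finrank ℚ L ≤ finrank ℚ L * m ^ 2 := Nat.le_mul_of_pos_right _ (by positivity)
    omega
  have hmd : m ≤ d := by
    have h1 : 0 < finrank ℚ L := finrank_pos
    have h2 : m ^ 2 ≤ finrank ℚ L * m ^ 2 := Nat.le_mul_of_pos_left _ h1
    have h3 : m ^ 2 ≤ d ^ 2 := by omega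
    exact (Nat.pow_le_pow_iff_left (by norm_num)).mp h3
  have hy0 : 0 < y := by linarith
  have hy1 : 1 ≤ y := by linarith
  have hn1 : 1 ≤ n := by
    have : 0 < 68 * d ^ 2 := by positivity
    omega
  have hd1 : 1 ≤ d := by omega
  have hκ1 : 6 * cZ d m + 1200 * d ^ 6 + 1 ≤ κ₁ := by
    unfold kap at hκ₁; omega
  have hκ2 : 1200 * d ^ 2 ≤ κ₁ := by
    have : d ^ 2 ≤ d ^ 6 := Nat.pow_le_pow_right (by omega) (by norm_num)
    omega
  obtain ⟨g, hg0, hg, hgb⟩ := exists_aux cK hcK1 co hinj hco n hd hm hn1 he y hy hyc P₁ P₂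
  have hU0 := Upoly_ne_zero φ d m n hd hm hmd hn1 y hy κ₁ hκ₁ P₂ ha₂ g hg0 hgb
  obtain ⟨κ, hκ⟩ : ∃ κ, κ = m * κ₁ := ⟨_, rfl⟩
  have hκge : κ₁ ≤ κ := by rw [hκ]; exact Nat.le_mul_of_pos_left _ hm
  rw [← hκ] at ha₁ ha₂ ha₂'
  set U := Upoly g P₂.a P₂.b with hU
  set f := fP d P₁.c with hf
  have hmon : f.Monic := fP_monic d P₁.c P₁.top
  have hdeg : f.natDegree = d := fP_natDegree d P₁.c P₁.top
  have hf2 : Deg2 f d d := fP_deg2 d P₁.c
  have hUlt := Upoly_natDegree_lt g hd1 P₂.a P₂.b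
  have hUdvd : ¬ f ∣ U := not_dvd_of_natDegree_lt f U hmon hU0 (by rw [hdeg]; exact hUlt)
  -- the branch
  have haC : (P₁.a : ℂ) ≠ 0 := by exact_mod_cast P₁.a_ne
  have hna : ‖(P₁.a : ℂ)‖ = y ^ κ := by rw [Complex.norm_intCast, ha₁]
  have hw₁ := one_le_w φ ψ hψ d he' y hy1 P₁.w P₁.w_ne P₁.w_le
  have hrho : ∀ x s : ℂ, y ^ κ / 2 ≤ ‖x‖ → x * (φ P₁.w * s ^ m) = 1 → ‖s‖ < rho d y := by
    intro x s hx hxs
    have hxpos : 0 < ‖x‖ := lt_of_lt_of_le (by positivity) hx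
    have hs := s_le s (φ P₁.w) x m hm hxs y hy1 (y ^ (d ^ 2 + 1))
      (one_le_pow₀ hy1) κ₁ ?_
    · refine lt_of_le_of_lt hs (lt_of_lt_of_le ?_ (rho_ge d y hy hd1))
      rw [div_lt_iff₀ (by positivity), ← div_eq_inv_mul, lt_div_iff₀ (by positivity), ← pow_add]
      apply pow_lt_pow_right₀ (by linarith)
      have h1 : d ≤ d ^ 2 := Nat.le_self_pow (by norm_num) d
      have h2 : 1 ≤ d ^ 2 := Nat.one_le_iff_ne_zero.mpr (by positivity)
      omega
    · rw [← hκ]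
      calc y ^ κ ≤ 2 * ‖x‖ := by linarith
        _ ≤ y * ‖x‖ := mul_le_mul_of_nonneg_right hy hxpos.le
        _ = y * ‖x‖ * 1 := (mul_one _).symm
        _ ≤ y * ‖x‖ * (‖φ P₁.w‖ * y ^ (d ^ 2)) :=
            mul_le_mul_of_nonneg_left hw₁ (by positivity)
        _ = y ^ (d ^ 2 + 1) * (‖x‖ * ‖φ P₁.w‖) := by rw [pow_succ]; ring
  have hrho1 : rho d y ≤ 1 := by
    unfold rho
    have h1 := bet_le_one d y hy
    have h2 := bet_pos d y hy
    have h3 : (1 : ℝ) ≤ d := by exact_mod_cast hd1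
    rw [div_le_one (by positivity)]
    have h4 : (bet d y) ^ 2 ≤ 1 := pow_le_one₀ h2.le h1
    have h5 : (1 : ℝ) ≤ y ^ 2 := one_le_pow₀ hy1
    nlinarith
  have hhalf : y ^ κ / 2 ≤ ‖(P₁.a : ℂ)‖ := by
    rw [hna]
    have : 0 < y ^ κ := by positivity
    linarith
  obtain ⟨Z, hZd, hZ, hZa, hfy⟩ := CP.package φ ψ hψ d m hd1 he' y hy P₁ (hrho _ _ hhalf P₁.hs)
  -- power series expansion
  obtain ⟨ys, hys, hfz⟩ := exists_ys f hmon P₁.a P₁.b P₁.zero hfy
  have hio : io P₁.a ys U ≠ 0 := by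
    intro h0
    exact hUdvd (dvd_of_io_eq_zero f U hmon P₁.irr P₁.a (by omega) ys hfz h0)
  have hfy' : io P₁.a ys (derivative f) ≠ 0 := by
    intro h0
    have h1 := constantCoeff_io P₁.a P₁.b ys hys (derivative f)
    rw [h0, map_zero] at h1
    exact hfy (by exact_mod_cast h1.symm)
  obtain ⟨k, uk, hk, hdvd, huk⟩ := exact_div f U P₁.a P₁.b P₁.zero hfy ys hys hfz hio
  -- the zero estimate
  have hkb : κ * k ≤ cZ d m * n + κ * (8 * d * m * d) := by
    have h1 := zero_estimate' f hmon P₁.irr d hd1 hdeg hf2 P₁.a P₁.a_ne ys hfz hfy'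
      (8 * d * m * n + d) (Apoly g) (fun j => Apoly_deg2 g j) (y ^ (510 * d ^ 6 * n))
      (one_le_pow₀ hy1) (fun j => ?_) (wval P₂.a P₂.b) hUdvd k hk
    · have hcard : Fintype.card (Fin (8 * d * m) × Fin d) = 8 * d * m * d := by
        rw [Fintype.card_prod, Fintype.card_fin, Fintype.card_fin]
      rw [hcard, ha₁] at h1
      have h2 := h1.trans (zeBound_le d m n hd hmd hn1 y hy (nrm2.v f) (y ^ (510 * d ^ 6 * n))
        (nrm2.nonneg _) ((fP_nrm d P₁.c).trans P₁.hS_le) (by positivity) le_rfl)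
      rw [← pow_mul] at h2
      have h3 := (pow_le_pow_iff_right₀ (by linarith : (1 : ℝ) < y)).mp h2
      have h4 : κ * k ≤ κ * (k - 8 * d * m * d) + κ * (8 * d * m * d) := by
        rw [← mul_add]
        exact Nat.mul_le_mul_left _ (by omega)
      omega
    · refine (Apoly_nrm g _ hgb j).trans ?_
      calc ((8 * d * m * n * d : ℕ) : ℝ) * y ^ (500 * d ^ 6 * n)
          ≤ y ^ (8 * d * m * n * d) * y ^ (500 * d ^ 6 * n) :=
            mul_le_mul_of_nonneg_right (natCast_le_pow _ y hy) (by positivity)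
        _ = y ^ (8 * d * m * n * d + 500 * d ^ 6 * n) := by rw [← pow_add]
        _ ≤ y ^ (510 * d ^ 6 * n) := by
            apply pow_le_pow_right₀ hy1
            have e4 : d * m * d ≤ d ^ 6 := by
              calc d * m * d ≤ d * d * d := by
                    apply Nat.mul_le_mul_right
                    exact Nat.mul_le_mul_left _ hmd
                _ = d ^ 3 := by ring
                _ ≤ d ^ 6 := Nat.pow_le_pow_right (by omega) (by norm_num)
            calc 8 * d * m * n * d + 500 * d ^ 6 * n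
                = (8 * (d * m * d) + 500 * d ^ 6) * n := by ring
              _ ≤ 510 * d ^ 6 * n := by
                  apply Nat.mul_le_mul_right
                  omega
  -- the function `G`
  let S : ℂ → ℂ := fun x => P₁.s * (x / P₁.a) ^ (-(1 / (m : ℂ)))
  let zf : ℂ → ℂ := fun x => eval₂ φ (S x) P₁.V + φ P₁.v * (S x) ^ P₁.k₀ * Z (S x)
  let Y : ℂ → ℂ := fun x => x * zf x
  let G : ℂ → ℂ := fun x => evC x (Y x) uk
  let B : Set ℂ := closedBall (P₁.a : ℂ) (y ^ κ / 2)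
  have hκpos : 0 < y ^ κ := by positivity
  have hB1 : ∀ x ∈ B, y ^ κ / 2 ≤ ‖x‖ := by
    intro x hx
    rw [mem_closedBall, dist_eq_norm] at hx
    have h1 : ‖(P₁.a : ℂ)‖ ≤ ‖x - P₁.a‖ + ‖x‖ := by
      have : (P₁.a : ℂ) = x - (x - P₁.a) := by ring
      calc ‖(P₁.a : ℂ)‖ = ‖x - (x - P₁.a)‖ := by rw [← this]
        _ ≤ ‖x‖ + ‖x - P₁.a‖ := norm_sub_le _ _
        _ = _ := add_comm _ _
    rw [hna] at h1
    linarith
  have hB0 : ∀ x ∈ B, x ≠ 0 := by
    intro x hx h0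
    have hx' := hB1 x hx
    rw [h0, norm_zero] at hx'
    linarith
  have hslit : ∀ x ∈ B, x / (P₁.a : ℂ) ∈ Complex.slitPlane := by
    intro x hx
    rw [mem_closedBall, dist_eq_norm] at hx
    left
    have h1 : ‖x / (P₁.a : ℂ) - 1‖ ≤ 1 / 2 := by
      have : x / (P₁.a : ℂ) - 1 = (x - P₁.a) / P₁.a := by field_simp
      rw [this, norm_div, hna, div_le_iff₀ hκpos]
      linarith
    have h2 := (abs_le.mp ((Complex.abs_re_le_norm _).trans h1)).1
    rw [Complex.sub_re, Complex.one_re] at h2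
    linarith
  have hmC : (m : ℂ) ≠ 0 := by exact_mod_cast (by omega : m ≠ 0)
  have hSm : ∀ x ∈ B, x * (φ P₁.w * (S x) ^ m) = 1 := by
    intro x hx
    simp only [S]
    rw [mul_pow, ← Complex.cpow_nat_mul]
    have h1 : (m : ℂ) * (-(1 / (m : ℂ))) = -1 := by field_simp
    rw [h1, Complex.cpow_neg_one, inv_div]
    have h2 := hB0 x hx
    have h3 := P₁.hs
    have h4 : x * (φ P₁.w * (P₁.s ^ m * ((P₁.a : ℂ) / x)))
        = (P₁.a : ℂ) * (φ P₁.w * P₁.s ^ m) := by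
      field_simp
    rw [h4, h3]
  have hSa : S P₁.a = P₁.s := by
    simp only [S]
    rw [div_self haC, Complex.one_cpow, mul_one]
  have hSd : DifferentiableOn ℂ S B := by
    intro x hx
    refine DifferentiableAt.differentiableWithinAt ?_
    refine (differentiableAt_const _).mul ?_
    exact DifferentiableAt.cpow (differentiableAt_id.div_const _) (differentiableAt_const _)
      (hslit x hx)
  have hSball : ∀ x ∈ B, S x ∈ ball (0 : ℂ) (rho d y) := by
    intro x hx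
    rw [mem_ball_zero_iff]
    exact hrho x (S x) (hB1 x hx) (hSm x hx)
  have hZSd : DifferentiableOn ℂ (fun x => Z (S x)) B := hZd.comp hSd hSball
  have hzfd : DifferentiableOn ℂ zf B := by
    have h1 : DifferentiableOn ℂ (fun x => eval₂ φ (S x) P₁.V) B := by
      have h2 : (fun x => eval₂ φ (S x) P₁.V) = fun x => (P₁.V.map φ).eval (S x) := by
        funext x
        rw [eval_map]
      rw [h2]
      exact ((P₁.V.map φ).differentiable.comp_differentiableOn hSd)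
    exact h1.add (((differentiableOn_const _).mul (hSd.pow _)).mul hZSd)
  have hYd : DifferentiableOn ℂ Y B := differentiableOn_id.mul hzfd
  have hGd : DifferentiableOn ℂ G B := evC_differentiableOn uk Y B hYd
  have hzfev : ∀ x ∈ B, ev φ (S x) (Z (S x)) (zt P₁.V P₁.v P₁.k₀) = zf x := by
    intro x hx
    rw [ev_zt]
  have hr : y ^ κ / 2 ≠ 0 := by positivity
  have hκ6 : 6 ≤ κ := by
    have : 1 ≤ d ^ 2 := Nat.one_le_iff_ne_zero.mpr (by positivity)
    omega
  have hZ1' : ∀ x ∈ B, ‖Z (S x)‖ ≤ 1 := fun x hx =>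
    ((hZ _ (hSball x hx)).1).trans (sm_le_one d y hy)
  have hS1 : ∀ x ∈ B, ‖S x‖ ≤ 1 := fun x hx =>
    ((mem_ball_zero_iff.mp (hSball x hx)).le).trans hrho1
  have haB : (P₁.a : ℂ) ∈ B := mem_closedBall_self (by positivity)
  have hzfa : zf P₁.a = P₁.z := by
    have h1 := hzfev P₁.a haB
    rw [hSa, hZa] at h1
    exact h1.symm
  -- bound on the boundary
  have hbd : ∀ x ∈ frontier (ball (P₁.a : ℂ) (y ^ κ / 2)),
      ‖G x‖ ≤ y ^ (3 * d * (cZ d m * n + κ * (8 * d * m * d))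
        + (10 * κ * d * m + 600 * d ^ 6 * n)) / y ^ (κ * d * m * n) := by
    intro x hx
    rw [frontier_ball _ hr, mem_sphere, dist_eq_norm] at hx
    have hxB : x ∈ B := by
      change x ∈ closedBall _ _
      rw [mem_closedBall, dist_eq_norm, hx]
    have hx0 := hB0 x hxB
    have hxle : ‖x‖ ≤ y ^ (κ + 1) := by
      have h1 : ‖x‖ ≤ ‖x - P₁.a‖ + ‖(P₁.a : ℂ)‖ := by
        calc ‖x‖ = ‖(x - P₁.a) + P₁.a‖ := by rw [sub_add_cancel]
          _ ≤ _ := norm_add_le _ _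
      rw [hx, hna] at h1
      rw [pow_succ]
      nlinarith
    obtain ⟨hZ1, hZ2⟩ := hZ _ (hSball x hxB)
    have hval := value_bound φ ψ hψ d m n hd hm hn1 he y hy κ₁ (by omega) P₁ P₂
      (by rw [← hκ]; exact ha₂) (by rw [← hκ]; exact ha₂') g hg hgb x (S x) (Z (S x)) (zf x)
      (by rw [← hκ]; exact hB1 x hxB) (by rw [← hκ]; exact hxle) (hSm x hxB) hZ1 hZ2
      (hzfev x hxB)
    rw [← hκ] at hval
    have hfx : evC x (Y x) f = 0 := by
      have h1 := P₁.ev_eq (S x) (Z (S x)) x (zf x) hx0 (hSm x hxB) (hzfev x hxB)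
      rw [hZ2, mul_zero, mul_zero] at h1
      exact h1.symm
    have hrel : (evC x (Y x) (cof f P₁.b)) ^ k * evC x (Y x) U = (x - P₁.a) ^ k * G x := by
      obtain ⟨q, hq⟩ := hdvd
      have h1 := congrArg (evC x (Y x)) hq
      rw [map_sub, map_mul, map_mul, map_mul, map_pow, map_pow, hfx, zero_mul, sub_eq_zero,
        evC_C, eval₂_sub, eval₂_X, eval₂_C] at h1
      simpa using h1
    have hYle : ‖Y x‖ ≤ y ^ (κ + 2) := by
      change ‖x * zf x‖ ≤ _
      rw [norm_mul]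
      calc ‖x‖ * ‖zf x‖ ≤ y ^ (κ + 1) * y :=
            mul_le_mul hxle (CP.norm_z_le φ hφn d m y P₁ _ _ _ (hS1 x hxB) (hZ1' x hxB)
              (hzfev x hxB)) (norm_nonneg _) (by positivity)
        _ = y ^ (κ + 2) := by rw [← pow_succ]
    have hble : |(P₁.b : ℝ)| ≤ y ^ (κ + 2) := by
      have h1 : ‖(P₁.b : ℂ)‖ ≤ y ^ κ * y := by
        rw [P₁.b_eq, norm_mul, hna]
        refine mul_le_mul_of_nonneg_left ?_ (by positivity)
        rw [← hzfa]
        exact CP.norm_z_le φ hφn d m y P₁ _ _ _ (hS1 _ haB) (hZ1' _ haB) (hzfev _ haB)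
      rw [Complex.norm_intCast] at h1
      refine h1.trans ?_
      rw [← pow_succ]
      exact pow_le_pow_right₀ hy1 (by omega)
    have hcof : ‖evC x (Y x) (cof f P₁.b)‖ ≤ y ^ (3 * d * κ) := by
      refine (norm_evC_cof_le f d hf2 P₁.b x (Y x) (y ^ (κ + 2)) (one_le_pow₀ hy1)
        (hxle.trans (pow_le_pow_right₀ hy1 (by omega))) hYle hble).trans ?_
      calc (d : ℝ) * nrm2.v f * (y ^ (κ + 2)) ^ (2 * d) ≤ y ^ d * y * (y ^ (κ + 2)) ^ (2 * d) := by
            refine mul_le_mul_of_nonneg_right ?_ (by positivity)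
            exact mul_le_mul (natCast_le_pow _ y hy) ((fP_nrm d P₁.c).trans P₁.hS_le)
              (nrm2.nonneg _) (by positivity)
        _ = y ^ (d + 1 + (κ + 2) * (2 * d)) := by rw [← pow_succ, ← pow_mul, ← pow_add]
        _ ≤ y ^ (3 * d * κ) := by
            apply pow_le_pow_right₀ hy1
            have : 6 * d ≤ κ * d := Nat.mul_le_mul_right _ hκ6
            have e1 : d + 1 + (κ + 2) * (2 * d) = 5 * d + 1 + 2 * (κ * d) := by ring
            have e2 : 3 * d * κ = 3 * (κ * d) := by ring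
            rw [e1, e2]
            omega
    -- combine
    have hge1 : (1 : ℝ) ≤ ‖x - P₁.a‖ ^ k := by
      apply one_le_pow₀
      rw [hx, le_div_iff₀ (by norm_num)]
      calc (1 : ℝ) * 2 ≤ y ^ 1 := by rw [pow_one, one_mul]; exact hy
        _ ≤ y ^ κ := pow_le_pow_right₀ hy1 (by omega)
    have hG : ‖G x‖ ≤ (y ^ (3 * d * κ)) ^ k * ‖evC x (Y x) U‖ := by
      have h1 := congrArg norm hrel
      rw [norm_mul, norm_mul, norm_pow, norm_pow] at h1
      calc ‖G x‖ = 1 * ‖G x‖ := (one_mul _).symm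
        _ ≤ ‖x - P₁.a‖ ^ k * ‖G x‖ := mul_le_mul_of_nonneg_right hge1 (norm_nonneg _)
        _ = ‖evC x (Y x) (cof f P₁.b)‖ ^ k * ‖evC x (Y x) U‖ := h1.symm
        _ ≤ _ := mul_le_mul_of_nonneg_right (pow_le_pow_left₀ (norm_nonneg _) hcof _)
            (norm_nonneg _)
    have hP : 0 < y ^ (κ * d * m * n) := by positivity
    rw [le_div_iff₀ hP]
    calc ‖G x‖ * y ^ (κ * d * m * n)
        ≤ ((y ^ (3 * d * κ)) ^ k * ‖evC x (Y x) U‖) * y ^ (κ * d * m * n) :=
          mul_le_mul_of_nonneg_right hG hP.le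
      _ = (y ^ (3 * d * κ)) ^ k * (‖evC x (Y x) U‖ * y ^ (κ * d * m * n)) := by ring
      _ ≤ (y ^ (3 * d * κ)) ^ k * y ^ (10 * κ * d * m + 600 * d ^ 6 * n) :=
          mul_le_mul_of_nonneg_left hval (by positivity)
      _ ≤ y ^ (3 * d * (cZ d m * n + κ * (8 * d * m * d))) *
          y ^ (10 * κ * d * m + 600 * d ^ 6 * n) := by
          refine mul_le_mul_of_nonneg_right ?_ (by positivity)
          rw [← pow_mul]
          apply pow_le_pow_right₀ hy1
          calc 3 * d * κ * k = 3 * d * (κ * k) := by ring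
            _ ≤ 3 * d * (cZ d m * n + κ * (8 * d * m * d)) := Nat.mul_le_mul_left _ hkb
      _ = y ^ (3 * d * (cZ d m * n + κ * (8 * d * m * d))
          + (10 * κ * d * m + 600 * d ^ 6 * n)) := by
          rw [← pow_add]
  have hmax := Complex.norm_le_of_forall_mem_frontier_norm_le isBounded_ball
    (hGd.diffContOnCl_ball (subset_refl _)) hbd (subset_closure (mem_ball_self (by positivity)))
  -- lower bound at the centre
  have hGa : G P₁.a = ((evalEval P₁.a P₁.b uk : ℤ) : ℂ) := by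
    change evC (P₁.a : ℂ) (P₁.a * zf P₁.a) uk = _
    rw [hzfa, ← P₁.b_eq, evC_int]
  rw [hGa, Complex.norm_intCast] at hmax
  have hone : (1 : ℝ) ≤ |((evalEval P₁.a P₁.b uk : ℤ) : ℝ)| := by
    have := Int.one_le_abs huk
    exact_mod_cast this
  have hfin := hone.trans hmax
  rw [le_div_iff₀ (by positivity), one_mul] at hfin
  have hfin' := (pow_le_pow_iff_right₀ (by linarith : (1 : ℝ) < y)).mp hfin
  -- numerology
  have e1 : 3 * d * (cZ d m * n + κ * (8 * d * m * d)) + (10 * κ * d * m + 600 * d ^ 6 * n)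
      = d * ((3 * cZ d m + 600 * d ^ 5) * n + κ * m * (24 * d ^ 2 + 10)) := by ring
  have e2 : κ * d * m * n = d * (κ * m * n) := by ring
  rw [e1, e2] at hfin'
  have hfin2 := Nat.le_of_mul_le_mul_left hfin' (by omega : 0 < d)
  have e0 : d ^ 5 ≤ d ^ 6 := Nat.pow_le_pow_right (by omega) (by norm_num)
  have e3 : (6 * cZ d m + 1200 * d ^ 5 + 1) * n ≤ κ * m * n := by
    apply Nat.mul_le_mul_right
    calc 6 * cZ d m + 1200 * d ^ 5 + 1 ≤ κ := by omega
      _ ≤ κ * m := Nat.le_mul_of_pos_right _ hm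
  have e4 : (6 * cZ d m + 1200 * d ^ 5 + 1) * n = 2 * ((3 * cZ d m + 600 * d ^ 5) * n) + n := by
    ring
  have e5 : κ * m * (68 * d ^ 2) ≤ κ * m * n := Nat.mul_le_mul_left _ hn
  have e6 : κ * m * (68 * d ^ 2)
      = 2 * (κ * m * (24 * d ^ 2 + 10)) + κ * m * (20 * d ^ 2 - 20) := by
    have h1 : 1 ≤ d ^ 2 := Nat.one_le_iff_ne_zero.mpr (by positivity)
    have h2 : 68 * d ^ 2 = 2 * (24 * d ^ 2 + 10) + (20 * d ^ 2 - 20) := by omega
    calc κ * m * (68 * d ^ 2) = κ * m * (2 * (24 * d ^ 2 + 10) + (20 * d ^ 2 - 20)) := by rw [← h2]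
      _ = _ := by ring
  omega

end Pool.Agent.H20.G
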