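import Pool.Agent.H20.G6

set_option autoImplicit false

namespace Pool.Agent.H20.G

open Polynomial Finset NumberField Module Metric

section

variable {R S : Type*} [CommRing R] [CommRing S] (j : R →+* S)

lemma c0_map (u : R[X][X]) : c0 (u.map (mapRingHom j)) = j (c0 u) := by
  rw [c0_apply, c0_apply, coeff_map, coe_mapRingHom, coeff_map]

lemma tB_coeff_map (u : R[X][X]) :
    (tB (u.map (mapRingHom j))).coeff 0 = j ((tB u).coeff 0) := by
  unfold tB
  rw [coeff_divX, coeff_divX, coeff_map, coe_mapRingHom, coeff_map]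

lemma ev_map (φ : S →+* ℂ) (s ζ : ℂ) (u : R[X][X]) :
    ev φ s ζ (u.map (mapRingHom j)) = ev (φ.comp j) s ζ u := by
  unfold ev
  rw [coe_eval₂RingHom, coe_eval₂RingHom, eval₂_map]
  congr 1
  apply Polynomial.ringHom_ext
  · intro a
    simp
  · simp

lemma zt_map (V : R[X]) (v : R) (k₀ : ℕ) :
    (zt V v k₀).map (mapRingHom j) = zt (V.map j) (j v) k₀ := by
  unfold zt
  rw [Polynomial.map_add, map_monomial, Polynomial.map_map, Polynomial.map_map]
  congr 1
  · congr 1
    ext a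
    simp
  · simp

lemma T_map (w : R) (m : ℕ) :
    (C (C w) * X ^ m : R[X][X]).map (mapRingHom j) = C (C (j w)) * X ^ m := by
  rw [Polynomial.map_mul, Polynomial.map_pow, map_X, Polynomial.map_C, coe_mapRingHom,
    Polynomial.map_C]

lemma rel_map (d m : ℕ) (c : ℕ → ℕ → ℤ) (w : R) (V : R[X]) (v : R) (k₀ μ : ℕ) (Ψ : R[X][X])
    (h : X ^ μ * Ψ = F0 d c (C (C w) * X ^ m) (zt V v k₀)) :
    X ^ μ * Ψ.map (mapRingHom j)
      = F0 d c (C (C (j w)) * X ^ m) (zt (V.map j) (j v) k₀) := by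
  have h1 := congrArg (mapRingHom (mapRingHom j)) h
  rw [map_mul, map_pow, map_F0] at h1
  simp only [coe_mapRingHom] at h1
  rw [map_X, T_map, zt_map] at h1
  exact h1

end

section

variable {E L : Type*} [Field E] [NumberField E] [Field L] [NumberField L]
  {φE : 𝓞 E →+* ℂ} {φL : 𝓞 L →+* ℂ} {d m : ℕ} {h : ℝ}

/-- base change of a chart -/
noncomputable def CP.map (j : 𝓞 E →+* 𝓞 L) (hj : φL.comp j = φE)
    (hjn : ∀ x, (nrmHouse L).v (j x) ≤ (nrmHouse E).v x) (hinj : Function.Injective j)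
    (P : CP E φE d m h) : CP L φL d m h where
  c := P.c
  w := j P.w
  V := P.V.map j
  v := j P.v
  k₀ := P.k₀
  μ := P.μ
  Φ := P.Φ.map (mapRingHom j)
  a := P.a
  b := P.b
  s := P.s
  ζ := P.ζ
  top := P.top
  irr := P.irr
  w_ne := by
    intro h0
    exact P.w_ne (hinj (by rw [h0, map_zero]))
  v_ne := by
    intro h0
    exact P.v_ne (hinj (by rw [h0, map_zero]))
  root := by rw [c0_map, P.root, map_zero]
  simple := by
    rw [tB_coeff_map]
    intro h0
    exact P.simple (hinj (by rw [h0, map_zero]))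
  deg := by
    intro k
    rw [coeff_map, coe_mapRingHom]
    exact natDegree_map_le.trans (P.deg k)
  rel := rel_map j d m P.c P.w P.V P.v P.k₀ P.μ P.Φ P.rel
  hS_le := P.hS_le
  w_le := (hjn _).trans P.w_le
  Φ_le := ((nrmHouse E).poly.l1_map_le (nrmHouse L).poly (mapRingHom j)
    (fun a => (nrmHouse E).l1_map_le (nrmHouse L) j hjn a) P.Φ).trans P.Φ_le
  z_le := by
    rw [← zt_map]
    exact ((nrmHouse E).poly.l1_map_le (nrmHouse L).poly (mapRingHom j)
      (fun a => (nrmHouse E).l1_map_le (nrmHouse L) j hjn a) _).trans P.z_le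
  a_ne := P.a_ne
  s_ne := P.s_ne
  zero := P.zero
  hs := by
    have h1 : φL (j P.w) = φE P.w := RingHom.congr_fun hj P.w
    rw [h1]
    exact P.hs
  hb := by
    rw [← zt_map, ev_map, hj]
    exact P.hb
  near := P.near

/-- change of level -/
def CP.level (P : CP E φE d m h) (h' : ℝ) (h1 : h ≤ h')
    (h2 : ‖P.ζ‖ ≤ bet d h' / (4 * h')) : CP E φE d m h' where
  c := P.c
  w := P.w
  V := P.V
  v := P.v
  k₀ := P.k₀
  μ := P.μ
  Φ := P.Φ
  a := P.a
  b := P.b
  s := P.s
  ζ := P.ζ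
  top := P.top
  irr := P.irr
  w_ne := P.w_ne
  v_ne := P.v_ne
  root := P.root
  simple := P.simple
  deg := P.deg
  rel := P.rel
  hS_le := P.hS_le.trans h1
  w_le := P.w_le.trans h1
  Φ_le := P.Φ_le.trans h1
  z_le := P.z_le.trans h1
  a_ne := P.a_ne
  s_ne := P.s_ne
  zero := P.zero
  hs := P.hs
  hb := P.hb
  near := h2

end

end Pool.Agent.H20.G
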