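import Pool.Agent.H20.G7

set_option autoImplicit false

namespace Pool.Agent.H20.G

open Polynomial Finset NumberField Module Metric
open scoped Pointwise

lemma finrank_sup_mul_le {K L : Type*} [Field K] [Field L] [Algebra K L]
    (F E₁ E₂ : IntermediateField K L) (h₁ : F ≤ E₁) (h₂ : F ≤ E₂) :
    finrank K ↥(E₁ ⊔ E₂) * finrank K F ≤ finrank K E₁ * finrank K E₂ := by
  have t : ∀ (E : IntermediateField K L) (h : F ≤ E),
      finrank K F * finrank F (IntermediateField.extendScalars h) = finrank K E := by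
    intro E h
    exact finrank_mul_finrank K F (IntermediateField.extendScalars h)
  have h3 := IntermediateField.finrank_sup_le (IntermediateField.extendScalars h₁)
    (IntermediateField.extendScalars h₂)
  rw [IntermediateField.extendScalars_sup] at h3
  rw [← t E₁ h₁, ← t E₂ h₂, ← t (E₁ ⊔ E₂) (le_sup_of_le_left h₁)]
  calc finrank K F * finrank F
        (IntermediateField.extendScalars (le_sup_of_le_left h₁ : F ≤ E₁ ⊔ E₂)) * finrank K F
      ≤ finrank K F * (finrank F (IntermediateField.extendScalars h₁) *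
          finrank F (IntermediateField.extendScalars h₂)) * finrank K F := by
        apply Nat.mul_le_mul_right
        exact Nat.mul_le_mul_left _ h3
    _ = _ := by ring

lemma span_sup {K L : Type*} [Field K] [Field L] [Algebra K L]
    (E₁ E₂ : IntermediateField K L) [FiniteDimensional K E₁]
    (S₁ : Set E₁) (S₂ : Set E₂) (h₁ : Submodule.span K S₁ = ⊤) (h₂ : Submodule.span K S₂ = ⊤)
    (T : Set ↥(E₁ ⊔ E₂))
    (hT : ∀ s ∈ S₁, ∀ t ∈ S₂, ∃ x ∈ T, (x : L) = s * t) : Submodule.span K T = ⊤ := by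
  have e1 : (E₁ ⊔ E₂).toSubalgebra = E₁.toSubalgebra ⊔ E₂.toSubalgebra :=
    IntermediateField.sup_toSubalgebra_of_isAlgebraic E₁ E₂ (Or.inl inferInstance)
  have e2 : Subalgebra.toSubmodule (E₁ ⊔ E₂).toSubalgebra
      = Submodule.span K ((E₁.val '' S₁) * (E₂.val '' S₂)) := by
    rw [e1, ← Subalgebra.mul_toSubmodule, ← Submodule.span_mul_span]
    congr 1
    · have := congrArg (Submodule.map E₁.val.toLinearMap) h₁
      rw [Submodule.map_span, Submodule.map_top] at this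
      rw [AlgHom.coe_toLinearMap] at this
      rw [this]
      ext x
      simp
    · have := congrArg (Submodule.map E₂.val.toLinearMap) h₂
      rw [Submodule.map_span, Submodule.map_top] at this
      rw [AlgHom.coe_toLinearMap] at this
      rw [this]
      ext x
      simp
  rw [eq_top_iff]
  intro x _
  have hx : (x : L) ∈ Subalgebra.toSubmodule (E₁ ⊔ E₂).toSubalgebra := x.2
  rw [e2] at hx
  have h3 : Submodule.span K ((E₁.val '' S₁) * (E₂.val '' S₂))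
      ≤ Submodule.map (E₁ ⊔ E₂).val.toLinearMap (Submodule.span K T) := by
    rw [Submodule.span_le]
    rintro _ ⟨_, ⟨s, hs, rfl⟩, _, ⟨t, ht, rfl⟩, rfl⟩
    obtain ⟨z, hz, hz2⟩ := hT s hs t ht
    exact ⟨z, Submodule.subset_span hz, hz2⟩
  obtain ⟨z, hz, hz2⟩ := h3 hx
  have : z = x := Subtype.ext hz2
  rw [← this]
  exact hz

/-- the inclusion of a ring of integers in the complex numbers -/
noncomputable def emb (E : IntermediateField ℚ ℂ) : 𝓞 E →+* ℂ :=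
  (E.val.toRingHom).comp (algebraMap (𝓞 E) E)

lemma emb_apply (E : IntermediateField ℚ ℂ) (x : 𝓞 E) : emb E x = ((x : E) : ℂ) := rfl

/-- A curve, a chart at a place at infinity whose field of definition contains `F`, and an
integral point near it, large compared with the height of the curve. -/
structure MC (F : IntermediateField ℚ ℂ) (d m κ₁ : ℕ) where
  E : IntermediateField ℚ ℂ
  nf : NumberField E
  hF : F ≤ E
  hdeg : finrank ℚ E * m ≤ d
  y : ℝ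
  y_two : 2 ≤ y
  S : Set (𝓞 E)
  span : Submodule.span ℚ ((algebraMap (𝓞 E) E) '' S) = ⊤
  S_le : ∀ s ∈ S, (nrmHouse E).v s ≤ y
  cp : CP E (emb E) d m y
  y_pow : |(cp.a : ℝ)| = y ^ (m * κ₁)
  near : ‖cp.ζ‖ ≤ 1 / (4 * (y ^ 2) ^ (d ^ 2 + 1))

lemma near_level (d : ℕ) (y h : ℝ) (hy : 0 < h) (h2 : h ≤ y ^ 2) :
    1 / (4 * (y ^ 2) ^ (d ^ 2 + 1)) ≤ bet d h / (4 * h) := by
  have h1 : bet d h / (4 * h) = 1 / (4 * h ^ (d ^ 2 + 1)) := by
    unfold bet
    rw [pow_succ h (d ^ 2), inv_eq_one_div, div_div]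
    congr 1
    ring
  rw [h1]
  apply one_div_le_one_div_of_le (by positivity)
  have : h ^ (d ^ 2 + 1) ≤ (y ^ 2) ^ (d ^ 2 + 1) := pow_le_pow_left₀ hy.le h2 _
  linarith

/-- inclusion of rings of integers -/
noncomputable def incl {E L : IntermediateField ℚ ℂ} (h : E ≤ L) : 𝓞 E →+* 𝓞 L :=
  RingOfIntegers.mapRingHom (IntermediateField.inclusion h).toRingHom

lemma incl_coe {E L : IntermediateField ℚ ℂ} (h : E ≤ L) (x : 𝓞 E) :
    (((incl h x : 𝓞 L) : L) : ℂ) = ((x : E) : ℂ) := rfl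

lemma emb_incl {E L : IntermediateField ℚ ℂ} (h : E ≤ L) : (emb L).comp (incl h) = emb E := by
  ext x
  rfl

lemma incl_injective {E L : IntermediateField ℚ ℂ} (h : E ≤ L) :
    Function.Injective (incl h) := by
  intro x y hxy
  have h1 : emb E x = emb E y := by
    rw [← emb_incl h, RingHom.comp_apply, RingHom.comp_apply, hxy]
  rw [emb_apply, emb_apply] at h1
  exact RingOfIntegers.coe_injective (Subtype.ext h1)

lemma house_le_of {K : Type*} [Field K] [NumberField K] (α : K) (B : ℝ) (hB : 0 ≤ B)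
    (h : ∀ σ : K →+* ℂ, ‖σ α‖ ≤ B) : house α ≤ B := by
  rw [house_eq_sup']
  have h1 : (univ.sup' univ_nonempty (fun φ : K →+* ℂ ↦ ‖φ α‖₊)) ≤ B.toNNReal := by
    refine Finset.sup'_le _ _ (fun φ _ => ?_)
    rw [← NNReal.coe_le_coe, Real.coe_toNNReal _ hB, coe_nnnorm]
    exact h φ
  have h2 : ((univ.sup' univ_nonempty (fun φ : K →+* ℂ ↦ ‖φ α‖₊) : NNReal) : ℝ)
      ≤ (B.toNNReal : ℝ) := by exact_mod_cast h1
  rwa [Real.coe_toNNReal _ hB] at h2

lemma house_map_le {E L : Type*} [Field E] [NumberField E] [Field L] [NumberField L]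
    (j : E →+* L) (x : E) : house (j x) ≤ house x :=
  house_le_of _ _ (house_nonneg _) (fun σ => norm_embedding_le_house x (σ.comp j))

lemma nrm_incl_le {E L : IntermediateField ℚ ℂ} [NumberField E] [NumberField L] (h : E ≤ L)
    (x : 𝓞 E) : (nrmHouse L).v (incl h x) ≤ (nrmHouse E).v x :=
  house_map_le (IntermediateField.inclusion h).toRingHom x

/-- Boundedness of the large points near places at infinity whose field of definition contains a
fixed field of degree at least three. -/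
theorem MC.bounded (F : IntermediateField ℚ ℂ) (hF : 3 ≤ finrank ℚ F) (d m : ℕ) (hd : 3 ≤ d)
    (hm : 1 ≤ m) (κ₁ : ℕ) (hκ₁ : kap d m ≤ κ₁) : ∃ A : ℝ, ∀ P : MC F d m κ₁, P.y ≤ A := by
  by_contra hne
  push Not at hne
  obtain ⟨P₁, -⟩ := hne 0
  obtain ⟨P₂, hP₂⟩ := hne (P₁.y ^ (68 * d ^ 2))
  have := P₁.nf
  have := P₂.nf
  have hy2 := P₁.y_two
  have hy1 : 1 < P₁.y := by linarith
  have hy0 : 0 < P₁.y := by linarith
  have hP₂2 := P₂.y_two
  have hP₂1 : 1 ≤ P₂.y := by linarith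
  obtain ⟨n, hn1, hn2⟩ := exists_nat_pow_near hP₂1 hy1
  have hn : 68 * d ^ 2 ≤ n := by
    by_contra hlt
    push Not at hlt
    have h1 : P₁.y ^ (n + 1) ≤ P₁.y ^ (68 * d ^ 2) := pow_le_pow_right₀ hy1.le hlt
    linarith
  have hn0 : 1 ≤ n := by
    have : 0 < 68 * d ^ 2 := by positivity
    omega
  have hlev : P₁.y ^ (n + 1) ≤ P₂.y ^ 2 := by
    calc P₁.y ^ (n + 1) ≤ P₁.y ^ (n * 2) := pow_le_pow_right₀ hy1.le (by omega)
      _ = (P₁.y ^ n) ^ 2 := pow_mul _ _ _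
      _ ≤ P₂.y ^ 2 := pow_le_pow_left₀ (by positivity) hn1 2
  -- the compositum
  have hfd₁ : FiniteDimensional ℚ P₁.E := P₁.nf.to_finiteDimensional
  have hfd₂ : FiniteDimensional ℚ P₂.E := P₂.nf.to_finiteDimensional
  have hfd : FiniteDimensional ℚ ↥(P₁.E ⊔ P₂.E) := IntermediateField.finiteDimensional_sup _ _
  have hnf : NumberField ↥(P₁.E ⊔ P₂.E) := { to_finiteDimensional := hfd }
  have hfr := finrank_sup_mul_le F P₁.E P₂.E P₁.hF P₂.hF
  have he : 3 * (finrank ℚ ↥(P₁.E ⊔ P₂.E) * m ^ 2) ≤ d ^ 2 := by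
    calc 3 * (finrank ℚ ↥(P₁.E ⊔ P₂.E) * m ^ 2)
        ≤ finrank ℚ F * (finrank ℚ ↥(P₁.E ⊔ P₂.E) * m ^ 2) := Nat.mul_le_mul_right _ hF
      _ = (finrank ℚ ↥(P₁.E ⊔ P₂.E) * finrank ℚ F) * m ^ 2 := by ring
      _ ≤ (finrank ℚ P₁.E * finrank ℚ P₂.E) * m ^ 2 := Nat.mul_le_mul_right _ hfr
      _ = (finrank ℚ P₁.E * m) * (finrank ℚ P₂.E * m) := by ring
      _ ≤ d * d := Nat.mul_le_mul P₁.hdeg P₂.hdeg
      _ = d ^ 2 := by ring
  have hfrd : finrank ℚ ↥(P₁.E ⊔ P₂.E) ≤ d ^ 2 := by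
    have : finrank ℚ ↥(P₁.E ⊔ P₂.E) ≤ finrank ℚ ↥(P₁.E ⊔ P₂.E) * m ^ 2 :=
      Nat.le_mul_of_pos_right _ (by positivity)
    omega
  set i₁ : P₁.E ≤ P₁.E ⊔ P₂.E := le_sup_left
  set i₂ : P₂.E ≤ P₁.E ⊔ P₂.E := le_sup_right
  -- coordinates
  let T : Set (𝓞 ↥(P₁.E ⊔ P₂.E)) := {x | ∃ s ∈ P₁.S, ∃ t ∈ P₂.S, x = incl i₁ s * incl i₂ t}
  have hspan : Submodule.span ℚ ((algebraMap (𝓞 ↥(P₁.E ⊔ P₂.E)) ↥(P₁.E ⊔ P₂.E)) '' T) = ⊤ := by
    refine span_sup P₁.E P₂.E _ _ P₁.span P₂.span _ ?_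
    rintro _ ⟨s, hs, rfl⟩ _ ⟨t, ht, rfl⟩
    refine ⟨_, ⟨incl i₁ s * incl i₂ t, ⟨s, hs, t, ht, rfl⟩, rfl⟩, ?_⟩
    rfl
  have hTle : ∀ x ∈ T, (nrmHouse ↥(P₁.E ⊔ P₂.E)).v x ≤ P₁.y ^ (n + 2) := by
    rintro _ ⟨s, hs, t, ht, rfl⟩
    refine ((nrmHouse _).mul_le _ _).trans ?_
    calc (nrmHouse ↥(P₁.E ⊔ P₂.E)).v (incl i₁ s) * (nrmHouse ↥(P₁.E ⊔ P₂.E)).v (incl i₂ t)
        ≤ P₁.y * P₁.y ^ (n + 1) := by
          refine mul_le_mul ((nrm_incl_le i₁ s).trans (P₁.S_le s hs)) ?_ ((nrmHouse _).nonneg _)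
            hy0.le
          exact ((nrm_incl_le i₂ t).trans (P₂.S_le t ht)).trans hn2.le
      _ = P₁.y ^ (n + 2) := by rw [← pow_succ']
  obtain ⟨co, hinj, hco⟩ := exists_co ↥(P₁.E ⊔ P₂.E) T hspan (P₁.y ^ (n + 2)) hTle
  have hfrpos : (1 : ℝ) ≤ (finrank ℚ ↥(P₁.E ⊔ P₂.E) : ℝ) := by
    exact_mod_cast (finrank_pos : 0 < finrank ℚ ↥(P₁.E ⊔ P₂.E))
  have hcK1 : (1 : ℝ) ≤ finrank ℚ ↥(P₁.E ⊔ P₂.E) * P₁.y ^ (n + 2) :=
    one_le_mul_of_one_le_of_one_le hfrpos (one_le_pow₀ hy1.le)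
  have hcKle : (finrank ℚ ↥(P₁.E ⊔ P₂.E) : ℝ) * P₁.y ^ (n + 2) ≤ P₁.y ^ (d ^ 6 * n) := by
    calc (finrank ℚ ↥(P₁.E ⊔ P₂.E) : ℝ) * P₁.y ^ (n + 2)
        ≤ P₁.y ^ (d ^ 2) * P₁.y ^ (n + 2) :=
          mul_le_mul_of_nonneg_right (natCast_le_pow' _ _ _ hy2 hfrd) (by positivity)
      _ = P₁.y ^ (d ^ 2 + (n + 2)) := by rw [← pow_add]
      _ ≤ P₁.y ^ (d ^ 6 * n) := by
          apply pow_le_pow_right₀ hy1.le
          have h1 : 81 * d ^ 2 ≤ d ^ 6 := by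
            calc 81 * d ^ 2 = 3 ^ 4 * d ^ 2 := by norm_num
              _ ≤ d ^ 4 * d ^ 2 := Nat.mul_le_mul_right _ (Nat.pow_le_pow_left hd 4)
              _ = d ^ 6 := by ring
          have h2 : 1 ≤ d ^ 2 := Nat.one_le_iff_ne_zero.mpr (by positivity)
          have h3 : d ^ 2 ≤ d ^ 2 * n := Nat.le_mul_of_pos_right _ (by omega)
          have h4 : 81 * d ^ 2 * n ≤ d ^ 6 * n := Nat.mul_le_mul_right _ h1
          have h5 : n ≤ d ^ 2 * n := Nat.le_mul_of_pos_left _ (by omega)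
          have h6 : 81 * d ^ 2 * n = 81 * (d ^ 2 * n) := by ring
          omega
  refine gap (emb (P₁.E ⊔ P₂.E)) (P₁.E ⊔ P₂.E).val.toRingHom rfl _ hcK1 co hinj hco d m n hd hm hn
    he P₁.y hy2 hcKle κ₁ hκ₁
    ((P₁.cp.level P₁.y le_rfl ?_).map (incl i₁) (emb_incl i₁) (nrm_incl_le i₁) (incl_injective i₁))
    ((P₂.cp.level (P₁.y ^ (n + 1)) hn2.le ?_).map (incl i₂) (emb_incl i₂) (nrm_incl_le i₂)
      (incl_injective i₂)) ?_ ?_ ?_
  · exact P₁.near.trans (near_level d P₁.y P₁.y hy0 (by nlinarith))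
  · exact P₂.near.trans (near_level d P₂.y _ (by positivity) hlev)
  · exact P₁.y_pow
  · change _ ≤ |(P₂.cp.a : ℝ)|
    rw [P₂.y_pow, mul_comm (m * κ₁) n, pow_mul]
    exact pow_le_pow_left₀ (by positivity) hn1 _
  · change |(P₂.cp.a : ℝ)| ≤ _
    rw [P₂.y_pow, mul_comm (m * κ₁) (n + 1), pow_mul P₁.y]
    exact pow_le_pow_left₀ (by linarith) hn2.le _

end Pool.Agent.H20.G
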