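import Pool.Agent.H20.Data

set_option autoImplicit false

namespace Pool.Agent.H20

open Polynomial Finset NumberField Module

lemma natCast_le_pow (m : ℕ) (y : ℝ) (hy : 2 ≤ y) : (m : ℝ) ≤ y ^ m := by
  have h1 : (m : ℝ) ≤ (2 : ℝ) ^ m := by
    have : m < 2 ^ m := Nat.lt_two_pow_self
    exact_mod_cast this.le
  exact h1.trans (pow_le_pow_left₀ (by norm_num) hy m)

lemma natCast_le_pow' (m k : ℕ) (y : ℝ) (hy : 2 ≤ y) (h : m ≤ k) : (m : ℝ) ≤ y ^ k :=
  (natCast_le_pow m y hy).trans (pow_le_pow_right₀ (by linarith) h)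

/-- index set of vanishing conditions -/
abbrev PIdx (d n : ℕ) : Type := Σ b : Fin (18 * d), Fin (18 * d * n - n * b)

lemma card_PIdx (d n : ℕ) : 2 * Fintype.card (PIdx d n) = 18 * d * n * (18 * d + 1) := by
  rw [Fintype.card_sigma]
  simp only [Fintype.card_fin]
  rw [Fin.sum_univ_eq_sum_range (fun b => 18 * d * n - n * b) (18 * d)]
  have h1 : ∀ m : ℕ, 2 * ∑ b ∈ range m, (m * n - n * b) = m * n * (m + 1) := by
    intro m
    rw [← Finset.sum_range_reflect]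
    have h2 : ∀ j ∈ range m, m * n - n * (m - 1 - j) = n * (j + 1) := by
      intro j hj
      have hj' := Finset.mem_range.mp hj
      obtain ⟨k, hk⟩ : ∃ k, m = j + 1 + k := ⟨m - (j + 1), by omega⟩
      have h3 : m - 1 - j = k := by omega
      rw [h3, hk]
      have : (j + 1 + k) * n = n * (j + 1) + n * k := by ring
      omega
    rw [Finset.sum_congr rfl h2, ← Finset.mul_sum, Finset.sum_add_distrib]
    have h4 := Finset.sum_range_id_mul_two m
    simp only [Finset.sum_const, Finset.card_range, smul_eq_mul, mul_one]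
    rcases Nat.eq_zero_or_pos m with rfl | hm
    · simp
    · obtain ⟨k, rfl⟩ : ∃ k, m = k + 1 := ⟨m - 1, by omega⟩
      simp only [Nat.add_sub_cancel] at h4
      have : 2 * (n * (∑ i ∈ range (k + 1), i + (k + 1)))
          = n * ((∑ i ∈ range (k + 1), i) * 2) + 2 * n * (k + 1) := by ring
      rw [this, h4]
      ring
  exact h1 (18 * d)

lemma Phi_l1_le' {R : Type*} [CommRing R] (ν : Nrm R) (d : ℕ) (c : ℕ → ℕ → ℤ) (α : R) (h : ℝ)
    (h1 : hS d c ≤ h) (h2 : 1 + ν.v α ≤ h) : ν.poly.l1 (Phi d c α) ≤ h ^ (d + 1) := by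
  refine (Phi_l1 ν d c α).trans ?_
  rw [pow_succ']
  have h0 := ν.nonneg α
  exact mul_le_mul h1 (pow_le_pow_left₀ (by linarith) h2 d) (by positivity)
    ((hS_nonneg d c).trans h1)

lemma mono_l1_le' {R : Type*} [CommRing R] (ν : Nrm R) (d : ℕ) (α : R) (h : ℝ)
    (h2 : 1 + ν.v α ≤ h) (m j : ℕ) (hj : j ≤ d) : ν.poly.l1 (mono α m j) ≤ h ^ d := by
  refine (mono_l1 ν α m j d hj).trans ?_
  have h0 := ν.nonneg α
  exact pow_le_pow_left₀ (by linarith) h2 d

lemma ell_le {R : Type*} [CommRing R] (ν : Nrm R) (d : ℕ) (c : ℕ → ℕ → ℤ) (α : R) (h : ℝ)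
    (h1 : hS d c ≤ h) (h2 : 1 + ν.v α ≤ h) (a m j : ℕ) (hj : j ≤ d) :
    ν.v (c0 ((tau (Phi d c α) ^ a) (mono α m j))) ≤ h ^ ((d + 1) * a + d) := by
  refine (c0_le ν _).trans ((tau_pow_le ν _ _ a).trans ?_)
  have e1 := Phi_l1_le' ν d c α h h1 h2
  have e2 := mono_l1_le' ν d α h h2 m j hj
  have h0 : 0 ≤ h := (hS_nonneg d c).trans h1
  rw [pow_add, pow_mul]
  exact mul_le_mul (pow_le_pow_left₀ (ν.poly.l1_nonneg _) e1 a) e2 (ν.poly.l1_nonneg _)
    (by positivity)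

/-- Construction of the auxiliary function. -/
theorem exists_aux (K : Type*) [Field K] [NumberField K] (cK : ℝ) (hcK1 : 1 ≤ cK)
    (hcK : ∀ (x : 𝓞 K) (i : Free.ChooseBasisIndex ℤ (𝓞 K)),
      |(((RingOfIntegers.basis K).repr x i : ℤ) : ℝ)| ≤ cK * (nrmHouse K).v x)
    (d n : ℕ) (hd : 3 ≤ d) (hn : 1 ≤ n) (he : finrank ℚ K ≤ d) (y : ℝ) (hy2 : 2 ≤ y)
    (hycK : cK ≤ y) (c₁ c₂ : ℕ → ℕ → ℤ) (α₁ α₂ : 𝓞 K)
    (h1 : hS d c₁ ≤ y) (h1' : 1 + (nrmHouse K).v α₁ ≤ y)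
    (h2 : hS d c₂ ≤ y ^ (n + 1)) (h2' : 1 + (nrmHouse K).v α₂ ≤ y ^ (n + 1)) :
    ∃ g : (Fin (8 * d * n) × Fin d) → (Fin (8 * d) × Fin d) → ℤ, (∃ i j, g i j ≠ 0) ∧
      (∀ a b : ℕ, a + n * b < 18 * d * n →
        ∑ i, ∑ j, (g i j : 𝓞 K) * (c0 ((tau (Phi d c₁ α₁) ^ a) (mono α₁ i.1 i.2)) *
          c0 ((tau (Phi d c₂ α₂) ^ b) (mono α₂ j.1 j.2))) = 0) ∧
      ∀ i j, |(g i j : ℝ)| ≤ y ^ (1232 * d ^ 4 * n) := by
  classical
  have hy1 : 1 ≤ y := by linarith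
  let M : PIdx d n → ((Fin (8 * d * n) × Fin d) × (Fin (8 * d) × Fin d)) → 𝓞 K := fun p u =>
    c0 ((tau (Phi d c₁ α₁) ^ (p.2 : ℕ)) (mono α₁ u.1.1 u.1.2)) *
      c0 ((tau (Phi d c₂ α₂) ^ (p.1 : ℕ)) (mono α₂ u.2.1 u.2.2))
  have hMle : ∀ p u, (nrmHouse K).v (M p u) ≤ y ^ (111 * d ^ 2 * n) := by
    rintro ⟨b, a⟩ ⟨⟨m1, j1⟩, ⟨m2, j2⟩⟩
    refine ((nrmHouse K).mul_le _ _).trans ?_
    have e1 := ell_le (nrmHouse K) d c₁ α₁ y h1 h1' a m1 j1 j1.isLt.le
    have e2 := ell_le (nrmHouse K) d c₂ α₂ _ h2 h2' b m2 j2 j2.isLt.le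
    refine (mul_le_mul e1 e2 ((nrmHouse K).nonneg _) (by positivity)).trans ?_
    rw [← pow_mul, ← pow_add]
    apply pow_le_pow_right₀ hy1
    have ha : (a : ℕ) ≤ 18 * d * n := by have := a.isLt; omega
    have hb : (b : ℕ) ≤ 18 * d := b.isLt.le
    have e3 : (d + 1) * (a : ℕ) ≤ (d + 1) * (18 * d * n) := Nat.mul_le_mul_left _ ha
    have e4 : (d + 1) * (b : ℕ) + d ≤ (d + 1) * (18 * d) + d :=
      Nat.add_le_add_right (Nat.mul_le_mul_left _ hb) _
    have e5 : (n + 1) * ((d + 1) * (b : ℕ) + d) ≤ (2 * n) * ((d + 1) * (18 * d) + d) :=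
      Nat.mul_le_mul (by omega) e4
    have e6 : d ≤ d * n := Nat.le_mul_of_pos_right _ (by omega)
    calc (d + 1) * (a : ℕ) + d + (n + 1) * ((d + 1) * (b : ℕ) + d)
        ≤ (d + 1) * (18 * d * n) + d * n + (2 * n) * ((d + 1) * (18 * d) + d) := by omega
      _ = (54 * d ^ 2 + 57 * d) * n := by ring
      _ ≤ 111 * d ^ 2 * n := by
          apply Nat.mul_le_mul_right
          nlinarith
  have hcard : 8 * (finrank ℚ K * Fintype.card (PIdx d n)) ≤
      7 * Fintype.card ((Fin (8 * d * n) × Fin d) × (Fin (8 * d) × Fin d)) := by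
    have hP := card_PIdx d n
    simp only [Fintype.card_prod, Fintype.card_fin]
    have e1 : finrank ℚ K * Fintype.card (PIdx d n) ≤ d * Fintype.card (PIdx d n) :=
      Nat.mul_le_mul_right _ he
    have e2 : 2 * (8 * (d * Fintype.card (PIdx d n))) = 8 * d * (18 * d * n * (18 * d + 1)) := by
      rw [← hP]; ring
    have e3 : 8 * d * (18 * d * n * (18 * d + 1)) ≤ 2 * (7 * (8 * d * n * d * (8 * d * d))) := by
      have e4 : 8 * d * (18 * d * n * (18 * d + 1)) = (d ^ 2 * n) * (144 * (18 * d + 1)) := by ring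
      have e5 : 2 * (7 * (8 * d * n * d * (8 * d * d))) = (d ^ 2 * n) * (896 * d ^ 2) := by ring
      rw [e4, e5]
      apply Nat.mul_le_mul_left
      nlinarith
    omega
  have : Nonempty (PIdx d n) := by
    refine ⟨⟨⟨0, by omega⟩, ⟨0, ?_⟩⟩⟩
    have : 0 < 18 * d * n := by positivity
    simpa using this
  obtain ⟨g, hg0, hgM, hgb⟩ := siegel_int K cK hcK1 hcK M (y ^ (111 * d ^ 2 * n))
    (one_le_pow₀ hy1) hMle hcard
  refine ⟨fun i j => g (i, j), ?_, ?_, ?_⟩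
  · by_contra hne
    push Not at hne
    exact hg0 (funext fun u => hne u.1 u.2)
  · intro a b hab
    have hb : b < 18 * d := by
      by_contra hb
      push Not at hb
      have : n * (18 * d) ≤ n * b := Nat.mul_le_mul_left _ hb
      have e : n * (18 * d) = 18 * d * n := by ring
      omega
    have ha : a < 18 * d * n - n * b := by omega
    have h := hgM ⟨⟨b, hb⟩, ⟨a, ha⟩⟩
    rw [Fintype.sum_prod_type] at h
    exact h
  · intro i j
    refine (hgb (i, j)).trans ?_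
    have hU : (Fintype.card ((Fin (8 * d * n) × Fin d) × (Fin (8 * d) × Fin d)) : ℝ)
        ≤ y ^ (64 * d ^ 4 * n) := by
      apply natCast_le_pow' _ _ y hy2
      simp only [Fintype.card_prod, Fintype.card_fin]
      apply le_of_eq
      ring
    have hc : cK * y ^ (111 * d ^ 2 * n) ≤ y ^ (1 + 111 * d ^ 2 * n) := by
      rw [pow_add, pow_one]
      exact mul_le_mul_of_nonneg_right hycK (by positivity)
    calc ((Fintype.card ((Fin (8 * d * n) × Fin d) × (Fin (8 * d) × Fin d)) : ℝ)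
          * (cK * y ^ (111 * d ^ 2 * n))) ^ 7
        ≤ (y ^ (64 * d ^ 4 * n) * y ^ (1 + 111 * d ^ 2 * n)) ^ 7 := by
          gcongr
      _ = y ^ ((64 * d ^ 4 * n + (1 + 111 * d ^ 2 * n)) * 7) := by rw [← pow_add, ← pow_mul]
      _ ≤ y ^ (1232 * d ^ 4 * n) := by
          apply pow_le_pow_right₀ hy1
          have e1 : 1 ≤ d ^ 4 * n := Nat.one_le_iff_ne_zero.mpr (by positivity)
          have e2 : d ^ 2 * n ≤ d ^ 4 * n := by
            apply Nat.mul_le_mul_right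
            exact Nat.pow_le_pow_right (by omega) (by omega)
          nlinarith

end Pool.Agent.H20
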