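import Pool.Agent.H20.Gap2

set_option autoImplicit false

namespace Pool.Agent.H20

open Polynomial Finset NumberField Module Metric

/-- lower bound for the derivative at infinity -/
noncomputable def bet (d : ℕ) (h : ℝ) : ℝ := (h ^ (3 * d ^ 2))⁻¹

/-- radius of the disc of holomorphy -/
noncomputable def rho (d : ℕ) (h : ℝ) : ℝ := (bet d h) ^ 2 / (16 * d * (h ^ (d + 1)) ^ 2)

lemma bet_pos (d : ℕ) (h : ℝ) (hh : 2 ≤ h) : 0 < bet d h := by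
  unfold bet
  have : 0 < h := by linarith
  positivity

lemma bet_le_one (d : ℕ) (h : ℝ) (hh : 2 ≤ h) : bet d h ≤ 1 := by
  unfold bet
  exact inv_le_one_of_one_le₀ (one_le_pow₀ (by linarith))

variable {K : Type*} [Field K] [NumberField K]

lemma norm_phi_le (ψ : K →+* ℂ) (a : 𝓞 K) :
    ‖(ψ.comp (algebraMap (𝓞 K) K)) a‖ ≤ (nrmHouse K).v a :=
  norm_embedding_le_house _ _

lemma one_le_norm_mul (ψ : K →+* ℂ) (D : 𝓞 K) (hD : D ≠ 0) :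
    1 ≤ ‖(ψ.comp (algebraMap (𝓞 K) K)) D‖ * ((nrmHouse K).v D) ^ (finrank ℚ K - 1) := by
  have h1 := norm_norm_le_norm_mul_house_pow (algebraMap (𝓞 K) K D) ψ
  refine le_trans ?_ h1
  have h2 : Algebra.norm ℚ (algebraMap (𝓞 K) K D) = ((Algebra.norm ℤ D : ℤ) : ℚ) :=
    (Algebra.coe_norm_int D).symm
  rw [h2]
  have h3 : Algebra.norm ℤ D ≠ 0 := by
    rw [Algebra.norm_ne_zero_iff]
    exact hD
  have h4 : (1 : ℤ) ≤ |Algebra.norm ℤ D| := Int.one_le_abs h3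
  rw [← Rat.norm_cast_real, Real.norm_eq_abs]
  push_cast
  exact_mod_cast h4

/-- A curve with an integral point near a point at infinity. -/
structure CP (K : Type*) [Field K] [NumberField K] (φ : 𝓞 K →+* ℂ) (d : ℕ) (h : ℝ) where
  c : ℕ → ℕ → ℤ
  α : 𝓞 K
  a : ℤ
  b : ℤ
  top : c 0 d = 1
  irr : Irreducible (fP d c)
  root : c0 (Phi d c α) = 0
  simple : (tB (Phi d c α)).coeff 0 ≠ 0
  hS_le : hS d c ≤ h
  α_le : 1 + (nrmHouse K).v α ≤ h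
  a_ne : a ≠ 0
  zero : evalEval a b (fP d c) = 0
  near : ‖(b : ℂ) / a - φ α‖ ≤ bet d h / (4 * h ^ (d + 1))

namespace CP

variable {φ : 𝓞 K →+* ℂ} {d : ℕ} {h : ℝ} (P : CP K φ d h)

/-- the second coordinate at infinity -/
noncomputable def ζ : ℂ := (P.b : ℂ) / P.a - φ P.α

lemma b_eq : (P.b : ℂ) = P.a * (φ P.α + P.ζ) := by
  unfold ζ
  have : (P.a : ℂ) ≠ 0 := by exact_mod_cast P.a_ne
  field_simp
  ring

lemma ev_zero : ev φ (1 / (P.a : ℂ)) P.ζ (Phi d P.c P.α) = 0 := by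
  have ha : (P.a : ℂ) ≠ 0 := by exact_mod_cast P.a_ne
  have h1 := ev_Phi φ (P.a : ℂ) P.ζ ha d P.c P.α
  rw [← P.b_eq, evC_int, P.zero, Int.cast_zero] at h1
  rcases mul_eq_zero.mp h1 with h2 | h2
  · exact absurd h2 (pow_ne_zero _ ha)
  · exact h2

lemma l1_le : (nrmHouse K).poly.l1 (Phi d P.c P.α) ≤ h ^ (d + 1) :=
  Phi_l1_le' (nrmHouse K) d P.c P.α h P.hS_le P.α_le

end CP

lemma bet_le_norm (φ : 𝓞 K →+* ℂ) (ψ : K →+* ℂ) (hψ : φ = ψ.comp (algebraMap (𝓞 K) K))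
    (d : ℕ) (hd : 1 ≤ d) (he : finrank ℚ K ≤ d) (h : ℝ) (hh : 2 ≤ h)
    (P : CP K φ d h) :
    bet d h ≤ ‖φ ((tB (Phi d P.c P.α)).coeff 0)‖ := by
  set D := (tB (Phi d P.c P.α)).coeff 0 with hD
  have h1 := one_le_norm_mul ψ D P.simple
  rw [← hψ] at h1
  have h2 : (nrmHouse K).v D ≤ h ^ (d + 1) := by
    refine le_trans ?_ P.l1_le
    refine ((nrmHouse K).coeff_le _ _).trans ?_
    exact ((nrmHouse K).l1_divX_le _).trans ((nrmHouse K).poly.coeff_le _ _)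
  have hh0 : 0 < h := by linarith
  have h3 : ((nrmHouse K).v D) ^ (finrank ℚ K - 1) ≤ h ^ (3 * d ^ 2) := by
    calc ((nrmHouse K).v D) ^ (finrank ℚ K - 1) ≤ (h ^ (d + 1)) ^ (finrank ℚ K - 1) :=
          pow_le_pow_left₀ ((nrmHouse K).nonneg _) h2 _
      _ = h ^ ((d + 1) * (finrank ℚ K - 1)) := by rw [← pow_mul]
      _ ≤ h ^ (3 * d ^ 2) := by
          apply pow_le_pow_right₀ (by linarith)
          calc (d + 1) * (finrank ℚ K - 1) ≤ (d + 1) * d := Nat.mul_le_mul_left _ (by omega)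
            _ ≤ 3 * d ^ 2 := by nlinarith
  unfold bet
  rw [inv_le_iff_one_le_mul₀ (by positivity)]
  refine h1.trans ?_
  rw [mul_comm]
  exact mul_le_mul_of_nonneg_right h3 (norm_nonneg _) |>.trans (by rw [mul_comm])

/-- The branch through an integral point. -/
theorem CP.package (φ : 𝓞 K →+* ℂ) (ψ : K →+* ℂ) (hψ : φ = ψ.comp (algebraMap (𝓞 K) K))
    (d : ℕ) (hd : 1 ≤ d) (he : finrank ℚ K ≤ d) (h : ℝ) (hh : 2 ≤ h)
    (P : CP K φ d h) (ha : ‖1 / (P.a : ℂ)‖ < rho d h) :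
    ∃ Z : ℂ → ℂ, DifferentiableOn ℂ Z (ball (0 : ℂ) (rho d h)) ∧
      (∀ t ∈ ball (0 : ℂ) (rho d h), ‖Z t‖ ≤ bet d h / (2 * h ^ (d + 1)) ∧
        ev φ t (Z t) (Phi d P.c P.α) = 0) ∧
      Z (1 / (P.a : ℂ)) = P.ζ ∧ evalEval P.a P.b (derivative (fP d P.c)) ≠ 0 := by
  have hφn : ∀ a, ‖φ a‖ ≤ (nrmHouse K).v a := by
    intro a; rw [hψ]; exact norm_phi_le ψ a
  have hβ := bet_le_norm φ ψ hψ d hd he h hh P
  have hz := P.ev_zero
  have hbeq := P.b_eq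
  have hnear : ‖P.ζ‖ ≤ bet d h / (4 * h ^ (d + 1)) := P.near
  obtain ⟨ζ0, hζ0⟩ : ∃ z, z = P.ζ := ⟨_, rfl⟩
  rw [← hζ0] at hz hbeq hnear ⊢
  have hβ0 := bet_pos d h hh
  have hh0 : 0 < h := by linarith
  obtain ⟨Z, hZd, hZ⟩ := analytic_branch (nrmHouse K) φ hφn (Phi d P.c P.α) P.root d hd
    (Phi_coeff_natDegree d P.c P.α) (h ^ (d + 1)) (bet d h) (one_le_pow₀ (by linarith)) P.l1_le
    hβ0 (bet_le_one d h hh) hβ
  have hmem : (1 / (P.a : ℂ)) ∈ ball (0 : ℂ) (rho d h) := by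
    rw [mem_ball_zero_iff]; exact ha
  have hquarter : bet d h / (4 * h ^ (d + 1)) < bet d h / (2 * h ^ (d + 1)) := by
    apply div_lt_div_of_pos_left hβ0 (by positivity)
    have : 0 < h ^ (d + 1) := by positivity
    linarith
  obtain ⟨hZ1, hZ2, hZ3⟩ := hZ _ hmem
  have hZeq : Z (1 / (P.a : ℂ)) = ζ0 := by
    have h1 := hZ3 ζ0 (hnear.trans hquarter.le)
    rw [hz, norm_zero] at h1
    have h2 : ‖ζ0 - Z (1 / (P.a : ℂ))‖ ≤ 0 := by
      by_contra hne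
      push Not at hne
      have : 0 < bet d h / 4 * ‖ζ0 - Z (1 / (P.a : ℂ))‖ := by positivity
      linarith
    have h3 := norm_le_zero_iff.mp h2
    exact (sub_eq_zero.mp h3).symm
  refine ⟨Z, hZd, fun t ht => ⟨(hZ t ht).1, (hZ t ht).2.1⟩, hZeq, ?_⟩
  -- the derivative does not vanish
  rw [← evalEval_cof]
  intro hcof
  have haC : (P.a : ℂ) ≠ 0 := by exact_mod_cast P.a_ne
  let F : ℂ → ℂ := fun ζ => evC (P.a : ℂ) (P.a * (φ P.α + ζ)) (cof (fP d P.c) P.b)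
  have hFcont : Continuous F := by
    have h1 : ∀ p : ℤ[X][X], Continuous (fun y : ℂ => evC (P.a : ℂ) y p) := by
      intro p
      have : (fun y : ℂ => evC (P.a : ℂ) y p)
          = fun y => (p.map (eval₂RingHom (Int.castRingHom ℂ) (P.a : ℂ))).eval y := by
        funext y
        rw [eval_map]; rfl
      rw [this]
      exact Polynomial.continuous _
    exact (h1 _).comp (by fun_prop)
  have hF0 : F ζ0 = 0 := by
    simp only [F]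
    rw [← hbeq, evC_int, hcof, Int.cast_zero]
  set m : ℝ := ‖(P.a : ℂ)‖ ^ d * (bet d h / 4) / ‖(P.a : ℂ)‖ with hm
  have hm0 : 0 < m := by
    have : 0 < ‖(P.a : ℂ)‖ := norm_pos_iff.mpr haC
    rw [hm]; positivity
  have hlow : ∀ ζ : ℂ, ‖ζ‖ ≤ bet d h / (2 * h ^ (d + 1)) → ζ ≠ ζ0 → m ≤ ‖F ζ‖ := by
    intro ζ hζ hne
    have h1 := hZ3 ζ hζ
    rw [hZeq] at h1
    have h2 := ev_Phi φ (P.a : ℂ) ζ haC d P.c P.α
    have h3 : evC (P.a : ℂ) (P.a * (φ P.α + ζ)) (fP d P.c)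
        = F ζ * (P.a * (ζ - ζ0)) := by
      have h4 := congrArg (evC (P.a : ℂ) (P.a * (φ P.α + ζ))) (cof_mul (fP d P.c) P.b)
      rw [map_mul, map_sub, map_sub, evC_X, evC_C, evC_C, eval₂_C] at h4
      have h5 : eval₂ (Int.castRingHom ℂ) (P.a : ℂ) ((fP d P.c).eval (C P.b)) = 0 := by
        have h6 : ((fP d P.c).eval (C P.b)).eval P.a = 0 := P.zero
        have h7 := eval₂_at_apply (Int.castRingHom ℂ) (p := (fP d P.c).eval (C P.b)) P.a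
        rw [h6] at h7
        simpa using h7
      rw [h5, sub_zero] at h4
      rw [← h4]
      simp only [F, Int.coe_castRingHom]
      congr 1
      rw [hbeq]
      ring
    rw [h3] at h2
    have h8 := congrArg norm h2
    rw [norm_mul, norm_mul, norm_mul, norm_pow] at h8
    have hpos : 0 < ‖ζ - ζ0‖ := norm_pos_iff.mpr (sub_ne_zero.mpr hne)
    have hapos : 0 < ‖(P.a : ℂ)‖ := norm_pos_iff.mpr haC
    rw [hm, div_le_iff₀ hapos]
    have h9 : ‖(P.a : ℂ)‖ ^ d * (bet d h / 4) * ‖ζ - ζ0‖ ≤ ‖F ζ‖ * ‖(P.a : ℂ)‖ * ‖ζ - ζ0‖ := by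
      calc ‖(P.a : ℂ)‖ ^ d * (bet d h / 4) * ‖ζ - ζ0‖
          = ‖(P.a : ℂ)‖ ^ d * (bet d h / 4 * ‖ζ - ζ0‖) := by ring
        _ ≤ ‖(P.a : ℂ)‖ ^ d * ‖ev φ (1 / (P.a : ℂ)) ζ (Phi d P.c P.α)‖ :=
            mul_le_mul_of_nonneg_left h1 (by positivity)
        _ = ‖F ζ‖ * (‖(P.a : ℂ)‖ * ‖ζ - ζ0‖) := h8
        _ = ‖F ζ‖ * ‖(P.a : ℂ)‖ * ‖ζ - ζ0‖ := by ring
    exact le_of_mul_le_mul_right h9 hpos
  have hev : ∀ᶠ ζ in nhdsWithin ζ0 {ζ0}ᶜ, m ≤ ‖F ζ‖ := by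
    have h1 : ∀ᶠ ζ in nhds ζ0, ‖ζ‖ < bet d h / (2 * h ^ (d + 1)) :=
      (continuous_norm.tendsto ζ0).eventually (gt_mem_nhds (lt_of_le_of_lt hnear hquarter))
    rw [eventually_nhdsWithin_iff]
    filter_upwards [h1] with ζ hζ hne
    exact hlow ζ hζ.le hne
  have hlim : Filter.Tendsto (fun ζ => ‖F ζ‖) (nhdsWithin ζ0 {ζ0}ᶜ) (nhds ‖F ζ0‖) :=
    ((hFcont.norm).tendsto ζ0).mono_left nhdsWithin_le_nhds
  have := ge_of_tendsto hlim hev
  rw [hF0, norm_zero] at this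
  linarith

end Pool.Agent.H20
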