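import Pool.Agent.H20.Gap3

set_option autoImplicit false

namespace Pool.Agent.H20

open Polynomial Finset NumberField Module Metric

lemma rho_ge (d : ℕ) (h : ℝ) (hh : 2 ≤ h) (hd : 1 ≤ d) :
    (h ^ (6 * d ^ 2 + 3 * d + 6))⁻¹ ≤ rho d h := by
  have hh0 : 0 < h := by linarith
  have hd0 : (0 : ℝ) < d := by exact_mod_cast hd
  unfold rho bet
  rw [inv_pow, ← pow_mul, ← pow_mul, inv_eq_one_div, inv_eq_one_div, div_div]
  apply one_div_le_one_div_of_le (by positivity)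
  have h1 : (16 : ℝ) ≤ h ^ 4 := by
    calc (16 : ℝ) = 2 ^ 4 := by norm_num
      _ ≤ h ^ 4 := pow_le_pow_left₀ (by norm_num) hh 4
  have h2 : (d : ℝ) ≤ h ^ d := natCast_le_pow d h hh
  calc h ^ (3 * d ^ 2 * 2) * (16 * d * h ^ ((d + 1) * 2))
      ≤ h ^ (3 * d ^ 2 * 2) * (h ^ 4 * h ^ d * h ^ ((d + 1) * 2)) := by gcongr
    _ = h ^ (6 * d ^ 2 + 3 * d + 6) := by
      rw [← pow_add, ← pow_add, ← pow_add]; congr 1; ring

variable {K : Type*} [Field K] [NumberField K]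

lemma CP.tB_bound (φ : 𝓞 K →+* ℂ) (ψ : K →+* ℂ) (hψ : φ = ψ.comp (algebraMap (𝓞 K) K))
    (d : ℕ) (hd : 1 ≤ d) (he : finrank ℚ K ≤ d) (h : ℝ) (hh : 2 ≤ h)
    (P : CP K φ d h) (ζ : ℂ) (hζ : ‖ζ‖ ≤ bet d h / (2 * h ^ (d + 1))) (t : ℂ) :
    eval₂ φ ζ (tB (Phi d P.c P.α)) ≠ 0 ∧
      ‖t / eval₂ φ ζ (tB (Phi d P.c P.α))‖ * (nrmHouse K).poly.l1 (Phi d P.c P.α)
        ≤ ‖t‖ * h ^ (3 * d ^ 2 + d + 2) := by
  have hφn : ∀ a, ‖φ a‖ ≤ (nrmHouse K).v a := by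
    intro a; rw [hψ]; exact norm_phi_le ψ a
  have hh0 : 0 < h := by linarith
  have hβ0 := bet_pos d h hh
  have hβ1 := bet_le_one d h hh
  have hH1 : (1 : ℝ) ≤ h ^ (d + 1) := one_le_pow₀ (by linarith)
  have hζ1 : ‖ζ‖ ≤ 1 := by
    refine hζ.trans ?_
    rw [div_le_one (by positivity)]
    linarith
  have h1 : bet d h / 2 ≤ ‖eval₂ φ ζ (tB (Phi d P.c P.α))‖ := by
    refine norm_tB_ge (nrmHouse K) φ hφn _ ζ hζ1 _ (bet_le_norm φ ψ hψ d hd he h hh P) ?_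
    calc ‖ζ‖ * (nrmHouse K).poly.l1 (Phi d P.c P.α)
        ≤ (bet d h / (2 * h ^ (d + 1))) * h ^ (d + 1) := by
          exact mul_le_mul hζ P.l1_le ((nrmHouse K).poly.l1_nonneg _) (by positivity)
      _ = bet d h / 2 := by field_simp
  have h2 : 0 < ‖eval₂ φ ζ (tB (Phi d P.c P.α))‖ := lt_of_lt_of_le (by positivity) h1
  refine ⟨norm_pos_iff.mp h2, ?_⟩
  rw [norm_div, div_mul_eq_mul_div, div_le_iff₀ h2]
  have h3 : h ^ (3 * d ^ 2 + d + 2) * (bet d h / 2) = h * h ^ (d + 1) / 2 := by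
    unfold bet
    have : h ^ (3 * d ^ 2 + d + 2) = h ^ (3 * d ^ 2) * (h * h ^ (d + 1)) := by
      rw [← pow_succ', ← pow_add]; congr 1
    rw [this]
    have h4 : h ^ (3 * d ^ 2) ≠ 0 := by positivity
    field_simp
  calc ‖t‖ * (nrmHouse K).poly.l1 (Phi d P.c P.α)
      ≤ ‖t‖ * h ^ (d + 1) := mul_le_mul_of_nonneg_left P.l1_le (norm_nonneg _)
    _ ≤ ‖t‖ * (h * h ^ (d + 1) / 2) := by
        refine mul_le_mul_of_nonneg_left ?_ (norm_nonneg _)
        nlinarith [pow_pos hh0 (d + 1)]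
    _ = ‖t‖ * h ^ (3 * d ^ 2 + d + 2) * (bet d h / 2) := by rw [mul_assoc, h3]
    _ ≤ ‖t‖ * h ^ (3 * d ^ 2 + d + 2) * ‖eval₂ φ ζ (tB (Phi d P.c P.α))‖ :=
        mul_le_mul_of_nonneg_left h1 (by positivity)

/-- Upper bound for the auxiliary polynomial on the branch. -/
lemma value_bound (φ : 𝓞 K →+* ℂ) (ψ : K →+* ℂ) (hψ : φ = ψ.comp (algebraMap (𝓞 K) K))
    (d n : ℕ) (hd : 3 ≤ d) (hn : 1 ≤ n) (he : finrank ℚ K ≤ d) (y : ℝ) (hy : 2 ≤ y)
    (κ : ℕ) (hκ : 9 * d ^ 2 ≤ κ) (P₁ : CP K φ d y) (P₂ : CP K φ d (y ^ (n + 1)))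
    (ha₂ : y ^ (κ * n) ≤ |(P₂.a : ℝ)|) (ha₂' : |(P₂.a : ℝ)| ≤ y ^ (κ * (n + 1)))
    (g : (Fin (8 * d * n) × Fin d) → (Fin (8 * d) × Fin d) → ℤ)
    (hg : ∀ a b : ℕ, a + n * b < 18 * d * n →
        ∑ i, ∑ j, (g i j : 𝓞 K) * (c0 ((tau (Phi d P₁.c P₁.α) ^ a) (mono P₁.α i.1 i.2)) *
          c0 ((tau (Phi d P₂.c P₂.α) ^ b) (mono P₂.α j.1 j.2))) = 0)
    (hgb : ∀ i j, |(g i j : ℝ)| ≤ y ^ (1232 * d ^ 4 * n))
    (x : ℂ) (hx1 : y ^ κ / 2 ≤ ‖x‖) (hx2 : ‖x‖ ≤ y ^ (κ + 1))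
    (ζ₁ : ℂ) (hζ₁ : ‖ζ₁‖ ≤ bet d y / (2 * y ^ (d + 1)))
    (hz₁ : ev φ (1 / x) ζ₁ (Phi d P₁.c P₁.α) = 0) :
    ‖evC x (x * (φ P₁.α + ζ₁)) (Upoly d n g P₂.a P₂.b)‖ * y ^ (κ * d * n)
      ≤ y ^ (10 * κ * d + 1435 * d ^ 4 * n) := by
  have hφn : ∀ a, ‖φ a‖ ≤ (nrmHouse K).v a := by
    intro a; rw [hψ]; exact norm_phi_le ψ a
  have hy0 : 0 < y := by linarith
  have hy1 : 1 ≤ y := by linarith
  have hyn : 2 ≤ y ^ (n + 1) := by
    calc (2 : ℝ) ≤ y := hy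
      _ = y ^ 1 := (pow_one y).symm
      _ ≤ y ^ (n + 1) := pow_le_pow_right₀ hy1 (by omega)
  have hyn0 : 0 < y ^ (n + 1) := by positivity
  have hx0 : x ≠ 0 := by
    intro h
    rw [h, norm_zero] at hx1
    have : 0 < y ^ κ / 2 := by positivity
    linarith
  have hxpos : 0 < ‖x‖ := norm_pos_iff.mpr hx0
  obtain ⟨κ', hκ'⟩ : ∃ κ', κ = κ' + 9 * d ^ 2 := ⟨κ - 9 * d ^ 2, by omega⟩
  have ha₂C : (P₂.a : ℂ) ≠ 0 := by exact_mod_cast P₂.a_ne
  have hna₂ : ‖(P₂.a : ℂ)‖ = |(P₂.a : ℝ)| := Complex.norm_intCast _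
  have ha₂1 : (1 : ℝ) ≤ |(P₂.a : ℝ)| := (one_le_pow₀ hy1).trans ha₂
  -- second point
  have hζ₂ : ‖P₂.ζ‖ ≤ bet d (y ^ (n + 1)) / (2 * (y ^ (n + 1)) ^ (d + 1)) := by
    refine P₂.near.trans ?_
    have := bet_pos d _ hyn
    apply div_le_div_of_nonneg_left this.le (by positivity)
    have : 0 < (y ^ (n + 1)) ^ (d + 1) := by positivity
    linarith
  obtain ⟨hB₁, hδ₁⟩ := CP.tB_bound φ ψ hψ d (by omega) he y hy P₁ ζ₁ hζ₁ (1 / x)
  obtain ⟨hB₂, hδ₂⟩ := CP.tB_bound φ ψ hψ d (by omega) he _ hyn P₂ P₂.ζ hζ₂ (1 / (P₂.a : ℂ))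
  have hsmall : ∀ h : ℝ, 2 ≤ h → bet d h / (2 * h ^ (d + 1)) ≤ 1 := by
    intro h hh
    have h1 := bet_le_one d h hh
    have h2 : (1 : ℝ) ≤ h ^ (d + 1) := one_le_pow₀ (by linarith)
    rw [div_le_one (by positivity)]
    linarith
  set δ : ℝ := (y ^ κ')⁻¹ with hδ
  have hδ0 : 0 ≤ δ := by positivity
  have hδ1 : δ ≤ 1 := inv_le_one_of_one_le₀ (one_le_pow₀ hy1)
  have ht₁ : ‖1 / x‖ ≤ 2 / y ^ κ := by
    rw [norm_div, norm_one]
    rw [div_le_div_iff₀ hxpos (by positivity)]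
    linarith
  have hd₁ : ‖1 / x‖ * y ^ (3 * d ^ 2 + d + 2) ≤ δ := by
    calc ‖1 / x‖ * y ^ (3 * d ^ 2 + d + 2) ≤ (2 / y ^ κ) * y ^ (3 * d ^ 2 + d + 2) :=
          mul_le_mul_of_nonneg_right ht₁ (by positivity)
      _ ≤ (y / y ^ κ) * y ^ (3 * d ^ 2 + d + 2) := by gcongr
      _ = y ^ (3 * d ^ 2 + d + 3) / y ^ κ := by rw [div_mul_eq_mul_div, ← pow_succ']
      _ ≤ y ^ (9 * d ^ 2) / y ^ κ := by
          gcongr
          nlinarith
      _ = δ := by
          rw [hδ, hκ', pow_add]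
          have : y ^ (9 * d ^ 2) ≠ 0 := by positivity
          field_simp
  have hd₂ : ‖1 / (P₂.a : ℂ)‖ * (y ^ (n + 1)) ^ (3 * d ^ 2 + d + 2) ≤ δ ^ n := by
    rw [norm_div, norm_one, hna₂, hδ, inv_pow, ← pow_mul, ← pow_mul]
    rw [div_mul_eq_mul_div, one_mul, div_le_iff₀ (by linarith)]
    calc y ^ ((n + 1) * (3 * d ^ 2 + d + 2)) ≤ y ^ (9 * d ^ 2 * n) := by
          apply pow_le_pow_right₀ hy1
          calc (n + 1) * (3 * d ^ 2 + d + 2) ≤ (2 * n) * (3 * d ^ 2 + d + 2) :=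
                Nat.mul_le_mul_right _ (by omega)
            _ = (6 * d ^ 2 + 2 * d + 4) * n := by ring
            _ ≤ 9 * d ^ 2 * n := by
                apply Nat.mul_le_mul_right
                nlinarith
      _ = (y ^ (κ' * n))⁻¹ * y ^ (κ * n) := by
          rw [hκ', add_mul, pow_add]
          have : y ^ (κ' * n) ≠ 0 := by positivity
          field_simp
      _ ≤ (y ^ (κ' * n))⁻¹ * |(P₂.a : ℝ)| := mul_le_mul_of_nonneg_left ha₂ (by positivity)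
  have h1x : ‖1 / x‖ ≤ 1 := by
    have h1 : (1 : ℝ) ≤ y ^ (3 * d ^ 2 + d + 2) := one_le_pow₀ hy1
    calc ‖1 / x‖ = ‖1 / x‖ * 1 := (mul_one _).symm
      _ ≤ ‖1 / x‖ * y ^ (3 * d ^ 2 + d + 2) := mul_le_mul_of_nonneg_left h1 (norm_nonneg _)
      _ ≤ 1 := hd₁.trans hδ1
  have h1a : ‖1 / (P₂.a : ℂ)‖ ≤ 1 := by
    rw [norm_div, norm_one, hna₂, div_le_one (by linarith)]
    exact ha₂1
  -- the sum of the coefficients
  have hQ : ∑ i, ∑ j, |(g i j : ℝ)| * ((nrmHouse K).poly.l1 (mono P₁.α i.1 i.2) *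
      (nrmHouse K).poly.l1 (mono P₂.α j.1 j.2)) ≤ y ^ (1299 * d ^ 4 * n) := by
    have hterm : ∀ (i : Fin (8 * d * n) × Fin d) (j : Fin (8 * d) × Fin d),
        |(g i j : ℝ)| * ((nrmHouse K).poly.l1 (mono P₁.α i.1 i.2) *
          (nrmHouse K).poly.l1 (mono P₂.α j.1 j.2)) ≤ y ^ (1235 * d ^ 4 * n) := by
      intro i j
      have e1 := mono_l1_le' (nrmHouse K) d P₁.α y P₁.α_le i.1 i.2 i.2.isLt.le
      have e2 := mono_l1_le' (nrmHouse K) d P₂.α _ P₂.α_le j.1 j.2 j.2.isLt.le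
      calc |(g i j : ℝ)| * ((nrmHouse K).poly.l1 (mono P₁.α i.1 i.2) *
          (nrmHouse K).poly.l1 (mono P₂.α j.1 j.2))
          ≤ y ^ (1232 * d ^ 4 * n) * (y ^ d * (y ^ (n + 1)) ^ d) := by
            refine mul_le_mul (hgb i j) ?_ ?_ (by positivity)
            · exact mul_le_mul e1 e2 ((nrmHouse K).poly.l1_nonneg _) (by positivity)
            · exact mul_nonneg ((nrmHouse K).poly.l1_nonneg _) ((nrmHouse K).poly.l1_nonneg _)
        _ = y ^ (1232 * d ^ 4 * n + (d + (n + 1) * d)) := by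
            rw [← pow_mul, ← pow_add, ← pow_add]
        _ ≤ y ^ (1235 * d ^ 4 * n) := by
            apply pow_le_pow_right₀ hy1
            have e3 : d ≤ d ^ 4 := Nat.le_self_pow (by norm_num) d
            have e4 : d + (n + 1) * d ≤ 3 * d ^ 4 * n := by
              calc d + (n + 1) * d ≤ 3 * (d * n) := by nlinarith
                _ ≤ 3 * (d ^ 4 * n) := by
                    apply Nat.mul_le_mul_left
                    exact Nat.mul_le_mul_right _ e3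
                _ = 3 * d ^ 4 * n := by ring
            calc 1232 * d ^ 4 * n + (d + (n + 1) * d) ≤ 1232 * d ^ 4 * n + 3 * d ^ 4 * n :=
                  Nat.add_le_add_left e4 _
              _ = 1235 * d ^ 4 * n := by ring
    calc ∑ i, ∑ j, |(g i j : ℝ)| * ((nrmHouse K).poly.l1 (mono P₁.α i.1 i.2) *
          (nrmHouse K).poly.l1 (mono P₂.α j.1 j.2))
        ≤ ∑ _i : Fin (8 * d * n) × Fin d, ∑ _j : Fin (8 * d) × Fin d, y ^ (1235 * d ^ 4 * n) :=
          Finset.sum_le_sum (fun i _ => Finset.sum_le_sum (fun j _ => hterm i j))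
      _ = ((64 * d ^ 4 * n : ℕ) : ℝ) * y ^ (1235 * d ^ 4 * n) := by
          simp only [Finset.sum_const, Finset.card_univ, Fintype.card_prod, Fintype.card_fin,
            nsmul_eq_mul]
          push_cast
          ring
      _ ≤ y ^ (64 * d ^ 4 * n) * y ^ (1235 * d ^ 4 * n) :=
          mul_le_mul_of_nonneg_right (natCast_le_pow _ y hy) (by positivity)
      _ = y ^ (1299 * d ^ 4 * n) := by rw [← pow_add]; congr 1; ring
  have hmain := two_curve_bound (nrmHouse K) φ hφn (Phi d P₁.c P₁.α) (Phi d P₂.c P₂.α)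
    P₁.root P₂.root (fun i : Fin (8 * d * n) × Fin d => mono P₁.α i.1 i.2)
    (fun j : Fin (8 * d) × Fin d => mono P₂.α j.1 j.2) g n (18 * d * n) hn hg
    (1 / x) ζ₁ (1 / (P₂.a : ℂ)) P₂.ζ h1x (hζ₁.trans (hsmall y hy)) h1a
    (hζ₂.trans (hsmall _ hyn)) hz₁ P₂.ev_zero hB₁ hB₂ δ hδ0 hδ1 (hδ₁.trans hd₁) (hδ₂.trans hd₂)
    (y ^ (1299 * d ^ 4 * n)) hQ
  rw [evC_Upoly g φ P₁.α P₂.α x ζ₁ P₂.ζ hx0 P₂.a P₂.b P₂.a_ne P₂.b_eq]
  rw [norm_mul, norm_mul, norm_pow, norm_pow, hna₂]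
  have hT : ((18 * d * n : ℕ) : ℝ) + 1 ≤ y ^ (18 * d * n + 1) := by
    have := natCast_le_pow (18 * d * n + 1) y hy
    push_cast at this ⊢
    exact this
  have hδT : δ ^ (18 * d * n) * y ^ (κ' * (18 * d * n)) = 1 := by
    rw [hδ, inv_pow, ← pow_mul]
    exact inv_mul_cancel₀ (by positivity)
  have hP : 0 < y ^ (κ' * (18 * d * n)) := by positivity
  refine le_of_mul_le_mul_right ?_ hP
  calc ‖x‖ ^ (8 * d * n + d) * |(P₂.a : ℝ)| ^ (9 * d) *
        ‖∑ i : Fin (8 * d * n) × Fin d, ∑ j : Fin (8 * d) × Fin d,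
          (g i j : ℂ) * (ev φ (1 / x) ζ₁ (mono P₁.α i.1 i.2) *
            ev φ (1 / (P₂.a : ℂ)) P₂.ζ (mono P₂.α j.1 j.2))‖ * y ^ (κ * d * n)
            * y ^ (κ' * (18 * d * n))
      ≤ (y ^ (κ + 1)) ^ (8 * d * n + d) * (y ^ (κ * (n + 1))) ^ (9 * d) *
        (y ^ (18 * d * n + 1) * y ^ (1299 * d ^ 4 * n) * δ ^ (18 * d * n)) * y ^ (κ * d * n)
            * y ^ (κ' * (18 * d * n)) := by
        refine mul_le_mul_of_nonneg_right (mul_le_mul_of_nonneg_right ?_ (by positivity))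
          (by positivity)
        refine mul_le_mul ?_ ?_ (norm_nonneg _) (by positivity)
        · exact mul_le_mul (pow_le_pow_left₀ (norm_nonneg _) hx2 _)
            (pow_le_pow_left₀ (abs_nonneg _) ha₂' _) (by positivity) (by positivity)
        · refine hmain.trans ?_
          refine mul_le_mul_of_nonneg_right ?_ (by positivity)
          exact mul_le_mul_of_nonneg_right hT (by positivity)
    _ = (y ^ (κ + 1)) ^ (8 * d * n + d) * (y ^ (κ * (n + 1))) ^ (9 * d) *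
        (y ^ (18 * d * n + 1) * y ^ (1299 * d ^ 4 * n)) * y ^ (κ * d * n)
          * (δ ^ (18 * d * n) * y ^ (κ' * (18 * d * n))) := by ring
    _ = y ^ ((κ + 1) * (8 * d * n + d) + (κ * (n + 1)) * (9 * d) +
        (18 * d * n + 1 + 1299 * d ^ 4 * n) + κ * d * n) := by
        rw [hδT, mul_one, ← pow_mul, ← pow_mul, ← pow_add, ← pow_add, ← pow_add, ← pow_add]
    _ ≤ y ^ (10 * κ * d + 1435 * d ^ 4 * n + κ' * (18 * d * n)) := by
        apply pow_le_pow_right₀ hy1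
        have e1 : 162 * d ^ 3 * n ≤ 54 * d ^ 4 * n := by
          apply Nat.mul_le_mul_right
          calc 162 * d ^ 3 = 54 * (3 * d ^ 3) := by ring
            _ ≤ 54 * (d * d ^ 3) := by
                apply Nat.mul_le_mul_left; exact Nat.mul_le_mul_right _ hd
            _ = 54 * d ^ 4 := by ring
        have e2 : 26 * d * n + d + 1 ≤ 28 * d ^ 4 * n := by
          have e3 : d ≤ d ^ 4 := Nat.le_self_pow (by norm_num) d
          calc 26 * d * n + d + 1 ≤ 28 * (d * n) := by nlinarith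
            _ ≤ 28 * (d ^ 4 * n) := by
                apply Nat.mul_le_mul_left
                exact Nat.mul_le_mul_right _ e3
            _ = 28 * d ^ 4 * n := by ring
        have e4 : (κ + 1) * (8 * d * n + d) + (κ * (n + 1)) * (9 * d) +
            (18 * d * n + 1 + 1299 * d ^ 4 * n) + κ * d * n
            = 18 * κ * d * n + 10 * κ * d + (26 * d * n + d + 1) + 1299 * d ^ 4 * n := by ring
        have e5 : 18 * κ * d * n = κ' * (18 * d * n) + 162 * d ^ 3 * n := by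
          rw [hκ']; ring
        rw [e4, e5]
        have e6 : 54 * d ^ 4 * n + 28 * d ^ 4 * n + 1299 * d ^ 4 * n ≤ 1435 * d ^ 4 * n := by
          have : 54 * d ^ 4 * n + 28 * d ^ 4 * n + 1299 * d ^ 4 * n = 1381 * d ^ 4 * n := by ring
          rw [this]
          apply Nat.mul_le_mul_right
          exact Nat.mul_le_mul_right _ (by norm_num)
        omega
    _ = y ^ (10 * κ * d + 1435 * d ^ 4 * n) * y ^ (κ' * (18 * d * n)) := by rw [pow_add]

/-- size of the Wronskian matrix -/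
def m0 (d : ℕ) : ℕ := d + 8 * d * d * (d + 8 * d * d * d)

/-- exponent in the zero estimate -/
def cZ (d : ℕ) : ℕ := (m0 d).factorial + ((8 * d * d).factorial +
  (27 * d ^ 4 * (8 * d * d) + 1240 * d ^ 4) * (8 * d * d)) * m0 d

/-- the exponent of the theorem -/
def kap (d : ℕ) : ℕ := 6 * cZ d + 2870 * d ^ 3 + (2 * d).factorial + 2480 * d ^ 5 + 1

lemma zeBound_le (d n : ℕ) (hd : 3 ≤ d) (hn : 1 ≤ n) (y : ℝ) (hy : 2 ≤ y) (F A : ℝ)
    (hF0 : 0 ≤ F) (hF : F ≤ y) (hA0 : 0 ≤ A) (hA : A ≤ y ^ (1240 * d ^ 4 * n)) :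
    zeBound d (8 * d * d) (8 * d * n + d) F A ≤ y ^ (cZ d * n) := by
  have hy0 : 0 < y := by linarith
  have hy1 : 1 ≤ y := by linarith
  unfold zeBound
  change ((m0 d).factorial : ℝ) * ((((8 * d * d).factorial : ℕ) : ℝ) *
    ((d * F * (((8 * d * n + d : ℕ) : ℝ) + d + 2 * (((8 * d * d : ℕ) : ℝ) * d))) ^ (8 * d * d)
      * A) ^ (8 * d * d)) ^ (m0 d) ≤ _
  have h1 : d * F * (((8 * d * n + d : ℕ) : ℝ) + d + 2 * (((8 * d * d : ℕ) : ℝ) * d))
      ≤ y ^ (27 * d ^ 4 * n) := by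
    have e1 : (((8 * d * n + d : ℕ) : ℝ) + d + 2 * (((8 * d * d : ℕ) : ℝ) * d))
        = ((8 * d * n + d + d + 2 * (8 * d * d * d) : ℕ) : ℝ) := by push_cast; ring
    rw [e1]
    calc (d : ℝ) * F * ((8 * d * n + d + d + 2 * (8 * d * d * d) : ℕ) : ℝ)
        ≤ y ^ d * y * y ^ (8 * d * n + d + d + 2 * (8 * d * d * d)) := by
          refine mul_le_mul ?_ (natCast_le_pow _ y hy) (by positivity) (by positivity)
          exact mul_le_mul (natCast_le_pow _ y hy) hF hF0 (by positivity)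
      _ = y ^ (d + 1 + (8 * d * n + d + d + 2 * (8 * d * d * d))) := by
          rw [← pow_succ, ← pow_add]
      _ ≤ y ^ (27 * d ^ 4 * n) := by
          apply pow_le_pow_right₀ hy1
          have e2 : d ≤ d ^ 4 := Nat.le_self_pow (by norm_num) d
          have e3 : d ^ 3 ≤ d ^ 4 := Nat.pow_le_pow_right (by omega) (by norm_num)
          have e4 : d ≤ d * n := Nat.le_mul_of_pos_right _ (by omega)
          have e5 : d * n ≤ d ^ 3 * n := Nat.mul_le_mul_right _ (Nat.le_self_pow (by norm_num) d)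
          have e6 : d ^ 3 ≤ d ^ 3 * n := Nat.le_mul_of_pos_right _ (by omega)
          have e7 : 9 * (d * n) ≤ d ^ 3 * n := by
            have : 9 * d ≤ d ^ 3 := by
              calc 9 * d ≤ (d * d) * d := Nat.mul_le_mul_right _ (by nlinarith)
                _ = d ^ 3 := by ring
            calc 9 * (d * n) = (9 * d) * n := by ring
              _ ≤ d ^ 3 * n := Nat.mul_le_mul_right _ this
          have e8 : 27 * (d ^ 3 * n) ≤ 27 * d ^ 4 * n := by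
            calc 27 * (d ^ 3 * n) = 27 * d ^ 3 * n := by ring
              _ ≤ 27 * d ^ 4 * n := Nat.mul_le_mul_right _ (Nat.mul_le_mul_left _ e3)
          refine le_trans ?_ e8
          have e9 : d + 1 + (8 * d * n + d + d + 2 * (8 * d * d * d))
              = 3 * d + 1 + 8 * (d * n) + 16 * d ^ 3 := by ring
          rw [e9]
          omega
  have h1' : 0 ≤ d * F * (((8 * d * n + d : ℕ) : ℝ) + d + 2 * (((8 * d * d : ℕ) : ℝ) * d)) := by
    positivity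
  have h2 : ((d * F * (((8 * d * n + d : ℕ) : ℝ) + d + 2 * (((8 * d * d : ℕ) : ℝ) * d)))
      ^ (8 * d * d) * A) ^ (8 * d * d)
        ≤ y ^ ((27 * d ^ 4 * (8 * d * d) + 1240 * d ^ 4) * (8 * d * d) * n) := by
    calc ((d * F * (((8 * d * n + d : ℕ) : ℝ) + d + 2 * (((8 * d * d : ℕ) : ℝ) * d)))
          ^ (8 * d * d) * A) ^ (8 * d * d)
        ≤ ((y ^ (27 * d ^ 4 * n)) ^ (8 * d * d) * y ^ (1240 * d ^ 4 * n)) ^ (8 * d * d) := by
          refine pow_le_pow_left₀ (by positivity) ?_ _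
          exact mul_le_mul (pow_le_pow_left₀ h1' h1 _) hA hA0 (by positivity)
      _ = y ^ ((27 * d ^ 4 * n * (8 * d * d) + 1240 * d ^ 4 * n) * (8 * d * d)) := by
          rw [← pow_mul, ← pow_add, ← pow_mul]
      _ = y ^ ((27 * d ^ 4 * (8 * d * d) + 1240 * d ^ 4) * (8 * d * d) * n) := by
          congr 1; ring
  calc ((m0 d).factorial : ℝ) * ((((8 * d * d).factorial : ℕ) : ℝ) *
        ((d * F * (((8 * d * n + d : ℕ) : ℝ) + d + 2 * (((8 * d * d : ℕ) : ℝ) * d))) ^ (8 * d * d)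
        * A) ^ (8 * d * d)) ^ (m0 d)
      ≤ y ^ ((m0 d).factorial) * (y ^ ((8 * d * d).factorial) *
        y ^ ((27 * d ^ 4 * (8 * d * d) + 1240 * d ^ 4) * (8 * d * d) * n)) ^ (m0 d) := by
        refine mul_le_mul (natCast_le_pow _ y hy) ?_ (by positivity) (by positivity)
        refine pow_le_pow_left₀ (by positivity) ?_ _
        exact mul_le_mul (natCast_le_pow _ y hy) h2 (by positivity) (by positivity)
    _ = y ^ ((m0 d).factorial + ((8 * d * d).factorial +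
        (27 * d ^ 4 * (8 * d * d) + 1240 * d ^ 4) * (8 * d * d) * n) * m0 d) := by
        rw [← pow_add, ← pow_mul, ← pow_add]
    _ ≤ y ^ (cZ d * n) := by
        apply pow_le_pow_right₀ hy1
        unfold cZ
        have e1 : (m0 d).factorial ≤ (m0 d).factorial * n := Nat.le_mul_of_pos_right _ (by omega)
        have e2 : (8 * d * d).factorial ≤ (8 * d * d).factorial * n :=
          Nat.le_mul_of_pos_right _ (by omega)
        calc (m0 d).factorial + ((8 * d * d).factorial +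
              (27 * d ^ 4 * (8 * d * d) + 1240 * d ^ 4) * (8 * d * d) * n) * m0 d
            ≤ (m0 d).factorial * n + ((8 * d * d).factorial * n +
              (27 * d ^ 4 * (8 * d * d) + 1240 * d ^ 4) * (8 * d * d) * n) * m0 d := by
              gcongr
          _ = ((m0 d).factorial + ((8 * d * d).factorial +
              (27 * d ^ 4 * (8 * d * d) + 1240 * d ^ 4) * (8 * d * d)) * m0 d) * n := by ring

end Pool.Agent.H20
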