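import Pool.Agent.H20.Ded2

set_option autoImplicit false

namespace Pool.Agent.H20

open Polynomial Finset

/-- bound for the total degree -/
def Tot (p : ℤ[X][X]) (d : ℕ) : Prop := ∀ i j, d < i + j → (p.coeff j).coeff i = 0

lemma Tot.mul {p q : ℤ[X][X]} {a b : ℕ} (hp : Tot p a) (hq : Tot q b) : Tot (p * q) (a + b) := by
  intro i j hij
  rw [coeff_mul, finsetSum_coeff]
  refine Finset.sum_eq_zero (fun x hx => ?_)
  rw [coeff_mul]
  refine Finset.sum_eq_zero (fun w hw => ?_)
  have hx' := HasAntidiagonal.mem_antidiagonal.mp hx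
  have hw' := HasAntidiagonal.mem_antidiagonal.mp hw
  by_cases h : a < w.1 + x.1
  · rw [hp _ _ h, zero_mul]
  · rw [hq _ _ (by omega), mul_zero]

lemma Tot.add {p q : ℤ[X][X]} {a : ℕ} (hp : Tot p a) (hq : Tot q a) : Tot (p + q) a := by
  intro i j hij
  rw [coeff_add, coeff_add, hp _ _ hij, hq _ _ hij, add_zero]

lemma Tot.mono {p : ℤ[X][X]} {a b : ℕ} (hp : Tot p a) (h : a ≤ b) : Tot p b :=
  fun i j hij => hp i j (by omega)

lemma Tot.sum {ι : Type*} (s : Finset ι) (f : ι → ℤ[X][X]) (a : ℕ) (h : ∀ i ∈ s, Tot (f i) a) :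
    Tot (∑ i ∈ s, f i) a := by
  intro i j hij
  rw [finsetSum_coeff, finsetSum_coeff]
  exact Finset.sum_eq_zero (fun x hx => h x hx i j hij)

lemma Tot.C (z : ℤ) : Tot (Polynomial.C (Polynomial.C z)) 0 := by
  intro i j hij
  rw [coeff_C]
  split_ifs with h
  · rw [coeff_C, if_neg (by omega)]
  · simp

lemma Tot.pow {p : ℤ[X][X]} {a : ℕ} (hp : Tot p a) (n : ℕ) : Tot (p ^ n) (n * a) := by
  induction n with
  | zero =>
    have h := Tot.C 1
    simpa using h
  | succ n ih =>
    rw [pow_succ, Nat.succ_mul]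
    exact ih.mul hp

lemma Tot.X : Tot (Polynomial.X : ℤ[X][X]) 1 := by
  intro i j hij
  rw [coeff_X]
  split_ifs with h
  · rw [coeff_one, if_neg (by omega)]
  · simp

lemma Tot.CX : Tot (Polynomial.C Polynomial.X : ℤ[X][X]) 1 := by
  intro i j hij
  rw [coeff_C]
  split_ifs with h
  · rw [coeff_X, if_neg (by omega)]
  · simp

/-- the change of variables `x ↦ x + k y` into bivariate polynomials -/
noncomputable def shear (k : ℤ) : MvPolynomial (Fin 2) ℤ →+* ℤ[X][X] :=
  MvPolynomial.eval₂Hom (Int.castRingHom ℤ[X][X]) ![C X + C (C k) * X, X]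

/-- inverse of `shear` -/
noncomputable def unshear (k : ℤ) : ℤ[X][X] →+* MvPolynomial (Fin 2) ℤ :=
  eval₂RingHom (eval₂RingHom (Int.castRingHom (MvPolynomial (Fin 2) ℤ))
    (MvPolynomial.X 0 - MvPolynomial.C k * MvPolynomial.X 1)) (MvPolynomial.X 1)

lemma shear_X0 (k : ℤ) : shear k (MvPolynomial.X 0) = C X + C (C k) * X := by
  simp [shear]

lemma shear_X1 (k : ℤ) : shear k (MvPolynomial.X 1) = X := by
  simp [shear]

lemma unshear_CX (k : ℤ) : unshear k (C X)
    = MvPolynomial.X 0 - MvPolynomial.C k * MvPolynomial.X 1 := by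
  simp [unshear]

lemma unshear_X (k : ℤ) : unshear k X = MvPolynomial.X 1 := by
  simp [unshear]

lemma unshear_shear (k : ℤ) : (unshear k).comp (shear k) = RingHom.id _ := by
  apply MvPolynomial.ringHom_ext
  · intro r
    have h1 : (MvPolynomial.C r : MvPolynomial (Fin 2) ℤ) = ((r : ℤ) : MvPolynomial (Fin 2) ℤ) := by
      simp
    rw [h1, map_intCast, map_intCast]
  · intro i
    have h2 : (C (C k) : ℤ[X][X]) = ((k : ℤ) : ℤ[X][X]) := by simp
    have h3 : (MvPolynomial.C k : MvPolynomial (Fin 2) ℤ) = ((k : ℤ) : MvPolynomial (Fin 2) ℤ) := by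
      simp
    fin_cases i
    · change unshear k (shear k (MvPolynomial.X 0)) = MvPolynomial.X 0
      rw [shear_X0, map_add, map_mul, unshear_CX, unshear_X, h2, h3, map_intCast]
      ring
    · change unshear k (shear k (MvPolynomial.X 1)) = MvPolynomial.X 1
      rw [shear_X1, unshear_X]

lemma shear_unshear (k : ℤ) : (shear k).comp (unshear k) = RingHom.id _ := by
  have h2 : (C (C k) : ℤ[X][X]) = ((k : ℤ) : ℤ[X][X]) := by simp
  have h3 : (MvPolynomial.C k : MvPolynomial (Fin 2) ℤ) = ((k : ℤ) : MvPolynomial (Fin 2) ℤ) := by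
    simp
  apply Polynomial.ringHom_ext'
  · apply Polynomial.ringHom_ext'
    · exact RingHom.ext_int _ _
    · change shear k (unshear k (C X)) = C X
      rw [unshear_CX, map_sub, map_mul, shear_X0, shear_X1, h2, h3, map_intCast]
      ring
  · change shear k (unshear k X) = X
    rw [unshear_X, shear_X1]

/-- `shear` as an equivalence -/
noncomputable def shearEquiv (k : ℤ) : MvPolynomial (Fin 2) ℤ ≃+* ℤ[X][X] :=
  RingEquiv.ofRingHom (shear k) (unshear k) (shear_unshear k) (unshear_shear k)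

lemma shear_irreducible (k : ℤ) (F : MvPolynomial (Fin 2) ℤ) (hF : Irreducible F) :
    Irreducible (shear k F) :=
  (MulEquiv.irreducible_iff (shearEquiv k)).mpr hF

lemma shear_monomial (k : ℤ) (m : Fin 2 →₀ ℕ) (a : ℤ) :
    shear k (MvPolynomial.monomial m a) = C (C a) * (C X + C (C k) * X) ^ m 0 * X ^ m 1 := by
  have h1 : (MvPolynomial.C a : MvPolynomial (Fin 2) ℤ) = ((a : ℤ) : MvPolynomial (Fin 2) ℤ) := by
    simp
  have h2 : (C (C a) : ℤ[X][X]) = ((a : ℤ) : ℤ[X][X]) := by simp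
  rw [MvPolynomial.monomial_fin_two, map_mul, map_mul, map_pow, map_pow, shear_X0, shear_X1,
    h1, map_intCast, h2]

lemma shear_eq_sum (k : ℤ) (F : MvPolynomial (Fin 2) ℤ) :
    shear k F = ∑ m ∈ F.support, C (C (F.coeff m)) * (C X + C (C k) * X) ^ m 0 * X ^ m 1 := by
  conv_lhs => rw [F.as_sum]
  rw [map_sum]
  exact Finset.sum_congr rfl (fun m _ => shear_monomial k m _)

lemma fin2_degree (m : Fin 2 →₀ ℕ) : m.degree = m 0 + m 1 := by
  rw [Finsupp.degree_eq_sum, Fin.sum_univ_two]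

lemma shear_tot (k : ℤ) (F : MvPolynomial (Fin 2) ℤ) (d : ℕ) (hF : F.totalDegree ≤ d) :
    Tot (shear k F) d := by
  rw [shear_eq_sum]
  refine Tot.sum _ _ _ (fun m hm => ?_)
  have h1 : m 0 + m 1 ≤ d := by
    rw [← fin2_degree]
    refine le_trans ?_ hF
    exact MvPolynomial.le_totalDegree hm
  have hlin : Tot (C X + C (C k) * X : ℤ[X][X]) 1 := by
    refine Tot.CX.add ?_
    have := (Tot.C k).mul Tot.X
    simpa using this
  have h2 := ((Tot.C (F.coeff m)).mul (hlin.pow (m 0))).mul (Tot.X.pow (m 1))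
  refine h2.mono ?_
  omega

/-- A polynomial of total degree at most `d` is given by its coefficients. -/
lemma Tot.eq_fP {p : ℤ[X][X]} {d : ℕ} (hp : Tot p d) :
    p = fP d (fun i j => (p.coeff j).coeff i) := by
  ext j i
  rw [fP_coeff]
  split_ifs with h
  · rw [finsetSum_coeff]
    simp only [coeff_monomial]
    rw [Finset.sum_ite_eq']
    split_ifs with h1
    · rfl
    · rw [Finset.mem_range] at h1
      exact hp _ _ (by omega)
  · rw [coeff_zero]
    exact hp _ _ (by omega)

end Pool.Agent.H20
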