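import Pool.Agent.H20.Gen1

set_option autoImplicit false

namespace Pool.Agent.H20

open Polynomial Finset

section

variable {R : Type*} [CommRing R]

/-- evaluation at `(u, v)` -/
noncomputable def evR (u v : R) : ℤ[X][X] →+* R :=
  eval₂RingHom (eval₂RingHom (Int.castRingHom R) u) v

lemma evR_CX (u v : R) : evR u v (C X) = u := by simp [evR]

lemma evR_X (u v : R) : evR u v X = v := by simp [evR]

lemma evR_fP (d : ℕ) (c : ℕ → ℕ → ℤ) (u v : R) :
    evR u v (fP d c) = ∑ j ∈ range (d + 1), ∑ i ∈ range (d + 1 - j), (c i j : R) * u ^ i * v ^ j := by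
  unfold fP
  rw [map_sum]
  refine Finset.sum_congr rfl (fun j _ => ?_)
  rw [← C_mul_X_pow_eq_monomial, map_mul, map_pow, evR_X, map_sum, map_sum, Finset.sum_mul]
  refine Finset.sum_congr rfl (fun i _ => ?_)
  rw [← C_mul_X_pow_eq_monomial, map_mul, map_pow, map_mul, map_pow, evR_CX]
  congr 2
  have : (C (C (c i j)) : ℤ[X][X]) = ((c i j : ℤ) : ℤ[X][X]) := by simp
  rw [this, map_intCast]

lemma evR_shear (k : ℤ) (u v : R) (F : MvPolynomial (Fin 2) ℤ) :
    evR u v (shear k F) = MvPolynomial.eval₂ (Int.castRingHom R) ![u + k * v, v] F := by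
  have h : (evR u v).comp (shear k) = MvPolynomial.eval₂Hom (Int.castRingHom R) ![u + k * v, v] := by
    apply MvPolynomial.ringHom_ext
    · intro r
      have h1 : (MvPolynomial.C r : MvPolynomial (Fin 2) ℤ) = ((r : ℤ) : MvPolynomial (Fin 2) ℤ) := by
        simp
      rw [h1, map_intCast, map_intCast]
    · intro i
      have h2 : (C (C k) : ℤ[X][X]) = ((k : ℤ) : ℤ[X][X]) := by simp
      fin_cases i
      · change evR u v (shear k (MvPolynomial.X 0)) = _
        rw [shear_X0, map_add, map_mul, evR_CX, evR_X, h2, map_intCast]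
        simp
      · change evR u v (shear k (MvPolynomial.X 1)) = _
        rw [shear_X1, evR_X]
        simp
  exact RingHom.congr_fun h F

lemma lead_coeff (d : ℕ) (c : ℕ → ℕ → ℤ) (u v : R) :
    (evR (C u * X) (C v * X) (fP d c)).coeff d
      = ∑ j ∈ range (d + 1), (c (d - j) j : R) * u ^ (d - j) * v ^ j := by
  rw [evR_fP, finsetSum_coeff]
  refine Finset.sum_congr rfl (fun j hj => ?_)
  have hj' := Finset.mem_range.mp hj
  have hterm : ∀ i, ((c i j : ℤ) : R[X]) * (C u * X) ^ i * (C v * X) ^ j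
      = C ((c i j : R) * u ^ i * v ^ j) * X ^ (i + j) := by
    intro i
    have : ((c i j : ℤ) : R[X]) = C (c i j : R) := by simp
    rw [this, mul_pow, mul_pow, C_mul, C_mul, C_pow, C_pow, pow_add]
    ring
  rw [finsetSum_coeff, Finset.sum_eq_single (d - j)]
  · rw [hterm, coeff_C_mul, coeff_X_pow, if_pos (by omega), mul_one]
  · intro i hi hne
    rw [hterm, coeff_C_mul, coeff_X_pow, if_neg, mul_zero]
    have := Finset.mem_range.mp hi
    omega
  · intro h
    exact absurd (Finset.mem_range.mpr (by omega)) h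

lemma coeff_homog (F : MvPolynomial (Fin 2) ℤ) (d : ℕ) (u v : R) :
    (MvPolynomial.eval₂ (Int.castRingHom R[X]) ![C u * X, C v * X] F).coeff d
      = MvPolynomial.eval₂ (Int.castRingHom R) ![u, v] (MvPolynomial.homogeneousComponent d F) := by
  have hmon : ∀ (m : Fin 2 →₀ ℕ) (a : ℤ),
      (MvPolynomial.eval₂ (Int.castRingHom R[X]) ![C u * X, C v * X]
        (MvPolynomial.monomial m a)).coeff d
      = MvPolynomial.eval₂ (Int.castRingHom R) ![u, v]
        (MvPolynomial.homogeneousComponent d (MvPolynomial.monomial m a)) := by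
    intro m a
    rw [MvPolynomial.homogeneousComponent_of_mem (MvPolynomial.isHomogeneous_monomial a rfl),
      MvPolynomial.monomial_fin_two]
    have h1 : MvPolynomial.eval₂ (Int.castRingHom R[X]) ![C u * X, C v * X]
        (MvPolynomial.C a * MvPolynomial.X 0 ^ m 0 * MvPolynomial.X 1 ^ m 1)
        = C ((a : R) * u ^ m 0 * v ^ m 1) * X ^ (m 0 + m 1) := by
      rw [MvPolynomial.eval₂_mul, MvPolynomial.eval₂_mul, MvPolynomial.eval₂_pow,
        MvPolynomial.eval₂_pow, MvPolynomial.eval₂_C, MvPolynomial.eval₂_X, MvPolynomial.eval₂_X]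
      simp only [Matrix.cons_val_zero, Matrix.cons_val_one]
      have : (Int.castRingHom R[X]) a = C (a : R) := by simp
      rw [this, mul_pow, mul_pow, C_mul, C_mul, C_pow, C_pow, pow_add]
      ring
    rw [h1, coeff_C_mul, coeff_X_pow, fin2_degree]
    split_ifs with h
    · rw [MvPolynomial.eval₂_mul, MvPolynomial.eval₂_mul, MvPolynomial.eval₂_pow,
        MvPolynomial.eval₂_pow, MvPolynomial.eval₂_C, MvPolynomial.eval₂_X, MvPolynomial.eval₂_X]
      simp
    · rw [mul_zero, MvPolynomial.eval₂_zero]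
  conv_lhs => rw [F.as_sum]
  conv_rhs => rw [F.as_sum]
  rw [MvPolynomial.eval₂_sum, finsetSum_coeff, map_sum, MvPolynomial.eval₂_sum]
  exact Finset.sum_congr rfl (fun m _ => hmon m _)

end

/-- coefficients after a change of variables -/
noncomputable def cf (k : ℤ) (F : MvPolynomial (Fin 2) ℤ) (i j : ℕ) : ℤ :=
  ((shear k F).coeff j).coeff i

lemma shear_eq_fP (k : ℤ) (F : MvPolynomial (Fin 2) ℤ) (d : ℕ) (hF : F.totalDegree ≤ d) :
    shear k F = fP d (cf k F) := (shear_tot k F d hF).eq_fP

lemma lead_cf {R : Type*} [CommRing R] (k : ℤ) (F : MvPolynomial (Fin 2) ℤ) (d : ℕ)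
    (hF : F.totalDegree ≤ d) (u v : R) :
    ∑ j ∈ range (d + 1), (cf k F (d - j) j : R) * u ^ (d - j) * v ^ j
      = MvPolynomial.eval₂ (Int.castRingHom R) ![u + k * v, v]
        (MvPolynomial.homogeneousComponent d F) := by
  rw [← lead_coeff, ← shear_eq_fP k F d hF, evR_shear, ← coeff_homog]
  congr 4
  have : ((k : ℤ) : R[X]) = C (k : R) := by simp
  rw [this, C_add, C_mul]
  ring

/-- make the polynomial monic -/
def mon (d : ℕ) (c : ℕ → ℕ → ℤ) (i j : ℕ) : ℤ :=
  if j = d then (if i = 0 then 1 else 0) else c i j * (c 0 d) ^ (d - 1 - j)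

lemma mon_top (d : ℕ) (c : ℕ → ℕ → ℤ) : mon d c 0 d = 1 := by simp [mon]

lemma mon_comp (d : ℕ) (hd : 1 ≤ d) (c : ℕ → ℕ → ℤ) :
    (fP d (mon d c)).comp (C (C (c 0 d)) * X) = C (C ((c 0 d) ^ (d - 1))) * fP d c := by
  ext1 j
  rw [comp_C_mul_X_coeff, coeff_C_mul, fP_coeff, fP_coeff]
  split_ifs with h
  · rw [Finset.sum_mul, Finset.mul_sum]
    refine Finset.sum_congr rfl (fun i hi => ?_)
    have hi' := Finset.mem_range.mp hi
    rw [← C_pow, monomial_mul_C, C_mul_monomial]
    congr 1
    unfold mon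
    by_cases hj : j = d
    · have hi0 : i = 0 := by omega
      subst hj
      subst hi0
      simp only [if_true, one_mul]
      rw [← pow_succ]
      congr 1
      omega
    · rw [if_neg hj, mul_assoc, ← pow_add]
      have : d - 1 - j + j = d - 1 := by omega
      rw [this]
      ring
  · simp

lemma fP_natDegree' (d : ℕ) (c : ℕ → ℕ → ℤ) (h : c 0 d ≠ 0) : (fP d c).natDegree = d := by
  refine le_antisymm (fP_deg2 d c).2 (le_natDegree_of_ne_zero ?_)
  rw [fP_coeff, if_pos (by omega)]
  have : d + 1 - d = 1 := by omega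
  rw [this, Finset.sum_range_one]
  simpa using h

lemma mon_irreducible (d : ℕ) (hd : 1 ≤ d) (c : ℕ → ℕ → ℤ) (h : c 0 d ≠ 0)
    (hirr : Irreducible (fP d c)) : Irreducible (fP d (mon d c)) := by
  have hm := fP_monic d (mon d c) (mon_top d c)
  have hdeg := fP_natDegree d (mon d c) (mon_top d c)
  rw [hm.irreducible_iff_natDegree]
  refine ⟨?_, ?_⟩
  · intro h1
    rw [h1, natDegree_one] at hdeg
    omega
  · intro f g hf hg hfg
    have hprime : Prime (fP d c) := hirr.prime
    have hcomp := mon_comp d hd c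
    rw [← hfg, mul_comp] at hcomp
    have hdvd : fP d c ∣ f.comp (C (C (c 0 d)) * X) * g.comp (C (C (c 0 d)) * X) := by
      rw [hcomp]; exact Dvd.intro_left _ rfl
    have hnd : ∀ q : ℤ[X][X], (q.comp (C (C (c 0 d)) * X)).natDegree = q.natDegree := by
      intro q
      rw [natDegree_comp, natDegree_C_mul_X _ (by simpa using h), mul_one]
    have hne : ∀ q : ℤ[X][X], q.Monic → q.comp (C (C (c 0 d)) * X) ≠ 0 := by
      intro q hq h0
      by_cases hq0 : q.natDegree = 0
      · rw [hq.natDegree_eq_zero.mp hq0, one_comp] at h0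
        exact one_ne_zero h0
      · apply hq0
        rw [← hnd q, h0, natDegree_zero]
    have hsum : f.natDegree + g.natDegree = d := by
      rw [← hdeg, ← hfg, hf.natDegree_mul hg]
    have hdc := fP_natDegree' d c h
    rcases hprime.dvd_or_dvd hdvd with h1 | h1
    · right
      have := natDegree_le_of_dvd h1 (hne f hf)
      rw [hnd, hdc] at this
      omega
    · left
      have := natDegree_le_of_dvd h1 (hne g hg)
      rw [hnd, hdc] at this
      omega

end Pool.Agent.H20
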