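import Pool.Agent.H20.Gen3

set_option autoImplicit false

namespace Pool.Agent.H20

open Polynomial Finset NumberField

/-- The bound for all irreducible polynomials whose leading form splits over `K`. -/
theorem general_bound (d : ℕ) (hd : 3 ≤ d) (K : Type) [Field K] [NumberField K] :
    ∃ A : ℝ, 1 ≤ A ∧ ∀ F : MvPolynomial (Fin 2) ℤ, Irreducible F → F.totalDegree ≤ d →
      ∀ u v : Fin d → K, LeadSplits K d F u v →
      ∀ x y : ℤ, MvPolynomial.eval ![x, y] F = 0 →
        |(x : ℝ)| ≤ A * HF F ^ (d * (kap d + 1)) ∧ |(y : ℝ)| ≤ A * HF F ^ (d * (kap d + 1)) := by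
  obtain ⟨A, hA1, hA⟩ := monic_case K d hd
  refine ⟨(1 + d) * (A * ((1 + d) ^ d) ^ (d * (kap d + 1))), ?_, ?_⟩
  · have h1 : (1 : ℝ) ≤ 1 + d := by
      have : (0 : ℝ) ≤ d := by positivity
      linarith
    exact one_le_mul_of_one_le_of_one_le h1
      (one_le_mul_of_one_le_of_one_le hA1 (one_le_pow₀ (one_le_pow₀ h1)))
  intro F hirr hF u v hL x y hxy
  have hd1 : 1 ≤ d := by omega
  obtain ⟨k, hkd, hk0⟩ := exists_shear d (by omega) F hF u v hL
  have hk0' : cf (k : ℤ) F 0 d ≠ 0 := hk0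
  set c := cf (k : ℤ) F with hc
  have hirr2 : Irreducible (fP d c) := by
    rw [hc, ← shear_eq_fP k F d hF]
    exact shear_irreducible k F hirr
  have hirr3 := mon_irreducible d hd1 c hk0' hirr2
  -- the point
  have h1 : evalEval (x - k * y) y (fP d c) = 0 := by
    have h2 := evR_shear (R := ℤ) (k : ℤ) (x - k * y) y F
    rw [shear_eq_fP k F d hF, Int.cast_id] at h2
    have h3 : MvPolynomial.eval₂ (Int.castRingHom ℤ) ![x - k * y + (k : ℤ) * y, y] F = 0 := by
      have h4 : (x - k * y + (k : ℤ) * y) = x := by ring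
      rw [h4, ← hxy]
      have h5 : (Int.castRingHom ℤ) = RingHom.id ℤ := RingHom.ext_int _ _
      rw [h5, MvPolynomial.eval₂_id]
    rw [h3] at h2
    rw [← h2]
    have h6 : (Int.castRingHom ℤ) = RingHom.id ℤ := RingHom.ext_int _ _
    unfold evR evalEval
    rw [h6, coe_eval₂RingHom]
    have h7 : (eval₂RingHom (RingHom.id ℤ) (x - k * y)) = evalRingHom (x - k * y) := by
      ext <;> simp
    rw [h7, eval₂_evalRingHom]
  have h2 : evalEval (x - k * y) (c 0 d * y) (fP d (mon d c)) = 0 := by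
    have h3 := congrArg (evalEval (x - k * y) y) (mon_comp d hd1 c)
    rw [evalEval_mul, h1, mul_zero] at h3
    rw [← h3]
    unfold evalEval
    rw [eval_comp]
    simp
  obtain ⟨ha, hb⟩ := hA (mon d c) (mon_top d c) hirr3
    (ld_mon_splits d hd1 k F hF u v hL hk0') (ld_mon_simple d hd1 k F hF u v hL hk0')
    (x - k * y) (c 0 d * y) h2
  -- sizes
  have hH0 : 0 ≤ HF F := Finset.sum_nonneg (fun _ _ => abs_nonneg _)
  have hS1 : hS d (mon d c) ≤ ((1 + d) ^ d * HF F) ^ d :=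
    (hS_mon_le d hd1 c hk0').trans
      (pow_le_pow_left₀ (hS_nonneg _ _) (hS_cf_le k F d hF hkd) _)
  have hS2 : (1 : ℝ) ≤ hS d (mon d c) := one_le_hS d _ (mon_top d c)
  set X := A * (((1 + d) ^ d) ^ (d * (kap d + 1)) * HF F ^ (d * (kap d + 1))) with hX
  have hpow : A * hS d (mon d c) ^ (kap d + 1) ≤ X := by
    rw [hX]
    refine mul_le_mul_of_nonneg_left ?_ (by linarith)
    calc hS d (mon d c) ^ (kap d + 1) ≤ (((1 + d) ^ d * HF F) ^ d) ^ (kap d + 1) :=
          pow_le_pow_left₀ (hS_nonneg _ _) hS1 _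
      _ = ((1 + d) ^ d) ^ (d * (kap d + 1)) * HF F ^ (d * (kap d + 1)) := by
          rw [← pow_mul, mul_pow]
  have ha' : |((x - k * y : ℤ) : ℝ)| ≤ X := by
    refine ha.trans (le_trans ?_ hpow)
    refine mul_le_mul_of_nonneg_left ?_ (by linarith)
    exact pow_le_pow_right₀ hS2 (by omega)
  have hb' : |(y : ℝ)| ≤ X := by
    refine le_trans ?_ (hb.trans hpow)
    push_cast
    rw [abs_mul]
    have : (1 : ℝ) ≤ |(c 0 d : ℝ)| := by exact_mod_cast Int.one_le_abs hk0'
    nlinarith [abs_nonneg (y : ℝ)]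
  have hX0 : 0 ≤ X := (abs_nonneg _).trans hb'
  have hx' : |(x : ℝ)| ≤ (1 + d) * X := by
    have h3 : (x : ℝ) = ((x - k * y : ℤ) : ℝ) + k * y := by push_cast; ring
    have hkR : (k : ℝ) ≤ d := by exact_mod_cast hkd
    calc |(x : ℝ)| = |((x - k * y : ℤ) : ℝ) + k * y| := by rw [← h3]
      _ ≤ |((x - k * y : ℤ) : ℝ)| + |(k : ℝ) * y| := abs_add_le _ _
      _ = |((x - k * y : ℤ) : ℝ)| + k * |(y : ℝ)| := by
          rw [abs_mul, abs_of_nonneg (by positivity : (0 : ℝ) ≤ k)]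
      _ ≤ X + d * X := add_le_add ha' (mul_le_mul hkR hb' (abs_nonneg _) (by positivity))
      _ = (1 + d) * X := by ring
  have e1 : (1 + d) * (A * ((1 + d) ^ d) ^ (d * (kap d + 1))) * HF F ^ (d * (kap d + 1))
      = (1 + d) * X := by rw [hX]; ring
  rw [e1]
  refine ⟨hx', hb'.trans ?_⟩
  have : (0 : ℝ) ≤ d := by positivity
  nlinarith

end Pool.Agent.H20
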