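import Mathlib

set_option autoImplicit false

namespace Pool.Agent.H20

open PowerSeries Finset

/-- If `q ≠ 0` and `q p' = p q'` then `p` is a constant multiple of `q`. -/
lemma exists_const_of_wronskian_zero (p q : ℚ⟦X⟧) (hq : q ≠ 0)
    (h : q * d⁄dX ℚ p = p * d⁄dX ℚ q) : ∃ c : ℚ, p = PowerSeries.C c * q := by
  classical
  -- decomposition of a nonzero power series
  have hdec : ∀ r : ℚ⟦X⟧, r ≠ 0 → ∃ (n : ℕ) (s : ℚ⟦X⟧), constantCoeff s ≠ 0 ∧ r = X ^ n * s := by
    intro r hr
    refine ⟨r.order.toNat, r.divXPowOrder, ?_, ?_⟩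
    · rw [PowerSeries.constantCoeff_divXPowOrder]
      exact PowerSeries.coeff_order hr
    · exact (PowerSeries.X_pow_order_mul_divXPowOrder).symm
  obtain ⟨n, s, hs, rfl⟩ := hdec q hq
  set c : ℚ := coeff n p / constantCoeff s with hc
  refine ⟨c, ?_⟩
  by_contra hne
  set p₁ := p - PowerSeries.C c * (X ^ n * s) with hp₁
  have hp₁0 : p₁ ≠ 0 := sub_ne_zero.mpr hne
  have hcoef : coeff n p₁ = 0 := by
    rw [hp₁, map_sub, PowerSeries.coeff_C_mul, PowerSeries.coeff_X_pow_mul', if_pos le_rfl]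
    simp only [Nat.sub_self, coeff_zero_eq_constantCoeff_apply]
    rw [hc]
    field_simp
    ring
  have h1 : (X ^ n * s) * d⁄dX ℚ p₁ = p₁ * d⁄dX ℚ (X ^ n * s) := by
    rw [hp₁, map_sub, sub_mul, mul_sub, h]
    simp only [Derivation.leibniz, smul_eq_mul, PowerSeries.derivative_C]
    ring
  obtain ⟨m, t, ht, hpt⟩ := hdec p₁ hp₁0
  have hmn : m ≠ n := by
    rintro rfl
    rw [hpt, PowerSeries.coeff_X_pow_mul', if_pos le_rfl] at hcoef
    simp only [Nat.sub_self, coeff_zero_eq_constantCoeff_apply] at hcoef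
    exact ht hcoef
  -- Euler operator
  have heuler : ∀ (k : ℕ) (r : ℚ⟦X⟧), X * d⁄dX ℚ (X ^ k * r)
      = X ^ k * ((k : ℚ⟦X⟧) * r + X * d⁄dX ℚ r) := by
    intro k r
    rw [Derivation.leibniz, Derivation.leibniz_pow]
    simp only [smul_eq_mul, PowerSeries.derivative_X, mul_one, nsmul_eq_mul]
    rcases Nat.eq_zero_or_pos k with rfl | hk
    · simp
    · obtain ⟨j, rfl⟩ : ∃ j, k = j + 1 := ⟨k - 1, by omega⟩
      simp only [Nat.add_sub_cancel]
      ring
  have h2 : X * ((X ^ n * s) * d⁄dX ℚ p₁) = X * (p₁ * d⁄dX ℚ (X ^ n * s)) := by rw [h1]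
  rw [hpt] at h2
  have h3 : (X : ℚ⟦X⟧) ^ (n + m) * (s * ((m : ℚ⟦X⟧) * t + X * d⁄dX ℚ t))
      = X ^ (n + m) * (t * ((n : ℚ⟦X⟧) * s + X * d⁄dX ℚ s)) := by
    have e1 := heuler m t
    have e2 := heuler n s
    calc (X : ℚ⟦X⟧) ^ (n + m) * (s * ((m : ℚ⟦X⟧) * t + X * d⁄dX ℚ t))
        = (X ^ n * s) * (X ^ m * ((m : ℚ⟦X⟧) * t + X * d⁄dX ℚ t)) := by ring
      _ = (X ^ n * s) * (X * d⁄dX ℚ (X ^ m * t)) := by rw [e1]
      _ = X * (X ^ n * s * d⁄dX ℚ (X ^ m * t)) := by ring
      _ = X * (X ^ m * t * d⁄dX ℚ (X ^ n * s)) := h2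
      _ = (X ^ m * t) * (X * d⁄dX ℚ (X ^ n * s)) := by ring
      _ = X ^ (n + m) * (t * ((n : ℚ⟦X⟧) * s + X * d⁄dX ℚ s)) := by rw [e2]; ring
  have h4 := mul_left_cancel₀ (pow_ne_zero _ PowerSeries.X_ne_zero) h3
  have h5 := congrArg (fun z => constantCoeff z) h4
  simp only [map_mul, map_add, PowerSeries.constantCoeff_X, zero_mul, add_zero,
    map_natCast] at h5
  have h6 : ((m : ℚ) - n) * (constantCoeff s * constantCoeff t) = 0 := by
    linear_combination h5
  rcases mul_eq_zero.mp h6 with h7 | h7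
  · exact hmn (by exact_mod_cast sub_eq_zero.mp h7)
  · rcases mul_eq_zero.mp h7 with h8 | h8
    · exact hs h8
    · exact ht h8

/-- The Wronskian matrix of a finite family with respect to a derivation. -/
noncomputable def wmat {P : Type*} [CommRing P] (D : P → P) {r : ℕ} (v : Fin r → P) :
    Matrix (Fin r) (Fin r) P :=
  Matrix.of fun i j => D^[(i : ℕ)] (v j)

lemma wmat_det_ne_zero (D : Derivation ℚ ℚ⟦X⟧ ℚ⟦X⟧)
    (hD : ∀ p q : ℚ⟦X⟧, q ≠ 0 → q * D p = p * D q → ∃ c : ℚ, p = PowerSeries.C c * q) :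
    ∀ (r : ℕ) (v : Fin r → ℚ⟦X⟧), LinearIndependent ℚ v → (wmat D v).det ≠ 0 := by
  intro r
  induction r with
  | zero => intro v _; simp
  | succ r ih =>
    intro v hv hdet
    obtain ⟨l, hl0, hl⟩ := Matrix.exists_mulVec_eq_zero_iff.mpr hdet
    have hv' : LinearIndependent ℚ (fun j : Fin r => v j.castSucc) :=
      hv.comp _ (Fin.castSucc_injective r)
    have hdet' := ih _ hv'
    -- rows
    have hrow : ∀ i : ℕ, i ≤ r → ∑ j : Fin (r + 1), l j * D^[i] (v j) = 0 := by
      intro i hi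
      have := congrFun hl ⟨i, by omega⟩
      simp only [Matrix.mulVec, dotProduct, wmat, Matrix.of_apply, Pi.zero_apply] at this
      rw [← this]
      exact Finset.sum_congr rfl (fun j _ => mul_comm _ _)
    -- injectivity of the smaller matrix
    have hinj : ∀ μ : Fin r → ℚ⟦X⟧,
        (∀ i : ℕ, i < r → ∑ j : Fin r, μ j * D^[i] (v j.castSucc) = 0) → μ = 0 := by
      intro μ hμ
      by_contra hne
      apply hdet'
      rw [← Matrix.exists_mulVec_eq_zero_iff]
      refine ⟨μ, hne, ?_⟩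
      funext i
      simp only [Matrix.mulVec, dotProduct, wmat, Matrix.of_apply, Pi.zero_apply]
      rw [← hμ i i.isLt]
      exact Finset.sum_congr rfl (fun j _ => mul_comm _ _)
    have hlast : l (Fin.last r) ≠ 0 := by
      intro h0
      apply hl0
      have h1 : (fun j : Fin r => l j.castSucc) = 0 := by
        apply hinj
        intro i hi
        have := hrow i (by omega)
        rw [Fin.sum_univ_castSucc, h0, zero_mul, add_zero] at this
        exact this
      funext j
      refine Fin.lastCases h0 (fun k => ?_) j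
      exact congrFun h1 k
    have hrow2 : ∀ i : ℕ, i < r → ∑ j : Fin (r + 1), D (l j) * D^[i] (v j) = 0 := by
      intro i hi
      have h1 := congrArg D (hrow i (by omega))
      rw [map_zero, map_sum] at h1
      have h2 := hrow (i + 1) (by omega)
      simp only [Function.iterate_succ_apply'] at h2
      have h3 : ∑ j : Fin (r + 1), D (l j * D^[i] (v j))
          = ∑ j : Fin (r + 1), D (l j) * D^[i] (v j)
            + ∑ j : Fin (r + 1), l j * D (D^[i] (v j)) := by
        rw [← Finset.sum_add_distrib]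
        refine Finset.sum_congr rfl (fun j _ => ?_)
        rw [Derivation.leibniz]
        simp only [smul_eq_mul]
        ring
      rw [h3, h2, add_zero] at h1
      exact h1
    have hμ : (fun j : Fin r => l (Fin.last r) * D (l j.castSucc)
        - l j.castSucc * D (l (Fin.last r))) = 0 := by
      apply hinj
      intro i hi
      have h1 := hrow i (by omega)
      have h2 := hrow2 i hi
      rw [Fin.sum_univ_castSucc] at h1 h2
      calc ∑ j : Fin r, (l (Fin.last r) * D (l j.castSucc)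
            - l j.castSucc * D (l (Fin.last r))) * D^[i] (v j.castSucc)
          = l (Fin.last r) * (∑ j : Fin r, D (l j.castSucc) * D^[i] (v j.castSucc))
            - D (l (Fin.last r)) * (∑ j : Fin r, l j.castSucc * D^[i] (v j.castSucc)) := by
            rw [Finset.mul_sum, Finset.mul_sum, ← Finset.sum_sub_distrib]
            exact Finset.sum_congr rfl (fun j _ => by ring)
        _ = l (Fin.last r) * (∑ j : Fin r, D (l j.castSucc) * D^[i] (v j.castSucc)
              + D (l (Fin.last r)) * D^[i] (v (Fin.last r)))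
            - D (l (Fin.last r)) * (∑ j : Fin r, l j.castSucc * D^[i] (v j.castSucc)
              + l (Fin.last r) * D^[i] (v (Fin.last r))) := by ring
        _ = 0 := by rw [h1, h2]; ring
    have hc : ∀ j : Fin r, ∃ c : ℚ, l j.castSucc = PowerSeries.C c * l (Fin.last r) := by
      intro j
      apply hD _ _ hlast
      exact sub_eq_zero.mp (congrFun hμ j)
    choose c hc using hc
    have h0 := hrow 0 (by omega)
    rw [Fin.sum_univ_castSucc] at h0
    simp only [Function.iterate_zero, id_eq, hc] at h0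
    have h1 : l (Fin.last r) * (∑ j : Fin r, PowerSeries.C (c j) * v j.castSucc
        + v (Fin.last r)) = 0 := by
      rw [← h0, mul_add, Finset.mul_sum]
      congr 1
      exact Finset.sum_congr rfl (fun j _ => by ring)
    have h2 := (mul_eq_zero.mp h1).resolve_left hlast
    rw [Fintype.linearIndependent_iff] at hv
    have h3 := hv (Fin.lastCases 1 c) (by
      rw [Fin.sum_univ_castSucc]
      simp only [Fin.lastCases_castSucc, Fin.lastCases_last, one_smul]
      rw [← h2]
      congr 1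
      exact Finset.sum_congr rfl (fun j _ => by rw [PowerSeries.smul_eq_C_mul])) (Fin.last r)
    simp at h3

lemma X_pow_dvd_iterate (g : ℚ⟦X⟧) (u : ℚ⟦X⟧) (J : ℕ) (h : X ^ J ∣ u) (i : ℕ) :
    X ^ (J - i) ∣ (g • d⁄dX ℚ : Derivation ℚ ℚ⟦X⟧ ℚ⟦X⟧)^[i] u := by
  induction i with
  | zero => simpa using h
  | succ i ih =>
    rw [Function.iterate_succ_apply']
    obtain ⟨w, hw⟩ := ih
    rw [hw]
    rcases Nat.eq_zero_or_pos (J - i) with h0 | h0
    · have : J - (i + 1) = 0 := by omega
      rw [this, pow_zero]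
      exact one_dvd _
    · obtain ⟨k, hk⟩ : ∃ k, J - i = k + 1 := ⟨J - i - 1, by omega⟩
      have hk' : J - (i + 1) = k := by omega
      rw [hk, hk', Derivation.leibniz, Derivation.leibniz_pow]
      simp only [Derivation.smul_apply, smul_eq_mul, nsmul_eq_mul, Nat.add_sub_cancel,
        PowerSeries.derivative_X]
      refine dvd_add ?_ ?_
      · rw [pow_succ]
        exact Dvd.dvd.mul_right (Dvd.dvd.mul_right dvd_rfl _) _
      · refine Dvd.dvd.mul_left ?_ _
        refine Dvd.dvd.mul_left ?_ _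
        exact Dvd.dvd.mul_right dvd_rfl _

/-- If a nontrivial rational combination vanishes to order `J`, so does the Wronskian,
up to `r - 1`. -/
lemma X_pow_dvd_wmat_det (g : ℚ⟦X⟧) (r : ℕ) (v : Fin r → ℚ⟦X⟧) (w : Fin r → ℚ) (hw : w ≠ 0)
    (J : ℕ) (h : X ^ J ∣ ∑ j, w j • v j) :
    X ^ (J - r) ∣ (wmat (g • d⁄dX ℚ : Derivation ℚ ℚ⟦X⟧ ℚ⟦X⟧) v).det := by
  obtain ⟨j₀, hj₀⟩ : ∃ j, w j ≠ 0 := by
    by_contra hne
    push Not at hne
    exact hw (funext hne)
  set D : Derivation ℚ ℚ⟦X⟧ ℚ⟦X⟧ := (g • d⁄dX ℚ : Derivation ℚ ℚ⟦X⟧ ℚ⟦X⟧) with hD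
  set M := wmat D v with hM
  have hDi : ∀ i : ℕ, D^[i] (∑ j, w j • v j) = ∑ j, w j • D^[i] (v j) := by
    intro i
    induction i with
    | zero => simp
    | succ i ih =>
      rw [Function.iterate_succ_apply', ih, map_sum]
      refine Finset.sum_congr rfl (fun j _ => ?_)
      rw [Function.iterate_succ_apply', Derivation.map_smul]
  have h1 : M.mulVec (fun j => PowerSeries.C (w j)) = fun i : Fin r => D^[(i : ℕ)] (∑ j, w j • v j) := by
    funext i
    rw [hDi]
    simp only [Matrix.mulVec, dotProduct, hM, wmat, Matrix.of_apply]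
    refine Finset.sum_congr rfl (fun j _ => ?_)
    rw [PowerSeries.smul_eq_C_mul, mul_comm]
  have h2 : M.det • (fun j => PowerSeries.C (w j)) = M.adjugate.mulVec (M.mulVec (fun j => PowerSeries.C (w j))) := by
    rw [Matrix.mulVec_mulVec, Matrix.adjugate_mul, Matrix.smul_mulVec, Matrix.one_mulVec]
  have h3 := congrFun h2 j₀
  rw [h1] at h3
  simp only [Pi.smul_apply, smul_eq_mul, Matrix.mulVec, dotProduct] at h3
  have h4 : X ^ (J - r) ∣ M.det * PowerSeries.C (w j₀) := by
    rw [h3]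
    refine Finset.dvd_sum (fun i _ => ?_)
    refine Dvd.dvd.mul_left ?_ _
    refine dvd_trans (pow_dvd_pow _ ?_) (X_pow_dvd_iterate g _ J h i)
    have := i.isLt
    omega
  have hu : IsUnit (PowerSeries.C (w j₀) : ℚ⟦X⟧) :=
    (IsUnit.mk0 _ hj₀).map (PowerSeries.C (R := ℚ))
  exact hu.dvd_mul_right.mp h4

end Pool.Agent.H20
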