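import Pool.Agent.H20.Res
import Pool.Agent.H20.Wronsk

set_option autoImplicit false

namespace Pool.Agent.H20

open Polynomial Finset

/-- Coefficientwise derivative (partial derivative with respect to the inner variable). -/
noncomputable def dX : Derivation ℤ ℤ[X][X] ℤ[X][X] :=
  letI : Differential ℤ[X] := ⟨Polynomial.derivative'⟩
  Differential.mapCoeffs

lemma coeff_dX (p : ℤ[X][X]) (i : ℕ) : (dX p).coeff i = derivative (p.coeff i) := by
  let _ : Differential ℤ[X] := ⟨Polynomial.derivative'⟩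
  exact Differential.coeff_mapCoeffs p i

lemma dX_monomial (n : ℕ) (q : ℤ[X]) : dX (monomial n q) = monomial n (derivative q) := by
  ext1 i
  rw [coeff_dX, coeff_monomial, coeff_monomial]
  split_ifs <;> simp

/-- `x ↦ a + s`. -/
noncomputable def sg (a : ℤ) : ℤ[X] →+* PowerSeries ℚ :=
  eval₂RingHom (Int.castRingHom _) (PowerSeries.C (a : ℚ) + PowerSeries.X)

lemma sg_X (a : ℤ) : sg a X = PowerSeries.C (a : ℚ) + PowerSeries.X := by
  simp [sg]

lemma sg_C (a c : ℤ) : sg a (C c) = PowerSeries.C (c : ℚ) := by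
  simp [sg]

lemma sg_deriv (a : ℤ) (q : ℤ[X]) :
    PowerSeries.derivative ℚ (sg a q) = sg a (derivative q) := by
  induction q using Polynomial.induction_on' with
  | add p q hp hq => simp only [map_add, hp, hq]
  | monomial n c =>
    rw [← C_mul_X_pow_eq_monomial, map_mul, map_pow, sg_X, sg_C, Derivation.leibniz,
      Derivation.leibniz_pow, map_add, PowerSeries.derivative_C, PowerSeries.derivative_X,
      derivative_C_mul_X_pow, map_mul (sg a), map_pow, sg_X, sg_C]
    simp only [PowerSeries.derivative_C, smul_eq_mul, mul_zero, add_zero, zero_add, mul_one,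
      nsmul_eq_mul, Int.cast_mul, Int.cast_natCast, map_mul, map_natCast]
    ring

lemma constantCoeff_sg (a : ℤ) (q : ℤ[X]) :
    PowerSeries.constantCoeff (sg a q) = ((q.eval a : ℤ) : ℚ) := by
  induction q using Polynomial.induction_on' with
  | add p q hp hq => simp only [map_add, hp, hq, eval_add, Int.cast_add]
  | monomial n c =>
    rw [← C_mul_X_pow_eq_monomial, map_mul, map_pow, sg_X, sg_C]
    simp

/-- the ring hom `ℤ[X][Y] → ℚ⟦s⟧`, `x ↦ a + s`, `y ↦ ys`. -/
noncomputable def io (a : ℤ) (ys : PowerSeries ℚ) : ℤ[X][X] →+* PowerSeries ℚ :=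
  eval₂RingHom (sg a) ys

lemma io_C (a : ℤ) (ys : PowerSeries ℚ) (q : ℤ[X]) : io a ys (C q) = sg a q := by
  simp [io]

lemma io_X (a : ℤ) (ys : PowerSeries ℚ) : io a ys X = ys := by
  simp [io]

lemma constantCoeff_io (a b : ℤ) (ys : PowerSeries ℚ)
    (hys : PowerSeries.constantCoeff ys = b) (p : ℤ[X][X]) :
    PowerSeries.constantCoeff (io a ys p) = ((evalEval a b p : ℤ) : ℚ) := by
  induction p using Polynomial.induction_on' with
  | add p q hp hq => simp only [map_add, hp, hq, evalEval_add, Int.cast_add]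
  | monomial n c =>
    rw [← C_mul_X_pow_eq_monomial, map_mul, map_pow, io_C, io_X, map_mul, map_pow,
      constantCoeff_sg, hys]
    simp [evalEval]

lemma io_deriv (a : ℤ) (ys : PowerSeries ℚ) (p : ℤ[X][X]) :
    PowerSeries.derivative ℚ (io a ys p)
      = io a ys (dX p) + io a ys (derivative p) * PowerSeries.derivative ℚ ys := by
  induction p using Polynomial.induction_on' with
  | add p q hp hq => simp only [map_add, hp, hq]; ring
  | monomial n c =>
    rw [dX_monomial, ← C_mul_X_pow_eq_monomial, ← C_mul_X_pow_eq_monomial, map_mul, map_pow,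
      io_C, io_X, Derivation.leibniz, Derivation.leibniz_pow, sg_deriv, derivative_C_mul_X_pow,
      map_mul (io a ys), map_mul (io a ys), map_pow, map_pow, io_X, io_C, io_C, map_mul (sg a)]
    simp only [smul_eq_mul, nsmul_eq_mul, map_natCast]
    ring

/-- Existence of the expansion of `y` at a simple point. -/
lemma exists_ys (f : ℤ[X][X]) (hf : f.Monic) (a b : ℤ) (h0 : evalEval a b f = 0)
    (h1 : evalEval a b (derivative f) ≠ 0) :
    ∃ ys : PowerSeries ℚ, PowerSeries.constantCoeff ys = b ∧ io a ys f = 0 := by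
  have key : ∀ p : ℤ[X][X], PowerSeries.constantCoeff
      ((p.map (sg a)).eval (PowerSeries.C (b : ℚ))) = ((evalEval a b p : ℤ) : ℚ) := by
    intro p
    rw [eval_map]
    exact constantCoeff_io a b (PowerSeries.C (b : ℚ)) (by simp) p
  obtain ⟨ys, hys, hb⟩ := HenselianRing.is_henselian (I := Ideal.span {(PowerSeries.X : PowerSeries ℚ)})
    (f.map (sg a)) (hf.map _) (PowerSeries.C (b : ℚ))
    (by
      rw [Ideal.mem_span_singleton, PowerSeries.X_dvd_iff, key, h0]
      simp)
    (by
      apply IsUnit.map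
      rw [PowerSeries.isUnit_iff_constantCoeff, derivative_map, key]
      apply IsUnit.mk0
      exact_mod_cast h1)
  refine ⟨ys, ?_, ?_⟩
  · rw [Ideal.mem_span_singleton, PowerSeries.X_dvd_iff, map_sub, PowerSeries.constantCoeff_C,
      sub_eq_zero] at hb
    exact hb
  · rw [IsRoot, eval_map] at hys
    exact hys

/-- the derivation `f_y ∂_x - f_x ∂_y` -/
noncomputable def dl (f : ℤ[X][X]) (p : ℤ[X][X]) : ℤ[X][X] :=
  derivative f * dX p - dX f * derivative p

lemma io_dl (f : ℤ[X][X]) (a : ℤ) (ys : PowerSeries ℚ) (hf : io a ys f = 0) (p : ℤ[X][X]) :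
    io a ys (dl f p)
      = (io a ys (derivative f) • PowerSeries.derivative ℚ :
          Derivation ℚ (PowerSeries ℚ) (PowerSeries ℚ)) (io a ys p) := by
  have h1 := io_deriv a ys f
  rw [hf, map_zero] at h1
  have h2 := io_deriv a ys p
  rw [Derivation.smul_apply, smul_eq_mul, h2]
  unfold dl
  rw [map_sub, map_mul, map_mul]
  linear_combination (io a ys (derivative p)) * h1

lemma io_dl_iterate (f : ℤ[X][X]) (a : ℤ) (ys : PowerSeries ℚ) (hf : io a ys f = 0)
    (p : ℤ[X][X]) (k : ℕ) :
    io a ys ((dl f)^[k] p)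
      = (io a ys (derivative f) • PowerSeries.derivative ℚ :
          Derivation ℚ (PowerSeries ℚ) (PowerSeries ℚ))^[k] (io a ys p) := by
  induction k with
  | zero => rfl
  | succ k ih => rw [Function.iterate_succ_apply', Function.iterate_succ_apply', io_dl f a ys hf, ih]

lemma sg_eq_coe (a : ℤ) (q : ℤ[X]) :
    sg a q = ((taylor (a : ℚ) (q.map (Int.castRingHom ℚ)) : ℚ[X]) : PowerSeries ℚ) := by
  induction q using Polynomial.induction_on' with
  | add p q hp hq =>
    rw [map_add, hp, hq, Polynomial.map_add, map_add, Polynomial.coe_add]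
  | monomial n c =>
    rw [← C_mul_X_pow_eq_monomial, map_mul, map_pow, sg_X, sg_C, Polynomial.map_mul,
      Polynomial.map_pow, map_X, map_C, taylor_mul, taylor_pow, taylor_C, taylor_X,
      Polynomial.coe_mul, Polynomial.coe_pow, Polynomial.coe_add, Polynomial.coe_C,
      Polynomial.coe_C, Polynomial.coe_X, add_comm (PowerSeries.C (a : ℚ))]
    rfl

lemma dvd_of_X_pow_dvd_sg (a : ℤ) (q : ℤ[X]) (m : ℕ) (h : PowerSeries.X ^ m ∣ sg a q) :
    (X - C a) ^ m ∣ q := by
  rw [sg_eq_coe, PowerSeries.X_pow_dvd_iff] at h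
  have h1 : X ^ m ∣ taylor (a : ℚ) (q.map (Int.castRingHom ℚ)) := by
    rw [Polynomial.X_pow_dvd_iff]
    intro d hd
    have := h d hd
    rwa [Polynomial.coeff_coe] at this
  obtain ⟨s, hs⟩ := h1
  have h2 : q.map (Int.castRingHom ℚ) = (X - C (a : ℚ)) ^ m * taylor (-(a : ℚ)) s := by
    have h3 := congrArg (taylor (-(a : ℚ))) hs
    rw [taylor_taylor, neg_add_cancel, taylor_zero, taylor_mul, taylor_pow, taylor_X] at h3
    rw [h3, C_neg, sub_eq_add_neg]
  have h4 : ((X - C a) ^ m : ℤ[X]).map (Int.castRingHom ℚ) ∣ q.map (Int.castRingHom ℚ) := by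
    rw [h2]
    simp
  rwa [Polynomial.map_dvd_map _ (RingHom.injective_int _) ((monic_X_sub_C a).pow m)] at h4

lemma sg_eq_zero (a : ℤ) (q : ℤ[X]) (h : sg a q = 0) : q = 0 := by
  rw [sg_eq_coe] at h
  have h1 : taylor (a : ℚ) (q.map (Int.castRingHom ℚ)) = 0 := by
    exact_mod_cast h
  have h2 : q.map (Int.castRingHom ℚ) = 0 := by
    apply taylor_injective (a : ℚ)
    rw [h1, map_zero]
  exact (Polynomial.map_eq_zero_iff (RingHom.injective_int _)).mp h2

/-- If `W` is not divisible by `f` and `X^m` divides the expansion of `W` then `|a|^m` is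
bounded by the size of the resultant. -/
lemma order_bound (f W : ℤ[X][X]) (hf : f.Monic) (hirr : Irreducible f) (a : ℤ) (ha : a ≠ 0)
    (hdeg : f.natDegree ≠ 0)
    (ys : PowerSeries ℚ) (hfz : io a ys f = 0) (hW : ¬ f ∣ W) (m : ℕ)
    (h : PowerSeries.X ^ m ∣ io a ys W) :
    |(a : ℝ)| ^ m ≤ nrmInt.l1 (resultant f W) := by
  have h0 := res_ne_zero f W hf hirr hW
  obtain ⟨p, q, -, -, e⟩ := exists_mul_add_mul_eq_C_resultant f W le_rfl le_rfl (Or.inl hdeg)
  have h1 := congrArg (io a ys) e
  rw [map_add, map_mul, map_mul, hfz, zero_mul, zero_add, io_C] at h1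
  have h2 : PowerSeries.X ^ m ∣ sg a (resultant f W) := by
    rw [← h1]
    exact Dvd.dvd.mul_right h _
  exact abs_pow_le_of_dvd _ h0 a ha m (dvd_of_X_pow_dvd_sg a _ m h2)

lemma dvd_of_io_eq_zero (f W : ℤ[X][X]) (hf : f.Monic) (hirr : Irreducible f) (a : ℤ)
    (hdeg : f.natDegree ≠ 0)
    (ys : PowerSeries ℚ) (hfz : io a ys f = 0) (h : io a ys W = 0) : f ∣ W := by
  by_contra hW
  have h0 := res_ne_zero f W hf hirr hW
  obtain ⟨p, q, -, -, e⟩ := exists_mul_add_mul_eq_C_resultant f W le_rfl le_rfl (Or.inl hdeg)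
  have h1 := congrArg (io a ys) e
  rw [map_add, map_mul, map_mul, hfz, h, zero_mul, zero_mul, zero_add, io_C] at h1
  exact h0 (sg_eq_zero a _ h1.symm)

/-- a common integer zero of `f` and `W` has small first coordinate. -/
lemma root_bound (f W : ℤ[X][X]) (hf : f.Monic) (hirr : Irreducible f) (a b : ℤ)
    (ha : a ≠ 0) (hdeg : f.natDegree ≠ 0) (hfz : evalEval a b f = 0) (hW : ¬ f ∣ W)
    (h : evalEval a b W = 0) :
    |(a : ℝ)| ≤ nrmInt.l1 (resultant f W) := by
  have h0 := res_ne_zero f W hf hirr hW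
  obtain ⟨p, q, -, -, e⟩ := exists_mul_add_mul_eq_C_resultant f W le_rfl le_rfl (Or.inl hdeg)
  have h1 := congrArg (evalEval a b) e
  rw [evalEval_add, evalEval_mul, evalEval_mul, hfz, h, zero_mul, zero_mul, zero_add,
    evalEval_C] at h1
  have h2 : (X - C a) ^ 1 ∣ resultant f W := by
    rw [pow_one, dvd_iff_isRoot]
    exact h1.symm
  simpa using abs_pow_le_of_dvd _ h0 a ha 1 h2

end Pool.Agent.H20
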