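import Mathlib

set_option autoImplicit false

namespace Pool.Agent.H20

open Polynomial Finset

/-- A submultiplicative seminorm on a commutative ring. -/
structure Nrm (R : Type*) [CommRing R] where
  v : R → ℝ
  nonneg : ∀ a, 0 ≤ v a
  zero : v 0 = 0
  one_le : v 1 ≤ 1
  add_le : ∀ a b, v (a + b) ≤ v a + v b
  mul_le : ∀ a b, v (a * b) ≤ v a * v b
  neg : ∀ a, v (-a) = v a

namespace Nrm

variable {R S : Type*} [CommRing R] [CommRing S] (ν : Nrm R) (μ : Nrm S)

lemma sub_le (a b : R) : ν.v (a - b) ≤ ν.v a + ν.v b := by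
  rw [sub_eq_add_neg]
  exact (ν.add_le _ _).trans (by rw [ν.neg])

lemma sum_le {ι : Type*} (s : Finset ι) (f : ι → R) : ν.v (∑ i ∈ s, f i) ≤ ∑ i ∈ s, ν.v (f i) := by
  classical
  induction s using Finset.induction_on with
  | empty => simp [ν.zero]
  | insert a s ha ih =>
    rw [Finset.sum_insert ha, Finset.sum_insert ha]
    exact (ν.add_le _ _).trans (by gcongr)

lemma prod_le {ι : Type*} (s : Finset ι) (f : ι → R) : ν.v (∏ i ∈ s, f i) ≤ ∏ i ∈ s, ν.v (f i) := by
  classical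
  induction s using Finset.induction_on with
  | empty => simpa using ν.one_le
  | insert a s ha ih =>
    rw [Finset.prod_insert ha, Finset.prod_insert ha]
    exact (ν.mul_le _ _).trans (mul_le_mul_of_nonneg_left ih (ν.nonneg _))

lemma pow_le (a : R) (n : ℕ) : ν.v (a ^ n) ≤ ν.v a ^ n := by
  induction n with
  | zero => simpa using ν.one_le
  | succ n ih =>
    rw [pow_succ, pow_succ]
    exact (ν.mul_le _ _).trans (mul_le_mul_of_nonneg_right ih (ν.nonneg _))

lemma natCast_le (n : ℕ) : ν.v (n : R) ≤ n := by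
  induction n with
  | zero => simp [ν.zero]
  | succ n ih =>
    push_cast
    exact (ν.add_le _ _).trans (add_le_add ih ν.one_le)

lemma natCast_mul_le (n : ℕ) (a : R) : ν.v ((n : R) * a) ≤ n * ν.v a :=
  (ν.mul_le _ _).trans (mul_le_mul_of_nonneg_right (ν.natCast_le n) (ν.nonneg _))

lemma prod_le_pow {ι : Type*} (s : Finset ι) (f : ι → R) (B : ℝ)
    (h : ∀ i ∈ s, ν.v (f i) ≤ B) : ν.v (∏ i ∈ s, f i) ≤ B ^ s.card := by
  refine (ν.prod_le s f).trans ?_
  calc ∏ i ∈ s, ν.v (f i) ≤ ∏ _i ∈ s, B :=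
        Finset.prod_le_prod (fun i _ => ν.nonneg _) h
    _ = B ^ s.card := by simp

lemma det_le {n : ℕ} (M : Matrix (Fin n) (Fin n) R) (B : ℝ)
    (h : ∀ i j, ν.v (M i j) ≤ B) : ν.v M.det ≤ (n.factorial : ℝ) * B ^ n := by
  rw [Matrix.det_apply']
  refine (ν.sum_le _ _).trans ?_
  calc ∑ σ : Equiv.Perm (Fin n), ν.v (((Equiv.Perm.sign σ : ℤ) : R) * ∏ i, M (σ i) i)
      ≤ ∑ _σ : Equiv.Perm (Fin n), B ^ n := by
        refine Finset.sum_le_sum (fun σ _ => ?_)
        have h1 : ν.v (∏ i, M (σ i) i) ≤ B ^ n := by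
          simpa using ν.prod_le_pow Finset.univ (fun i => M (σ i) i) B (fun i _ => h _ _)
        rcases Int.units_eq_one_or (Equiv.Perm.sign σ) with hs | hs
        · simpa [hs] using h1
        · simpa [hs, ν.neg] using h1
    _ = (n.factorial : ℝ) * B ^ n := by
        simp [Fintype.card_perm]

/-- The `L1` norm on polynomials. -/
noncomputable def l1 (p : R[X]) : ℝ := ∑ i ∈ p.support, ν.v (p.coeff i)

lemma l1_eq_of_subset (p : R[X]) (s : Finset ℕ) (hs : p.support ⊆ s) :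
    ν.l1 p = ∑ i ∈ s, ν.v (p.coeff i) := by
  unfold l1
  refine Finset.sum_subset hs (fun i _ hi => ?_)
  rw [notMem_support_iff.mp hi, ν.zero]

lemma l1_nonneg (p : R[X]) : 0 ≤ ν.l1 p := Finset.sum_nonneg (fun _ _ => ν.nonneg _)

lemma l1_zero : ν.l1 0 = 0 := by simp [l1]

lemma l1_monomial (n : ℕ) (a : R) : ν.l1 (monomial n a) = ν.v a := by
  rw [ν.l1_eq_of_subset (monomial n a) {n} (support_monomial_subset n a)]
  simp

lemma l1_C (a : R) : ν.l1 (C a) = ν.v a := ν.l1_monomial 0 a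

lemma l1_add_le (p q : R[X]) : ν.l1 (p + q) ≤ ν.l1 p + ν.l1 q := by
  classical
  rw [ν.l1_eq_of_subset p (p.support ∪ q.support) subset_union_left,
    ν.l1_eq_of_subset q (p.support ∪ q.support) subset_union_right,
    ν.l1_eq_of_subset (p + q) (p.support ∪ q.support) support_add, ← Finset.sum_add_distrib]
  refine Finset.sum_le_sum (fun i _ => ?_)
  rw [coeff_add]
  exact ν.add_le _ _

lemma l1_neg (p : R[X]) : ν.l1 (-p) = ν.l1 p := by
  unfold l1
  rw [support_neg]
  refine Finset.sum_congr rfl (fun i _ => ?_)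
  rw [coeff_neg, ν.neg]

lemma l1_sum_le' {ι : Type*} (s : Finset ι) (f : ι → R[X]) :
    ν.l1 (∑ i ∈ s, f i) ≤ ∑ i ∈ s, ν.l1 (f i) := by
  classical
  induction s using Finset.induction_on with
  | empty => simp [ν.l1_zero]
  | insert a s ha ih =>
    rw [Finset.sum_insert ha, Finset.sum_insert ha]
    exact (ν.l1_add_le _ _).trans (by gcongr)

lemma l1_mul_le (p q : R[X]) : ν.l1 (p * q) ≤ ν.l1 p * ν.l1 q := by
  rw [Polynomial.mul_eq_sum_sum]
  refine (ν.l1_sum_le' _ _).trans ?_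
  calc ∑ i ∈ p.support, ν.l1 (q.sum fun j a => monomial (i + j) (p.coeff i * a))
      ≤ ∑ i ∈ p.support, ∑ j ∈ q.support, ν.v (p.coeff i) * ν.v (q.coeff j) := by
        refine Finset.sum_le_sum (fun i _ => ?_)
        rw [Polynomial.sum_def]
        refine (ν.l1_sum_le' _ _).trans (Finset.sum_le_sum (fun j _ => ?_))
        rw [ν.l1_monomial]
        exact ν.mul_le _ _
    _ = ν.l1 p * ν.l1 q := by
        unfold l1
        rw [Finset.sum_mul_sum]

/-- The `L1` norm as a seminorm. -/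
noncomputable def poly : Nrm R[X] where
  v := ν.l1
  nonneg := ν.l1_nonneg
  zero := ν.l1_zero
  one_le := by rw [← C_1, ν.l1_C]; exact ν.one_le
  add_le := ν.l1_add_le
  mul_le := ν.l1_mul_le
  neg := ν.l1_neg

lemma poly_v (p : R[X]) : ν.poly.v p = ν.l1 p := rfl

lemma coeff_le (p : R[X]) (i : ℕ) : ν.v (p.coeff i) ≤ ν.l1 p := by
  classical
  rw [ν.l1_eq_of_subset p (insert i p.support) (Finset.subset_insert _ _)]
  exact Finset.single_le_sum (f := fun i => ν.v (p.coeff i)) (fun _ _ => ν.nonneg _)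
    (Finset.mem_insert_self _ _)

lemma l1_eq_range (p : R[X]) (n : ℕ) (hn : p.natDegree < n) :
    ν.l1 p = ∑ i ∈ Finset.range n, ν.v (p.coeff i) := by
  refine ν.l1_eq_of_subset p _ (fun i hi => ?_)
  have := le_natDegree_of_mem_supp i hi
  simp only [Finset.mem_range]
  omega

lemma l1_coeff_zero_add_divX (p : R[X]) : ν.v (p.coeff 0) + ν.l1 p.divX = ν.l1 p := by
  have h1 : p.divX.natDegree < p.natDegree + 1 := by
    rw [natDegree_divX_eq_natDegree_tsub_one]; omega
  rw [ν.l1_eq_range p (p.natDegree + 1 + 1) (by omega), ν.l1_eq_range p.divX _ h1,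
    Finset.sum_range_succ' _ (p.natDegree + 1)]
  simp only [coeff_divX]
  ring

lemma l1_divX_le (p : R[X]) : ν.l1 p.divX ≤ ν.l1 p := by
  have := ν.l1_coeff_zero_add_divX p
  have := ν.nonneg (p.coeff 0)
  linarith

lemma l1_map_le (σ : R →+* S) (h : ∀ a, μ.v (σ a) ≤ ν.v a) (p : R[X]) :
    μ.l1 (p.map σ) ≤ ν.l1 p := by
  rw [μ.l1_eq_of_subset (p.map σ) p.support (support_map_subset σ p)]
  unfold l1
  refine Finset.sum_le_sum (fun i _ => ?_)
  rw [coeff_map]
  exact h _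

lemma eval₂_le (σ : R →+* S) (h : ∀ a, μ.v (σ a) ≤ ν.v a) (x : S) (hx : μ.v x ≤ 1) (p : R[X]) :
    μ.v (eval₂ σ x p) ≤ ν.l1 p := by
  rw [eval₂_eq_sum, Polynomial.sum_def]
  refine (μ.sum_le _ _).trans (Finset.sum_le_sum (fun i _ => ?_))
  calc μ.v (σ (p.coeff i) * x ^ i) ≤ μ.v (σ (p.coeff i)) * μ.v (x ^ i) := μ.mul_le _ _
    _ ≤ ν.v (p.coeff i) * 1 := by
        refine mul_le_mul (h _) ?_ (μ.nonneg _) (ν.nonneg _)
        exact (μ.pow_le x i).trans (pow_le_one₀ (μ.nonneg _) hx)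
    _ = ν.v (p.coeff i) := mul_one _

lemma eval₂_le' (σ : R →+* S) (h : ∀ a, μ.v (σ a) ≤ ν.v a) (x : S) (M : ℝ) (hM : 1 ≤ M)
    (hx : μ.v x ≤ M) (p : R[X]) (n : ℕ) (hn : p.natDegree ≤ n) :
    μ.v (eval₂ σ x p) ≤ ν.l1 p * M ^ n := by
  rw [eval₂_eq_sum, Polynomial.sum_def]
  refine (μ.sum_le _ _).trans ?_
  unfold l1
  rw [Finset.sum_mul]
  refine Finset.sum_le_sum (fun i hi => ?_)
  calc μ.v (σ (p.coeff i) * x ^ i) ≤ μ.v (σ (p.coeff i)) * μ.v (x ^ i) := μ.mul_le _ _
    _ ≤ ν.v (p.coeff i) * M ^ n := by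
        refine mul_le_mul (h _) ?_ (μ.nonneg _) (ν.nonneg _)
        refine (μ.pow_le x i).trans ((pow_le_pow_left₀ (μ.nonneg _) hx i).trans ?_)
        exact pow_le_pow_right₀ hM ((le_natDegree_of_mem_supp i hi).trans hn)

lemma eval_le' (x : R) (M : ℝ) (hM : 1 ≤ M)
    (hx : ν.v x ≤ M) (p : R[X]) (n : ℕ) (hn : p.natDegree ≤ n) :
    ν.v (eval x p) ≤ ν.l1 p * M ^ n := by
  have := ν.eval₂_le' ν (RingHom.id R) (fun a => le_refl _) x M hM hx p n hn
  simpa using this

lemma l1_derivative_le (p : R[X]) (n : ℕ) (hn : p.natDegree ≤ n) :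
    ν.l1 (derivative p) ≤ n * ν.l1 p := by
  have h1 : (derivative p).natDegree < n + 1 := by
    have := natDegree_derivative_le p
    omega
  rw [ν.l1_eq_range p (n + 1 + 1) (by omega), ν.l1_eq_range _ _ h1,
    Finset.sum_range_succ' _ (n + 1), mul_add, Finset.mul_sum]
  refine le_add_of_le_of_nonneg (Finset.sum_le_sum (fun i hi => ?_)) (by
    have := ν.nonneg (p.coeff 0); positivity)
  rw [coeff_derivative]
  by_cases h : p.coeff (i + 1) = 0
  · rw [h, zero_mul, ν.zero]; simp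
  · have h2 : i + 1 ≤ n := (le_natDegree_of_ne_zero h).trans hn
    have h3 : p.coeff (i + 1) * ((i : R) + 1) = ((i + 1 : ℕ) : R) * p.coeff (i + 1) := by
      push_cast; ring
    rw [h3]
    refine (ν.natCast_mul_le _ _).trans ?_
    have := ν.nonneg (p.coeff (i + 1))
    have h4 : ((i + 1 : ℕ) : ℝ) ≤ n := by exact_mod_cast h2
    exact mul_le_mul_of_nonneg_right h4 this

end Nrm

/-- absolute value on `ℤ`. -/
noncomputable def nrmInt : Nrm ℤ where
  v a := |(a : ℝ)|
  nonneg a := abs_nonneg _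
  zero := by simp
  one_le := by simp
  add_le a b := by push_cast; exact abs_add_le _ _
  mul_le a b := by push_cast; rw [abs_mul]
  neg a := by push_cast; exact abs_neg _

/-- absolute value on `ℂ`. -/
noncomputable def nrmC : Nrm ℂ where
  v a := ‖a‖
  nonneg a := norm_nonneg _
  zero := by simp
  one_le := by simp
  add_le a b := norm_add_le _ _
  mul_le a b := norm_mul_le _ _
  neg a := norm_neg _

end Pool.Agent.H20
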