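import Pool.Agent.H20.G8

set_option autoImplicit false

namespace Pool.Agent.H20.G

open Polynomial Finset

section

variable {R : Type*} [CommRing R]

/-- the substitution `s ↦ A s^q`, `ζ ↦ B s^p (τ + ζ)` -/
noncomputable def sb (A B τ : R) (p q : ℕ) : R[X][X] →+* R[X][X] :=
  eval₂RingHom (eval₂RingHom ((C : R[X] →+* R[X][X]).comp C)
    (C (C B) * X ^ p * (C (C τ) + C X))) (C (C A) * X ^ q)

variable (A B τ : R) (p q : ℕ)

lemma sb_X : sb A B τ p q X = C (C A) * X ^ q := by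
  unfold sb
  rw [coe_eval₂RingHom, eval₂_X]

lemma sb_CX : sb A B τ p q (C X) = C (C B) * X ^ p * (C (C τ) + C X) := by
  unfold sb
  rw [coe_eval₂RingHom, eval₂_C, coe_eval₂RingHom, eval₂_X]

lemma sb_CC (r : R) : sb A B τ p q (C (C r)) = C (C r) := by
  unfold sb
  rw [coe_eval₂RingHom, eval₂_C, coe_eval₂RingHom, eval₂_C]
  rfl

lemma sb_mapC (V : R[X]) : sb A B τ p q (V.map C) = (V.comp (C A * X ^ q)).map C := by
  induction V using Polynomial.induction_on' with
  | add f g hf hg => rw [Polynomial.map_add, map_add, hf, hg, add_comp, Polynomial.map_add]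
  | monomial n a =>
    rw [map_monomial, ← C_mul_X_pow_eq_monomial, map_mul, map_pow, sb_CC, sb_X,
      ← C_mul_X_pow_eq_monomial, mul_comp, C_comp, pow_comp, X_comp, Polynomial.map_mul,
      Polynomial.map_pow, Polynomial.map_mul, Polynomial.map_pow, Polynomial.map_C,
      Polynomial.map_C, Polynomial.map_X]

lemma sb_T (w : R) (m : ℕ) :
    sb A B τ p q (C (C w) * X ^ m) = C (C (w * A ^ m)) * X ^ (q * m) := by
  rw [map_mul, map_pow, sb_CC, sb_X, mul_pow, ← pow_mul, ← mul_assoc, ← C_pow, ← C_pow, ← C_mul,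
    ← C_mul]

lemma sb_zt (V : R[X]) (v : R) (k₀ : ℕ) :
    sb A B τ p q (zt V v k₀)
      = zt (V.comp (C A * X ^ q) + C (v * A ^ k₀ * B * τ) * X ^ (q * k₀ + p))
          (v * A ^ k₀ * B) (q * k₀ + p) := by
  unfold zt
  rw [map_add, sb_mapC, Polynomial.map_add, ← C_mul_X_pow_eq_monomial, ← C_mul_X_pow_eq_monomial,
    C_mul, map_mul, map_mul, map_pow, sb_CC, sb_CX, sb_X, Polynomial.map_mul, Polynomial.map_pow,
    Polynomial.map_C, Polynomial.map_X, add_assoc]
  congr 1
  simp only [C_mul, C_pow, mul_pow]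
  ring

lemma ev_sb (φ : R →+* ℂ) (s ζ : ℂ) (u : R[X][X]) :
    ev φ s ζ (sb A B τ p q u) = ev φ (φ A * s ^ q) (φ B * s ^ p * (φ τ + ζ)) u := by
  have h : (ev φ s ζ).comp (sb A B τ p q) = ev φ (φ A * s ^ q) (φ B * s ^ p * (φ τ + ζ)) := by
    apply Polynomial.ringHom_ext
    · intro a
      rw [RingHom.comp_apply]
      have h2 : ((ev φ s ζ).comp (sb A B τ p q)).comp C
          = (ev φ (φ A * s ^ q) (φ B * s ^ p * (φ τ + ζ))).comp C := by
        apply Polynomial.ringHom_ext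
        · intro r
          rw [RingHom.comp_apply, RingHom.comp_apply, RingHom.comp_apply, sb_CC, ev_C, ev_C,
            eval₂_C, eval₂_C]
        · rw [RingHom.comp_apply, RingHom.comp_apply, RingHom.comp_apply, sb_CX, ev_C, eval₂_X,
            map_mul, map_mul, map_add, map_pow, ev_C, ev_C, ev_C, ev_X, eval₂_C, eval₂_C, eval₂_X]
      exact RingHom.congr_fun h2 a
    · rw [RingHom.comp_apply, sb_X, ev_X, map_mul, map_pow, ev_C, ev_X, eval₂_C]
  exact RingHom.congr_fun h u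

/-- double expansion of a polynomial -/
lemma expand2 (Ψ : R[X][X]) (K d : ℕ) (hK : Ψ.natDegree ≤ K)
    (hd : ∀ k, (Ψ.coeff k).natDegree ≤ d) :
    Ψ = ∑ k ∈ range (K + 1), ∑ l ∈ range (d + 1),
      C (C ((Ψ.coeff k).coeff l)) * X ^ k * (C X) ^ l := by
  conv_lhs => rw [Ψ.as_sum_range' (K + 1) (by omega)]
  refine Finset.sum_congr rfl (fun k _ => ?_)
  rw [← C_mul_X_pow_eq_monomial]
  conv_lhs => rw [(Ψ.coeff k).as_sum_range' (d + 1) (by have := hd k; omega)]
  rw [map_sum, Finset.sum_mul]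
  refine Finset.sum_congr rfl (fun l _ => ?_)
  rw [← C_mul_X_pow_eq_monomial, C_mul, C_pow]
  ring

/-- the strict transform -/
noncomputable def st (K d n : ℕ) (Ψ : R[X][X]) : R[X][X] :=
  ∑ k ∈ range (K + 1), ∑ l ∈ range (d + 1),
    C (C ((Ψ.coeff k).coeff l * A ^ k * B ^ l) * (C τ + X) ^ l) * X ^ (q * k + p * l - n)

lemma X_pow_mul_st (K d n : ℕ) (Ψ : R[X][X]) (hK : Ψ.natDegree ≤ K)
    (hd : ∀ k, (Ψ.coeff k).natDegree ≤ d)
    (hn : ∀ k l, (Ψ.coeff k).coeff l ≠ 0 → n ≤ q * k + p * l) :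
    X ^ n * st A B τ p q K d n Ψ = sb A B τ p q Ψ := by
  conv_rhs => rw [expand2 Ψ K d hK hd]
  unfold st
  rw [Finset.mul_sum, map_sum]
  refine Finset.sum_congr rfl (fun k _ => ?_)
  rw [Finset.mul_sum, map_sum]
  refine Finset.sum_congr rfl (fun l _ => ?_)
  by_cases h0 : (Ψ.coeff k).coeff l = 0
  · rw [h0]
    simp
  · have h1 := hn k l h0
    rw [map_mul (sb A B τ p q), map_mul (sb A B τ p q), map_pow (sb A B τ p q),
      map_pow (sb A B τ p q), sb_CC, sb_X, sb_CX]
    have h2 : (X : R[X][X]) ^ n * (C (C ((Ψ.coeff k).coeff l * A ^ k * B ^ l) * (C τ + X) ^ l) *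
        X ^ (q * k + p * l - n))
        = C (C ((Ψ.coeff k).coeff l * A ^ k * B ^ l) * (C τ + X) ^ l) *
          X ^ (n + (q * k + p * l - n)) := by
      rw [pow_add]; ring
    rw [h2, Nat.add_sub_cancel' h1]
    simp only [C_mul, C_pow, C_add, mul_pow, pow_add, pow_mul]
    ring

/-- the polynomial on a line of the Newton diagram -/
noncomputable def lineP (K d n : ℕ) (Ψ : R[X][X]) : R[X] :=
  ∑ k ∈ range (K + 1), ∑ l ∈ range (d + 1),
    if q * k + p * l = n then C ((Ψ.coeff k).coeff l) * X ^ l else 0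

lemma st_coeff_zero (K d n : ℕ) (Ψ : R[X][X])
    (hn : ∀ k l, (Ψ.coeff k).coeff l ≠ 0 → n ≤ q * k + p * l) :
    (st A B τ p q K d n Ψ).coeff 0 = ∑ k ∈ range (K + 1), ∑ l ∈ range (d + 1),
      if q * k + p * l = n then
        C ((Ψ.coeff k).coeff l * A ^ k * B ^ l) * (C τ + X) ^ l else 0 := by
  unfold st
  rw [finsetSum_coeff]
  refine Finset.sum_congr rfl (fun k _ => ?_)
  rw [finsetSum_coeff]
  refine Finset.sum_congr rfl (fun l _ => ?_)
  rw [coeff_C_mul_X_pow]
  by_cases h0 : (Ψ.coeff k).coeff l = 0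
  · rw [h0]
    simp
  · have h1 := hn k l h0
    by_cases h2 : q * k + p * l = n
    · rw [if_pos h2, if_pos (by omega)]
    · rw [if_neg h2, if_neg (by omega)]

lemma lineP_coeff (K d n : ℕ) (Ψ : R[X][X]) (hK : Ψ.natDegree ≤ K) (hq : 1 ≤ q)
    (hd : ∀ k, (Ψ.coeff k).natDegree ≤ d) (k l : ℕ)
    (h : q * k + p * l = n) : (lineP p q K d n Ψ).coeff l = (Ψ.coeff k).coeff l := by
  classical
  unfold lineP
  rw [finsetSum_coeff]
  have h1 : ∀ k' ∈ range (K + 1), (∑ l' ∈ range (d + 1),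
      if q * k' + p * l' = n then C ((Ψ.coeff k').coeff l') * X ^ l' else 0 : R[X]).coeff l
      = if k' = k then (Ψ.coeff k).coeff l else 0 := by
    intro k' _
    rw [finsetSum_coeff]
    by_cases hk : k' = k
    · rw [if_pos hk, hk]
      by_cases hl : l ≤ d
      · rw [Finset.sum_eq_single l]
        · rw [if_pos h, coeff_C_mul, coeff_X_pow, if_pos rfl, mul_one]
        · intro l' _ hne
          split_ifs
          · rw [coeff_C_mul, coeff_X_pow, if_neg (Ne.symm hne), mul_zero]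
          · exact coeff_zero _
        · intro hl'
          exact absurd (Finset.mem_range.mpr (by omega)) hl'
      · push Not at hl
        rw [coeff_eq_zero_of_natDegree_lt (lt_of_le_of_lt (hd k) hl)]
        apply Finset.sum_eq_zero
        intro l' hl'
        have := Finset.mem_range.mp hl'
        split_ifs
        · rw [coeff_C_mul, coeff_X_pow, if_neg (by omega), mul_zero]
        · exact coeff_zero _
    · rw [if_neg hk]
      apply Finset.sum_eq_zero
      intro l' _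
      split_ifs with h2
      · rw [coeff_C_mul, coeff_X_pow]
        split_ifs with h3
        · exfalso
          apply hk
          rw [← h3] at h2
          have h4 : q * k' = q * k := by omega
          exact Nat.eq_of_mul_eq_mul_left (by omega) h4
        · rw [mul_zero]
      · exact coeff_zero _
  rw [Finset.sum_congr rfl h1, Finset.sum_ite_eq' (range (K + 1)) k]
  split_ifs with h2
  · rfl
  · rw [coeff_eq_zero_of_natDegree_lt (p := Ψ)]
    · exact (coeff_zero _).symm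
    · have := mt Finset.mem_range.mpr h2
      omega

lemma lineP_coeff_ne (K d n : ℕ) (Ψ : R[X][X]) (hK : Ψ.natDegree ≤ K)
    (hq : 1 ≤ q) (hd : ∀ k, (Ψ.coeff k).natDegree ≤ d) (l : ℕ)
    (h : (lineP p q K d n Ψ).coeff l ≠ 0) :
    ∃ k, q * k + p * l = n ∧ (Ψ.coeff k).coeff l ≠ 0 := by
  classical
  by_cases h1 : ∃ k, q * k + p * l = n
  · obtain ⟨k, hk⟩ := h1
    refine ⟨k, hk, ?_⟩
    rw [← lineP_coeff p q K d n Ψ hK hq hd k l hk]
    exact h
  · push Not at h1
    exfalso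
    apply h
    unfold lineP
    rw [finsetSum_coeff]
    apply Finset.sum_eq_zero
    intro k _
    rw [finsetSum_coeff]
    apply Finset.sum_eq_zero
    intro l' _
    split_ifs with h2
    · rw [coeff_C_mul, coeff_X_pow]
      split_ifs with h3
      · exfalso
        rw [← h3] at h2
        exact h1 k h2
      · rw [mul_zero]
    · exact coeff_zero _

lemma natDegree_st_le (K d n : ℕ) (Ψ : R[X][X]) :
    (st A B τ p q K d n Ψ).natDegree ≤ q * K + p * d := by
  unfold st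
  refine natDegree_sum_le_of_forall_le _ _ (fun k hk => ?_)
  refine natDegree_sum_le_of_forall_le _ _ (fun l hl => ?_)
  have h1 := Finset.mem_range.mp hk
  have h2 := Finset.mem_range.mp hl
  refine (natDegree_C_mul_X_pow_le _ _).trans ?_
  have h3 : q * k ≤ q * K := Nat.mul_le_mul_left _ (by omega)
  have h4 : p * l ≤ p * d := Nat.mul_le_mul_left _ (by omega)
  omega

lemma st_coeff_natDegree_le (K d n : ℕ) (Ψ : R[X][X]) (i : ℕ) :
    ((st A B τ p q K d n Ψ).coeff i).natDegree ≤ d := by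
  unfold st
  rw [finsetSum_coeff]
  refine natDegree_sum_le_of_forall_le _ _ (fun k hk => ?_)
  rw [finsetSum_coeff]
  refine natDegree_sum_le_of_forall_le _ _ (fun l hl => ?_)
  have h2 := Finset.mem_range.mp hl
  rw [coeff_C_mul_X_pow]
  split_ifs
  · refine (natDegree_C_mul_le _ _).trans ((natDegree_pow_le).trans ?_)
    have h3 : (C τ + X : R[X]).natDegree ≤ 1 :=
      (natDegree_add_le _ _).trans (by simp [natDegree_X_le])
    calc l * (C τ + X : R[X]).natDegree ≤ l * 1 := Nat.mul_le_mul_left _ h3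
      _ ≤ d := by omega
  · simp

/-- size of the strict transform -/
lemma st_l1 (ν : Nrm R) (K d n : ℕ) (Ψ : R[X][X]) (hK : Ψ.natDegree ≤ K)
    (hd : ∀ k, (Ψ.coeff k).natDegree ≤ d) (M : ℝ) (hM : 1 ≤ M) (hA : ν.v A ≤ M)
    (hB : ν.v B ≤ M) (hτ : ν.v τ ≤ 1) :
    ν.poly.l1 (st A B τ p q K d n Ψ) ≤ ν.poly.l1 Ψ * (M ^ K * (2 * M) ^ d) := by
  have hM0 : 0 ≤ M := by linarith
  have hL : ν.poly.l1 Ψ = ∑ k ∈ range (K + 1), ∑ l ∈ range (d + 1),
      ν.v ((Ψ.coeff k).coeff l) := by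
    rw [ν.poly.l1_eq_range Ψ (K + 1) (by omega)]
    refine Finset.sum_congr rfl (fun k _ => ?_)
    change ν.l1 (Ψ.coeff k) = _
    rw [ν.l1_eq_range (Ψ.coeff k) (d + 1) (by have := hd k; omega)]
  rw [hL]
  unfold st
  refine (ν.poly.poly.sum_le _ _).trans ?_
  rw [Finset.sum_mul]
  refine Finset.sum_le_sum (fun k hk => ?_)
  refine (ν.poly.poly.sum_le _ _).trans ?_
  rw [Finset.sum_mul]
  refine Finset.sum_le_sum (fun l hl => ?_)
  have hk' := Finset.mem_range.mp hk
  have hl' := Finset.mem_range.mp hl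
  have hψ0 : 0 ≤ ν.v ((Ψ.coeff k).coeff l) := ν.nonneg _
  change ν.poly.l1 _ ≤ _
  refine (ν.poly.l1_mul_le _ _).trans ?_
  have e1 : ν.poly.l1 (C (C ((Ψ.coeff k).coeff l * A ^ k * B ^ l) * (C τ + X) ^ l) : R[X][X])
      ≤ (ν.v ((Ψ.coeff k).coeff l) * M ^ k * M ^ l) * 2 ^ l := by
    rw [ν.poly.l1_C]
    change ν.l1 _ ≤ _
    refine (ν.l1_mul_le _ _).trans ?_
    refine mul_le_mul ?_ ?_ (ν.l1_nonneg _) (by positivity)
    · rw [ν.l1_C]
      refine (ν.mul_le _ _).trans ?_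
      refine mul_le_mul ((ν.mul_le _ _).trans ?_) ((ν.pow_le _ _).trans
        (pow_le_pow_left₀ (ν.nonneg _) hB _)) (ν.nonneg _) (by positivity)
      exact mul_le_mul_of_nonneg_left ((ν.pow_le _ _).trans
        (pow_le_pow_left₀ (ν.nonneg _) hA _)) hψ0
    · change ν.poly.v _ ≤ _
      refine (ν.poly.pow_le _ _).trans (pow_le_pow_left₀ (ν.poly.nonneg _) ?_ _)
      refine (ν.poly.add_le _ _).trans ?_
      have h1 : ν.poly.v (C τ : R[X]) ≤ 1 := by
        change ν.l1 _ ≤ _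
        rw [ν.l1_C]; exact hτ
      have h2 : ν.poly.v (X : R[X]) ≤ 1 := by
        change ν.l1 _ ≤ _
        rw [← monomial_one_one_eq_X, ν.l1_monomial]
        exact ν.one_le
      linarith
  have e3 : 0 ≤ ν.v ((Ψ.coeff k).coeff l) * M ^ k * M ^ l * 2 ^ l := by positivity
  calc ν.poly.l1 (C (C ((Ψ.coeff k).coeff l * A ^ k * B ^ l) * (C τ + X) ^ l) : R[X][X]) *
        ν.poly.l1 (X ^ (q * k + p * l - n) : R[X][X])
      ≤ ((ν.v ((Ψ.coeff k).coeff l) * M ^ k * M ^ l) * 2 ^ l) * 1 :=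
        mul_le_mul e1 (l1_X_pow ν _) (ν.poly.l1_nonneg _) e3
    _ = ν.v ((Ψ.coeff k).coeff l) * (M ^ k * (2 * M) ^ l) := by rw [mul_pow]; ring
    _ ≤ ν.v ((Ψ.coeff k).coeff l) * (M ^ K * (2 * M) ^ d) := by
        refine mul_le_mul_of_nonneg_left ?_ hψ0
        refine mul_le_mul (pow_le_pow_right₀ hM (by omega))
          (pow_le_pow_right₀ (by linarith) (by omega)) (by positivity) (by positivity)

end

end Pool.Agent.H20.G
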