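import Pool.Agent.H20.N9

set_option autoImplicit false

namespace Pool.Agent.H20.G

open Polynomial Finset NumberField Module

section

variable {E L : Type*} [Field E] [Field L] [Algebra E L]

/-- Multiplicity of a root. -/
lemma root_mult [CharZero E] (χ : E[X]) (hχ : χ ≠ 0) (ξ : L) (hξ : aeval ξ χ = 0) :
    ∃ (j : ℕ) (g : L[X]), 1 ≤ j ∧ j * (minpoly E ξ).natDegree ≤ χ.natDegree ∧
      χ.map (algebraMap E L) = (X - C ξ) ^ j * g ∧ g.eval ξ ≠ 0 := by
  obtain ⟨j, g, hj, hχg, hg⟩ := exists_minpoly_pow χ hχ ξ hξ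
  have hint : IsIntegral E ξ := by
    have halg : IsAlgebraic E ξ := ⟨χ, hχ, hξ⟩
    exact halg.isIntegral
  set π := minpoly E ξ with hπ
  have hsep : π.Separable := (minpoly.irreducible hint).separable
  have h1 : (π.map (algebraMap E L)).eval ξ = 0 := by
    rw [eval_map_algebraMap]
    exact minpoly.aeval E _
  have h2 : (derivative (π.map (algebraMap E L))).eval ξ ≠ 0 := by
    rw [derivative_map, eval_map_algebraMap]
    exact hsep.aeval_derivative_ne_zero (minpoly.aeval E _)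
  obtain ⟨ρ, hρ, hρ1⟩ := simple_root_factor _ ξ h1 h2
  refine ⟨j, ρ ^ j * g.map (algebraMap E L), hj, ?_, ?_, ?_⟩
  · have hg0 : g ≠ 0 := by
      rintro rfl
      simp at hg
    rw [hχg, natDegree_mul (pow_ne_zero _ (minpoly.ne_zero hint)) hg0, natDegree_pow, ← hπ]
    omega
  · rw [hχg, Polynomial.map_mul, Polynomial.map_pow, hρ, mul_pow]
    ring
  · rw [eval_mul, eval_pow, eval_map_algebraMap]
    exact mul_ne_zero (pow_ne_zero _ hρ1) hg

end

lemma coeff_of_comp' (g g₁ : ℂ[X]) (β : ℂ) (j : ℕ) (hg : g = (X - C β) ^ j * g₁)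
    (hg₁ : g₁.eval β ≠ 0) :
    (∀ l < j, (g.comp (X + C β)).coeff l = 0) ∧ (g.comp (X + C β)).coeff j ≠ 0 := by
  have h1 : g.comp (X + C β) = X ^ j * (g₁.comp (X + C β)) := by
    rw [hg, mul_comp, pow_comp, sub_comp, X_comp, C_comp]
    ring
  constructor
  · intro l hl
    rw [h1, coeff_X_pow_mul', if_neg (by omega)]
  · rw [h1, coeff_X_pow_mul', if_pos le_rfl, Nat.sub_self, coeff_zero_eq_eval_zero,
      eval_comp]
    simpa using hg₁

section

variable {R : Type*} [CommRing R]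

lemma zt_base (α : R) : zt (C α) 1 0 = C (X + C α) := by
  unfold zt
  rw [Polynomial.map_C, ← C_mul_X_pow_eq_monomial, pow_zero, mul_one, C_1, one_mul, ← C_add,
    add_comm]

lemma Phi_eq_F0 (d : ℕ) (c : ℕ → ℕ → ℤ) (α : R) :
    Phi d c α = F0 d c (C (C 1) * X ^ 1) (zt (C α) 1 0) := by
  rw [zt_base]
  unfold Phi F0
  refine Finset.sum_congr rfl (fun j _ => ?_)
  refine Finset.sum_congr rfl (fun i _ => ?_)
  rw [← C_mul_X_pow_eq_monomial, C_1, C_1, one_mul, pow_one, C_mul, C_pow, map_intCast,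
    map_intCast]
  ring

lemma Phi_natDegree (d : ℕ) (c : ℕ → ℕ → ℤ) (α : R) : (Phi d c α).natDegree ≤ d := by
  unfold Phi
  refine natDegree_sum_le_of_forall_le _ _ (fun j _ => ?_)
  refine natDegree_sum_le_of_forall_le _ _ (fun i _ => ?_)
  exact (natDegree_monomial_le _).trans (by omega)

lemma Phi_coeff_zero_map (φ : R →+* ℂ) (d : ℕ) (c : ℕ → ℕ → ℤ) (α : R) :
    ((Phi d c α).coeff 0).map φ = ((ld d c).map (Int.castRingHom ℂ)).comp (X + C (φ α)) := by
  rw [Phi_coeff_zero, Polynomial.map_sum]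
  unfold ld
  rw [Polynomial.map_sum, Polynomial.sum_comp]
  refine Finset.sum_congr rfl (fun j _ => ?_)
  rw [Polynomial.map_mul, Polynomial.map_pow, Polynomial.map_add, map_X, Polynomial.map_C,
    Polynomial.map_C, map_monomial, ← C_mul_X_pow_eq_monomial, mul_comp, C_comp, pow_comp, X_comp,
    map_intCast]
  simp

end

lemma span_bot : Submodule.span ℚ
    ((algebraMap (𝓞 (⊥ : IntermediateField ℚ ℂ)) (⊥ : IntermediateField ℚ ℂ)) ''
      ({1} : Set (𝓞 (⊥ : IntermediateField ℚ ℂ)))) = ⊤ := by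
  rw [eq_top_iff]
  intro x _
  obtain ⟨q, hq⟩ := IntermediateField.mem_bot.mp x.2
  have h1 : x = q • (1 : (⊥ : IntermediateField ℚ ℂ)) := by
    apply Subtype.ext
    rw [← hq, IntermediateField.coe_smul]
    simp [Algebra.smul_def]
  rw [h1]
  refine Submodule.smul_mem _ _ (Submodule.subset_span ⟨1, rfl, map_one _⟩)

/-- The base node. -/
theorem exists_base (d : ℕ) (hd : 1 ≤ d) (c : ℕ → ℕ → ℤ) (hc : c 0 d = 1) (a b : ℤ) (ha : a ≠ 0)
    (hz : evalEval a b (fP d c) = 0) (h : ℝ) (hh : 2 ≤ h) (hS : hS d c ≤ h)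
    (hbig : h ^ (d + 2) ≤ |(a : ℝ)|) :
    ∃ (N : Node d c a b) (_ : NumberField N.E), N.Ht d (h ^ (2 * d + 2)) ∧
      ‖N.s‖ * |(a : ℝ)| = 1 ∧ ‖N.ζ‖ ^ d * |(a : ℝ)| ≤ h ^ (d + 1) := by
  classical
  have hh1 : 1 ≤ h := by linarith
  have hh0 : 0 < h := by linarith
  have hH := one_le_hS d c hc
  have haC : (a : ℂ) ≠ 0 := by exact_mod_cast ha
  have hapos : 0 < |(a : ℝ)| := abs_pos.mpr (by exact_mod_cast ha)
  have hmon : ((ld d c).map (Int.castRingHom ℂ)).Monic := (ld_monic d c hc).map _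
  have hnd : ((ld d c).map (Int.castRingHom ℂ)).natDegree = d := by
    rw [(ld_monic d c hc).natDegree_map, ld_natDegree d c hc]
  have hsmall := ld_small d c hd hc a b ha hz
  have hsmall' : ‖((ld d c).map (Int.castRingHom ℂ)).eval ((b : ℂ) / a)‖ * |(a : ℝ)|
      ≤ h ^ (d + 1) := by
    rw [eval_map]
    exact hsmall.trans (pow_le_pow_left₀ (by linarith) hS _)
  obtain ⟨α, hα, hαn⟩ := exists_root_near ((ld d c).map (Int.castRingHom ℂ)) hmon.ne_zero d hnd.le
    ((b : ℂ) / a) h 0 (by rw [hmon.leadingCoeff]; simp) hh0.le (by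
      rw [pow_zero, one_mul]
      by_contra hcon
      push Not at hcon
      have h1 : h ^ (d + 2) ≤ h ^ (d + 1) := by
        calc h ^ (d + 2) ≤ |(a : ℝ)| := hbig
          _ = 1 * |(a : ℝ)| := (one_mul _).symm
          _ ≤ _ := mul_le_mul_of_nonneg_right hcon hapos.le
          _ ≤ _ := hsmall'
      have h2 : h ^ (d + 1) < h ^ (d + 2) := pow_lt_pow_right₀ (by linarith) (by omega)
      linarith)
  rw [pow_zero, one_mul] at hαn
  have hα0 : eval₂ (Int.castRingHom ℂ) α (ld d c) = 0 := by rw [← eval_map]; exact hα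
  -- the field
  set χ : (⊥ : IntermediateField ℚ ℂ)[X] :=
    (ld d c).map (Int.castRingHom (⊥ : IntermediateField ℚ ℂ)) with hχ
  have hχm : χ.Monic := (ld_monic d c hc).map _
  have hχα : aeval α χ = 0 := by
    rw [hχ, aeval_def, eval₂_map, ← hα0]
    congr 1
  obtain ⟨j, g₁, hj1, hjd, hjg, hg₁⟩ := root_mult χ hχm.ne_zero α hχα
  have hint : IsIntegral (⊥ : IntermediateField ℚ ℂ) α := ⟨χ, hχm, by
    rw [← hχα, aeval_def]⟩
  have hfd0 : FiniteDimensional ℚ (⊥ : IntermediateField ℚ ℂ) := inferInstance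
  have hfd := finiteDimensional_ext ⊥ α hint
  have nf : NumberField (ext ⊥ α) := { to_finiteDimensional := hfd }
  have hfr := finrank_ext ⊥ α hint
  rw [IntermediateField.finrank_bot, one_mul] at hfr
  have hmem : α ∈ ext ⊥ α := self_mem_ext ⊥ α
  have hev0 : eval₂ (Int.castRingHom (ext ⊥ α)) ⟨α, hmem⟩ (ld d c) = 0 := by
    apply Subtype.ext
    have h2 := hom_eval₂ (ld d c) (Int.castRingHom (ext ⊥ α)) ((ext ⊥ α).val.toRingHom) ⟨α, hmem⟩
    have h3 : ((ext ⊥ α).val.toRingHom).comp (Int.castRingHom (ext ⊥ α)) = Int.castRingHom ℂ :=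
      RingHom.ext_int _ _
    rw [h3] at h2
    exact h2.trans hα0
  have hintZ : IsIntegral ℤ (⟨α, hmem⟩ : ext ⊥ α) := ⟨ld d c, ld_monic d c hc, by
    rw [← hev0]; rfl⟩
  let η : 𝓞 (ext ⊥ α) := ⟨⟨α, hmem⟩, hintZ⟩
  have hη : emb (ext ⊥ α) η = α := rfl
  have hηh : (nrmHouse (ext ⊥ α)).v η ≤ h :=
    (house_le_of_root (ext ⊥ α) d c hd hc ⟨α, hmem⟩ hev0).trans hS
  have hΦ0 : ((Phi d c η).coeff 0).map (emb (ext ⊥ α))
      = ((ld d c).map (Int.castRingHom ℂ)).comp (X + C α) := Phi_coeff_zero_map _ d c η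
  have hldg : (ld d c).map (Int.castRingHom ℂ) = (X - C α) ^ j * g₁ := by
    rw [← hjg, hχ, Polynomial.map_map]
    congr 1
  obtain ⟨hc1, hc2⟩ := coeff_of_comp' _ g₁ α j hldg hg₁
  have hχd : χ.natDegree = d := by
    rw [hχ, (ld_monic d c hc).natDegree_map, ld_natDegree d c hc]
  rw [hχd] at hjd
  have hevz : ev (emb (ext ⊥ α)) (a : ℂ)⁻¹ ((b : ℂ) / a - α) (zt (C η) 1 0) = (b : ℂ) / a := by
    rw [ev_zt, eval₂_C, hη]
    simp
  have hevT : ev (emb (ext ⊥ α)) (a : ℂ)⁻¹ ((b : ℂ) / a - α) (C (C 1) * X ^ 1) = (a : ℂ)⁻¹ := by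
    rw [map_mul, map_pow, ev_C, ev_X]
    simp
  let N : Node d c a b :=
    { E := ext ⊥ α
      nf := nf
      m := 1
      w := 1
      V := C η
      v := 1
      k₀ := 0
      μ := 0
      Ψ := Phi d c η
      r := j
      s := (a : ℂ)⁻¹
      ζ := (b : ℂ) / a - α
      S := {x | ∃ s ∈ ({1} : Set (𝓞 (⊥ : IntermediateField ℚ ℂ))),
        ∃ l < (minpoly (⊥ : IntermediateField ℚ ℂ) α).natDegree, x = incl (le_ext ⊥ α) s * η ^ l}
      m_pos := le_rfl
      r_pos := hj1
      w_ne := one_ne_zero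
      v_ne := one_ne_zero
      s_ne := inv_ne_zero haC
      rel := by rw [pow_zero, one_mul]; exact Phi_eq_F0 d c η
      lt := by
        intro l hl
        apply emb_injective
        rw [← coeff_map, hΦ0, hc1 l hl, map_zero]
      ne := by
        intro h0
        apply hc2
        rw [← hΦ0, coeff_map, h0, map_zero]
      deg := fun k => Phi_coeff_natDegree d c η k
      hdeg := by
        rw [hfr, mul_one, mul_comm]
        exact hjd
      inv := fun _ => le_rfl
      hs := by simp [haC]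
      hb := by
        rw [hevz]
        field_simp
      zero := by
        rw [Phi_eq_F0, map_F0, hevz, hevT]
        have h1 := F0_eval d c (a : ℂ) ((b : ℂ) / a) haC
        have h2 : (a : ℂ) * ((b : ℂ) / a) = b := by field_simp
        rw [h2, evC_int, hz, Int.cast_zero] at h1
        rcases mul_eq_zero.mp h1 with h3 | h3
        · exact absurd h3 (pow_ne_zero _ haC)
        · exact h3
      span := span_ext ⊥ α hint 1 one_ne_zero η (by rw [map_one, one_mul]; exact hη) {1} span_bot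
      Vdeg := by rw [natDegree_C]
      dist := by
        intro σ σ' x x' hx hx' h1 h2
        rw [map_one, map_one, map_one, one_mul, one_mul, pow_one, pow_one] at h1
        refine ⟨?_, h1⟩
        have h3 := h2 0 le_rfl
        rw [coeff_C_zero, pow_zero, pow_zero, mul_one, mul_one] at h3
        refine hom_ext_span (ext ⊥ α) _
          (span_ext ⊥ α hint 1 one_ne_zero η (by rw [map_one, one_mul]; exact hη) {1} span_bot)
          σ σ' ?_
        rintro _ ⟨s, hs, j, hj, rfl⟩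
        rw [Set.mem_singleton_iff] at hs
        subst hs
        rw [map_one, one_mul, map_pow, map_pow, map_pow, h3] }
  refine ⟨N, nf, ?_, ?_, ?_⟩
  · have h1h : (nrmHouse (ext ⊥ α)).v 1 ≤ h ^ (2 * d + 2) :=
      (nrmHouse _).one_le.trans (one_le_pow₀ hh1)
    have h2h : 1 + (nrmHouse (ext ⊥ α)).v η ≤ h ^ 2 := by nlinarith
    have h22 : h ^ 2 ≤ h ^ (2 * d + 2) := pow_le_pow_right₀ hh1 (by omega)
    refine ⟨Phi_natDegree d c η, ?_, Nat.zero_le _, Nat.zero_le _, h1h, h1h, ?_, ?_, ?_⟩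
    · change (zt (C η) 1 0).natDegree ≤ d
      rw [zt_base, natDegree_C]
      exact Nat.zero_le _
    · change (nrmHouse (ext ⊥ α)).poly.l1 (zt (C η) 1 0) ≤ _
      rw [zt_base, (nrmHouse (ext ⊥ α)).poly.l1_C]
      refine le_trans ?_ (h2h.trans h22)
      have h3 := l1_X_add_C_pow_le (nrmHouse (ext ⊥ α)) η 1
      rw [pow_one, pow_one] at h3
      exact h3
    · change (nrmHouse (ext ⊥ α)).poly.l1 (Phi d c η) ≤ _
      refine (Phi_l1 (nrmHouse (ext ⊥ α)) d c η).trans ?_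
      calc _ ≤ h * (h ^ 2) ^ d := by
            refine mul_le_mul hS ?_ (by have := (nrmHouse (ext ⊥ α)).nonneg η; positivity) hh0.le
            exact pow_le_pow_left₀ (by have := (nrmHouse (ext ⊥ α)).nonneg η; positivity) h2h _
        _ = h ^ (2 * d + 1) := by rw [← pow_mul, ← pow_succ']
        _ ≤ _ := pow_le_pow_right₀ hh1 (by omega)
    · rintro _ ⟨x, hx, l, hl, rfl⟩
      rw [Set.mem_singleton_iff] at hx
      subst hx
      rw [map_one, one_mul]
      have hl' : l ≤ d := by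
        have h3 : (minpoly (⊥ : IntermediateField ℚ ℂ) α).natDegree
            ≤ j * (minpoly (⊥ : IntermediateField ℚ ℂ) α).natDegree :=
          Nat.le_mul_of_pos_left _ hj1
        omega
      calc (nrmHouse (ext ⊥ α)).v (η ^ l) ≤ (nrmHouse (ext ⊥ α)).v η ^ l := (nrmHouse _).pow_le _ _
        _ ≤ h ^ l := pow_le_pow_left₀ ((nrmHouse _).nonneg _) hηh _
        _ ≤ _ := pow_le_pow_right₀ hh1 (by omega)
  · change ‖(a : ℂ)⁻¹‖ * |(a : ℝ)| = 1
    rw [norm_inv, Complex.norm_intCast]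
    exact inv_mul_cancel₀ hapos.ne'
  · change ‖(b : ℂ) / a - α‖ ^ d * |(a : ℝ)| ≤ h ^ (d + 1)
    exact (mul_le_mul_of_nonneg_right hαn hapos.le).trans hsmall'

end Pool.Agent.H20.G
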