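import Pool.Agent.H20.N10

set_option autoImplicit false

namespace Pool.Agent.H20.G

open Polynomial Finset NumberField Module

lemma Node.Ht.mono {d : ℕ} {c : ℕ → ℕ → ℤ} {a b : ℤ} {N : Node d c a b} [NumberField N.E]
    {D D' : ℕ} {h h' : ℝ} (hN : N.Ht D h) (hD : D ≤ D') (hh : h ≤ h') : N.Ht D' h' where
  dΨ := hN.dΨ.trans hD
  dz := hN.dz.trans hD
  dμ := hN.dμ.trans hD
  dk := hN.dk.trans hD
  hw := hN.hw.trans hh
  hv := hN.hv.trans hh
  hz := hN.hz.trans hh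
  hΨ := hN.hΨ.trans hh
  hS := fun x hx => (hN.hS x hx).trans hh

/-- A node with controlled data. -/
def Good (d C : ℕ) (c : ℕ → ℕ → ℤ) (a b : ℤ) (h : ℝ) (Q : Node d c a b → Prop) : Prop :=
  ∃ (N : Node d c a b) (_ : NumberField N.E), Q N ∧ N.Ht C (h ^ C) ∧
    ‖N.s‖ ^ C * |(a : ℝ)| ≤ 1 ∧ ‖N.ζ‖ ^ C * |(a : ℝ)| ≤ 1

lemma pow_small {x A : ℝ} {m n : ℕ} (hx : 0 ≤ x) (hA : 1 ≤ A) (hm : m ≠ 0) (hmn : m ≤ n)
    (h : x ^ m * A ≤ 1) : x ^ n * A ≤ 1 := by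
  have h1 : x ≤ 1 := by
    by_contra hcon
    push Not at hcon
    have h2 : 1 < x ^ m := one_lt_pow₀ hcon hm
    nlinarith
  calc x ^ n * A ≤ x ^ m * A := mul_le_mul_of_nonneg_right
        (pow_le_pow_of_le_one hx h1 hmn) (by linarith)
    _ ≤ 1 := h

lemma small_of_pow (x A h : ℝ) (C M : ℕ) (hC : 1 ≤ C) (hx : 0 ≤ x) (hh : 1 ≤ h)
    (h1 : x ^ C * A ≤ 1) (h2 : h ^ (M * C) ≤ A) : h ^ M * x ≤ 1 := by
  have h3 : (h ^ M * x) ^ C ≤ 1 := by
    calc (h ^ M * x) ^ C = x ^ C * h ^ (M * C) := by rw [mul_pow, ← pow_mul]; ring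
      _ ≤ x ^ C * A := mul_le_mul_of_nonneg_left h2 (by positivity)
      _ ≤ 1 := h1
  by_contra hcon
  push Not at hcon
  have := one_lt_pow₀ hcon (by omega : C ≠ 0)
  linarith

/-- The Newton–Puiseux algorithm with heights. -/
theorem iterate (d : ℕ) (hd : 1 ≤ d) (i : ℕ) :
    ∃ C : ℕ, 1 ≤ C ∧ ∀ (c : ℕ → ℕ → ℤ), c 0 d = 1 → Irreducible (fP d c) → ∀ a b : ℤ, a ≠ 0 →
      evalEval a b (fP d c) = 0 → ∀ h : ℝ, 2 ≤ h → hS d c ≤ h → h ^ C ≤ |(a : ℝ)| →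
      Good d C c a b h (fun N => i ≤ N.k₀ ∨ N.r = 1) := by
  induction i with
  | zero =>
    refine ⟨2 * d + 2, by omega, ?_⟩
    intro c hc hirr a b ha hz h hh hS hbig
    have hh1 : 1 ≤ h := by linarith
    have haone : (1 : ℝ) ≤ |(a : ℝ)| := by exact_mod_cast Int.one_le_abs ha
    obtain ⟨N, nf, hN, hs, hζ⟩ := exists_base d hd c hc a b ha hz h hh hS
      ((pow_le_pow_right₀ hh1 (by omega)).trans hbig)
    refine ⟨N, nf, Or.inl (Nat.zero_le _), hN.mono (by omega) le_rfl, ?_, ?_⟩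
    · refine pow_small (norm_nonneg _) haone one_ne_zero (by omega) ?_
      rw [pow_one]
      exact hs.le
    · refine pow_small (m := 2 * d) (norm_nonneg _) haone (by omega) (by omega) ?_
      have h1 : (‖N.ζ‖ ^ d * |(a : ℝ)|) ^ 2 ≤ (h ^ (d + 1)) ^ 2 :=
        pow_le_pow_left₀ (by positivity) hζ 2
      have h2 : (‖N.ζ‖ ^ (2 * d) * |(a : ℝ)|) * |(a : ℝ)| ≤ 1 * |(a : ℝ)| := by
        calc (‖N.ζ‖ ^ (2 * d) * |(a : ℝ)|) * |(a : ℝ)| = (‖N.ζ‖ ^ d * |(a : ℝ)|) ^ 2 := by ring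
          _ ≤ (h ^ (d + 1)) ^ 2 := h1
          _ = h ^ (2 * d + 2) := by rw [← pow_mul]; congr 1; ring
          _ ≤ |(a : ℝ)| := hbig
          _ = 1 * |(a : ℝ)| := (one_mul _).symm
      exact le_of_mul_le_mul_right h2 (by linarith)
  | succ i ih =>
    obtain ⟨C, hC1, hC⟩ := ih
    refine ⟨M0 d C * C * C + C * M1 d C + 4 * d * C + 2 * d ^ 2 * C + C * (d + 2), ?_, ?_⟩
    · have : 1 * 1 ≤ C * (d + 2) := Nat.mul_le_mul hC1 (by omega)
      omega
    intro c hc hirr a b ha hz h hh hS hbig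
    set C' := M0 d C * C * C + C * M1 d C + 4 * d * C + 2 * d ^ 2 * C + C * (d + 2) with hC'
    have hh1 : 1 ≤ h := by linarith
    have haone : (1 : ℝ) ≤ |(a : ℝ)| := by exact_mod_cast Int.one_le_abs ha
    have hCC' : C ≤ C' := by
      have : C * 1 ≤ C * (d + 2) := Nat.mul_le_mul_left _ (by omega)
      omega
    obtain ⟨N, nf, hQ, hN, hs, hζ⟩ := hC c hc hirr a b ha hz h hh hS
      ((pow_le_pow_right₀ hh1 hCC').trans hbig)
    by_cases hr : N.r = 1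
    · refine ⟨N, nf, Or.inr hr, hN.mono hCC' (pow_le_pow_right₀ hh1 hCC'), ?_, ?_⟩
      · exact pow_small (norm_nonneg _) haone (by omega) hCC' hs
      · exact pow_small (norm_nonneg _) haone (by omega) hCC' hζ
    · have hk := hQ.resolve_right hr
      have hr2 : 2 ≤ N.r := by have := N.r_pos; omega
      have hC2 : 2 ≤ h ^ C := by
        calc (2 : ℝ) ≤ h := hh
          _ = h ^ 1 := (pow_one h).symm
          _ ≤ h ^ C := pow_le_pow_right₀ hh1 hC1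
      have hMM : (h ^ C) ^ (M0 d C * C) ≤ |(a : ℝ)| := by
        rw [← pow_mul]
        refine (pow_le_pow_right₀ hh1 ?_).trans hbig
        have : C * (M0 d C * C) = M0 d C * C * C := by ring
        omega
      have hsm := small_of_pow ‖N.s‖ |(a : ℝ)| (h ^ C) C (M0 d C) hC1 (norm_nonneg _) (by linarith)
        hs hMM
      have hζm := small_of_pow ‖N.ζ‖ |(a : ℝ)| (h ^ C) C (M0 d C) hC1 (norm_nonneg _)
        (by linarith) hζ hMM
      by_cases hζ0 : N.ζ = 0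
      · obtain ⟨N', nf', hr', hs', hζ', hN'⟩ := N.exact hd hc hirr nf hr2 C hC1 (h ^ C) hC2 hN
          hζ0 hsm
        refine ⟨N', nf', Or.inr hr', hN'.mono (by omega) ?_, ?_, ?_⟩
        · rw [← pow_mul]
          exact pow_le_pow_right₀ hh1 (by omega)
        · rw [hs']
          exact pow_small (norm_nonneg _) haone (by omega) hCC' hs
        · rw [hζ', norm_zero, zero_pow (by omega), zero_mul]
          exact zero_le_one
      · obtain ⟨N', nf', hk', hs', hζ', hN'⟩ := N.step hd nf hr2 C hC1 (h ^ C) hC2 hN hζ0 hsm hζm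
        have key : ∀ x : ℝ, 0 ≤ x → x ^ (2 * d ^ 2) ≤ ‖N.s‖ → x ^ C' * |(a : ℝ)| ≤ 1 := by
          intro x hx hxs
          have hd2 : 1 ≤ d ^ 2 := Nat.one_le_pow _ _ hd
          have hdC : 1 * 1 ≤ 2 * d ^ 2 * C := Nat.mul_le_mul (by omega) hC1
          refine pow_small (m := 2 * d ^ 2 * C) hx haone (by omega) (by omega) ?_
          calc x ^ (2 * d ^ 2 * C) * |(a : ℝ)| = (x ^ (2 * d ^ 2)) ^ C * |(a : ℝ)| := by
                rw [← pow_mul]
            _ ≤ ‖N.s‖ ^ C * |(a : ℝ)| := mul_le_mul_of_nonneg_right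
                (pow_le_pow_left₀ (by positivity) hxs _) (by linarith)
            _ ≤ 1 := hs
        refine ⟨N', nf', Or.inl (by omega), hN'.mono ?_ ?_, key _ (norm_nonneg _) hs',
          key _ (norm_nonneg _) hζ'⟩
        · have h1 : 2 * d * C ≤ 4 * d * C := Nat.mul_le_mul_right _ (by omega)
          omega
        · rw [← pow_mul]
          exact pow_le_pow_right₀ hh1 (by omega)

/-- Every large point has a simple node. -/
theorem exists_simple (d : ℕ) (hd : 1 ≤ d) :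
    ∃ C : ℕ, 1 ≤ C ∧ ∀ (c : ℕ → ℕ → ℤ), c 0 d = 1 → Irreducible (fP d c) → ∀ a b : ℤ, a ≠ 0 →
      evalEval a b (fP d c) = 0 → ∀ h : ℝ, 2 ≤ h → hS d c ≤ h → h ^ C ≤ |(a : ℝ)| →
      Good d C c a b h (fun N => N.r = 1) := by
  obtain ⟨C, hC1, hC⟩ := iterate d hd (2 * d ^ 3 + 1)
  refine ⟨C, hC1, ?_⟩
  intro c hc hirr a b ha hz h hh hS hbig
  obtain ⟨N, nf, hQ, hN, hs, hζ⟩ := hC c hc hirr a b ha hz h hh hS hbig
  refine ⟨N, nf, ?_, hN, hs, hζ⟩
  rcases hQ with hk | hr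
  · by_contra hr
    have hr2 : 2 ≤ N.r := by have := N.r_pos; omega
    have h1 := N.inv hr2
    have h2 := mu_le d c hd hc hirr N.m N.m_pos N.w N.w_ne N.V N.v N.v_ne N.k₀ N.μ N.Ψ N.rel
    obtain ⟨-, hmd, -⟩ := N.r_le nf
    have h3 : N.m * (2 * d ^ 2) ≤ d * (2 * d ^ 2) := Nat.mul_le_mul_right _ hmd
    have h4 : d * (2 * d ^ 2) = 2 * d ^ 3 := by ring
    omega
  · exact hr

end Pool.Agent.H20.G
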