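import Pool.Agent.H20.N11
import Pool.Agent.H20.Gen5

set_option autoImplicit false

namespace Pool.Agent.H20.G

open Polynomial Finset NumberField Module

section

variable {E : Type*} [Field E] [CharZero E]

/-- A version of Hensel's lemma for polynomials which need not be monic. -/
lemma hensel_power (P : (PowerSeries E)[X]) (h0 : PowerSeries.constantCoeff (P.coeff 0) = 0)
    (h1 : PowerSeries.constantCoeff (P.coeff 1) ≠ 0) :
    ∃ z : PowerSeries E, PowerSeries.constantCoeff z = 0 ∧ P.eval z = 0 := by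
  classical
  set n := P.natDegree + 2 with hn
  have hunit : IsUnit (P.coeff 1) := by
    rw [PowerSeries.isUnit_iff_constantCoeff]
    exact IsUnit.mk0 _ h1
  obtain ⟨i₁, hi₁⟩ := hunit.exists_right_inv
  set g₀ := P.coeff 0 with hg₀
  let q : ℕ → PowerSeries E := fun j =>
    if j = 0 then 1 else if j = 1 then 1 else P.coeff j * g₀ ^ (j - 1) * i₁ ^ j
  have hq : ∀ j, g₀ * q j = P.coeff j * (g₀ * i₁) ^ j := by
    intro j
    simp only [q]
    split_ifs with hj0 hj1
    · rw [hj0, pow_zero]
    · rw [hj1, pow_one, mul_one]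
      linear_combination -g₀ * hi₁
    · obtain ⟨k, rfl⟩ : ∃ k, j = k + 1 := ⟨j - 1, by omega⟩
      rw [Nat.add_sub_cancel, mul_pow, pow_succ g₀ k]
      ring
  have hqI : ∀ j, 2 ≤ j → PowerSeries.constantCoeff (q j) = 0 := by
    intro j hj
    simp only [q]
    rw [if_neg (by omega), if_neg (by omega), map_mul, map_mul, map_pow, h0,
      zero_pow (by omega), mul_zero, zero_mul]
  set Q : (PowerSeries E)[X] := ∑ j ∈ range (n + 1), monomial (n - j) (q j) with hQ
  have hQc : Q.coeff n = 1 := by
    rw [hQ, finsetSum_coeff, Finset.sum_eq_single 0]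
    · rw [Nat.sub_zero, coeff_monomial, if_pos rfl]
      simp [q]
    · intro j hj hj0
      have := Finset.mem_range.mp hj
      rw [coeff_monomial, if_neg (by omega)]
    · intro h
      exact absurd (Finset.mem_range.mpr (by omega)) h
  have hQd : Q.natDegree ≤ n := by
    refine natDegree_sum_le_of_forall_le _ _ (fun j _ => ?_)
    exact (natDegree_monomial_le _).trans (by omega)
  have hQm : Q.Monic := monic_of_natDegree_le_of_coeff_eq_one n hQd hQc
  have hQe : ∀ ω : PowerSeries E, Q.eval ω = ∑ j ∈ range (n + 1), q j * ω ^ (n - j) := by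
    intro ω
    rw [hQ, eval_finsetSum]
    exact Finset.sum_congr rfl (fun j _ => eval_monomial)
  have hQd' : ∀ ω : PowerSeries E, (derivative Q).eval ω
      = ∑ j ∈ range (n + 1), q j * ((n - j : ℕ) : PowerSeries E) * ω ^ (n - j - 1) := by
    intro ω
    rw [hQ, derivative_sum, eval_finsetSum]
    refine Finset.sum_congr rfl (fun j _ => ?_)
    rw [derivative_monomial, eval_monomial]
  have hsplit : ∀ F : ℕ → E, (∀ j, 2 ≤ j → F j = 0) → ∑ j ∈ range (n + 1), F j = F 0 + F 1 := by
    intro F hF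
    have h2 : n + 1 = 2 + (P.natDegree + 1) := by omega
    rw [h2, Finset.sum_range_add, Finset.sum_range_succ, Finset.sum_range_one]
    rw [Finset.sum_eq_zero (fun j _ => hF (2 + j) (by omega)), add_zero]
  obtain ⟨ω, hω, hω1⟩ := HenselianRing.is_henselian (I := Ideal.span {(PowerSeries.X : PowerSeries E)})
    Q hQm (-1)
    (by
      rw [Ideal.mem_span_singleton, PowerSeries.X_dvd_iff, hQe, map_sum,
        hsplit (fun j => PowerSeries.constantCoeff (q j * (-1) ^ (n - j)))]
      · simp only [q, if_true, one_ne_zero, if_false, one_mul, map_pow, map_neg, map_one]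
        have h2 : n - 0 = (P.natDegree + 1) + 1 := by omega
        have h3 : n - 1 = P.natDegree + 1 := by omega
        rw [h2, h3, pow_succ (-1 : E) (P.natDegree + 1)]
        ring
      · intro j hj
        rw [map_mul, hqI j hj, zero_mul])
    (by
      apply IsUnit.map
      rw [PowerSeries.isUnit_iff_constantCoeff, hQd', map_sum,
        hsplit (fun j => PowerSeries.constantCoeff
          (q j * ((n - j : ℕ) : PowerSeries E) * (-1) ^ (n - j - 1)))]
      · simp only [q, if_true, one_ne_zero, if_false, one_mul, map_mul, map_pow, map_neg, map_one,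
          map_natCast]
        have h2 : n - 0 = P.natDegree + 2 := by omega
        have h3 : n - 1 = P.natDegree + 1 := by omega
        have h5 : P.natDegree + 1 - 1 = P.natDegree := by omega
        rw [h2, h3, h5, pow_succ (-1 : E) P.natDegree]
        have h6 : ((P.natDegree + 2 : ℕ) : E) * ((-1) ^ P.natDegree * -1)
            + ((P.natDegree + 1 : ℕ) : E) * (-1) ^ P.natDegree = -((-1) ^ P.natDegree) := by
          push_cast
          ring
        rw [h6]
        exact (((isUnit_one.neg).pow _)).neg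
      · intro j hj
        rw [map_mul, map_mul, hqI j hj, zero_mul, zero_mul])
  rw [Ideal.mem_span_singleton, PowerSeries.X_dvd_iff, map_sub, map_neg, map_one, sub_eq_zero]
    at hω1
  have hωu : IsUnit ω := by
    rw [PowerSeries.isUnit_iff_constantCoeff, hω1]
    exact isUnit_one.neg
  obtain ⟨υ, hυ⟩ := hωu.exists_right_inv
  refine ⟨g₀ * i₁ * υ, ?_, ?_⟩
  · rw [map_mul, map_mul, h0, zero_mul, zero_mul]
  · rw [IsRoot, hQe] at hω
    have h2 : ω ^ n * P.eval (g₀ * i₁ * υ) = 0 := by
      rw [eval_eq_sum_range' (by omega : P.natDegree < n + 1), Finset.mul_sum]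
      have h3 : ∀ j ∈ range (n + 1), ω ^ n * (P.coeff j * (g₀ * i₁ * υ) ^ j)
          = g₀ * (q j * ω ^ (n - j)) := by
        intro j hj
        have hj' := Finset.mem_range.mp hj
        have h4 : ω ^ n = ω ^ (n - j) * ω ^ j := by rw [← pow_add]; congr 1; omega
        have h5 : ω ^ j * υ ^ j = 1 := by rw [← mul_pow, hυ, one_pow]
        rw [← mul_assoc g₀, hq, h4, mul_pow (g₀ * i₁) υ]
        calc ω ^ (n - j) * ω ^ j * (P.coeff j * ((g₀ * i₁) ^ j * υ ^ j))
            = P.coeff j * (g₀ * i₁) ^ j * ω ^ (n - j) * (ω ^ j * υ ^ j) := by ring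
          _ = _ := by rw [h5, mul_one]
      rw [Finset.sum_congr rfl h3, ← Finset.mul_sum, hω, mul_zero]
    exact (hωu.pow n).mul_right_eq_zero.mp h2

end

section

variable {R A : Type*} [CommRing R] [CommRing A]

/-- evaluation with values in a general ring -/
noncomputable def evA (φ : R →+* A) (t ζ : A) : R[X][X] →+* A :=
  eval₂RingHom (eval₂RingHom φ ζ) t

lemma evA_C (φ : R →+* A) (t ζ : A) (p : R[X]) : evA φ t ζ (C p) = eval₂ φ ζ p := by
  simp [evA]

lemma evA_X (φ : R →+* A) (t ζ : A) : evA φ t ζ X = t := by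
  simp [evA]

end

section

variable {A : Type*} [Field A]

lemma F0_eval' (d : ℕ) (c : ℕ → ℕ → ℤ) (x z : A) (hx : x ≠ 0) :
    x ^ d * F0 d c x⁻¹ z = evR x (x * z) (fP d c) := by
  rw [evR_fP]
  unfold F0
  rw [Finset.mul_sum]
  refine Finset.sum_congr rfl (fun j hj => ?_)
  rw [Finset.mul_sum]
  refine Finset.sum_congr rfl (fun i hi => ?_)
  have hj' := Finset.mem_range.mp hj
  have hi' := Finset.mem_range.mp hi
  have e1 : x ^ d = x ^ (d - i - j) * x ^ (i + j) := by
    rw [← pow_add]; congr 1; omega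
  rw [e1, mul_pow, inv_pow, pow_add]
  have : x ^ (d - i - j) ≠ 0 := pow_ne_zero _ hx
  field_simp

end

/-- The power series given by a simple node. -/
theorem Node.series {d : ℕ} {c : ℕ → ℕ → ℤ} {a b : ℤ} (N : Node d c a b) (hr : N.r = 1) :
    ∃ z : PowerSeries N.E, PowerSeries.constantCoeff z = 0 ∧
      evA (PowerSeries.C.comp (algebraMap (𝓞 N.E) N.E)) PowerSeries.X z N.Ψ = 0 := by
  classical
  set φ : 𝓞 N.E →+* PowerSeries N.E := PowerSeries.C.comp (algebraMap (𝓞 N.E) N.E) with hφ
  -- the equation as a polynomial in `ζ` over the power series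
  set P : (PowerSeries N.E)[X] :=
    eval₂RingHom (mapRingHom φ) (C (PowerSeries.X : PowerSeries N.E)) N.Ψ with hP
  have hPe : ∀ z : PowerSeries N.E, P.eval z = evA φ PowerSeries.X z N.Ψ := by
    intro z
    have h1 : (evalRingHom z).comp (eval₂RingHom (mapRingHom φ)
        (C (PowerSeries.X : PowerSeries N.E))) = evA φ PowerSeries.X z := by
      apply Polynomial.ringHom_ext'
      · apply Polynomial.ringHom_ext'
        · ext1 x
          simp [evA]
        · simp [evA]
      · simp [evA]
    exact RingHom.congr_fun h1 N.Ψ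
  have hPc : ∀ l, PowerSeries.constantCoeff (P.coeff l)
      = algebraMap (𝓞 N.E) N.E ((N.Ψ.coeff 0).coeff l) := by
    intro l
    have h2 : (mapRingHom (PowerSeries.constantCoeff (R := N.E))).comp
        (eval₂RingHom (mapRingHom φ) (C (PowerSeries.X : PowerSeries N.E)))
        = (mapRingHom (algebraMap (𝓞 N.E) N.E)).comp (evalRingHom 0) := by
      apply Polynomial.ringHom_ext'
      · apply Polynomial.ringHom_ext'
        · ext1 x
          simp [hφ]
        · simp
      · simp
    have h3 := congrArg (fun p => p.coeff l) (RingHom.congr_fun h2 N.Ψ)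
    simp only [RingHom.comp_apply, coe_mapRingHom, coeff_map, coe_evalRingHom,
      ← coeff_zero_eq_eval_zero] at h3
    exact h3
  obtain ⟨z, hz0, hz⟩ := hensel_power P (by
      rw [hPc, N.lt 0 (by omega), map_zero]) (by
      rw [hPc]
      have h4 := N.ne
      rw [hr] at h4
      intro h5
      exact h4 (RingOfIntegers.coe_injective (by rw [map_zero]; exact h5)))
  rw [hPe] at hz
  exact ⟨z, hz0, hz⟩

/-- The Laurent series point given by a simple node. -/
theorem Node.laurent {d : ℕ} {c : ℕ → ℕ → ℤ} {a b : ℤ} (N : Node d c a b) (hr : N.r = 1) :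
    ∃ X Y : LaurentSeries N.E, evR X Y (fP d c) = 0 ∧ X.coeff (-(N.m : ℤ)) ≠ 0 ∧
      ∀ n : ℤ, n < -(N.m : ℤ) → X.coeff n = 0 ∧ Y.coeff n = 0 := by
  classical
  obtain ⟨z, hz0, hz⟩ := N.series hr
  set φ : 𝓞 N.E →+* PowerSeries N.E := PowerSeries.C.comp (algebraMap (𝓞 N.E) N.E) with hφ
  -- the Laurent series
  set ι := HahnSeries.ofPowerSeries ℤ N.E with hι
  have hιinj : Function.Injective ι := HahnSeries.ofPowerSeries_injective
  have hw : (algebraMap (𝓞 N.E) N.E N.w) ≠ 0 := fun h0 =>
    N.w_ne (RingOfIntegers.coe_injective (by rw [map_zero]; exact h0))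
  set T : PowerSeries N.E := evA φ PowerSeries.X z (C (C N.w) * X ^ N.m) with hT
  set Z : PowerSeries N.E := evA φ PowerSeries.X z (zt N.V N.v N.k₀) with hZ
  have hTs : ι T = HahnSeries.single (N.m : ℤ) (algebraMap (𝓞 N.E) N.E N.w) := by
    rw [hT, map_mul, map_pow, evA_C, evA_X, eval₂_C, map_mul, hι, HahnSeries.ofPowerSeries_X_pow]
    have h5 : φ N.w = PowerSeries.C (algebraMap (𝓞 N.E) N.E N.w) := rfl
    rw [h5, HahnSeries.ofPowerSeries_C, HahnSeries.C_apply, HahnSeries.single_mul_single]
    simp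
  have hT0 : ι T ≠ 0 := by
    rw [hTs]
    exact HahnSeries.single_ne_zero hw
  have hX : (ι T)⁻¹ = HahnSeries.single (-(N.m : ℤ)) (algebraMap (𝓞 N.E) N.E N.w)⁻¹ := by
    rw [hTs, HahnSeries.inv_single]
  refine ⟨(ι T)⁻¹, (ι T)⁻¹ * ι Z, ?_, ?_, ?_⟩
  · rw [← F0_eval' d c _ _ (inv_ne_zero hT0), inv_inv, ← map_F0]
    have h6 := congrArg (evA φ PowerSeries.X z) N.rel
    rw [map_F0, map_mul, hz, mul_zero] at h6
    rw [← h6, map_zero, mul_zero]
  · rw [hX, HahnSeries.coeff_single_same]
    exact inv_ne_zero hw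
  · intro n hn
    have h7 : ((ι T)⁻¹).coeff n = 0 := by
      rw [hX, HahnSeries.coeff_single_of_ne (by omega)]
    refine ⟨h7, ?_⟩
    rw [hX]
    have h8 : n = (n + N.m) + (-(N.m : ℤ)) := by ring
    rw [h8, mul_comm, HahnSeries.coeff_mul_single_add]
    have h9 : (ι Z).coeff (n + N.m) = 0 := by
      rw [hι, HahnSeries.ofPowerSeries_apply, HahnSeries.embDomain_of_notMem_range]
      rintro ⟨k, hk⟩
      have h10 : ((k : ℕ) : ℤ) = n + N.m := hk
      have h11 : (0 : ℤ) ≤ ((k : ℕ) : ℤ) := Int.natCast_nonneg k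
      omega
    rw [h9, zero_mul]

end Pool.Agent.H20.G
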