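import Pool.Agent.H20.G8

set_option autoImplicit false

namespace Pool.Agent.H20.G

open Polynomial Finset NumberField Module Metric

/-- exponents -/
def rT (d : ℕ) : ℕ := d * (2 * d ^ 2 + d) + 1
/-- exponents -/
def rG (d : ℕ) : ℕ := (2 * d ^ 2 * d + (d + 1 + (rT d + (2 * d ^ 2 + d)))) * (2 * d)
/-- exponents -/
def rE (d : ℕ) : ℕ := 2 * d ^ 2 * d + (rG d + (2 * d ^ 2 + d))
/-- exponents -/
def rF (d : ℕ) : ℕ := d ^ 2 * rT d + ((d ^ 2 + 2) * rT d + rE d) * d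
/-- exponents -/
def kR (d : ℕ) : ℕ := rF d + ((2 * d).factorial + (2 * d ^ 2 * d + rG d) * (2 * d)) + d ^ 2

lemma runge_card (e m d : ℕ) (hm : 1 ≤ m) (hem : e * m < d) :
    (2 * d + 1) * (e * (m * (2 * d ^ 2 + d) + 1)) ≤ 2 * d * (2 * d ^ 2 * d) := by
  have he : e ≤ e * m := Nat.le_mul_of_pos_right _ hm
  have h1 : e * (m * (2 * d ^ 2 + d) + 1) ≤ (e * m) * (2 * d ^ 2 + d + 1) := by
    calc e * (m * (2 * d ^ 2 + d) + 1) = (e * m) * (2 * d ^ 2 + d) + e := by ring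
      _ ≤ (e * m) * (2 * d ^ 2 + d) + e * m := by omega
      _ = (e * m) * (2 * d ^ 2 + d + 1) := by ring
  have h2 : (e * m) * (2 * d ^ 2 + d + 1) + (2 * d ^ 2 + d + 1) ≤ d * (2 * d ^ 2 + d + 1) := by
    calc (e * m) * (2 * d ^ 2 + d + 1) + (2 * d ^ 2 + d + 1)
        = (e * m + 1) * (2 * d ^ 2 + d + 1) := by ring
      _ ≤ d * (2 * d ^ 2 + d + 1) := Nat.mul_le_mul_right _ (by omega)
  have h3 : (2 * d + 1) * (e * (m * (2 * d ^ 2 + d) + 1)) + (2 * d + 1) * (2 * d ^ 2 + d + 1)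
      ≤ (2 * d + 1) * (d * (2 * d ^ 2 + d + 1)) := by
    rw [← Nat.mul_add]
    exact Nat.mul_le_mul_left _ (by omega)
  have h4 : (2 * d + 1) * (d * (2 * d ^ 2 + d + 1))
      ≤ 2 * d * (2 * d ^ 2 * d) + (2 * d + 1) * (2 * d ^ 2 + d + 1) := by
    have e1 : (2 * d + 1) * (d * (2 * d ^ 2 + d + 1)) = 4 * d ^ 4 + 4 * d ^ 3 + 3 * d ^ 2 + d := by
      ring
    have e2 : 2 * d * (2 * d ^ 2 * d) + (2 * d + 1) * (2 * d ^ 2 + d + 1)
        = 4 * d ^ 4 + 4 * d ^ 3 + 4 * d ^ 2 + 3 * d + 1 := by ring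
    rw [e1, e2]
    omega
  omega

lemma l1_smul_le {R : Type*} [CommRing R] (ν : Nrm R) (r : R) (u : R[X][X]) :
    ν.poly.l1 (r • u) ≤ ν.v r * ν.poly.l1 u := by
  have h1 : r • u = C (C r) * u := by
    ext1 i
    rw [coeff_C_mul, coeff_smul, smul_eq_C_mul]
  rw [h1]
  refine (ν.poly.l1_mul_le _ _).trans ?_
  rw [l1_CC]

/-- Runge's method: an integral point near a place at infinity which is not the only one. -/
theorem CP.runge {L : Type} [Field L] [NumberField L] (φ : 𝓞 L →+* ℂ) (ψ : L →+* ℂ)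
    (hψ : φ = ψ.comp (algebraMap (𝓞 L) L)) (d m : ℕ) (hd : 1 ≤ d) (hm : 1 ≤ m)
    (hem : finrank ℚ L * m < d) (S : Set (𝓞 L))
    (hS : Submodule.span ℚ ((algebraMap (𝓞 L) L) '' S) = ⊤) (h : ℝ) (hh : 2 ≤ h)
    (hSh : ∀ s ∈ S, (nrmHouse L).v s ≤ h) (P : CP L φ d m h) :
    |(P.a : ℝ)| ≤ h ^ kR d := by
  classical
  have hφn : ∀ a, ‖φ a‖ ≤ (nrmHouse L).v a := by
    intro a; rw [hψ]; exact norm_phi_le ψ a
  have hh1 : 1 ≤ h := by linarith
  have hh0 : 0 < h := by linarith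
  have hfr : 0 < finrank ℚ L := finrank_pos
  have hmd : m ≤ d := by
    have : m ≤ finrank ℚ L * m := Nat.le_mul_of_pos_left _ hfr
    omega
  have hfd : finrank ℚ L ≤ d := by
    have : finrank ℚ L ≤ finrank ℚ L * m := Nat.le_mul_of_pos_right _ hm
    omega
  have hdd : d ≤ d ^ 2 := Nat.le_self_pow (by norm_num) d
  have hfd2 : finrank ℚ L ≤ d ^ 2 := hfd.trans hdd
  -- parameters
  set Λ := 2 * d ^ 2 with hΛ
  set T := m * (Λ + d) + 1 with hT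
  have hTT : T ≤ rT d := by
    have h1 : m * (Λ + d) ≤ d * (Λ + d) := Nat.mul_le_mul_right _ hmd
    have h2 : rT d = d * (Λ + d) + 1 := rfl
    omega
  obtain ⟨co, hinj, hco⟩ := exists_co L S hS h hSh
  have hfrR : (1 : ℝ) ≤ (finrank ℚ L : ℝ) := by exact_mod_cast hfr
  have hcK1 : (1 : ℝ) ≤ finrank ℚ L * h := one_le_mul_of_one_le_of_one_le hfrR hh1
  have hcK : (finrank ℚ L : ℝ) * h ≤ h ^ (d + 1) := by
    rw [pow_succ]
    exact mul_le_mul_of_nonneg_right (natCast_le_pow' _ _ h hh hfd) hh0.le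
  let M : Fin T → (Fin Λ × Fin d) → 𝓞 L := fun l u => c0 ((tau P.Φ ^ (l : ℕ)) (P.mn u.1 u.2))
  have hM : ∀ l u, (nrmHouse L).v (M l u) ≤ h ^ (rT d + (Λ + d)) := by
    rintro l ⟨i, j⟩
    refine (ell_le (nrmHouse L) P.Φ P.w m d Λ (zt P.V P.v P.k₀) i j h hh1 P.w_le P.z_le P.Φ_le
      i.isLt.le j.isLt.le l).trans ?_
    apply pow_le_pow_right₀ hh1
    have := l.isLt
    omega
  have hcard : (2 * d + 1) * (Fintype.card (Fin (finrank ℚ L)) * Fintype.card (Fin T)) ≤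
      2 * d * Fintype.card (Fin Λ × Fin d) := by
    simp only [Fintype.card_prod, Fintype.card_fin]
    exact runge_card (finrank ℚ L) m d hm hem
  have hne : Nonempty (Fin T) := ⟨⟨0, by omega⟩⟩
  have hne2 : Nonempty (Fin (finrank ℚ L)) := ⟨⟨0, finrank_pos⟩⟩
  obtain ⟨g, hg0, hgM, hgb⟩ := siegel_co co hinj (nrmHouse L) (finrank ℚ L * h) hcK1 hco M
    (h ^ (rT d + (Λ + d))) (one_le_pow₀ hh1) hM (2 * d) hcard
  have hcU : (Fintype.card (Fin Λ × Fin d) : ℝ) ≤ h ^ (2 * d ^ 2 * d) := by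
    refine natCast_le_pow' _ _ h hh ?_
    simp only [Fintype.card_prod, Fintype.card_fin]
    exact le_rfl
  have hG : ∀ u, |(g u : ℝ)| ≤ h ^ rG d := by
    intro u
    refine (hgb u).trans ?_
    calc ((Fintype.card (Fin Λ × Fin d) : ℝ) * (finrank ℚ L * h * h ^ (rT d + (Λ + d)))) ^ (2 * d)
        ≤ (h ^ (2 * d ^ 2 * d) * (h ^ (d + 1) * h ^ (rT d + (Λ + d)))) ^ (2 * d) := by
          gcongr
      _ = h ^ rG d := by
          rw [← pow_add, ← pow_add, ← pow_mul]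
          rfl
  -- the auxiliary function
  set U : (𝓞 L)[X][X] := ∑ i, ((g i : ℤ) : 𝓞 L) • P.mn i.1 i.2 with hU
  have hUv : ∀ l < T, c0 ((tau P.Φ ^ l) U) = 0 := by
    intro l hl
    rw [hU]
    simp only [map_sum, map_smul, smul_eq_mul]
    exact hgM ⟨l, hl⟩
  have hUl : (nrmHouse L).poly.l1 U ≤ h ^ rE d := by
    rw [hU]
    refine ((nrmHouse L).poly.l1_sum_le' _ _).trans ?_
    calc ∑ i : Fin Λ × Fin d, (nrmHouse L).poly.l1 (((g i : ℤ) : 𝓞 L) • P.mn i.1 i.2)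
        ≤ ∑ _i : Fin Λ × Fin d, h ^ rG d * h ^ (Λ + d) := by
          refine Finset.sum_le_sum (fun i _ => ?_)
          refine (l1_smul_le _ _ _).trans ?_
          refine mul_le_mul ((nrm_intCast_le _ _).trans (hG i)) ?_ ((nrmHouse L).poly.l1_nonneg _)
            (by positivity)
          exact mn_l1 (nrmHouse L) P.w m d Λ _ _ _ h hh1 P.w_le P.z_le i.1.isLt.le i.2.isLt.le
      _ = (Fintype.card (Fin Λ × Fin d) : ℝ) * (h ^ rG d * h ^ (Λ + d)) := by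
          rw [Finset.sum_const, Finset.card_univ, nsmul_eq_mul]
      _ ≤ h ^ (2 * d ^ 2 * d) * (h ^ rG d * h ^ (Λ + d)) :=
          mul_le_mul_of_nonneg_right hcU (by positivity)
      _ = h ^ rE d := by rw [← pow_add, ← pow_add]; rfl
  by_cases hbig : |(P.a : ℝ)| ≤ h ^ (d ^ 2)
  · refine hbig.trans (pow_le_pow_right₀ hh1 ?_)
    unfold kR
    omega
  push Not at hbig
  -- size of `s`
  have hw := one_le_w φ ψ hψ d hfd2 h hh1 P.w P.w_ne P.w_le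
  have haC := P.a_neC
  have hapos : 0 < |(P.a : ℝ)| := by
    have : 0 < h ^ (d ^ 2) := by positivity
    linarith
  have hsn : |(P.a : ℝ)| * (‖φ P.w‖ * ‖P.s‖ ^ m) = 1 := by
    have h1 := congrArg norm P.hs
    rw [norm_mul, norm_mul, norm_pow, Complex.norm_intCast, norm_one] at h1
    exact h1
  have hsm : |(P.a : ℝ)| * ‖P.s‖ ^ m ≤ h ^ (d ^ 2) := by
    calc |(P.a : ℝ)| * ‖P.s‖ ^ m = |(P.a : ℝ)| * ‖P.s‖ ^ m * 1 := (mul_one _).symm
      _ ≤ |(P.a : ℝ)| * ‖P.s‖ ^ m * (‖φ P.w‖ * h ^ (d ^ 2)) :=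
          mul_le_mul_of_nonneg_left hw (by positivity)
      _ = (|(P.a : ℝ)| * (‖φ P.w‖ * ‖P.s‖ ^ m)) * h ^ (d ^ 2) := by ring
      _ = h ^ (d ^ 2) := by rw [hsn, one_mul]
  have hs1 : ‖P.s‖ ≤ 1 := by
    by_contra hcon
    push Not at hcon
    have h1 : 1 ≤ ‖P.s‖ ^ m := one_le_pow₀ hcon.le
    nlinarith
  have hζn := (P.near' hh).le
  have hζ1 : ‖P.ζ‖ ≤ 1 := hζn.trans (sm_le_one d h hh)
  obtain ⟨hB, hδ⟩ := P.tB_bound φ ψ hψ d m hfd2 h hh P.ζ hζn P.s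
  have hval : ‖ev φ P.s P.ζ U‖ ≤ (‖P.s‖ * h ^ (d ^ 2 + 2)) ^ T * h ^ rE d := by
    rw [ev_expand φ P.s P.ζ P.Φ U P.root P.ev_zero hB T,
      Finset.sum_eq_zero (fun a ha => by
        rw [hUv a (Finset.mem_range.mp ha), map_zero, zero_mul]), zero_add, norm_mul, norm_pow]
    calc ‖P.s / eval₂ φ P.ζ (tB P.Φ)‖ ^ T * ‖ev φ P.s P.ζ ((tau P.Φ ^ T) U)‖
        ≤ ‖P.s / eval₂ φ P.ζ (tB P.Φ)‖ ^ T * ((nrmHouse L).poly.l1 P.Φ ^ T * h ^ rE d) := by
          refine mul_le_mul_of_nonneg_left ?_ (by positivity)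
          refine (ev_le (nrmHouse L) φ hφn P.s P.ζ hs1 hζ1 _).trans
            ((tau_pow_le (nrmHouse L) P.Φ _ T).trans ?_)
          exact mul_le_mul_of_nonneg_left hUl (pow_nonneg ((nrmHouse L).poly.l1_nonneg _) _)
      _ = (‖P.s / eval₂ φ P.ζ (tB P.Φ)‖ * (nrmHouse L).poly.l1 P.Φ) ^ T * h ^ rE d := by
          rw [mul_pow]; ring
      _ ≤ (‖P.s‖ * h ^ (d ^ 2 + 2)) ^ T * h ^ rE d := by
          refine mul_le_mul_of_nonneg_right ?_ (by positivity)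
          exact pow_le_pow_left₀
            (mul_nonneg (norm_nonneg _) ((nrmHouse L).poly.l1_nonneg _)) hδ _
  -- the polynomial
  let g' : (Fin 1 × Fin d) → (Fin Λ × Fin d) → ℤ := fun _ => g
  let i₀ : Fin 1 × Fin d := (0, ⟨0, hd⟩)
  set Q := Cpoly g' i₀ with hQ
  have hQv : ((evalEval P.a P.b Q : ℤ) : ℂ) = (P.a : ℂ) ^ (Λ + d) * ev φ P.s P.ζ U := by
    rw [hQ]
    unfold Cpoly
    rw [evalEval_finsetSum]
    push_cast
    rw [hU, map_sum, Finset.mul_sum]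
    refine Finset.sum_congr rfl (fun j _ => ?_)
    rw [ev_smul, map_intCast]
    unfold CP.mn
    rw [ev_mn φ P.s P.ζ P.a P.z P.w m _ j.1 j.2 haC P.hs rfl, ← C_mul_X_pow_eq_monomial,
      evalEval_mul, evalEval_pow, evalEval_X, evalEval_C, eval_monomial]
    have h1 := wval_eq (Λ₂ := Λ) (d := d) P.a P.b P.a_ne P.z P.b_eq j
    unfold wval at h1
    push_cast at h1 ⊢
    simp only [g']
    calc (g j : ℂ) * (P.a : ℂ) ^ (Λ + d - ↑j.1 - ↑j.2) * (P.b : ℂ) ^ (j.2 : ℕ)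
        = (g j : ℂ) * ((P.a : ℂ) ^ (Λ + d - ↑j.1 - ↑j.2) * (P.b : ℂ) ^ (j.2 : ℕ)) := by ring
      _ = _ := by rw [h1]; ring
  have hrhs : rF d ≤ kR d := by unfold kR; omega
  by_cases hbig2 : |(P.a : ℝ)| ≤ h ^ rF d
  · exact hbig2.trans (pow_le_pow_right₀ hh1 hrhs)
  push Not at hbig2
  have hzero : evalEval P.a P.b Q = 0 := by
    by_contra hne0
    have h1 : (1 : ℝ) ≤ ‖((evalEval P.a P.b Q : ℤ) : ℂ)‖ := by
      rw [Complex.norm_intCast]
      exact_mod_cast Int.one_le_abs hne0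
    rw [hQv, norm_mul, norm_pow, Complex.norm_intCast] at h1
    have h2 : 1 ≤ |(P.a : ℝ)| ^ (Λ + d) * ((‖P.s‖ * h ^ (d ^ 2 + 2)) ^ T * h ^ rE d) :=
      h1.trans (mul_le_mul_of_nonneg_left hval (by positivity))
    have h3 : 1 ≤ (|(P.a : ℝ)| ^ (Λ + d) * ((‖P.s‖ * h ^ (d ^ 2 + 2)) ^ T * h ^ rE d)) ^ m :=
      one_le_pow₀ h2
    have h4 : |(P.a : ℝ)| * (|(P.a : ℝ)| ^ (Λ + d) *
        ((‖P.s‖ * h ^ (d ^ 2 + 2)) ^ T * h ^ rE d)) ^ m
        = (|(P.a : ℝ)| * ‖P.s‖ ^ m) ^ T * h ^ (((d ^ 2 + 2) * T + rE d) * m) := by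
      rw [hT]
      ring
    have h5 : |(P.a : ℝ)| ≤ h ^ rF d := by
      calc |(P.a : ℝ)| = |(P.a : ℝ)| * 1 := (mul_one _).symm
        _ ≤ |(P.a : ℝ)| * (|(P.a : ℝ)| ^ (Λ + d) *
            ((‖P.s‖ * h ^ (d ^ 2 + 2)) ^ T * h ^ rE d)) ^ m :=
            mul_le_mul_of_nonneg_left h3 hapos.le
        _ = (|(P.a : ℝ)| * ‖P.s‖ ^ m) ^ T * h ^ (((d ^ 2 + 2) * T + rE d) * m) := h4
        _ ≤ (h ^ (d ^ 2)) ^ T * h ^ (((d ^ 2 + 2) * T + rE d) * m) :=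
            mul_le_mul_of_nonneg_right (pow_le_pow_left₀ (by positivity) hsm _) (by positivity)
        _ = h ^ (d ^ 2 * T + ((d ^ 2 + 2) * T + rE d) * m) := by
            rw [← pow_mul, ← pow_add]
        _ ≤ h ^ rF d := by
            apply pow_le_pow_right₀ hh1
            unfold rF
            have e1 : d ^ 2 * T ≤ d ^ 2 * rT d := Nat.mul_le_mul_left _ hTT
            have e2 : ((d ^ 2 + 2) * T + rE d) * m ≤ ((d ^ 2 + 2) * rT d + rE d) * d := by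
              refine Nat.mul_le_mul ?_ hmd
              have : (d ^ 2 + 2) * T ≤ (d ^ 2 + 2) * rT d := Nat.mul_le_mul_left _ hTT
              omega
            omega
    linarith
  -- the resultant
  obtain ⟨j₀, hj₀⟩ : ∃ j, g j ≠ 0 := by
    by_contra hcon
    push Not at hcon
    exact hg0 (funext hcon)
  have hQ0 : Q ≠ 0 := Cpoly_ne_zero g' i₀ j₀ hj₀
  have hmon := fP_monic d P.c P.top
  have hdeg := fP_natDegree d P.c P.top
  have hlt : Q.natDegree < d := Cpoly_natDegree_lt g' hd i₀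
  have h3 := not_dvd_of_natDegree_lt (fP d P.c) Q hmon hQ0 (by rw [hdeg]; exact hlt)
  have h4 := root_bound (fP d P.c) Q hmon P.irr P.a P.b P.a_ne (by omega) P.zero h3 hzero
  have hB1 : nrm2.v (fP d P.c) ≤ h ^ (2 * d ^ 2 * d + rG d) := by
    refine (fP_nrm d P.c).trans (P.hS_le.trans ?_)
    refine le_self_pow₀ hh1 ?_
    have : 0 < 2 * d ^ 2 * d := by positivity
    omega
  have hB2 : nrm2.v Q ≤ h ^ (2 * d ^ 2 * d + rG d) := by
    refine (Cpoly_nrm g' (h ^ rG d) (fun _ j => hG j) i₀).trans ?_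
    rw [pow_add]
    refine mul_le_mul_of_nonneg_right ?_ (by positivity)
    exact natCast_le_pow' _ _ h hh le_rfl
  have h5 := res_l1_le (fP d P.c) Q (fP d P.c).natDegree Q.natDegree _ hB1 hB2
  refine h4.trans ?_
  change nrm1.v _ ≤ _
  refine h5.trans ?_
  rw [hdeg]
  have e5 : d + Q.natDegree ≤ 2 * d := by omega
  calc ((d + Q.natDegree).factorial : ℝ) *
        (h ^ (2 * d ^ 2 * d + rG d)) ^ (d + Q.natDegree)
      ≤ ((2 * d).factorial : ℝ) * (h ^ (2 * d ^ 2 * d + rG d)) ^ (2 * d) := by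
        refine mul_le_mul ?_ ?_ (by positivity) (by positivity)
        · exact_mod_cast Nat.factorial_le e5
        · exact pow_le_pow_right₀ (one_le_pow₀ hh1) e5
    _ ≤ h ^ ((2 * d).factorial) * (h ^ (2 * d ^ 2 * d + rG d)) ^ (2 * d) :=
        mul_le_mul_of_nonneg_right (natCast_le_pow _ h hh) (by positivity)
    _ = h ^ ((2 * d).factorial + (2 * d ^ 2 * d + rG d) * (2 * d)) := by
        rw [← pow_mul, ← pow_add]
    _ ≤ h ^ kR d := by
        apply pow_le_pow_right₀ hh1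
        unfold kR
        omega

end Pool.Agent.H20.G
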