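import Pool.Agent.H20.S3
import Pool.Agent.H20.R1

set_option autoImplicit false

namespace Pool.Agent.H20.G

open Polynomial Finset NumberField Module

/-- the chart given by a simple node -/
noncomputable def Node.toCP {d : ℕ} {c : ℕ → ℕ → ℤ} {a b : ℤ} (N : Node d c a b)
    [NumberField N.E] (hr : N.r = 1) (hc : c 0 d = 1) (hirr : Irreducible (fP d c)) (ha : a ≠ 0)
    (hz : evalEval a b (fP d c) = 0) (D : ℕ) (h : ℝ) (hN : N.Ht D h) (y : ℝ)
    (hy : h ≤ y) (hS : hS d c ≤ y) (hn : ‖N.ζ‖ ≤ bet d y / (4 * y)) :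
    CP N.E (emb N.E) d N.m y where
  c := c
  w := N.w
  V := N.V
  v := N.v
  k₀ := N.k₀
  μ := N.μ
  Φ := N.Ψ
  a := a
  b := b
  s := N.s
  ζ := N.ζ
  top := hc
  irr := hirr
  w_ne := N.w_ne
  v_ne := N.v_ne
  root := N.lt 0 (by omega)
  simple := by
    have h1 := N.ne
    rw [hr] at h1
    unfold tB
    rw [coeff_divX]
    exact h1
  deg := N.deg
  rel := N.rel
  hS_le := hS
  w_le := hN.hw.trans hy
  Φ_le := hN.hΨ.trans hy
  z_le := hN.hz.trans hy
  a_ne := ha
  s_ne := N.s_ne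
  zero := hz
  hs := N.hs
  hb := N.hb
  near := hn

/-- A pair of Laurent series with a pole of order exactly `e ≥ 1`. -/
def Pole {L : Type} [Field L] (x y : LaurentSeries L) (e : ℕ) : Prop :=
  1 ≤ e ∧ (∀ n : ℤ, n < -(e : ℤ) → x.coeff n = 0 ∧ y.coeff n = 0) ∧
    (x.coeff (-(e : ℤ)) ≠ 0 ∨ y.coeff (-(e : ℤ)) ≠ 0)

/-- The condition at infinity: either there is a branch at infinity which is smaller than the
degree, or every field over which the curve has a branch at infinity contains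
a copy of a subfield of `K` of degree at least three. -/
def CondC (K : Type) [Field K] [NumberField K] (d : ℕ) (c : ℕ → ℕ → ℤ) : Prop :=
  (∃ (L : Type) (_ : Field L) (_ : NumberField L) (x y : LaurentSeries L) (e : ℕ),
    evR x y (fP d c) = 0 ∧ Pole x y e ∧ finrank ℚ L * e < d) ∨
  ∀ (L : Type) [Field L] [NumberField L] (x y : LaurentSeries L) (e : ℕ),
    evR x y (fP d c) = 0 → Pole x y e →
      ∃ F : IntermediateField ℚ K, 3 ≤ finrank ℚ F ∧ Nonempty (F →+* L)

/-- the image of a subfield in the complex numbers -/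
noncomputable def img {K : Type} [Field K] [NumberField K] (F : IntermediateField ℚ K)
    (σ : F →+* ℂ) : IntermediateField ℚ ℂ := (σ.toRatAlgHom).fieldRange

lemma mem_img {K : Type} [Field K] [NumberField K] (F : IntermediateField ℚ K)
    (σ : F →+* ℂ) (x : ℂ) : x ∈ img F σ ↔ ∃ y, σ y = x := Iff.rfl

lemma finrank_img {K : Type} [Field K] [NumberField K] (F : IntermediateField ℚ K)
    (σ : F →+* ℂ) : finrank ℚ (img F σ) = finrank ℚ F :=
  (LinearEquiv.finrank_eq (AlgEquiv.ofInjectiveField (σ.toRatAlgHom)).toLinearEquiv).symm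

/-- uniform bound over all subfields, embeddings and ramification indices -/
lemma uniform_MC (K : Type) [Field K] [NumberField K] (d : ℕ) (hd : 3 ≤ d) (κ₁ : ℕ)
    (hκ₁ : ∀ m, m ≤ d → kap d m ≤ κ₁) :
    ∃ A : ℝ, 2 ≤ A ∧ ∀ (F : IntermediateField ℚ K) (σ : F →+* ℂ) (m : ℕ), 3 ≤ finrank ℚ F →
      1 ≤ m → m ≤ d → ∀ P : MC (img F σ) d m κ₁, P.y ≤ A := by
  classical
  have hfin : Finite (IntermediateField ℚ K) :=
    (Field.exists_primitive_element_iff_finite_intermediateField ℚ K).mp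
      ⟨inferInstance, Field.exists_primitive_element ℚ K⟩
  let I := (Σ F : IntermediateField ℚ K, (F →+* ℂ)) × Fin (d + 1)
  have hIfin : Finite I := inferInstance
  have h1 : ∀ i : I, ∃ A : ℝ, 3 ≤ finrank ℚ i.1.1 → 1 ≤ (i.2 : ℕ) →
      ∀ P : MC (img i.1.1 i.1.2) d i.2 κ₁, P.y ≤ A := by
    intro i
    by_cases h : 3 ≤ finrank ℚ i.1.1 ∧ 1 ≤ (i.2 : ℕ)
    · obtain ⟨A, hA⟩ := MC.bounded (img i.1.1 i.1.2) (by rw [finrank_img]; exact h.1) d i.2 hd h.2
        κ₁ (hκ₁ _ (by have := i.2.isLt; omega))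
      exact ⟨A, fun _ _ => hA⟩
    · exact ⟨0, fun h1 h2 => absurd ⟨h1, h2⟩ h⟩
  choose A hA using h1
  obtain ⟨B, hB⟩ := (Set.finite_range A).bddAbove
  refine ⟨max 2 B, le_max_left _ _, fun F σ m hF hm hmd P => ?_⟩
  refine (hA ⟨⟨F, σ⟩, ⟨m, by omega⟩⟩ hF hm P).trans (le_trans ?_ (le_max_right _ _))
  exact hB (Set.mem_range_self _)

/-- exponents -/
noncomputable def kk (d C : ℕ) : ℕ :=
  ∑ m ∈ range (d + 1), kap d m + (2 * d ^ 2 + 4) * C + kR d + 1

/-- the monic case -/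
theorem monic_caseG (d : ℕ) (hd : 3 ≤ d) :
    ∃ κ : ℕ, ∀ (K : Type) [Field K] [NumberField K], ∃ A : ℝ, 1 ≤ A ∧
      ∀ c : ℕ → ℕ → ℤ, c 0 d = 1 → Irreducible (fP d c) → CondC K d c →
      ∀ a b : ℤ, evalEval a b (fP d c) = 0 →
        |(a : ℝ)| ≤ A * hS d c ^ κ ∧ |(b : ℝ)| ≤ A * hS d c ^ (κ + 1) := by
  have hd1 : 1 ≤ d := by omega
  obtain ⟨C, hC1, hC⟩ := exists_simple d hd1
  set κ₁ := kk d C with hκ₁
  have hkap : ∀ m, m ≤ d → kap d m ≤ κ₁ := by
    intro m hm
    have h1 : kap d m ≤ ∑ m ∈ range (d + 1), kap d m :=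
      Finset.single_le_sum (f := fun m => kap d m) (fun _ _ => Nat.zero_le _)
        (Finset.mem_range.mpr (by omega))
    rw [hκ₁]
    unfold kk
    omega
  have hκC : (2 * d ^ 2 + 4) * C ≤ κ₁ := by rw [hκ₁]; unfold kk; omega
  have hκR : kR d < κ₁ := by rw [hκ₁]; unfold kk; omega
  have hκpos : 0 < κ₁ := by
    have : 0 < (2 * d ^ 2 + 4) * C := by positivity
    omega
  refine ⟨C * (d * κ₁), fun K _ _ => ?_⟩
  obtain ⟨A, hA2, hA⟩ := uniform_MC K d hd κ₁ hkap
  have hA1 : 1 ≤ A := by linarith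
  have hB1 : (1 : ℝ) ≤ A ^ (d * κ₁) * 2 ^ (C * (d * κ₁)) :=
    one_le_mul_of_one_le_of_one_le (one_le_pow₀ hA1) (one_le_pow₀ (by norm_num))
  refine ⟨A ^ (d * κ₁) * 2 ^ (C * (d * κ₁)), hB1, ?_⟩
  intro c hc hirr hcond a b hz
  have hH := one_le_hS d c hc
  have hH0 : 0 < hS d c := by linarith
  by_cases ha : a = 0
  · -- the first coordinate vanishes
    subst ha
    refine ⟨by simp; positivity, ?_⟩
    have h1 : ‖(b : ℂ)‖ ≤ hS d c := by
      refine root_le_gen d c hd1 hc (b : ℂ) (fun i _ => (0 : ℂ) ^ i) (fun i j => ?_) (by simp) ?_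
      · change ‖(0 : ℂ) ^ i‖ ≤ 1
        rw [norm_pow, norm_zero]
        exact pow_le_one₀ le_rfl zero_le_one
      · have h2 := evC_int 0 b (fP d c)
        rw [hz, Int.cast_zero, fP_evC] at h2
        simpa using h2
    rw [Complex.norm_intCast] at h1
    calc |(b : ℝ)| ≤ hS d c := h1
      _ = 1 * hS d c ^ 1 := by ring
      _ ≤ _ := mul_le_mul hB1 (pow_le_pow_right₀ hH (by omega)) (by positivity) (by positivity)
  have hapos : 0 < |(a : ℝ)| := abs_pos.mpr (by exact_mod_cast ha)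
  have hmain : |(a : ℝ)| ≤ A ^ (d * κ₁) * 2 ^ (C * (d * κ₁)) * hS d c ^ (C * (d * κ₁)) := by
    set h := 2 * hS d c with hh
    have hh2 : 2 ≤ h := by linarith
    have hh1 : 1 ≤ h := by linarith
    have hrhs : A ^ (d * κ₁) * 2 ^ (C * (d * κ₁)) * hS d c ^ (C * (d * κ₁))
        = A ^ (d * κ₁) * h ^ (C * (d * κ₁)) := by rw [hh, mul_pow]; ring
    rw [hrhs]
    have hhp : 1 ≤ h ^ (C * (d * κ₁)) := one_le_pow₀ hh1
    have hAp : 1 ≤ A ^ (d * κ₁) := one_le_pow₀ hA1
    by_cases hlarge : h ^ (C * (d * κ₁)) ≤ |(a : ℝ)|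
    · have hCd : C ≤ C * (d * κ₁) := Nat.le_mul_of_pos_right _ (by positivity)
      obtain ⟨N, nf, hr, hN, hs, hζ⟩ := hC c hc hirr a b ha hz h hh2 (by linarith)
        ((pow_le_pow_right₀ hh1 hCd).trans hlarge)
      obtain ⟨-, hmd, -⟩ := N.r_le nf
      have hm1 := N.m_pos
      -- the parameter
      have hmκ0 : ((N.m * κ₁ : ℕ) : ℝ) ≠ 0 := by
        have : 0 < N.m * κ₁ := by positivity
        exact_mod_cast this.ne'
      obtain ⟨y, hy⟩ : ∃ y : ℝ, y = |(a : ℝ)| ^ (1 / ((N.m * κ₁ : ℕ) : ℝ)) := ⟨_, rfl⟩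
      have hy0 : 0 < y := by rw [hy]; positivity
      have hyk : |(a : ℝ)| = y ^ (N.m * κ₁) := by
        rw [hy, ← Real.rpow_natCast, ← Real.rpow_mul hapos.le, one_div, inv_mul_cancel₀ hmκ0,
          Real.rpow_one]
      have hhy : h ^ C ≤ y := by
        refine le_of_pow_le_pow_left₀ (by positivity : N.m * κ₁ ≠ 0) hy0.le ?_
        rw [← hyk, ← pow_mul]
        refine (pow_le_pow_right₀ hh1 ?_).trans hlarge
        exact Nat.mul_le_mul_left _ (Nat.mul_le_mul_right _ hmd)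
      have hC2 : h ≤ h ^ C := le_self_pow₀ hh1 (by omega)
      have hy2 : 2 ≤ y := by linarith
      have hy1 : 1 ≤ y := by linarith
      have hnear : ‖N.ζ‖ ≤ 1 / (4 * (y ^ 2) ^ (d ^ 2 + 1)) := by
        rw [le_div_iff₀ (by positivity)]
        have h1 : (‖N.ζ‖ * (4 * (y ^ 2) ^ (d ^ 2 + 1))) ^ C ≤ 1 ^ C := by
          rw [one_pow]
          calc (‖N.ζ‖ * (4 * (y ^ 2) ^ (d ^ 2 + 1))) ^ C
              ≤ (‖N.ζ‖ * (y ^ 2 * (y ^ 2) ^ (d ^ 2 + 1))) ^ C := by
                refine pow_le_pow_left₀ (by positivity) ?_ _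
                refine mul_le_mul_of_nonneg_left ?_ (norm_nonneg _)
                refine mul_le_mul_of_nonneg_right ?_ (by positivity)
                nlinarith
            _ = ‖N.ζ‖ ^ C * y ^ ((2 * d ^ 2 + 4) * C) := by
                rw [mul_pow, ← pow_succ', ← pow_mul, ← pow_mul]
                congr 2
                ring
            _ ≤ ‖N.ζ‖ ^ C * y ^ (N.m * κ₁) := by
                refine mul_le_mul_of_nonneg_left ?_ (by positivity)
                refine pow_le_pow_right₀ hy1 (hκC.trans ?_)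
                exact Nat.le_mul_of_pos_left _ hm1
            _ = ‖N.ζ‖ ^ C * |(a : ℝ)| := by rw [← hyk]
            _ ≤ 1 := hζ
        exact le_of_pow_le_pow_left₀ (by omega) zero_le_one h1
      have hnear' : ‖N.ζ‖ ≤ bet d y / (4 * y) :=
        hnear.trans (near_level d y y hy0 (by nlinarith))
      have hdeg := N.hdeg
      rw [hr, mul_one] at hdeg
      let P₀ : CP N.E (emb N.E) d N.m y :=
        N.toCP hr hc hirr ha hz C (h ^ C) hN y hhy (by linarith) hnear'
      -- Runge's method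
      rcases Nat.lt_or_ge (finrank ℚ N.E * N.m) d with hlt | hge
      · exfalso
        have h1 := P₀.runge (emb N.E) N.E.val.toRingHom rfl d N.m hd1 hm1 hlt N.S N.span y hy2
          (fun x hx => (hN.hS x hx).trans hhy)
        change |(a : ℝ)| ≤ _ at h1
        rw [hyk] at h1
        have h2 := (pow_le_pow_iff_right₀ (by linarith : (1 : ℝ) < y)).mp h1
        have h3 : κ₁ ≤ N.m * κ₁ := Nat.le_mul_of_pos_left _ hm1
        omega
      have hfull : finrank ℚ N.E * N.m = d := le_antisymm hdeg hge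
      -- the fixed field
      have hcond2 : ∀ (L : Type) [Field L] [NumberField L] (x y : LaurentSeries L) (e : ℕ),
          evR x y (fP d c) = 0 → Pole x y e →
            ∃ F : IntermediateField ℚ K, 3 ≤ finrank ℚ F ∧ Nonempty (F →+* L) := by
        rcases hcond with ⟨L, fL, nL, x', y', e, h0, ⟨he1, hlow, hne⟩, hlt⟩ | hcond
        · exfalso
          have := N.no_small hd1 hc nf hr hfull x' y' e he1 h0 hlow hne
          omega
        · exact hcond
      obtain ⟨X, Y, hXY, hX, hlow⟩ := N.laurent hr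
      obtain ⟨F, hF3, ⟨j⟩⟩ := hcond2 N.E X Y N.m hXY ⟨hm1, hlow, Or.inl hX⟩
      let σ : F →+* ℂ := (N.E.val.toRingHom).comp j
      have hFE : img F σ ≤ N.E := by
        intro x hx
        obtain ⟨z, rfl⟩ := (mem_img F σ x).mp hx
        exact (j z).2
      let P : MC (img F σ) d N.m κ₁ :=
        { E := N.E
          nf := nf
          hF := hFE
          hdeg := hdeg
          y := y
          y_two := hy2
          S := N.S
          span := N.span
          S_le := fun x hx => (hN.hS x hx).trans hhy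
          cp := P₀
          y_pow := hyk
          near := hnear }
      have hPy : y ≤ A := hA F σ N.m hF3 hm1 hmd P
      calc |(a : ℝ)| = y ^ (N.m * κ₁) := hyk
        _ ≤ A ^ (N.m * κ₁) := pow_le_pow_left₀ hy0.le hPy _
        _ ≤ A ^ (d * κ₁) := pow_le_pow_right₀ hA1 (Nat.mul_le_mul_right _ hmd)
        _ = A ^ (d * κ₁) * 1 := (mul_one _).symm
        _ ≤ _ := mul_le_mul_of_nonneg_left hhp (by positivity)
    · push Not at hlarge
      calc |(a : ℝ)| ≤ h ^ (C * (d * κ₁)) := hlarge.le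
        _ = 1 * h ^ (C * (d * κ₁)) := (one_mul _).symm
        _ ≤ _ := mul_le_mul_of_nonneg_right hAp (by positivity)
  refine ⟨hmain, ?_⟩
  obtain ⟨-, h2, -⟩ := ratio_le d c hd1 hc a b ha hz
  rw [norm_div, Complex.norm_intCast, Complex.norm_intCast, div_le_iff₀ hapos] at h2
  calc |(b : ℝ)| ≤ hS d c * |(a : ℝ)| := h2
    _ ≤ hS d c * (A ^ (d * κ₁) * 2 ^ (C * (d * κ₁)) * hS d c ^ (C * (d * κ₁))) :=
        mul_le_mul_of_nonneg_left hmain hH0.le
    _ = _ := by rw [pow_succ (hS d c) (C * (d * κ₁))]; ring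

end Pool.Agent.H20.G
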