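import Pool.Agent.H20.N1
import Pool.Agent.H20.Ded2

set_option autoImplicit false

namespace Pool.Agent.H20.G

open Polynomial Finset

/-- Two comparable monomials. -/
lemma exists_slope (K d : ℕ) (ψ : ℕ → ℕ → ℂ) (s ζ : ℂ) (h : ℝ) (c : ℕ) (h1 : 1 ≤ h)
    (hup : ∑ k ∈ range (K + 1), ∑ l ∈ range (d + 1), ‖ψ k l‖ ≤ h)
    (hlow : ∀ k l, ψ k l ≠ 0 → 1 ≤ ‖ψ k l‖ * h ^ c)
    (h0 : ∑ k ∈ range (K + 1), ∑ l ∈ range (d + 1), ψ k l * s ^ k * ζ ^ l = 0)
    (hne : ∃ k l, k ≤ K ∧ l ≤ d ∧ ψ k l ≠ 0)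
    (hs0 : s ≠ 0) (hζ0 : ζ ≠ 0) (hs : h ^ (c + 1) * ‖s‖ < 1) (hζ : h ^ (c + 1) * ‖ζ‖ < 1) :
    ∃ p q : ℕ, 1 ≤ p ∧ p ≤ K ∧ 1 ≤ q ∧ q ≤ d ∧ Nat.Coprime p q ∧
      ‖ζ‖ ^ q ≤ h ^ (c + 1) * ‖s‖ ^ p ∧ ‖s‖ ^ p ≤ h ^ (c + 1) * ‖ζ‖ ^ q := by
  classical
  have hσ : 0 < ‖s‖ := norm_pos_iff.mpr hs0
  have hτ : 0 < ‖ζ‖ := norm_pos_iff.mpr hζ0
  set σ := ‖s‖ with hσd
  set τ := ‖ζ‖ with hτd
  have hH : 1 ≤ h ^ (c + 1) := one_le_pow₀ h1
  have hHpos : 0 < h ^ (c + 1) := by linarith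
  have hσ1 : σ < 1 := by nlinarith
  have hτ1 : τ < 1 := by nlinarith
  set Q : Finset (ℕ × ℕ) := range (K + 1) ×ˢ range (d + 1) with hQ
  let M : ℕ × ℕ → ℝ := fun x => σ ^ x.1 * τ ^ x.2
  have hM0 : ∀ x, 0 < M x := fun x => by simp only [M]; positivity
  have hup' : ∑ x ∈ Q, ‖ψ x.1 x.2‖ ≤ h := by
    rw [hQ, Finset.sum_product]; exact hup
  have h0' : ∑ x ∈ Q, ψ x.1 x.2 * s ^ x.1 * ζ ^ x.2 = 0 := by
    rw [hQ, Finset.sum_product]; exact h0
  have hSne : (Q.filter (fun x => ψ x.1 x.2 ≠ 0)).Nonempty := by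
    obtain ⟨k, l, hk, hl, hkl⟩ := hne
    refine ⟨(k, l), ?_⟩
    rw [Finset.mem_filter, hQ, Finset.mem_product, Finset.mem_range, Finset.mem_range]
    exact ⟨⟨by simp only; omega, by simp only; omega⟩, hkl⟩
  obtain ⟨x₁, hx₁, hmax⟩ := Finset.exists_max_image _ M hSne
  rw [Finset.mem_filter] at hx₁
  -- a second comparable monomial
  obtain ⟨x₂, hx₂Q, hx₂ne, hx₂ψ, hcomp⟩ : ∃ x₂ ∈ Q, x₂ ≠ x₁ ∧ ψ x₂.1 x₂.2 ≠ 0 ∧
      M x₁ ≤ h ^ (c + 1) * M x₂ := by
    by_contra hcon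
    push Not at hcon
    have e1 := Finset.add_sum_erase Q (fun x => ψ x.1 x.2 * s ^ x.1 * ζ ^ x.2) hx₁.1
    rw [h0'] at e1
    have e2 : ‖ψ x₁.1 x₁.2‖ * M x₁ ≤ ∑ x ∈ Q.erase x₁, ‖ψ x.1 x.2‖ * M x := by
      have e3 : ψ x₁.1 x₁.2 * s ^ x₁.1 * ζ ^ x₁.2
          = -∑ x ∈ Q.erase x₁, ψ x.1 x.2 * s ^ x.1 * ζ ^ x.2 := by
        linear_combination e1
      have e4 := congrArg norm e3
      rw [norm_neg, norm_mul, norm_mul, norm_pow, norm_pow] at e4
      calc ‖ψ x₁.1 x₁.2‖ * M x₁ = ‖ψ x₁.1 x₁.2‖ * ‖s‖ ^ x₁.1 * ‖ζ‖ ^ x₁.2 := by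
            simp only [M]; ring
        _ = _ := e4
        _ ≤ ∑ x ∈ Q.erase x₁, ‖ψ x.1 x.2 * s ^ x.1 * ζ ^ x.2‖ := norm_sum_le _ _
        _ = ∑ x ∈ Q.erase x₁, ‖ψ x.1 x.2‖ * M x := by
            refine Finset.sum_congr rfl (fun x _ => ?_)
            rw [norm_mul, norm_mul, norm_pow, norm_pow]
            simp only [M]; ring
    have e5 : h ^ (c + 1) * ∑ x ∈ Q.erase x₁, ‖ψ x.1 x.2‖ * M x
        ≤ (∑ x ∈ Q.erase x₁, ‖ψ x.1 x.2‖) * M x₁ := by
      rw [Finset.mul_sum, Finset.sum_mul]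
      refine Finset.sum_le_sum (fun x hx => ?_)
      by_cases hx0 : ψ x.1 x.2 = 0
      · rw [hx0, norm_zero]; simp
      · have := hcon x (Finset.mem_of_mem_erase hx) (Finset.ne_of_mem_erase hx) hx0
        calc h ^ (c + 1) * (‖ψ x.1 x.2‖ * M x) = ‖ψ x.1 x.2‖ * (h ^ (c + 1) * M x) := by ring
          _ ≤ ‖ψ x.1 x.2‖ * M x₁ := mul_le_mul_of_nonneg_left this.le (norm_nonneg _)
    have e6 : ∑ x ∈ Q.erase x₁, ‖ψ x.1 x.2‖ ≤ h - ‖ψ x₁.1 x₁.2‖ := by
      have := Finset.add_sum_erase Q (fun x => ‖ψ x.1 x.2‖) hx₁.1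
      linarith
    have e7 : 0 < ‖ψ x₁.1 x₁.2‖ := norm_pos_iff.mpr hx₁.2
    have e8 := hlow _ _ hx₁.2
    have e9 : h * M x₁ ≤ (h - ‖ψ x₁.1 x₁.2‖) * M x₁ := by
      calc h * M x₁ = h * 1 * M x₁ := by ring
        _ ≤ h * (‖ψ x₁.1 x₁.2‖ * h ^ c) * M x₁ := by
            refine mul_le_mul_of_nonneg_right ?_ (hM0 _).le
            exact mul_le_mul_of_nonneg_left e8 (by linarith)
        _ = h ^ (c + 1) * (‖ψ x₁.1 x₁.2‖ * M x₁) := by rw [pow_succ]; ring
        _ ≤ h ^ (c + 1) * ∑ x ∈ Q.erase x₁, ‖ψ x.1 x.2‖ * M x :=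
            mul_le_mul_of_nonneg_left e2 hHpos.le
        _ ≤ (∑ x ∈ Q.erase x₁, ‖ψ x.1 x.2‖) * M x₁ := e5
        _ ≤ (h - ‖ψ x₁.1 x₁.2‖) * M x₁ := mul_le_mul_of_nonneg_right e6 (hM0 _).le
    have := hM0 x₁
    nlinarith
  have hle : M x₂ ≤ M x₁ := hmax x₂ (Finset.mem_filter.mpr ⟨hx₂Q, hx₂ψ⟩)
  obtain ⟨k₁, l₁⟩ := x₁
  obtain ⟨k₂, l₂⟩ := x₂
  simp only [hQ, Finset.mem_product, Finset.mem_range] at hx₁ hx₂Q
  simp only [M] at hcomp hle
  set H := h ^ (c + 1) with hHd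
  -- the slopes
  obtain ⟨P, N, hP1, hPK, hN1, hNd, hA, hB⟩ : ∃ P N : ℕ, 1 ≤ P ∧ P ≤ K ∧ 1 ≤ N ∧ N ≤ d ∧
      τ ^ N ≤ H * σ ^ P ∧ σ ^ P ≤ H * τ ^ N := by
    rcases lt_trichotomy l₂ l₁ with hl | hl | hl
    · -- l₂ < l₁
      have hk : k₁ < k₂ := by
        by_contra hk
        push Not at hk
        obtain ⟨u, rfl⟩ := Nat.exists_eq_add_of_le hk
        obtain ⟨v, rfl⟩ := Nat.exists_eq_add_of_lt hl
        have e1 : σ ^ (k₂ + u) * τ ^ (l₂ + v + 1) ≤ τ * (σ ^ k₂ * τ ^ l₂) := by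
          calc σ ^ (k₂ + u) * τ ^ (l₂ + v + 1)
              = τ * (σ ^ k₂ * τ ^ l₂) * (σ ^ u * τ ^ v) := by
                rw [pow_add, pow_add, pow_add]; ring
            _ ≤ τ * (σ ^ k₂ * τ ^ l₂) * 1 := by
                refine mul_le_mul_of_nonneg_left ?_ (by positivity)
                exact mul_le_one₀ (pow_le_one₀ hσ.le hσ1.le) (by positivity)
                  (pow_le_one₀ hτ.le hτ1.le)
            _ = _ := by ring
        have e2 : 0 < σ ^ k₂ * τ ^ l₂ := by positivity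
        nlinarith
      obtain ⟨u, rfl⟩ := Nat.exists_eq_add_of_lt hk
      obtain ⟨v, rfl⟩ := Nat.exists_eq_add_of_lt hl
      refine ⟨u + 1, v + 1, by omega, by omega, by omega, by omega, ?_, ?_⟩
      · have e1 : σ ^ k₁ * τ ^ l₂ * τ ^ (v + 1) ≤ σ ^ k₁ * τ ^ l₂ * (H * σ ^ (u + 1)) := by
          calc σ ^ k₁ * τ ^ l₂ * τ ^ (v + 1) = σ ^ k₁ * τ ^ (l₂ + v + 1) := by
                rw [add_assoc, pow_add]; ring
            _ ≤ H * (σ ^ (k₁ + u + 1) * τ ^ l₂) := hcomp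
            _ = _ := by rw [add_assoc, pow_add]; ring
        exact le_of_mul_le_mul_left e1 (by positivity)
      · have e1 : σ ^ k₁ * τ ^ l₂ * σ ^ (u + 1) ≤ σ ^ k₁ * τ ^ l₂ * τ ^ (v + 1) := by
          calc σ ^ k₁ * τ ^ l₂ * σ ^ (u + 1) = σ ^ (k₁ + u + 1) * τ ^ l₂ := by
                rw [add_assoc, pow_add]; ring
            _ ≤ σ ^ k₁ * τ ^ (l₂ + v + 1) := hle
            _ = _ := by rw [add_assoc, pow_add]; ring
        have e2 := le_of_mul_le_mul_left e1 (by positivity)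
        have e3 : 0 < τ ^ (v + 1) := by positivity
        nlinarith
    · -- l₂ = l₁
      exfalso
      subst hl
      have hk : k₂ ≠ k₁ := fun hk => hx₂ne (by rw [hk])
      have e0 : 0 < τ ^ l₂ := by positivity
      have e1 : σ ^ k₁ ≤ H * σ ^ k₂ := by
        have : τ ^ l₂ * σ ^ k₁ ≤ τ ^ l₂ * (H * σ ^ k₂) := by nlinarith
        exact le_of_mul_le_mul_left this e0
      have e2 : σ ^ k₂ ≤ σ ^ k₁ := by
        have : τ ^ l₂ * σ ^ k₂ ≤ τ ^ l₂ * σ ^ k₁ := by nlinarith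
        exact le_of_mul_le_mul_left this e0
      have hk' : k₁ < k₂ := by
        rcases lt_or_gt_of_ne hk with hlt | hgt
        · have := pow_lt_pow_right_of_lt_one₀ hσ hσ1 hlt
          linarith
        · exact hgt
      obtain ⟨u, rfl⟩ := Nat.exists_eq_add_of_lt hk'
      have e3 : σ ^ (k₁ + u + 1) ≤ σ * σ ^ k₁ := by
        calc σ ^ (k₁ + u + 1) = σ * σ ^ k₁ * σ ^ u := by rw [pow_add, pow_add]; ring
          _ ≤ σ * σ ^ k₁ * 1 :=
              mul_le_mul_of_nonneg_left (pow_le_one₀ hσ.le hσ1.le) (by positivity)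
          _ = _ := by ring
      have e4 : 0 < σ ^ k₁ := by positivity
      nlinarith
    · -- l₁ < l₂
      have hk : k₂ < k₁ := by
        by_contra hk
        push Not at hk
        obtain ⟨u, rfl⟩ := Nat.exists_eq_add_of_le hk
        obtain ⟨v, rfl⟩ := Nat.exists_eq_add_of_lt hl
        have e1 : σ ^ (k₁ + u) * τ ^ (l₁ + v + 1) ≤ τ * (σ ^ k₁ * τ ^ l₁) := by
          calc σ ^ (k₁ + u) * τ ^ (l₁ + v + 1)
              = τ * (σ ^ k₁ * τ ^ l₁) * (σ ^ u * τ ^ v) := by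
                rw [pow_add, pow_add, pow_add]; ring
            _ ≤ τ * (σ ^ k₁ * τ ^ l₁) * 1 := by
                refine mul_le_mul_of_nonneg_left ?_ (by positivity)
                exact mul_le_one₀ (pow_le_one₀ hσ.le hσ1.le) (by positivity)
                  (pow_le_one₀ hτ.le hτ1.le)
            _ = _ := by ring
        have e2 : 0 < σ ^ k₁ * τ ^ l₁ := by positivity
        nlinarith
      obtain ⟨u, rfl⟩ := Nat.exists_eq_add_of_lt hk
      obtain ⟨v, rfl⟩ := Nat.exists_eq_add_of_lt hl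
      refine ⟨u + 1, v + 1, by omega, by omega, by omega, by omega, ?_, ?_⟩
      · have e1 : σ ^ k₂ * τ ^ l₁ * τ ^ (v + 1) ≤ σ ^ k₂ * τ ^ l₁ * σ ^ (u + 1) := by
          calc σ ^ k₂ * τ ^ l₁ * τ ^ (v + 1) = σ ^ k₂ * τ ^ (l₁ + v + 1) := by
                rw [add_assoc, pow_add]; ring
            _ ≤ σ ^ (k₂ + u + 1) * τ ^ l₁ := hle
            _ = _ := by rw [add_assoc, pow_add]; ring
        have e2 := le_of_mul_le_mul_left e1 (by positivity)
        have e3 : 0 < σ ^ (u + 1) := by positivity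
        nlinarith
      · have e1 : σ ^ k₂ * τ ^ l₁ * σ ^ (u + 1) ≤ σ ^ k₂ * τ ^ l₁ * (H * τ ^ (v + 1)) := by
          calc σ ^ k₂ * τ ^ l₁ * σ ^ (u + 1) = σ ^ (k₂ + u + 1) * τ ^ l₁ := by
                rw [add_assoc, pow_add]; ring
            _ ≤ H * (σ ^ k₂ * τ ^ (l₁ + v + 1)) := hcomp
            _ = _ := by rw [add_assoc l₁, pow_add τ l₁]; ring
        exact le_of_mul_le_mul_left e1 (by positivity)
  -- reduce to coprime exponents
  have hg : 0 < Nat.gcd P N := Nat.gcd_pos_of_pos_left _ hP1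
  obtain ⟨p, hp⟩ := Nat.gcd_dvd_left P N
  obtain ⟨q, hq⟩ := Nat.gcd_dvd_right P N
  set g := Nat.gcd P N with hgd
  have hcop : Nat.Coprime p q := by
    have h2 := Nat.gcd_mul_left g p q
    rw [← hp, ← hq] at h2
    have h3 : g * Nat.gcd p q = g * 1 := by rw [mul_one, ← h2]
    exact Nat.eq_of_mul_eq_mul_left hg h3
  have hp1 : 1 ≤ p := by
    rcases Nat.eq_zero_or_pos p with h2 | h2
    · rw [h2, mul_zero] at hp; omega
    · exact h2
  have hq1 : 1 ≤ q := by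
    rcases Nat.eq_zero_or_pos q with h2 | h2
    · rw [h2, mul_zero] at hq; omega
    · exact h2
  refine ⟨p, q, hp1, ?_, hq1, ?_, hcop, ?_, ?_⟩
  · have : p ≤ g * p := Nat.le_mul_of_pos_left _ hg
    omega
  · have : q ≤ g * q := Nat.le_mul_of_pos_left _ hg
    omega
  · refine le_of_pow_le_pow_left₀ (by omega : g ≠ 0) (by positivity) ?_
    rw [mul_pow, ← pow_mul τ, mul_comm q g, ← hq, ← pow_mul σ, mul_comm p g, ← hp]
    refine hA.trans ?_
    exact mul_le_mul_of_nonneg_right (le_self_pow₀ hH (by omega)) (by positivity)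
  · refine le_of_pow_le_pow_left₀ (by omega : g ≠ 0) (by positivity) ?_
    rw [mul_pow, ← pow_mul σ, mul_comm p g, ← hp, ← pow_mul τ, mul_comm q g, ← hq]
    refine hB.trans ?_
    exact mul_le_mul_of_nonneg_right (le_self_pow₀ hH (by omega)) (by positivity)

/-- size of the ratio -/
lemma beta_bounds (s₁ ζ : ℂ) (p q : ℕ) (hq : 1 ≤ q) (hs0 : s₁ ≠ 0) (H : ℝ) (hH : 1 ≤ H)
    (h1 : ‖ζ‖ ^ q ≤ H * ‖s₁ ^ q‖ ^ p) (h2 : ‖s₁ ^ q‖ ^ p ≤ H * ‖ζ‖ ^ q) :
    ‖ζ / s₁ ^ p‖ ≤ H ∧ 1 ≤ H * ‖ζ / s₁ ^ p‖ := by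
  have hσ : 0 < ‖s₁‖ := norm_pos_iff.mpr hs0
  have e1 : ‖ζ / s₁ ^ p‖ ^ q * ‖s₁ ^ q‖ ^ p = ‖ζ‖ ^ q := by
    rw [norm_div, norm_pow, norm_pow, div_pow, ← pow_mul, ← pow_mul, mul_comm q p]
    field_simp
  have e2 : 0 < ‖s₁ ^ q‖ ^ p := by rw [norm_pow]; positivity
  set b := ‖ζ / s₁ ^ p‖ with hb
  have hb0 : 0 ≤ b := norm_nonneg _
  have h3 : b ^ q ≤ H := by
    have : b ^ q * ‖s₁ ^ q‖ ^ p ≤ H * ‖s₁ ^ q‖ ^ p := by rw [e1]; exact h1
    exact le_of_mul_le_mul_right this e2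
  have h4 : 1 ≤ H * b ^ q := by
    have : 1 * ‖s₁ ^ q‖ ^ p ≤ (H * b ^ q) * ‖s₁ ^ q‖ ^ p := by
      rw [one_mul, mul_assoc, e1]; exact h2
    exact le_of_mul_le_mul_right this e2
  constructor
  · by_contra hcon
    push Not at hcon
    have : b ≤ b ^ q := le_self_pow₀ (by linarith) (by omega)
    linarith
  · by_contra hcon
    push Not at hcon
    have hb1 : b ≤ 1 := by
      by_contra hb1
      push Not at hb1
      nlinarith
    have : b ^ q ≤ b := by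
      calc b ^ q ≤ b ^ 1 := pow_le_pow_of_le_one hb0 hb1 hq
        _ = b := pow_one b
    nlinarith

/-- the line polynomial is small -/
lemma line_small (K d n p q : ℕ) (ψ : ℕ → ℕ → ℂ) (s₁ β : ℂ) (h H : ℝ) (hH : 1 ≤ H)
    (hup : ∑ k ∈ range (K + 1), ∑ l ∈ range (d + 1), ‖ψ k l‖ ≤ h)
    (h0 : ∑ k ∈ range (K + 1), ∑ l ∈ range (d + 1), ψ k l * (s₁ ^ q) ^ k * (s₁ ^ p * β) ^ l = 0)
    (hn : ∀ k l, ψ k l ≠ 0 → n ≤ q * k + p * l)
    (hs0 : s₁ ≠ 0) (hs1 : ‖s₁‖ ≤ 1) (hβ : ‖β‖ ≤ H) :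
    ‖∑ k ∈ range (K + 1), ∑ l ∈ range (d + 1), if q * k + p * l = n then ψ k l * β ^ l else 0‖
      ≤ ‖s₁‖ * (h * H ^ d) := by
  have hsn : s₁ ^ n ≠ 0 := pow_ne_zero _ hs0
  have e1 : s₁ ^ n * ((∑ k ∈ range (K + 1), ∑ l ∈ range (d + 1),
      if q * k + p * l = n then ψ k l * β ^ l else 0) +
      ∑ k ∈ range (K + 1), ∑ l ∈ range (d + 1),
        if q * k + p * l = n then 0 else ψ k l * s₁ ^ (q * k + p * l - n) * β ^ l) = 0 := by
    refine Eq.trans ?_ h0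
    rw [← Finset.sum_add_distrib, Finset.mul_sum]
    refine Finset.sum_congr rfl (fun k _ => ?_)
    rw [← Finset.sum_add_distrib, Finset.mul_sum]
    refine Finset.sum_congr rfl (fun l _ => ?_)
    by_cases hψ : ψ k l = 0
    · rw [hψ]; simp
    · have h2 := hn k l hψ
      have e2 : (s₁ ^ q) ^ k * (s₁ ^ p * β) ^ l = s₁ ^ (q * k + p * l) * β ^ l := by
        rw [mul_pow, ← pow_mul, ← pow_mul, pow_add]; ring
      by_cases h3 : q * k + p * l = n
      · rw [if_pos h3, if_pos h3, add_zero, mul_assoc (ψ k l), e2, h3]; ring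
      · rw [if_neg h3, if_neg h3, zero_add, mul_assoc (ψ k l) ((s₁ ^ q) ^ k), e2]
        have e4 : s₁ ^ (q * k + p * l) = s₁ ^ n * s₁ ^ (q * k + p * l - n) := by
          rw [← pow_add, Nat.add_sub_cancel' h2]
        rw [e4]; ring
  have e3 := (mul_eq_zero.mp e1).resolve_left hsn
  rw [add_eq_zero_iff_eq_neg] at e3
  rw [e3, norm_neg]
  refine (norm_sum_le _ _).trans ?_
  calc ∑ k ∈ range (K + 1), ‖∑ l ∈ range (d + 1),
        if q * k + p * l = n then 0 else ψ k l * s₁ ^ (q * k + p * l - n) * β ^ l‖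
      ≤ ∑ k ∈ range (K + 1), ∑ l ∈ range (d + 1), ‖ψ k l‖ * (‖s₁‖ * H ^ d) := by
        refine Finset.sum_le_sum (fun k _ => (norm_sum_le _ _).trans ?_)
        refine Finset.sum_le_sum (fun l hl => ?_)
        have hl' := Finset.mem_range.mp hl
        by_cases hψ : ψ k l = 0
        · rw [hψ]; simp
        · have h2 := hn k l hψ
          split_ifs with h3
          · rw [norm_zero]; positivity
          · rw [norm_mul, norm_mul, norm_pow, norm_pow, mul_assoc]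
            refine mul_le_mul_of_nonneg_left ?_ (norm_nonneg _)
            refine mul_le_mul ?_ ?_ (by positivity) (norm_nonneg _)
            · calc ‖s₁‖ ^ (q * k + p * l - n) ≤ ‖s₁‖ ^ 1 :=
                    pow_le_pow_of_le_one (norm_nonneg _) hs1 (by omega)
                _ = ‖s₁‖ := pow_one _
            · calc ‖β‖ ^ l ≤ H ^ l := pow_le_pow_left₀ (norm_nonneg _) hβ _
                _ ≤ H ^ d := pow_le_pow_right₀ hH (by omega)
    _ = (∑ k ∈ range (K + 1), ∑ l ∈ range (d + 1), ‖ψ k l‖) * (‖s₁‖ * H ^ d) := by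
        rw [Finset.sum_mul]
        refine Finset.sum_congr rfl (fun k _ => ?_)
        rw [Finset.sum_mul]
    _ ≤ h * (‖s₁‖ * H ^ d) := mul_le_mul_of_nonneg_right hup (by positivity)
    _ = ‖s₁‖ * (h * H ^ d) := by ring

/-- a root close to a point where the polynomial is small -/
lemma exists_root_near (g : ℂ[X]) (hg : g ≠ 0) (d : ℕ) (hd : g.natDegree ≤ d) (β : ℂ) (h : ℝ)
    (c : ℕ)
    (hlc : 1 ≤ ‖g.leadingCoeff‖ * h ^ c) (hc0 : 0 ≤ h) (hsm : h ^ c * ‖g.eval β‖ < 1) :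
    ∃ β' : ℂ, g.eval β' = 0 ∧ ‖β - β'‖ ^ d ≤ h ^ c * ‖g.eval β‖ := by
  set ε := h ^ c * ‖g.eval β‖ with hε
  have hε0 : 0 ≤ ε := by positivity
  have hsp := IsAlgClosed.splits g
  have hroots : g.eval β = g.leadingCoeff * ((g.roots.map (fun z => β - z)).prod) := by
    conv_lhs => rw [hsp.eq_prod_roots]
    rw [eval_mul, eval_C, eval_multiset_prod, Multiset.map_map]
    congr 2
    refine Multiset.map_congr rfl (fun z _ => ?_)
    simp
  have hcard : Multiset.card g.roots = g.natDegree := hsp.natDegree_eq_card_roots.symm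
  have hprod : (g.roots.map (fun z => ‖β - z‖)).prod ≤ ε := by
    have h1 : ‖g.eval β‖ = ‖g.leadingCoeff‖ * (g.roots.map (fun z => ‖β - z‖)).prod := by
      rw [hroots, norm_mul, norm_mprod, Multiset.map_map]
      rfl
    have h2 : 0 ≤ (g.roots.map (fun z => ‖β - z‖)).prod := by
      apply Multiset.prod_nonneg
      intro x hx
      obtain ⟨z, _, rfl⟩ := Multiset.mem_map.mp hx
      exact norm_nonneg _
    calc (g.roots.map (fun z => ‖β - z‖)).prod
        = 1 * (g.roots.map (fun z => ‖β - z‖)).prod := (one_mul _).symm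
      _ ≤ (‖g.leadingCoeff‖ * h ^ c) * (g.roots.map (fun z => ‖β - z‖)).prod :=
          mul_le_mul_of_nonneg_right hlc h2
      _ = ε := by rw [hε, h1]; ring
  by_contra hcon
  push Not at hcon
  by_cases hd0 : d = 0
  · subst hd0
    have hr : g.roots = 0 := by
      rw [← Multiset.card_eq_zero, hcard]; omega
    rw [hr] at hprod
    simp at hprod
    linarith
  · -- the d-th root of ε
    set δ := ε ^ ((1 : ℝ) / d) with hδ
    have hδ0 : 0 ≤ δ := Real.rpow_nonneg hε0 _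
    have hδd : δ ^ d = ε := by
      rw [hδ, ← Real.rpow_natCast, ← Real.rpow_mul hε0]
      have : (1 : ℝ) / d * d = 1 := by
        have : (d : ℝ) ≠ 0 := by exact_mod_cast hd0
        field_simp
      rw [this, Real.rpow_one]
    have hδ1 : δ < 1 := by
      by_contra h1
      push Not at h1
      have : 1 ≤ δ ^ d := one_le_pow₀ h1
      linarith
    have h3 : ∀ x ∈ g.roots.map (fun z => ‖β - z‖), δ ≤ x := by
      intro x hx
      obtain ⟨z, hz, rfl⟩ := Multiset.mem_map.mp hx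
      have h4 := hcon z ((mem_roots hg).mp hz)
      rw [← hδd] at h4
      exact (lt_of_pow_lt_pow_left₀ d (norm_nonneg _) h4).le
    by_cases hr : g.roots = 0
    · rw [hr] at hprod
      simp at hprod
      linarith
    · -- strict inequality
      obtain ⟨z₀, hz₀⟩ := Multiset.exists_mem_of_ne_zero hr
      have h4 := hcon z₀ ((mem_roots hg).mp hz₀)
      rw [← hδd] at h4
      have h5 : δ < ‖β - z₀‖ := lt_of_pow_lt_pow_left₀ d (norm_nonneg _) h4
      obtain ⟨t, ht⟩ := Multiset.exists_cons_of_mem hz₀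
      have h6 : δ ^ (Multiset.card t) ≤ (t.map (fun z => ‖β - z‖)).prod := by
        have h7 := multiset_pow_le_prod (t.map (fun z => ‖β - z‖)) δ hδ0 (by
          intro x hx
          apply h3
          rw [ht, Multiset.map_cons]
          exact Multiset.mem_cons_of_mem hx)
        rwa [Multiset.card_map] at h7
      have hcard' : Multiset.card t + 1 = g.natDegree := by
        rw [← hcard, ht, Multiset.card_cons]
      rw [ht, Multiset.map_cons, Multiset.prod_cons] at hprod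
      rcases hε0.eq_or_lt with hε' | hε'
      · -- ε = 0
        have h8 : 0 < ‖β - z₀‖ := by linarith
        have h9 : 0 < (t.map (fun z => ‖β - z‖)).prod := by
          apply Multiset.prod_pos
          intro x hx
          obtain ⟨z, hz, rfl⟩ := Multiset.mem_map.mp hx
          have h10 := hcon z ((mem_roots hg).mp (by rw [ht]; exact Multiset.mem_cons_of_mem hz))
          rw [← hε'] at h10
          by_contra h11
          push Not at h11
          have h12 : ‖β - z‖ = 0 := le_antisymm h11 (norm_nonneg _)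
          rw [h12, zero_pow hd0] at h10
          exact lt_irrefl _ h10
        have : 0 < ‖β - z₀‖ * (t.map (fun z => ‖β - z‖)).prod := mul_pos h8 h9
        linarith
      · have hδpos : 0 < δ := by
          by_contra h8
          push Not at h8
          have h9 : δ = 0 := le_antisymm h8 hδ0
          rw [h9, zero_pow hd0] at hδd
          linarith
        have h8 : δ ^ d ≤ δ * δ ^ (Multiset.card t) := by
          rw [← pow_succ', hcard']
          exact pow_le_pow_of_le_one hδ0 hδ1.le hd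
        have h9 : δ * δ ^ (Multiset.card t)
            < ‖β - z₀‖ * (t.map (fun z => ‖β - z‖)).prod := by
          have h10 : 0 < δ ^ (Multiset.card t) := by positivity
          calc δ * δ ^ (Multiset.card t) < ‖β - z₀‖ * δ ^ (Multiset.card t) :=
                mul_lt_mul_of_pos_right h5 h10
            _ ≤ _ := mul_le_mul_of_nonneg_left h6 (norm_nonneg _)
        linarith

end Pool.Agent.H20.G
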