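import Pool.Agent.H20.N2

set_option autoImplicit false

namespace Pool.Agent.H20.G

open Polynomial Finset NumberField Module

/-- Polynomials with exponents in one residue class. -/
lemma exists_expand {R : Type*} [CommRing R] (G : R[X]) (q l₀ : ℕ) (hq : 1 ≤ q)
    (h : ∀ l, G.coeff l ≠ 0 → l % q = l₀) :
    ∃ χ : R[X], G = X ^ l₀ * expand R q χ ∧ (∀ e, χ.coeff e = G.coeff (l₀ + q * e)) := by
  classical
  set χ : R[X] := ∑ e ∈ range (G.natDegree + 1), C (G.coeff (l₀ + q * e)) * X ^ e with hχ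
  have hc : ∀ e, χ.coeff e = G.coeff (l₀ + q * e) := by
    intro e
    rw [hχ, finsetSum_coeff]
    simp only [coeff_C_mul_X_pow]
    rw [Finset.sum_ite_eq]
    split_ifs with h1
    · rfl
    · symm
      apply coeff_eq_zero_of_natDegree_lt
      have h2 : ¬ e < G.natDegree + 1 := fun h3 => h1 (Finset.mem_range.mpr h3)
      have h3 : e ≤ q * e := Nat.le_mul_of_pos_left _ hq
      omega
  refine ⟨χ, ?_, hc⟩
  ext l
  rw [coeff_X_pow_mul']
  split_ifs with h1
  · rw [coeff_expand (by omega)]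
    split_ifs with h2
    · obtain ⟨e, he⟩ := h2
      rw [he, Nat.mul_div_cancel_left _ (by omega : 0 < q), hc]
      congr 1
      omega
    · by_contra h3
      have h4 := h l h3
      apply h2
      have h5 := Nat.div_add_mod l q
      exact ⟨l / q, by omega⟩
  · by_contra h3
    have h4 := h l h3
    have h5 : l % q ≤ l := Nat.mod_le _ _
    omega

section

variable {E L : Type*} [Field E] [Field L] [Algebra E L]

lemma exists_minpoly_pow [CharZero E] (χ : E[X]) (hχ : χ ≠ 0) (ξ : L) (hξ : aeval ξ χ = 0) :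
    ∃ (j : ℕ) (g : E[X]), 1 ≤ j ∧ χ = (minpoly E ξ) ^ j * g ∧ aeval ξ g ≠ 0 := by
  have hint : IsIntegral E ξ := by
    have halg : IsAlgebraic E ξ := ⟨χ, hχ, hξ⟩
    exact halg.isIntegral
  have hfm : FiniteMultiplicity (minpoly E ξ) χ :=
    finiteMultiplicity_of_degree_pos_of_monic (minpoly.degree_pos hint) (minpoly.monic hint) hχ
  obtain ⟨g, hg, hng⟩ := hfm.exists_eq_pow_mul_and_not_dvd
  refine ⟨multiplicity (minpoly E ξ) χ, g, ?_, hg, ?_⟩
  · by_contra h0
    have h1 : multiplicity (minpoly E ξ) χ = 0 := by omega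
    rw [h1, pow_zero, one_mul] at hg
    rw [← hg] at hng
    exact hng (minpoly.dvd E ξ hξ)
  · intro h0
    exact hng (minpoly.dvd E ξ h0)

lemma simple_root_factor (P : L[X]) (b : L) (h0 : P.eval b = 0) (h1 : (derivative P).eval b ≠ 0) :
    ∃ ρ : L[X], P = (X - C b) * ρ ∧ ρ.eval b ≠ 0 := by
  obtain ⟨ρ, hρ⟩ := dvd_iff_isRoot.mpr h0
  refine ⟨ρ, hρ, ?_⟩
  intro h2
  apply h1
  rw [hρ]
  simp [h2]

/-- Multiplicity of a root of a polynomial of the form `X ^ l₀ χ(X ^ q)`. -/
lemma line_mult [CharZero E] [CharZero L] (G χ : E[X]) (q l₀ : ℕ) (hq : 1 ≤ q)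
    (hG : G = X ^ l₀ * expand E q χ) (hχ : χ ≠ 0) (β : L) (hβ : β ≠ 0)
    (hβχ : aeval (β ^ q) χ = 0) :
    ∃ (j : ℕ) (g : L[X]), 1 ≤ j ∧ j * (minpoly E (β ^ q)).natDegree ≤ χ.natDegree ∧
      G.map (algebraMap E L) = (X - C β) ^ j * g ∧ g.eval β ≠ 0 := by
  obtain ⟨j, g, hj, hχg, hg⟩ := exists_minpoly_pow χ hχ (β ^ q) hβχ
  have hint : IsIntegral E (β ^ q) := by
    have halg : IsAlgebraic E (β ^ q) := ⟨χ, hχ, hβχ⟩
    exact halg.isIntegral
  set π := minpoly E (β ^ q) with hπ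
  have hsep : π.Separable := (minpoly.irreducible hint).separable
  have h1 : ((expand E q π).map (algebraMap E L)).eval β = 0 := by
    rw [eval_map_algebraMap, expand_aeval]
    exact minpoly.aeval E _
  have h2 : (derivative ((expand E q π).map (algebraMap E L))).eval β ≠ 0 := by
    rw [derivative_map, derivative_expand, Polynomial.map_mul, eval_mul, eval_map_algebraMap,
      eval_map_algebraMap, expand_aeval]
    refine mul_ne_zero ?_ ?_
    · exact hsep.aeval_derivative_ne_zero (minpoly.aeval E _)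
    · rw [map_mul, map_pow, aeval_X, map_natCast]
      refine mul_ne_zero ?_ (pow_ne_zero _ hβ)
      exact_mod_cast (by omega : q ≠ 0)
  obtain ⟨ρ, hρ, hρ1⟩ := simple_root_factor _ β h1 h2
  refine ⟨j, X ^ l₀ * (ρ ^ j * (expand E q g).map (algebraMap E L)), hj, ?_, ?_, ?_⟩
  · have hg0 : g ≠ 0 := by
      rintro rfl
      simp at hg
    rw [hχg, natDegree_mul (pow_ne_zero _ (minpoly.ne_zero hint)) hg0, natDegree_pow, ← hπ]
    omega
  · rw [hG, Polynomial.map_mul, Polynomial.map_pow, map_X, hχg, map_mul, map_pow,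
      Polynomial.map_mul, Polynomial.map_pow, hρ, mul_pow]
    ring
  · rw [eval_mul, eval_mul, eval_pow, eval_pow, eval_X, eval_map_algebraMap, expand_aeval]
    exact mul_ne_zero (pow_ne_zero _ hβ) (mul_ne_zero (pow_ne_zero _ hρ1) hg)

lemma residue_eq (p q n k l k' l' : ℕ) (hpq : Nat.Coprime p q) (h1 : q * k + p * l = n)
    (h2 : q * k' + p * l' = n) : l % q = l' % q := by
  have h3 : p * l ≡ p * l' [MOD q] := by
    have h4 : q * k + p * l ≡ q * k' + p * l' [MOD q] := by rw [h1, h2]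
    have h5 : q * k + p * l ≡ p * l [MOD q] := by
      have : q * k ≡ 0 [MOD q] := (Nat.modEq_zero_iff_dvd).mpr ⟨k, rfl⟩
      simpa only [zero_add] using this.add_right (p * l)
    have h6 : q * k' + p * l' ≡ p * l' [MOD q] := by
      have : q * k' ≡ 0 [MOD q] := (Nat.modEq_zero_iff_dvd).mpr ⟨k', rfl⟩
      simpa only [zero_add] using this.add_right (p * l')
    exact (h5.symm.trans h4).trans h6
  have h7 : q.gcd p = 1 := by rw [Nat.gcd_comm]; exact hpq
  exact Nat.ModEq.cancel_left_of_coprime h7 h3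

end

/-- Bezout coefficients. -/
lemma exists_bezout (p q : ℕ) (hp : 1 ≤ p) (hq : 1 ≤ q) (h : Nat.Coprime p q) :
    ∃ u v : ℕ, u * q = v * p + 1 ∧ v ≤ q ∧ u ≤ p := by
  rcases Nat.eq_or_lt_of_le hq with h1 | h1
  · exact ⟨1, 0, by omega, by omega, by omega⟩
  · -- `q ≥ 2`
    obtain ⟨v, -, hv⟩ := Nat.exists_mul_mod_eq_one_of_coprime h h1
    -- `p * v % q = 1`; take `v' = q - (v % q)`
    have hvq : v % q < q := Nat.mod_lt _ (by omega)
    have h2 : (p * (v % q)) % q = 1 := by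
      rw [Nat.mul_mod, Nat.mod_mod, ← Nat.mul_mod]; exact hv
    set v' := q - v % q with hv'
    have h3 : (v' * p + 1) % q = 0 := by
      have h4 : v' * p + p * (v % q) = q * p := by
        rw [mul_comm p (v % q), ← add_mul]
        congr 1
        omega
      have h5 : (v' * p + (p * (v % q)) % q) % q = 0 := by
        rw [Nat.add_mod, Nat.mod_mod, ← Nat.add_mod, h4]
        exact Nat.mul_mod_right q p
      rwa [h2] at h5
    obtain ⟨u, hu⟩ := Nat.dvd_of_mod_eq_zero h3
    refine ⟨u, v', by rw [mul_comm]; exact hu.symm, by omega, ?_⟩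
    have hv1 : 1 ≤ v % q := by
      by_contra h6
      have : v % q = 0 := by omega
      rw [this, mul_zero] at h2
      simp at h2
    have hv2 : v' + 1 ≤ q := by omega
    have h7 : q * u ≤ q * p := by
      rw [← hu]
      calc v' * p + 1 ≤ v' * p + p := by omega
        _ = (v' + 1) * p := by ring
        _ ≤ q * p := Nat.mul_le_mul_right _ hv2
    exact Nat.le_of_mul_le_mul_left h7 (by omega)

/-- Cauchy-type bound for roots of monic polynomials. -/
lemma monic_root_le (z : ℂ) (N : ℕ) (hN : 1 ≤ N) (cf : ℕ → ℂ) (h : ℝ) (h1 : 1 ≤ h)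
    (hcf : ∀ i < N, ‖cf i‖ ≤ h ^ (N - i))
    (hz : z ^ N = -∑ i ∈ range N, cf i * z ^ i) : ‖z‖ ≤ N * h := by
  by_contra hcon
  push Not at hcon
  have hN1 : (1 : ℝ) ≤ N := by exact_mod_cast hN
  have hzh : h ≤ ‖z‖ := by nlinarith
  have hz0 : 0 < ‖z‖ := by linarith
  have h2 := congrArg norm hz
  rw [norm_neg, norm_pow] at h2
  have h3 : ‖∑ i ∈ range N, cf i * z ^ i‖ ≤ ∑ _i ∈ range N, h * ‖z‖ ^ (N - 1) := by
    refine (norm_sum_le _ _).trans (Finset.sum_le_sum (fun i hi => ?_))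
    have hi' := Finset.mem_range.mp hi
    rw [norm_mul, norm_pow]
    obtain ⟨k, hk⟩ : ∃ k, N = i + 1 + k := ⟨N - (i + 1), by omega⟩
    calc ‖cf i‖ * ‖z‖ ^ i ≤ h ^ (N - i) * ‖z‖ ^ i :=
          mul_le_mul_of_nonneg_right (hcf i hi') (by positivity)
      _ = h * (h ^ k * ‖z‖ ^ i) := by
          have : N - i = k + 1 := by omega
          rw [this, pow_succ]; ring
      _ ≤ h * (‖z‖ ^ k * ‖z‖ ^ i) := by
          refine mul_le_mul_of_nonneg_left ?_ (by linarith)
          exact mul_le_mul_of_nonneg_right (pow_le_pow_left₀ (by linarith) hzh _) (by positivity)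
      _ = h * ‖z‖ ^ (N - 1) := by
          rw [← pow_add]
          congr 2
          omega
  rw [Finset.sum_const, card_range, nsmul_eq_mul, ← h2] at h3
  have h4 : ‖z‖ ^ N = ‖z‖ * ‖z‖ ^ (N - 1) := by
    rw [← pow_succ']
    congr 1
    omega
  have h5 : 0 < ‖z‖ ^ (N - 1) := by positivity
  nlinarith

end Pool.Agent.H20.G
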