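import Pool.Agent.H20.N3

set_option autoImplicit false

namespace Pool.Agent.H20.G

open Polynomial Finset NumberField Module

/-- the field `E(ξ)` -/
noncomputable def ext (E : IntermediateField ℚ ℂ) (ξ : ℂ) : IntermediateField ℚ ℂ :=
  (IntermediateField.adjoin E {ξ}).restrictScalars ℚ

section

variable (E : IntermediateField ℚ ℂ) (ξ : ℂ)

lemma mem_ext_iff (x : ℂ) : x ∈ ext E ξ ↔ x ∈ IntermediateField.adjoin E {ξ} := Iff.rfl

lemma le_ext : E ≤ ext E ξ := by
  intro x hx
  rw [mem_ext_iff]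
  exact (IntermediateField.adjoin E {ξ}).algebraMap_mem ⟨x, hx⟩

lemma self_mem_ext : ξ ∈ ext E ξ := by
  rw [mem_ext_iff]
  exact IntermediateField.mem_adjoin_simple_self E ξ

lemma finrank_ext (h : IsIntegral E ξ) :
    finrank ℚ (ext E ξ) = finrank ℚ E * (minpoly E ξ).natDegree := by
  have h1 : finrank ℚ E * finrank E (IntermediateField.adjoin E {ξ})
      = finrank ℚ (IntermediateField.adjoin E {ξ}) :=
    finrank_mul_finrank ℚ E (IntermediateField.adjoin E {ξ})
  rw [IntermediateField.adjoin.finrank h] at h1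
  rw [h1]
  rfl

lemma finiteDimensional_ext [FiniteDimensional ℚ E] (h : IsIntegral E ξ) :
    FiniteDimensional ℚ (ext E ξ) := by
  have h1 : FiniteDimensional E (IntermediateField.adjoin E {ξ}) :=
    IntermediateField.adjoin.finiteDimensional h
  have h2 : FiniteDimensional ℚ (IntermediateField.adjoin E {ξ}) :=
    FiniteDimensional.trans ℚ E (IntermediateField.adjoin E {ξ})
  exact h2

/-- Elements of `E(ξ)` are polynomials in `λ ξ`. -/
lemma exists_repr (h : IsIntegral E ξ) (lam : ℂ) (hlamE : lam ∈ E) (hlam : lam ≠ 0) (x : ℂ)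
    (hx : x ∈ ext E ξ) :
    ∃ e : ℕ → E, x = ∑ j ∈ range (minpoly E ξ).natDegree, (e j : ℂ) * (lam * ξ) ^ j := by
  rw [mem_ext_iff] at hx
  let pb := IntermediateField.adjoin.powerBasis h
  have hdim : pb.dim = (minpoly E ξ).natDegree := IntermediateField.adjoin.powerBasis_dim h
  have hgen : ((pb.gen : IntermediateField.adjoin E {ξ}) : ℂ) = ξ := by
    have := IntermediateField.adjoin.powerBasis_gen h
    rw [this]
    exact IntermediateField.AdjoinSimple.coe_gen E ξ
  obtain ⟨lam', hlam'⟩ : ∃ l : E, (l : ℂ) = lam := ⟨⟨lam, hlamE⟩, rfl⟩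
  let e : ℕ → E := fun j => if hj : j < pb.dim then
    pb.basis.repr ⟨x, hx⟩ ⟨j, hj⟩ * (lam' ^ j)⁻¹ else 0
  refine ⟨e, ?_⟩
  have h1 := pb.basis.sum_repr ⟨x, hx⟩
  have h2 := congrArg (fun z : IntermediateField.adjoin E {ξ} => (z : ℂ)) h1
  simp only at h2
  rw [← h2, ← hdim, ← Fin.sum_univ_eq_sum_range (fun j => (e j : ℂ) * (lam * ξ) ^ j) pb.dim]
  rw [AddSubmonoidClass.coe_finsetSum]
  refine Finset.sum_congr rfl (fun j _ => ?_)
  rw [pb.basis_eq_pow]
  simp only [e]
  rw [dif_pos j.isLt]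
  have h3 : (((pb.basis.repr ⟨x, hx⟩) j • pb.gen ^ (j : ℕ) : IntermediateField.adjoin E {ξ}) : ℂ)
      = ((pb.basis.repr ⟨x, hx⟩ j : E) : ℂ) * ξ ^ (j : ℕ) := by
    rw [IntermediateField.coe_smul, SubmonoidClass.coe_pow, hgen]
    rfl
  rw [h3, mul_pow]
  push_cast
  rw [hlam']
  have : lam ^ (j : ℕ) ≠ 0 := pow_ne_zero _ hlam
  have h4 : (pb.basis.repr ⟨x, hx⟩ ⟨(j : ℕ), j.isLt⟩ : E) = pb.basis.repr ⟨x, hx⟩ j := rfl
  rw [h4]
  field_simp

end

/-- An integral generator with controlled conjugates. -/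
lemma exists_eta (E : IntermediateField ℚ ℂ) [NumberField E] (χ : (𝓞 E)[X]) (hχ : χ ≠ 0) (ξ : ℂ)
    (hξ : eval₂ (emb E) ξ χ = 0) [NumberField (ext E ξ)] (h : ℝ) (h1 : 1 ≤ h)
    (hχh : ∀ i, (nrmHouse E).v (χ.coeff i) ≤ h) :
    ∃ η : 𝓞 (ext E ξ), emb (ext E ξ) η = emb E χ.leadingCoeff * ξ ∧
      (nrmHouse (ext E ξ)).v η ≤ χ.natDegree * h := by
  have hinjE : Function.Injective (emb E) := by
    intro x y hxy
    rw [emb_apply, emb_apply] at hxy
    exact RingOfIntegers.coe_injective (Subtype.ext hxy)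
  have hker : ∀ x : 𝓞 E, emb E x = 0 → x = 0 := fun x hx => hinjE (by rw [hx, map_zero])
  set p := χ.integralNormalization with hp
  have hpm : p.Monic := monic_integralNormalization hχ
  have hp0 := integralNormalization_eval₂_eq_zero (emb E) hξ hker
  have hN : 1 ≤ χ.natDegree := by
    by_contra hN
    have h2 : χ.natDegree = 0 := by omega
    rw [eq_C_of_natDegree_eq_zero h2, eval₂_C] at hξ
    have h3 := hker _ hξ
    apply hχ
    rw [eq_C_of_natDegree_eq_zero h2, h3, C_0]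
  have hpdeg : p.natDegree = χ.natDegree := by
    rw [hp]; exact natDegree_integralNormalization
  -- the element of the field
  have hmem : emb E χ.leadingCoeff * ξ ∈ ext E ξ :=
    (ext E ξ).mul_mem (le_ext E ξ ((χ.leadingCoeff : E).2)) (self_mem_ext E ξ)
  set y : ext E ξ := ⟨emb E χ.leadingCoeff * ξ, hmem⟩ with hy
  let j : 𝓞 E →+* ext E ξ := (algebraMap (𝓞 (ext E ξ)) (ext E ξ)).comp (incl (le_ext E ξ))
  have hj : ∀ x : 𝓞 E, ((j x : ext E ξ) : ℂ) = emb E x := fun x => rfl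
  have hy0 : eval₂ j y p = 0 := by
    apply Subtype.ext
    have h2 := hom_eval₂ p j ((ext E ξ).val.toRingHom) y
    have h3 : ((ext E ξ).val.toRingHom).comp j = emb E := by
      ext x
      rfl
    rw [h3] at h2
    exact h2.trans hp0
  have hyint : IsIntegral ℤ y := by
    have h2 : (j.IsIntegralElem y) := ⟨p, hpm, hy0⟩
    have h6 : (algebraMap ℤ (ext E ξ)) = j.comp (algebraMap ℤ (𝓞 E)) := RingHom.ext_int _ _
    let _ : Algebra (𝓞 E) (ext E ξ) := j.toAlgebra
    have : IsScalarTower ℤ (𝓞 E) (ext E ξ) := IsScalarTower.of_algebraMap_eq' h6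
    exact isIntegral_trans (A := 𝓞 E) y h2
  refine ⟨⟨y, hyint⟩, rfl, ?_⟩
  change house y ≤ _
  refine house_le_of y _ (by positivity) (fun σ => ?_)
  have hσ : eval₂ (σ.comp j) (σ y) p = 0 := by
    have h2 := hom_eval₂ p j σ y
    rw [hy0, map_zero] at h2
    exact h2.symm
  refine monic_root_le (σ y) χ.natDegree hN (fun i => (σ.comp j) (p.coeff i)) h h1 ?_ ?_
  · intro i hi
    have h2 : p.coeff i = χ.coeff i * χ.leadingCoeff ^ (χ.natDegree - 1 - i) :=
      integralNormalization_coeff_ne_natDegree (by omega)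
    have h3 : ∀ x : 𝓞 E, ‖(σ.comp j) x‖ ≤ (nrmHouse E).v x := by
      intro x
      exact (norm_embedding_le_house _ σ).trans (nrm_incl_le (le_ext E ξ) x)
    rw [h2, map_mul, map_pow, norm_mul, norm_pow]
    calc ‖(σ.comp j) (χ.coeff i)‖ * ‖(σ.comp j) χ.leadingCoeff‖ ^ (χ.natDegree - 1 - i)
        ≤ h * h ^ (χ.natDegree - 1 - i) := by
          refine mul_le_mul ((h3 _).trans (hχh i)) ?_ (by positivity) (by linarith)
          exact pow_le_pow_left₀ (norm_nonneg _) ((h3 _).trans (hχh _)) _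
      _ = h ^ (χ.natDegree - i) := by
          rw [← pow_succ']
          congr 1
          omega
  · rw [eval₂_eq_sum_range, hpdeg, Finset.sum_range_succ] at hσ
    have h2 : p.coeff χ.natDegree = 1 := by
      have := hpm.leadingCoeff
      rwa [leadingCoeff, hpdeg] at this
    rw [h2, map_one, one_mul] at hσ
    linear_combination hσ

/-- Spanning sets of `E(ξ)`. -/
lemma span_ext (E : IntermediateField ℚ ℂ) (ξ : ℂ) (h : IsIntegral E ξ) (lam : 𝓞 E)
    (hlam : lam ≠ 0) (η : 𝓞 (ext E ξ)) (hη : emb (ext E ξ) η = emb E lam * ξ) (S : Set (𝓞 E))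
    (hS : Submodule.span ℚ ((algebraMap (𝓞 E) E) '' S) = ⊤) :
    Submodule.span ℚ ((algebraMap (𝓞 (ext E ξ)) (ext E ξ)) ''
      {x | ∃ s ∈ S, ∃ j < (minpoly E ξ).natDegree, x = incl (le_ext E ξ) s * η ^ j}) = ⊤ := by
  set W := Submodule.span ℚ ((algebraMap (𝓞 (ext E ξ)) (ext E ξ)) ''
      {x | ∃ s ∈ S, ∃ j < (minpoly E ξ).natDegree, x = incl (le_ext E ξ) s * η ^ j}) with hW
  have hlam' : emb E lam ≠ 0 := by
    intro h0
    apply hlam
    rw [emb_apply] at h0
    exact RingOfIntegers.coe_injective (Subtype.ext h0)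
  -- multiples of `η ^ j` by elements of `E`
  have key : ∀ (e : E) (j : ℕ), j < (minpoly E ξ).natDegree →
      (IntermediateField.inclusion (le_ext E ξ) e) * (algebraMap (𝓞 (ext E ξ)) (ext E ξ) η) ^ j
        ∈ W := by
    intro e j hj
    have he : e ∈ Submodule.span ℚ ((algebraMap (𝓞 E) E) '' S) := by rw [hS]; trivial
    induction he using Submodule.span_induction with
    | mem x hx =>
      obtain ⟨s, hs, rfl⟩ := hx
      refine Submodule.subset_span ⟨incl (le_ext E ξ) s * η ^ j, ⟨s, hs, j, hj, rfl⟩, ?_⟩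
      rw [map_mul, map_pow]
      rfl
    | zero => rw [map_zero, zero_mul]; exact W.zero_mem
    | add x y _ _ hx hy => rw [map_add, add_mul]; exact W.add_mem hx hy
    | smul r x _ hx =>
      have h1 : IntermediateField.inclusion (le_ext E ξ) (r • x)
          = r • IntermediateField.inclusion (le_ext E ξ) x := rfl
      rw [h1, smul_mul_assoc]; exact W.smul_mem r hx
  rw [eq_top_iff]
  intro x _
  obtain ⟨e, he⟩ := exists_repr E ξ h (emb E lam) (lam : E).2 hlam' (x : ℂ) x.2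
  have h2 : x = ∑ j ∈ range (minpoly E ξ).natDegree,
      (IntermediateField.inclusion (le_ext E ξ) (e j)) *
        (algebraMap (𝓞 (ext E ξ)) (ext E ξ) η) ^ j := by
    apply Subtype.ext
    rw [AddSubmonoidClass.coe_finsetSum, he]
    refine Finset.sum_congr rfl (fun j _ => ?_)
    rw [← hη]
    rfl
  rw [h2]
  exact W.sum_mem (fun j hj => key (e j) j (Finset.mem_range.mp hj))

end Pool.Agent.H20.G
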