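import Pool.Agent.H20.N4

set_option autoImplicit false

namespace Pool.Agent.H20.G

open Polynomial Finset NumberField Module

lemma comp_pow_coeff {R : Type*} [CommRing R] (P : R[X]) (A : R) (q k : ℕ) (hq : 1 ≤ q) :
    (P.comp (C A * X ^ q)).coeff (q * k) = P.coeff k * A ^ k := by
  have h1 : P.comp (C A * X ^ q) = expand R q (P.comp (C A * X)) := by
    rw [expand_eq_comp_X_pow, comp_assoc]
    simp
  rw [h1, coeff_expand_mul' (by omega), comp_C_mul_X_coeff]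

lemma comp_pow_natDegree {R : Type*} [CommRing R] (P : R[X]) (A : R) (q k : ℕ)
    (hP : P.natDegree ≤ k) : (P.comp (C A * X ^ q)).natDegree ≤ q * k := by
  refine natDegree_comp_le.trans ?_
  rw [mul_comm]
  exact Nat.mul_le_mul (natDegree_C_mul_X_pow_le _ _) hP

/-- Embeddings are determined by their values on a spanning set. -/
lemma hom_ext_span (E : IntermediateField ℚ ℂ) (S : Set (𝓞 E))
    (hS : Submodule.span ℚ ((algebraMap (𝓞 E) E) '' S) = ⊤) (σ σ' : E →+* ℂ)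
    (h : ∀ x ∈ S, σ (algebraMap (𝓞 E) E x) = σ' (algebraMap (𝓞 E) E x)) : σ = σ' := by
  ext x
  have hx : x ∈ Submodule.span ℚ ((algebraMap (𝓞 E) E) '' S) := by rw [hS]; trivial
  induction hx using Submodule.span_induction with
  | mem x hx =>
    obtain ⟨s, hs, rfl⟩ := hx
    exact h s hs
  | zero => rw [map_zero, map_zero]
  | add x y _ _ hx hy => rw [map_add, map_add, hx, hy]
  | smul r x _ hx => rw [map_rat_smul, map_rat_smul, hx]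

/-- A local chart of the curve, with a complex point of it. The relation with the affine
coordinates is `1 / x = w s ^ m`, `y / x = V(s) + v s ^ k₀ ζ`. -/
structure Node (d : ℕ) (c : ℕ → ℕ → ℤ) (a b : ℤ) where
  E : IntermediateField ℚ ℂ
  nf : NumberField E
  m : ℕ
  w : 𝓞 E
  V : (𝓞 E)[X]
  v : 𝓞 E
  k₀ : ℕ
  μ : ℕ
  Ψ : (𝓞 E)[X][X]
  r : ℕ
  s : ℂ
  ζ : ℂ
  S : Set (𝓞 E)
  m_pos : 1 ≤ m
  r_pos : 1 ≤ r
  w_ne : w ≠ 0
  v_ne : v ≠ 0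
  s_ne : s ≠ 0
  rel : X ^ μ * Ψ = F0 d c (C (C w) * X ^ m) (zt V v k₀)
  lt : ∀ l < r, (Ψ.coeff 0).coeff l = 0
  ne : (Ψ.coeff 0).coeff r ≠ 0
  deg : ∀ k, (Ψ.coeff k).natDegree ≤ d
  hdeg : finrank ℚ E * m * r ≤ d
  inv : 2 ≤ r → 2 * k₀ ≤ μ
  hs : (a : ℂ) * (emb E w * s ^ m) = 1
  hb : (b : ℂ) = a * ev (emb E) s ζ (zt V v k₀)
  zero : ev (emb E) s ζ Ψ = 0
  span : Submodule.span ℚ ((algebraMap (𝓞 E) E) '' S) = ⊤
  Vdeg : V.natDegree ≤ k₀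
  dist : ∀ (σ σ' : E →+* ℂ) (x x' : ℂ), x ≠ 0 → x' ≠ 0 →
    σ (algebraMap (𝓞 E) E w) * x ^ m = σ' (algebraMap (𝓞 E) E w) * x' ^ m →
    (∀ k ≤ k₀, σ (algebraMap (𝓞 E) E (V.coeff k)) * x ^ k
      = σ' (algebraMap (𝓞 E) E (V.coeff k)) * x' ^ k) → σ = σ' ∧ x = x'

/-- sizes of the data of a node -/
structure Node.Ht {d : ℕ} {c : ℕ → ℕ → ℤ} {a b : ℤ} (N : Node d c a b) [NumberField N.E]
    (D : ℕ) (h : ℝ) : Prop where
  dΨ : N.Ψ.natDegree ≤ D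
  dz : (zt N.V N.v N.k₀).natDegree ≤ D
  dμ : N.μ ≤ D
  dk : N.k₀ ≤ D
  hw : (nrmHouse N.E).v N.w ≤ h
  hv : (nrmHouse N.E).v N.v ≤ h
  hz : (nrmHouse N.E).poly.l1 (zt N.V N.v N.k₀) ≤ h
  hΨ : (nrmHouse N.E).poly.l1 N.Ψ ≤ h
  hS : ∀ x ∈ N.S, (nrmHouse N.E).v x ≤ h

section

variable (E : IntermediateField ℚ ℂ)

lemma emb_injective : Function.Injective (emb E) := by
  intro x y hxy
  rw [emb_apply, emb_apply] at hxy
  exact RingOfIntegers.coe_injective (Subtype.ext hxy)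

lemma emb_ne_zero {x : 𝓞 E} (hx : x ≠ 0) : emb E x ≠ 0 := fun h0 =>
  hx (emb_injective E (by rw [h0, map_zero]))

lemma norm_emb_le [NumberField E] (x : 𝓞 E) : ‖emb E x‖ ≤ (nrmHouse E).v x :=
  norm_embedding_le_house _ (E.val.toRingHom)

/-- Liouville's inequality -/
lemma one_le_emb [NumberField E] (d : ℕ) (he : finrank ℚ E ≤ d) (h : ℝ) (hh : 1 ≤ h) (x : 𝓞 E)
    (hx : x ≠ 0) (hxh : (nrmHouse E).v x ≤ h) : 1 ≤ ‖emb E x‖ * h ^ d := by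
  have h1 := one_le_norm_mul E.val.toRingHom x hx
  refine h1.trans (mul_le_mul_of_nonneg_left ?_ (norm_nonneg _))
  calc ((nrmHouse E).v x) ^ (finrank ℚ E - 1) ≤ h ^ (finrank ℚ E - 1) :=
        pow_le_pow_left₀ ((nrmHouse E).nonneg _) hxh _
    _ ≤ h ^ d := pow_le_pow_right₀ hh (by omega)

end

/-- expansion of the values -/
lemma ev_expand2 {R : Type*} [CommRing R] (φ : R →+* ℂ) (s ζ : ℂ) (Ψ : R[X][X]) (K d : ℕ)
    (hK : Ψ.natDegree ≤ K) (hd : ∀ k, (Ψ.coeff k).natDegree ≤ d) :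
    ev φ s ζ Ψ = ∑ k ∈ range (K + 1), ∑ l ∈ range (d + 1),
      φ ((Ψ.coeff k).coeff l) * s ^ k * ζ ^ l := by
  conv_lhs => rw [expand2 Ψ K d hK hd]
  rw [map_sum]
  refine Finset.sum_congr rfl (fun k _ => ?_)
  rw [map_sum]
  refine Finset.sum_congr rfl (fun l _ => ?_)
  rw [map_mul, map_mul, map_pow, map_pow, ev_C, ev_C, ev_X, eval₂_C, eval₂_X]

lemma l1_expand2 {R : Type*} [CommRing R] (ν : Nrm R) (Ψ : R[X][X]) (K d : ℕ)
    (hK : Ψ.natDegree ≤ K) (hd : ∀ k, (Ψ.coeff k).natDegree ≤ d) :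
    ν.poly.l1 Ψ = ∑ k ∈ range (K + 1), ∑ l ∈ range (d + 1), ν.v ((Ψ.coeff k).coeff l) := by
  rw [ν.poly.l1_eq_range Ψ (K + 1) (by omega)]
  refine Finset.sum_congr rfl (fun k _ => ?_)
  change ν.l1 (Ψ.coeff k) = _
  rw [ν.l1_eq_range (Ψ.coeff k) (d + 1) (by have := hd k; omega)]

lemma coeff2_le {R : Type*} [CommRing R] (ν : Nrm R) (Ψ : R[X][X]) (k l : ℕ) :
    ν.v ((Ψ.coeff k).coeff l) ≤ ν.poly.l1 Ψ :=
  (ν.coeff_le _ _).trans (ν.poly.coeff_le _ _)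

lemma zt_deg {R : Type*} [CommRing R] (V : R[X]) (v : R) (k₀ d : ℕ) (hd : 1 ≤ d) (k : ℕ) :
    ((zt V v k₀).coeff k).natDegree ≤ d := by
  unfold zt
  rw [coeff_add, coeff_map, coeff_monomial]
  refine (natDegree_add_le _ _).trans (max_le ?_ ?_)
  · simp
  · split_ifs
    · refine (natDegree_C_mul_le _ _).trans (natDegree_X_le.trans hd)
    · simp

end Pool.Agent.H20.G
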