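import Pool.Agent.H20.N5

set_option autoImplicit false

namespace Pool.Agent.H20.G

open Polynomial Finset NumberField Module

/-- the new initial form -/
lemma st_zero_map {R : Type*} [CommRing R] (φ : R →+* ℂ) (A B : R) (p q u v K d n e : ℕ)
    (Ψ : R[X][X]) (β lam : ℂ) (hu : u * q = v * p + 1)
    (hA : φ A = (β ^ q) ^ v * lam ^ (e * q)) (hB : φ B = (β ^ q) ^ u * lam ^ (e * p))
    (hn : ∀ k l, (Ψ.coeff k).coeff l ≠ 0 → n ≤ q * k + p * l) :
    ((st A B 1 p q K d n Ψ).coeff 0).map φ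
      = C (β ^ (v * n) * lam ^ (e * n)) *
        ((lineP p q K d n Ψ).map φ).comp (C β * (1 + X)) := by
  rw [st_coeff_zero A B 1 p q K d n Ψ hn]
  unfold lineP
  rw [Polynomial.map_sum, Polynomial.map_sum, Polynomial.sum_comp, Finset.mul_sum]
  refine Finset.sum_congr rfl (fun k _ => ?_)
  rw [Polynomial.map_sum, Polynomial.map_sum, Polynomial.sum_comp, Finset.mul_sum]
  refine Finset.sum_congr rfl (fun l _ => ?_)
  split_ifs with h1
  · have h2 : φ ((Ψ.coeff k).coeff l * A ^ k * B ^ l)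
        = (β ^ (v * n) * lam ^ (e * n)) * (φ ((Ψ.coeff k).coeff l) * β ^ l) := by
      rw [map_mul, map_mul, map_pow, map_pow, hA, hB, ← h1]
      have e1 : ((β ^ q) ^ v * lam ^ (e * q)) ^ k * ((β ^ q) ^ u * lam ^ (e * p)) ^ l
          = β ^ (q * v * k + u * q * l) * lam ^ (e * (q * k + p * l)) := by
        ring
      have e5 : q * v * k + u * q * l = v * (q * k + p * l) + l := by rw [hu]; ring
      calc φ ((Ψ.coeff k).coeff l) * ((β ^ q) ^ v * lam ^ (e * q)) ^ k *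
            ((β ^ q) ^ u * lam ^ (e * p)) ^ l
          = φ ((Ψ.coeff k).coeff l) * (((β ^ q) ^ v * lam ^ (e * q)) ^ k *
            ((β ^ q) ^ u * lam ^ (e * p)) ^ l) := by ring
        _ = _ := by rw [e1, e5, pow_add]; ring
    have h3 : (C ((Ψ.coeff k).coeff l * A ^ k * B ^ l) * (C 1 + X) ^ l : R[X]).map φ
        = C ((β ^ (v * n) * lam ^ (e * n)) * (φ ((Ψ.coeff k).coeff l) * β ^ l)) * (1 + X) ^ l := by
      rw [Polynomial.map_mul, Polynomial.map_pow, Polynomial.map_add, map_X, Polynomial.map_C, h2,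
        Polynomial.map_C, map_one, C_1]
    have h4 : ((C ((Ψ.coeff k).coeff l) * X ^ l : R[X]).map φ).comp (C β * (1 + X))
        = C (φ ((Ψ.coeff k).coeff l)) * (C β * (1 + X)) ^ l := by
      rw [Polynomial.map_mul, Polynomial.map_pow, map_X, Polynomial.map_C, mul_comp, C_comp,
        pow_comp, X_comp]
    rw [h3, h4, mul_pow, C_mul, C_mul (a := φ _), C_pow]
    ring
  · simp

lemma CC_pow {R : Type*} [CommRing R] (A : R) (q μ : ℕ) :
    (C (C A) * X ^ q : R[X][X]) ^ μ = C (C (A ^ μ)) * X ^ (q * μ) := by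
  rw [mul_pow, ← pow_mul, ← C_pow, ← C_pow]

lemma coeff_of_comp (g g₁ : ℂ[X]) (β : ℂ) (hβ : β ≠ 0) (j : ℕ) (hg : g = (X - C β) ^ j * g₁)
    (hg₁ : g₁.eval β ≠ 0) :
    (∀ l < j, (g.comp (C β * (1 + X))).coeff l = 0) ∧ (g.comp (C β * (1 + X))).coeff j ≠ 0 := by
  have h1 : g.comp (C β * (1 + X)) = X ^ j * (C (β ^ j) * g₁.comp (C β * (1 + X))) := by
    rw [hg, mul_comp, pow_comp, sub_comp, X_comp, C_comp]
    have : C β * (1 + X) - C β = C β * X := by ring
    rw [this, mul_pow, C_pow]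
    ring
  constructor
  · intro l hl
    rw [h1, coeff_X_pow_mul', if_neg (by omega)]
  · rw [h1, coeff_X_pow_mul', if_pos le_rfl, Nat.sub_self, coeff_C_mul, coeff_zero_eq_eval_zero,
      eval_comp]
    refine mul_ne_zero (pow_ne_zero _ hβ) ?_
    simpa using hg₁

/-- The conjugates of a chart stay distinct after a Newton–Puiseux step. -/
lemma dist_step (E E' : IntermediateField ℚ ℂ) (hle : E ≤ E') (w v : 𝓞 E) (V : (𝓞 E)[X])
    (k₀ m : ℕ) (hV : V.natDegree ≤ k₀) (hv : v ≠ 0)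
    (hdist : ∀ (σ σ' : E →+* ℂ) (x x' : ℂ), x ≠ 0 → x' ≠ 0 →
      σ (algebraMap (𝓞 E) E w) * x ^ m = σ' (algebraMap (𝓞 E) E w) * x' ^ m →
      (∀ k ≤ k₀, σ (algebraMap (𝓞 E) E (V.coeff k)) * x ^ k
        = σ' (algebraMap (𝓞 E) E (V.coeff k)) * x' ^ k) → σ = σ' ∧ x = x')
    (A B η : 𝓞 E') (lam : 𝓞 E) (hlam : lam ≠ 0) (p q u t : ℕ) (hp : 1 ≤ p) (hq : 1 ≤ q)
    (hut : u * q = t * p + 1) (htq : t ≤ (u + t) * q) (hup : u ≤ (u + t) * p)
    (hA : A = η ^ t * (incl hle lam) ^ ((u + t) * q - t))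
    (hB : B = η ^ u * (incl hle lam) ^ ((u + t) * p - u)) (hA0 : A ≠ 0) (hB0 : B ≠ 0)
    (S : Set (𝓞 E)) (N₀ : ℕ)
    (hS : Submodule.span ℚ ((algebraMap (𝓞 E') E') ''
      {x | ∃ s ∈ S, ∃ l < N₀, x = incl hle s * η ^ l}) = ⊤)
    (σ σ' : E' →+* ℂ) (x x' : ℂ) (hx : x ≠ 0) (hx' : x' ≠ 0)
    (h1 : σ (algebraMap (𝓞 E') E' (incl hle w * A ^ m)) * x ^ (q * m)
      = σ' (algebraMap (𝓞 E') E' (incl hle w * A ^ m)) * x' ^ (q * m))
    (h2 : ∀ k ≤ q * k₀ + p, σ (algebraMap (𝓞 E') E' (((V.map (incl hle)).comp (C A * X ^ q) +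
        C (incl hle v * A ^ k₀ * B * 1) * X ^ (q * k₀ + p)).coeff k)) * x ^ k
      = σ' (algebraMap (𝓞 E') E' (((V.map (incl hle)).comp (C A * X ^ q) +
        C (incl hle v * A ^ k₀ * B * 1) * X ^ (q * k₀ + p)).coeff k)) * x' ^ k) :
    σ = σ' ∧ x = x' := by
  set i := incl hle with hi
  -- the restrictions to the smaller field
  let τ : (E' →+* ℂ) → (E →+* ℂ) := fun ρ => ρ.comp (IntermediateField.inclusion hle).toRingHom
  have hτ : ∀ (ρ : E' →+* ℂ) (z : 𝓞 E), τ ρ (algebraMap (𝓞 E) E z)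
      = ρ (algebraMap (𝓞 E') E' (i z)) := fun ρ z => rfl
  have hinj : Function.Injective (algebraMap (𝓞 E') E') := RingOfIntegers.coe_injective
  have hne : ∀ (ρ : E' →+* ℂ) (z : 𝓞 E'), z ≠ 0 → ρ (algebraMap (𝓞 E') E' z) ≠ 0 := by
    intro ρ z hz h0
    apply hz
    apply hinj
    rw [map_zero]
    exact ρ.injective (by rw [h0, map_zero])
  have hiinj : Function.Injective i := incl_injective hle
  have hcoef1 : ∀ k ≤ k₀, ((V.map i).comp (C A * X ^ q) +
      C (i v * A ^ k₀ * B * 1) * X ^ (q * k₀ + p)).coeff (q * k) = i (V.coeff k) * A ^ k := by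
    intro k hk
    rw [coeff_add, comp_pow_coeff _ _ _ _ hq, coeff_map, coeff_C_mul, coeff_X_pow, if_neg, mul_zero,
      add_zero]
    have : q * k ≤ q * k₀ := Nat.mul_le_mul_left _ hk
    omega
  have hcoef2 : ((V.map i).comp (C A * X ^ q) +
      C (i v * A ^ k₀ * B * 1) * X ^ (q * k₀ + p)).coeff (q * k₀ + p) = i v * A ^ k₀ * B := by
    rw [coeff_add, coeff_C_mul, coeff_X_pow, if_pos rfl, coeff_eq_zero_of_natDegree_lt]
    · ring
    · have := comp_pow_natDegree (V.map i) A q k₀ (natDegree_map_le.trans hV)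
      omega
  obtain ⟨hτeq, hyeq⟩ := hdist (τ σ) (τ σ') (σ (algebraMap (𝓞 E') E' A) * x ^ q)
    (σ' (algebraMap (𝓞 E') E' A) * x' ^ q) (mul_ne_zero (hne _ _ hA0) (pow_ne_zero _ hx))
    (mul_ne_zero (hne _ _ hA0) (pow_ne_zero _ hx')) (by
      rw [hτ, hτ]
      rw [map_mul, map_mul, map_pow, map_pow, map_mul, map_pow] at h1
      rw [mul_pow, mul_pow, ← pow_mul, ← pow_mul, ← mul_assoc, ← mul_assoc]
      exact h1) (by
      intro k hk
      have h3 := h2 (q * k) (by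
        have : q * k ≤ q * k₀ := Nat.mul_le_mul_left _ hk
        omega)
      rw [hcoef1 k hk] at h3
      rw [hτ, hτ]
      rw [map_mul, map_mul, map_pow, map_pow, map_mul, map_pow] at h3
      rw [mul_pow, mul_pow, ← pow_mul, ← pow_mul, ← mul_assoc, ← mul_assoc]
      exact h3)
  have hi2 : ∀ z : 𝓞 E, σ (algebraMap (𝓞 E') E' (i z)) = σ' (algebraMap (𝓞 E') E' (i z)) := by
    intro z
    rw [← hτ, ← hτ, hτeq]
  -- the new coefficient
  have h4 := h2 (q * k₀ + p) le_rfl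
  rw [hcoef2] at h4
  simp only [map_mul, map_pow] at h4
  rw [← hi2 v] at h4
  set a₁ := σ (algebraMap (𝓞 E') E' A) with ha₁
  set a₂ := σ' (algebraMap (𝓞 E') E' A) with ha₂
  set b₁ := σ (algebraMap (𝓞 E') E' B) with hb₁
  set b₂ := σ' (algebraMap (𝓞 E') E' B) with hb₂
  have ha₁0 : a₁ ≠ 0 := hne _ _ hA0
  have ha₂0 : a₂ ≠ 0 := hne _ _ hA0
  have hb₁0 : b₁ ≠ 0 := hne _ _ hB0
  have hb₂0 : b₂ ≠ 0 := hne _ _ hB0
  have hv0 : σ (algebraMap (𝓞 E') E' (i v)) ≠ 0 :=
    hne _ _ (fun h0 => hv (hiinj (by rw [h0, map_zero])))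
  have h5 : b₁ * x ^ p = b₂ * x' ^ p := by
    have h6 : σ (algebraMap (𝓞 E') E' (i v)) * (a₁ * x ^ q) ^ k₀ * (b₁ * x ^ p)
        = σ (algebraMap (𝓞 E') E' (i v)) * (a₁ * x ^ q) ^ k₀ * (b₂ * x' ^ p) := by
      calc σ (algebraMap (𝓞 E') E' (i v)) * (a₁ * x ^ q) ^ k₀ * (b₁ * x ^ p)
          = σ (algebraMap (𝓞 E') E' (i v)) * a₁ ^ k₀ * b₁ * x ^ (q * k₀ + p) := by
            rw [mul_pow, ← pow_mul, pow_add]; ring
        _ = σ (algebraMap (𝓞 E') E' (i v)) * a₂ ^ k₀ * b₂ * x' ^ (q * k₀ + p) := h4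
        _ = σ (algebraMap (𝓞 E') E' (i v)) * (a₂ * x' ^ q) ^ k₀ * (b₂ * x' ^ p) := by
            rw [mul_pow, ← pow_mul, pow_add]; ring
        _ = _ := by rw [← hyeq]
    have h7 : σ (algebraMap (𝓞 E') E' (i v)) * (a₁ * x ^ q) ^ k₀ ≠ 0 :=
      mul_ne_zero hv0 (pow_ne_zero _ (mul_ne_zero ha₁0 (pow_ne_zero _ hx)))
    exact mul_left_cancel₀ h7 h6
  -- the generator
  set l := σ (algebraMap (𝓞 E') E' (i lam)) with hl
  have hl0 : l ≠ 0 := hne _ _ (fun h0 => hlam (hiinj (by rw [h0, map_zero])))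
  have hl' : σ' (algebraMap (𝓞 E') E' (i lam)) = l := (hi2 lam).symm
  obtain ⟨n₁, hn₁⟩ : ∃ n₁, (u + t) * q = t + n₁ := ⟨(u + t) * q - t, by omega⟩
  obtain ⟨n₂, hn₂⟩ : ∃ n₂, (u + t) * p = u + n₂ := ⟨(u + t) * p - u, by omega⟩
  have hn₁' : (u + t) * q - t = n₁ := by omega
  have hn₂' : (u + t) * p - u = n₂ := by omega
  rw [hn₁'] at hA
  rw [hn₂'] at hB
  have hgen : ∀ (e b a z : ℂ), a = e ^ t * l ^ n₁ → b = e ^ u * l ^ n₂ →
      (b * z ^ p) ^ q * l ^ (n₁ * p) = (a * z ^ q) ^ p * l ^ (n₂ * q) * e := by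
    intro e b a z ha hb
    rw [ha, hb]
    have e1 : ((e ^ u * l ^ n₂) * z ^ p) ^ q = e ^ (u * q) * l ^ (n₂ * q) * z ^ (p * q) := by
      ring
    have e2 : ((e ^ t * l ^ n₁) * z ^ q) ^ p = e ^ (t * p) * l ^ (n₁ * p) * z ^ (p * q) := by
      ring
    rw [e1, e2, hut, pow_succ]
    ring
  have g1 := hgen (σ (algebraMap (𝓞 E') E' η)) b₁ a₁ x (by
    rw [ha₁, hA, map_mul, map_mul, map_pow, map_pow, map_pow, map_pow]) (by
    rw [hb₁, hB, map_mul, map_mul, map_pow, map_pow, map_pow, map_pow])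
  have g2 := hgen (σ' (algebraMap (𝓞 E') E' η)) b₂ a₂ x' (by
    rw [ha₂, hA, map_mul, map_mul, map_pow, map_pow, map_pow, map_pow, hl']) (by
    rw [hb₂, hB, map_mul, map_mul, map_pow, map_pow, map_pow, map_pow, hl'])
  have hη : σ (algebraMap (𝓞 E') E' η) = σ' (algebraMap (𝓞 E') E' η) := by
    rw [← h5, ← hyeq, g1] at g2
    exact mul_left_cancel₀ (mul_ne_zero (pow_ne_zero _ (mul_ne_zero ha₁0 (pow_ne_zero _ hx)))
      (pow_ne_zero _ hl0)) g2
  have hσ : σ = σ' := by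
    refine hom_ext_span E' _ hS σ σ' ?_
    rintro _ ⟨s, hs, j, hj, rfl⟩
    rw [map_mul, map_mul, map_mul, map_pow, map_pow, map_pow, hη, hi2 s]
  refine ⟨hσ, ?_⟩
  have ha : a₁ = a₂ := by rw [ha₁, ha₂, hσ]
  have hb : b₁ = b₂ := by rw [hb₁, hb₂, hσ]
  rw [← ha] at hyeq
  rw [← hb] at h5
  have hxq := mul_left_cancel₀ ha₁0 hyeq
  have hxp := mul_left_cancel₀ hb₁0 h5
  have h8 : x ^ (t * p) * x = x ^ (t * p) * x' := by
    calc x ^ (t * p) * x = x ^ (u * q) := by rw [hut, pow_succ]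
      _ = (x ^ q) ^ u := by rw [← pow_mul, mul_comm]
      _ = (x' ^ q) ^ u := by rw [hxq]
      _ = x' ^ (u * q) := by rw [← pow_mul, mul_comm]
      _ = (x' ^ p) ^ t * x' := by rw [hut, pow_succ, ← pow_mul, mul_comm p t]
      _ = (x ^ p) ^ t * x' := by rw [hxp]
      _ = x ^ (t * p) * x' := by rw [← pow_mul, mul_comm p t]
  exact mul_left_cancel₀ (pow_ne_zero _ hx) h8

/-- exponents -/
def K1 (d D : ℕ) : ℕ := (d + 1) * (D + d) + (D + d) * (D + d)
/-- exponents -/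
def M1 (d D : ℕ) : ℕ := 2 + 2 * K1 d D * D + (K1 d D + 1) * d + d * (d + 1) + K1 d D * d + K1 d D
/-- exponents -/
def M3 (d D : ℕ) : ℕ := d * (d + 2) + d * (D + d)

theorem Node.raw_step {d : ℕ} {c : ℕ → ℕ → ℤ} {a b : ℤ} (hd : 1 ≤ d) (N : Node d c a b)
    (nf : NumberField N.E) (hr : 2 ≤ N.r) (D : ℕ) (hD : 1 ≤ D) (h : ℝ) (hh : 2 ≤ h)
    (hN : N.Ht D h)
    (p q n : ℕ) (hp : 1 ≤ p) (hpD : p ≤ D) (hq : 1 ≤ q) (hqd : q ≤ d) (hcop : Nat.Coprime p q)
    (hn : ∀ k l, (N.Ψ.coeff k).coeff l ≠ 0 → n ≤ q * k + p * l)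
    (hnn : ∃ k l, (N.Ψ.coeff k).coeff l ≠ 0 ∧ q * k + p * l = n)
    (s₁ β ζ₁ : ℂ) (hs₁ : s₁ ^ q = N.s) (hβ0 : β ≠ 0)
    (hβ : eval₂ (emb N.E) β (lineP p q D d n N.Ψ) = 0)
    (hζ : N.ζ = s₁ ^ p * β * (1 + ζ₁)) (hβl : 1 ≤ h ^ (d + 2) * ‖β‖) :
    ∃ (N' : Node d c a b) (nf' : NumberField N'.E), N.k₀ < N'.k₀ ∧ N'.ζ = ζ₁ ∧
      ‖N'.s‖ ≤ ‖s₁‖ * h ^ (M3 d D) ∧ N'.Ht (2 * d * D) (h ^ (M1 d D)) := by
  have hh1 : 1 ≤ h := by linarith
  have hh0 : 0 < h := by linarith
  set E := N.E with hE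
  -- the line polynomial
  set G₀ := lineP p q D d n N.Ψ with hG₀
  obtain ⟨ks, ls, hψs, hlines⟩ := hnn
  have hG₀c : G₀.coeff ls ≠ 0 := by
    rw [hG₀, lineP_coeff p q D d n N.Ψ hN.dΨ hq N.deg ks ls hlines]
    exact hψs
  have hG₀0 : G₀ ≠ 0 := by
    intro h0
    rw [h0] at hG₀c
    simp at hG₀c
  have hres : ∀ l, G₀.coeff l ≠ 0 → l % q = ls % q := by
    intro l hl
    obtain ⟨k, hk, _⟩ := lineP_coeff_ne p q D d n N.Ψ hN.dΨ hq N.deg l hl
    exact residue_eq p q n k l ks ls hcop hk hlines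
  obtain ⟨χ, hGχ, hχc⟩ := exists_expand G₀ q (ls % q) hq hres
  have hχ0 : χ ≠ 0 := by
    rintro rfl
    rw [map_zero, mul_zero] at hGχ
    exact hG₀0 hGχ
  set lam := χ.leadingCoeff with hlam
  have hlam0 : lam ≠ 0 := leadingCoeff_ne_zero.mpr hχ0
  have hlamc : G₀.coeff (ls % q + q * χ.natDegree) ≠ 0 := by
    rw [← hχc]; exact hlam0
  obtain ⟨kt, hkt, hψt⟩ := lineP_coeff_ne p q D d n N.Ψ hN.dΨ hq N.deg _ hlamc
  -- `q deg χ ≤ r`
  have hnr : n ≤ p * N.r := by
    have := hn 0 N.r N.ne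
    omega
  have hltr : ls % q + q * χ.natDegree ≤ N.r := by
    have h1 : p * (ls % q + q * χ.natDegree) ≤ p * N.r := by omega
    exact Nat.le_of_mul_le_mul_left h1 hp
  have hfr : 1 ≤ finrank ℚ E := finrank_pos
  have hrd : N.r ≤ d := by
    have h1 := N.hdeg
    have h2 : 1 ≤ finrank ℚ E * N.m := Nat.mul_pos hfr N.m_pos
    calc N.r = 1 * N.r := (one_mul _).symm
      _ ≤ finrank ℚ E * N.m * N.r := Nat.mul_le_mul_right _ h2
      _ ≤ d := h1
  have hmd : N.m ≤ d := by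
    have h1 := N.hdeg
    calc N.m = 1 * N.m * 1 := by ring
      _ ≤ finrank ℚ E * N.m * N.r := Nat.mul_le_mul (Nat.mul_le_mul_right _ hfr) N.r_pos
      _ ≤ d := h1
  have hχd : χ.natDegree ≤ d := by
    have : χ.natDegree ≤ q * χ.natDegree := Nat.le_mul_of_pos_left _ hq
    omega
  -- roots
  have hβG : eval₂ (emb E) (β ^ q) χ = 0 := by
    have h1 : eval₂ (emb E) β G₀ = β ^ (ls % q) * eval₂ (emb E) (β ^ q) χ := by
      rw [hGχ, eval₂_mul, eval₂_X_pow, expand_eq_comp_X_pow, eval₂_comp, eval₂_X_pow]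
    rw [hβ] at h1
    rcases mul_eq_zero.mp h1.symm with h2 | h2
    · exact absurd h2 (pow_ne_zero _ hβ0)
    · exact h2
  set χE := χ.map (algebraMap (𝓞 E) E) with hχE
  have hinjOE : Function.Injective (algebraMap (𝓞 E) E) := RingOfIntegers.coe_injective
  have hχE0 : χE ≠ 0 := (Polynomial.map_ne_zero_iff hinjOE).mpr hχ0
  have hGE : G₀.map (algebraMap (𝓞 E) E) = X ^ (ls % q) * expand E q χE := by
    rw [hGχ, Polynomial.map_mul, Polynomial.map_pow, map_X, map_expand]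
  have haev : aeval (β ^ q) χE = 0 := by
    rw [hχE, aeval_def, eval₂_map]
    exact hβG
  obtain ⟨j, g₁, hj1, hjdeg, hjG, hjg⟩ := line_mult (G₀.map (algebraMap (𝓞 E) E)) χE q (ls % q) hq
    hGE hχE0 β hβ0 haev
  have hχEdeg : χE.natDegree = χ.natDegree := natDegree_map_eq_of_injective hinjOE χ
  rw [hχEdeg] at hjdeg
  have hGmap : G₀.map (emb E) = (X - C β) ^ j * g₁ := by
    rw [← hjG, Polynomial.map_map]
    rfl
  have hint : IsIntegral E (β ^ q) := by
    have halg : IsAlgebraic E (β ^ q) := ⟨χE, hχE0, haev⟩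
    exact halg.isIntegral
  -- the new field
  have hfdE : FiniteDimensional ℚ E := nf.to_finiteDimensional
  have hfd := finiteDimensional_ext E (β ^ q) hint
  have nf' : NumberField (ext E (β ^ q)) := { to_finiteDimensional := hfd }
  have hfrE := finrank_ext E (β ^ q) hint
  have hcoef : ∀ k l, (nrmHouse E).v ((N.Ψ.coeff k).coeff l) ≤ h := fun k l =>
    (coeff2_le (nrmHouse E) N.Ψ k l).trans hN.hΨ
  have hχh : ∀ e, (nrmHouse E).v (χ.coeff e) ≤ h := by
    intro e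
    by_cases h0 : χ.coeff e = 0
    · rw [h0, (nrmHouse E).zero]; linarith
    · rw [hχc] at h0 ⊢
      obtain ⟨k, hk, _⟩ := lineP_coeff_ne p q D d n N.Ψ hN.dΨ hq N.deg _ h0
      rw [hG₀, lineP_coeff p q D d n N.Ψ hN.dΨ hq N.deg k _ hk]
      exact hcoef _ _
  obtain ⟨η, hη, hηh⟩ := exists_eta E χ hχ0 (β ^ q) hβG h hh1 hχh
  rw [← hlam] at hη
  have hηh' : (nrmHouse (ext E (β ^ q))).v η ≤ h ^ (d + 1) := by
    refine hηh.trans ?_
    rw [pow_succ]
    refine mul_le_mul_of_nonneg_right ?_ hh0.le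
    exact natCast_le_pow' _ _ h hh hχd
  set i := incl (le_ext E (β ^ q)) with hi
  have hinc : ∀ x, (nrmHouse (ext E (β ^ q))).v (i x) ≤ (nrmHouse E).v x := nrm_incl_le _
  have hiinj : Function.Injective i := incl_injective _
  have hemb : ∀ x, emb (ext E (β ^ q)) (i x) = emb E x := fun x => rfl
  obtain ⟨u, v, huv, hvq, hup⟩ := exists_bezout p q hp hq hcop
  set A : 𝓞 (ext E (β ^ q)) := η ^ v * (i lam) ^ ((u + v) * q - v) with hA
  set B : 𝓞 (ext E (β ^ q)) := η ^ u * (i lam) ^ ((u + v) * p - u) with hB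
  have hlamC : emb E lam ≠ 0 := emb_ne_zero E hlam0
  have hvle : v ≤ (u + v) * q := by
    calc v ≤ (u + v) * 1 := by omega
      _ ≤ (u + v) * q := Nat.mul_le_mul_left _ hq
  have hule : u ≤ (u + v) * p := by
    calc u ≤ (u + v) * 1 := by omega
      _ ≤ (u + v) * p := Nat.mul_le_mul_left _ hp
  have hAe : emb (ext E (β ^ q)) A = (β ^ q) ^ v * (emb E lam) ^ ((u + v) * q) := by
    rw [hA, map_mul, map_pow, map_pow, hη, hemb, mul_pow]
    have : (emb E lam) ^ ((u + v) * q) = (emb E lam) ^ v * (emb E lam) ^ ((u + v) * q - v) := by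
      rw [← pow_add, Nat.add_sub_cancel' hvle]
    rw [this]; ring
  have hBe : emb (ext E (β ^ q)) B = (β ^ q) ^ u * (emb E lam) ^ ((u + v) * p) := by
    rw [hB, map_mul, map_pow, map_pow, hη, hemb, mul_pow]
    have : (emb E lam) ^ ((u + v) * p) = (emb E lam) ^ u * (emb E lam) ^ ((u + v) * p - u) := by
      rw [← pow_add, Nat.add_sub_cancel' hule]
    rw [this]; ring
  have hAC : emb (ext E (β ^ q)) A ≠ 0 := by
    rw [hAe]; exact mul_ne_zero (pow_ne_zero _ (pow_ne_zero _ hβ0)) (pow_ne_zero _ hlamC)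
  have hBC : emb (ext E (β ^ q)) B ≠ 0 := by
    rw [hBe]; exact mul_ne_zero (pow_ne_zero _ (pow_ne_zero _ hβ0)) (pow_ne_zero _ hlamC)
  have hA0 : A ≠ 0 := fun h0 => hAC (by rw [h0, map_zero])
  have hB0 : B ≠ 0 := fun h0 => hBC (by rw [h0, map_zero])
  -- the new parameter
  set s₃ : ℂ := s₁ / (β ^ v * (emb E lam) ^ (u + v)) with hs₃
  have hs₁0 : s₁ ≠ 0 := by
    rintro rfl
    rw [zero_pow (by omega)] at hs₁
    exact N.s_ne hs₁.symm
  have hs₃0 : s₃ ≠ 0 :=
    div_ne_zero hs₁0 (mul_ne_zero (pow_ne_zero _ hβ0) (pow_ne_zero _ hlamC))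
  have hs₁eq : s₁ = β ^ v * (emb E lam) ^ (u + v) * s₃ := by
    rw [hs₃]
    field_simp
  have hsA : emb (ext E (β ^ q)) A * s₃ ^ q = N.s := by
    rw [← hs₁, hs₁eq, hAe, mul_pow, mul_pow, ← pow_mul, ← pow_mul, ← pow_mul]
    ring
  have hζB : emb (ext E (β ^ q)) B * s₃ ^ p * (1 + ζ₁) = N.ζ := by
    rw [hζ, hs₁eq, hBe]
    have e1 : (β ^ q) ^ u = β ^ (v * p) * β := by
      rw [← pow_mul, mul_comm q u, huv, pow_succ]
    rw [e1, mul_pow, mul_pow, ← pow_mul, ← pow_mul]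
    ring
  -- heights of `A` and `B`
  have hlamh : (nrmHouse (ext E (β ^ q))).v (i lam) ≤ h := (hinc _).trans (hχh _)
  have hAh : (nrmHouse (ext E (β ^ q))).v A ≤ h ^ (K1 d D) := by
    calc (nrmHouse (ext E (β ^ q))).v A
        ≤ (h ^ (d + 1)) ^ v * h ^ ((u + v) * q - v) := by
          refine ((nrmHouse _).mul_le _ _).trans (mul_le_mul ?_ ?_ ((nrmHouse _).nonneg _)
            (by positivity))
          · exact ((nrmHouse _).pow_le _ _).trans
              (pow_le_pow_left₀ ((nrmHouse _).nonneg _) hηh' _)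
          · exact ((nrmHouse _).pow_le _ _).trans
              (pow_le_pow_left₀ ((nrmHouse _).nonneg _) hlamh _)
      _ = h ^ ((d + 1) * v + ((u + v) * q - v)) := by rw [← pow_mul, ← pow_add]
      _ ≤ h ^ (K1 d D) := by
          apply pow_le_pow_right₀ hh1
          unfold K1
          have h1 : (d + 1) * v ≤ (d + 1) * (D + d) := Nat.mul_le_mul_left _ (by omega)
          have h2 : (u + v) * q ≤ (D + d) * (D + d) := Nat.mul_le_mul (by omega) (by omega)
          omega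
  have hBh : (nrmHouse (ext E (β ^ q))).v B ≤ h ^ (K1 d D) := by
    calc (nrmHouse (ext E (β ^ q))).v B
        ≤ (h ^ (d + 1)) ^ u * h ^ ((u + v) * p - u) := by
          refine ((nrmHouse _).mul_le _ _).trans (mul_le_mul ?_ ?_ ((nrmHouse _).nonneg _)
            (by positivity))
          · exact ((nrmHouse _).pow_le _ _).trans
              (pow_le_pow_left₀ ((nrmHouse _).nonneg _) hηh' _)
          · exact ((nrmHouse _).pow_le _ _).trans
              (pow_le_pow_left₀ ((nrmHouse _).nonneg _) hlamh _)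
      _ = h ^ ((d + 1) * u + ((u + v) * p - u)) := by rw [← pow_mul, ← pow_add]
      _ ≤ h ^ (K1 d D) := by
          apply pow_le_pow_right₀ hh1
          unfold K1
          have h1 : (d + 1) * u ≤ (d + 1) * (D + d) := Nat.mul_le_mul_left _ (by omega)
          have h2 : (u + v) * p ≤ (D + d) * (D + d) := Nat.mul_le_mul (by omega) (by omega)
          omega
  -- transported polynomials
  set Ψm := N.Ψ.map (mapRingHom i) with hΨm
  have hΨmc : ∀ k l, (Ψm.coeff k).coeff l = i ((N.Ψ.coeff k).coeff l) := by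
    intro k l
    rw [hΨm, coeff_map, coe_mapRingHom, coeff_map]
  have hΨmK : Ψm.natDegree ≤ D := natDegree_map_le.trans hN.dΨ
  have hΨmd : ∀ k, (Ψm.coeff k).natDegree ≤ d := by
    intro k
    rw [hΨm, coeff_map, coe_mapRingHom]
    exact natDegree_map_le.trans (N.deg k)
  have hΨmn : ∀ k l, (Ψm.coeff k).coeff l ≠ 0 → n ≤ q * k + p * l := by
    intro k l h0
    rw [hΨmc] at h0
    exact hn k l (fun h1 => h0 (by rw [h1, map_zero]))
  have hΨml : (nrmHouse (ext E (β ^ q))).poly.l1 Ψm ≤ h :=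
    ((nrmHouse E).poly.l1_map_le (nrmHouse _).poly (mapRingHom i)
      (fun a => (nrmHouse E).l1_map_le (nrmHouse _) i hinc a) N.Ψ).trans hN.hΨ
  set Zm := zt (N.V.map i) (i N.v) N.k₀ with hZm
  have hZmap : (zt N.V N.v N.k₀).map (mapRingHom i) = Zm := zt_map i N.V N.v N.k₀
  have hZmK : Zm.natDegree ≤ D := by rw [← hZmap]; exact natDegree_map_le.trans hN.dz
  have hZml : (nrmHouse (ext E (β ^ q))).poly.l1 Zm ≤ h := by
    rw [← hZmap]
    exact ((nrmHouse E).poly.l1_map_le (nrmHouse _).poly (mapRingHom i)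
      (fun a => (nrmHouse E).l1_map_le (nrmHouse _) i hinc a) _).trans hN.hz
  have hlineM : (lineP p q D d n Ψm).map (emb (ext E (β ^ q))) = G₀.map (emb E) := by
    rw [hG₀]
    unfold lineP
    rw [Polynomial.map_sum, Polynomial.map_sum]
    refine Finset.sum_congr rfl (fun k _ => ?_)
    rw [Polynomial.map_sum, Polynomial.map_sum]
    refine Finset.sum_congr rfl (fun l _ => ?_)
    split_ifs
    · rw [Polynomial.map_mul, Polynomial.map_mul, Polynomial.map_pow, Polynomial.map_pow, map_X,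
        map_X, Polynomial.map_C, Polynomial.map_C, hΨmc, hemb]
    · simp
  set st₁ := st A B 1 p q D d n Ψm with hst₁
  have hst0 := st_zero_map (emb (ext E (β ^ q))) A B p q u v D d n (u + v) Ψm β (emb E lam) huv
    hAe hBe hΨmn
  rw [← hst₁, hlineM] at hst0
  obtain ⟨hc1, hc2⟩ := coeff_of_comp (G₀.map (emb E)) g₁ β hβ0 j hGmap hjg
  have hκ : β ^ (v * n) * (emb E lam) ^ ((u + v) * n) ≠ 0 :=
    mul_ne_zero (pow_ne_zero _ hβ0) (pow_ne_zero _ hlamC)
  have hstc : ∀ l, emb (ext E (β ^ q)) ((st₁.coeff 0).coeff l)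
      = β ^ (v * n) * (emb E lam) ^ ((u + v) * n) *
        ((G₀.map (emb E)).comp (C β * (1 + X))).coeff l := by
    intro l
    rw [← coeff_map, hst0, coeff_C_mul]
  have hrel0 := rel_map i d N.m c N.w N.V N.v N.k₀ N.μ N.Ψ N.rel
  have hrel1 := congrArg (sb A B 1 p q) hrel0
  rw [map_mul, map_pow, sb_X, map_F0, sb_T, sb_zt, ← hΨm,
    ← X_pow_mul_st A B 1 p q D d n Ψm hΨmK hΨmd hΨmn, ← hst₁] at hrel1
  have hevst : ev (emb (ext E (β ^ q))) s₃ ζ₁ st₁ = 0 := by
    have h1 := ev_sb A B 1 p q (emb (ext E (β ^ q))) s₃ ζ₁ Ψm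
    rw [map_one, hsA, hζB, ← X_pow_mul_st A B 1 p q D d n Ψm hΨmK hΨmd hΨmn, map_mul, map_pow,
      ev_X, hΨm, ev_map, emb_incl, N.zero] at h1
    rcases mul_eq_zero.mp h1 with h2 | h2
    · exact absurd h2 (pow_ne_zero _ hs₃0)
    · exact h2
  have hevz : ev (emb (ext E (β ^ q))) s₃ ζ₁ (sb A B 1 p q Zm)
      = ev (emb E) N.s N.ζ (zt N.V N.v N.k₀) := by
    rw [ev_sb, map_one, hsA, hζB, ← hZmap, ev_map, emb_incl]
  have hvm : ∀ x : ℕ, x * q * N.m = x * (q * N.m) := fun x => by ring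
  have hμD := hN.dμ
  have hkD := hN.dk
  let N' : Node d c a b :=
    { E := ext E (β ^ q)
      nf := nf'
      m := q * N.m
      w := i N.w * A ^ N.m
      V := (N.V.map i).comp (C A * X ^ q) + C (i N.v * A ^ N.k₀ * B * 1) * X ^ (q * N.k₀ + p)
      v := i N.v * A ^ N.k₀ * B
      k₀ := q * N.k₀ + p
      μ := q * N.μ + n
      Ψ := C (C (A ^ N.μ)) * st₁
      r := j
      s := s₃
      ζ := ζ₁
      S := {x | ∃ s ∈ N.S, ∃ l < (minpoly E (β ^ q)).natDegree, x = i s * η ^ l}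
      m_pos := Nat.mul_pos hq N.m_pos
      r_pos := hj1
      w_ne := mul_ne_zero (fun h0 => N.w_ne (hiinj (by rw [h0, map_zero]))) (pow_ne_zero _ hA0)
      v_ne := mul_ne_zero (mul_ne_zero (fun h0 => N.v_ne (hiinj (by rw [h0, map_zero])))
        (pow_ne_zero _ hA0)) hB0
      s_ne := hs₃0
      rel := by
        rw [← hrel1, CC_pow, pow_add]
        ring
      lt := by
        intro l hl
        rw [coeff_C_mul, coeff_C_mul]
        have h1 := hstc l
        rw [hc1 l hl, mul_zero] at h1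
        rw [emb_injective _ (by rw [h1, map_zero] : emb _ ((st₁.coeff 0).coeff l) = emb _ 0),
          mul_zero]
      ne := by
        rw [coeff_C_mul, coeff_C_mul]
        refine mul_ne_zero (pow_ne_zero _ hA0) (fun h0 => ?_)
        have h1 := hstc j
        rw [h0, map_zero] at h1
        exact mul_ne_zero hκ hc2 h1.symm
      deg := by
        intro k
        rw [coeff_C_mul]
        exact (natDegree_C_mul_le _ _).trans (st_coeff_natDegree_le _ _ _ _ _ _ _ _ _ _)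
      hdeg := by
        rw [hfrE]
        calc finrank ℚ E * (minpoly E (β ^ q)).natDegree * (q * N.m) * j
            = finrank ℚ E * N.m * (q * (j * (minpoly E (β ^ q)).natDegree)) := by ring
          _ ≤ finrank ℚ E * N.m * (q * χ.natDegree) :=
              Nat.mul_le_mul_left _ (Nat.mul_le_mul_left _ hjdeg)
          _ ≤ finrank ℚ E * N.m * N.r := Nat.mul_le_mul_left _ (by omega)
          _ ≤ d := N.hdeg
      inv := by
        intro hj2
        have h1 := N.inv hr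
        have h2 : 1 ≤ (minpoly E (β ^ q)).natDegree := minpoly.natDegree_pos hint
        have h3 : j ≤ j * (minpoly E (β ^ q)).natDegree := Nat.le_mul_of_pos_right _ h2
        have h4 : χ.natDegree ≤ q * χ.natDegree := Nat.le_mul_of_pos_left _ hq
        have h5 : p * 2 ≤ p * (ls % q + q * χ.natDegree) := Nat.mul_le_mul_left _ (by omega)
        have h6 : q * (2 * N.k₀) ≤ q * N.μ := Nat.mul_le_mul_left _ h1
        have h7 : q * (2 * N.k₀) = 2 * (q * N.k₀) := by ring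
        omega
      hs := by
        have h1 := N.hs
        have h2 : emb (ext E (β ^ q)) (i N.w * A ^ N.m) * s₃ ^ (q * N.m)
            = emb E N.w * N.s ^ N.m := by
          rw [← hsA, map_mul, map_pow, hemb, mul_pow, ← pow_mul]
          ring
        rw [h2]
        exact h1
      hb := by
        have h1 := N.hb
        rw [← hevz, sb_zt] at h1
        exact h1
      zero := by
        rw [map_mul, hevst, mul_zero]
      span := span_ext E (β ^ q) hint lam hlam0 η hη N.S N.span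
      Vdeg := by
        refine (natDegree_add_le _ _).trans (max_le ?_ ?_)
        · exact (comp_pow_natDegree _ _ _ _ (natDegree_map_le.trans N.Vdeg)).trans (by omega)
        · exact (natDegree_C_mul_X_pow_le _ _)
      dist := fun σ σ' x x' hx hx' h1 h2 =>
        dist_step E (ext E (β ^ q)) (le_ext E (β ^ q)) N.w N.v N.V N.k₀ N.m N.Vdeg N.v_ne N.dist
          A B η lam hlam0 p q u v hp hq huv hvle hule hA hB hA0 hB0 N.S _
          (span_ext E (β ^ q) hint lam hlam0 η hη N.S N.span) σ σ' x x' hx hx' h1 h2 }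
  have hβpos : 0 < ‖β‖ := norm_pos_iff.mpr hβ0
  have hlamlow : 1 ≤ ‖emb E lam‖ * h ^ d := by
    refine one_le_emb E d ?_ h hh1 lam hlam0 (hχh _)
    have h1 := N.hdeg
    calc finrank ℚ E = finrank ℚ E * 1 * 1 := by ring
      _ ≤ finrank ℚ E * N.m * N.r := Nat.mul_le_mul (Nat.mul_le_mul_left _ N.m_pos) N.r_pos
      _ ≤ d := h1
  refine ⟨N', nf', ?_, rfl, ?_, ?_⟩
  · change N.k₀ < q * N.k₀ + p
    have : N.k₀ ≤ q * N.k₀ := Nat.le_mul_of_pos_left _ hq
    omega
  · change ‖s₃‖ ≤ _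
    have hlampos : 0 < ‖emb E lam‖ := norm_pos_iff.mpr hlamC
    rw [hs₃, norm_div, norm_mul, norm_pow, norm_pow, div_le_iff₀ (by positivity)]
    have h1 : (1 : ℝ) ≤ (h ^ (d + 2) * ‖β‖) ^ v := one_le_pow₀ hβl
    have h2 : (1 : ℝ) ≤ (‖emb E lam‖ * h ^ d) ^ (u + v) := one_le_pow₀ hlamlow
    calc ‖s₁‖ = ‖s₁‖ * (1 * 1) := by ring
      _ ≤ ‖s₁‖ * ((h ^ (d + 2) * ‖β‖) ^ v * (‖emb E lam‖ * h ^ d) ^ (u + v)) := by
          refine mul_le_mul_of_nonneg_left ?_ (norm_nonneg _)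
          exact mul_le_mul h1 h2 (by norm_num) (by positivity)
      _ = ‖s₁‖ * h ^ ((d + 2) * v + d * (u + v)) * (‖β‖ ^ v * ‖emb E lam‖ ^ (u + v)) := by
          rw [mul_pow, mul_pow, ← pow_mul, ← pow_mul, pow_add]; ring
      _ ≤ ‖s₁‖ * h ^ (M3 d D) * (‖β‖ ^ v * ‖emb E lam‖ ^ (u + v)) := by
          refine mul_le_mul_of_nonneg_right ?_ (by positivity)
          refine mul_le_mul_of_nonneg_left ?_ (norm_nonneg _)
          apply pow_le_pow_right₀ hh1
          unfold M3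
          have h3 : (d + 2) * v ≤ (d + 2) * d := Nat.mul_le_mul_left _ (by omega)
          have h4 : d * (u + v) ≤ d * (D + d) := Nat.mul_le_mul_left _ (by omega)
          have h5 : (d + 2) * d = d * (d + 2) := by ring
          omega
  · have hhK : 1 ≤ h ^ (K1 d D) := one_le_pow₀ hh1
    have h2h : 2 * h ^ (K1 d D) ≤ h ^ (K1 d D + 1) := by
      rw [pow_succ]; nlinarith
    have hstM : ∀ (n' : ℕ) (U : (𝓞 (ext E (β ^ q)))[X][X]), U.natDegree ≤ D →
        (∀ k, (U.coeff k).natDegree ≤ d) → (nrmHouse (ext E (β ^ q))).poly.l1 U ≤ h →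
        (nrmHouse (ext E (β ^ q))).poly.l1 (st A B 1 p q D d n' U)
          ≤ h ^ (1 + K1 d D * D + (K1 d D + 1) * d) := by
      intro n' U hU1 hU2 hU3
      refine (st_l1 A B 1 p q (nrmHouse _) D d n' U hU1 hU2 (h ^ (K1 d D)) hhK hAh hBh
        (by exact (nrmHouse _).one_le)).trans ?_
      calc (nrmHouse (ext E (β ^ q))).poly.l1 U * ((h ^ K1 d D) ^ D * (2 * h ^ K1 d D) ^ d)
          ≤ h * ((h ^ K1 d D) ^ D * (h ^ (K1 d D + 1)) ^ d) := by
            refine mul_le_mul hU3 ?_ (by positivity) hh0.le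
            refine mul_le_mul_of_nonneg_left ?_ (by positivity)
            exact pow_le_pow_left₀ (by positivity) h2h _
        _ = h ^ (1 + K1 d D * D + (K1 d D + 1) * d) := by
            rw [← pow_mul, ← pow_mul, pow_add, pow_add, pow_one]; ring
    have hapow : ∀ (x : ℕ), (nrmHouse (ext E (β ^ q))).v (A ^ x) ≤ h ^ (K1 d D * x) := by
      intro x
      rw [pow_mul]
      exact ((nrmHouse _).pow_le _ _).trans (pow_le_pow_left₀ ((nrmHouse _).nonneg _) hAh _)
    refine ⟨?_, ?_, ?_, ?_, ?_, ?_, ?_, ?_, ?_⟩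
    · change (C (C (A ^ N.μ)) * st₁).natDegree ≤ 2 * d * D
      refine (natDegree_C_mul_le _ _).trans ((natDegree_st_le _ _ _ _ _ _ _ _ _).trans ?_)
      have h1 : q * D ≤ d * D := Nat.mul_le_mul_right _ hqd
      have h2 : p * d ≤ D * d := Nat.mul_le_mul_right _ hpD
      have h3 : 2 * d * D = d * D + D * d := by ring
      omega
    · change (zt _ _ _).natDegree ≤ 2 * d * D
      rw [← sb_zt A B 1 p q (N.V.map i) (i N.v) N.k₀, ← hZm,
        ← X_pow_mul_st A B 1 p q D d 0 Zm hZmK (fun k => zt_deg _ _ _ d hd k) (fun _ _ _ => by omega),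
        pow_zero, one_mul]
      refine (natDegree_st_le _ _ _ _ _ _ _ _ _).trans ?_
      have h1 : q * D ≤ d * D := Nat.mul_le_mul_right _ hqd
      have h2 : p * d ≤ D * d := Nat.mul_le_mul_right _ hpD
      have h3 : 2 * d * D = d * D + D * d := by ring
      omega
    · change q * N.μ + n ≤ 2 * d * D
      have h1 : q * N.μ ≤ d * D := Nat.mul_le_mul hqd hμD
      have h2 : p * N.r ≤ D * d := Nat.mul_le_mul hpD hrd
      have h3 : 2 * d * D = d * D + D * d := by ring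
      omega
    · change q * N.k₀ + p ≤ 2 * d * D
      have h1 : q * N.k₀ ≤ d * D := Nat.mul_le_mul hqd hkD
      have h2 : D * 1 ≤ D * d := Nat.mul_le_mul_left _ hd
      have h3 : 2 * d * D = d * D + D * d := by ring
      omega
    · change (nrmHouse (ext E (β ^ q))).v (i N.w * A ^ N.m) ≤ h ^ M1 d D
      calc (nrmHouse (ext E (β ^ q))).v (i N.w * A ^ N.m)
          ≤ h * h ^ (K1 d D * N.m) := ((nrmHouse _).mul_le _ _).trans
            (mul_le_mul ((hinc _).trans hN.hw) (hapow _) ((nrmHouse _).nonneg _) hh0.le)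
        _ = h ^ (1 + K1 d D * N.m) := by rw [pow_add, pow_one]
        _ ≤ h ^ M1 d D := by
            apply pow_le_pow_right₀ hh1
            have h1 : K1 d D * N.m ≤ K1 d D * d := Nat.mul_le_mul_left _ hmd
            unfold M1
            omega
    · change (nrmHouse (ext E (β ^ q))).v (i N.v * A ^ N.k₀ * B) ≤ h ^ M1 d D
      calc (nrmHouse (ext E (β ^ q))).v (i N.v * A ^ N.k₀ * B)
          ≤ (h * h ^ (K1 d D * N.k₀)) * h ^ (K1 d D) := by
            refine ((nrmHouse _).mul_le _ _).trans (mul_le_mul ?_ hBh ((nrmHouse _).nonneg _)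
              (by positivity))
            exact ((nrmHouse _).mul_le _ _).trans
              (mul_le_mul ((hinc _).trans hN.hv) (hapow _) ((nrmHouse _).nonneg _) hh0.le)
        _ = h ^ (1 + K1 d D * N.k₀ + K1 d D) := by rw [pow_add, pow_add, pow_one]
        _ ≤ h ^ M1 d D := by
            apply pow_le_pow_right₀ hh1
            have h1 : K1 d D * N.k₀ ≤ K1 d D * D := Nat.mul_le_mul_left _ hkD
            unfold M1
            have h2 : 2 * K1 d D * D = K1 d D * D + K1 d D * D := by ring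
            omega
    · change (nrmHouse (ext E (β ^ q))).poly.l1 (zt _ _ _) ≤ h ^ M1 d D
      rw [← sb_zt A B 1 p q (N.V.map i) (i N.v) N.k₀, ← hZm,
        ← X_pow_mul_st A B 1 p q D d 0 Zm hZmK (fun k => zt_deg _ _ _ d hd k) (fun _ _ _ => by omega),
        pow_zero, one_mul]
      refine (hstM 0 Zm hZmK (fun k => zt_deg _ _ _ d hd k) hZml).trans ?_
      apply pow_le_pow_right₀ hh1
      unfold M1
      have h2 : 2 * K1 d D * D = K1 d D * D + K1 d D * D := by ring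
      omega
    · change (nrmHouse (ext E (β ^ q))).poly.l1 (C (C (A ^ N.μ)) * st₁) ≤ h ^ M1 d D
      refine ((nrmHouse _).poly.l1_mul_le _ _).trans ?_
      rw [l1_CC]
      calc (nrmHouse (ext E (β ^ q))).v (A ^ N.μ) * (nrmHouse (ext E (β ^ q))).poly.l1 st₁
          ≤ h ^ (K1 d D * N.μ) * h ^ (1 + K1 d D * D + (K1 d D + 1) * d) :=
            mul_le_mul (hapow _) (hstM n Ψm hΨmK hΨmd hΨml) ((nrmHouse _).poly.l1_nonneg _)
              (by positivity)
        _ = h ^ (K1 d D * N.μ + (1 + K1 d D * D + (K1 d D + 1) * d)) := by rw [← pow_add]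
        _ ≤ h ^ M1 d D := by
            apply pow_le_pow_right₀ hh1
            have h1 : K1 d D * N.μ ≤ K1 d D * D := Nat.mul_le_mul_left _ hμD
            unfold M1
            have h2 : 2 * K1 d D * D = K1 d D * D + K1 d D * D := by ring
            omega
    · rintro _ ⟨x, hx, l, hl, rfl⟩
      have hl' : l ≤ d := by
        have h3 : (minpoly E (β ^ q)).natDegree ≤ j * (minpoly E (β ^ q)).natDegree :=
          Nat.le_mul_of_pos_left _ hj1
        omega
      calc (nrmHouse (ext E (β ^ q))).v (i x * η ^ l)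
          ≤ h * (h ^ (d + 1)) ^ l := by
            refine ((nrmHouse _).mul_le _ _).trans (mul_le_mul ((hinc _).trans (hN.hS x hx)) ?_
              ((nrmHouse _).nonneg _) hh0.le)
            exact ((nrmHouse _).pow_le _ _).trans
              (pow_le_pow_left₀ ((nrmHouse _).nonneg _) hηh' _)
        _ = h ^ (1 + (d + 1) * l) := by rw [← pow_mul, pow_add, pow_one]
        _ ≤ h ^ M1 d D := by
            apply pow_le_pow_right₀ hh1
            have h1 : (d + 1) * l ≤ (d + 1) * d := Nat.mul_le_mul_left _ hl'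
            have h2 : (d + 1) * d = d * (d + 1) := by ring
            unfold M1
            omega

end Pool.Agent.H20.G
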