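import Pool.Agent.H20.N6

set_option autoImplicit false

namespace Pool.Agent.H20.G

open Polynomial Finset NumberField Module

/-- exponents -/
def M4 (d : ℕ) : ℕ := (d + 1) ^ 2 + (d + 2) * d
/-- exponents -/
def M0 (d D : ℕ) : ℕ := 2 * d * (M3 d D + M4 d + 1) + d + 2

lemma small_root (t₁ h : ℝ) (q d M M' : ℕ) (ht : 0 ≤ t₁) (hh : 2 ≤ h) (hqd : q ≤ d)
    (hM : M * d + 1 ≤ M') (h1 : h ^ M' * t₁ ^ q ≤ 1) : t₁ * h ^ M < 1 := by
  have hh0 : 0 < h := by linarith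
  have hh1 : 1 ≤ h := by linarith
  by_contra hcon
  push Not at hcon
  have h2 : 1 ≤ (t₁ * h ^ M) ^ q := one_le_pow₀ hcon
  have h3 : h * (t₁ * h ^ M) ^ q ≤ h ^ M' * t₁ ^ q := by
    calc h * (t₁ * h ^ M) ^ q = h ^ (1 + M * q) * t₁ ^ q := by
          rw [mul_pow, ← pow_mul, pow_add, pow_one]; ring
      _ ≤ h ^ M' * t₁ ^ q := by
          refine mul_le_mul_of_nonneg_right (pow_le_pow_right₀ hh1 ?_) (by positivity)
          have : M * q ≤ M * d := Nat.mul_le_mul_left _ hqd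
          omega
  nlinarith

lemma small_root2 (x t₁ h : ℝ) (q d M M' : ℕ) (hx : 0 ≤ x) (ht : 0 ≤ t₁) (hh : 2 ≤ h)
    (hqd : q ≤ d) (hM : 2 * M * d ≤ M') (h1 : h ^ M' * t₁ ^ q ≤ 1) (hxt : x ≤ t₁ * h ^ M) :
    x ^ (2 * q) ≤ t₁ ^ q := by
  have hh0 : 0 < h := by linarith
  have hh1 : 1 ≤ h := by linarith
  calc x ^ (2 * q) ≤ (t₁ * h ^ M) ^ (2 * q) := pow_le_pow_left₀ hx hxt _
    _ = t₁ ^ q * (h ^ (2 * M * q) * t₁ ^ q) := by
        rw [mul_pow, ← pow_mul]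
        have e1 : t₁ ^ (2 * q) = t₁ ^ q * t₁ ^ q := by rw [← pow_add]; congr 1; ring
        have e2 : M * (2 * q) = 2 * M * q := by ring
        rw [e1, e2]; ring
    _ ≤ t₁ ^ q * (h ^ M' * t₁ ^ q) := by
        refine mul_le_mul_of_nonneg_left ?_ (by positivity)
        refine mul_le_mul_of_nonneg_right (pow_le_pow_right₀ hh1 ?_) (by positivity)
        have : 2 * M * q ≤ 2 * M * d := Nat.mul_le_mul_left _ hqd
        omega
    _ ≤ t₁ ^ q * 1 := mul_le_mul_of_nonneg_left h1 (by positivity)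
    _ = t₁ ^ q := mul_one _

/-- One step of the Newton–Puiseux algorithm. -/
theorem Node.step {d : ℕ} {c : ℕ → ℕ → ℤ} {a b : ℤ} (hd : 1 ≤ d) (N : Node d c a b)
    (nf : NumberField N.E) (hr : 2 ≤ N.r) (D : ℕ) (hD : 1 ≤ D) (h : ℝ) (hh : 2 ≤ h)
    (hN : N.Ht D h) (hζ0 : N.ζ ≠ 0) (hsm : h ^ (M0 d D) * ‖N.s‖ ≤ 1)
    (hζm : h ^ (M0 d D) * ‖N.ζ‖ ≤ 1) :
    ∃ (N' : Node d c a b) (nf' : NumberField N'.E), N.k₀ < N'.k₀ ∧
      ‖N'.s‖ ^ (2 * d ^ 2) ≤ ‖N.s‖ ∧ ‖N'.ζ‖ ^ (2 * d ^ 2) ≤ ‖N.s‖ ∧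
      N'.Ht (2 * d * D) (h ^ (M1 d D)) := by
  classical
  have hh1 : 1 ≤ h := by linarith
  have hh0 : 0 < h := by linarith
  have hfin : finrank ℚ N.E ≤ d := by
    have h1 := N.hdeg
    calc finrank ℚ N.E = finrank ℚ N.E * 1 * 1 := by ring
      _ ≤ finrank ℚ N.E * N.m * N.r := Nat.mul_le_mul (Nat.mul_le_mul_left _ N.m_pos) N.r_pos
      _ ≤ d := h1
  have hrd : N.r ≤ d := by
    have h1 := N.hdeg
    have h2 : 1 ≤ finrank ℚ N.E * N.m := Nat.mul_pos finrank_pos N.m_pos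
    calc N.r = 1 * N.r := (one_mul _).symm
      _ ≤ finrank ℚ N.E * N.m * N.r := Nat.mul_le_mul_right _ h2
      _ ≤ d := h1
  let ψ : ℕ → ℕ → ℂ := fun k l => emb N.E ((N.Ψ.coeff k).coeff l)
  have hψ0 : ∀ k l, ψ k l ≠ 0 → (N.Ψ.coeff k).coeff l ≠ 0 := by
    intro k l h0 h1
    apply h0
    simp only [ψ]
    rw [h1, map_zero]
  have hup : ∑ k ∈ range (D + 1), ∑ l ∈ range (d + 1), ‖ψ k l‖ ≤ h := by
    refine le_trans ?_ hN.hΨ
    rw [l1_expand2 (nrmHouse N.E) N.Ψ D d hN.dΨ N.deg]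
    exact Finset.sum_le_sum (fun k _ => Finset.sum_le_sum (fun l _ => norm_emb_le _ _))
  have hlowc : ∀ x : 𝓞 N.E, x ≠ 0 → (nrmHouse N.E).v x ≤ h → 1 ≤ ‖emb N.E x‖ * h ^ d :=
    fun x hx hxh => one_le_emb N.E d hfin h hh1 x hx hxh
  have hlow : ∀ k l, ψ k l ≠ 0 → 1 ≤ ‖ψ k l‖ * h ^ d := fun k l h0 =>
    hlowc _ (hψ0 k l h0) ((coeff2_le _ _ _ _).trans hN.hΨ)
  have h0 : ∑ k ∈ range (D + 1), ∑ l ∈ range (d + 1), ψ k l * N.s ^ k * N.ζ ^ l = 0 := by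
    have h1 := N.zero
    rw [ev_expand2 (emb N.E) N.s N.ζ N.Ψ D d hN.dΨ N.deg] at h1
    exact h1
  have hsmall : ∀ x : ℝ, 0 ≤ x → h ^ (M0 d D) * x ≤ 1 → h ^ (d + 1) * x < 1 := by
    intro x hx h1
    have h2 : h * (h ^ (d + 1) * x) ≤ h ^ (M0 d D) * x := by
      rw [← mul_assoc, ← pow_succ']
      refine mul_le_mul_of_nonneg_right (pow_le_pow_right₀ hh1 ?_) hx
      unfold M0
      omega
    have h3 : 0 ≤ h ^ (d + 1) * x := by positivity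
    nlinarith
  obtain ⟨p, q, hp, hpD, hq, hqd, hcop, hA, hB⟩ := exists_slope D d ψ N.s N.ζ h d hh1 hup hlow h0
    ⟨0, N.r, Nat.zero_le _, hrd, emb_ne_zero _ N.ne⟩ N.s_ne hζ0
    (hsmall _ (norm_nonneg _) hsm) (hsmall _ (norm_nonneg _) hζm)
  obtain ⟨s₁, hs₁⟩ := IsAlgClosed.exists_pow_nat_eq N.s (by omega : 0 < q)
  have hs₁0 : s₁ ≠ 0 := by
    rintro rfl
    rw [zero_pow (by omega)] at hs₁
    exact N.s_ne hs₁.symm
  have hH : 1 ≤ h ^ (d + 1) := one_le_pow₀ hh1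
  obtain ⟨hβ₀u, hβ₀l⟩ := beta_bounds s₁ N.ζ p q hq hs₁0 (h ^ (d + 1)) hH
    (by rw [hs₁]; exact hA) (by rw [hs₁]; exact hB)
  set β₀ := N.ζ / s₁ ^ p with hβ₀
  -- the minimal weight
  have hex : ∃ n, ∃ k l, (N.Ψ.coeff k).coeff l ≠ 0 ∧ q * k + p * l = n := ⟨_, 0, N.r, N.ne, rfl⟩
  set n := Nat.find hex with hn
  have hnn := Nat.find_spec hex
  have hnmin : ∀ k l, (N.Ψ.coeff k).coeff l ≠ 0 → n ≤ q * k + p * l := fun k l h1 =>
    Nat.find_min' hex ⟨k, l, h1, rfl⟩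
  rw [← hn] at hnn
  have ht₁q : ‖s₁‖ ^ q = ‖N.s‖ := by rw [← norm_pow, hs₁]
  have hsm' : h ^ (M0 d D) * ‖s₁‖ ^ q ≤ 1 := by rw [ht₁q]; exact hsm
  have hS1 : ∀ M, M * d + 1 ≤ M0 d D → ‖s₁‖ * h ^ M < 1 := fun M hM =>
    small_root ‖s₁‖ h q d M (M0 d D) (norm_nonneg _) hh hqd hM hsm'
  have hs₁1 : ‖s₁‖ ≤ 1 := by
    have := hS1 0 (by unfold M0; omega)
    rw [pow_zero, mul_one] at this
    exact this.le
  have hζeq : N.ζ = s₁ ^ p * β₀ := by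
    rw [hβ₀]
    field_simp
  have hline := line_small D d n p q ψ s₁ β₀ h (h ^ (d + 1)) hH hup
    (by rw [hs₁, ← hζeq]; exact h0) (fun k l h1 => hnmin k l (hψ0 k l h1)) hs₁0 hs₁1 hβ₀u
  set g := (lineP p q D d n N.Ψ).map (emb N.E) with hg
  have hgev : g.eval β₀ = ∑ k ∈ range (D + 1), ∑ l ∈ range (d + 1),
      if q * k + p * l = n then ψ k l * β₀ ^ l else 0 := by
    rw [hg]
    unfold lineP
    rw [Polynomial.map_sum, eval_finsetSum]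
    refine Finset.sum_congr rfl (fun k _ => ?_)
    rw [Polynomial.map_sum, eval_finsetSum]
    refine Finset.sum_congr rfl (fun l _ => ?_)
    split_ifs
    · rw [Polynomial.map_mul, Polynomial.map_pow, map_X, Polynomial.map_C, eval_mul, eval_pow,
        eval_X, eval_C]
    · simp
  rw [← hgev] at hline
  have hG0 : lineP p q D d n N.Ψ ≠ 0 := by
    intro h1
    obtain ⟨k, l, hkl, hkl'⟩ := hnn
    apply hkl
    rw [← lineP_coeff p q D d n N.Ψ hN.dΨ hq N.deg k l hkl', h1, coeff_zero]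
  have hg0 : g ≠ 0 := (Polynomial.map_ne_zero_iff (emb_injective _)).mpr hG0
  have hGd : ∀ l, (lineP p q D d n N.Ψ).coeff l ≠ 0 → l ≤ d ∧
      (nrmHouse N.E).v ((lineP p q D d n N.Ψ).coeff l) ≤ h := by
    intro l hl
    obtain ⟨k, hk, hkl⟩ := lineP_coeff_ne p q D d n N.Ψ hN.dΨ hq N.deg l hl
    refine ⟨?_, ?_⟩
    · by_contra h1
      push Not at h1
      exact hkl (coeff_eq_zero_of_natDegree_lt (lt_of_le_of_lt (N.deg k) h1))
    · rw [lineP_coeff p q D d n N.Ψ hN.dΨ hq N.deg k l hk]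
      exact (coeff2_le _ _ _ _).trans hN.hΨ
  have hgd : g.natDegree ≤ d := by
    rw [hg, natDegree_map_eq_of_injective (emb_injective _)]
    exact (hGd _ (leadingCoeff_ne_zero.mpr hG0)).1
  have hglc : 1 ≤ ‖g.leadingCoeff‖ * h ^ d := by
    rw [hg, leadingCoeff_map_of_injective (emb_injective _)]
    exact hlowc _ (leadingCoeff_ne_zero.mpr hG0) (hGd _ (leadingCoeff_ne_zero.mpr hG0)).2
  have hε : h ^ d * ‖g.eval β₀‖ ≤ ‖s₁‖ * h ^ ((d + 1) ^ 2) := by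
    calc h ^ d * ‖g.eval β₀‖ ≤ h ^ d * (‖s₁‖ * (h * (h ^ (d + 1)) ^ d)) :=
          mul_le_mul_of_nonneg_left hline (by positivity)
      _ = ‖s₁‖ * h ^ ((d + 1) ^ 2) := by
          have : (d + 1) ^ 2 = d + (1 + (d + 1) * d) := by ring
          rw [← pow_mul, this, pow_add h d, pow_add h 1, pow_one]
          ring
  obtain ⟨β, hβroot, hβnear⟩ := exists_root_near g hg0 d hgd β₀ h d hglc hh0.le
    (lt_of_le_of_lt hε (hS1 _ (by
      unfold M0 M4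
      have h1 : (d + 1) ^ 2 * d = d * (d + 1) ^ 2 := by ring
      have h2 : 2 * d * (M3 d D + ((d + 1) ^ 2 + (d + 2) * d) + 1)
        = 2 * d * M3 d D + 2 * (d * (d + 1) ^ 2) + 2 * d * ((d + 2) * d) + 2 * d := by ring
      omega)))
  have hβnear' : ‖β₀ - β‖ ^ d ≤ ‖s₁‖ * h ^ ((d + 1) ^ 2) := hβnear.trans hε
  have hd0 : d ≠ 0 := by omega
  -- closeness
  have hclose : ‖β₀ - β‖ * (2 * h ^ (d + 1)) ≤ 1 := by
    by_contra hcon
    push Not at hcon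
    have h1 : 1 < (‖β₀ - β‖ * (2 * h ^ (d + 1))) ^ d := one_lt_pow₀ hcon hd0
    have h2 : (‖β₀ - β‖ * (2 * h ^ (d + 1))) ^ d ≤ ‖s₁‖ * h ^ (M4 d) := by
      calc (‖β₀ - β‖ * (2 * h ^ (d + 1))) ^ d
          ≤ (‖β₀ - β‖ * (h * h ^ (d + 1))) ^ d := by
            refine pow_le_pow_left₀ (by positivity) ?_ _
            refine mul_le_mul_of_nonneg_left ?_ (norm_nonneg _)
            exact mul_le_mul_of_nonneg_right hh (by positivity)
        _ = ‖β₀ - β‖ ^ d * h ^ ((d + 2) * d) := by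
            rw [mul_pow, ← pow_succ', ← pow_mul]
        _ ≤ (‖s₁‖ * h ^ ((d + 1) ^ 2)) * h ^ ((d + 2) * d) :=
            mul_le_mul_of_nonneg_right hβnear' (by positivity)
        _ = ‖s₁‖ * h ^ (M4 d) := by unfold M4; rw [pow_add]; ring
    have h3 := hS1 (M4 d) (by
      unfold M0
      have h2 : 2 * d * (M3 d D + M4 d + 1) = 2 * d * M3 d D + 2 * (M4 d * d) + 2 * d := by ring
      omega)
    linarith
  have hβl : 1 ≤ h ^ (d + 2) * ‖β‖ := by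
    have h1 : ‖β₀‖ ≤ ‖β‖ + ‖β₀ - β‖ := by
      calc ‖β₀‖ = ‖β + (β₀ - β)‖ := by ring_nf
        _ ≤ _ := norm_add_le _ _
    have h2 : 1 ≤ h ^ (d + 1) * ‖β‖ + h ^ (d + 1) * ‖β₀ - β‖ := by
      rw [← mul_add]
      exact hβ₀l.trans (mul_le_mul_of_nonneg_left h1 (by positivity))
    have h3 : h ^ (d + 2) * ‖β‖ = h * (h ^ (d + 1) * ‖β‖) := by rw [pow_succ' h (d + 1)]; ring
    rw [h3]
    have h4 : 0 ≤ h ^ (d + 1) * ‖β‖ := by positivity
    nlinarith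
  have hβ0 : β ≠ 0 := by
    rintro rfl
    rw [norm_zero, mul_zero] at hβl
    linarith
  have hβpos : 0 < ‖β‖ := norm_pos_iff.mpr hβ0
  have hβroot' : eval₂ (emb N.E) β (lineP p q D d n N.Ψ) = 0 := by
    rw [hg, eval_map] at hβroot
    exact hβroot
  obtain ⟨N', nf', hk, hζ', hs', hht⟩ := N.raw_step hd nf hr D hD h hh hN p q n hp hpD hq hqd hcop
    hnmin hnn s₁ β (β₀ / β - 1) hs₁ hβ0 hβroot' (by
      rw [hζeq]
      field_simp
      ring) hβl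
  refine ⟨N', nf', hk, ?_, ?_, hht⟩
  · have h1 := small_root2 ‖N'.s‖ ‖s₁‖ h q d (M3 d D) (M0 d D) (norm_nonneg _) (norm_nonneg _) hh
      hqd (by
        unfold M0
        have h2 : 2 * d * (M3 d D + M4 d + 1)
          = 2 * M3 d D * d + 2 * d * M4 d + 2 * d := by ring
        omega) hsm' hs'
    rw [ht₁q] at h1
    have h2 : ‖N'.s‖ ≤ 1 := hs'.trans (hS1 (M3 d D) (by
      unfold M0
      have h2 : 2 * d * (M3 d D + M4 d + 1) = 2 * (M3 d D * d) + 2 * d * M4 d + 2 * d := by ring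
      omega)).le
    refine le_trans ?_ h1
    apply pow_le_pow_of_le_one (norm_nonneg _) h2
    have : d ≤ d ^ 2 := Nat.le_self_pow (by norm_num) d
    omega
  · rw [hζ']
    have hz1 : ‖β₀ / β - 1‖ ^ d ≤ ‖s₁‖ * h ^ (M4 d) := by
      have h1 : β₀ / β - 1 = (β₀ - β) / β := by field_simp
      rw [h1, norm_div]
      have h2 : ‖β₀ - β‖ / ‖β‖ ≤ ‖β₀ - β‖ * h ^ (d + 2) := by
        rw [div_le_iff₀ hβpos]
        calc ‖β₀ - β‖ = ‖β₀ - β‖ * 1 := (mul_one _).symm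
          _ ≤ ‖β₀ - β‖ * (h ^ (d + 2) * ‖β‖) := mul_le_mul_of_nonneg_left hβl (norm_nonneg _)
          _ = _ := by ring
      calc (‖β₀ - β‖ / ‖β‖) ^ d ≤ (‖β₀ - β‖ * h ^ (d + 2)) ^ d :=
            pow_le_pow_left₀ (by positivity) h2 _
        _ = ‖β₀ - β‖ ^ d * h ^ ((d + 2) * d) := by rw [mul_pow, ← pow_mul]
        _ ≤ (‖s₁‖ * h ^ ((d + 1) ^ 2)) * h ^ ((d + 2) * d) :=
            mul_le_mul_of_nonneg_right hβnear' (by positivity)
        _ = ‖s₁‖ * h ^ (M4 d) := by unfold M4; rw [pow_add]; ring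
    have h1 := small_root2 (‖β₀ / β - 1‖ ^ d) ‖s₁‖ h q d (M4 d) (M0 d D) (by positivity)
      (norm_nonneg _) hh hqd (by
        unfold M0
        have h2 : 2 * d * (M3 d D + M4 d + 1)
          = 2 * d * M3 d D + 2 * M4 d * d + 2 * d := by ring
        omega) hsm' hz1
    rw [ht₁q, ← pow_mul] at h1
    have h2 : ‖β₀ / β - 1‖ ≤ 1 := by
      by_contra hcon
      push Not at hcon
      have h3 : 1 < ‖β₀ / β - 1‖ ^ d := one_lt_pow₀ hcon hd0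
      have h4 := hS1 (M4 d) (by
        unfold M0
        have h2 : 2 * d * (M3 d D + M4 d + 1) = 2 * d * M3 d D + 2 * (M4 d * d) + 2 * d := by ring
        omega)
      linarith
    refine le_trans ?_ h1
    apply pow_le_pow_of_le_one (norm_nonneg _) h2
    calc d * (2 * q) ≤ d * (2 * d) := Nat.mul_le_mul_left _ (by omega)
      _ = 2 * d ^ 2 := by ring

end Pool.Agent.H20.G
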