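import Pool.Agent.H20.N7

set_option autoImplicit false

namespace Pool.Agent.H20.G

open Polynomial Finset NumberField Module

/-- the homogenised equation as a polynomial in `z` over `ℤ[t]` -/
noncomputable def FF (d : ℕ) (c : ℕ → ℕ → ℤ) : ℤ[X][X] :=
  F0 d c (C X) X

/-- evaluation of polynomials of `ℤ[t][z]` -/
noncomputable def eps {A : Type*} [CommRing A] (T Z : A) : ℤ[X][X] →+* A :=
  eval₂RingHom (eval₂RingHom (Int.castRingHom A) T) Z

section

variable {A : Type*} [CommRing A] (T Z : A)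

lemma eps_C (g : ℤ[X]) : eps T Z (C g) = eval₂ (Int.castRingHom A) T g := by
  unfold eps
  rw [coe_eval₂RingHom, eval₂_C]
  rfl

lemma eps_X : eps T Z X = Z := by
  unfold eps
  rw [coe_eval₂RingHom, eval₂_X]

lemma eps_FF (d : ℕ) (c : ℕ → ℕ → ℤ) : eps T Z (FF d c) = F0 d c T Z := by
  unfold FF
  rw [map_F0, eps_C, eps_X, eval₂_X]

end

lemma FF_eq (d : ℕ) (c : ℕ → ℕ → ℤ) : FF d c = ∑ j ∈ range (d + 1),
    monomial j (∑ i ∈ range (d + 1 - j), monomial (d - i - j) (c i j)) := by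
  unfold FF F0
  refine Finset.sum_congr rfl (fun j _ => ?_)
  rw [← C_mul_X_pow_eq_monomial, map_sum, Finset.sum_mul]
  refine Finset.sum_congr rfl (fun i _ => ?_)
  rw [← C_mul_X_pow_eq_monomial, C_mul, C_pow]
  congr 2

lemma FF_coeff (d : ℕ) (c : ℕ → ℕ → ℤ) (j : ℕ) : (FF d c).coeff j =
    if j < d + 1 then ∑ i ∈ range (d + 1 - j), monomial (d - i - j) (c i j) else 0 := by
  rw [FF_eq, finsetSum_coeff]
  simp only [coeff_monomial]
  rw [Finset.sum_ite_eq']
  simp only [Finset.mem_range]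

lemma FF_natDegree_le (d : ℕ) (c : ℕ → ℕ → ℤ) : (FF d c).natDegree ≤ d := by
  rw [natDegree_le_iff_coeff_eq_zero]
  intro j hj
  rw [FF_coeff, if_neg (by omega)]

lemma FF_coeff_top (d : ℕ) (c : ℕ → ℕ → ℤ) (h : c 0 d = 1) : (FF d c).coeff d = 1 := by
  rw [FF_coeff, if_pos (by omega)]
  have : d + 1 - d = 1 := by omega
  rw [this, Finset.sum_range_one, h]
  simp

lemma FF_monic (d : ℕ) (c : ℕ → ℕ → ℤ) (h : c 0 d = 1) : (FF d c).Monic :=
  monic_of_natDegree_le_of_coeff_eq_one d (FF_natDegree_le d c) (FF_coeff_top d c h)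

lemma FF_natDegree (d : ℕ) (c : ℕ → ℕ → ℤ) (h : c 0 d = 1) : (FF d c).natDegree = d := by
  refine le_antisymm (FF_natDegree_le d c) (le_natDegree_of_ne_zero ?_)
  rw [FF_coeff_top d c h]
  exact one_ne_zero

lemma FF_coeff_deg (d : ℕ) (c : ℕ → ℕ → ℤ) (j : ℕ) : ((FF d c).coeff j).natDegree ≤ d := by
  rw [FF_coeff]
  split_ifs
  · refine natDegree_sum_le_of_forall_le _ _ (fun i _ => ?_)
    exact (natDegree_monomial_le _).trans (by omega)
  · simp

/-- The homogenised equation is separable. -/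
lemma FF_coprime (K : Type) [Field K] [Algebra ℤ[X] K] [IsFractionRing ℤ[X] K]
    (d : ℕ) (c : ℕ → ℕ → ℤ) (h : c 0 d = 1)
    (hirr : Irreducible (fP d c)) (x : K)
    (hx : algebraMap ℤ[X] K X = x) :
    IsCoprime ((FF d c).map (eval₂RingHom (Int.castRingHom K) x⁻¹))
      (derivative ((FF d c).map (eval₂RingHom (Int.castRingHom K) x⁻¹))) := by
  have hinj : Function.Injective (algebraMap ℤ[X] K) := IsFractionRing.injective ℤ[X] K
  have hx0 : x ≠ 0 := by
    intro h0
    rw [← hx] at h0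
    exact X_ne_zero (hinj (by rw [h0, map_zero]))
  have hchar : CharZero K := charZero_of_injective_algebraMap hinj
  have hmon := fP_monic d c h
  have hirr' : Irreducible ((fP d c).map (algebraMap ℤ[X] K)) :=
    (Monic.irreducible_iff_irreducible_map_fraction_map hmon).mp hirr
  have hsep : ((fP d c).map (algebraMap ℤ[X] K)).Separable := hirr'.separable
  obtain ⟨u, v, huv⟩ := hsep
  set f := (fP d c).map (algebraMap ℤ[X] K) with hf
  set Fh := (FF d c).map (eval₂RingHom (Int.castRingHom K) x⁻¹) with hFh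
  -- key identity
  have key : f.comp (C x * X) = C (x ^ d) * Fh := by
    have h1 : Fh = F0 d c (C x⁻¹) X := by
      rw [hFh]
      have h2 : (FF d c).map (eval₂RingHom (Int.castRingHom K) x⁻¹)
          = (mapRingHom (eval₂RingHom (Int.castRingHom K) x⁻¹)) (FF d c) := rfl
      rw [h2]
      unfold FF
      rw [map_F0]
      congr 1
      · simp
      · simp
    rw [h1, hf]
    unfold fP F0
    rw [Polynomial.map_sum, Polynomial.sum_comp, Finset.mul_sum]
    refine Finset.sum_congr rfl (fun j hj => ?_)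
    rw [map_monomial, ← C_mul_X_pow_eq_monomial, mul_comp, C_comp, pow_comp, X_comp, map_sum,
      map_sum, Finset.sum_mul, Finset.mul_sum]
    refine Finset.sum_congr rfl (fun i hi => ?_)
    have hj' := Finset.mem_range.mp hj
    have hi' := Finset.mem_range.mp hi
    have h3 : algebraMap ℤ[X] K (monomial i (c i j)) = (c i j : K) * x ^ i := by
      rw [← C_mul_X_pow_eq_monomial, map_mul, map_pow, hx]
      congr 1
      have : (C (c i j) : ℤ[X]) = ((c i j : ℤ) : ℤ[X]) := by simp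
      rw [this, map_intCast]
    rw [h3]
    have h4 : x ^ d = x ^ i * x ^ j * x ^ (d - i - j) := by
      rw [← pow_add, ← pow_add]; congr 1; omega
    have h5 : (C (x ^ d) : K[X]) * (((c i j : ℤ) : K[X]) * (C x⁻¹) ^ (d - i - j) * X ^ j)
        = C (((c i j : ℤ) : K) * (x ^ i * x ^ j)) * X ^ j := by
      have h6 : ((c i j : ℤ) : K[X]) = C ((c i j : ℤ) : K) :=
        (map_intCast (C : K →+* K[X]) (c i j)).symm
      rw [h6, ← C_pow, ← C_mul, ← mul_assoc, ← C_mul]
      congr 2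
      rw [h4, inv_pow]
      have : x ^ (d - i - j) ≠ 0 := pow_ne_zero _ hx0
      field_simp
    rw [h5, mul_pow, ← C_pow, ← mul_assoc, ← C_mul]
    congr 2
    ring
  have key2 : C x * (derivative f).comp (C x * X) = C (x ^ d) * derivative Fh := by
    have h1 := congrArg derivative key
    rw [derivative_comp, derivative_mul, derivative_C, derivative_mul, derivative_C, derivative_X,
      zero_mul, zero_mul, zero_add, zero_add, mul_one] at h1
    exact h1
  have h1 := congrArg (fun g : K[X] => g.comp (C x * X)) huv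
  simp only [add_comp, mul_comp, one_comp] at h1
  have hxd : C x⁻¹ * C x = (1 : K[X]) := by
    rw [← C_mul, inv_mul_cancel₀ hx0, C_1]
  refine ⟨u.comp (C x * X) * C (x ^ d), v.comp (C x * X) * (C x⁻¹ * C (x ^ d)), ?_⟩
  calc u.comp (C x * X) * C (x ^ d) * Fh + v.comp (C x * X) * (C x⁻¹ * C (x ^ d)) * derivative Fh
      = u.comp (C x * X) * (C (x ^ d) * Fh)
        + v.comp (C x * X) * C x⁻¹ * (C (x ^ d) * derivative Fh) := by ring
    _ = u.comp (C x * X) * f.comp (C x * X)
        + v.comp (C x * X) * (C x⁻¹ * C x) * (derivative f).comp (C x * X) := by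
        rw [← key, ← key2]; ring
    _ = 1 := by rw [hxd, mul_one]; exact h1

lemma natDegree_det_le {n : ℕ} (M : Matrix (Fin n) (Fin n) ℤ[X]) (K : ℕ)
    (hM : ∀ i j, (M i j).natDegree ≤ K) : M.det.natDegree ≤ n * K := by
  rw [Matrix.det_apply]
  refine natDegree_sum_le_of_forall_le _ _ (fun σ _ => ?_)
  refine (natDegree_smul_le _ _).trans ?_
  refine (natDegree_prod_le _ _).trans ?_
  calc ∑ i, (M (σ i) i).natDegree ≤ ∑ _i : Fin n, K := Finset.sum_le_sum (fun i _ => hM _ _)
    _ = n * K := by rw [Finset.sum_const, Finset.card_univ, Fintype.card_fin, smul_eq_mul]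

/-- A Bezout identity for the homogenised equation. -/
lemma exists_res (d : ℕ) (c : ℕ → ℕ → ℤ) (hd : 1 ≤ d) (h : c 0 d = 1)
    (hirr : Irreducible (fP d c)) :
    ∃ (ρ : ℤ[X]) (p q : ℤ[X][X]), ρ ≠ 0 ∧ ρ.natDegree ≤ 2 * d ^ 2 ∧
      FF d c * p + derivative (FF d c) * q = C ρ := by
  have hdeg := FF_natDegree d c h
  have hd'deg : (derivative (FF d c)).natDegree = d - 1 := by
    rw [natDegree_derivative, hdeg]
  obtain ⟨p, q, -, -, e⟩ := exists_mul_add_mul_eq_C_resultant (FF d c) (derivative (FF d c))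
    (m := (FF d c).natDegree) (n := (derivative (FF d c)).natDegree) le_rfl le_rfl
    (Or.inl (by omega))
  refine ⟨_, p, q, ?_, ?_, e⟩
  · have hinj : Function.Injective (algebraMap ℤ[X] (FractionRing ℤ[X])) :=
      IsFractionRing.injective ℤ[X] (FractionRing ℤ[X])
    have hchar : CharZero (FractionRing ℤ[X]) := charZero_of_injective_algebraMap hinj
    have hco := FF_coprime (FractionRing ℤ[X]) d c h hirr _ rfl
    set θ := eval₂RingHom (Int.castRingHom (FractionRing ℤ[X]))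
      (algebraMap ℤ[X] (FractionRing ℤ[X]) X)⁻¹ with hθ
    have hF1 : ((FF d c).map θ).natDegree = (FF d c).natDegree :=
      (FF_monic d c h).natDegree_map θ
    have hF2 : (derivative ((FF d c).map θ)).natDegree = (derivative (FF d c)).natDegree := by
      rw [natDegree_derivative, hF1, hd'deg, hdeg]
    have h1 := resultant_ne_zero _ _ hco
    rw [hF1, hF2, derivative_map, resultant_map_map] at h1
    intro h0
    rw [h0, map_zero] at h1
    exact h1 rfl
  · unfold resultant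
    refine (natDegree_det_le _ d (fun i j => ?_)).trans ?_
    · have hc1 : ∀ k, ((FF d c).coeff k).natDegree ≤ d := FF_coeff_deg d c
      have hc2 : ∀ k, ((derivative (FF d c)).coeff k).natDegree ≤ d := by
        intro k
        rw [coeff_derivative]
        have : ((k : ℤ[X]) + 1) = C ((k : ℤ) + 1) := by simp
        rw [this]
        exact (natDegree_mul_C_le _ _).trans (hc1 _)
      unfold sylvester
      rw [Matrix.of_apply]
      refine Fin.addCases (fun j₁ => ?_) (fun j₁ => ?_) j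
      · rw [Fin.addCases_left]
        split_ifs
        · exact hc2 _
        · simp
      · rw [Fin.addCases_right]
        split_ifs
        · exact hc1 _
        · simp
    · rw [hdeg, hd'deg]
      calc (d + (d - 1)) * d ≤ (2 * d) * d := Nat.mul_le_mul_right _ (by omega)
        _ = 2 * d ^ 2 := by ring

section

variable {R : Type*} [CommRing R]

/-- partial derivative with respect to the inner variable -/
noncomputable def dZ : Derivation ℤ R[X][X] R[X][X] :=
  letI : Differential R[X] := ⟨(Polynomial.derivative' : Derivation R R[X] R[X]).restrictScalars ℤ⟩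
  Differential.mapCoeffs

lemma coeff_dZ (p : R[X][X]) (i : ℕ) : (dZ p).coeff i = derivative (p.coeff i) := by
  let _ : Differential R[X] :=
    ⟨(Polynomial.derivative' : Derivation R R[X] R[X]).restrictScalars ℤ⟩
  exact Differential.coeff_mapCoeffs p i

lemma dZ_X_pow (n : ℕ) : dZ (X ^ n : R[X][X]) = 0 := by
  ext1 i
  rw [coeff_dZ, coeff_X_pow]
  split_ifs <;> simp

lemma dZ_T (w : R) (m : ℕ) : dZ (C (C w) * X ^ m : R[X][X]) = 0 := by
  ext1 i
  rw [coeff_dZ, coeff_C_mul_X_pow]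
  split_ifs <;> simp

lemma dZ_zt (V : R[X]) (v : R) (k₀ : ℕ) : dZ (zt V v k₀) = C (C v) * X ^ k₀ := by
  ext1 i
  unfold zt
  rw [coeff_dZ, coeff_add, coeff_map, coeff_monomial, coeff_C_mul_X_pow]
  by_cases h : k₀ = i
  · rw [if_pos h, if_pos h.symm]
    simp
  · rw [if_neg h, if_neg (fun h' => h h'.symm)]
    simp

lemma dZ_eval (T : R[X][X]) (hT : dZ T = 0) (g : ℤ[X]) :
    dZ (eval₂ (Int.castRingHom R[X][X]) T g) = 0 := by
  induction g using Polynomial.induction_on' with
  | add p q hp hq => rw [eval₂_add, map_add, hp, hq, add_zero]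
  | monomial n a =>
    rw [eval₂_monomial, Derivation.leibniz, Derivation.leibniz_pow, hT]
    simp

lemma dZ_eps (T Z : R[X][X]) (hT : dZ T = 0) (g : ℤ[X][X]) :
    dZ (eps T Z g) = eps T Z (derivative g) * dZ Z := by
  induction g using Polynomial.induction_on' with
  | add p q hp hq => simp only [map_add, hp, hq, add_mul]
  | monomial n a =>
    rw [← C_mul_X_pow_eq_monomial, map_mul, map_pow, eps_C, eps_X, Derivation.leibniz,
      Derivation.leibniz_pow, dZ_eval T hT, derivative_C_mul_X_pow, map_mul, map_pow, eps_C, eps_X,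
      eval₂_mul]
    simp only [smul_eq_mul, nsmul_eq_mul, mul_zero, add_zero, eval₂_natCast]
    ring

/-- The key divisibility. -/
lemma key_dvd (d : ℕ) (c : ℕ → ℕ → ℤ) (ρ : ℤ[X]) (p q : ℤ[X][X])
    (hpq : FF d c * p + derivative (FF d c) * q = C ρ) (m : ℕ) (w : R) (V : R[X]) (v : R)
    (k₀ μ : ℕ) (Ψ : R[X][X])
    (hrel : X ^ μ * Ψ = F0 d c (C (C w) * X ^ m) (zt V v k₀)) :
    ∃ a₁ a₂ : R[X][X], C (C v) * X ^ k₀ *
      eval₂ (Int.castRingHom R[X][X]) (C (C w) * X ^ m) ρ = X ^ μ * (a₁ * Ψ + a₂ * dZ Ψ) := by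
  set T : R[X][X] := C (C w) * X ^ m with hT
  set Z := zt V v k₀ with hZ
  have h1 := congrArg (eps T Z) hpq
  rw [map_add, map_mul, map_mul, eps_C, eps_FF, ← hrel] at h1
  have h2 := dZ_eps T Z (dZ_T w m) (FF d c)
  rw [eps_FF, ← hrel, dZ_zt, Derivation.leibniz, dZ_X_pow, smul_zero, add_zero, smul_eq_mul] at h2
  refine ⟨C (C v) * X ^ k₀ * eps T Z p, eps T Z q, ?_⟩
  rw [← h1]
  linear_combination (-eps T Z q) * h2

lemma tau_coeff (w : R) (m : ℕ) (hm : 1 ≤ m) (ρ : ℤ[X]) (i : ℕ) :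
    (eval₂ (Int.castRingHom R[X][X]) (C (C w) * X ^ m) ρ).coeff (m * i)
      = C ((ρ.coeff i : R) * w ^ i) := by
  rw [eval₂_eq_sum_range, finsetSum_coeff]
  have h1 : ∀ j ∈ range (ρ.natDegree + 1),
      ((Int.castRingHom R[X][X]) (ρ.coeff j) * (C (C w) * X ^ m) ^ j).coeff (m * i)
      = if j = i then C ((ρ.coeff j : R) * w ^ j) else 0 := by
    intro j _
    rw [CC_pow]
    have h2 : (Int.castRingHom R[X][X]) (ρ.coeff j) * (C (C (w ^ j)) * X ^ (m * j))
        = C (C ((ρ.coeff j : R) * w ^ j)) * X ^ (m * j) := by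
      rw [C_mul, C_mul]
      simp
      ring
    rw [h2, coeff_C_mul_X_pow]
    by_cases h3 : j = i
    · rw [if_pos h3, if_pos (by rw [h3])]
    · rw [if_neg h3, if_neg]
      intro h4
      exact h3 (Nat.eq_of_mul_eq_mul_left (by omega) h4).symm
  rw [Finset.sum_congr rfl h1, Finset.sum_ite_eq']
  split_ifs with h2
  · rfl
  · rw [coeff_eq_zero_of_natDegree_lt (p := ρ)]
    · simp
    · have := mt Finset.mem_range.mpr h2
      omega

lemma tau_ne_zero [IsDomain R] [CharZero R] (w : R) (hw : w ≠ 0) (m : ℕ) (hm : 1 ≤ m) (ρ : ℤ[X])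
    (hρ : ρ ≠ 0) : eval₂ (Int.castRingHom R[X][X]) (C (C w) * X ^ m) ρ ≠ 0 := by
  intro h0
  have h1 := tau_coeff w m hm ρ ρ.natDegree
  rw [h0, coeff_zero] at h1
  have h2 := C_eq_zero.mp h1.symm
  rcases mul_eq_zero.mp h2 with h3 | h3
  · have h4 : ρ.coeff ρ.natDegree = 0 := by exact_mod_cast h3
    exact hρ (leadingCoeff_eq_zero.mp h4)
  · exact pow_ne_zero _ hw h3

end

/-- Termination of the algorithm. -/
lemma mu_le {R : Type*} [CommRing R] [IsDomain R] [CharZero R] (d : ℕ) (c : ℕ → ℕ → ℤ)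
    (hd : 1 ≤ d) (h : c 0 d = 1)
    (hirr : Irreducible (fP d c)) (m : ℕ) (hm : 1 ≤ m) (w : R) (hw : w ≠ 0) (V : R[X]) (v : R)
    (hv : v ≠ 0) (k₀ μ : ℕ) (Ψ : R[X][X])
    (hrel : X ^ μ * Ψ = F0 d c (C (C w) * X ^ m) (zt V v k₀)) :
    μ ≤ k₀ + m * (2 * d ^ 2) := by
  obtain ⟨ρ, p, q, hρ, hρd, hpq⟩ := exists_res d c hd h hirr
  obtain ⟨a₁, a₂, h1⟩ := key_dvd d c ρ p q hpq m w V v k₀ μ Ψ hrel
  set P : R[X][X] := C (C v) * X ^ k₀ * eval₂ (Int.castRingHom R[X][X]) (C (C w) * X ^ m) ρ with hP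
  have hP0 : P ≠ 0 := by
    refine mul_ne_zero (mul_ne_zero ?_ (pow_ne_zero _ X_ne_zero)) (tau_ne_zero w hw m hm ρ hρ)
    rw [Ne, C_eq_zero, C_eq_zero]
    exact hv
  have h2 : (X : R[X][X]) ^ μ ∣ P := ⟨_, h1⟩
  have h3 := natDegree_le_of_dvd h2 hP0
  rw [natDegree_X_pow] at h3
  refine h3.trans ?_
  rw [hP]
  refine (natDegree_mul_le).trans ?_
  have h4 : (C (C v) * X ^ k₀ : R[X][X]).natDegree ≤ k₀ := natDegree_C_mul_X_pow_le _ _
  have h5 : (eval₂ (Int.castRingHom R[X][X]) (C (C w) * X ^ m) ρ).natDegree ≤ m * (2 * d ^ 2) := by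
    rw [eval₂_eq_sum_range]
    refine natDegree_sum_le_of_forall_le _ _ (fun j hj => ?_)
    have hj' := Finset.mem_range.mp hj
    rw [CC_pow]
    have h6 : (Int.castRingHom R[X][X]) (ρ.coeff j) * (C (C (w ^ j)) * X ^ (m * j))
        = C (C ((ρ.coeff j : R) * w ^ j)) * X ^ (m * j) := by
      rw [C_mul, C_mul]
      simp
      ring
    rw [h6]
    refine (natDegree_C_mul_X_pow_le _ _).trans (Nat.mul_le_mul_left _ (by omega))
  omega

/-- The chart is not a double root. -/
lemma exists_low_coeff {R : Type*} [CommRing R] [IsDomain R] [CharZero R] (d : ℕ)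
    (c : ℕ → ℕ → ℤ) (hd : 1 ≤ d) (h : c 0 d = 1)
    (hirr : Irreducible (fP d c)) (m : ℕ) (hm : 1 ≤ m) (w : R) (hw : w ≠ 0) (V : R[X]) (v : R)
    (hv : v ≠ 0) (k₀ μ : ℕ) (Ψ : R[X][X])
    (hrel : X ^ μ * Ψ = F0 d c (C (C w) * X ^ m) (zt V v k₀)) :
    ∃ k, (Ψ.coeff k).coeff 0 ≠ 0 ∨ (Ψ.coeff k).coeff 1 ≠ 0 := by
  by_contra hcon
  push Not at hcon
  obtain ⟨ρ, p, q, hρ, hρd, hpq⟩ := exists_res d c hd h hirr
  obtain ⟨a₁, a₂, h1⟩ := key_dvd d c ρ p q hpq m w V v k₀ μ Ψ hrel
  have h2 : mapRingHom (evalRingHom (0 : R)) Ψ = 0 := by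
    rw [coe_mapRingHom]
    ext k
    rw [coeff_map, coe_evalRingHom, ← coeff_zero_eq_eval_zero, (hcon k).1, coeff_zero]
  have h3 : mapRingHom (evalRingHom (0 : R)) (dZ Ψ) = 0 := by
    rw [coe_mapRingHom]
    ext k
    rw [coeff_map, coe_evalRingHom, coeff_dZ, ← coeff_zero_eq_eval_zero, coeff_derivative,
      zero_add, (hcon k).2, coeff_zero, zero_mul]
  have h4 := congrArg (mapRingHom (evalRingHom (0 : R))) h1
  rw [map_mul, map_mul, map_mul, map_pow, map_add, map_mul, map_mul, h2, h3, mul_zero, mul_zero,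
    add_zero, mul_zero] at h4
  rcases mul_eq_zero.mp h4 with h5 | h5
  · rcases mul_eq_zero.mp h5 with h6 | h6
    · rw [coe_mapRingHom, Polynomial.map_C, coe_evalRingHom, eval_C, C_eq_zero] at h6
      exact hv h6
    · rw [coe_mapRingHom, Polynomial.map_X] at h6
      exact pow_ne_zero _ X_ne_zero h6
  · -- the value at `0` of a polynomial with constant coefficients
    have h6 := congrArg (fun P : R[X] => P.coeff (m * ρ.natDegree)) h5
    simp only [coe_mapRingHom, coeff_map, coeff_zero] at h6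
    rw [tau_coeff w m hm ρ, coe_evalRingHom, eval_C] at h6
    rcases mul_eq_zero.mp h6 with h7 | h7
    · have h8 : ρ.coeff ρ.natDegree = 0 := by exact_mod_cast h7
      exact hρ (leadingCoeff_eq_zero.mp h8)
    · exact pow_ne_zero _ hw h7

end Pool.Agent.H20.G
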