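import Pool.Agent.H20.N8

set_option autoImplicit false

namespace Pool.Agent.H20.G

open Polynomial Finset NumberField Module

lemma Node.r_le {d : ℕ} {c : ℕ → ℕ → ℤ} {a b : ℤ} (N : Node d c a b) (nf : NumberField N.E) :
    N.r ≤ d ∧ N.m ≤ d ∧ finrank ℚ N.E ≤ d := by
  have h1 := N.hdeg
  have hfr : 1 ≤ finrank ℚ N.E := finrank_pos
  refine ⟨?_, ?_, ?_⟩
  · calc N.r = 1 * 1 * N.r := by ring
      _ ≤ finrank ℚ N.E * N.m * N.r := Nat.mul_le_mul_right _ (Nat.mul_le_mul hfr N.m_pos)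
      _ ≤ d := h1
  · calc N.m = 1 * N.m * 1 := by ring
      _ ≤ finrank ℚ N.E * N.m * N.r := Nat.mul_le_mul (Nat.mul_le_mul_right _ hfr) N.r_pos
      _ ≤ d := h1
  · calc finrank ℚ N.E = finrank ℚ N.E * 1 * 1 := by ring
      _ ≤ finrank ℚ N.E * N.m * N.r := Nat.mul_le_mul (Nat.mul_le_mul_left _ N.m_pos) N.r_pos
      _ ≤ d := h1

/-- The step at an exact root. -/
theorem Node.exact {d : ℕ} {c : ℕ → ℕ → ℤ} {a b : ℤ} (hd : 1 ≤ d) (htop : c 0 d = 1)
    (hirr : Irreducible (fP d c)) (N : Node d c a b)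
    (nf : NumberField N.E) (hr : 2 ≤ N.r) (D : ℕ) (hD : 1 ≤ D) (h : ℝ) (hh : 2 ≤ h)
    (hN : N.Ht D h) (hζ0 : N.ζ = 0) (hsm : h ^ (M0 d D) * ‖N.s‖ ≤ 1) :
    ∃ (N' : Node d c a b) (nf' : NumberField N'.E), N'.r = 1 ∧ N'.s = N.s ∧ N'.ζ = 0 ∧
      N'.Ht (4 * d * D) (h ^ (d + 2)) := by
  classical
  have hh1 : 1 ≤ h := by linarith
  have hh0 : 0 < h := by linarith
  obtain ⟨hrd, hmd, hfin⟩ := N.r_le nf
  let ψ : ℕ → ℕ → ℂ := fun k l => emb N.E ((N.Ψ.coeff k).coeff l)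
  have hψ0 : ∀ k l, ψ k l ≠ 0 → (N.Ψ.coeff k).coeff l ≠ 0 := by
    intro k l h0 h1
    apply h0
    simp only [ψ]
    rw [h1, map_zero]
  have hup : ∑ k ∈ range (D + 1), ∑ l ∈ range (d + 1), ‖ψ k l‖ ≤ h := by
    refine le_trans ?_ hN.hΨ
    rw [l1_expand2 (nrmHouse N.E) N.Ψ D d hN.dΨ N.deg]
    exact Finset.sum_le_sum (fun k _ => Finset.sum_le_sum (fun l _ => norm_emb_le _ _))
  have hup0 : ∑ k ∈ range (D + 1), ∑ l ∈ range (0 + 1), ‖ψ k l‖ ≤ h := by
    refine le_trans (Finset.sum_le_sum (fun k _ => ?_)) hup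
    refine Finset.sum_le_sum_of_subset_of_nonneg ?_ (fun _ _ _ => norm_nonneg _)
    exact Finset.range_subset_range.mpr (by omega)
  have hlow : ∀ k l, ψ k l ≠ 0 → 1 ≤ ‖ψ k l‖ * h ^ d := fun k l h0 =>
    one_le_emb N.E d hfin h hh1 _ (hψ0 k l h0) ((coeff2_le _ _ _ _).trans hN.hΨ)
  have h0 : ∑ k ∈ range (D + 1), ∑ l ∈ range (0 + 1), ψ k l * N.s ^ k * N.s ^ l = 0 := by
    have h1 := N.zero
    rw [ev_expand2 (emb N.E) N.s N.ζ N.Ψ D d hN.dΨ N.deg, hζ0] at h1
    refine Eq.trans (Finset.sum_congr rfl (fun k _ => ?_)) h1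
    rw [Finset.sum_range_one]
    rw [Finset.sum_eq_single 0]
    · simp [ψ]
    · intro l _ hl
      rw [zero_pow hl, mul_zero]
    · intro hn
      exact absurd (Finset.mem_range.mpr (by omega)) hn
  have hsm1 : h ^ (d + 1) * ‖N.s‖ < 1 := by
    have h2 : h * (h ^ (d + 1) * ‖N.s‖) ≤ h ^ (M0 d D) * ‖N.s‖ := by
      rw [← mul_assoc, ← pow_succ']
      refine mul_le_mul_of_nonneg_right (pow_le_pow_right₀ hh1 ?_) (norm_nonneg _)
      unfold M0
      omega
    have h3 : 0 ≤ h ^ (d + 1) * ‖N.s‖ := by positivity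
    nlinarith
  have hvan : ∀ k, (N.Ψ.coeff k).coeff 0 = 0 := by
    by_contra hcon
    push Not at hcon
    obtain ⟨k, hk⟩ := hcon
    have hkD : k ≤ D := by
      by_contra h1
      push Not at h1
      rw [coeff_eq_zero_of_natDegree_lt (lt_of_le_of_lt hN.dΨ h1), coeff_zero] at hk
      exact hk rfl
    obtain ⟨p, q, _, _, hq1, hq2, _⟩ := exists_slope D 0 ψ N.s N.s h d hh1 hup0 hlow h0
      ⟨k, 0, hkD, le_rfl, emb_ne_zero _ hk⟩ N.s_ne N.s_ne hsm1 hsm1
    omega
  obtain ⟨k', hk'⟩ := exists_low_coeff d c hd htop hirr N.m N.m_pos N.w N.w_ne N.V N.v N.v_ne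
    N.k₀ N.μ N.Ψ N.rel
  have hex : ∃ k, (N.Ψ.coeff k).coeff 1 ≠ 0 := ⟨k', hk'.resolve_left (fun h1 => h1 (hvan k'))⟩
  set k₁ := Nat.find hex with hk₁
  have hk₁ne : (N.Ψ.coeff k₁).coeff 1 ≠ 0 := Nat.find_spec hex
  have hk₁min : ∀ k, (N.Ψ.coeff k).coeff 1 ≠ 0 → k₁ ≤ k := fun k hk => Nat.find_min' hex hk
  have hk₁D : k₁ ≤ D := by
    by_contra h1
    push Not at h1
    rw [coeff_eq_zero_of_natDegree_lt (lt_of_le_of_lt hN.dΨ h1), coeff_zero] at hk₁ne
    exact hk₁ne rfl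
  set p := k₁ + 1 with hp
  set n := k₁ + p with hn
  have hmin : ∀ k l, (N.Ψ.coeff k).coeff l ≠ 0 → n ≤ 1 * k + p * l := by
    intro k l hkl
    rcases Nat.lt_or_ge l 2 with hl | hl
    · interval_cases l
      · exact absurd (hvan k) hkl
      · have := hk₁min k hkl
        omega
    · have : p * 2 ≤ p * l := Nat.mul_le_mul_left _ hl
      omega
  set st₁ := st 1 1 0 p 1 D d n N.Ψ with hst₁
  have hst0 : st₁.coeff 0 = C ((N.Ψ.coeff k₁).coeff 1) * X := by
    rw [hst₁, st_coeff_zero 1 1 0 p 1 D d n N.Ψ hmin]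
    rw [Finset.sum_eq_single k₁]
    · rw [Finset.sum_eq_single 1]
      · rw [if_pos (by omega)]
        simp
      · intro l _ hl
        split_ifs with h1
        · exfalso
          apply hl
          have h2 : p * l = p * 1 := by omega
          exact Nat.eq_of_mul_eq_mul_left (by omega) h2
        · rfl
      · intro hn1
        exact absurd (Finset.mem_range.mpr (by omega)) hn1
    · intro k _ hk
      apply Finset.sum_eq_zero
      intro l _
      split_ifs with h1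
      · have h2 : (N.Ψ.coeff k).coeff l = 0 := by
          by_contra h2
          rcases Nat.lt_or_ge l 2 with hl | hl
          · interval_cases l
            · exact h2 (hvan k)
            · omega
          · have : p * 2 ≤ p * l := Nat.mul_le_mul_left _ hl
            omega
        rw [h2]
        simp
      · rfl
    · intro hn1
      exact absurd (Finset.mem_range.mpr (by omega)) hn1
  have hrel1 := congrArg (sb 1 1 0 p 1) N.rel
  rw [map_mul, map_pow, sb_X, map_F0, sb_T, sb_zt,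
    ← X_pow_mul_st 1 1 0 p 1 D d n N.Ψ hN.dΨ N.deg hmin, ← hst₁] at hrel1
  have hevs : emb N.E 1 * N.s ^ 1 = N.s := by rw [map_one, pow_one, one_mul]
  have hevζ : emb N.E 1 * N.s ^ p * (emb N.E 0 + 0) = N.ζ := by
    rw [hζ0, map_zero, add_zero, mul_zero]
  have hevst : ev (emb N.E) N.s 0 st₁ = 0 := by
    have h1 := ev_sb 1 1 0 p 1 (emb N.E) N.s 0 N.Ψ
    rw [hevs, hevζ, ← X_pow_mul_st 1 1 0 p 1 D d n N.Ψ hN.dΨ N.deg hmin, map_mul, map_pow,
      ev_X, N.zero] at h1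
    rcases mul_eq_zero.mp h1 with h2 | h2
    · exact absurd h2 (pow_ne_zero _ N.s_ne)
    · exact h2
  have hevz : ev (emb N.E) N.s 0 (sb 1 1 0 p 1 (zt N.V N.v N.k₀))
      = ev (emb N.E) N.s N.ζ (zt N.V N.v N.k₀) := by
    rw [ev_sb, hevs, hevζ]
  let N' : Node d c a b :=
    { E := N.E
      nf := nf
      m := 1 * N.m
      w := N.w * 1 ^ N.m
      V := N.V.comp (C 1 * X ^ 1) + C (N.v * 1 ^ N.k₀ * 1 * 0) * X ^ (1 * N.k₀ + p)
      v := N.v * 1 ^ N.k₀ * 1
      k₀ := 1 * N.k₀ + p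
      μ := 1 * N.μ + n
      Ψ := st₁
      r := 1
      s := N.s
      ζ := 0
      S := N.S
      m_pos := by rw [one_mul]; exact N.m_pos
      r_pos := le_rfl
      w_ne := by rw [one_pow, mul_one]; exact N.w_ne
      v_ne := by rw [one_pow, mul_one, mul_one]; exact N.v_ne
      s_ne := N.s_ne
      rel := by
        rw [← hrel1, CC_pow, pow_add, one_pow, C_1, C_1]
        ring
      lt := by
        intro l hl
        have : l = 0 := by omega
        rw [this, hst0]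
        simp
      ne := by
        rw [hst0]
        simpa using hk₁ne
      deg := by
        intro k
        exact st_coeff_natDegree_le _ _ _ _ _ _ _ _ _ _
      hdeg := by
        rw [one_mul, mul_one]
        calc finrank ℚ N.E * N.m = finrank ℚ N.E * N.m * 1 := (mul_one _).symm
          _ ≤ finrank ℚ N.E * N.m * N.r := Nat.mul_le_mul_left _ N.r_pos
          _ ≤ d := N.hdeg
      inv := by omega
      hs := by
        have h1 := N.hs
        rw [one_pow, mul_one, one_mul]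
        exact h1
      hb := by
        have h1 := N.hb
        rw [← hevz, sb_zt] at h1
        exact h1
      zero := hevst
      span := N.span
      Vdeg := by
        refine (natDegree_add_le _ _).trans (max_le ?_ ?_)
        · refine (comp_pow_natDegree _ _ _ _ N.Vdeg).trans (by omega)
        · exact (natDegree_C_mul_X_pow_le _ _)
      dist := by
        intro σ σ' x x' hx hx' h1 h2
        refine N.dist σ σ' x x' hx hx' ?_ ?_
        · rw [one_pow, mul_one, one_mul] at h1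
          exact h1
        · intro k hk
          have h3 := h2 k (by omega)
          have h4 : (N.V.comp (C 1 * X ^ 1) + C (N.v * 1 ^ N.k₀ * 1 * 0) * X ^ (1 * N.k₀ + p)).coeff k
              = N.V.coeff k := by
            rw [mul_zero, C_0, zero_mul, add_zero, C_1, one_mul, pow_one, comp_X]
          rw [h4] at h3
          exact h3 }
  refine ⟨N', nf, rfl, rfl, rfl, ?_⟩
  have h1d : D ≤ d * D := Nat.le_mul_of_pos_left _ hd
  have hdD : d ≤ d * D := Nat.le_mul_of_pos_right _ hD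
  have hone : (nrmHouse N.E).v (1 : 𝓞 N.E) ≤ 1 := (nrmHouse N.E).one_le
  have hpow : ∀ k, (nrmHouse N.E).v ((1 : 𝓞 N.E) ^ k) ≤ 1 := fun k => by rw [one_pow]; exact hone
  have hh' : h ≤ h ^ (d + 2) := le_self_pow₀ hh1 (by omega)
  have hst1 : ∀ (n' : ℕ) (U : (𝓞 N.E)[X][X]), U.natDegree ≤ D →
      (∀ k, (U.coeff k).natDegree ≤ d) → (nrmHouse N.E).poly.l1 U ≤ h →
      (nrmHouse N.E).poly.l1 (st 1 1 0 p 1 D d n' U) ≤ h ^ (d + 2) := by
    intro n' U hU1 hU2 hU3
    refine (st_l1 1 1 0 p 1 (nrmHouse N.E) D d n' U hU1 hU2 1 le_rfl hone hone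
      (by rw [(nrmHouse N.E).zero]; norm_num)).trans ?_
    calc (nrmHouse N.E).poly.l1 U * (1 ^ D * (2 * 1) ^ d) ≤ h * (1 ^ D * (2 * 1) ^ d) :=
          mul_le_mul_of_nonneg_right hU3 (by positivity)
      _ = h * 2 ^ d := by rw [one_pow, one_mul, mul_one]
      _ ≤ h * h ^ d := by
          refine mul_le_mul_of_nonneg_left ?_ hh0.le
          exact pow_le_pow_left₀ (by norm_num) hh _
      _ = h ^ (d + 1) := by rw [← pow_succ']
      _ ≤ h ^ (d + 2) := pow_le_pow_right₀ hh1 (by omega)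
  have hpd : p * d ≤ 2 * (d * D) := by
    calc p * d ≤ (2 * D) * d := Nat.mul_le_mul_right _ (by omega)
      _ = 2 * (d * D) := by ring
  have h4 : 4 * d * D = 4 * (d * D) := by ring
  have hk₀ := hN.dk
  have hμ := hN.dμ
  refine ⟨?_, ?_, ?_, ?_, ?_, ?_, ?_, ?_, ?_⟩
  · change st₁.natDegree ≤ _
    refine (natDegree_st_le _ _ _ _ _ _ _ _ _).trans ?_
    omega
  · change (zt _ _ _).natDegree ≤ _
    rw [← sb_zt 1 1 0 p 1 N.V N.v N.k₀,
      ← X_pow_mul_st 1 1 0 p 1 D d 0 (zt N.V N.v N.k₀) hN.dz (fun k => zt_deg _ _ _ d hd k)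
        (fun _ _ _ => by omega), pow_zero, one_mul]
    refine (natDegree_st_le _ _ _ _ _ _ _ _ _).trans ?_
    omega
  · change 1 * N.μ + n ≤ _
    omega
  · change 1 * N.k₀ + p ≤ _
    omega
  · change (nrmHouse N.E).v (N.w * 1 ^ N.m) ≤ _
    rw [one_pow, mul_one]
    exact hN.hw.trans hh'
  · change (nrmHouse N.E).v (N.v * 1 ^ N.k₀ * 1) ≤ _
    rw [one_pow, mul_one, mul_one]
    exact hN.hv.trans hh'
  · change (nrmHouse N.E).poly.l1 (zt _ _ _) ≤ _
    rw [← sb_zt 1 1 0 p 1 N.V N.v N.k₀,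
      ← X_pow_mul_st 1 1 0 p 1 D d 0 (zt N.V N.v N.k₀) hN.dz (fun k => zt_deg _ _ _ d hd k)
        (fun _ _ _ => by omega), pow_zero, one_mul]
    exact hst1 0 _ hN.dz (fun k => zt_deg _ _ _ d hd k) hN.hz
  · exact hst1 n _ hN.dΨ N.deg hN.hΨ
  · intro x hx
    exact (hN.hS x hx).trans hh'

end Pool.Agent.H20.G
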