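import Pool.Agent.H20.N13

set_option autoImplicit false

namespace Pool.Agent.H20.G

open Polynomial Finset NumberField Module

/-- a good change of coordinates -/
lemma exists_shear' (d : ℕ) (F : MvPolynomial (Fin 2) ℤ) (hF : F.totalDegree = d) (hF0 : F ≠ 0) :
    ∃ k : ℕ, k ≤ d ∧ cf k F 0 d ≠ 0 := by
  classical
  set H := MvPolynomial.homogeneousComponent d F with hH
  -- the leading form is not zero
  obtain ⟨m₀, hm₀, hm₀d⟩ : ∃ m ∈ F.support, m 0 + m 1 = d := by
    have h1 : F.support.Nonempty := MvPolynomial.support_nonempty.mpr hF0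
    obtain ⟨m, hm, hmd⟩ := Finset.exists_mem_eq_sup F.support h1 (fun s => s.sum fun _ e => e)
    refine ⟨m, hm, ?_⟩
    have h2 : F.totalDegree = m.sum fun _ e => e := hmd
    rw [hF] at h2
    rw [h2, Finsupp.sum_fintype _ _ (by simp), Fin.sum_univ_two]
  let P : ℤ[X] := ∑ m ∈ F.support.filter (fun m => m 0 + m 1 = d), monomial (m 0) (F.coeff m)
  have hPc : P.coeff (m₀ 0) = F.coeff m₀ := by
    simp only [P]
    rw [finsetSum_coeff, Finset.sum_eq_single m₀]
    · rw [coeff_monomial, if_pos rfl]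
    · intro m hm hne
      rw [coeff_monomial, if_neg]
      intro h3
      apply hne
      have h4 := (Finset.mem_filter.mp hm).2
      ext i
      fin_cases i
      · exact h3
      · change m 1 = m₀ 1
        omega
    · intro h3
      exact absurd (Finset.mem_filter.mpr ⟨hm₀, hm₀d⟩) h3
  have hP : P ≠ 0 := by
    intro h0
    rw [h0, coeff_zero] at hPc
    exact (MvPolynomial.mem_support_iff.mp hm₀) hPc.symm
  have hPd : P.natDegree ≤ d := by
    refine natDegree_sum_le_of_forall_le _ _ (fun m hm => ?_)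
    refine (natDegree_monomial_le _).trans ?_
    have := (Finset.mem_filter.mp hm).2
    omega
  have hPe : ∀ k : ℤ, P.eval k = cf k F 0 d := by
    intro k
    have h2 := lead_cf k F d hF.le (0 : ℤ) 1
    rw [Finset.sum_eq_single d] at h2
    · have h3 : cf k F 0 d = MvPolynomial.eval₂ (Int.castRingHom ℤ) ![k, 1]
          (MvPolynomial.homogeneousComponent d F) := by
        rw [zero_add, mul_one, Int.cast_id, Int.cast_id, Nat.sub_self, pow_zero, mul_one, one_pow,
          mul_one] at h2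
        exact h2
      rw [h3, MvPolynomial.homogeneousComponent_apply, MvPolynomial.eval₂_sum]
      simp only [P]
      rw [eval_finsetSum, Finset.sum_filter, Finset.sum_filter]
      refine Finset.sum_congr rfl (fun m _ => ?_)
      rw [fin2_degree]
      split_ifs
      · rw [eval_monomial, MvPolynomial.eval₂_monomial, Finsupp.prod_fintype _ _ (by simp),
          Fin.prod_univ_two]
        simp
      · rfl
    · intro j hj hne
      have := Finset.mem_range.mp hj
      rw [zero_pow (by omega), mul_zero, zero_mul]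
    · intro hn
      exact absurd (Finset.mem_range.mpr (by omega)) hn
  by_contra hne
  push Not at hne
  apply hP
  let f : Fin (d + 1) → ℤ := fun k => ((k : ℕ) : ℤ)
  refine eq_zero_of_natDegree_lt_card_of_eval_eq_zero P (f := f) ?_ ?_ ?_
  · intro a b hab
    simp only [f] at hab
    exact Fin.ext (by exact_mod_cast hab)
  · intro k
    simp only [f]
    rw [hPe]
    exact hne k (by have := k.isLt; omega)
  · rw [Fintype.card_fin]
    omega

/-- The condition at infinity for an arbitrary polynomial. -/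
def CondF (K : Type) [Field K] [NumberField K] (d : ℕ) (F : MvPolynomial (Fin 2) ℤ) : Prop :=
  (∃ (L : Type) (_ : Field L) (_ : NumberField L) (x y : LaurentSeries L) (e : ℕ),
    MvPolynomial.eval₂ (Int.castRingHom (LaurentSeries L)) ![x, y] F = 0 ∧ Pole x y e ∧
      finrank ℚ L * e < d) ∨
  ∀ (L : Type) [Field L] [NumberField L] (x y : LaurentSeries L) (e : ℕ),
    MvPolynomial.eval₂ (Int.castRingHom (LaurentSeries L)) ![x, y] F = 0 → Pole x y e →
      ∃ F' : IntermediateField ℚ K, 3 ≤ finrank ℚ F' ∧ Nonempty (F' →+* L)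

section

variable {L : Type} [Field L] [CharZero L]

omit [CharZero L] in
lemma coeff_intCast_mul (k : ℤ) (y : LaurentSeries L) (n : ℤ) :
    ((k : LaurentSeries L) * y).coeff n = (k : L) * y.coeff n := by
  rw [← zsmul_eq_mul, ← zsmul_eq_mul]
  exact map_zsmul (HahnSeries.coeff.addMonoidHom n) k y

lemma evR_mon (d : ℕ) (hd : 1 ≤ d) (c : ℕ → ℕ → ℤ) {B : Type*} [CommRing B] (u v : B) :
    evR u ((c 0 d : B) * v) (fP d (mon d c)) = (c 0 d : B) ^ (d - 1) * evR u v (fP d c) := by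
  have h1 := congrArg (evR u v) (mon_comp d hd c)
  rw [map_mul] at h1
  have h2 : evR u v (C (C ((c 0 d) ^ (d - 1)))) = (c 0 d : B) ^ (d - 1) := by
    have h3 : (C (C ((c 0 d) ^ (d - 1))) : ℤ[X][X]) = (((c 0 d) ^ (d - 1) : ℤ) : ℤ[X][X]) := by
      simp
    rw [h3, map_intCast]
    push_cast
    rfl
  rw [h2] at h1
  rw [← h1]
  unfold evR
  rw [coe_eval₂RingHom, coe_eval₂RingHom, eval₂_comp, eval₂_mul, eval₂_C, eval₂_X]
  congr 1
  rw [coe_eval₂RingHom, eval₂_C]
  rfl

/-- from the monic model to the curve -/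
lemma pole_back (d : ℕ) (hd : 1 ≤ d) (F : MvPolynomial (Fin 2) ℤ) (hF : F.totalDegree ≤ d) (k : ℤ)
    (h0 : cf k F 0 d ≠ 0) (x y : LaurentSeries L) (e : ℕ)
    (hxy : evR x y (fP d (mon d (cf k F))) = 0) (hp : Pole x y e) :
    ∃ x' y' : LaurentSeries L,
      MvPolynomial.eval₂ (Int.castRingHom (LaurentSeries L)) ![x', y'] F = 0 ∧ Pole x' y' e := by
  have : CharZero (LaurentSeries L) :=
    charZero_of_injective_ringHom (HahnSeries.C_injective (Γ := ℤ) (R := L))
  have hc0 : ((cf k F 0 d : ℤ) : LaurentSeries L) ≠ 0 := Int.cast_ne_zero.mpr h0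
  have hc0L : ((cf k F 0 d : ℤ) : L) ≠ 0 := by exact_mod_cast h0
  obtain ⟨v, hv⟩ : ∃ v : LaurentSeries L, y = (cf k F 0 d : LaurentSeries L) * v :=
    ⟨((cf k F 0 d : ℤ) : LaurentSeries L)⁻¹ * y, by field_simp⟩
  subst hv
  rw [evR_mon d hd] at hxy
  have h1 : evR x v (fP d (cf k F)) = 0 :=
    (mul_eq_zero.mp hxy).resolve_left (pow_ne_zero _ hc0)
  rw [← shear_eq_fP k F d hF, evR_shear] at h1
  obtain ⟨he, hlow, hne⟩ := hp
  refine ⟨x + k * v, v, h1, he, ?_, ?_⟩
  · intro n hn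
    obtain ⟨h2, h3⟩ := hlow n hn
    rw [coeff_intCast_mul] at h3
    have h4 : v.coeff n = 0 := (mul_eq_zero.mp h3).resolve_left hc0L
    refine ⟨?_, h4⟩
    rw [HahnSeries.coeff_add, coeff_intCast_mul, h2, h4, mul_zero, add_zero]
  · by_contra hcon
    push Not at hcon
    obtain ⟨h2, h3⟩ := hcon
    rw [HahnSeries.coeff_add, coeff_intCast_mul, h3, mul_zero, add_zero] at h2
    rcases hne with h4 | h4
    · exact h4 h2
    · rw [coeff_intCast_mul, h3, mul_zero] at h4
      exact h4 rfl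

/-- from the curve to the monic model -/
lemma pole_forth (d : ℕ) (hd : 1 ≤ d) (F : MvPolynomial (Fin 2) ℤ) (hF : F.totalDegree ≤ d) (k : ℤ)
    (h0 : cf k F 0 d ≠ 0) (x y : LaurentSeries L) (e : ℕ)
    (hxy : MvPolynomial.eval₂ (Int.castRingHom (LaurentSeries L)) ![x, y] F = 0)
    (hp : Pole x y e) :
    ∃ x' y' : LaurentSeries L, evR x' y' (fP d (mon d (cf k F))) = 0 ∧ Pole x' y' e := by
  have hc0L : ((cf k F 0 d : ℤ) : L) ≠ 0 := by exact_mod_cast h0
  obtain ⟨he, hlow, hne⟩ := hp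
  refine ⟨x - k * y, (cf k F 0 d : LaurentSeries L) * y, ?_, he, ?_, ?_⟩
  · rw [evR_mon d hd, ← shear_eq_fP k F d hF, evR_shear]
    have h1 : x - k * y + k * y = x := by ring
    rw [h1, hxy, mul_zero]
  · intro n hn
    obtain ⟨h2, h3⟩ := hlow n hn
    rw [HahnSeries.coeff_sub, coeff_intCast_mul, coeff_intCast_mul, h2, h3, mul_zero, mul_zero,
      sub_zero]
    exact ⟨rfl, rfl⟩
  · by_contra hcon
    push Not at hcon
    obtain ⟨h2, h3⟩ := hcon
    rw [coeff_intCast_mul] at h3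
    have h4 : y.coeff (-(e : ℤ)) = 0 := (mul_eq_zero.mp h3).resolve_left hc0L
    rw [HahnSeries.coeff_sub, coeff_intCast_mul, h4, mul_zero, sub_zero] at h2
    rcases hne with h5 | h5
    · exact h5 h2
    · exact h5 h4

end

lemma CondF.toC (K : Type) [Field K] [NumberField K] (d : ℕ) (hd : 1 ≤ d)
    (F : MvPolynomial (Fin 2) ℤ) (hF : F.totalDegree ≤ d) (k : ℤ) (h0 : cf k F 0 d ≠ 0)
    (h : CondF K d F) : CondC K d (mon d (cf k F)) := by
  rcases h with ⟨L, fL, nL, x, y, e, hxy, hp, hlt⟩ | h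
  · left
    obtain ⟨x', y', h1, h2⟩ := pole_forth d hd F hF k h0 x y e hxy hp
    exact ⟨L, fL, nL, x', y', e, h1, h2, hlt⟩
  · right
    intro L fL nL x y e hxy hp
    obtain ⟨x', y', h1, h2⟩ := pole_back d hd F hF k h0 x y e hxy hp
    exact h L x' y' e h1 h2

/-- The bound for all irreducible curves satisfying the condition at infinity. -/
theorem general_boundG (d : ℕ) (hd : 3 ≤ d) :
    ∃ κ : ℕ, ∀ (K : Type) [Field K] [NumberField K], ∃ A : ℝ, 1 ≤ A ∧
      ∀ F : MvPolynomial (Fin 2) ℤ, Irreducible (MvPolynomial.map (Int.castRingHom ℚ) F) →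
      F.totalDegree = d → CondF K d F →
      ∀ x y : ℤ, MvPolynomial.eval ![x, y] F = 0 →
        |(x : ℝ)| ≤ A * HF F ^ κ ∧ |(y : ℝ)| ≤ A * HF F ^ κ := by
  have hd1 : 1 ≤ d := by omega
  obtain ⟨κ₀, hκ₀⟩ := monic_caseG d hd
  refine ⟨d * (κ₀ + 1), fun K _ _ => ?_⟩
  obtain ⟨A, hA1, hA⟩ := hκ₀ K
  refine ⟨(1 + d) * (A * ((1 + d) ^ d) ^ (d * (κ₀ + 1))), ?_, ?_⟩
  · have h1 : (1 : ℝ) ≤ 1 + d := by
      have : (0 : ℝ) ≤ d := by positivity
      linarith
    exact one_le_mul_of_one_le_of_one_le h1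
      (one_le_mul_of_one_le_of_one_le hA1 (one_le_pow₀ (one_le_pow₀ h1)))
  intro F hirr hFd hcond x y hxy
  have hF0 : F ≠ 0 := by
    rintro rfl
    rw [MvPolynomial.totalDegree_zero] at hFd
    omega
  have hF : F.totalDegree ≤ d := hFd.le
  obtain ⟨k, hkd, hk0⟩ := exists_shear' d F hFd hF0
  have hk0' : cf (k : ℤ) F 0 d ≠ 0 := hk0
  have hcondC := hcond.toC K d hd1 F hF (k : ℤ) hk0'
  set c := cf (k : ℤ) F with hc
  have hirr2 : Irreducible ((fP d c).map (mapRingHom (Int.castRingHom ℚ))) := by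
    rw [hc, ← shear_eq_fP k F d hF, shear_map]
    exact shR_irreducible _ _ hirr
  have hirr3 := mon_irreducible' d hd1 c hk0' hirr2
  -- the point
  have h1 : evalEval (x - k * y) y (fP d c) = 0 := by
    have h2 := evR_shear (R := ℤ) (k : ℤ) (x - k * y) y F
    rw [shear_eq_fP k F d hF, Int.cast_id] at h2
    have h3 : MvPolynomial.eval₂ (Int.castRingHom ℤ) ![x - k * y + (k : ℤ) * y, y] F = 0 := by
      have h4 : (x - k * y + (k : ℤ) * y) = x := by ring
      rw [h4, ← hxy]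
      have h5 : (Int.castRingHom ℤ) = RingHom.id ℤ := RingHom.ext_int _ _
      rw [h5, MvPolynomial.eval₂_id]
    rw [h3] at h2
    rw [← h2]
    have h6 : (Int.castRingHom ℤ) = RingHom.id ℤ := RingHom.ext_int _ _
    unfold evR evalEval
    rw [h6, coe_eval₂RingHom]
    have h7 : (eval₂RingHom (RingHom.id ℤ) (x - k * y)) = evalRingHom (x - k * y) := by
      ext <;> simp
    rw [h7, eval₂_evalRingHom]
  have h2 : evalEval (x - k * y) (c 0 d * y) (fP d (mon d c)) = 0 := by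
    have h3 := congrArg (evalEval (x - k * y) y) (mon_comp d hd1 c)
    rw [evalEval_mul, h1, mul_zero] at h3
    rw [← h3]
    unfold evalEval
    rw [eval_comp]
    simp
  obtain ⟨ha, hb⟩ := hA (mon d c) (mon_top d c) hirr3 hcondC (x - k * y) (c 0 d * y) h2
  -- sizes
  have hH0 : 0 ≤ HF F := Finset.sum_nonneg (fun _ _ => abs_nonneg _)
  have hS1 : hS d (mon d c) ≤ ((1 + d) ^ d * HF F) ^ d :=
    (hS_mon_le d hd1 c hk0').trans
      (pow_le_pow_left₀ (hS_nonneg _ _) (hS_cf_le k F d hF hkd) _)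
  have hS2 : (1 : ℝ) ≤ hS d (mon d c) := one_le_hS d _ (mon_top d c)
  set X := A * (((1 + d) ^ d) ^ (d * (κ₀ + 1)) * HF F ^ (d * (κ₀ + 1))) with hX
  have hpow : A * hS d (mon d c) ^ (κ₀ + 1) ≤ X := by
    rw [hX]
    refine mul_le_mul_of_nonneg_left ?_ (by linarith)
    calc hS d (mon d c) ^ (κ₀ + 1) ≤ (((1 + d) ^ d * HF F) ^ d) ^ (κ₀ + 1) :=
          pow_le_pow_left₀ (hS_nonneg _ _) hS1 _
      _ = ((1 + d) ^ d) ^ (d * (κ₀ + 1)) * HF F ^ (d * (κ₀ + 1)) := by
          rw [← pow_mul, mul_pow]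
  have ha' : |((x - k * y : ℤ) : ℝ)| ≤ X := by
    refine ha.trans (le_trans ?_ hpow)
    refine mul_le_mul_of_nonneg_left ?_ (by linarith)
    exact pow_le_pow_right₀ hS2 (by omega)
  have hb' : |(y : ℝ)| ≤ X := by
    refine le_trans ?_ (hb.trans hpow)
    push_cast
    rw [abs_mul]
    have : (1 : ℝ) ≤ |(c 0 d : ℝ)| := by exact_mod_cast Int.one_le_abs hk0'
    nlinarith [abs_nonneg (y : ℝ)]
  have hX0 : 0 ≤ X := (abs_nonneg _).trans hb'
  have hx' : |(x : ℝ)| ≤ (1 + d) * X := by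
    have h3 : (x : ℝ) = ((x - k * y : ℤ) : ℝ) + k * y := by push_cast; ring
    have hkR : (k : ℝ) ≤ d := by exact_mod_cast hkd
    calc |(x : ℝ)| = |((x - k * y : ℤ) : ℝ) + k * y| := by rw [← h3]
      _ ≤ |((x - k * y : ℤ) : ℝ)| + |(k : ℝ) * y| := abs_add_le _ _
      _ = |((x - k * y : ℤ) : ℝ)| + k * |(y : ℝ)| := by
          rw [abs_mul, abs_of_nonneg (by positivity : (0 : ℝ) ≤ k)]
      _ ≤ X + d * X := add_le_add ha' (mul_le_mul hkR hb' (abs_nonneg _) (by positivity))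
      _ = (1 + d) * X := by ring
  have e1 : (1 + d) * (A * ((1 + d) ^ d) ^ (d * (κ₀ + 1))) * HF F ^ (d * (κ₀ + 1))
      = (1 + d) * X := by rw [hX]; ring
  rw [e1]
  refine ⟨hx', hb'.trans ?_⟩
  have : (0 : ℝ) ≤ d := by positivity
  nlinarith

end Pool.Agent.H20.G
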