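import Mathlib

/-!
# Weighted norms of integer polynomials
-/

set_option autoImplicit false

open Polynomial Finset

namespace Pool.Agent.H20.RU

/-- `∑ |a_i| ρ ^ i` -/
noncomputable def nrm (ρ : ℝ) (p : ℤ[X]) : ℝ := p.sum fun i a => |(a : ℝ)| * ρ ^ i

lemma nrm_eq (ρ : ℝ) (p : ℤ[X]) {n : ℕ} (hn : p.natDegree < n) :
    nrm ρ p = ∑ i ∈ range n, |(p.coeff i : ℝ)| * ρ ^ i :=
  Polynomial.sum_over_range' p (fun i => by simp) n hn

lemma nrm_nonneg {ρ : ℝ} (hρ : 0 ≤ ρ) (p : ℤ[X]) : 0 ≤ nrm ρ p := by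
  rw [nrm_eq ρ p (Nat.lt_succ_self _)]
  exact Finset.sum_nonneg fun i _ => by positivity

lemma nrm_zero (ρ : ℝ) : nrm ρ 0 = 0 := by simp [nrm]

lemma nrm_monomial (ρ : ℝ) (n : ℕ) (a : ℤ) : nrm ρ (monomial n a) = |(a : ℝ)| * ρ ^ n := by
  unfold nrm
  rw [Polynomial.sum_monomial_index]
  simp

lemma nrm_C (ρ : ℝ) (a : ℤ) : nrm ρ (C a) = |(a : ℝ)| := by
  rw [← monomial_zero_left, nrm_monomial]
  simp

lemma nrm_one (ρ : ℝ) : nrm ρ 1 = 1 := by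
  rw [← C_1, nrm_C]
  simp

lemma nrm_X_pow (ρ : ℝ) (n : ℕ) : nrm ρ (X ^ n) = ρ ^ n := by
  rw [← monomial_one_right_eq_X_pow, nrm_monomial]
  simp

lemma nrm_add_le {ρ : ℝ} (hρ : 0 ≤ ρ) (p q : ℤ[X]) : nrm ρ (p + q) ≤ nrm ρ p + nrm ρ q := by
  set n := max (max p.natDegree q.natDegree) (p + q).natDegree + 1 with hn
  rw [nrm_eq ρ p (n := n) (by omega), nrm_eq ρ q (n := n) (by omega),
    nrm_eq ρ (p + q) (n := n) (by omega), ← Finset.sum_add_distrib]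
  refine Finset.sum_le_sum fun i _ => ?_
  rw [← add_mul]
  refine mul_le_mul_of_nonneg_right ?_ (by positivity)
  rw [coeff_add]
  push_cast
  exact abs_add_le _ _

lemma nrm_neg (ρ : ℝ) (p : ℤ[X]) : nrm ρ (-p) = nrm ρ p := by
  rw [nrm_eq ρ p (Nat.lt_succ_self _), nrm_eq ρ (-p) (n := p.natDegree + 1) (by
    rw [natDegree_neg]; exact Nat.lt_succ_self _)]
  refine Finset.sum_congr rfl fun i _ => ?_
  rw [coeff_neg]
  push_cast
  rw [abs_neg]

lemma nrm_sub_le {ρ : ℝ} (hρ : 0 ≤ ρ) (p q : ℤ[X]) : nrm ρ (p - q) ≤ nrm ρ p + nrm ρ q := by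
  rw [sub_eq_add_neg, ← nrm_neg ρ q]
  exact nrm_add_le hρ _ _

lemma nrm_sum_le {ρ : ℝ} (hρ : 0 ≤ ρ) {ι : Type*} (s : Finset ι) (p : ι → ℤ[X]) :
    nrm ρ (∑ i ∈ s, p i) ≤ ∑ i ∈ s, nrm ρ (p i) := by
  classical
  induction s using Finset.induction_on with
  | empty => simp [nrm_zero]
  | insert a s ha ih =>
    rw [sum_insert ha, sum_insert ha]
    exact (nrm_add_le hρ _ _).trans (by linarith)

lemma nrm_mul_le {ρ : ℝ} (hρ : 0 ≤ ρ) (p q : ℤ[X]) : nrm ρ (p * q) ≤ nrm ρ p * nrm ρ q := by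
  have h1 : p * q = ∑ i ∈ range (p.natDegree + 1), ∑ j ∈ range (q.natDegree + 1),
      monomial (i + j) (p.coeff i * q.coeff j) := by
    conv_lhs => rw [p.as_sum_range, q.as_sum_range]
    rw [Finset.sum_mul_sum]
    simp only [monomial_mul_monomial]
  rw [h1, nrm_eq ρ p (Nat.lt_succ_self _), nrm_eq ρ q (Nat.lt_succ_self _), Finset.sum_mul_sum]
  refine (nrm_sum_le hρ _ _).trans (Finset.sum_le_sum fun i _ => ?_)
  refine (nrm_sum_le hρ _ _).trans (Finset.sum_le_sum fun j _ => ?_)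
  rw [nrm_monomial]
  push_cast
  rw [abs_mul, pow_add]
  exact le_of_eq (by ring)

lemma nrm_pow_le {ρ : ℝ} (hρ : 0 ≤ ρ) (p : ℤ[X]) (n : ℕ) : nrm ρ (p ^ n) ≤ nrm ρ p ^ n := by
  induction n with
  | zero => simp [nrm_one]
  | succ n ih =>
    rw [pow_succ, pow_succ]
    exact (nrm_mul_le hρ _ _).trans (mul_le_mul_of_nonneg_right ih (nrm_nonneg hρ _))

lemma abs_coeff_le {ρ : ℝ} (hρ : 0 ≤ ρ) (p : ℤ[X]) (i : ℕ) :
    |(p.coeff i : ℝ)| * ρ ^ i ≤ nrm ρ p := by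
  set n := max p.natDegree i + 1 with hn
  rw [nrm_eq ρ p (n := n) (by omega)]
  exact Finset.single_le_sum (f := fun i => |(p.coeff i : ℝ)| * ρ ^ i)
    (fun j _ => by positivity) (Finset.mem_range.mpr (by omega))

/-- evaluation of a polynomial divisible by `X ^ M` -/
lemma abs_aeval_le {ρ : ℝ} (hρ : 0 < ρ) {p : ℤ[X]} {M : ℕ} (hM : X ^ M ∣ p) {x : ℝ}
    (hx : |x| ≤ ρ) : |aeval x p| ≤ nrm ρ p * (|x| / ρ) ^ M := by
  rw [nrm_eq ρ p (Nat.lt_succ_self _), aeval_eq_sum_range, Finset.sum_mul]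
  refine (Finset.abs_sum_le_sum_abs _ _).trans (Finset.sum_le_sum fun i _ => ?_)
  rw [zsmul_eq_mul, abs_mul, abs_pow]
  by_cases hi : i < M
  · have h0 : p.coeff i = 0 := by
      rw [X_pow_dvd_iff] at hM
      exact hM i hi
    rw [h0]
    simp
  · push Not at hi
    rw [mul_assoc]
    refine mul_le_mul_of_nonneg_left ?_ (abs_nonneg _)
    have h1 : |x| / ρ ≤ 1 := by
      rw [div_le_one hρ]
      exact hx
    have h2 : (|x| / ρ) ^ i ≤ (|x| / ρ) ^ M := pow_le_pow_of_le_one (by positivity) h1 hi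
    have h3 : |x| ^ i = ρ ^ i * (|x| / ρ) ^ i := by
      rw [← mul_pow]
      congr 1
      field_simp
    rw [h3]
    exact mul_le_mul_of_nonneg_left h2 (by positivity)

/-- truncation in degrees `≤ N` -/
noncomputable def tr (N : ℕ) (p : ℤ[X]) : ℤ[X] := ∑ i ∈ range (N + 1), monomial i (p.coeff i)

lemma coeff_tr (N : ℕ) (p : ℤ[X]) (i : ℕ) :
    (tr N p).coeff i = if i ≤ N then p.coeff i else 0 := by
  unfold tr
  rw [finsetSum_coeff]
  simp only [coeff_monomial]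
  rw [Finset.sum_ite_eq']
  simp only [Finset.mem_range, Nat.lt_succ_iff]

lemma tr_dvd (N : ℕ) (p : ℤ[X]) : X ^ (N + 1) ∣ p - tr N p := by
  rw [X_pow_dvd_iff]
  intro d hd
  rw [coeff_sub, coeff_tr, if_pos (by omega), sub_self]

lemma natDegree_tr (N : ℕ) (p : ℤ[X]) : (tr N p).natDegree ≤ N := by
  rw [natDegree_le_iff_coeff_eq_zero]
  intro n hn
  rw [coeff_tr, if_neg (by omega)]

lemma nrm_tr_le {ρ : ℝ} (hρ : 0 ≤ ρ) (N : ℕ) (p : ℤ[X]) : nrm ρ (tr N p) ≤ nrm ρ p := by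
  have h1 := natDegree_tr N p
  rw [nrm_eq ρ (tr N p) (n := max N p.natDegree + 1) (by omega),
    nrm_eq ρ p (n := max N p.natDegree + 1) (by omega)]
  refine Finset.sum_le_sum fun i _ => mul_le_mul_of_nonneg_right ?_ (by positivity)
  rw [coeff_tr]
  split_ifs
  · exact le_rfl
  · simp

end Pool.Agent.H20.RU
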