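import Pool.Agent.H20.RU1

/-!
# The fixed point equation for the expansion at infinity

`v ^ m = ω ^ m u ^ (m N) + ∑ c_j u ^ e_j v ^ l_j`, `v = ω u ^ N (1 + λ θ(ζ))`, `λ = m |ω| ^ m`,
`ζ = 1 / (λ ^ 2 u)`.
-/

set_option autoImplicit false

open Polynomial Finset

namespace Pool.Agent.H20.RU

/-- the data -/
structure Dat (ι : Type) where
  m : ℕ
  N : ℕ
  ω : ℤ
  J : Finset ι
  c : ι → ℤ
  e : ι → ℕ
  l : ι → ℕ
  hm : 2 ≤ m
  hN : 1 ≤ N
  hω : ω ≠ 0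
  hw : ∀ j ∈ J, e j + N * l j + 1 ≤ m * N

namespace Dat

variable {ι : Type} (A : Dat ι)

/-- `|ω| ^ m` -/
def α : ℤ := |A.ω| ^ A.m

/-- `λ = m |ω| ^ m` -/
def lam : ℤ := A.m * A.α

/-- the sign of `ω ^ m` -/
def s : ℤ := (A.ω ^ A.m).sign

/-- the weight of a term -/
def w (j : ι) : ℕ := A.m * A.N - A.e j - A.N * A.l j

def b (j : ι) : ℤ := A.s * A.c j * A.ω ^ A.l j * A.lam ^ (2 * (A.w j - 1))

/-- `((1 + λ θ) ^ m - 1 - m λ θ) / λ ^ 2` -/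
noncomputable def Q2 {R : Type} [CommRing R] (θ : R) : R :=
  ∑ i ∈ range (A.m - 1), (A.m.choose (i + 2) : R) * (A.lam : R) ^ i * θ ^ (i + 2)

noncomputable def T {R : Type} [CommRing R] (x θ : R) : R :=
  ∑ j ∈ A.J, (A.b j : R) * x ^ A.w j * (1 + (A.lam : R) * θ) ^ A.l j - (A.α : R) * A.Q2 θ

lemma α_pos : 0 < A.α := by
  have := A.hω
  unfold α
  positivity

lemma lam_pos : 0 < A.lam := by
  have h1 := A.α_pos
  have h2 := A.hm
  unfold lam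
  have h3 : (0 : ℤ) < A.m := by exact_mod_cast (by omega : 0 < A.m)
  positivity

lemma s_mul : A.s * A.ω ^ A.m = A.α := by
  unfold s α
  rw [Int.sign_mul_self_eq_abs, abs_pow]

lemma s_sq : A.s * A.s = 1 := by
  have h : A.ω ^ A.m ≠ 0 := pow_ne_zero _ A.hω
  rcases lt_or_gt_of_ne h with h1 | h1
  · unfold s
    rw [Int.sign_eq_neg_one_of_neg h1]
    norm_num
  · unfold s
    rw [Int.sign_eq_one_of_pos h1]
    norm_num

lemma w_pos {j : ι} (hj : j ∈ A.J) : 1 ≤ A.w j := by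
  have := A.hw j hj
  unfold w
  omega

lemma w_add {j : ι} (hj : j ∈ A.J) : A.e j + A.N * A.l j + A.w j = A.m * A.N := by
  have := A.hw j hj
  unfold w
  omega

lemma pow_eq {R : Type} [CommRing R] (θ : R) :
    (1 + (A.lam : R) * θ) ^ A.m = 1 + (A.m : R) * (A.lam : R) * θ + (A.lam : R) ^ 2 * A.Q2 θ := by
  obtain ⟨n, hn⟩ : ∃ n, A.m = n + 2 := ⟨A.m - 2, by have := A.hm; omega⟩
  rw [add_comm (1 : R), add_pow]
  unfold Q2
  rw [hn, Finset.sum_range_succ', Finset.sum_range_succ', Finset.mul_sum]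
  have h1 : n + 2 - 1 = n + 1 := by omega
  rw [h1]
  simp only [one_pow, mul_one, pow_zero, Nat.choose_zero_right, Nat.cast_one, zero_add, pow_one,
    Nat.choose_one_right]
  have h2 : ∑ x ∈ range (n + 1), ((A.lam : R) * θ) ^ (x + 1 + 1) * ((n + 2).choose (x + 1 + 1) : R) =
      ∑ x ∈ range (n + 1), (A.lam : R) ^ 2 * (((n + 2).choose (x + 2) : R) * (A.lam : R) ^ x *
        θ ^ (x + 2)) := by
    refine Finset.sum_congr rfl fun x _ => ?_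
    rw [show x + 1 + 1 = x + 2 by ring, mul_pow, pow_add (A.lam : R) x 2]
    ring
  rw [h2]
  ring

/-- the fixed point equation and the original equation -/
lemma key (u Y : ℝ) (hu : 0 < u) :
    (1 + (A.lam : ℝ) * Y) ^ A.m - 1 - ∑ j ∈ A.J, (A.c j : ℝ) * (A.ω : ℝ) ^ A.l j /
      ((A.ω : ℝ) ^ A.m * u ^ A.w j) * (1 + (A.lam : ℝ) * Y) ^ A.l j =
    A.m * A.lam * (Y - A.T (1 / ((A.lam : ℝ) ^ 2 * u)) Y) := by
  have hlam : (0 : ℝ) < A.lam := by exact_mod_cast A.lam_pos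
  have hω : (A.ω : ℝ) ≠ 0 := by exact_mod_cast A.hω
  have hα : (0 : ℝ) < A.α := by exact_mod_cast A.α_pos
  have hs : (A.s : ℝ) * (A.ω : ℝ) ^ A.m = A.α := by exact_mod_cast A.s_mul
  have hs2 : (A.s : ℝ) * A.s = 1 := by exact_mod_cast A.s_sq
  have hl : (A.lam : ℝ) = A.m * A.α := by
    unfold lam
    push_cast
    ring
  rw [A.pow_eq, T, mul_sub, mul_sub, Finset.mul_sum]
  have h1 : ∑ j ∈ A.J, (A.m : ℝ) * A.lam * ((A.b j : ℝ) * (1 / ((A.lam : ℝ) ^ 2 * u)) ^ A.w j *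
      (1 + (A.lam : ℝ) * Y) ^ A.l j) = ∑ j ∈ A.J, (A.c j : ℝ) * (A.ω : ℝ) ^ A.l j /
      ((A.ω : ℝ) ^ A.m * u ^ A.w j) * (1 + (A.lam : ℝ) * Y) ^ A.l j := by
    refine Finset.sum_congr rfl fun j hj => ?_
    rw [← mul_assoc]
    congr 1
    obtain ⟨k, hk⟩ : ∃ k, A.w j = k + 1 := ⟨A.w j - 1, by have := A.w_pos hj; omega⟩
    unfold b
    rw [hk, show k + 1 - 1 = k by omega, div_pow, one_pow, mul_pow, ← pow_mul]
    push_cast
    have e1 : (A.lam : ℝ) ^ (2 * (k + 1)) = (A.lam : ℝ) ^ (2 * k) * (A.lam * A.lam) := by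
      rw [mul_add, pow_add]
      ring
    rw [e1]
    have e2 : (A.lam : ℝ) ^ (2 * k) ≠ 0 := by positivity
    have e3 : (A.s : ℝ) * A.m = A.lam / (A.ω : ℝ) ^ A.m := by
      rw [eq_div_iff (pow_ne_zero _ hω), hl]
      linear_combination (A.m : ℝ) * hs
    have e4 : (A.m : ℝ) * A.lam * ((A.s : ℝ) * A.c j * (A.ω : ℝ) ^ A.l j *
        (A.lam : ℝ) ^ (2 * k) * (1 / ((A.lam : ℝ) ^ (2 * k) * (A.lam * A.lam) * u ^ (k + 1)))) =
        ((A.s : ℝ) * A.m) * (A.c j * (A.ω : ℝ) ^ A.l j) / (A.lam * u ^ (k + 1)) := by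
      field_simp
    rw [e4, e3]
    field_simp
  rw [h1, hl]
  ring

end Dat

end Pool.Agent.H20.RU
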