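import Pool.Agent.H20.RU2

/-!
# The approximate solution of the fixed point equation
-/

set_option autoImplicit false

open Polynomial Finset

namespace Pool.Agent.H20.RU

lemma nrm_intCast (ρ : ℝ) (a : ℤ) : nrm ρ (a : ℤ[X]) = |(a : ℝ)| := by
  rw [← nrm_C ρ a]
  congr 1

lemma nrm_natCast (ρ : ℝ) (a : ℕ) : nrm ρ (a : ℤ[X]) = a := by
  have h := nrm_intCast ρ (a : ℤ)
  simp only [Int.cast_natCast, Nat.abs_cast] at h
  exact h

lemma bern {x : ℝ} (hx : 0 ≤ x) (m : ℕ) (h : m * x ≤ 1) : (1 + x) ^ m * (1 - m * x) ≤ 1 := by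
  induction m with
  | zero => simp
  | succ m ih =>
    have h1 : m * x ≤ 1 := by
      push_cast at h
      linarith
    have h2 := ih h1
    have h3 : (1 + x) ^ (m + 1) * (1 - ((m + 1 : ℕ) : ℝ) * x) =
        (1 + x) ^ m * (1 - m * x) - (1 + x) ^ m * ((m + 1) * x ^ 2) := by
      push_cast
      ring
    rw [h3]
    have h4 : 0 ≤ (1 + x) ^ m * ((m + 1) * x ^ 2) := by positivity
    linarith

lemma bern1 {x : ℝ} (hx : 0 ≤ x) (m : ℕ) (h : m * x ≤ 1 / 4) : (1 + x) ^ m ≤ 4 / 3 := by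
  have h1 := bern hx m (by linarith)
  have h2 : 0 < (1 + x) ^ m := by positivity
  nlinarith

lemma bern2 {x : ℝ} (hx : 0 ≤ x) (m : ℕ) (h : m * x ≤ 1 / 4) :
    (1 + x) ^ m - 1 - m * x ≤ 1 / 12 := by
  have h1 := bern hx m (by linarith)
  have h0 : 0 ≤ (m : ℝ) * x := by positivity
  set y := (m : ℝ) * x
  have h2 : (1 + x) ^ m ≤ 1 / (1 - y) := by
    rw [le_div_iff₀ (by linarith)]
    exact h1
  have h3 : 1 / (1 - y) ≤ 1 + y + 1 / 12 := by
    rw [div_le_iff₀ (by linarith)]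
    nlinarith
  linarith

namespace Dat

variable {ι : Type} (A : Dat ι)

lemma T_cong {t : ℕ} {θ θ' : ℤ[X]} (h1 : X ∣ θ) (h2 : X ∣ θ') (h : X ^ t ∣ θ - θ') :
    X ^ (t + 1) ∣ A.T X θ - A.T X θ' := by
  have h3 : A.T X θ - A.T X θ' = ∑ j ∈ A.J, (A.b j : ℤ[X]) * (X ^ A.w j *
      ((1 + (A.lam : ℤ[X]) * θ) ^ A.l j - (1 + (A.lam : ℤ[X]) * θ') ^ A.l j)) -
      (A.α : ℤ[X]) * ∑ i ∈ range (A.m - 1), (A.m.choose (i + 2) : ℤ[X]) * (A.lam : ℤ[X]) ^ i *
        (θ ^ (i + 2) - θ' ^ (i + 2)) := by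
    unfold T Q2
    have e1 : ∑ j ∈ A.J, (A.b j : ℤ[X]) * (X ^ A.w j *
      ((1 + (A.lam : ℤ[X]) * θ) ^ A.l j - (1 + (A.lam : ℤ[X]) * θ') ^ A.l j)) =
      ∑ j ∈ A.J, (A.b j : ℤ[X]) * X ^ A.w j * (1 + (A.lam : ℤ[X]) * θ) ^ A.l j -
      ∑ j ∈ A.J, (A.b j : ℤ[X]) * X ^ A.w j * (1 + (A.lam : ℤ[X]) * θ') ^ A.l j := by
      rw [← Finset.sum_sub_distrib]
      exact Finset.sum_congr rfl fun j _ => by ring
    have e2 : ∑ i ∈ range (A.m - 1), (A.m.choose (i + 2) : ℤ[X]) * (A.lam : ℤ[X]) ^ i *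
        (θ ^ (i + 2) - θ' ^ (i + 2)) =
        ∑ i ∈ range (A.m - 1), (A.m.choose (i + 2) : ℤ[X]) * (A.lam : ℤ[X]) ^ i * θ ^ (i + 2) -
        ∑ i ∈ range (A.m - 1), (A.m.choose (i + 2) : ℤ[X]) * (A.lam : ℤ[X]) ^ i * θ' ^ (i + 2) := by
      rw [← Finset.sum_sub_distrib]
      exact Finset.sum_congr rfl fun j _ => by ring
    rw [e1, e2]
    ring
  rw [h3]
  refine dvd_sub (Finset.dvd_sum fun j hj => ?_) (Dvd.dvd.mul_left (Finset.dvd_sum fun i _ => ?_) _)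
  · refine Dvd.dvd.mul_left ?_ _
    rw [pow_succ']
    refine mul_dvd_mul (dvd_pow_self X (by have := A.w_pos hj; omega)) ?_
    refine dvd_trans ?_ (sub_dvd_pow_sub_pow _ _ _)
    have : (1 + (A.lam : ℤ[X]) * θ) - (1 + (A.lam : ℤ[X]) * θ') = (A.lam : ℤ[X]) * (θ - θ') := by
      ring
    rw [this]
    exact Dvd.dvd.mul_left h _
  · refine Dvd.dvd.mul_left ?_ _
    have h4 : θ ^ (i + 2) - θ' ^ (i + 2) =
        (θ - θ') * θ ^ (i + 1) + (θ ^ (i + 1) - θ' ^ (i + 1)) * θ' := by ring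
    rw [h4, pow_succ]
    refine dvd_add (mul_dvd_mul h (dvd_pow h1 (by omega))) (mul_dvd_mul ?_ h2)
    exact dvd_trans h (sub_dvd_pow_sub_pow _ _ _)

lemma T_zero : X ∣ A.T (X : ℤ[X]) 0 := by
  unfold T Q2
  refine dvd_sub (Finset.dvd_sum fun j hj => ?_) (Dvd.dvd.mul_left (Finset.dvd_sum fun i _ => ?_) _)
  · refine Dvd.dvd.mul_right (Dvd.dvd.mul_left ?_ _) _
    exact dvd_pow_self X (by have := A.w_pos hj; omega)
  · rw [zero_pow (by omega), mul_zero]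
    exact dvd_zero _

lemma T_dvd {θ : ℤ[X]} (h : X ∣ θ) : X ∣ A.T X θ := by
  have h1 := A.T_cong (t := 0) h (dvd_zero _) (by simp)
  rw [zero_add, pow_one] at h1
  have h2 := dvd_add h1 A.T_zero
  rwa [sub_add_cancel] at h2

/-- bound of the coefficients -/
def Hle (H : ℕ) : Prop := 1 ≤ H ∧ A.α + ∑ j ∈ A.J, |A.c j| ≤ H

lemma T_nrm {H : ℕ} (hH : A.Hle H) {θ : ℤ[X]}
    (hθ : nrm (1 / (8 * H * (A.lam : ℝ) ^ 2)) θ ≤ 1 / (4 * A.m * A.lam)) :
    nrm (1 / (8 * H * (A.lam : ℝ) ^ 2)) (A.T X θ) ≤ 1 / (4 * A.m * A.lam) := by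
  obtain ⟨hH1, hH2⟩ := hH
  have hH1' : (1 : ℝ) ≤ H := by exact_mod_cast hH1
  have hL : (0 : ℝ) < A.lam := by exact_mod_cast A.lam_pos
  have hα : (0 : ℝ) < A.α := by exact_mod_cast A.α_pos
  have hm : (0 : ℝ) < A.m := by
    have := A.hm
    exact_mod_cast (by omega : 0 < A.m)
  have hl : (A.lam : ℝ) = A.m * A.α := by
    unfold lam
    push_cast
    ring
  set ρ : ℝ := 1 / (8 * H * (A.lam : ℝ) ^ 2) with hρ
  have hρ0 : 0 < ρ := by positivity
  set t := nrm ρ θ with ht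
  have ht0 : 0 ≤ t := nrm_nonneg hρ0.le θ
  have hx : (A.m : ℝ) * (A.lam * t) ≤ 1 / 4 := by
    have h1 := mul_le_mul_of_nonneg_left hθ (by positivity : (0 : ℝ) ≤ A.m * A.lam)
    have h2 : (A.m : ℝ) * A.lam * (1 / (4 * A.m * A.lam)) = 1 / 4 := by
      field_simp
    rw [h2] at h1
    linarith
  have hx0 : 0 ≤ (A.lam : ℝ) * t := by positivity
  have h43 := bern1 hx0 A.m hx
  have h12 := bern2 hx0 A.m hx
  -- the norm of `1 + λ θ`
  have hn1 : nrm ρ (1 + (A.lam : ℤ[X]) * θ) ≤ 1 + A.lam * t := by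
    refine (nrm_add_le hρ0.le _ _).trans ?_
    rw [nrm_one]
    have h1 := nrm_mul_le hρ0.le (A.lam : ℤ[X]) θ
    rw [nrm_intCast, abs_of_pos hL] at h1
    linarith
  have hpw : ∀ k : ℕ, k ≤ A.m → nrm ρ (1 + (A.lam : ℤ[X]) * θ) ^ k ≤ 4 / 3 := by
    intro k hk
    refine (pow_le_pow_left₀ (nrm_nonneg hρ0.le _) hn1 k).trans ?_
    exact (pow_le_pow_right₀ (by linarith) hk).trans h43
  -- first part
  have hfirst : nrm ρ (∑ j ∈ A.J, (A.b j : ℤ[X]) * X ^ A.w j * (1 + (A.lam : ℤ[X]) * θ) ^ A.l j) ≤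
      A.α / (6 * (A.lam : ℝ) ^ 2) := by
    refine (nrm_sum_le hρ0.le _ _).trans ?_
    have h1 : ∀ j ∈ A.J, nrm ρ ((A.b j : ℤ[X]) * X ^ A.w j * (1 + (A.lam : ℤ[X]) * θ) ^ A.l j) ≤
        |(A.c j : ℝ)| * (A.α / (8 * H * (A.lam : ℝ) ^ 2) * (4 / 3)) := by
      intro j hj
      obtain ⟨k, hk⟩ : ∃ k, A.w j = k + 1 := ⟨A.w j - 1, by have := A.w_pos hj; omega⟩
      have hlj : A.l j ≤ A.m := by
        have h1 := A.w_add hj
        have h2 := A.hN
        by_contra h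
        push Not at h
        have h3 : A.m * A.N < A.N * A.l j := by
          rw [mul_comm A.m]
          exact Nat.mul_lt_mul_of_pos_left h (by omega)
        omega
      have hb : |(A.b j : ℝ)| ≤ |(A.c j : ℝ)| * A.α * (A.lam : ℝ) ^ (2 * k) := by
        unfold b
        rw [hk, show k + 1 - 1 = k by omega]
        push_cast
        rw [abs_mul, abs_mul, abs_mul, abs_pow, abs_pow, abs_of_pos hL]
        have e1 : |(A.s : ℝ)| = 1 := by
          have h1 : (A.s : ℝ) * A.s = 1 := by exact_mod_cast A.s_sq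
          have h2 : |(A.s : ℝ)| * |(A.s : ℝ)| = 1 := by
            rw [← abs_mul, h1, abs_one]
          nlinarith [abs_nonneg (A.s : ℝ)]
        have e2 : |(A.ω : ℝ)| ^ A.l j ≤ A.α := by
          have h1 : (1 : ℝ) ≤ |(A.ω : ℝ)| := by
            have h2 : (1 : ℤ) ≤ |A.ω| := Int.one_le_abs A.hω
            have h3 : ((1 : ℤ) : ℝ) ≤ ((|A.ω| : ℤ) : ℝ) := by exact_mod_cast h2
            push_cast at h3
            exact h3
          refine (pow_le_pow_right₀ h1 hlj).trans (le_of_eq ?_)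
          unfold α
          push_cast
          rfl
        rw [e1, one_mul]
        refine mul_le_mul_of_nonneg_right ?_ (by positivity)
        exact mul_le_mul_of_nonneg_left e2 (abs_nonneg _)
      have hρk : (A.lam : ℝ) ^ (2 * k) * ρ ^ k ≤ 1 := by
        rw [pow_mul, ← mul_pow]
        apply pow_le_one₀ (by positivity)
        rw [hρ]
        have : (A.lam : ℝ) ^ 2 * (1 / (8 * H * (A.lam : ℝ) ^ 2)) = 1 / (8 * H) := by
          field_simp
        rw [this, div_le_one (by positivity)]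
        linarith
      calc nrm ρ ((A.b j : ℤ[X]) * X ^ A.w j * (1 + (A.lam : ℤ[X]) * θ) ^ A.l j)
          ≤ nrm ρ ((A.b j : ℤ[X]) * X ^ A.w j) * nrm ρ ((1 + (A.lam : ℤ[X]) * θ) ^ A.l j) :=
            nrm_mul_le hρ0.le _ _
        _ ≤ (|(A.b j : ℝ)| * ρ ^ (k + 1)) * (4 / 3) := by
            refine mul_le_mul ?_ ((nrm_pow_le hρ0.le _ _).trans (hpw _ hlj))
              (nrm_nonneg hρ0.le _) (by positivity)
            refine (nrm_mul_le hρ0.le _ _).trans (le_of_eq ?_)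
            rw [nrm_intCast, nrm_X_pow, hk]
        _ ≤ (|(A.c j : ℝ)| * A.α * (A.lam : ℝ) ^ (2 * k) * ρ ^ (k + 1)) * (4 / 3) := by
            refine mul_le_mul_of_nonneg_right ?_ (by norm_num)
            exact mul_le_mul_of_nonneg_right hb (by positivity)
        _ = |(A.c j : ℝ)| * (A.α * ρ * (4 / 3)) * ((A.lam : ℝ) ^ (2 * k) * ρ ^ k) := by
            rw [pow_succ]
            ring
        _ ≤ |(A.c j : ℝ)| * (A.α * ρ * (4 / 3)) * 1 := by
            refine mul_le_mul_of_nonneg_left hρk (by positivity)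
        _ = |(A.c j : ℝ)| * (A.α / (8 * H * (A.lam : ℝ) ^ 2) * (4 / 3)) := by
            rw [hρ]
            ring
    refine (Finset.sum_le_sum h1).trans ?_
    rw [← Finset.sum_mul]
    have h2 : ∑ j ∈ A.J, |(A.c j : ℝ)| ≤ H := by
      have h3 : ((A.α + ∑ j ∈ A.J, |A.c j| : ℤ) : ℝ) ≤ (H : ℤ) := by exact_mod_cast hH2
      push_cast at h3
      linarith
    refine (mul_le_mul_of_nonneg_right h2 (by positivity)).trans (le_of_eq ?_)
    field_simp
    ring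
  -- second part
  have hsecond : nrm ρ ((A.α : ℤ[X]) * A.Q2 θ) ≤ A.α / (12 * (A.lam : ℝ) ^ 2) := by
    have h1 : nrm ρ (A.Q2 θ) ≤ A.Q2 t := by
      unfold Q2
      refine (nrm_sum_le hρ0.le _ _).trans (Finset.sum_le_sum fun i _ => ?_)
      refine (nrm_mul_le hρ0.le _ _).trans ?_
      refine mul_le_mul ?_ (nrm_pow_le hρ0.le _ _) (nrm_nonneg hρ0.le _) (by positivity)
      refine (nrm_mul_le hρ0.le _ _).trans ?_
      rw [nrm_natCast]
      refine mul_le_mul_of_nonneg_left ?_ (by positivity)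
      refine (nrm_pow_le hρ0.le _ _).trans ?_
      rw [nrm_intCast, abs_of_pos hL]
    have h2 := A.pow_eq t
    have h3 : (A.lam : ℝ) ^ 2 * A.Q2 t ≤ 1 / 12 := by
      linarith
    have h4 : A.Q2 t ≤ 1 / (12 * (A.lam : ℝ) ^ 2) := by
      rw [le_div_iff₀ (by positivity)]
      linarith
    refine (nrm_mul_le hρ0.le _ _).trans ?_
    rw [nrm_intCast, abs_of_pos hα]
    refine (mul_le_mul_of_nonneg_left (h1.trans h4) hα.le).trans (le_of_eq ?_)
    ring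
  have h5 : nrm ρ (A.T X θ) ≤ A.α / (6 * (A.lam : ℝ) ^ 2) + A.α / (12 * (A.lam : ℝ) ^ 2) := by
    unfold T
    exact (nrm_sub_le hρ0.le _ _).trans (add_le_add hfirst hsecond)
  refine h5.trans (le_of_eq ?_)
  rw [hl]
  field_simp
  ring

/-- the approximations -/
noncomputable def th : ℕ → ℤ[X]
  | 0 => 0
  | t + 1 => tr A.N (A.T X (th t))

lemma tr_dvd_X (N : ℕ) {p : ℤ[X]} (h : X ∣ p) : X ∣ tr N p := by
  have h1 := tr_dvd N p
  have h2 : (X : ℤ[X]) ∣ p - tr N p := dvd_trans (dvd_pow_self X (by omega)) h1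
  have h3 := dvd_sub h h2
  rwa [sub_sub_cancel] at h3

lemma th_X (t : ℕ) : X ∣ A.th t := by
  induction t with
  | zero => exact dvd_zero _
  | succ t ih => exact tr_dvd_X _ (A.T_dvd ih)

lemma th_nrm {H : ℕ} (hH : A.Hle H) (t : ℕ) :
    nrm (1 / (8 * H * (A.lam : ℝ) ^ 2)) (A.th t) ≤ 1 / (4 * A.m * A.lam) := by
  have hL : (0 : ℝ) < A.lam := by exact_mod_cast A.lam_pos
  have hρ0 : (0 : ℝ) ≤ 1 / (8 * H * (A.lam : ℝ) ^ 2) := by positivity
  induction t with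
  | zero =>
    rw [th, nrm_zero]
    positivity
  | succ t ih => exact (nrm_tr_le hρ0 _ _).trans (A.T_nrm hH ih)

lemma th_succ (t : ℕ) (ht : t ≤ A.N) : X ^ (t + 1) ∣ A.th (t + 1) - A.th t := by
  induction t with
  | zero =>
    have h := A.th_X 1
    simpa [th] using h
  | succ t ih =>
    have h1 := A.T_cong (A.th_X (t + 1)) (A.th_X t) (ih (by omega))
    have h2 : (X : ℤ[X]) ^ (t + 1 + 1) ∣ A.T X (A.th (t + 1)) - tr A.N (A.T X (A.th (t + 1))) :=
      dvd_trans (pow_dvd_pow X (by omega)) (tr_dvd A.N _)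
    have h3 : (X : ℤ[X]) ^ (t + 1 + 1) ∣ A.T X (A.th t) - tr A.N (A.T X (A.th t)) :=
      dvd_trans (pow_dvd_pow X (by omega)) (tr_dvd A.N _)
    have h4 := dvd_sub (dvd_add h1 h3) h2
    convert h4 using 1
    simp only [th]
    ring

/-- the expansion -/
noncomputable def θ : ℤ[X] := A.th A.N

lemma θ_fix : X ^ (A.N + 1) ∣ A.T X A.θ - A.θ := by
  have h1 := A.th_succ A.N le_rfl
  have h2 := tr_dvd A.N (A.T X (A.th A.N))
  have h3 := dvd_add h1 h2
  convert h3 using 1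
  simp only [th, θ]
  ring

lemma θ_deg : A.θ.natDegree ≤ A.N := by
  unfold θ
  rcases Nat.eq_zero_or_pos A.N with h | h
  · rw [h, th]
    simp
  · obtain ⟨k, hk⟩ : ∃ k, A.N = k + 1 := ⟨A.N - 1, by omega⟩
    conv_lhs => rw [hk, th]
    exact natDegree_tr _ _

end Dat

end Pool.Agent.H20.RU
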