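import Pool.Agent.H20.RU3

/-!
# The real estimate
-/

set_option autoImplicit false

open Polynomial Finset

namespace Pool.Agent.H20.RU

namespace Dat

variable {ι : Type} (A : Dat ι)

lemma aeval_T (x : ℝ) (θ : ℤ[X]) : aeval x (A.T X θ) = A.T x (aeval x θ) := by
  unfold T Q2
  simp only [map_sub, map_sum, map_mul, map_pow, map_add, map_one, map_intCast, map_natCast,
    aeval_X]

/-- the point `ζ = 1 / (λ ^ 2 u)` -/
noncomputable def z (u : ℝ) : ℝ := 1 / ((A.lam : ℝ) ^ 2 * u)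

/-- the value of the expansion -/
noncomputable def Phi (u : ℝ) : ℝ := 1 + A.lam * aeval (A.z u) A.θ

/-- the coefficients of the normalised equation -/
noncomputable def d (u : ℝ) (j : ι) : ℝ :=
  (A.c j : ℝ) * (A.ω : ℝ) ^ A.l j / ((A.ω : ℝ) ^ A.m * u ^ A.w j)

lemma lam_pos' : (0 : ℝ) < A.lam := by exact_mod_cast A.lam_pos

lemma m_pos' : (0 : ℝ) < A.m := by
  have := A.hm
  exact_mod_cast (by omega : 0 < A.m)

lemma z_div {H : ℕ} (hH : 1 ≤ H) {u : ℝ} (hu : 0 < u) :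
    |A.z u| / (1 / (8 * H * (A.lam : ℝ) ^ 2)) = 8 * H / u := by
  have h1 := A.lam_pos'
  have h2 : (0 : ℝ) < H := by exact_mod_cast hH
  unfold z
  rw [abs_of_pos (by positivity)]
  field_simp

lemma z_le {H : ℕ} (hH : 1 ≤ H) {u : ℝ} (hu : 8 * H ≤ u) :
    |A.z u| ≤ 1 / (8 * H * (A.lam : ℝ) ^ 2) := by
  have h1 := A.lam_pos'
  have h2 : (0 : ℝ) < H := by exact_mod_cast hH
  have hu0 : 0 < u := by linarith
  unfold z
  rw [abs_of_pos (by positivity)]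
  apply one_div_le_one_div_of_le (by positivity)
  nlinarith [sq_nonneg (A.lam : ℝ), mul_le_mul_of_nonneg_right hu (sq_nonneg (A.lam : ℝ))]

lemma Phi_close {H : ℕ} (hH : A.Hle H) {u : ℝ} (hu : 8 * H ≤ u) :
    |A.Phi u - 1| ≤ 1 / (4 * A.m) := by
  have h1 := A.lam_pos'
  have hm := A.m_pos'
  have h2 : (0 : ℝ) < H := by exact_mod_cast hH.1
  have hu0 : 0 < u := by linarith
  have hz := A.z_le hH.1 hu
  have h3 := abs_aeval_le (ρ := 1 / (8 * H * (A.lam : ℝ) ^ 2)) (by positivity) (p := A.θ) (M := 0)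
    (by simp) hz
  have h4 := A.th_nrm hH A.N
  rw [pow_zero, mul_one] at h3
  have h5 : A.Phi u - 1 = A.lam * aeval (A.z u) A.θ := by
    unfold Phi
    ring
  rw [h5, abs_mul, abs_of_pos h1]
  have h6 := mul_le_mul_of_nonneg_left (h3.trans h4) h1.le
  refine h6.trans (le_of_eq ?_)
  field_simp

lemma err {H : ℕ} (hH : A.Hle H) {u : ℝ} (hu : 8 * H ≤ u) :
    |A.Phi u ^ A.m - 1 - ∑ j ∈ A.J, A.d u j * A.Phi u ^ A.l j| ≤
      1 / 2 * (8 * H / u) ^ (A.N + 1) := by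
  have h1 := A.lam_pos'
  have hm := A.m_pos'
  have h2 : (0 : ℝ) < H := by exact_mod_cast hH.1
  have hu0 : 0 < u := by linarith
  have hz := A.z_le hH.1 hu
  have hk := A.key u (aeval (A.z u) A.θ) hu0
  have hρ : (0 : ℝ) < 1 / (8 * H * (A.lam : ℝ) ^ 2) := by positivity
  have h3 := abs_aeval_le (ρ := 1 / (8 * H * (A.lam : ℝ) ^ 2)) hρ
    (p := A.T X A.θ - A.θ) (M := A.N + 1) A.θ_fix hz
  rw [A.z_div hH.1 hu0] at h3
  have h4 := A.th_nrm hH A.N
  have h5 := A.T_nrm hH h4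
  have h6 : nrm (1 / (8 * H * (A.lam : ℝ) ^ 2)) (A.T X A.θ - A.θ) ≤
      1 / (4 * A.m * A.lam) + 1 / (4 * A.m * A.lam) :=
    (nrm_sub_le hρ.le _ _).trans (add_le_add h5 h4)
  have h7 : aeval (A.z u) (A.T X A.θ - A.θ) =
      A.T (1 / ((A.lam : ℝ) ^ 2 * u)) (aeval (A.z u) A.θ) - aeval (A.z u) A.θ := by
    rw [map_sub, aeval_T]
    rfl
  have h8 : A.Phi u ^ A.m - 1 - ∑ j ∈ A.J, A.d u j * A.Phi u ^ A.l j =
      -(A.m * A.lam * aeval (A.z u) (A.T X A.θ - A.θ)) := by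
    rw [h7]
    unfold Phi d
    rw [hk]
    ring
  rw [h8, abs_neg, abs_mul, abs_of_pos (by positivity : (0 : ℝ) < A.m * A.lam)]
  have h9 : (0 : ℝ) ≤ (8 * H / u) ^ (A.N + 1) := by positivity
  have h10 := h3.trans (mul_le_mul_of_nonneg_right h6 h9)
  refine (mul_le_mul_of_nonneg_left h10 (by positivity)).trans (le_of_eq ?_)
  field_simp
  ring

lemma l_lt {j : ι} (hj : j ∈ A.J) : A.l j < A.m := by
  have h1 := A.w_add hj
  have h2 := A.w_pos hj
  by_contra h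
  push Not at h
  have h3 : A.m * A.N ≤ A.N * A.l j := by
    rw [mul_comm A.m]
    exact Nat.mul_le_mul_left _ h
  omega

lemma one_le_ω : (1 : ℝ) ≤ |(A.ω : ℝ)| := by
  have h2 : (1 : ℤ) ≤ |A.ω| := Int.one_le_abs A.hω
  have h3 : ((1 : ℤ) : ℝ) ≤ ((|A.ω| : ℤ) : ℝ) := by exact_mod_cast h2
  push_cast at h3
  exact h3

lemma d_le {u : ℝ} (hu : 1 ≤ u) {j : ι} (hj : j ∈ A.J) : |A.d u j| ≤ |(A.c j : ℝ)| / u := by
  have h1 := A.one_le_ω
  have h2 := A.l_lt hj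
  have h3 := A.w_pos hj
  have hu0 : 0 < u := by linarith
  unfold d
  rw [abs_div, abs_mul, abs_mul, abs_pow, abs_pow, abs_pow, abs_of_pos hu0]
  rw [div_le_div_iff₀ (by positivity) hu0]
  have h4 : |(A.ω : ℝ)| ^ A.l j ≤ |(A.ω : ℝ)| ^ A.m := pow_le_pow_right₀ h1 h2.le
  have h5 : u ≤ u ^ A.w j := by
    calc u = u ^ 1 := (pow_one u).symm
      _ ≤ u ^ A.w j := pow_le_pow_right₀ hu h3
  rw [mul_assoc]
  refine mul_le_mul_of_nonneg_left ?_ (abs_nonneg _)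
  exact mul_le_mul h4 h5 hu0.le (by positivity)

lemma sum_d_le {H : ℕ} (hH : A.Hle H) {u : ℝ} (hu : 1 ≤ u) : ∑ j ∈ A.J, |A.d u j| ≤ H / u := by
  have hu0 : 0 < u := by linarith
  have h1 : ∑ j ∈ A.J, |A.d u j| ≤ ∑ j ∈ A.J, |(A.c j : ℝ)| / u :=
    Finset.sum_le_sum fun j hj => A.d_le hu hj
  refine h1.trans ?_
  rw [← Finset.sum_div]
  refine div_le_div_of_nonneg_right ?_ hu0.le
  have h3 : ((A.α + ∑ j ∈ A.J, |A.c j| : ℤ) : ℝ) ≤ (H : ℤ) := by exact_mod_cast hH.2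
  have hα : (0 : ℝ) < A.α := by exact_mod_cast A.α_pos
  push_cast at h3
  linarith

/-- the main estimate -/
lemma V_close {H : ℕ} (hH : A.Hle H) {u : ℝ} (hu : 8 * H ≤ u) (hu' : 4 * H * A.m * 2 ^ A.m ≤ u)
    {V : ℝ} (hV0 : 0 < V) (hV2 : V ≤ 2)
    (hV : V ^ A.m - 1 - ∑ j ∈ A.J, A.d u j * V ^ A.l j = 0) :
    |V - A.Phi u| ≤ (8 * H / u) ^ (A.N + 1) := by
  have hm := A.m_pos'
  have hm2 : (2 : ℝ) ≤ A.m := by exact_mod_cast A.hm
  have h2 : (1 : ℝ) ≤ H := by exact_mod_cast hH.1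
  have hu1 : 1 ≤ u := by linarith
  have hu0 : 0 < u := by linarith
  have hΦ := A.Phi_close hH hu
  have he := A.err hH hu
  set Φ := A.Phi u with hΦdef
  have hΦ1 : 1 - 1 / (4 * A.m) ≤ Φ := by
    have := (abs_le.mp hΦ).1
    linarith
  have hq : 1 / (4 * (A.m : ℝ)) ≤ 1 / 8 := by
    apply one_div_le_one_div_of_le (by norm_num)
    linarith
  have hΦ0 : 0 < Φ := by linarith
  have hΦ2 : Φ ≤ 2 := by
    have := (abs_le.mp hΦ).2
    linarith
  -- the difference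
  have hdiff : V ^ A.m - Φ ^ A.m = ∑ j ∈ A.J, A.d u j * (V ^ A.l j - Φ ^ A.l j) -
      (Φ ^ A.m - 1 - ∑ j ∈ A.J, A.d u j * Φ ^ A.l j) := by
    have h3 : ∑ j ∈ A.J, A.d u j * (V ^ A.l j - Φ ^ A.l j) =
        ∑ j ∈ A.J, A.d u j * V ^ A.l j - ∑ j ∈ A.J, A.d u j * Φ ^ A.l j := by
      rw [← Finset.sum_sub_distrib]
      exact Finset.sum_congr rfl fun j _ => by ring
    rw [h3]
    linarith
  -- lower bound
  have hlow : 3 / 4 * |V - Φ| ≤ |V ^ A.m - Φ ^ A.m| := by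
    rw [← geom_sum₂_mul V Φ A.m, abs_mul]
    refine mul_le_mul_of_nonneg_right ?_ (abs_nonneg _)
    have h3 : Φ ^ (A.m - 1) ≤ ∑ i ∈ range A.m, V ^ i * Φ ^ (A.m - 1 - i) := by
      have h4 := Finset.single_le_sum (f := fun i => V ^ i * Φ ^ (A.m - 1 - i))
        (s := range A.m) (fun i _ => by positivity)
        (Finset.mem_range.mpr (by have := A.hm; omega : 0 < A.m))
      simpa using h4
    have h5 : 3 / 4 ≤ Φ ^ (A.m - 1) := by
      have h6 : (1 - 1 / (4 * (A.m : ℝ))) ^ (A.m - 1) ≤ Φ ^ (A.m - 1) :=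
        pow_le_pow_left₀ (by linarith) hΦ1 _
      have h7 := one_add_mul_le_pow (a := -(1 / (4 * (A.m : ℝ)))) (by linarith) (A.m - 1)
      have h8 : ((A.m - 1 : ℕ) : ℝ) * (1 / (4 * (A.m : ℝ))) ≤ 1 / 4 := by
        rw [mul_one_div, div_le_iff₀ (by positivity)]
        rw [Nat.cast_sub (by have := A.hm; omega)]
        push_cast
        linarith
      have h9 : 1 + -(1 / (4 * (A.m : ℝ))) = 1 - 1 / (4 * (A.m : ℝ)) := by ring
      rw [h9] at h7
      linarith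
    exact (h5.trans h3).trans (le_abs_self _)
  -- upper bound
  have hup : |∑ j ∈ A.J, A.d u j * (V ^ A.l j - Φ ^ A.l j)| ≤
      |V - Φ| * (1 / 4) := by
    have h3 : ∀ j ∈ A.J, |A.d u j * (V ^ A.l j - Φ ^ A.l j)| ≤
        |A.d u j| * (|V - Φ| * (A.m * 2 ^ A.m)) := by
      intro j hj
      rw [abs_mul]
      refine mul_le_mul_of_nonneg_left ?_ (abs_nonneg _)
      refine (abs_pow_sub_pow_le V Φ (A.l j)).trans ?_
      rw [mul_assoc]
      refine mul_le_mul_of_nonneg_left ?_ (abs_nonneg _)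
      have hl := A.l_lt hj
      have h4 : max |V| |Φ| ≤ 2 := by
        rw [abs_of_pos hV0, abs_of_pos hΦ0]
        exact max_le hV2 hΦ2
      have h5 : (A.l j : ℝ) ≤ A.m := by exact_mod_cast hl.le
      refine mul_le_mul h5 ?_ (by positivity) hm.le
      refine (pow_le_pow_left₀ (by positivity) h4 _).trans ?_
      exact pow_le_pow_right₀ (by norm_num) (by omega)
    refine (Finset.abs_sum_le_sum_abs _ _).trans ((Finset.sum_le_sum h3).trans ?_)
    rw [← Finset.sum_mul]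
    have h6 := A.sum_d_le hH hu1
    refine (mul_le_mul_of_nonneg_right h6 (by positivity)).trans ?_
    rw [show (H : ℝ) / u * (|V - Φ| * (A.m * 2 ^ A.m)) = |V - Φ| * (H * A.m * 2 ^ A.m / u) by ring]
    refine mul_le_mul_of_nonneg_left ?_ (abs_nonneg _)
    rw [div_le_iff₀ hu0]
    linarith
  have h10 : |V ^ A.m - Φ ^ A.m| ≤ |V - Φ| * (1 / 4) + 1 / 2 * (8 * H / u) ^ (A.N + 1) := by
    rw [hdiff]
    refine (abs_sub _ _).trans ?_
    exact add_le_add hup he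
  linarith

end Dat

end Pool.Agent.H20.RU
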