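import Pool.Agent.H20.RU4

/-!
# Large solutions lie on the branch, and the final alternative
-/

set_option autoImplicit false

open Polynomial Finset

namespace Pool.Agent.H20.RU

/-- a positive integral root of a nonzero polynomial is at most the norm -/
lemma root_le {W : ℤ[X]} (hW : W ≠ 0) {u : ℤ} (hu : 0 < u) (h : W.eval u = 0) :
    (u : ℝ) ≤ nrm 1 W := by
  obtain ⟨n, W', hW', hne⟩ : ∃ n, ∃ W' : ℤ[X], W = X ^ n * W' ∧ ¬ X ∣ W' := by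
    obtain ⟨W', h1, h2⟩ := exists_eq_pow_rootMultiplicity_mul_and_not_dvd W hW 0
    exact ⟨_, W', by simpa using h1, by simpa using h2⟩
  have h0 : W'.coeff 0 ≠ 0 := fun h1 => hne (X_dvd_iff.mpr h1)
  have h2 : W'.eval u = 0 := by
    rw [hW', eval_mul, eval_pow, eval_X] at h
    rcases mul_eq_zero.mp h with h1 | h1
    · exact absurd h1 (pow_ne_zero _ hu.ne')
    · exact h1
  have h3 : u ∣ W'.coeff 0 := by
    have h4 := sub_dvd_eval_sub u 0 W'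
    rw [h2, sub_zero, zero_sub, dvd_neg] at h4
    rwa [coeff_zero_eq_eval_zero]
  have h5 : u ≤ |W'.coeff 0| := Int.le_of_dvd (abs_pos.mpr h0) ((dvd_abs _ _).mpr h3)
  have h6 : W'.coeff 0 = W.coeff n := by
    rw [hW', mul_comm]
    have := coeff_mul_X_pow W' n 0
    rw [zero_add] at this
    exact this.symm
  have h7 := abs_coeff_le (ρ := 1) (by norm_num) W n
  rw [one_pow, mul_one, ← h6] at h7
  have h8 : (u : ℝ) ≤ ((|W'.coeff 0| : ℤ) : ℝ) := by exact_mod_cast h5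
  push_cast at h8
  linarith

namespace Dat

variable {ι : Type} (A : Dat ι)

/-- `λ ^ (2 N)` times the branch -/
noncomputable def Pz : ℤ[X] := C A.ω * (monomial A.N (A.lam ^ (2 * A.N)) +
  ∑ i ∈ range (A.N + 1), monomial (A.N - i) (A.lam * A.θ.coeff i * A.lam ^ (2 * (A.N - i))))

lemma aeval_Pz {u : ℝ} (hu : 0 < u) :
    aeval u A.Pz = (A.lam : ℝ) ^ (2 * A.N) * A.ω * u ^ A.N * A.Phi u := by
  have hL := A.lam_pos'
  have h1 : aeval (A.z u) A.θ = ∑ i ∈ range (A.N + 1), (A.θ.coeff i : ℝ) * (A.z u) ^ i := by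
    rw [aeval_eq_sum_range' (n := A.N + 1) (by have := A.θ_deg; omega)]
    exact Finset.sum_congr rfl fun i _ => by rw [zsmul_eq_mul]
  have h2 : ∀ i ∈ range (A.N + 1), (A.lam : ℝ) ^ (2 * A.N) * u ^ A.N * (A.z u) ^ i =
      (A.lam : ℝ) ^ (2 * (A.N - i)) * u ^ (A.N - i) := by
    intro i hi
    rw [Finset.mem_range, Nat.lt_succ_iff] at hi
    obtain ⟨k, hk⟩ := Nat.exists_eq_add_of_le hi
    have h3 : A.N - i = k := by omega
    rw [h3, hk]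
    unfold z
    rw [div_pow, one_pow, mul_pow, mul_add, pow_add, pow_add, ← pow_mul]
    field_simp
  unfold Pz Phi
  rw [map_mul, map_add, map_sum, h1, aeval_C, aeval_monomial]
  have h4 : ∀ i ∈ range (A.N + 1), aeval u (monomial (A.N - i)
      (A.lam * A.θ.coeff i * A.lam ^ (2 * (A.N - i)))) =
      A.lam * ((A.θ.coeff i : ℝ) * ((A.lam : ℝ) ^ (2 * A.N) * u ^ A.N * (A.z u) ^ i)) := by
    intro i hi
    rw [aeval_monomial, h2 i hi]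
    simp only [algebraMap_int_eq, eq_intCast]
    push_cast
    ring
  rw [Finset.sum_congr rfl h4]
  simp only [algebraMap_int_eq, eq_intCast]
  push_cast
  have h5 : ∑ i ∈ range (A.N + 1), (A.lam : ℝ) * ((A.θ.coeff i : ℝ) *
      ((A.lam : ℝ) ^ (2 * A.N) * u ^ A.N * (A.z u) ^ i)) =
      (A.lam : ℝ) ^ (2 * A.N) * u ^ A.N * (A.lam * ∑ i ∈ range (A.N + 1),
        (A.θ.coeff i : ℝ) * (A.z u) ^ i) := by
    rw [Finset.mul_sum, Finset.mul_sum]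
    exact Finset.sum_congr rfl fun i _ => by ring
  rw [h5]
  ring

lemma nrm_Pz {H : ℕ} (hH : A.Hle H) :
    nrm 1 A.Pz ≤ |(A.ω : ℝ)| * (A.lam : ℝ) ^ (2 * A.N) * (8 * H) ^ A.N := by
  have hL := A.lam_pos'
  have hm := A.m_pos'
  have hm2 : (2 : ℝ) ≤ A.m := by exact_mod_cast A.hm
  have hH1 : (1 : ℝ) ≤ H := by exact_mod_cast hH.1
  have h4 := A.th_nrm hH A.N
  set ρ : ℝ := 1 / (8 * H * (A.lam : ℝ) ^ 2) with hρ
  have hρ0 : 0 < ρ := by positivity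
  have h5 : nrm ρ A.θ = ∑ i ∈ range (A.N + 1), |(A.θ.coeff i : ℝ)| * ρ ^ i :=
    nrm_eq ρ A.θ (by have := A.θ_deg; omega)
  have h6 : ∀ i ∈ range (A.N + 1), (A.lam : ℝ) ^ (2 * (A.N - i)) ≤
      (A.lam : ℝ) ^ (2 * A.N) * (8 * H) ^ A.N * ρ ^ i := by
    intro i hi
    rw [Finset.mem_range, Nat.lt_succ_iff] at hi
    obtain ⟨k, hk⟩ := Nat.exists_eq_add_of_le hi
    have h3 : A.N - i = k := by omega
    rw [h3, hk, hρ, div_pow, one_pow, mul_pow (8 * (H : ℝ)) ((A.lam : ℝ) ^ 2) i, mul_add,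
      pow_add (A.lam : ℝ), pow_add (8 * (H : ℝ)), ← pow_mul]
    have h7 : (A.lam : ℝ) ^ (2 * i) * (A.lam : ℝ) ^ (2 * k) * ((8 * H) ^ i * (8 * H) ^ k) *
        (1 / ((8 * (H : ℝ)) ^ i * (A.lam : ℝ) ^ (2 * i))) = (A.lam : ℝ) ^ (2 * k) * (8 * H) ^ k := by
      field_simp
    rw [h7]
    have h8 : (1 : ℝ) ≤ (8 * H) ^ k := one_le_pow₀ (by linarith)
    nlinarith [pow_pos hL (2 * k)]
  have h7 : nrm 1 (∑ i ∈ range (A.N + 1),
      monomial (A.N - i) (A.lam * A.θ.coeff i * A.lam ^ (2 * (A.N - i)))) ≤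
      A.lam * ((A.lam : ℝ) ^ (2 * A.N) * (8 * H) ^ A.N * nrm ρ A.θ) := by
    refine (nrm_sum_le (by norm_num) _ _).trans ?_
    rw [h5, Finset.mul_sum, Finset.mul_sum]
    refine Finset.sum_le_sum fun i hi => ?_
    rw [nrm_monomial, one_pow, mul_one]
    push_cast
    rw [abs_mul, abs_mul, abs_pow, abs_of_pos hL, mul_assoc]
    refine mul_le_mul_of_nonneg_left ?_ hL.le
    have h8 := mul_le_mul_of_nonneg_left (h6 i hi) (abs_nonneg (A.θ.coeff i : ℝ))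
    refine h8.trans (le_of_eq (by ring))
  have h8 : nrm 1 A.Pz ≤ |(A.ω : ℝ)| * ((A.lam : ℝ) ^ (2 * A.N) +
      A.lam * ((A.lam : ℝ) ^ (2 * A.N) * (8 * H) ^ A.N * nrm ρ A.θ)) := by
    unfold Pz
    refine (nrm_mul_le (by norm_num) _ _).trans ?_
    rw [nrm_C]
    refine mul_le_mul_of_nonneg_left ?_ (abs_nonneg _)
    refine (nrm_add_le (by norm_num) _ _).trans ?_
    refine add_le_add (le_of_eq ?_) h7
    rw [nrm_monomial, one_pow, mul_one]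
    push_cast
    rw [abs_pow, abs_of_pos hL]
  refine h8.trans ?_
  rw [mul_assoc |(A.ω : ℝ)|]
  refine mul_le_mul_of_nonneg_left ?_ (abs_nonneg _)
  have hE : (8 : ℝ) ≤ (8 * H) ^ A.N := by
    calc (8 : ℝ) ≤ 8 * H := by linarith
      _ = (8 * (H : ℝ)) ^ 1 := (pow_one _).symm
      _ ≤ (8 * H) ^ A.N := pow_le_pow_right₀ (by linarith) A.hN
  have hLN : 0 < (A.lam : ℝ) ^ (2 * A.N) := by positivity
  have h9 : A.lam * ((A.lam : ℝ) ^ (2 * A.N) * (8 * H) ^ A.N * nrm ρ A.θ) ≤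
      (A.lam : ℝ) ^ (2 * A.N) * ((8 * H) ^ A.N * (1 / 8)) := by
    have h10 : (A.lam : ℝ) * nrm ρ A.θ ≤ 1 / 8 := by
      have h11 := mul_le_mul_of_nonneg_left h4 hL.le
      refine h11.trans ?_
      have h12 : (A.lam : ℝ) * (1 / (4 * A.m * A.lam)) = 1 / (4 * A.m) := by field_simp
      rw [h12]
      apply one_div_le_one_div_of_le (by norm_num)
      linarith
    have h13 : (0 : ℝ) ≤ (A.lam : ℝ) ^ (2 * A.N) * (8 * H) ^ A.N := by positivity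
    nlinarith [mul_le_mul_of_nonneg_left h10 h13]
  nlinarith [mul_le_mul_of_nonneg_left hE hLN.le]

/-- the equation -/
def Eq (u v : ℤ) : Prop :=
  v ^ A.m = A.ω ^ A.m * u ^ (A.m * A.N) + ∑ j ∈ A.J, A.c j * u ^ A.e j * v ^ A.l j

/-- the equation with the branch substituted -/
noncomputable def W : ℤ[X] := A.Pz ^ A.m - C (A.ω ^ A.m * A.lam ^ (2 * A.N * A.m)) *
  X ^ (A.m * A.N) - ∑ j ∈ A.J, C (A.c j * A.lam ^ (2 * A.N * (A.m - A.l j))) * X ^ A.e j *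
    A.Pz ^ A.l j

lemma W_eval {u v : ℤ} (h : A.Pz.eval u = A.lam ^ (2 * A.N) * v) :
    A.W.eval u = (A.lam ^ (2 * A.N)) ^ A.m * (v ^ A.m - A.ω ^ A.m * u ^ (A.m * A.N) -
      ∑ j ∈ A.J, A.c j * u ^ A.e j * v ^ A.l j) := by
  unfold W
  rw [eval_sub, eval_sub, eval_finsetSum, eval_pow, eval_mul, eval_C, eval_pow, eval_X, h]
  have h1 : ∀ j ∈ A.J, (C (A.c j * A.lam ^ (2 * A.N * (A.m - A.l j))) * X ^ A.e j *
      A.Pz ^ A.l j).eval u = (A.lam ^ (2 * A.N)) ^ A.m * (A.c j * u ^ A.e j * v ^ A.l j) := by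
    intro j hj
    have h2 := A.l_lt hj
    obtain ⟨k, hk⟩ := Nat.exists_eq_add_of_le h2.le
    have h3 : A.m - A.l j = k := by omega
    rw [eval_mul, eval_mul, eval_C, eval_pow, eval_X, eval_pow, h, h3]
    conv_rhs => rw [hk, pow_add]
    rw [mul_pow, pow_mul A.lam (2 * A.N) k]
    ring
  rw [Finset.sum_congr rfl h1, ← Finset.mul_sum, mul_pow, pow_mul A.lam (2 * A.N) A.m]
  ring

lemma nrm_W {H : ℕ} (hH : A.Hle H) : nrm 1 A.W ≤
    (H + 1) * (|(A.ω : ℝ)| * (A.lam : ℝ) ^ (2 * A.N) * (8 * H) ^ A.N) ^ A.m := by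
  have hL := A.lam_pos'
  have hL1 : (1 : ℝ) ≤ A.lam := by
    have h1 := A.lam_pos
    exact_mod_cast h1
  have hH1 : (1 : ℝ) ≤ H := by exact_mod_cast hH.1
  have hω := A.one_le_ω
  have hP := A.nrm_Pz hH
  set B : ℝ := |(A.ω : ℝ)| * (A.lam : ℝ) ^ (2 * A.N) * (8 * H) ^ A.N with hB
  have h8 : (1 : ℝ) ≤ (8 * H) ^ A.N := one_le_pow₀ (by linarith)
  have hLN : (1 : ℝ) ≤ (A.lam : ℝ) ^ (2 * A.N) := one_le_pow₀ hL1
  have hB1 : (A.lam : ℝ) ^ (2 * A.N) ≤ B := by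
    rw [hB]
    have h2 : (A.lam : ℝ) ^ (2 * A.N) ≤ |(A.ω : ℝ)| * (A.lam : ℝ) ^ (2 * A.N) := by nlinarith
    nlinarith
  have hB2 : |(A.ω : ℝ)| * (A.lam : ℝ) ^ (2 * A.N) ≤ B := by
    rw [hB]
    have : 0 < |(A.ω : ℝ)| * (A.lam : ℝ) ^ (2 * A.N) := by positivity
    nlinarith
  have hB0 : 1 ≤ B := hLN.trans hB1
  have h1 : nrm 1 (A.Pz ^ A.m) ≤ B ^ A.m :=
    (nrm_pow_le (by norm_num) _ _).trans (pow_le_pow_left₀ (nrm_nonneg (by norm_num) _) hP _)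
  have h2 : nrm 1 (C (A.ω ^ A.m * A.lam ^ (2 * A.N * A.m)) * X ^ (A.m * A.N)) ≤ B ^ A.m := by
    refine (nrm_mul_le (by norm_num) _ _).trans ?_
    rw [nrm_C, nrm_X_pow, one_pow, mul_one]
    push_cast
    rw [abs_mul, abs_pow, abs_pow, abs_of_pos hL, pow_mul, ← mul_pow]
    exact pow_le_pow_left₀ (by positivity) hB2 _
  have h3 : nrm 1 (∑ j ∈ A.J, C (A.c j * A.lam ^ (2 * A.N * (A.m - A.l j))) * X ^ A.e j *
      A.Pz ^ A.l j) ≤ (∑ j ∈ A.J, |(A.c j : ℝ)|) * B ^ A.m := by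
    refine (nrm_sum_le (by norm_num) _ _).trans ?_
    rw [Finset.sum_mul]
    refine Finset.sum_le_sum fun j hj => ?_
    have h4 := A.l_lt hj
    obtain ⟨k, hk⟩ := Nat.exists_eq_add_of_le h4.le
    have h5 : A.m - A.l j = k := by omega
    refine (nrm_mul_le (by norm_num) _ _).trans ?_
    have h6 : nrm 1 (C (A.c j * A.lam ^ (2 * A.N * (A.m - A.l j))) * X ^ A.e j) ≤
        |(A.c j : ℝ)| * B ^ k := by
      refine (nrm_mul_le (by norm_num) _ _).trans ?_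
      rw [nrm_C, nrm_X_pow, one_pow, mul_one, h5]
      push_cast
      rw [abs_mul, abs_pow, abs_of_pos hL, pow_mul]
      exact mul_le_mul_of_nonneg_left (pow_le_pow_left₀ (by positivity) hB1 _) (abs_nonneg _)
    have h7 : nrm 1 (A.Pz ^ A.l j) ≤ B ^ A.l j :=
      (nrm_pow_le (by norm_num) _ _).trans (pow_le_pow_left₀ (nrm_nonneg (by norm_num) _) hP _)
    refine (mul_le_mul h6 h7 (nrm_nonneg (by norm_num) _) (by positivity)).trans (le_of_eq ?_)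
    conv_rhs => rw [hk, pow_add]
    ring
  have h9 : (1 : ℝ) + ∑ j ∈ A.J, |(A.c j : ℝ)| ≤ H := by
    have h3 : ((A.α + ∑ j ∈ A.J, |A.c j| : ℤ) : ℝ) ≤ (H : ℤ) := by exact_mod_cast hH.2
    have hα : (1 : ℝ) ≤ A.α := by
      have := A.α_pos
      exact_mod_cast this
    push_cast at h3
    linarith
  have hBm : 0 ≤ B ^ A.m := by positivity
  unfold W
  have h10 := nrm_sub_le (ρ := 1) (by norm_num) (A.Pz ^ A.m - C (A.ω ^ A.m *
    A.lam ^ (2 * A.N * A.m)) * X ^ (A.m * A.N)) (∑ j ∈ A.J, C (A.c j *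
      A.lam ^ (2 * A.N * (A.m - A.l j))) * X ^ A.e j * A.Pz ^ A.l j)
  have h11 := nrm_sub_le (ρ := 1) (by norm_num) (A.Pz ^ A.m) (C (A.ω ^ A.m *
    A.lam ^ (2 * A.N * A.m)) * X ^ (A.m * A.N))
  have h12 : nrm 1 (A.Pz ^ A.m) + nrm 1 (C (A.ω ^ A.m * A.lam ^ (2 * A.N * A.m)) *
      X ^ (A.m * A.N)) + nrm 1 (∑ j ∈ A.J, C (A.c j * A.lam ^ (2 * A.N * (A.m - A.l j))) *
      X ^ A.e j * A.Pz ^ A.l j) ≤ B ^ A.m + B ^ A.m + (∑ j ∈ A.J, |(A.c j : ℝ)|) * B ^ A.m := by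
    linarith
  refine h10.trans ((add_le_add_left h11 _).trans (h12.trans ?_))
  nlinarith

/-- if the branch satisfies the equation identically, one integral point gives infinitely many -/
lemma family (hW : A.W = 0) {u v : ℤ} (h : A.Pz.eval u = A.lam ^ (2 * A.N) * v) (t : ℤ) :
    ∃ v', A.Eq (u + A.lam ^ (2 * A.N) * t) v' := by
  have h1 : A.lam ^ (2 * A.N) ∣ A.Pz.eval (u + A.lam ^ (2 * A.N) * t) := by
    have h2 := sub_dvd_eval_sub (u + A.lam ^ (2 * A.N) * t) u A.Pz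
    have h3 : A.lam ^ (2 * A.N) ∣ (u + A.lam ^ (2 * A.N) * t) - u := ⟨t, by ring⟩
    have h4 := dvd_add (dvd_trans h3 h2) (⟨v, h⟩ : A.lam ^ (2 * A.N) ∣ A.Pz.eval u)
    rwa [sub_add_cancel] at h4
  obtain ⟨v', hv'⟩ := h1
  refine ⟨v', ?_⟩
  have h5 := A.W_eval hv'
  rw [hW, eval_zero] at h5
  have h6 : (A.lam ^ (2 * A.N)) ^ A.m ≠ 0 := pow_ne_zero _ (pow_ne_zero _ A.lam_pos.ne')
  rcases mul_eq_zero.mp h5.symm with h7 | h7
  · exact absurd h7 h6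
  · unfold Eq
    linarith

/-- a large solution on the branch -/
lemma big {H : ℕ} (hH : A.Hle H) {u v : ℤ} (hu : (8 : ℝ) * H ≤ u)
    (hu' : 4 * H * A.m * 2 ^ A.m ≤ (u : ℝ))
    (hu2 : |(A.ω : ℝ)| * (A.lam : ℝ) ^ (2 * A.N) * (8 * H) ^ (A.N + 1) < u)
    (heq : A.Eq u v) (hpos : 0 < A.ω * v) (hv : |(v : ℝ)| ≤ 2 * |(A.ω : ℝ)| * (u : ℝ) ^ A.N) :
    A.Pz.eval u = A.lam ^ (2 * A.N) * v := by
  have hH1 : (1 : ℝ) ≤ H := by exact_mod_cast hH.1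
  have hL := A.lam_pos'
  have hu0 : (0 : ℝ) < u := by linarith
  have hω : (A.ω : ℝ) ≠ 0 := by exact_mod_cast A.hω
  have hω0 : 0 < |(A.ω : ℝ)| := abs_pos.mpr hω
  set V : ℝ := v / (A.ω * (u : ℝ) ^ A.N) with hV
  have hvV : (v : ℝ) = A.ω * (u : ℝ) ^ A.N * V := by
    rw [hV]
    field_simp
  have hV0 : 0 < V := by
    have h1 : (0 : ℝ) < A.ω * v := by exact_mod_cast hpos
    rw [hvV] at h1
    have h2 : (A.ω : ℝ) * (A.ω * (u : ℝ) ^ A.N * V) = ((A.ω : ℝ) ^ 2 * (u : ℝ) ^ A.N) * V := by ring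
    rw [h2] at h1
    exact pos_of_mul_pos_right h1 (by positivity)
  have hV2 : V ≤ 2 := by
    rw [hvV, abs_mul, abs_mul, abs_pow, abs_of_pos hu0, abs_of_pos hV0] at hv
    have h2 : 0 < |(A.ω : ℝ)| * (u : ℝ) ^ A.N := by positivity
    have h3 : |(A.ω : ℝ)| * (u : ℝ) ^ A.N * V ≤ |(A.ω : ℝ)| * (u : ℝ) ^ A.N * 2 := by linarith
    exact le_of_mul_le_mul_left h3 h2
  have hVeq : V ^ A.m - 1 - ∑ j ∈ A.J, A.d u j * V ^ A.l j = 0 := by
    have h1 : (v : ℝ) ^ A.m = (A.ω : ℝ) ^ A.m * (u : ℝ) ^ (A.m * A.N) +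
        ∑ j ∈ A.J, (A.c j : ℝ) * (u : ℝ) ^ A.e j * (v : ℝ) ^ A.l j := by
      unfold Eq at heq
      exact_mod_cast heq
    have h2 : ∀ j ∈ A.J, (A.c j : ℝ) * (u : ℝ) ^ A.e j * (v : ℝ) ^ A.l j =
        (A.ω : ℝ) ^ A.m * (u : ℝ) ^ (A.m * A.N) * (A.d u j * V ^ A.l j) := by
      intro j hj
      have h3 := A.w_add hj
      rw [hvV, mul_pow, mul_pow, ← h3, pow_add, pow_add, pow_mul]
      unfold d
      field_simp
    rw [Finset.sum_congr rfl h2, ← Finset.mul_sum] at h1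
    have h4 : (v : ℝ) ^ A.m = (A.ω : ℝ) ^ A.m * (u : ℝ) ^ (A.m * A.N) * V ^ A.m := by
      rw [hvV, mul_pow, mul_pow, ← pow_mul, mul_comm A.m A.N]
    rw [h4] at h1
    have h5 : (A.ω : ℝ) ^ A.m * (u : ℝ) ^ (A.m * A.N) ≠ 0 := by positivity
    have h6 : (A.ω : ℝ) ^ A.m * (u : ℝ) ^ (A.m * A.N) *
        (V ^ A.m - 1 - ∑ j ∈ A.J, A.d u j * V ^ A.l j) = 0 := by linarith
    rcases mul_eq_zero.mp h6 with h7 | h7
    · exact absurd h7 h5
    · exact h7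
  have h1 := A.V_close hH hu hu' hV0 hV2 hVeq
  have h2 : ((A.Pz.eval u : ℤ) : ℝ) = (A.lam : ℝ) ^ (2 * A.N) * A.ω * (u : ℝ) ^ A.N * A.Phi u := by
    rw [← A.aeval_Pz hu0]
    have := Polynomial.aeval_algebraMap_apply_eq_algebraMap_eval (A := ℝ) u A.Pz
    simp only [algebraMap_int_eq, eq_intCast] at this
    exact this.symm
  have h3 : |((A.lam ^ (2 * A.N) * v - A.Pz.eval u : ℤ) : ℝ)| < 1 := by
    push_cast
    rw [h2, hvV]
    have h4 : (A.lam : ℝ) ^ (2 * A.N) * (A.ω * (u : ℝ) ^ A.N * V) -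
        (A.lam : ℝ) ^ (2 * A.N) * A.ω * (u : ℝ) ^ A.N * A.Phi u =
        (A.lam : ℝ) ^ (2 * A.N) * A.ω * (u : ℝ) ^ A.N * (V - A.Phi u) := by ring
    rw [h4, abs_mul, abs_mul, abs_mul, abs_pow, abs_pow, abs_of_pos hL, abs_of_pos hu0]
    have h5 := mul_le_mul_of_nonneg_left h1
      (by positivity : 0 ≤ (A.lam : ℝ) ^ (2 * A.N) * |(A.ω : ℝ)| * (u : ℝ) ^ A.N)
    refine lt_of_le_of_lt h5 ?_
    have h6 : (A.lam : ℝ) ^ (2 * A.N) * |(A.ω : ℝ)| * (u : ℝ) ^ A.N * (8 * H / u) ^ (A.N + 1) =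
        (|(A.ω : ℝ)| * (A.lam : ℝ) ^ (2 * A.N) * (8 * H) ^ (A.N + 1)) / u := by
      rw [div_pow, pow_succ (u : ℝ) A.N]
      field_simp
    rw [h6, div_lt_one hu0]
    exact hu2
  have h7 : |A.lam ^ (2 * A.N) * v - A.Pz.eval u| < 1 := by exact_mod_cast h3
  have h8 := Int.abs_lt_one_iff.mp h7
  linarith

end Dat

end Pool.Agent.H20.RU
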