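import Pool.Agent.H20.RU5

/-!
# The bound for `v ^ m = a u ^ (m N) + ∑ c_j u ^ e_j v ^ l_j`
-/

set_option autoImplicit false

open Polynomial Finset

namespace Pool.Agent.H20.RU

lemma sign_pow' (v : ℤ) (n : ℕ) : (v ^ n).sign = v.sign ^ n := by
  induction n with
  | zero => simp
  | succ n ih => rw [pow_succ, Int.sign_mul, ih, pow_succ]

lemma abs_sign' {v : ℤ} (hv : v ≠ 0) : |v.sign| = 1 := by
  rcases lt_or_gt_of_ne hv with h | h
  · rw [Int.sign_eq_neg_one_of_neg h]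
    norm_num
  · rw [Int.sign_eq_one_of_pos h]
    norm_num

/-- the data without the choice of a branch -/
structure Raw (ι : Type) where
  m : ℕ
  N : ℕ
  α : ℤ
  a : ℤ
  J : Finset ι
  c : ι → ℤ
  e : ι → ℕ
  l : ι → ℕ
  hm : 2 ≤ m
  hN : 1 ≤ N
  hα : 1 ≤ α
  ha : |a| = α ^ m
  hw : ∀ j ∈ J, e j + N * l j + 1 ≤ m * N

namespace Raw

variable {ι : Type} (R : Raw ι)

def Eq (u v : ℤ) : Prop :=
  v ^ R.m = R.a * u ^ (R.m * R.N) + ∑ j ∈ R.J, R.c j * u ^ R.e j * v ^ R.l j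

def Hle (H : ℕ) : Prop := 1 ≤ H ∧ R.α ^ R.m + ∑ j ∈ R.J, |R.c j| ≤ H

/-- the data with a branch -/
def dat (ω : ℤ) (hω : ω ≠ 0) : Dat ι := ⟨R.m, R.N, ω, R.J, R.c, R.e, R.l, R.hm, R.hN, hω, R.hw⟩

lemma l_lt {j : ι} (hj : j ∈ R.J) : R.l j < R.m :=
  (R.dat 1 one_ne_zero).l_lt hj

lemma sum_c_le {H : ℕ} (hH : R.Hle H) : ∑ j ∈ R.J, |(R.c j : ℝ)| ≤ H := by
  have h3 : ((R.α ^ R.m + ∑ j ∈ R.J, |R.c j| : ℤ) : ℝ) ≤ (H : ℤ) := by exact_mod_cast hH.2
  have hα : (0 : ℝ) ≤ (R.α : ℝ) ^ R.m := by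
    have : (1 : ℝ) ≤ R.α := by exact_mod_cast R.hα
    positivity
  push_cast at h3
  linarith

/-- size and sign of `v` for large `u` -/
lemma size {H : ℕ} (hH : R.Hle H) {u v : ℤ} (hu : 4 * H * R.m * 2 ^ R.m ≤ (u : ℝ))
    (heq : R.Eq u v) : |(v : ℝ)| ≤ 2 * R.α * (u : ℝ) ^ R.N ∧ 0 < R.a * v ^ R.m := by
  have hH1 : (1 : ℝ) ≤ H := by exact_mod_cast hH.1
  have hα : (1 : ℝ) ≤ R.α := by exact_mod_cast R.hα
  have hm2 : (2 : ℝ) ≤ R.m := by exact_mod_cast R.hm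
  have h2m : (1 : ℝ) ≤ 2 ^ R.m := one_le_pow₀ (by norm_num)
  have hu4 : 4 * H * 2 ^ R.m ≤ (u : ℝ) := by
    refine le_trans ?_ hu
    have h1 : 4 * (H : ℝ) * 2 ^ R.m * 1 ≤ 4 * (H : ℝ) * 2 ^ R.m * R.m :=
      mul_le_mul_of_nonneg_left (by linarith) (by positivity)
    linarith
  have hu1 : (1 : ℝ) ≤ u := by nlinarith
  have hu0 : (0 : ℝ) < u := by linarith
  have hα0 : (0 : ℝ) < R.α := by linarith
  have hQ : (0 : ℝ) < (R.α : ℝ) ^ R.m * (u : ℝ) ^ (R.m * R.N) := by positivity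
  obtain ⟨n, hn⟩ : ∃ n, R.m = n + 1 := ⟨R.m - 1, by have := R.hm; omega⟩
  set t : ℝ := |(v : ℝ)| / (R.α * (u : ℝ) ^ R.N) with ht
  have ht0 : 0 ≤ t := by positivity
  have hvt : |(v : ℝ)| = R.α * (u : ℝ) ^ R.N * t := by
    rw [ht]
    field_simp
  have hsum : ∀ B : ℝ, 1 ≤ B → t ≤ B →
      |∑ j ∈ R.J, (R.c j : ℝ) * (u : ℝ) ^ R.e j * (v : ℝ) ^ R.l j| ≤
      (R.α : ℝ) ^ R.m * (u : ℝ) ^ (R.m * R.N) * (H / u * B ^ n) := by
    intro B hB htB
    refine (Finset.abs_sum_le_sum_abs _ _).trans ?_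
    have h1 : ∀ j ∈ R.J, |(R.c j : ℝ) * (u : ℝ) ^ R.e j * (v : ℝ) ^ R.l j| ≤
        |(R.c j : ℝ)| * ((R.α : ℝ) ^ R.m * (u : ℝ) ^ (R.m * R.N) * (1 / u * B ^ n)) := by
      intro j hj
      rw [abs_mul, abs_mul, abs_pow, abs_pow, abs_of_pos hu0, mul_assoc]
      refine mul_le_mul_of_nonneg_left ?_ (abs_nonneg _)
      have hl := R.l_lt hj
      have hw := R.hw j hj
      rw [hvt, mul_pow, mul_pow, ← pow_mul]
      have h2 : (R.α : ℝ) ^ R.l j ≤ (R.α : ℝ) ^ R.m := pow_le_pow_right₀ hα hl.le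
      have h3 : t ^ R.l j ≤ B ^ n :=
        (pow_le_pow_left₀ ht0 htB _).trans (pow_le_pow_right₀ hB (by omega))
      have h4 : (u : ℝ) ^ R.e j * (u : ℝ) ^ (R.N * R.l j) ≤ (u : ℝ) ^ (R.m * R.N) * (1 / u) := by
        rw [← pow_add, mul_one_div, le_div_iff₀ hu0, ← pow_succ]
        exact pow_le_pow_right₀ hu1 hw
      calc (u : ℝ) ^ R.e j * ((R.α : ℝ) ^ R.l j * (u : ℝ) ^ (R.N * R.l j) * t ^ R.l j)
          = ((u : ℝ) ^ R.e j * (u : ℝ) ^ (R.N * R.l j)) * ((R.α : ℝ) ^ R.l j * t ^ R.l j) := by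
            ring
        _ ≤ ((u : ℝ) ^ (R.m * R.N) * (1 / u)) * ((R.α : ℝ) ^ R.m * B ^ n) := by
            refine mul_le_mul h4 ?_ (by positivity) (by positivity)
            exact mul_le_mul h2 h3 (by positivity) (by positivity)
        _ = (R.α : ℝ) ^ R.m * (u : ℝ) ^ (R.m * R.N) * (1 / u * B ^ n) := by ring
    refine (Finset.sum_le_sum h1).trans ?_
    rw [← Finset.sum_mul]
    have h5 := R.sum_c_le hH
    have h6 : (0 : ℝ) ≤ (R.α : ℝ) ^ R.m * (u : ℝ) ^ (R.m * R.N) * (1 / u * B ^ n) := by positivity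
    refine (mul_le_mul_of_nonneg_right h5 h6).trans (le_of_eq ?_)
    ring
  have heq' : (v : ℝ) ^ R.m = R.a * (u : ℝ) ^ (R.m * R.N) +
      ∑ j ∈ R.J, (R.c j : ℝ) * (u : ℝ) ^ R.e j * (v : ℝ) ^ R.l j := by
    unfold Eq at heq
    exact_mod_cast heq
  have ha : |(R.a : ℝ)| = (R.α : ℝ) ^ R.m := by
    have := R.ha
    have h1 : ((|R.a| : ℤ) : ℝ) = ((R.α ^ R.m : ℤ) : ℝ) := by rw [this]
    push_cast at h1
    exact h1
  have hHu : (H : ℝ) / u ≤ 1 / 4 := by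
    rw [div_le_iff₀ hu0]
    nlinarith
  have ht2 : t ≤ 2 := by
    by_contra hcon
    push Not at hcon
    have h1 := hsum t (by linarith) le_rfl
    have h2 : |(v : ℝ)| ^ R.m ≤ (R.α : ℝ) ^ R.m * (u : ℝ) ^ (R.m * R.N) +
        (R.α : ℝ) ^ R.m * (u : ℝ) ^ (R.m * R.N) * (H / u * t ^ n) := by
      rw [← abs_pow, heq']
      refine (abs_add_le _ _).trans (add_le_add (le_of_eq ?_) h1)
      rw [abs_mul, ha, abs_pow, abs_of_pos hu0]
    have h3 : |(v : ℝ)| ^ R.m = (R.α : ℝ) ^ R.m * (u : ℝ) ^ (R.m * R.N) * t ^ R.m := by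
      rw [hvt, mul_pow, mul_pow, ← pow_mul, mul_comm R.N R.m]
    rw [h3] at h2
    have h4 : t ^ R.m ≤ 1 + H / u * t ^ n := by
      have h5 : (R.α : ℝ) ^ R.m * (u : ℝ) ^ (R.m * R.N) * t ^ R.m ≤
          (R.α : ℝ) ^ R.m * (u : ℝ) ^ (R.m * R.N) * (1 + H / u * t ^ n) := by linarith
      exact le_of_mul_le_mul_left h5 hQ
    rw [hn, pow_succ] at h4
    have h6 : 1 ≤ t ^ n := one_le_pow₀ (by linarith)
    nlinarith
  refine ⟨?_, ?_⟩
  · rw [hvt]
    have : (0 : ℝ) ≤ R.α * (u : ℝ) ^ R.N := by positivity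
    nlinarith
  · have h1 := hsum 2 (by norm_num) ht2
    have h2 : (H : ℝ) / u * 2 ^ n ≤ 1 / 4 := by
      rw [div_mul_eq_mul_div, div_le_iff₀ hu0]
      have h3 : (2 : ℝ) ^ n ≤ 2 ^ R.m := pow_le_pow_right₀ (by norm_num) (by omega)
      nlinarith
    have h3 : |∑ j ∈ R.J, (R.c j : ℝ) * (u : ℝ) ^ R.e j * (v : ℝ) ^ R.l j| ≤
        (R.α : ℝ) ^ R.m * (u : ℝ) ^ (R.m * R.N) * (1 / 4) :=
      h1.trans (mul_le_mul_of_nonneg_left h2 hQ.le)
    have h4 : (0 : ℝ) < R.a * (v : ℝ) ^ R.m := by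
      rw [heq', mul_add]
      have h5 : (R.a : ℝ) * (R.a * (u : ℝ) ^ (R.m * R.N)) =
          (R.α : ℝ) ^ R.m * ((R.α : ℝ) ^ R.m * (u : ℝ) ^ (R.m * R.N)) := by
        rw [← mul_assoc, ← abs_mul_abs_self (R.a : ℝ), ha]
        ring
      have h6 : |(R.a : ℝ) * ∑ j ∈ R.J, (R.c j : ℝ) * (u : ℝ) ^ R.e j * (v : ℝ) ^ R.l j| ≤
          (R.α : ℝ) ^ R.m * ((R.α : ℝ) ^ R.m * (u : ℝ) ^ (R.m * R.N) * (1 / 4)) := by
        rw [abs_mul, ha]
        exact mul_le_mul_of_nonneg_left h3 (by positivity)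
      have h7 := (abs_le.mp h6).1
      have h8 : 0 < (R.α : ℝ) ^ R.m * ((R.α : ℝ) ^ R.m * (u : ℝ) ^ (R.m * R.N)) := by positivity
      rw [h5]
      linarith
    exact_mod_cast h4

/-- crude bound of `v` -/
lemma v_le {H : ℕ} (hH : R.Hle H) {u v : ℤ} (hu : 0 < u) (heq : R.Eq u v) :
    |v| ≤ H * u ^ (R.m * R.N) := by
  have hu1 : 1 ≤ u := hu
  obtain ⟨n, hn⟩ : ∃ n, R.m = n + 1 := ⟨R.m - 1, by have := R.hm; omega⟩
  rcases eq_or_ne v 0 with hv | hv
  · rw [hv, abs_zero]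
    positivity
  · have hv1 : 1 ≤ |v| := Int.one_le_abs hv
    have h1 : |v| ^ R.m ≤ (H * u ^ (R.m * R.N)) * |v| ^ n := by
      rw [← abs_pow, heq]
      refine (abs_add_le _ _).trans ?_
      have h2 : |∑ j ∈ R.J, R.c j * u ^ R.e j * v ^ R.l j| ≤
          (∑ j ∈ R.J, |R.c j|) * (u ^ (R.m * R.N) * |v| ^ n) := by
        refine (Finset.abs_sum_le_sum_abs _ _).trans ?_
        rw [Finset.sum_mul]
        refine Finset.sum_le_sum fun j hj => ?_
        rw [abs_mul, abs_mul, abs_pow, abs_pow, abs_of_pos hu, mul_assoc]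
        refine mul_le_mul_of_nonneg_left ?_ (abs_nonneg _)
        have hl := R.l_lt hj
        have hw := R.hw j hj
        refine mul_le_mul (pow_le_pow_right₀ hu1 ?_) (pow_le_pow_right₀ hv1 (by omega))
          (by positivity) (by positivity)
        omega
      have h3 : |R.a * u ^ (R.m * R.N)| ≤ R.α ^ R.m * (u ^ (R.m * R.N) * |v| ^ n) := by
        rw [abs_mul, R.ha, abs_pow, abs_of_pos hu]
        have hα0 : 0 ≤ R.α ^ R.m := by
          have := R.hα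
          positivity
        refine mul_le_mul_of_nonneg_left ?_ hα0
        have h4 : 1 ≤ |v| ^ n := one_le_pow₀ hv1
        have h5 : 0 ≤ u ^ (R.m * R.N) := by positivity
        nlinarith
      have h4 : 0 ≤ u ^ (R.m * R.N) * |v| ^ n := by positivity
      have h5 := mul_le_mul_of_nonneg_right hH.2 h4
      calc |R.a * u ^ (R.m * R.N)| + |∑ j ∈ R.J, R.c j * u ^ R.e j * v ^ R.l j|
          ≤ (R.α ^ R.m + ∑ j ∈ R.J, |R.c j|) * (u ^ (R.m * R.N) * |v| ^ n) := by linarith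
        _ ≤ (H : ℤ) * (u ^ (R.m * R.N) * |v| ^ n) := h5
        _ = _ := by ring
    rw [hn, pow_succ, ← hn] at h1
    have h6 : (0 : ℤ) < |v| ^ n := by positivity
    have h7 : |v| * |v| ^ n ≤ (H * u ^ (R.m * R.N)) * |v| ^ n := by linarith
    exact le_of_mul_le_mul_right h7 h6

/-- the bound for `u` -/
theorem u_le {H : ℕ} (hH : R.Hle H) (hfin : {p : ℤ × ℤ | 0 < p.1 ∧ R.Eq p.1 p.2}.Finite)
    {u v : ℤ} (heq : R.Eq u v) : u ≤ (8 * R.m * H) ^ (4 * R.N * R.m) := by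
  by_contra hcon
  push Not at hcon
  have hH1 : (1 : ℝ) ≤ H := by exact_mod_cast hH.1
  have hα : (1 : ℝ) ≤ R.α := by exact_mod_cast R.hα
  have hm2 : (2 : ℝ) ≤ R.m := by exact_mod_cast R.hm
  have hN := R.hN
  have hm := R.hm
  have hNm : 2 ≤ R.N * R.m := by nlinarith
  set Y : ℝ := 8 * R.m * H with hY
  have hY1 : 1 ≤ Y := by nlinarith
  have huR : Y ^ (4 * R.N * R.m) < u := by
    have h1 : (((8 * R.m * H) ^ (4 * R.N * R.m) : ℤ) : ℝ) < ((u : ℤ) : ℝ) := by exact_mod_cast hcon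
    push_cast at h1
    exact h1
  have hpow : ∀ n, n ≤ 4 * R.N * R.m → Y ^ n ≤ Y ^ (4 * R.N * R.m) :=
    fun n hn => pow_le_pow_right₀ hY1 hn
  have hαm : (R.α : ℝ) ^ R.m ≤ H := by
    have h3 : ((R.α ^ R.m + ∑ j ∈ R.J, |R.c j| : ℤ) : ℝ) ≤ (H : ℤ) := by exact_mod_cast hH.2
    have h4 : (0 : ℝ) ≤ ∑ j ∈ R.J, |(R.c j : ℝ)| := Finset.sum_nonneg fun _ _ => abs_nonneg _
    push_cast at h3
    linarith
  have hαH : (R.α : ℝ) ≤ H := by
    refine le_trans ?_ hαm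
    calc (R.α : ℝ) = (R.α : ℝ) ^ 1 := (pow_one _).symm
      _ ≤ (R.α : ℝ) ^ R.m := pow_le_pow_right₀ hα (by omega)
  -- sizes
  have h8H : 8 * (H : ℝ) ≤ Y := by
    rw [hY]
    nlinarith
  have hu8 : 8 * (H : ℝ) ≤ u := by
    have h1 := hpow 1 (by nlinarith)
    rw [pow_one] at h1
    linarith
  have hu4 : 4 * H * R.m * 2 ^ R.m ≤ (u : ℝ) := by
    have h1 := hpow (R.m + 1) (by nlinarith)
    have h2 : (2 : ℝ) ^ R.m ≤ Y ^ R.m := pow_le_pow_left₀ (by norm_num) (by nlinarith) _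
    have h3 : 4 * (H : ℝ) * R.m ≤ Y := by
      rw [hY]
      nlinarith
    have h4 : 4 * (H : ℝ) * R.m * 2 ^ R.m ≤ Y * Y ^ R.m :=
      mul_le_mul h3 h2 (by positivity) (by positivity)
    rw [pow_succ'] at h1
    linarith
  obtain ⟨hv2, hsign⟩ := R.size hH hu4 heq
  -- the sign
  have hv0 : v ≠ 0 := by
    intro h
    rw [h, zero_pow (by omega), mul_zero] at hsign
    exact lt_irrefl _ hsign
  have hω : v.sign * R.α ≠ 0 := by
    have h1 : v.sign ≠ 0 := by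
      intro h
      exact hv0 (Int.sign_eq_zero_iff_zero.mp h)
    have := R.hα
    exact mul_ne_zero h1 (by omega)
  have habs : |v.sign * R.α| = R.α := by
    rw [abs_mul, abs_sign' hv0, one_mul]
    exact abs_of_pos (by have := R.hα; omega)
  have hωm : (v.sign * R.α) ^ R.m = R.a := by
    have h1 : (v.sign) ^ R.m = (v ^ R.m).sign := (sign_pow' v R.m).symm
    have h2 : (v ^ R.m).sign = R.a.sign := by
      have h3 : (R.a * v ^ R.m).sign = 1 := Int.sign_eq_one_of_pos hsign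
      rw [Int.sign_mul] at h3
      have h4 : R.a ≠ 0 := by
        intro h
        rw [h, zero_mul] at hsign
        exact lt_irrefl _ hsign
      have h5 : R.a.sign * R.a.sign = 1 := by
        rcases lt_or_gt_of_ne h4 with h6 | h6
        · rw [Int.sign_eq_neg_one_of_neg h6]; norm_num
        · rw [Int.sign_eq_one_of_pos h6]; norm_num
      calc (v ^ R.m).sign = (R.a.sign * R.a.sign) * (v ^ R.m).sign := by rw [h5, one_mul]
        _ = R.a.sign * (R.a.sign * (v ^ R.m).sign) := by ring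
        _ = R.a.sign := by rw [h3, mul_one]
    rw [mul_pow, h1, h2, ← R.ha, Int.sign_mul_abs]
  set A := R.dat (v.sign * R.α) hω with hA
  have hAα : A.α = R.α ^ R.m := by
    show |v.sign * R.α| ^ R.m = _
    rw [habs]
  have hAH : A.Hle H := by
    refine ⟨hH.1, ?_⟩
    rw [hAα]
    exact hH.2
  have hAeq : A.Eq u v := by
    show v ^ R.m = (v.sign * R.α) ^ R.m * u ^ (R.m * R.N) + _
    rw [hωm]
    exact heq
  have hAω : |(A.ω : ℝ)| = R.α := by
    have h1 : ((|v.sign * R.α| : ℤ) : ℝ) = (R.α : ℝ) := by rw [habs]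
    rw [Int.cast_abs] at h1
    exact h1
  have hAlam : (A.lam : ℝ) ≤ R.m * H := by
    have h1 : (A.lam : ℝ) = R.m * (R.α : ℝ) ^ R.m := by
      have h2 : A.lam = R.m * R.α ^ R.m := by
        show (R.m : ℤ) * A.α = _
        rw [hAα]
      rw [h2]
      push_cast
      rfl
    rw [h1]
    exact mul_le_mul_of_nonneg_left hαm (by positivity)
  have hAlam0 : (0 : ℝ) ≤ A.lam := A.lam_pos'.le
  have hAlamY : (A.lam : ℝ) ≤ Y := by
    rw [hY]
    nlinarith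
  have hαY : (R.α : ℝ) ≤ Y := by linarith
  have hpos : 0 < A.ω * v := by
    show 0 < v.sign * R.α * v
    have h1 : v.sign * R.α * v = R.α * (v.sign * v) := by ring
    rw [h1, Int.sign_mul_self_eq_abs]
    have := R.hα
    have h2 : 0 < |v| := abs_pos.mpr hv0
    positivity
  have h3N : |(A.ω : ℝ)| * (A.lam : ℝ) ^ (2 * A.N) * (8 * H) ^ (A.N + 1) < u := by
    rw [hAω]
    refine lt_of_le_of_lt ?_ huR
    have h1 : (R.α : ℝ) * (A.lam : ℝ) ^ (2 * A.N) * (8 * H) ^ (A.N + 1) ≤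
        Y * Y ^ (2 * A.N) * Y ^ (A.N + 1) := by
      refine mul_le_mul (mul_le_mul hαY (pow_le_pow_left₀ hAlam0 hAlamY _) (by positivity)
        (by positivity)) (pow_le_pow_left₀ (by positivity) h8H _) (by positivity) (by positivity)
    refine h1.trans ?_
    have h2 : Y * Y ^ (2 * A.N) * Y ^ (A.N + 1) = Y ^ (3 * R.N + 2) := by
      have : A.N = R.N := rfl
      rw [this]
      ring
    rw [h2]
    exact hpow _ (by nlinarith)
  have hbig := A.big hAH hu8 hu4 h3N hAeq hpos (by rw [hAω]; exact hv2)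
  have hW0 : A.W.eval u = 0 := by
    rw [A.W_eval hbig]
    have h1 : v ^ A.m - A.ω ^ A.m * u ^ (A.m * A.N) - ∑ j ∈ A.J, A.c j * u ^ A.e j * v ^ A.l j = 0 := by
      unfold Dat.Eq at hAeq
      linarith
    rw [h1, mul_zero]
  have hu0 : 0 < u := by
    have h1 : (0 : ℝ) < u := by linarith
    exact_mod_cast h1
  by_cases hW : A.W = 0
  · -- infinitely many solutions
    choose v' hv' using fun t : ℤ => A.family hW hbig t
    have hinj : Function.Injective (fun t : ℕ => ((u + A.lam ^ (2 * A.N) * t, v' t) : ℤ × ℤ)) := by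
      intro s t hst
      have h1 := congrArg Prod.fst hst
      simp only [add_right_inj] at h1
      have h2 : A.lam ^ (2 * A.N) ≠ 0 := pow_ne_zero _ A.lam_pos.ne'
      have h3 := mul_left_cancel₀ h2 h1
      exact_mod_cast h3
    refine Set.infinite_of_injective_forall_mem hinj ?_ hfin
    intro t
    refine ⟨?_, ?_⟩
    · have h1 : 0 < A.lam ^ (2 * A.N) := pow_pos A.lam_pos _
      show 0 < u + A.lam ^ (2 * A.N) * (t : ℤ)
      positivity
    · have h1 := hv' t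
      have h2 : A.Eq (u + A.lam ^ (2 * A.N) * t) (v' t) := h1
      show (v' t) ^ R.m = R.a * (u + A.lam ^ (2 * A.N) * (t : ℤ)) ^ (R.m * R.N) + _
      rw [← hωm]
      exact h2
  · have h1 := root_le hW hu0 hW0
    have h2 := A.nrm_W hAH
    have h3 : ((H : ℝ) + 1) * (|(A.ω : ℝ)| * (A.lam : ℝ) ^ (2 * A.N) * (8 * H) ^ A.N) ^ A.m ≤
        Y ^ (4 * R.N * R.m) := by
      rw [hAω, mul_pow, mul_pow]
      have hAm : A.m = R.m := rfl
      have hAN : A.N = R.N := rfl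
      rw [hAm, hAN]
      have h4 : (R.α : ℝ) ^ R.m * ((A.lam : ℝ) ^ (2 * R.N)) ^ R.m * ((8 * H) ^ R.N) ^ R.m ≤
          Y * (Y ^ (2 * R.N)) ^ R.m * (Y ^ R.N) ^ R.m := by
        refine mul_le_mul (mul_le_mul (by linarith) (pow_le_pow_left₀ (by positivity)
          (pow_le_pow_left₀ hAlam0 hAlamY _) _) (by positivity)
          (by positivity)) (pow_le_pow_left₀ (by positivity)
          (pow_le_pow_left₀ (by positivity) h8H _) _) (by positivity) (by positivity)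
      have h5 : (H : ℝ) + 1 ≤ Y := by linarith
      have h6 := mul_le_mul h5 h4 (by positivity) (by positivity)
      refine h6.trans ?_
      have h7 : Y * (Y * (Y ^ (2 * R.N)) ^ R.m * (Y ^ R.N) ^ R.m) =
          Y ^ (3 * (R.N * R.m) + 2) := by
        rw [← pow_mul, ← pow_mul]
        ring
      rw [h7]
      exact hpow _ (by nlinarith)
    linarith

end Raw

end Pool.Agent.H20.RU
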