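import Pool.Agent.H20.RU6

/-!
# Descent: from `y ^ m = x ^ k h(x, y)` to the covering
-/

set_option autoImplicit false

open Finset

namespace Pool.Agent.H20.RU

lemma exists_pow_of_coprime {X d k m : ℕ} (hm : 2 ≤ m) (hkm : Nat.Coprime k m) (hX : X ≠ 0)
    (h : X ^ k = d ^ m) : ∃ u, X = u ^ m := by
  obtain ⟨a, -, ha⟩ := Nat.exists_mul_mod_eq_one_of_coprime hkm hm
  set b := k * a / m with hb
  have hab : k * a = m * b + 1 := by
    have h0 := Nat.div_add_mod (k * a) m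
    rw [ha] at h0
    exact h0.symm
  have h1 : (X ^ b) ^ m * X = (d ^ a) ^ m := by
    calc (X ^ b) ^ m * X = X ^ (m * b + 1) := by rw [← pow_mul, mul_comm b m, pow_succ]
      _ = (X ^ k) ^ a := by rw [← hab, pow_mul]
      _ = (d ^ a) ^ m := by rw [h, ← pow_mul, ← pow_mul, mul_comm]
  have h2 : (X ^ b) ^ m ∣ (d ^ a) ^ m := ⟨X, h1.symm⟩
  have h3 : X ^ b ∣ d ^ a := (Nat.pow_dvd_pow_iff (by omega)).mp h2
  obtain ⟨e, he⟩ := h3
  refine ⟨e, ?_⟩
  rw [he, mul_pow] at h1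
  exact Nat.eq_of_mul_eq_mul_left (by positivity) h1

lemma sign_sq {x : ℤ} (hx : x ≠ 0) : x.sign * x.sign = 1 := by
  rcases lt_or_gt_of_ne hx with h | h
  · rw [Int.sign_eq_neg_one_of_neg h]
    norm_num
  · rw [Int.sign_eq_one_of_pos h]
    norm_num

/-- the descent -/
lemma desc {m k : ℕ} (hm : 2 ≤ m) (hkm : Nat.Coprime k m) {x y h : ℤ} (hx : x ≠ 0)
    (hc : IsCoprime x h) (heq : y ^ m = x ^ k * h) :
    ∃ u v : ℤ, 0 < u ∧ x = x.sign * u ^ m ∧ y = u ^ k * v ∧ v ^ m = x.sign ^ k * h := by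
  have h1 : x.natAbs ^ k * h.natAbs = y.natAbs ^ m := by
    rw [← Int.natAbs_pow, ← Int.natAbs_mul, ← heq, Int.natAbs_pow]
  have h2 : IsUnit (gcd (x.natAbs ^ k) h.natAbs) := by
    have h3 : Nat.Coprime (x.natAbs ^ k) h.natAbs :=
      Nat.Coprime.pow_left k (Int.isCoprime_iff_gcd_eq_one.mp hc)
    exact Nat.isUnit_iff.mpr h3
  obtain ⟨d, hd⟩ := exists_eq_pow_of_mul_eq_pow h2 h1
  obtain ⟨u, hu⟩ := exists_pow_of_coprime hm hkm (Int.natAbs_ne_zero.mpr hx) hd
  have hu0 : u ≠ 0 := by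
    intro h3
    rw [h3, zero_pow (by omega)] at hu
    exact Int.natAbs_ne_zero.mpr hx hu
  have hxu : x = x.sign * (u : ℤ) ^ m := by
    have h3 := Int.sign_mul_natAbs x
    rw [hu] at h3
    push_cast at h3
    exact h3.symm
  have huZ : (u : ℤ) ≠ 0 := by exact_mod_cast hu0
  have h4 : ((u : ℤ) ^ k) ^ m ∣ y ^ m := by
    refine ⟨x.sign ^ k * h, ?_⟩
    rw [heq]
    conv_lhs => rw [hxu]
    rw [mul_pow, ← pow_mul, ← pow_mul, mul_comm m k]
    ring
  have h5 : (u : ℤ) ^ k ∣ y := (Int.pow_dvd_pow_iff (by omega)).mp h4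
  obtain ⟨v, hv⟩ := h5
  refine ⟨u, v, by positivity, hxu, hv, ?_⟩
  have h6 : ((u : ℤ) ^ k) ^ m * v ^ m = ((u : ℤ) ^ k) ^ m * (x.sign ^ k * h) := by
    rw [← mul_pow, ← hv, heq]
    conv_lhs => rw [hxu]
    rw [mul_pow, ← pow_mul, ← pow_mul, mul_comm m k]
    ring
  exact mul_left_cancel₀ (pow_ne_zero _ (pow_ne_zero _ huZ)) h6

open MvPolynomial

/-- the class of curves -/
structure Cls (m k N : ℕ) (α : ℤ) (h : MvPolynomial (Fin 2) ℤ) : Prop where
  hm : 2 ≤ m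
  hk : 1 ≤ k
  hkm : Nat.Coprime k m
  hN : 1 ≤ N
  hα : 1 ≤ α
  lead : |h.coeff (Finsupp.single 0 N)| = α ^ m
  low : ∀ j ∈ h.support, j ≠ Finsupp.single 0 N → (j 0 + k) * m + j 1 * (k + N) < (k + N) * m

namespace Cls

variable {m k N : ℕ} {α : ℤ} {h : MvPolynomial (Fin 2) ℤ}

/-- the raw data of the covering `x = σ u ^ m`, `y = u ^ k v` -/
noncomputable def raw (C : Cls m k N α h) (σ : ℤ) (hσ : |σ| = 1) : Raw (Fin 2 →₀ ℕ) where
  m := m
  N := N
  α := α
  a := σ ^ k * σ ^ N * h.coeff (Finsupp.single 0 N)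
  J := h.support.erase (Finsupp.single 0 N)
  c := fun j => σ ^ k * σ ^ (j 0) * h.coeff j
  e := fun j => m * j 0 + k * j 1
  l := fun j => j 1
  hm := C.hm
  hN := C.hN
  hα := C.hα
  ha := by rw [abs_mul, abs_mul, abs_pow, abs_pow, hσ, one_pow, one_pow, one_mul, one_mul, C.lead]
  hw := by
    intro j hj
    rw [Finset.mem_erase] at hj
    have h1 := C.low j hj.2 hj.1
    nlinarith

lemma raw_Eq (C : Cls m k N α h) (σ : ℤ) (hσ : |σ| = 1) (u v : ℤ) :
    (C.raw σ hσ).Eq u v ↔ v ^ m = σ ^ k * eval ![σ * u ^ m, u ^ k * v] h := by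
  have h1 : eval ![σ * u ^ m, u ^ k * v] h = ∑ j ∈ h.support,
      h.coeff j * ((σ * u ^ m) ^ (j 0) * (u ^ k * v) ^ (j 1)) := by
    rw [eval_eq']
    refine Finset.sum_congr rfl fun j _ => ?_
    rw [Fin.prod_univ_two]
    simp
  have hmem : Finsupp.single 0 N ∈ h.support := by
    rw [mem_support_iff]
    intro h2
    have h3 := C.lead
    rw [h2, abs_zero] at h3
    have h4 : 0 < α ^ m := pow_pos (by have := C.hα; omega) _
    omega
  have h2 : σ ^ k * eval ![σ * u ^ m, u ^ k * v] h =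
      σ ^ k * σ ^ N * h.coeff (Finsupp.single 0 N) * u ^ (m * N) +
      ∑ j ∈ h.support.erase (Finsupp.single 0 N), σ ^ k * σ ^ (j 0) * h.coeff j *
        u ^ (m * j 0 + k * j 1) * v ^ (j 1) := by
    rw [h1, ← Finset.add_sum_erase _ _ hmem, mul_add, Finset.mul_sum]
    congr 1
    · have h3 : (Finsupp.single (0 : Fin 2) N) 0 = N := by simp
      have h4 : (Finsupp.single (0 : Fin 2) N) 1 = 0 := by simp
      rw [h3, h4, pow_zero, mul_pow, ← pow_mul]
      ring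
    · refine Finset.sum_congr rfl fun j _ => ?_
      rw [mul_pow, mul_pow, ← pow_mul, ← pow_mul, pow_add]
      ring
  rw [h2]
  rfl

lemma raw_Hle (C : Cls m k N α h) (σ : ℤ) (hσ : |σ| = 1) {H : ℕ}
    (hH : ∑ j ∈ h.support, |h.coeff j| ≤ (H : ℤ)) : (C.raw σ hσ).Hle H := by
  have hmem : Finsupp.single 0 N ∈ h.support := by
    rw [mem_support_iff]
    intro h2
    have h3 := C.lead
    rw [h2, abs_zero] at h3
    have h4 : 0 < α ^ m := pow_pos (by have := C.hα; omega) _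
    omega
  have h1 : α ^ m + ∑ j ∈ h.support.erase (Finsupp.single 0 N),
      |σ ^ k * σ ^ (j 0) * h.coeff j| ≤ (H : ℤ) := by
    rw [← Finset.add_sum_erase _ _ hmem, C.lead] at hH
    refine le_trans (le_of_eq ?_) hH
    congr 1
    refine Finset.sum_congr rfl fun j _ => ?_
    rw [abs_mul, abs_mul, abs_pow, abs_pow, hσ, one_pow, one_pow, one_mul, one_mul]
  refine ⟨?_, h1⟩
  have h2 : 0 < α ^ m := pow_pos (by have := C.hα; omega) _
  have h3 : 0 ≤ ∑ j ∈ h.support.erase (Finsupp.single 0 N), |σ ^ k * σ ^ (j 0) * h.coeff j| :=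
    Finset.sum_nonneg fun _ _ => abs_nonneg _
  omega

/-- the main bound -/
theorem main (C : Cls m k N α h) {H : ℕ} (hH : ∑ j ∈ h.support, |h.coeff j| ≤ (H : ℤ))
    (hfin : {p : ℤ × ℤ | p.2 ^ m = p.1 ^ k * eval ![p.1, p.2] h}.Finite) {x y : ℤ}
    (heq : y ^ m = x ^ k * eval ![x, y] h) (hc : IsCoprime x (h.coeff 0)) :
    |x| ≤ (8 * m * H) ^ (4 * N * m * m) ∧ |y| ≤ (8 * m * H) ^ (4 * N * m * (k + m * N) + 1) := by
  have hm := C.hm
  have hH1 : 1 ≤ H := (C.raw_Hle 1 (by norm_num) hH).1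
  have hY : (1 : ℤ) ≤ 8 * m * H := by
    have h1 : 0 < 8 * m * H := by positivity
    exact_mod_cast h1
  rcases eq_or_ne x 0 with hx | hx
  · have hy : y = 0 := by
      rw [hx, zero_pow (by have := C.hk; omega), zero_mul] at heq
      exact pow_eq_zero_iff (by omega) |>.mp heq
    rw [hx, hy, abs_zero]
    exact ⟨by positivity, by positivity⟩
  -- coprimality of `x` and `h(x, y)`
  have hcop : IsCoprime x (eval ![x, y] h) := by
    rw [Int.isCoprime_iff_gcd_eq_one]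
    by_contra hg
    obtain ⟨p, hp, hpg⟩ := Nat.exists_prime_and_dvd hg
    have hpx : (p : ℤ) ∣ x := dvd_trans (Int.natCast_dvd_natCast.mpr hpg) (Int.gcd_dvd_left _ _)
    have hph : (p : ℤ) ∣ eval ![x, y] h :=
      dvd_trans (Int.natCast_dvd_natCast.mpr hpg) (Int.gcd_dvd_right _ _)
    have hpp : Prime (p : ℤ) := Nat.prime_iff_prime_int.mp hp
    have hpy : (p : ℤ) ∣ y := by
      refine hpp.dvd_of_dvd_pow (n := m) ?_
      rw [heq]
      exact Dvd.dvd.mul_left hph _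
    have h1 : (p : ℤ) ∣ eval ![x, y] h - h.coeff 0 := by
      have h2 : eval ![x, y] h = ∑ j ∈ h.support, h.coeff j * (x ^ (j 0) * y ^ (j 1)) := by
        rw [eval_eq']
        refine Finset.sum_congr rfl fun j _ => ?_
        rw [Fin.prod_univ_two]
        simp
      have h3 : h.coeff 0 = ∑ j ∈ h.support, if j = 0 then h.coeff j else 0 := by
        rw [Finset.sum_ite_eq' h.support 0 (fun j => h.coeff j)]
        split_ifs with h4
        · rfl
        · rwa [mem_support_iff, not_not] at h4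
      rw [h2, h3, ← Finset.sum_sub_distrib]
      refine Finset.dvd_sum fun j _ => ?_
      split_ifs with h4
      · rw [h4]
        simp
      · rw [sub_zero]
        refine Dvd.dvd.mul_left ?_ _
        have h5 : j 0 ≠ 0 ∨ j 1 ≠ 0 := by
          by_contra h6
          push Not at h6
          apply h4
          ext i
          fin_cases i
          · exact h6.1
          · exact h6.2
        rcases h5 with h5 | h5
        · exact Dvd.dvd.mul_right (dvd_trans hpx (dvd_pow_self x h5)) _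
        · exact Dvd.dvd.mul_left (dvd_trans hpy (dvd_pow_self y h5)) _
    have h2 : (p : ℤ) ∣ h.coeff 0 := by
      have h3 := dvd_sub hph h1
      rwa [sub_sub_cancel] at h3
    exact hpp.not_isUnit (hc.isUnit_of_dvd' hpx h2)
  obtain ⟨u, v, hu, hxu, hyv, hvm⟩ := desc hm C.hkm hx hcop heq
  have hσ : |x.sign| = 1 := abs_sign' hx
  set σ := x.sign with hσdef
  have hσσ : σ * σ = 1 := sign_sq hx
  have hE : (C.raw σ hσ).Eq u v := by
    rw [raw_Eq, ← hxu, ← hyv]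
    exact hvm
  have hHle := C.raw_Hle σ hσ hH
  have hfin' : {p : ℤ × ℤ | 0 < p.1 ∧ (C.raw σ hσ).Eq p.1 p.2}.Finite := by
    have hinj : Set.InjOn (fun p : ℤ × ℤ => ((σ * p.1 ^ m, p.1 ^ k * p.2) : ℤ × ℤ))
        {p : ℤ × ℤ | 0 < p.1 ∧ (C.raw σ hσ).Eq p.1 p.2} := by
      rintro ⟨u1, v1⟩ ⟨h1, -⟩ ⟨u2, v2⟩ ⟨h2, -⟩ h3
      simp only [Prod.mk.injEq] at h3
      obtain ⟨h3, h4⟩ := h3
      have h5 : u1 ^ m = u2 ^ m := by
        have h6 : σ * (σ * u1 ^ m) = σ * (σ * u2 ^ m) := by rw [h3]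
        rwa [← mul_assoc, ← mul_assoc, hσσ, one_mul, one_mul] at h6
      have h7 : u1 = u2 := (pow_left_inj₀ (le_of_lt h1) (le_of_lt h2) (by omega)).mp h5
      subst h7
      have h8 : v1 = v2 := mul_left_cancel₀ (pow_ne_zero _ (ne_of_gt h1)) h4
      rw [h8]
    refine Set.Finite.of_finite_image (hfin.subset ?_) hinj
    rintro _ ⟨⟨u1, v1⟩, ⟨h1, h2⟩, rfl⟩
    rw [raw_Eq] at h2
    simp only at h2 ⊢
    show (u1 ^ k * v1) ^ m = (σ * u1 ^ m) ^ k * eval ![σ * u1 ^ m, u1 ^ k * v1] h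
    rw [mul_pow, h2, mul_pow, ← pow_mul, ← pow_mul, mul_comm m k]
    ring
  have hul := (C.raw σ hσ).u_le hHle hfin' hE
  have hvl := (C.raw σ hσ).v_le hHle hu hE
  change u ≤ (8 * m * H) ^ (4 * N * m) at hul
  change |v| ≤ H * u ^ (m * N) at hvl
  refine ⟨?_, ?_⟩
  · rw [hxu, abs_mul, hσ, one_mul, abs_pow, abs_of_pos hu]
    calc u ^ m ≤ ((8 * m * H) ^ (4 * N * m)) ^ m := pow_le_pow_left₀ hu.le hul _
      _ = (8 * m * H) ^ (4 * N * m * m) := by rw [← pow_mul]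
  · rw [hyv, abs_mul, abs_pow, abs_of_pos hu]
    have hHY : (H : ℤ) ≤ 8 * m * H := by
      have h1 : (1 : ℤ) ≤ m := by exact_mod_cast (by omega : 1 ≤ m)
      nlinarith
    calc u ^ k * |v| ≤ u ^ k * (H * u ^ (m * N)) := mul_le_mul_of_nonneg_left hvl (by positivity)
      _ = u ^ (k + m * N) * H := by rw [pow_add]; ring
      _ ≤ ((8 * m * H) ^ (4 * N * m)) ^ (k + m * N) * (8 * m * H) :=
          mul_le_mul (pow_le_pow_left₀ hu.le hul _) hHY (by positivity) (by positivity)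
      _ = (8 * m * H) ^ (4 * N * m * (k + m * N) + 1) := by rw [← pow_mul, ← pow_succ]

end Cls

end Pool.Agent.H20.RU
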