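import Pool.Agent.H20.RU7
import Pool.Agent.H20.Comp

/-!
# Coefficient lists, computability, and the final bound
-/

set_option autoImplicit false

open Finset

namespace Pool.Agent.H20.RU

/-! ### computability -/

lemma primrec_pow' {γ : Type} [Primcodable γ] {f g : γ → ℕ} (hf : Primrec f) (hg : Primrec g) :
    Primrec (fun x => f x ^ g x) := by
  have h : (fun x => f x ^ g x) =
      fun x => Nat.rec (motive := fun _ => ℕ) 1 (fun _ r => r * f x) (g x) := by
    funext x
    induction g x with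
    | zero => rfl
    | succ n ih => rw [pow_succ, ih]
  rw [h]
  exact Primrec.nat_rec' (f := g) (g := fun _ => 1) (h := fun x p => p.2 * f x) hg
    (Primrec.const 1) (Primrec.nat_mul.comp (Primrec.snd.comp Primrec.snd)
      (hf.comp Primrec.fst))

/-- the degree of a list of monomials -/
def dg (L : List (ℕ × ℕ × ℤ)) : ℕ := L.foldr (fun t d => max (t.1 + t.2.1) d) 0

lemma primrec_dg : Primrec dg := by
  unfold dg
  refine Primrec.list_foldr (f := fun L : List (ℕ × ℕ × ℤ) => L) (g := fun _ => (0 : ℕ))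
    (h := fun _ p => max (p.1.1 + p.1.2.1) p.2) Primrec.id (Primrec.const 0) ?_
  refine Primrec.nat_max.comp (Primrec.nat_add.comp ?_ ?_) ?_
  · exact Primrec.fst.comp (Primrec.fst.comp Primrec.snd)
  · exact Primrec.fst.comp (Primrec.snd.comp (Primrec.fst.comp Primrec.snd))
  · exact Primrec.snd.comp Primrec.snd

/-- the bound -/
def bd (L : List (ℕ × ℕ × ℤ)) : ℕ :=
  (8 * dg L * (L.map (fun t => t.2.2.natAbs)).sum) ^ (4 * dg L ^ 4)

lemma computable_bd : Computable bd := by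
  unfold bd
  refine (primrec_pow' ?_ ?_).to_comp
  · exact Primrec.nat_mul.comp (Primrec.nat_mul.comp (Primrec.const 8) primrec_dg) primrec_sum
  · exact Primrec.nat_mul.comp (Primrec.const 4) (primrec_pow' primrec_dg (Primrec.const 4))

/-! ### coefficients -/

open MvPolynomial

/-- the polynomial of a list of monomials -/
noncomputable def pl (L : List (ℕ × ℕ × ℤ)) : MvPolynomial (Fin 2) ℤ :=
  (L.map (fun t => C t.2.2 * X 0 ^ t.1 * X 1 ^ t.2.1)).sum

lemma pl_cons (t : ℕ × ℕ × ℤ) (L : List (ℕ × ℕ × ℤ)) :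
    pl (t :: L) = C t.2.2 * X 0 ^ t.1 * X 1 ^ t.2.1 + pl L := by
  simp [pl]

lemma mon_eq (i j : ℕ) (c : ℤ) : (C c * X 0 ^ i * X 1 ^ j : MvPolynomial (Fin 2) ℤ) =
    monomial (Finsupp.single 0 i + Finsupp.single 1 j) c := by
  rw [X_pow_eq_monomial, X_pow_eq_monomial, C_mul_monomial, monomial_mul, mul_one, mul_one]

lemma eval_pl (L : List (ℕ × ℕ × ℤ)) (x y : ℤ) :
    eval ![x, y] (pl L) = (L.map (fun t => t.2.2 * x ^ t.1 * y ^ t.2.1)).sum := by
  unfold pl
  rw [map_list_sum, List.map_map]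
  congr 1
  refine List.map_congr_left (fun t _ => ?_)
  simp

lemma dg_le (L : List (ℕ × ℕ × ℤ)) (j : Fin 2 →₀ ℕ) (h : (pl L).coeff j ≠ 0) :
    j 0 + j 1 ≤ dg L := by
  classical
  induction L with
  | nil => simp [pl] at h
  | cons t L ih =>
    have hdg : dg (t :: L) = max (t.1 + t.2.1) (dg L) := rfl
    rw [hdg]
    by_cases h1 : (pl L).coeff j = 0
    · rw [pl_cons, coeff_add, h1, add_zero, mon_eq, coeff_monomial] at h
      have h2 : Finsupp.single 0 t.1 + Finsupp.single 1 t.2.1 = j := by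
        by_contra h3
        exact h (if_neg h3)
      rw [← h2]
      simp
    · exact (ih h1).trans (le_max_right _ _)

lemma sum_le (L : List (ℕ × ℕ × ℤ)) (s : Finset (Fin 2 →₀ ℕ)) :
    ∑ j ∈ s, |(pl L).coeff j| ≤ ((L.map (fun t => t.2.2.natAbs)).sum : ℕ) := by
  classical
  induction L with
  | nil => simp [pl]
  | cons t L ih =>
    have h1 : ∑ j ∈ s, |(pl (t :: L)).coeff j| ≤
        ∑ j ∈ s, |(C t.2.2 * X 0 ^ t.1 * X 1 ^ t.2.1 : MvPolynomial (Fin 2) ℤ).coeff j| +
        ∑ j ∈ s, |(pl L).coeff j| := by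
      rw [← Finset.sum_add_distrib]
      refine Finset.sum_le_sum fun j _ => ?_
      rw [pl_cons, coeff_add]
      exact abs_add_le _ _
    have h2 : ∑ j ∈ s, |(C t.2.2 * X 0 ^ t.1 * X 1 ^ t.2.1 : MvPolynomial (Fin 2) ℤ).coeff j| ≤
        t.2.2.natAbs := by
      simp only [mon_eq, coeff_monomial]
      have h3 : ∀ j ∈ s, |if Finsupp.single 0 t.1 + Finsupp.single 1 t.2.1 = j then t.2.2 else 0| =
          if Finsupp.single 0 t.1 + Finsupp.single 1 t.2.1 = j then |t.2.2| else 0 := by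
        intro j _
        split_ifs
        · rfl
        · exact abs_zero
      rw [Finset.sum_congr rfl h3, Finset.sum_ite_eq]
      split_ifs
      · exact le_of_eq (Int.abs_eq_natAbs _)
      · positivity
    rw [List.map_cons, List.sum_cons]
    push_cast
    push_cast at ih h2
    linarith

/-! ### the final bound -/

lemma expo {m k N D : ℕ} (hm : 2 ≤ m) (hk : 1 ≤ k) (hN : 1 ≤ N) (hmD : m ≤ D) (hkN : k + N ≤ D) :
    4 * N * m * m ≤ 4 * D ^ 4 ∧ 4 * N * m * (k + m * N) + 1 ≤ 4 * D ^ 4 := by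
  obtain ⟨M, rfl⟩ : ∃ M, D = M + 1 := ⟨D - 1, by omega⟩
  have hNM : N ≤ M := by omega
  have hM : 1 ≤ M := by omega
  have h1 : k + m * N ≤ (M + 1) ^ 2 := by
    have h2 : m * N ≤ (M + 1) * M := Nat.mul_le_mul hmD hNM
    nlinarith
  have h3 : N * m ≤ M * (M + 1) := Nat.mul_le_mul hNM hmD
  constructor
  · have h4 : N * m * m ≤ M * (M + 1) * (M + 1) := Nat.mul_le_mul h3 hmD
    have h5 : M * (M + 1) * (M + 1) ≤ (M + 1) ^ 4 := by
      have h6 : (M + 1) ^ 4 = (M + 1) * (M + 1) * (M + 1) * (M + 1) := by ring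
      rw [h6]
      have h7 : M * (M + 1) * (M + 1) ≤ (M + 1) * (M + 1) * (M + 1) := by
        gcongr
        omega
      exact h7.trans (Nat.le_mul_of_pos_right _ (by omega))
    nlinarith
  · have h4 : N * m * (k + m * N) ≤ M * (M + 1) * (M + 1) ^ 2 := Nat.mul_le_mul h3 h1
    have h5 : M * (M + 1) * (M + 1) ^ 2 + 1 ≤ (M + 1) ^ 4 := by
      have h6 : (M + 1) ^ 4 = M * (M + 1) * (M + 1) ^ 2 + (M + 1) ^ 3 := by ring
      rw [h6]
      have h7 : 1 ≤ (M + 1) ^ 3 := Nat.one_le_pow _ _ (by omega)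
      omega
    nlinarith

theorem final {L : List (ℕ × ℕ × ℤ)} {m k N : ℕ} {α : ℤ} {h : MvPolynomial (Fin 2) ℤ}
    (hC : Cls m k N α h) (hf : pl L = X 1 ^ m - X 0 ^ k * h)
    (hfin : {p : ℤ × ℤ | (L.map (fun t => t.2.2 * p.1 ^ t.1 * p.2 ^ t.2.1)).sum = 0}.Finite)
    {x y : ℤ} (hxy : (L.map (fun t => t.2.2 * x ^ t.1 * y ^ t.2.1)).sum = 0)
    (hc : IsCoprime x (h.coeff 0)) : x.natAbs ≤ bd L ∧ y.natAbs ≤ bd L := by
  classical
  have hev : ∀ x y : ℤ, (L.map (fun t => t.2.2 * x ^ t.1 * y ^ t.2.1)).sum =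
      y ^ m - x ^ k * eval ![x, y] h := by
    intro x y
    rw [← eval_pl, hf]
    simp
  have hk := hC.hk
  have hm := hC.hm
  have hN := hC.hN
  -- coefficients of `h`
  have hX : ∀ j : Fin 2 →₀ ℕ, (X 0 ^ k * h : MvPolynomial (Fin 2) ℤ).coeff
      (Finsupp.single 0 k + j) = h.coeff j := by
    intro j
    rw [X_pow_eq_monomial, coeff_monomial_mul, one_mul]
  have hcoef : ∀ j : Fin 2 →₀ ℕ, (pl L).coeff (Finsupp.single 0 k + j) = -h.coeff j := by
    intro j
    rw [hf, coeff_sub, hX, X_pow_eq_monomial, coeff_monomial, if_neg, zero_sub]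
    intro h1
    have h2 := congrArg (fun f : Fin 2 →₀ ℕ => f 0) h1
    simp at h2
    omega
  have hcoefm : (pl L).coeff (Finsupp.single 1 m) = 1 := by
    rw [hf, coeff_sub, X_pow_eq_monomial, coeff_monomial, if_pos rfl, X_pow_eq_monomial,
      coeff_monomial_mul', if_neg, sub_zero]
    intro h1
    have h2 := h1 0
    simp at h2
    omega
  have hlead : h.coeff (Finsupp.single 0 N) ≠ 0 := by
    intro h2
    have h3 := hC.lead
    rw [h2, abs_zero] at h3
    have h4 : 0 < α ^ m := pow_pos (by have := hC.hα; omega) _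
    omega
  have hmD : m ≤ dg L := by
    have h1 := dg_le L (Finsupp.single 1 m) (by rw [hcoefm]; exact one_ne_zero)
    simpa using h1
  have hkN : k + N ≤ dg L := by
    have h1 := dg_le L (Finsupp.single 0 k + Finsupp.single 0 N)
      (by rw [hcoef]; exact neg_ne_zero.mpr hlead)
    simpa using h1
  have hH : ∑ j ∈ h.support, |h.coeff j| ≤
      (((L.map (fun t => t.2.2.natAbs)).sum : ℕ) : ℤ) := by
    have h1 := sum_le L (h.support.map (addLeftEmbedding (Finsupp.single 0 k)))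
    rw [Finset.sum_map] at h1
    refine le_trans (le_of_eq ?_) h1
    refine Finset.sum_congr rfl fun j _ => ?_
    rw [addLeftEmbedding_apply, hcoef, abs_neg]
  have hfin' : {p : ℤ × ℤ | p.2 ^ m = p.1 ^ k * eval ![p.1, p.2] h}.Finite := by
    refine hfin.subset ?_
    intro p hp
    show _ = _
    rw [hev]
    exact sub_eq_zero.mpr hp
  have heq : y ^ m = x ^ k * eval ![x, y] h := by
    rw [hev] at hxy
    exact sub_eq_zero.mp hxy
  obtain ⟨h1, h2⟩ := hC.main hH hfin' heq hc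
  obtain ⟨e1, e2⟩ := expo hm hk hN hmD hkN
  set H := (L.map (fun t => t.2.2.natAbs)).sum with hHdef
  have hH1 : 1 ≤ H := (hC.raw_Hle 1 (by norm_num) hH).1
  have hbase : 8 * m * H ≤ 8 * dg L * H := by gcongr
  have hb1 : 1 ≤ 8 * dg L * H := by
    have : 1 ≤ dg L := by omega
    nlinarith
  have key : ∀ e, e ≤ 4 * dg L ^ 4 → (8 * m * H) ^ e ≤ bd L := by
    intro e he
    calc (8 * m * H) ^ e ≤ (8 * dg L * H) ^ e := Nat.pow_le_pow_left hbase e
      _ ≤ (8 * dg L * H) ^ (4 * dg L ^ 4) := Nat.pow_le_pow_right hb1 he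
      _ = bd L := rfl
  constructor
  · have h3 : x.natAbs ≤ (8 * m * H) ^ (4 * N * m * m) := by
      have h4 : ((x.natAbs : ℕ) : ℤ) ≤ (8 * m * H) ^ (4 * N * m * m) := by
        rw [Int.natCast_natAbs]
        exact h1
      exact_mod_cast h4
    exact h3.trans (key _ e1)
  · have h3 : y.natAbs ≤ (8 * m * H) ^ (4 * N * m * (k + m * N) + 1) := by
      have h4 : ((y.natAbs : ℕ) : ℤ) ≤ (8 * m * H) ^ (4 * N * m * (k + m * N) + 1) := by
        rw [Int.natCast_natAbs]
        exact h2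
      exact_mod_cast h4
    exact h3.trans (key _ e2)

end Pool.Agent.H20.RU
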