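import Pool.Agent.H20.L1

set_option autoImplicit false

namespace Pool.Agent.H20

open Polynomial Finset

/-- seminorm on `ℤ[X]` -/
noncomputable abbrev nrm1 : Nrm ℤ[X] := nrmInt.poly
/-- seminorm on `ℤ[X][Y]` -/
noncomputable abbrev nrm2 : Nrm ℤ[X][X] := nrm1.poly

lemma res_ne_zero (f W : ℤ[X][X]) (hf : f.Monic) (hirr : Irreducible f) (h : ¬ f ∣ W) :
    resultant f W ≠ 0 := by
  have hinj : Function.Injective (algebraMap ℤ[X] (FractionRing ℤ[X])) :=
    IsFractionRing.injective ℤ[X] (FractionRing ℤ[X])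
  have hirr' : Irreducible (f.map (algebraMap ℤ[X] (FractionRing ℤ[X]))) :=
    (Monic.irreducible_iff_irreducible_map_fraction_map hf).mp hirr
  have hnd : ¬ (f.map (algebraMap ℤ[X] (FractionRing ℤ[X]))) ∣
      (W.map (algebraMap ℤ[X] (FractionRing ℤ[X]))) := by
    rw [Polynomial.map_dvd_map _ hinj hf]
    exact h
  have hco : IsCoprime (f.map (algebraMap ℤ[X] (FractionRing ℤ[X])))
      (W.map (algebraMap ℤ[X] (FractionRing ℤ[X]))) :=
    (Irreducible.coprime_iff_not_dvd hirr').mpr hnd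
  have h1 := resultant_ne_zero _ _ hco
  rw [natDegree_map_eq_of_injective hinj, natDegree_map_eq_of_injective hinj,
    resultant_map_map] at h1
  intro h0
  rw [h0, map_zero] at h1
  exact h1 rfl

lemma res_l1_le (f W : ℤ[X][X]) (m n : ℕ) (B : ℝ) (hfB : nrm2.v f ≤ B) (hWB : nrm2.v W ≤ B) :
    nrm1.v (resultant f W m n) ≤ ((m + n).factorial : ℝ) * B ^ (m + n) := by
  have hB : 0 ≤ B := (nrm2.nonneg f).trans hfB
  unfold resultant
  refine nrm1.det_le _ B (fun i j => ?_)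
  unfold sylvester
  rw [Matrix.of_apply]
  refine Fin.addCases (fun j₁ => ?_) (fun j₁ => ?_) j
  · rw [Fin.addCases_left]
    split_ifs
    · exact (nrm1.coeff_le _ _).trans hWB
    · rw [nrm1.zero]; exact hB
  · rw [Fin.addCases_right]
    split_ifs
    · exact (nrm1.coeff_le _ _).trans hfB
    · rw [nrm1.zero]; exact hB

lemma abs_pow_le_of_dvd (R : ℤ[X]) (hR : R ≠ 0) (a : ℤ) (ha : a ≠ 0) (m : ℕ)
    (h : (X - C a) ^ m ∣ R) : |(a : ℝ)| ^ m ≤ nrmInt.l1 R := by
  obtain ⟨S, rfl⟩ := h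
  have hS : S ≠ 0 := right_ne_zero_of_mul hR
  have h1 : (X - C a : ℤ[X]).trailingCoeff = -a := by
    unfold trailingCoeff
    have : (X - C a : ℤ[X]).natTrailingDegree = 0 := by
      rw [natTrailingDegree_eq_zero]
      right
      simp [ha]
    rw [this]; simp
  have h2 : ((X - C a) ^ m * S).trailingCoeff = (-a) ^ m * S.trailingCoeff := by
    have hp : ∀ k : ℕ, ((X - C a : ℤ[X]) ^ k).trailingCoeff = (-a) ^ k := by
      intro k
      induction k with
      | zero => simp [trailingCoeff]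
      | succ k ih => rw [pow_succ, trailingCoeff_mul, ih, h1, pow_succ]
    rw [trailingCoeff_mul, hp]
  have h3 : (1 : ℝ) ≤ |(S.trailingCoeff : ℝ)| := by
    have h4 : S.trailingCoeff ≠ 0 := trailingCoeff_nonzero_iff_nonzero.mpr hS
    have : (1 : ℤ) ≤ |S.trailingCoeff| := Int.one_le_abs h4
    exact_mod_cast this
  have h5 : nrmInt.v (((X - C a) ^ m * S).trailingCoeff) ≤ nrmInt.l1 ((X - C a) ^ m * S) :=
    nrmInt.coeff_le _ _
  rw [h2] at h5
  refine le_trans ?_ h5
  change |(a : ℝ)| ^ m ≤ |(((-a) ^ m * S.trailingCoeff : ℤ) : ℝ)|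
  push_cast
  rw [abs_mul, abs_pow, abs_neg]
  have : 0 ≤ |(a : ℝ)| ^ m := by positivity
  nlinarith

end Pool.Agent.H20
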