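import Mathlib

set_option autoImplicit false

namespace Pool.Agent.H20.G

open PowerSeries

section

variable {A : Type*} [Field A] [CharZero A]

omit [CharZero A] in
/-- two ring homomorphisms from power series agreeing at `X` -/
lemma ps_hom_unique (S S' : ℚ⟦X⟧ →+* A⟦X⟧) (h1 : S X = S' X) (h2 : (X : A⟦X⟧) ∣ S X) :
    S = S' := by
  have hC : ∀ r : ℚ, S (C r) = S' (C r) := by
    intro r
    have h3 : S.comp (C (R := ℚ)) = S'.comp C := Subsingleton.elim _ _
    exact RingHom.congr_fun h3 r
  have hP : ∀ P : Polynomial ℚ, S (P : ℚ⟦X⟧) = S' (P : ℚ⟦X⟧) := by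
    intro P
    induction P using Polynomial.induction_on' with
    | add p q hp hq => rw [Polynomial.coe_add, map_add, map_add, hp, hq]
    | monomial n a =>
      rw [← Polynomial.C_mul_X_pow_eq_monomial, Polynomial.coe_mul, Polynomial.coe_pow,
        Polynomial.coe_C, Polynomial.coe_X, map_mul, map_mul, map_pow, map_pow, hC, h1]
  ext α n
  have h3 := eq_X_pow_mul_shift_add_trunc (n + 1) α
  have h4 : (X : A⟦X⟧) ^ (n + 1) ∣ S α - S' α := by
    rw [h3, map_add, map_add, hP, map_mul, map_mul, map_pow, map_pow, ← h1]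
    refine ⟨?_, ?_⟩
    · exact (h2.choose) ^ (n + 1) * (S (mk fun i ↦ coeff (i + (n + 1)) α)
        - S' (mk fun i ↦ coeff (i + (n + 1)) α))
    · conv_lhs => rw [h2.choose_spec]
      ring
  rw [X_pow_dvd_iff] at h4
  have h5 := h4 n (by omega)
  rw [map_sub, sub_eq_zero] at h5
  exact h5

/-- substitution of a power series without constant term -/
noncomputable def Sb (T : A⟦X⟧) (hT : constantCoeff T = 0) : ℚ⟦X⟧ →+* A⟦X⟧ :=
  (substAlgHom (R := ℚ) (S := A) (τ := Unit) (HasSubst.of_constantCoeff_zero' hT)).toRingHom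

lemma Sb_X (T : A⟦X⟧) (hT : constantCoeff T = 0) : Sb T hT X = T := by
  change substAlgHom (HasSubst.of_constantCoeff_zero' hT) (X : ℚ⟦X⟧) = T
  rw [coe_substAlgHom, subst_X (HasSubst.of_constantCoeff_zero' hT)]

lemma Sb_C (T : A⟦X⟧) (hT : constantCoeff T = 0) (r : ℚ) :
    Sb T hT (C r) = C (algebraMap ℚ A r) := by
  have h : (Sb T hT).comp (C (R := ℚ)) = (C (R := A)).comp (algebraMap ℚ A) :=
    Subsingleton.elim _ _
  exact RingHom.congr_fun h r

lemma Sb_injective (T : A⟦X⟧) (hT : constantCoeff T = 0) (hT0 : T ≠ 0) :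
    Function.Injective (Sb T hT) := by
  rw [injective_iff_map_eq_zero]
  intro α hα
  by_contra hne
  have h1 : X ^ α.order.toNat * divXPowOrder α = α := X_pow_order_mul_divXPowOrder
  have h2 := isUnit_divided_by_X_pow_order hne
  rw [← h1, map_mul, map_pow, Sb_X] at hα
  rcases mul_eq_zero.mp hα with h3 | h3
  · exact pow_ne_zero _ hT0 h3
  · exact (h2.map (Sb T hT)).ne_zero h3

end

/-- Finite generation of the power series over a number field over the power series in `t`,
where `t = s^e · unit`. -/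
lemma ps_generate {A : Type} [Field A] [NumberField A] (e : ℕ) (he : 1 ≤ e) (U : A⟦X⟧)
    (hU : IsUnit U) (T : A⟦X⟧) (hT : T = X ^ e * U) (hT0 : constantCoeff T = 0) (y : A⟦X⟧) :
    ∃ a : Fin (Module.finrank ℚ A) × Fin e → ℚ⟦X⟧,
      y = ∑ i, Sb T hT0 (a i) * (C (Module.finBasis ℚ A i.1) * X ^ (i.2 : ℕ)) := by
  classical
  set β := Module.finBasis ℚ A with hβ
  obtain ⟨V, hV⟩ := hU.exists_right_inv
  -- one step
  have step : ∀ z : A⟦X⟧, ∃ (r : Fin (Module.finrank ℚ A) × Fin e → ℚ) (z' : A⟦X⟧),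
      z = ∑ i, C (algebraMap ℚ A (r i)) * (C (β i.1) * X ^ (i.2 : ℕ)) + T * z' := by
    intro z
    refine ⟨fun i => β.repr (coeff (i.2 : ℕ) z) i.1,
      V * mk (fun i => coeff (i + e) z), ?_⟩
    have h1 := eq_X_pow_mul_shift_add_trunc e z
    have h2 : (trunc e z : A⟦X⟧)
        = ∑ i : Fin (Module.finrank ℚ A) × Fin e,
          C (algebraMap ℚ A (β.repr (coeff (i.2 : ℕ) z) i.1)) * (C (β i.1) * X ^ (i.2 : ℕ)) := by
      rw [Fintype.sum_prod_type, Finset.sum_comm]
      ext n
      rw [Polynomial.coeff_coe, coeff_trunc, map_sum]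
      have h3 : ∀ j : Fin e, coeff n (∑ i, C (algebraMap ℚ A (β.repr (coeff (j : ℕ) z) i)) *
          (C (β i) * X ^ (j : ℕ))) = if n = j then coeff n z else 0 := by
        intro j
        have h4 : ∑ i, C (algebraMap ℚ A (β.repr (coeff (j : ℕ) z) i)) *
            (C (β i) * X ^ (j : ℕ)) = C (coeff (j : ℕ) z) * X ^ (j : ℕ) := by
          conv_rhs => rw [← β.sum_repr (coeff (j : ℕ) z)]
          rw [map_sum, Finset.sum_mul]
          refine Finset.sum_congr rfl (fun i _ => ?_)
          rw [Algebra.smul_def, map_mul]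
          ring
        rw [h4, coeff_C_mul, coeff_X_pow]
        split_ifs with h5
        · rw [h5, mul_one]
        · rw [mul_zero]
      rw [Finset.sum_congr rfl (fun j _ => h3 j)]
      by_cases hn : n < e
      · rw [if_pos hn, Finset.sum_eq_single (⟨n, hn⟩ : Fin e)]
        · rw [if_pos rfl]
        · intro j _ hj
          rw [if_neg]
          intro h6
          exact hj (Fin.ext h6.symm)
        · intro h6
          exact absurd (Finset.mem_univ _) h6
      · rw [if_neg hn]
        symm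
        apply Finset.sum_eq_zero
        intro j _
        rw [if_neg]
        intro h6
        exact hn (by rw [h6]; exact j.isLt)
    rw [← h2, hT]
    calc z = X ^ e * mk (fun i => coeff (i + e) z) + (trunc e z : A⟦X⟧) := h1
      _ = (trunc e z : A⟦X⟧) + X ^ e * (U * V) * mk (fun i => coeff (i + e) z) := by
          rw [hV]; ring
      _ = _ := by ring
  choose r nxt hstep using step
  let ys : ℕ → A⟦X⟧ := fun k => nxt^[k] y
  have hys : ∀ k, ys (k + 1) = nxt (ys k) := fun k => Function.iterate_succ_apply' _ _ _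
  let gen : Fin (Module.finrank ℚ A) × Fin e → A⟦X⟧ := fun i => C (β i.1) * X ^ (i.2 : ℕ)
  have hsum : ∀ K, y = ∑ i, (∑ k ∈ Finset.range K, C (algebraMap ℚ A (r (ys k) i)) * T ^ k) * gen i
      + T ^ K * ys K := by
    intro K
    induction K with
    | zero => simp [ys]
    | succ K ih =>
      conv_lhs => rw [ih, hstep (ys K)]
      rw [← hys]
      have h1 : ∀ i, (∑ k ∈ Finset.range (K + 1), C (algebraMap ℚ A (r (ys k) i)) * T ^ k) * gen i
          = (∑ k ∈ Finset.range K, C (algebraMap ℚ A (r (ys k) i)) * T ^ k) * gen i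
            + T ^ K * (C (algebraMap ℚ A (r (ys K) i)) * gen i) := by
        intro i
        rw [Finset.sum_range_succ]
        ring
      rw [Finset.sum_congr rfl (fun i _ => h1 i), Finset.sum_add_distrib, ← Finset.mul_sum]
      ring
  refine ⟨fun i => mk (fun k => r (ys k) i), ?_⟩
  ext n
  have hXT : (X : A⟦X⟧) ∣ T := X_dvd_iff.mpr hT0
  have hdiv : (X : A⟦X⟧) ^ (n + 1) ∣ y - ∑ i, Sb T hT0 (mk (fun k => r (ys k) i)) * gen i := by
    have hSb : ∀ i, ∃ q, Sb T hT0 (mk (fun k => r (ys k) i))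
        = (∑ k ∈ Finset.range (n + 1), C (algebraMap ℚ A (r (ys k) i)) * T ^ k)
          + T ^ (n + 1) * q := by
      intro i
      have h1 := eq_X_pow_mul_shift_add_trunc (n + 1) (mk (fun k => r (ys k) i))
      refine ⟨Sb T hT0 (mk fun j => coeff (j + (n + 1)) (mk fun k => r (ys k) i)), ?_⟩
      conv_lhs => rw [h1]
      rw [map_add, map_mul, map_pow, Sb_X, add_comm]
      congr 1
      have h2 : (trunc (n + 1) (mk fun k => r (ys k) i) : Polynomial ℚ)
          = ∑ k ∈ Finset.range (n + 1), Polynomial.C (r (ys k) i) * Polynomial.X ^ k := by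
        ext m
        rw [coeff_trunc, Polynomial.finsetSum_coeff]
        simp only [Polynomial.coeff_C_mul_X_pow, coeff_mk]
        rw [Finset.sum_ite_eq]
        simp
      rw [h2]
      have h3 : ((∑ k ∈ Finset.range (n + 1), Polynomial.C (r (ys k) i) * Polynomial.X ^ k :
          Polynomial ℚ) : ℚ⟦X⟧)
          = ∑ k ∈ Finset.range (n + 1), C (r (ys k) i) * X ^ k := by
        have h4 := map_sum (Polynomial.coeToPowerSeries.ringHom (R := ℚ))
          (fun k => Polynomial.C (r (ys k) i) * Polynomial.X ^ k) (Finset.range (n + 1))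
        simp only [Polynomial.coeToPowerSeries.ringHom_apply] at h4
        rw [h4]
        refine Finset.sum_congr rfl (fun k _ => ?_)
        rw [Polynomial.coe_mul, Polynomial.coe_pow, Polynomial.coe_C, Polynomial.coe_X]
      rw [h3, map_sum]
      refine Finset.sum_congr rfl (fun k _ => ?_)
      rw [map_mul, map_pow, Sb_C, Sb_X]
    choose q hq using hSb
    obtain ⟨τ, hτ⟩ := hXT
    refine ⟨τ ^ (n + 1) * (ys (n + 1) - ∑ i, q i * gen i), ?_⟩
    have h7 : ∑ i, Sb T hT0 (mk (fun k => r (ys k) i)) * gen i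
        = ∑ i, (∑ k ∈ Finset.range (n + 1), C (algebraMap ℚ A (r (ys k) i)) * T ^ k) * gen i
          + T ^ (n + 1) * ∑ i, q i * gen i := by
      rw [Finset.mul_sum, ← Finset.sum_add_distrib]
      refine Finset.sum_congr rfl (fun i _ => ?_)
      rw [hq i]
      ring
    have h5 : T ^ (n + 1) = X ^ (n + 1) * τ ^ (n + 1) := by rw [hτ, mul_pow]
    rw [h7]
    conv_lhs => rw [hsum (n + 1)]
    rw [h5]
    ring
  rw [X_pow_dvd_iff] at hdiv
  have h6 := hdiv n (by omega)
  rw [map_sub, sub_eq_zero] at h6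
  exact h6

end Pool.Agent.H20.G
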