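import Pool.Agent.H20.S1
import Pool.Agent.H20.G2

set_option autoImplicit false

namespace Pool.Agent.H20.G

open Polynomial NumberField Module

/-- Linear dependence of the powers of an element over the power series in the parameter. -/
lemma ps_dependent {A : Type} [Field A] [NumberField A] (e : ℕ) (he : 1 ≤ e) (U : PowerSeries A)
    (hU : IsUnit U) (T : PowerSeries A) (hT : T = PowerSeries.X ^ e * U)
    (hT0 : PowerSeries.constantCoeff T = 0) (Z : PowerSeries A) (d : ℕ)
    (hd : finrank ℚ A * e < d) :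
    ∃ G : (PowerSeries ℚ)[X], G ≠ 0 ∧ G.natDegree < d ∧ eval₂ (Sb T hT0) Z G = 0 := by
  classical
  set n := finrank ℚ A * e with hn
  have hcard : Fintype.card (Fin (finrank ℚ A) × Fin e) = n := by
    simp only [Fintype.card_prod, Fintype.card_fin]; rfl
  let eq : (Fin (finrank ℚ A) × Fin e) ≃ Fin n := Fintype.equivFinOfCardEq hcard
  choose a ha using fun k : ℕ => ps_generate e he U hU T hT hT0 (Z ^ k)
  let M : Matrix (Fin (n + 1)) (Fin (n + 1)) (PowerSeries ℚ) := fun k i =>
    if h : (i : ℕ) < n then a k (eq.symm ⟨i, h⟩) else 0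
  have hdet : M.det = 0 := by
    apply Matrix.det_eq_zero_of_column_eq_zero (Fin.last n)
    intro k
    simp only [M]
    rw [dif_neg]
    simp
  obtain ⟨v, hv0, hv⟩ := Matrix.exists_vecMul_eq_zero_iff.mpr hdet
  have hvi : ∀ i : Fin (finrank ℚ A) × Fin e, ∑ k, v k * a k i = 0 := by
    intro i
    have h1 := congrFun hv ⟨eq i, by have := (eq i).isLt; omega⟩
    simp only [Matrix.vecMul, dotProduct, Pi.zero_apply, M] at h1
    rw [← h1]
    refine Finset.sum_congr rfl (fun k _ => ?_)
    rw [dif_pos (eq i).isLt]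
    congr 2
    rw [Fin.eta, Equiv.symm_apply_apply]
  obtain ⟨k₀, hk₀⟩ : ∃ k, v k ≠ 0 := by
    by_contra hcon
    push Not at hcon
    exact hv0 (funext hcon)
  set G : (PowerSeries ℚ)[X] := ∑ k : Fin (n + 1), monomial (k : ℕ) (v k) with hG
  have hGc : G.coeff k₀ = v k₀ := by
    rw [hG, finsetSum_coeff, Finset.sum_eq_single k₀]
    · rw [coeff_monomial, if_pos rfl]
    · intro k _ hk
      rw [coeff_monomial, if_neg]
      intro h
      exact hk (Fin.ext h)
    · intro h
      exact absurd (Finset.mem_univ _) h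
  refine ⟨G, ?_, ?_, ?_⟩
  · intro h
    rw [h, coeff_zero] at hGc
    exact hk₀ hGc.symm
  · have : G.natDegree ≤ n := by
      refine natDegree_sum_le_of_forall_le _ _ (fun k _ => ?_)
      refine (natDegree_monomial_le _).trans ?_
      have := k.isLt
      omega
    omega
  · rw [hG, eval₂_finsetSum]
    have h1 : ∀ k : Fin (n + 1), eval₂ (Sb T hT0) Z (monomial (k : ℕ) (v k))
        = ∑ i, Sb T hT0 (v k * a k i) *
          (PowerSeries.C (Module.finBasis ℚ A i.1) * PowerSeries.X ^ (i.2 : ℕ)) := by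
      intro k
      rw [eval₂_monomial, ha k, Finset.mul_sum]
      refine Finset.sum_congr rfl (fun i _ => ?_)
      rw [map_mul]
      ring
    rw [Finset.sum_congr rfl (fun k _ => h1 k), Finset.sum_comm]
    refine Finset.sum_eq_zero (fun i _ => ?_)
    rw [← Finset.sum_mul, ← map_sum, hvi i, map_zero, zero_mul]

lemma res_ne_zero' {R : Type*} [CommRing R] [IsDomain R] [IsIntegrallyClosed R] (f W : R[X])
    (hf : f.Monic) (hirr : Irreducible f) (h : ¬ f ∣ W) : resultant f W ≠ 0 := by
  have hinj : Function.Injective (algebraMap R (FractionRing R)) :=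
    IsFractionRing.injective R (FractionRing R)
  have hirr' : Irreducible (f.map (algebraMap R (FractionRing R))) :=
    (Monic.irreducible_iff_irreducible_map_fraction_map hf).mp hirr
  have hnd : ¬ (f.map (algebraMap R (FractionRing R))) ∣
      (W.map (algebraMap R (FractionRing R))) := by
    rw [Polynomial.map_dvd_map _ hinj hf]
    exact h
  have hco : IsCoprime (f.map (algebraMap R (FractionRing R)))
      (W.map (algebraMap R (FractionRing R))) :=
    (Irreducible.coprime_iff_not_dvd hirr').mpr hnd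
  have h1 := resultant_ne_zero _ _ hco
  rw [natDegree_map_eq_of_injective hinj, natDegree_map_eq_of_injective hinj,
    resultant_map_map] at h1
  intro h0
  rw [h0, map_zero] at h1
  exact h1 rfl

lemma F0_monic {R : Type*} [CommRing R] [Nontrivial R] (d : ℕ) (c : ℕ → ℕ → ℤ) (hc : c 0 d = 1)
    (t : R) : (F0 d c (C t) (X : R[X])).Monic ∧ (F0 d c (C t) (X : R[X])).natDegree = d := by
  have h1 : F0 d c (C t) (X : R[X]) = ∑ j ∈ Finset.range (d + 1),
      monomial j (∑ i ∈ Finset.range (d + 1 - j), ((c i j : ℤ) : R) * t ^ (d - i - j)) := by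
    unfold F0
    refine Finset.sum_congr rfl (fun j _ => ?_)
    rw [← C_mul_X_pow_eq_monomial, map_sum, Finset.sum_mul]
    refine Finset.sum_congr rfl (fun i _ => ?_)
    rw [C_mul, C_pow, map_intCast]
  have h2 : (F0 d c (C t) (X : R[X])).coeff d = 1 := by
    rw [h1, finsetSum_coeff, Finset.sum_eq_single d]
    · rw [coeff_monomial, if_pos rfl]
      have h3 : d + 1 - d = 1 := by omega
      rw [h3, Finset.sum_range_one, hc]
      simp
    · intro j _ hj
      rw [coeff_monomial, if_neg hj]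
    · intro h
      exact absurd (Finset.mem_range.mpr (by omega)) h
  have h3 : (F0 d c (C t) (X : R[X])).natDegree ≤ d := by
    rw [h1]
    refine natDegree_sum_le_of_forall_le _ _ (fun j hj => ?_)
    refine (natDegree_monomial_le _).trans ?_
    have := Finset.mem_range.mp hj
    omega
  refine ⟨monic_of_natDegree_le_of_coeff_eq_one d h3 h2, le_antisymm h3 ?_⟩
  apply le_natDegree_of_ne_zero
  rw [h2]
  exact one_ne_zero

/-- the conjugates of a power series -/
noncomputable def cj {E : Type} [Field E] (σ : E →+* ℂ) (x : ℂ) : PowerSeries E →+* PowerSeries ℂ :=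
  (PowerSeries.rescale x).comp (PowerSeries.map σ)

lemma cj_coeff {E : Type} [Field E] (σ : E →+* ℂ) (x : ℂ) (Z : PowerSeries E) (n : ℕ) :
    PowerSeries.coeff n (cj σ x Z) = x ^ n * σ (PowerSeries.coeff n Z) := by
  unfold cj
  rw [RingHom.comp_apply, PowerSeries.coeff_rescale, PowerSeries.coeff_map]

/-- If a place has degree equal to the degree of the curve, there is no smaller place. -/
theorem full_place {E : Type} [Field E] [NumberField E] (w : E) (hw : w ≠ 0) (m : ℕ) (hm : 1 ≤ m)
    (Z : PowerSeries E) (d : ℕ) (c : ℕ → ℕ → ℤ) (hc : c 0 d = 1)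
    (hF : F0 d c (PowerSeries.C w * PowerSeries.X ^ m) Z = 0)
    (hdist : ∀ (σ σ' : E →+* ℂ) (x x' : ℂ), x ≠ 0 → x' ≠ 0 → σ w * x ^ m = 1 → σ' w * x' ^ m = 1 →
      cj σ x Z = cj σ' x' Z → σ = σ' ∧ x = x') (hfull : finrank ℚ E * m = d)
    {A : Type} [Field A] [NumberField A] (e : ℕ) (he : 1 ≤ e) (U : PowerSeries A) (hU : IsUnit U)
    (Z₀ : PowerSeries A) (h0 : F0 d c (PowerSeries.X ^ e * U) Z₀ = 0) : d ≤ finrank ℚ A * e := by
  classical
  by_contra hlt
  push Not at hlt
  have hT0 : PowerSeries.constantCoeff (PowerSeries.C w * PowerSeries.X ^ m) = 0 := by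
    rw [map_mul, map_pow, PowerSeries.constantCoeff_X, zero_pow (by omega), mul_zero]
  have hXm : PowerSeries.constantCoeff (PowerSeries.X ^ m : PowerSeries ℂ) = 0 := by
    rw [map_pow, PowerSeries.constantCoeff_X, zero_pow (by omega)]
  set S := Sb (PowerSeries.C w * PowerSeries.X ^ m) hT0 with hS
  set S' := Sb (PowerSeries.X ^ m : PowerSeries ℂ) hXm with hS'
  have hS'inj : Function.Injective S' := Sb_injective _ _ (pow_ne_zero _ PowerSeries.X_ne_zero)
  -- compatibility
  have hcomp : ∀ (σ : E →+* ℂ) (x : ℂ), σ w * x ^ m = 1 → (cj σ x).comp S = S' := by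
    intro σ x hx
    have h1 : ((cj σ x).comp S) PowerSeries.X = PowerSeries.X ^ m := by
      rw [RingHom.comp_apply, hS, Sb_X, map_mul, map_pow]
      unfold cj
      rw [RingHom.comp_apply, RingHom.comp_apply, PowerSeries.map_C, PowerSeries.map_X,
        PowerSeries.rescale_X, mul_pow, ← map_pow, ← mul_assoc]
      have h2 : PowerSeries.rescale x (PowerSeries.C (σ w)) = PowerSeries.C (σ w) := by
        ext n
        rw [PowerSeries.coeff_rescale, PowerSeries.coeff_C]
        split_ifs with h3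
        · rw [h3, pow_zero, one_mul]
        · rw [mul_zero]
      rw [h2, ← map_mul, hx, map_one, one_mul]
    apply ps_hom_unique
    · rw [h1, hS', Sb_X]
    · rw [h1]
      exact dvd_pow_self _ (by omega)
  -- small polynomials do not vanish
  have hsmall : ∀ G : (PowerSeries ℚ)[X], G ≠ 0 → G.natDegree < d → eval₂ S Z G ≠ 0 := by
    intro G hG hGd hG0
    have hroot : ∀ σ : E →+* ℂ, ∃ x : ℂ, σ w * x ^ m = 1 := by
      intro σ
      obtain ⟨x, hx⟩ := IsAlgClosed.exists_pow_nat_eq (σ w)⁻¹ (by omega : 0 < m)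
      refine ⟨x, ?_⟩
      rw [hx]
      exact mul_inv_cancel₀ ((map_ne_zero σ).mpr hw)
    choose x₀ hx₀ using hroot
    have hx₀ne : ∀ σ, x₀ σ ≠ 0 := by
      intro σ h1
      have := hx₀ σ
      rw [h1, zero_pow (by omega), mul_zero] at this
      exact zero_ne_one this
    obtain ⟨ω, hω⟩ : ∃ ω : ℂ, IsPrimitiveRoot ω m :=
      ⟨_, Complex.isPrimitiveRoot_exp m (by omega)⟩
    have hω0 : ω ≠ 0 := hω.ne_zero (by omega)
    have hx : ∀ (σ : E →+* ℂ) (k : ℕ), σ w * (x₀ σ * ω ^ k) ^ m = 1 := by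
      intro σ k
      rw [mul_pow, ← pow_mul, mul_comm k m, pow_mul, hω.pow_eq_one, one_pow, mul_one]
      exact hx₀ σ
    let f : (E →+* ℂ) × Fin m → PowerSeries ℂ := fun i => cj i.1 (x₀ i.1 * ω ^ (i.2 : ℕ)) Z
    have hf : Function.Injective f := by
      rintro ⟨σ, k⟩ ⟨σ', k'⟩ hij
      obtain ⟨h1, h2⟩ := hdist σ σ' _ _ (mul_ne_zero (hx₀ne σ) (pow_ne_zero _ hω0))
        (mul_ne_zero (hx₀ne σ') (pow_ne_zero _ hω0)) (hx σ k) (hx σ' k') hij
      subst h1
      have h3 := mul_left_cancel₀ (hx₀ne σ) h2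
      have h4 := hω.pow_inj k.isLt k'.isLt h3
      rw [Prod.mk.injEq]
      exact ⟨rfl, Fin.ext h4⟩
    have h1 : G.map S' = 0 := by
      refine eq_zero_of_natDegree_lt_card_of_eval_eq_zero (G.map S') hf ?_ ?_
      · rintro ⟨σ, k⟩
        simp only [f]
        rw [eval_map, ← hcomp σ _ (hx σ k), ← hom_eval₂, hG0, map_zero]
      · rw [Fintype.card_prod, Fintype.card_fin]
        have h2 : Fintype.card (E →+* ℂ) = finrank ℚ E := NumberField.Embeddings.card E ℂ
        rw [h2, hfull]
        exact lt_of_le_of_lt natDegree_map_le hGd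
    exact hG ((Polynomial.map_eq_zero_iff hS'inj).mp h1)
  -- the equation over the power series
  obtain ⟨hmon, hdeg⟩ := F0_monic d c hc (PowerSeries.X : PowerSeries ℚ)
  set 𝔽 : (PowerSeries ℚ)[X] := F0 d c (C PowerSeries.X) X with h𝔽
  have hev : ∀ {B : Type} [CommRing B] (ρ : PowerSeries ℚ →+* B) (z : B),
      eval₂ ρ z 𝔽 = F0 d c (ρ PowerSeries.X) z := by
    intro B _ ρ z
    have h1 := map_F0 (eval₂RingHom ρ z) d c (C PowerSeries.X) (X : (PowerSeries ℚ)[X])
    rw [coe_eval₂RingHom, eval₂_C, eval₂_X] at h1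
    exact h1
  have hd1 : 1 ≤ d := by
    have h1 : 0 < finrank ℚ E := finrank_pos
    have : 0 < finrank ℚ E * m := by positivity
    omega
  have hirr : Irreducible 𝔽 := by
    rw [hmon.irreducible_iff_natDegree]
    refine ⟨?_, ?_⟩
    · intro h1
      rw [h1, natDegree_one] at hdeg
      omega
    · intro f g hf hg hfg
      by_contra hcon
      push Not at hcon
      have hsum : f.natDegree + g.natDegree = d := by
        rw [← hdeg, ← hfg, hf.natDegree_mul hg]
      have h1 : eval₂ S Z (f * g) = 0 := by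
        rw [hfg, hev, hS, Sb_X]
        exact hF
      rw [eval₂_mul] at h1
      rcases mul_eq_zero.mp h1 with h2 | h2
      · exact hsmall f hf.ne_zero (by omega) h2
      · exact hsmall g hg.ne_zero (by omega) h2
  -- the other place
  have hT0' : PowerSeries.constantCoeff (PowerSeries.X ^ e * U : PowerSeries A) = 0 := by
    rw [map_mul, map_pow, PowerSeries.constantCoeff_X, zero_pow (by omega), zero_mul]
  obtain ⟨G, hG, hGd, hG0⟩ := ps_dependent e he U hU (PowerSeries.X ^ e * U) rfl hT0' Z₀ d hlt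
  have hnd : ¬ 𝔽 ∣ G := by
    intro hdvd
    have := natDegree_le_of_dvd hdvd hG
    omega
  have hres := res_ne_zero' 𝔽 G hmon hirr hnd
  obtain ⟨p, q, -, -, hpq⟩ := exists_mul_add_mul_eq_C_resultant 𝔽 G le_rfl le_rfl
    (Or.inl (by omega))
  have h1 := congrArg (eval₂ (Sb (PowerSeries.X ^ e * U) hT0') Z₀) hpq
  rw [eval₂_add, eval₂_mul, eval₂_mul, hG0, hev, Sb_X, h0, zero_mul, zero_mul, zero_add,
    eval₂_C] at h1
  apply hres
  apply Sb_injective (PowerSeries.X ^ e * U) hT0'
    (mul_ne_zero (pow_ne_zero _ PowerSeries.X_ne_zero) hU.ne_zero)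
  rw [map_zero]
  exact h1.symm

end Pool.Agent.H20.G
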