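import Pool.Agent.H20.S2
import Pool.Agent.H20.N12

set_option autoImplicit false

namespace Pool.Agent.H20.G

open Polynomial Finset NumberField Module

/-- the homogenised equation in three variables -/
def Hm {B : Type*} [CommRing B] (d : ℕ) (c : ℕ → ℕ → ℤ) (P Q τ : B) : B :=
  ∑ j ∈ range (d + 1), ∑ i ∈ range (d + 1 - j), (c i j : B) * P ^ i * Q ^ j * τ ^ (d - i - j)

lemma map_Hm {A B : Type*} [CommRing A] [CommRing B] (g : A →+* B) (d : ℕ) (c : ℕ → ℕ → ℤ)
    (P Q τ : A) : g (Hm d c P Q τ) = Hm d c (g P) (g Q) (g τ) := by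
  unfold Hm
  rw [map_sum]
  refine Finset.sum_congr rfl (fun j _ => ?_)
  rw [map_sum]
  refine Finset.sum_congr rfl (fun i _ => ?_)
  rw [map_mul, map_mul, map_mul, map_pow, map_pow, map_pow, map_intCast]

lemma evR_mul_pow {B : Type*} [CommRing B] (d : ℕ) (c : ℕ → ℕ → ℤ) (x y τ : B) :
    evR x y (fP d c) * τ ^ d = Hm d c (τ * x) (τ * y) τ := by
  rw [evR_fP]
  unfold Hm
  rw [Finset.sum_mul]
  refine Finset.sum_congr rfl (fun j hj => ?_)
  rw [Finset.sum_mul]
  refine Finset.sum_congr rfl (fun i hi => ?_)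
  have hj' := Finset.mem_range.mp hj
  have hi' := Finset.mem_range.mp hi
  have e1 : τ ^ d = τ ^ (d - i - j) * τ ^ i * τ ^ j := by
    rw [← pow_add, ← pow_add]; congr 1; omega
  rw [e1, mul_pow, mul_pow]
  ring

lemma F0_eq_Hm {B : Type*} [CommRing B] (d : ℕ) (c : ℕ → ℕ → ℤ) (P Q τ U : B) (hPU : P * U = 1) :
    F0 d c (τ * U) (Q * U) = U ^ d * Hm d c P Q τ := by
  unfold F0 Hm
  rw [Finset.mul_sum]
  refine Finset.sum_congr rfl (fun j hj => ?_)
  rw [Finset.mul_sum]
  refine Finset.sum_congr rfl (fun i hi => ?_)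
  have hj' := Finset.mem_range.mp hj
  have hi' := Finset.mem_range.mp hi
  have e1 : U ^ d = U ^ (d - i - j) * U ^ j * U ^ i := by
    rw [← pow_add, ← pow_add]; congr 1; omega
  have e2 : P ^ i * U ^ i = 1 := by rw [← mul_pow, hPU, one_pow]
  calc (c i j : B) * (τ * U) ^ (d - i - j) * (Q * U) ^ j
      = (c i j : B) * τ ^ (d - i - j) * Q ^ j * (U ^ (d - i - j) * U ^ j) := by
        rw [mul_pow, mul_pow]; ring
    _ = (c i j : B) * τ ^ (d - i - j) * Q ^ j * (U ^ (d - i - j) * U ^ j) * (P ^ i * U ^ i) := by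
        rw [e2, mul_one]
    _ = _ := by rw [e1]; ring

section

variable {A : Type*} [Field A]

/-- shifting a Laurent series into a power series -/
lemma exists_shift (X : LaurentSeries A) (e : ℕ) (h : ∀ n : ℤ, n < -(e : ℤ) → X.coeff n = 0) :
    ∃ P : PowerSeries A, HahnSeries.ofPowerSeries ℤ A P = HahnSeries.single (e : ℤ) (1 : A) * X ∧
      PowerSeries.constantCoeff P = X.coeff (-(e : ℤ)) := by
  refine ⟨PowerSeries.mk (fun n => X.coeff ((n : ℤ) - e)), ?_, ?_⟩
  · ext n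
    have h1 : n = (e : ℤ) + (n - e) := by ring
    have h2 : (HahnSeries.single (e : ℤ) (1 : A) * X).coeff n = X.coeff (n - e) := by
      conv_lhs => rw [h1, add_comm]
      rw [HahnSeries.coeff_single_mul_add, one_mul]
    rw [h2]
    rcases lt_or_ge n 0 with hn | hn
    · rw [h (n - e) (by omega), HahnSeries.ofPowerSeries_apply,
        HahnSeries.embDomain_of_notMem_range]
      rintro ⟨k, hk⟩
      have h10 : ((k : ℕ) : ℤ) = n := hk
      have h11 : (0 : ℤ) ≤ ((k : ℕ) : ℤ) := Int.natCast_nonneg k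
      omega
    · obtain ⟨k, rfl⟩ := Int.eq_ofNat_of_zero_le hn
      rw [HahnSeries.ofPowerSeries_apply_coeff, PowerSeries.coeff_mk]
  · rw [← PowerSeries.coeff_zero_eq_constantCoeff_apply, PowerSeries.coeff_mk]
    simp

/-- A branch at infinity of a curve in general position. -/
lemma branch_series (d : ℕ) (hd : 1 ≤ d) (c : ℕ → ℕ → ℤ) (hc : c 0 d = 1) (X Y : LaurentSeries A)
    (e : ℕ) (he : 1 ≤ e) (h0 : evR X Y (fP d c) = 0)
    (hlow : ∀ n : ℤ, n < -(e : ℤ) → X.coeff n = 0 ∧ Y.coeff n = 0)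
    (hne : X.coeff (-(e : ℤ)) ≠ 0 ∨ Y.coeff (-(e : ℤ)) ≠ 0) :
    ∃ U Z : PowerSeries A, IsUnit U ∧ F0 d c (PowerSeries.X ^ e * U) Z = 0 := by
  obtain ⟨P, hP, hP0⟩ := exists_shift X e (fun n hn => (hlow n hn).1)
  obtain ⟨Q, hQ, hQ0⟩ := exists_shift Y e (fun n hn => (hlow n hn).2)
  set ι := HahnSeries.ofPowerSeries ℤ A with hι
  have hιinj : Function.Injective ι := HahnSeries.ofPowerSeries_injective
  have hX : ι (PowerSeries.X ^ e) = HahnSeries.single (e : ℤ) (1 : A) := by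
    rw [hι, HahnSeries.ofPowerSeries_X_pow]
  have h1 := evR_mul_pow d c X Y (HahnSeries.single (e : ℤ) (1 : A))
  rw [h0, zero_mul, ← hP, ← hQ, ← hX, ← map_Hm] at h1
  have hHm : Hm d c P Q (PowerSeries.X ^ e) = 0 := hιinj (by rw [← h1, map_zero])
  -- the leading coefficient
  have hP0' : PowerSeries.constantCoeff P ≠ 0 := by
    intro hP00
    have h2 := congrArg PowerSeries.constantCoeff hHm
    rw [map_Hm, map_pow, PowerSeries.constantCoeff_X, zero_pow (by omega), map_zero] at h2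
    unfold Hm at h2
    rw [Finset.sum_eq_single d] at h2
    · have h3 : d + 1 - d = 1 := by omega
      rw [h3, Finset.sum_range_one, hc, Nat.sub_zero, Nat.sub_self, pow_zero, pow_zero] at h2
      have h4 : (PowerSeries.constantCoeff Q) ^ d = 0 := by simpa using h2
      have h5 := (pow_eq_zero_iff (by omega : d ≠ 0)).mp h4
      rw [hP0] at hP00
      rw [hQ0] at h5
      rcases hne with h6 | h6
      · exact h6 hP00
      · exact h6 h5
    · intro j hj hjd
      have hj' := Finset.mem_range.mp hj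
      refine Finset.sum_eq_zero (fun i hi => ?_)
      have hi' := Finset.mem_range.mp hi
      rcases Nat.eq_zero_or_pos i with hi0 | hi0
      · rw [zero_pow (by omega : d - i - j ≠ 0), mul_zero]
      · rw [hP00, zero_pow (by omega : i ≠ 0), mul_zero, zero_mul, zero_mul]
    · intro hn
      exact absurd (Finset.mem_range.mpr (by omega)) hn
  have hPu : IsUnit P := by
    rw [PowerSeries.isUnit_iff_constantCoeff]
    exact IsUnit.mk0 _ hP0'
  obtain ⟨U, hU⟩ := hPu.exists_right_inv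
  refine ⟨U, Q * U, IsUnit.of_mul_eq_one P (by rw [mul_comm]; exact hU), ?_⟩
  rw [F0_eq_Hm d c P Q (PowerSeries.X ^ e) U hU, hHm, mul_zero]

end

lemma eval₂_C_X {R A : Type*} [CommRing R] [CommRing A] (g : R →+* A) (V : R[X]) :
    eval₂ ((PowerSeries.C (R := A)).comp g) PowerSeries.X V
      = ((V.map g : A[X]) : PowerSeries A) := by
  induction V using Polynomial.induction_on' with
  | add p q hp hq => rw [eval₂_add, hp, hq, Polynomial.map_add, Polynomial.coe_add]
  | monomial n a =>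
    rw [eval₂_monomial, map_monomial, ← C_mul_X_pow_eq_monomial, Polynomial.coe_mul,
      Polynomial.coe_pow, Polynomial.coe_C, Polynomial.coe_X]
    rfl

lemma evA_zt {R A : Type*} [CommRing R] [CommRing A] (φ : R →+* A) (s ζ : A) (V : R[X]) (v : R)
    (k₀ : ℕ) : evA φ s ζ (zt V v k₀) = eval₂ φ s V + φ v * s ^ k₀ * ζ := by
  have h1 : evA φ s ζ (V.map C) = eval₂ φ s V := by
    induction V using Polynomial.induction_on' with
    | add p q hp hq => rw [Polynomial.map_add, map_add, hp, hq, eval₂_add]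
    | monomial n a =>
      rw [map_monomial, ← C_mul_X_pow_eq_monomial, map_mul, map_pow, evA_C, evA_X, eval₂_C,
        eval₂_monomial]
  unfold zt
  rw [map_add, h1, ← C_mul_X_pow_eq_monomial, map_mul, map_pow, evA_C, evA_X, eval₂_mul,
    eval₂_C, eval₂_X]
  ring

/-- The place at infinity given by a simple node of full degree is the only one. -/
theorem Node.no_small {d : ℕ} {c : ℕ → ℕ → ℤ} {a b : ℤ} (hd : 1 ≤ d) (hc : c 0 d = 1)
    (N : Node d c a b) (nf : NumberField N.E) (hr : N.r = 1) (hfull : finrank ℚ N.E * N.m = d)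
    {A : Type} [Field A] [NumberField A] (x y : LaurentSeries A) (e : ℕ) (he : 1 ≤ e)
    (h0 : evR x y (fP d c) = 0)
    (hlow : ∀ n : ℤ, n < -(e : ℤ) → x.coeff n = 0 ∧ y.coeff n = 0)
    (hne : x.coeff (-(e : ℤ)) ≠ 0 ∨ y.coeff (-(e : ℤ)) ≠ 0) : d ≤ finrank ℚ A * e := by
  obtain ⟨U, Z₀, hU, hZ₀⟩ := branch_series d hd c hc x y e he h0 hlow hne
  obtain ⟨z, hz0, hz⟩ := N.series hr
  have hw : (algebraMap (𝓞 N.E) N.E N.w) ≠ 0 := fun h0 =>
    N.w_ne (RingOfIntegers.coe_injective (by rw [map_zero]; exact h0))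
  set φ : 𝓞 N.E →+* PowerSeries N.E := PowerSeries.C.comp (algebraMap (𝓞 N.E) N.E) with hφ
  set Z : PowerSeries N.E := evA φ PowerSeries.X z (zt N.V N.v N.k₀) with hZ
  have hT : evA φ PowerSeries.X z (C (C N.w) * X ^ N.m)
      = PowerSeries.C (algebraMap (𝓞 N.E) N.E N.w) * PowerSeries.X ^ N.m := by
    rw [map_mul, map_pow, evA_C, evA_X, eval₂_C]
    rfl
  have hF : F0 d c (PowerSeries.C (algebraMap (𝓞 N.E) N.E N.w) * PowerSeries.X ^ N.m) Z = 0 := by
    have h6 := congrArg (evA φ PowerSeries.X z) N.rel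
    rw [map_F0, map_mul, hz, mul_zero, hT] at h6
    exact h6.symm
  have hZc : ∀ k ≤ N.k₀, PowerSeries.coeff k Z = algebraMap (𝓞 N.E) N.E (N.V.coeff k) := by
    intro k hk
    rw [hZ, evA_zt, hφ, eval₂_C_X, map_add, Polynomial.coeff_coe, coeff_map]
    have h7 : PowerSeries.coeff k ((PowerSeries.C.comp (algebraMap (𝓞 N.E) N.E)) N.v *
        PowerSeries.X ^ N.k₀ * z) = 0 := by
      have h8 : (PowerSeries.X : PowerSeries N.E) ∣ z := PowerSeries.X_dvd_iff.mpr hz0
      obtain ⟨z', hz'⟩ := h8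
      have h9 : (PowerSeries.C.comp (algebraMap (𝓞 N.E) N.E)) N.v * PowerSeries.X ^ N.k₀ * z
          = PowerSeries.X ^ (N.k₀ + 1) *
            ((PowerSeries.C.comp (algebraMap (𝓞 N.E) N.E)) N.v * z') := by
        rw [hz', pow_succ]; ring
      rw [h9]
      exact PowerSeries.X_pow_dvd_iff.mp ⟨_, rfl⟩ k (by omega)
    rw [h7, add_zero]
  refine full_place (algebraMap (𝓞 N.E) N.E N.w) hw N.m N.m_pos Z d c hc hF ?_ hfull e he U hU Z₀
    hZ₀
  intro σ σ' x x' hx hx' h1 h2 h3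
  refine N.dist σ σ' x x' hx hx' (by rw [h1, h2]) ?_
  intro k hk
  have h4 := congrArg (PowerSeries.coeff k) h3
  rw [cj_coeff, cj_coeff, hZc k hk] at h4
  linear_combination h4

end Pool.Agent.H20.G
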