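import Mathlib

set_option autoImplicit false

namespace Pool.Agent.H20.TD

/-- `m ≠ 0` and every prime factor of `m` lies in `S`. -/
def Smooth (S : Finset ℕ) (m : ℤ) : Prop := m ≠ 0 ∧ ∀ q : ℕ, q.Prime → (q : ℤ) ∣ m → q ∈ S

/-- The bound for the `m`-free part. -/
noncomputable def bd (S : Finset ℕ) (m : ℕ) : ℕ := (∏ q ∈ S.filter Nat.Prime, q) ^ m

lemma bd_pos (S : Finset ℕ) (m : ℕ) : 1 ≤ bd S m := by
  unfold bd
  apply Nat.one_le_pow
  apply Finset.prod_pos
  intro q hq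
  exact (Finset.mem_filter.mp hq).2.pos

/-- Decomposition into an `m`-free part supported in `S` and an `m`-th power. -/
lemma split_nat (S : Finset ℕ) (m : ℕ) (hm : 1 ≤ m) (x : ℕ) (hx : x ≠ 0)
    (h : ∀ q : ℕ, q.Prime → q ∣ x → q ∉ S → m ∣ x.factorization q) :
    ∃ δ u : ℕ, x = δ * u ^ m ∧ δ ≠ 0 ∧ (∀ q : ℕ, q.Prime → q ∣ δ → q ∈ S) ∧ δ ≤ bd S m := by
  classical
  set δ : ℕ := x.factorization.prod (fun q e => q ^ (e % m)) with hδ
  set u : ℕ := x.factorization.prod (fun q e => q ^ (e / m)) with hu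
  have hxe : x = δ * u ^ m := by
    conv_lhs => rw [← Nat.prod_factorization_pow_eq_self hx]
    rw [hδ, hu]
    simp only [Finsupp.prod]
    rw [← Finset.prod_pow, ← Finset.prod_mul_distrib]
    refine Finset.prod_congr rfl (fun q _ => ?_)
    rw [← pow_mul, ← pow_add]
    congr 1
    have := Nat.mod_add_div (x.factorization q) m
    rw [mul_comm] at this
    rw [mul_comm (x.factorization q / m) m]
    exact (Nat.mod_add_div _ m).symm
  have hprime : ∀ q ∈ x.factorization.support, q.Prime := by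
    intro q hq
    rw [Nat.support_factorization] at hq
    exact Nat.prime_of_mem_primeFactors hq
  have hδ0 : δ ≠ 0 := by
    intro h0
    rw [h0, zero_mul] at hxe
    exact hx hxe
  have hmod : ∀ q ∈ x.factorization.support, q ∉ S → x.factorization q % m = 0 := by
    intro q hq hqS
    rw [Nat.support_factorization] at hq
    exact Nat.eq_zero_of_dvd_of_lt ((Nat.dvd_mod_iff (dvd_refl m)).mpr
      (h q (Nat.prime_of_mem_primeFactors hq) (Nat.dvd_of_mem_primeFactors hq) hqS))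
      (Nat.mod_lt _ hm)
  refine ⟨δ, u, hxe, hδ0, ?_, ?_⟩
  · intro q hq hqd
    by_contra hqS
    rw [hδ, Finsupp.prod, (Nat.Prime.prime hq).dvd_finsetProd_iff] at hqd
    obtain ⟨r, hr, hqr⟩ := hqd
    have h1 : q ∣ r := hq.dvd_of_dvd_pow hqr
    have h2 : q = r := (Nat.prime_dvd_prime_iff_eq hq (hprime r hr)).mp h1
    subst h2
    rw [hmod q hr hqS, pow_zero] at hqr
    exact hq.one_lt.ne' (Nat.dvd_one.mp hqr)
  · have h1 : δ = ∏ q ∈ x.factorization.support.filter (fun q => q ∈ S),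
        q ^ (x.factorization q % m) := by
      rw [hδ, Finsupp.prod, Finset.prod_filter]
      refine Finset.prod_congr rfl (fun q hq => ?_)
      split_ifs with hqS
      · rfl
      · rw [hmod q hq hqS, pow_zero]
    rw [h1]
    unfold bd
    rw [← Finset.prod_pow]
    have hsub : x.factorization.support.filter (fun q => q ∈ S) ⊆ S.filter Nat.Prime := by
      intro q hq
      rw [Finset.mem_filter] at hq ⊢
      exact ⟨hq.2, hprime q hq.1⟩
    calc ∏ q ∈ x.factorization.support.filter (fun q => q ∈ S), q ^ (x.factorization q % m)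
        ≤ ∏ q ∈ x.factorization.support.filter (fun q => q ∈ S), q ^ m := by
          refine Finset.prod_le_prod' (fun q hq => ?_)
          rw [Finset.mem_filter] at hq
          exact Nat.pow_le_pow_right (hprime q hq.1).pos (Nat.mod_lt _ hm).le
      _ ≤ ∏ q ∈ S.filter Nat.Prime, q ^ m := by
          refine Finset.prod_le_prod_of_subset_of_one_le' hsub (fun q hq _ => ?_)
          exact Nat.one_le_pow _ _ (Finset.mem_filter.mp hq).2.pos

lemma split_int (S : Finset ℕ) (m : ℕ) (hm : 1 ≤ m) (x : ℤ) (hx : x ≠ 0)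
    (h : ∀ q : ℕ, q.Prime → (q : ℤ) ∣ x → q ∉ S → m ∣ x.natAbs.factorization q) :
    ∃ δ u : ℤ, x = δ * u ^ m ∧ Smooth S δ ∧ δ.natAbs ≤ bd S m := by
  obtain ⟨δ, u, h1, h2, h3, h4⟩ := split_nat S m hm x.natAbs (Int.natAbs_ne_zero.mpr hx) (by
    intro q hq hqx hqS
    exact h q hq (Int.natCast_dvd.mpr hqx) hqS)
  refine ⟨x.sign * δ, u, ?_, ⟨?_, ?_⟩, ?_⟩
  · rw [mul_assoc]
    have h5 : ((δ : ℤ) * (u : ℤ) ^ m) = (x.natAbs : ℤ) := by
      rw [h1]; push_cast; ring
    rw [h5]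
    exact (Int.sign_mul_natAbs x).symm
  · exact mul_ne_zero (Int.sign_eq_zero_iff_zero.not.mpr hx) (by exact_mod_cast h2)
  · intro q hq hqd
    apply h3 q hq
    have h6 : (q : ℤ) ∣ (δ : ℤ) := by
      rcases lt_trichotomy x 0 with hx0 | hx0 | hx0
      · rw [Int.sign_eq_neg_one_of_neg hx0] at hqd
        have : (-1 : ℤ) * δ = -(δ : ℤ) := by ring
        rw [this, dvd_neg] at hqd
        exact hqd
      · exact absurd hx0 hx
      · rw [Int.sign_eq_one_of_pos hx0, one_mul] at hqd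
        exact hqd
    exact Int.natCast_dvd_natCast.mp h6
  · rw [Int.natAbs_mul, Int.natAbs_sign_of_ne_zero hx, one_mul, Int.natAbs_natCast]
    exact h4

/-- Smooth rational numbers modulo `m`-th powers. -/
lemma smooth_ratio (S : Finset ℕ) (m : ℕ) (hm : 1 ≤ m) (a b : ℤ) (ha : Smooth S a)
    (hb : Smooth S b) : ∃ (η : ℤ) (r : ℚ), r ≠ 0 ∧ η ≠ 0 ∧ η.natAbs ≤ bd S m ∧
      (a : ℚ) = b * (η * r ^ m) := by
  obtain ⟨δ, u, h1, h2, h3⟩ := split_int S m hm (a * b ^ (m - 1))
    (mul_ne_zero ha.1 (pow_ne_zero _ hb.1)) (by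
      intro q hq hqx hqS
      exfalso
      have hq' : Prime (q : ℤ) := Nat.prime_iff_prime_int.mp hq
      rcases hq'.dvd_or_dvd hqx with h | h
      · exact hqS (ha.2 q hq h)
      · exact hqS (hb.2 q hq (hq'.dvd_of_dvd_pow h)))
  have hb0 : (b : ℚ) ≠ 0 := by exact_mod_cast hb.1
  refine ⟨δ, (u : ℚ) / b, ?_, h2.1, h3, ?_⟩
  · apply div_ne_zero _ hb0
    intro hu
    have hu' : u = 0 := by exact_mod_cast hu
    rw [hu', zero_pow (by omega), mul_zero] at h1
    exact mul_ne_zero ha.1 (pow_ne_zero _ hb.1) h1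
  · have h4 : (a : ℚ) * (b : ℚ) ^ (m - 1) = δ * (u : ℚ) ^ m := by exact_mod_cast h1
    rw [div_pow, ← mul_div_assoc, ← h4, mul_comm (b : ℚ), div_mul_eq_mul_div, mul_assoc,
      ← pow_succ]
    have h5 : m - 1 + 1 = m := by omega
    rw [h5, mul_div_assoc, div_self (pow_ne_zero _ hb0), mul_one]

/-- The descent: `x` is an `m`-th power up to primes in `S`. -/
lemma descent (S : Finset ℕ) (m k : ℕ) (hm : 3 ≤ m) (hk : Nat.Coprime k m) (x g b c s b0 u v : ℤ)
    (hx : x ≠ 0) (hc : Smooth S c) (hs : Smooth S s) (hrel : c * g ^ m = x ^ k * b)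
    (hb : x ∣ b - b0) (hbez : u * g + v * b0 = s) :
    ∃ δ t : ℤ, x = δ * t ^ m ∧ Smooth S δ ∧ δ.natAbs ≤ bd S m := by
  apply split_int S m (by omega) x hx
  intro q hq hqx hqS
  have hq' : Prime (q : ℤ) := Nat.prime_iff_prime_int.mp hq
  have hk0 : k ≠ 0 := by
    rintro rfl
    rw [Nat.coprime_zero_left] at hk
    omega
  have h1 : (q : ℤ) ∣ g := by
    have h2 : (q : ℤ) ∣ c * g ^ m := by
      rw [hrel]
      exact Dvd.dvd.mul_right (dvd_pow hqx hk0) b
    rcases hq'.dvd_or_dvd h2 with h | h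
    · exact absurd (hc.2 q hq h) hqS
    · exact hq'.dvd_of_dvd_pow h
  have h2 : ¬ (q : ℤ) ∣ b := by
    intro h
    have h3 : (q : ℤ) ∣ b0 := by
      have h4 : (q : ℤ) ∣ b - b0 := dvd_trans hqx hb
      have h5 := dvd_sub h h4
      rwa [sub_sub_cancel] at h5
    have h6 : (q : ℤ) ∣ s := by
      rw [← hbez]
      exact dvd_add (Dvd.dvd.mul_left h1 u) (Dvd.dvd.mul_left h3 v)
    exact hqS (hs.2 q hq h6)
  have hb0 : b ≠ 0 := by
    rintro rfl
    exact h2 (dvd_zero _)
  have hg0 : g ≠ 0 := by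
    rintro rfl
    rw [zero_pow (by omega), mul_zero] at hrel
    exact mul_ne_zero (pow_ne_zero _ hx) hb0 hrel.symm
  have h7 : c.natAbs * g.natAbs ^ m = x.natAbs ^ k * b.natAbs := by
    have := congrArg Int.natAbs hrel
    rwa [Int.natAbs_mul, Int.natAbs_mul, Int.natAbs_pow, Int.natAbs_pow] at this
  have h8 : (c.natAbs * g.natAbs ^ m).factorization q
      = (x.natAbs ^ k * b.natAbs).factorization q := by rw [h7]
  rw [Nat.factorization_mul (Int.natAbs_ne_zero.mpr hc.1)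
      (pow_ne_zero _ (Int.natAbs_ne_zero.mpr hg0)),
    Nat.factorization_mul (pow_ne_zero _ (Int.natAbs_ne_zero.mpr hx)) (Int.natAbs_ne_zero.mpr hb0),
    Finsupp.add_apply, Finsupp.add_apply, Nat.factorization_pow, Nat.factorization_pow,
    Finsupp.smul_apply, Finsupp.smul_apply, smul_eq_mul, smul_eq_mul,
    Nat.factorization_eq_zero_of_not_dvd (n := c.natAbs) (fun h =>
      hqS (hc.2 q hq (Int.natCast_dvd.mpr h))),
    Nat.factorization_eq_zero_of_not_dvd (n := b.natAbs) (fun h =>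
      h2 (Int.natCast_dvd.mpr h)), zero_add, add_zero] at h8
  have h9 : m ∣ k * x.natAbs.factorization q := ⟨_, h8.symm⟩
  exact (Nat.Coprime.dvd_mul_left hk.symm).mp h9

end Pool.Agent.H20.TD
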