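import Pool.Agent.H20.TA

set_option autoImplicit false

namespace Pool.Agent.H20.TD

open MvPolynomial

/-- The polynomial `f(δ x^m, y)`. -/
noncomputable def cover (m : ℕ) (δ : ℤ) (f : MvPolynomial (Fin 2) ℤ) : MvPolynomial (Fin 2) ℤ :=
  aeval ![C δ * X 0 ^ m, X 1] f

lemma eval₂_cover {R : Type*} [CommRing R] (m : ℕ) (δ : ℤ) (f : MvPolynomial (Fin 2) ℤ) (u y : R) :
    eval₂ (Int.castRingHom R) ![u, y] (cover m δ f)
      = eval₂ (Int.castRingHom R) ![(δ : R) * u ^ m, y] f := by
  unfold cover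
  rw [aeval_def, algebraMap_eq]
  have h : (eval₂Hom (Int.castRingHom R) ![u, y]).comp
      (eval₂Hom (C : ℤ →+* MvPolynomial (Fin 2) ℤ) ![C δ * X 0 ^ m, X 1])
      = eval₂Hom (Int.castRingHom R) ![(δ : R) * u ^ m, y] := by
    apply MvPolynomial.ringHom_ext
    · intro r; simp
    · intro i
      rw [RingHom.comp_apply, coe_eval₂Hom, coe_eval₂Hom, coe_eval₂Hom, eval₂_X, eval₂_X]
      fin_cases i
      · change eval₂ _ _ (C δ * X 0 ^ m) = (δ : R) * u ^ m
        rw [eval₂_mul, eval₂_C, eval₂_pow, eval₂_X]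
        rfl
      · change eval₂ _ _ (X 1) = y
        rw [eval₂_X]
        rfl
  exact RingHom.congr_fun h f

lemma eval_cover (m : ℕ) (δ : ℤ) (f : MvPolynomial (Fin 2) ℤ) (u y : ℤ) :
    eval ![u, y] (cover m δ f) = eval ![δ * u ^ m, y] f := by
  have h := eval₂_cover (R := ℤ) m δ f u y
  have h0 : Int.castRingHom ℤ = RingHom.id ℤ := RingHom.ext_int _ _
  rw [h0] at h
  exact h

lemma cover_eq_sum (m : ℕ) (δ : ℤ) (f : MvPolynomial (Fin 2) ℤ) :
    cover m δ f = ∑ j ∈ f.support,
      monomial (Finsupp.single 0 (m * j 0) + Finsupp.single 1 (j 1)) (f.coeff j * δ ^ j 0) := by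
  unfold cover
  rw [aeval_def, eval₂_eq']
  refine Finset.sum_congr rfl (fun j _ => ?_)
  rw [Fin.prod_univ_two]
  simp only [Matrix.cons_val_zero, Matrix.cons_val_one, algebraMap_eq]
  rw [mul_pow, ← C_pow, ← pow_mul, X_pow_eq_monomial, X_pow_eq_monomial, C_mul_monomial,
    monomial_mul, C_mul_monomial]
  congr 1
  ring

lemma fin2_eq (j : Fin 2 →₀ ℕ) : j = Finsupp.single 0 (j 0) + Finsupp.single 1 (j 1) := by
  ext i
  fin_cases i <;> simp

lemma cover_idx (m : ℕ) (hm : 1 ≤ m) (i j : Fin 2 →₀ ℕ)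
    (h : (Finsupp.single 0 (m * i 0) + Finsupp.single 1 (i 1) : Fin 2 →₀ ℕ)
      = Finsupp.single 0 (m * j 0) + Finsupp.single 1 (j 1)) : i = j := by
  have h0 := DFunLike.congr_fun h 0
  have h1 := DFunLike.congr_fun h 1
  simp at h0 h1
  rw [fin2_eq i, fin2_eq j, h1]
  rcases h0 with h0 | h0
  · rw [h0]
  · omega

lemma coeff_cover (m : ℕ) (hm : 1 ≤ m) (δ : ℤ) (f : MvPolynomial (Fin 2) ℤ) (j : Fin 2 →₀ ℕ) :
    (cover m δ f).coeff (Finsupp.single 0 (m * j 0) + Finsupp.single 1 (j 1))
      = f.coeff j * δ ^ j 0 := by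
  classical
  rw [cover_eq_sum, coeff_sum]
  by_cases hj : j ∈ f.support
  · rw [Finset.sum_eq_single j]
    · rw [coeff_monomial, if_pos rfl]
    · intro i _ hij
      rw [coeff_monomial, if_neg]
      intro h
      exact hij (cover_idx m hm i j h)
    · intro h; exact absurd hj h
  · rw [notMem_support_iff.mp hj, zero_mul]
    refine Finset.sum_eq_zero (fun i hi => ?_)
    rw [coeff_monomial, if_neg]
    intro h
    rw [cover_idx m hm i j h] at hi
    exact hj hi

lemma totalDegree_cover_le (m : ℕ) (hm : 1 ≤ m) (δ : ℤ) (f : MvPolynomial (Fin 2) ℤ) :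
    (cover m δ f).totalDegree ≤ m * f.totalDegree := by
  rw [cover_eq_sum]
  refine totalDegree_finsetSum_le (fun j hj => ?_)
  refine (totalDegree_monomial_le _ _).trans ?_
  have h1 : (Finsupp.single (0 : Fin 2) (m * j 0) + Finsupp.single 1 (j 1)).sum (fun _ => id)
      = m * j 0 + j 1 := by
    rw [Finsupp.sum_add_index' (fun _ => rfl) (fun _ _ _ => rfl), Finsupp.sum_single_index rfl,
      Finsupp.sum_single_index rfl]
    rfl
  rw [h1]
  have h2 := le_totalDegree hj
  have h3 : j.sum (fun _ e => e) = j 0 + j 1 := by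
    conv_lhs => rw [fin2_eq j]
    rw [Finsupp.sum_add_index' (fun _ => rfl) (fun _ _ _ => rfl), Finsupp.sum_single_index rfl,
      Finsupp.sum_single_index rfl]
  rw [h3] at h2
  calc m * j 0 + j 1 ≤ m * j 0 + m * j 1 := by
        have := Nat.le_mul_of_pos_left (j 1) hm
        omega
    _ = m * (j 0 + j 1) := by ring
    _ ≤ m * f.totalDegree := Nat.mul_le_mul_left _ h2

section lead

variable {E : Type*} [Field E]

/-- all coefficients below `-r` vanish -/
def PoleLe (z : LaurentSeries E) (r : ℤ) : Prop := ∀ n : ℤ, n < -r → z.coeff n = 0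

lemma coeff_mul_top (z w : LaurentSeries E) (r s : ℤ) (hz : PoleLe z r) (hw : PoleLe w s) :
    PoleLe (z * w) (r + s) ∧ (z * w).coeff (-(r + s)) = z.coeff (-r) * w.coeff (-s) := by
  have key : ∀ n : ℤ, n ≤ -(r + s) → (z * w).coeff n
      = if n = -(r + s) then z.coeff (-r) * w.coeff (-s) else 0 := by
    intro n hn
    rw [HahnSeries.coeff_mul]
    split_ifs with h
    · by_cases h0 : z.coeff (-r) = 0 ∨ w.coeff (-s) = 0
      · have h1 : z.coeff (-r) * w.coeff (-s) = 0 := by
          rcases h0 with h0 | h0 <;> rw [h0] <;> simp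
        rw [h1]
        refine Finset.sum_eq_zero (fun p hp => ?_)
        rw [Finset.mem_antidiagonal] at hp
        by_cases hp1 : p.1 < -r
        · rw [hz p.1 hp1, zero_mul]
        · by_cases hp2 : p.2 < -s
          · rw [hw p.2 hp2, mul_zero]
          · have h3 : p.1 = -r := by omega
            have h4 : p.2 = -s := by omega
            rw [h3, h4, h1]
      · push Not at h0
        rw [Finset.sum_eq_single (-r, -s)]
        · rintro p hp hpne
          rw [Finset.mem_antidiagonal] at hp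
          by_cases hp1 : p.1 < -r
          · rw [hz p.1 hp1, zero_mul]
          · by_cases hp2 : p.2 < -s
            · rw [hw p.2 hp2, mul_zero]
            · exfalso
              apply hpne
              ext
              · simp; omega
              · simp; omega
        · intro hn'
          exfalso
          apply hn'
          rw [Finset.mem_antidiagonal]
          refine ⟨?_, ?_, ?_⟩
          · rw [HahnSeries.mem_support]; exact h0.1
          · rw [HahnSeries.mem_support]; exact h0.2
          · simp; omega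
    · refine Finset.sum_eq_zero (fun p hp => ?_)
      rw [Finset.mem_antidiagonal] at hp
      by_cases hp1 : p.1 < -r
      · rw [hz p.1 hp1, zero_mul]
      · by_cases hp2 : p.2 < -s
        · rw [hw p.2 hp2, mul_zero]
        · exfalso
          omega
  constructor
  · intro n hn
    rw [key n hn.le, if_neg (ne_of_lt hn)]
  · rw [key _ le_rfl, if_pos rfl]

lemma coeff_pow_top (z : LaurentSeries E) (r : ℤ) (hz : PoleLe z r) (i : ℕ) :
    PoleLe (z ^ i) (i * r) ∧ (z ^ i).coeff (-(i * r)) = z.coeff (-r) ^ i := by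
  induction i with
  | zero =>
    constructor
    · intro n hn
      rw [pow_zero, HahnSeries.coeff_one, if_neg]
      rintro rfl
      simp at hn
    · simp
  | succ i ih =>
    have h := coeff_mul_top (z ^ i) z (i * r) r ih.1 hz
    have h1 : (i : ℤ) * r + r = ((i + 1 : ℕ) : ℤ) * r := by push_cast; ring
    rw [h1] at h
    rw [pow_succ]
    refine ⟨h.1, ?_⟩
    rw [h.2, ih.2, pow_succ]

lemma coeff_intCast_mul (c : ℤ) (z : LaurentSeries E) (n : ℤ) :
    ((c : LaurentSeries E) * z).coeff n = (c : E) * z.coeff n := by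
  have h : (c : LaurentSeries E) = HahnSeries.C (c : E) := by simp
  rw [h, HahnSeries.C_mul_eq_smul, HahnSeries.coeff_smul, smul_eq_mul]

/-- The top-weight part of the equation of a curve along a branch. -/
lemma topform (f : MvPolynomial (Fin 2) ℤ) (x y : LaurentSeries E) (r s W : ℤ) (hx : PoleLe x r)
    (hy : PoleLe y s) (hf : eval₂ (Int.castRingHom (LaurentSeries E)) ![x, y] f = 0)
    (hW : ∀ j ∈ f.support, (j 0 : ℤ) * r + j 1 * s ≤ W) :
    ∑ j ∈ f.support.filter (fun j => (j 0 : ℤ) * r + j 1 * s = W),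
      ((f.coeff j : ℤ) : E) * (x.coeff (-r) ^ j 0 * y.coeff (-s) ^ j 1) = 0 := by
  classical
  have h1 := congrArg (fun z : LaurentSeries E => z.coeff (-W)) hf
  simp only [HahnSeries.coeff_zero] at h1
  rw [eval₂_eq'] at h1
  rw [← h1, HahnSeries.coeff_sum, Finset.sum_filter]
  refine Finset.sum_congr rfl (fun j hj => ?_)
  rw [Fin.prod_univ_two]
  simp only [Matrix.cons_val_zero, Matrix.cons_val_one, eq_intCast]
  rw [coeff_intCast_mul]
  have h2 := coeff_pow_top x r hx (j 0)
  have h3 := coeff_pow_top y s hy (j 1)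
  have h4 := coeff_mul_top _ _ _ _ h2.1 h3.1
  split_ifs with h
  · rw [← h, h4.2, h2.2, h3.2]
  · have h5 := hW j hj
    rw [h4.1 (-W) (by omega), mul_zero]

end lead

end Pool.Agent.H20.TD
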