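import Pool.Agent.H20.TB
import Pool.Agent.H20.N12

set_option autoImplicit false

namespace Pool.Agent.H20.TD

open MvPolynomial

/-- The shape of the curve at infinity: `f = b y^(md) + a x^n + (terms below the edge)`. -/
structure Edge (f : MvPolynomial (Fin 2) ℤ) (m d n : ℕ) : Prop where
  hm : 3 ≤ m
  hd : 1 ≤ d
  hn : 1 ≤ n
  cop : Nat.Coprime n (m * d)
  ha : f.coeff (Finsupp.single 0 n) ≠ 0
  hb : f.coeff (Finsupp.single 1 (m * d)) ≠ 0
  low : ∀ j ∈ f.support, j ≠ Finsupp.single 0 n → j ≠ Finsupp.single 1 (m * d) →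
    j 0 * (m * d) + j 1 * n < n * (m * d)

section lead

variable {E : Type*} [Field E] [CharZero E]

lemma Edge.caseY {f : MvPolynomial (Fin 2) ℤ} {m d n : ℕ} (h : Edge f m d n) (δ : ℤ)
    (u y : LaurentSeries E) (r s : ℤ) (hu : PoleLe u r) (hy : PoleLe y s)
    (hy0 : y.coeff (-s) ≠ 0) (hs : 1 ≤ s) (hlt : n * r < d * s)
    (hf : eval₂ (Int.castRingHom (LaurentSeries E)) ![(δ : LaurentSeries E) * u ^ m, y] f = 0) :
    False := by
  classical
  have hm := h.hm
  have hX : PoleLe ((δ : LaurentSeries E) * u ^ m) (m * r) := by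
    intro k hk
    rw [coeff_intCast_mul, (coeff_pow_top u r hu m).1 k hk, mul_zero]
  have hn0 : (0 : ℤ) < n := by exact_mod_cast h.hn
  have hm0 : (0 : ℤ) < m := by have := h.hm; omega
  have key : ∀ j ∈ f.support, j ≠ Finsupp.single 1 (m * d) →
      (j 0 : ℤ) * (m * r) + j 1 * s < (m * d) * s := by
    intro j hj hj1
    by_cases hj0 : j = Finsupp.single 0 n
    · rw [hj0]
      simp only [Finsupp.single_eq_same, ne_eq, one_ne_zero, not_false_eq_true,
        Finsupp.single_eq_of_ne, Nat.cast_zero, zero_mul, add_zero]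
      nlinarith
    · have h1 := h.low j hj hj0 hj1
      have h2 : (j 0 : ℤ) * (m * d) + j 1 * n < n * (m * d) := by exact_mod_cast h1
      have h3 : (0 : ℤ) ≤ j 0 := Int.natCast_nonneg _
      have h4 : (n : ℤ) * ((j 0 : ℤ) * (m * r) + j 1 * s) < n * ((m * d) * s) := by
        have h5 : (j 0 : ℤ) * m * (n * r) ≤ (j 0 : ℤ) * m * (d * s) :=
          mul_le_mul_of_nonneg_left hlt.le (by positivity)
        have h6 : ((j 0 : ℤ) * (m * d) + j 1 * n) * s < n * (m * d) * s :=
          mul_lt_mul_of_pos_right h2 (by omega)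
        nlinarith
      exact lt_of_mul_lt_mul_left h4 hn0.le
  have htop := topform f _ y (m * r) s ((m * d) * s) hX hy hf (by
    intro j hj
    by_cases hj1 : j = Finsupp.single 1 (m * d)
    · rw [hj1]
      simp
    · exact (key j hj hj1).le)
  rw [Finset.sum_eq_single (Finsupp.single 1 (m * d))] at htop
  · simp only [Finsupp.single_eq_same, ne_eq, zero_ne_one, not_false_eq_true,
      Finsupp.single_eq_of_ne, pow_zero, one_mul, mul_eq_zero, Int.cast_eq_zero] at htop
    rcases htop with htop | htop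
    · exact h.hb htop
    · exact pow_ne_zero _ hy0 htop
  · intro j hj hj1
    rw [Finset.mem_filter] at hj
    exact absurd hj.2 (ne_of_lt (key j hj.1 hj1))
  · intro hj
    exfalso
    apply hj
    rw [Finset.mem_filter, mem_support_iff]
    refine ⟨h.hb, ?_⟩
    simp

lemma Edge.caseX {f : MvPolynomial (Fin 2) ℤ} {m d n : ℕ} (h : Edge f m d n) (δ : ℤ) (hδ : δ ≠ 0)
    (u y : LaurentSeries E) (r s : ℤ) (hu : PoleLe u r) (hy : PoleLe y s)
    (hu0 : u.coeff (-r) ≠ 0) (hr : 1 ≤ r) (hlt : d * s < n * r)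
    (hf : eval₂ (Int.castRingHom (LaurentSeries E)) ![(δ : LaurentSeries E) * u ^ m, y] f = 0) :
    False := by
  classical
  have hm := h.hm
  have hpow := coeff_pow_top u r hu m
  have hX : PoleLe ((δ : LaurentSeries E) * u ^ m) (m * r) := by
    intro k hk
    rw [coeff_intCast_mul, hpow.1 k hk, mul_zero]
  have hX0 : ((δ : LaurentSeries E) * u ^ m).coeff (-(m * r)) = δ * u.coeff (-r) ^ m := by
    rw [coeff_intCast_mul, hpow.2]
  have hn0 : (0 : ℤ) < n := by exact_mod_cast h.hn
  have hd0 : (0 : ℤ) < d := by exact_mod_cast h.hd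
  have hm0 : (0 : ℤ) < m := by have := h.hm; omega
  have key : ∀ j ∈ f.support, j ≠ Finsupp.single 0 n →
      (j 0 : ℤ) * (m * r) + j 1 * s < n * (m * r) := by
    intro j hj hj0
    by_cases hj1 : j = Finsupp.single 1 (m * d)
    · rw [hj1]
      simp only [Finsupp.single_eq_same, ne_eq, zero_ne_one, not_false_eq_true,
        Finsupp.single_eq_of_ne, Nat.cast_zero, zero_mul, zero_add, Nat.cast_mul]
      nlinarith
    · have h1 := h.low j hj hj0 hj1
      have h2 : (j 0 : ℤ) * (m * d) + j 1 * n < n * (m * d) := by exact_mod_cast h1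
      have h3 : (0 : ℤ) ≤ j 1 := Int.natCast_nonneg _
      have h4 : (d : ℤ) * ((j 0 : ℤ) * (m * r) + j 1 * s) < d * (n * (m * r)) := by
        have h5 : (j 1 : ℤ) * (d * s) ≤ (j 1 : ℤ) * (n * r) :=
          mul_le_mul_of_nonneg_left hlt.le h3
        have h6 : ((j 0 : ℤ) * (m * d) + j 1 * n) * r < n * (m * d) * r :=
          mul_lt_mul_of_pos_right h2 (by omega)
        nlinarith
      exact lt_of_mul_lt_mul_left h4 hd0.le
  have htop := topform f _ y (m * r) s (n * (m * r)) hX hy hf (by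
    intro j hj
    by_cases hj0 : j = Finsupp.single 0 n
    · rw [hj0]
      simp
    · exact (key j hj hj0).le)
  rw [Finset.sum_eq_single (Finsupp.single 0 n)] at htop
  · rw [hX0] at htop
    simp only [Finsupp.single_eq_same, ne_eq, one_ne_zero, not_false_eq_true,
      Finsupp.single_eq_of_ne, pow_zero, mul_one, mul_eq_zero, Int.cast_eq_zero] at htop
    rcases htop with htop | htop
    · exact h.ha htop
    · exact pow_ne_zero _ (mul_ne_zero (by exact_mod_cast hδ) (pow_ne_zero _ hu0)) htop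
  · intro j hj hj0
    rw [Finset.mem_filter] at hj
    exact absurd hj.2 (ne_of_lt (key j hj.1 hj0))
  · intro hj
    exfalso
    apply hj
    rw [Finset.mem_filter, mem_support_iff]
    refine ⟨h.ha, ?_⟩
    simp

omit [CharZero E] in
lemma Edge.caseEq {f : MvPolynomial (Fin 2) ℤ} {m d n : ℕ} (h : Edge f m d n) (δ : ℤ)
    (u y : LaurentSeries E) (r s : ℤ) (hu : PoleLe u r) (hy : PoleLe y s)
    (hu0 : u.coeff (-r) ≠ 0) (hr : 1 ≤ r) (heq : d * s = n * r)
    (hf : eval₂ (Int.castRingHom (LaurentSeries E)) ![(δ : LaurentSeries E) * u ^ m, y] f = 0) :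
    ∃ θ : E, ((f.coeff (Finsupp.single 1 (m * d)) : ℤ) : E) * θ ^ m
      = ((-(f.coeff (Finsupp.single 0 n) * δ ^ n) : ℤ) : E) := by
  classical
  have hm := h.hm
  have hpow := coeff_pow_top u r hu m
  have hX : PoleLe ((δ : LaurentSeries E) * u ^ m) (m * r) := by
    intro k hk
    rw [coeff_intCast_mul, hpow.1 k hk, mul_zero]
  have hX0 : ((δ : LaurentSeries E) * u ^ m).coeff (-(m * r)) = δ * u.coeff (-r) ^ m := by
    rw [coeff_intCast_mul, hpow.2]
  have hn0 : (0 : ℤ) < n := by exact_mod_cast h.hn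
  have hd0 : (0 : ℤ) < d := by exact_mod_cast h.hd
  have hm0 : (0 : ℤ) < m := by have := h.hm; omega
  have key : ∀ j ∈ f.support, j ≠ Finsupp.single 0 n → j ≠ Finsupp.single 1 (m * d) →
      (j 0 : ℤ) * (m * r) + j 1 * s < n * (m * r) := by
    intro j hj hj0 hj1
    have h1 := h.low j hj hj0 hj1
    have h2 : (j 0 : ℤ) * (m * d) + j 1 * n < n * (m * d) := by exact_mod_cast h1
    have h4 : (d : ℤ) * ((j 0 : ℤ) * (m * r) + j 1 * s) < d * (n * (m * r)) := by
      have h5 : (j 1 : ℤ) * (d * s) = (j 1 : ℤ) * (n * r) := by rw [heq]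
      have h6 : ((j 0 : ℤ) * (m * d) + j 1 * n) * r < n * (m * d) * r :=
        mul_lt_mul_of_pos_right h2 (by omega)
      nlinarith
    exact lt_of_mul_lt_mul_left h4 hd0.le
  have hW1 : ((m * d : ℕ) : ℤ) * s = n * (m * r) := by
    push_cast
    calc (m : ℤ) * d * s = m * (d * s) := by ring
      _ = m * (n * r) := by rw [heq]
      _ = n * (m * r) := by ring
  have htop := topform f _ y (m * r) s (n * (m * r)) hX hy hf (by
    intro j hj
    by_cases hj0 : j = Finsupp.single 0 n
    · rw [hj0]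
      simp
    · by_cases hj1 : j = Finsupp.single 1 (m * d)
      · rw [hj1, Finsupp.single_eq_same, Finsupp.single_eq_of_ne (by decide), Nat.cast_zero,
          zero_mul, zero_add, hW1]
      · exact (key j hj hj0 hj1).le)
  have hne : (Finsupp.single 0 n : Fin 2 →₀ ℕ) ≠ Finsupp.single 1 (m * d) := by
    intro h0
    have h1 := DFunLike.congr_fun h0 0
    rw [Finsupp.single_eq_same, Finsupp.single_eq_of_ne (by decide)] at h1
    have := h.hn
    omega
  have hfil : f.support.filter (fun j => (j 0 : ℤ) * (m * r) + j 1 * s = n * (m * r))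
      = {Finsupp.single 0 n, Finsupp.single 1 (m * d)} := by
    ext j
    rw [Finset.mem_filter, Finset.mem_insert, Finset.mem_singleton]
    constructor
    · rintro ⟨hj, hw⟩
      by_contra hcon
      push Not at hcon
      exact absurd hw (ne_of_lt (key j hj hcon.1 hcon.2))
    · rintro (hj | hj)
      · subst hj
        rw [mem_support_iff]
        refine ⟨h.ha, ?_⟩
        simp
      · subst hj
        rw [mem_support_iff]
        refine ⟨h.hb, ?_⟩
        rw [Finsupp.single_eq_same, Finsupp.single_eq_of_ne (by decide), Nat.cast_zero,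
          zero_mul, zero_add, hW1]
  rw [hfil, Finset.sum_pair hne, hX0] at htop
  simp only [Finsupp.single_eq_same, ne_eq, one_ne_zero, zero_ne_one, not_false_eq_true,
    Finsupp.single_eq_of_ne, pow_zero, mul_one, one_mul] at htop
  refine ⟨y.coeff (-s) ^ d / u.coeff (-r) ^ n, ?_⟩
  have h7 : u.coeff (-r) ^ n ≠ 0 := pow_ne_zero _ hu0
  rw [div_pow, ← pow_mul, ← pow_mul, mul_div_assoc', div_eq_iff (pow_ne_zero _ hu0)]
  push_cast
  rw [mul_pow, ← pow_mul] at htop
  rw [mul_comm d m, mul_comm n m]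
  linear_combination htop

/-- Along every branch at infinity of `f(δ u^m, y) = 0` the field contains an `m`-th root of
`-a δ^n / b`. -/
lemma Edge.lead {f : MvPolynomial (Fin 2) ℤ} {m d n : ℕ} (h : Edge f m d n) (δ : ℤ) (hδ : δ ≠ 0)
    (u y : LaurentSeries E) (e : ℕ) (he : 1 ≤ e)
    (hp : ∀ k : ℤ, k < -(e : ℤ) → u.coeff k = 0 ∧ y.coeff k = 0)
    (hp0 : u.coeff (-(e : ℤ)) ≠ 0 ∨ y.coeff (-(e : ℤ)) ≠ 0)
    (hf : eval₂ (Int.castRingHom (LaurentSeries E)) ![(δ : LaurentSeries E) * u ^ m, y] f = 0) :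
    ∃ θ : E, ((f.coeff (Finsupp.single 1 (m * d)) : ℤ) : E) * θ ^ m
      = ((-(f.coeff (Finsupp.single 0 n) * δ ^ n) : ℤ) : E) := by
  have hn0 : (0 : ℤ) < n := by exact_mod_cast h.hn
  have hd0 : (0 : ℤ) < d := by exact_mod_cast h.hd
  have he0 : (1 : ℤ) ≤ e := by exact_mod_cast he
  by_cases hu : u = 0
  · exfalso
    refine h.caseY δ u y (-1) e (fun k _ => by rw [hu]; rfl) (fun k hk => (hp k hk).2) ?_ he0 ?_ hf
    · rcases hp0 with h0 | h0
      · rw [hu] at h0
        exact absurd rfl h0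
      · exact h0
    · nlinarith
  by_cases hy : y = 0
  · exfalso
    refine h.caseX δ hδ u y e (-1) (fun k hk => (hp k hk).1) (fun k _ => by rw [hy]; rfl) ?_ he0
      ?_ hf
    · rcases hp0 with h0 | h0
      · exact h0
      · rw [hy] at h0
        exact absurd rfl h0
    · nlinarith
  have hu1 : PoleLe u (-u.order) := by
    intro k hk
    rw [neg_neg] at hk
    exact HahnSeries.coeff_eq_zero_of_lt_order hk
  have hy1 : PoleLe y (-y.order) := by
    intro k hk
    rw [neg_neg] at hk
    exact HahnSeries.coeff_eq_zero_of_lt_order hk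
  have hu2 : u.coeff (-(-u.order)) ≠ 0 := by
    rw [neg_neg, ne_eq, HahnSeries.coeff_order_eq_zero]
    exact hu
  have hy2 : y.coeff (-(-y.order)) ≠ 0 := by
    rw [neg_neg, ne_eq, HahnSeries.coeff_order_eq_zero]
    exact hy
  have hmax : 1 ≤ -u.order ∨ 1 ≤ -y.order := by
    rcases hp0 with h0 | h0
    · left
      have := HahnSeries.order_le_of_coeff_ne_zero h0
      omega
    · right
      have := HahnSeries.order_le_of_coeff_ne_zero h0
      omega
  rcases lt_trichotomy ((d : ℤ) * (-y.order)) (n * (-u.order)) with hlt | heq | hlt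
  · exfalso
    refine h.caseX δ hδ u y (-u.order) (-y.order) hu1 hy1 hu2 ?_ hlt hf
    rcases hmax with h0 | h0
    · exact h0
    · by_contra hcon
      have h1 : -u.order ≤ 0 := by omega
      nlinarith
  · refine h.caseEq δ u y (-u.order) (-y.order) hu1 hy1 hu2 ?_ heq hf
    rcases hmax with h0 | h0
    · exact h0
    · by_contra hcon
      have h1 : -u.order ≤ 0 := by omega
      nlinarith
  · exfalso
    refine h.caseY δ u y (-u.order) (-y.order) hu1 hy1 hy2 ?_ hlt hf
    rcases hmax with h0 | h0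
    · by_contra hcon
      have h1 : -y.order ≤ 0 := by omega
      nlinarith
    · exact h0

end lead

end Pool.Agent.H20.TD
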