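import Pool.Agent.H20.TC

set_option autoImplicit false

namespace Pool.Agent.H20.TD

open MvPolynomial

section hensel

variable {E : Type*} [Field E] [CharZero E]

omit [CharZero E] in
lemma coeff_ofPowerSeries_neg (z : PowerSeries E) (k : ℤ) (hk : k < 0) :
    (HahnSeries.ofPowerSeries ℤ E z).coeff k = 0 := by
  rw [HahnSeries.ofPowerSeries_apply, HahnSeries.embDomain_of_notMem_range]
  rintro ⟨l, hl⟩
  have h10 : ((l : ℕ) : ℤ) = k := hl
  have h11 : (0 : ℤ) ≤ ((l : ℕ) : ℤ) := Int.natCast_nonneg l
  omega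

/-- The branch of `f(δ u^m, y) = 0` belonging to an `m`-th root of `-a δ^n / b`. -/
lemma Edge.branch {f : MvPolynomial (Fin 2) ℤ} {m d n : ℕ} (h : Edge f m d n) (δ : ℤ) (hδ : δ ≠ 0)
    (θ : E) (hθ : ((f.coeff (Finsupp.single 1 (m * d)) : ℤ) : E) * θ ^ m
      = ((-(f.coeff (Finsupp.single 0 n) * δ ^ n) : ℤ) : E)) :
    ∃ u y : LaurentSeries E, (∀ k : ℤ, k < -((max d n : ℕ) : ℤ) → u.coeff k = 0 ∧ y.coeff k = 0) ∧
      (u.coeff (-((max d n : ℕ) : ℤ)) ≠ 0 ∨ y.coeff (-((max d n : ℕ) : ℤ)) ≠ 0) ∧
      eval₂ (Int.castRingHom (LaurentSeries E)) ![(δ : LaurentSeries E) * u ^ m, y] f = 0 := by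
  classical
  have hm := h.hm
  have hd := h.hd
  have hn := h.hn
  set a : ℤ := f.coeff (Finsupp.single 0 n) with ha
  set b : ℤ := f.coeff (Finsupp.single 1 (m * d)) with hb
  have hθ0 : θ ≠ 0 := by
    rintro rfl
    rw [zero_pow (by omega), mul_zero] at hθ
    have h1 : (-(a * δ ^ n) : ℤ) = 0 := by exact_mod_cast hθ.symm
    rw [neg_eq_zero, mul_eq_zero] at h1
    rcases h1 with h1 | h1
    · exact h.ha h1
    · exact pow_ne_zero _ hδ h1
  -- the leading coefficients
  obtain ⟨α, β, hα, hβ, hαβ⟩ : ∃ α β : E, α ≠ 0 ∧ β ≠ 0 ∧ β ^ d = θ * α ^ n := by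
    have hc : Nat.Coprime d n := (Nat.Coprime.coprime_mul_left_right h.cop).symm
    have h2 := Nat.gcd_eq_gcd_ab d n
    rw [Nat.Coprime.gcd_eq_one hc] at h2
    refine ⟨θ ^ (-(Nat.gcdB d n)), θ ^ (Nat.gcdA d n), zpow_ne_zero _ hθ0, zpow_ne_zero _ hθ0, ?_⟩
    rw [← zpow_natCast, ← zpow_natCast, ← zpow_mul, ← zpow_mul]
    conv_rhs => rw [← zpow_one θ, ← zpow_mul, ← zpow_add₀ hθ0]
    congr 1
    push_cast at h2
    linarith
  have hab : (a : E) * δ ^ n * α ^ (m * n) + b * β ^ (m * d) = 0 := by
    have h3 : β ^ (m * d) = θ ^ m * α ^ (m * n) := by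
      rw [mul_comm m d, pow_mul, hαβ, mul_pow, ← pow_mul, mul_comm n m]
    rw [h3]
    push_cast at hθ
    linear_combination (α ^ (m * n)) * hθ
  -- the weights
  set W : ℕ := n * (m * d) with hW
  have hwt : ∀ j ∈ f.support, j 0 * (m * d) + j 1 * n ≤ W := by
    intro j hj
    by_cases h0 : j = Finsupp.single 0 n
    · rw [h0]
      simp [hW]
    · by_cases h1 : j = Finsupp.single 1 (m * d)
      · rw [h1, hW]
        simp only [Finsupp.single_eq_same, ne_eq, zero_ne_one, not_false_eq_true,
          Finsupp.single_eq_of_ne, zero_mul, zero_add]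
        rw [mul_comm]
      · exact (h.low j hj h0 h1).le
  let co : (Fin 2 →₀ ℕ) → E := fun j => ((f.coeff j : ℤ) : E) * δ ^ j 0 * α ^ (m * j 0) * β ^ j 1
  let P : Polynomial (PowerSeries E) := ∑ j ∈ f.support,
    Polynomial.C (PowerSeries.C (co j) * PowerSeries.X ^ (W - (j 0 * (m * d) + j 1 * n)))
      * (1 + Polynomial.X) ^ j 1
  have hcc : ∀ j : Fin 2 →₀ ℕ, PowerSeries.constantCoeff
      (PowerSeries.C (co j) * PowerSeries.X ^ (W - (j 0 * (m * d) + j 1 * n)))
      = if W ≤ j 0 * (m * d) + j 1 * n then co j else 0 := by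
    intro j
    rw [map_mul, PowerSeries.constantCoeff_C, map_pow, PowerSeries.constantCoeff_X]
    split_ifs with h0
    · rw [Nat.sub_eq_zero_of_le h0, pow_zero, mul_one]
    · rw [zero_pow (by omega), mul_zero]
  have hne : (Finsupp.single 0 n : Fin 2 →₀ ℕ) ≠ Finsupp.single 1 (m * d) := by
    intro h0
    have h1 := DFunLike.congr_fun h0 0
    rw [Finsupp.single_eq_same, Finsupp.single_eq_of_ne (by decide)] at h1
    omega
  have htwo : ∀ F : (Fin 2 →₀ ℕ) → E,
      ∑ j ∈ f.support, (if W ≤ j 0 * (m * d) + j 1 * n then co j else 0) * F j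
      = co (Finsupp.single 0 n) * F (Finsupp.single 0 n)
        + co (Finsupp.single 1 (m * d)) * F (Finsupp.single 1 (m * d)) := by
    intro F
    rw [← Finset.sum_pair (f := fun j => co j * F j) hne]
    rw [← Finset.sum_subset (s₁ := {Finsupp.single 0 n, Finsupp.single 1 (m * d)})]
    · refine Finset.sum_congr rfl (fun j hj => ?_)
      rw [Finset.mem_insert, Finset.mem_singleton] at hj
      rw [if_pos]
      rcases hj with hj | hj
      · rw [hj, hW]; simp
      · rw [hj, hW, Finsupp.single_eq_same, Finsupp.single_eq_of_ne (by decide), zero_mul, zero_add,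
          mul_comm]
    · intro j hj
      rw [Finset.mem_insert, Finset.mem_singleton] at hj
      rw [mem_support_iff]
      rcases hj with hj | hj
      · rw [hj]; exact h.ha
      · rw [hj]; exact h.hb
    · intro j hj hj2
      rw [Finset.mem_insert, Finset.mem_singleton, not_or] at hj2
      have := h.low j hj hj2.1 hj2.2
      rw [if_neg (by omega), zero_mul]
  have hP0 : PowerSeries.constantCoeff (P.coeff 0) = 0 := by
    rw [Polynomial.coeff_zero_eq_eval_zero]
    simp only [P]
    rw [Polynomial.eval_finsetSum, map_sum]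
    have h1 : ∀ j ∈ f.support, PowerSeries.constantCoeff (Polynomial.eval 0
        (Polynomial.C (PowerSeries.C (co j) * PowerSeries.X ^ (W - (j 0 * (m * d) + j 1 * n)))
          * (1 + Polynomial.X) ^ j 1))
        = (if W ≤ j 0 * (m * d) + j 1 * n then co j else 0) * 1 := by
      intro j _
      rw [Polynomial.eval_mul, Polynomial.eval_C, Polynomial.eval_pow, Polynomial.eval_add,
        Polynomial.eval_one, Polynomial.eval_X, add_zero, one_pow, mul_one, hcc, mul_one]
    rw [Finset.sum_congr rfl h1, htwo (fun _ => 1)]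
    simp only [co, mul_one, Finsupp.single_eq_same, ne_eq, one_ne_zero, zero_ne_one,
      not_false_eq_true, Finsupp.single_eq_of_ne, pow_zero, mul_zero]
    linear_combination hab
  have hP1 : PowerSeries.constantCoeff (P.coeff 1) ≠ 0 := by
    have h0 : P.coeff 1 = (Polynomial.derivative P).eval 0 := by
      rw [← Polynomial.coeff_zero_eq_eval_zero, Polynomial.coeff_derivative]
      simp
    rw [h0]
    simp only [P]
    rw [Polynomial.derivative_sum, Polynomial.eval_finsetSum, map_sum]
    have h1 : ∀ j ∈ f.support, PowerSeries.constantCoeff (Polynomial.eval 0 (Polynomial.derivative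
        (Polynomial.C (PowerSeries.C (co j) * PowerSeries.X ^ (W - (j 0 * (m * d) + j 1 * n)))
          * (1 + Polynomial.X) ^ j 1)))
        = (if W ≤ j 0 * (m * d) + j 1 * n then co j else 0) * (j 1 : E) := by
      intro j _
      rw [Polynomial.derivative_C_mul, Polynomial.derivative_pow, Polynomial.derivative_add,
        Polynomial.derivative_one, Polynomial.derivative_X, zero_add, mul_one,
        Polynomial.eval_mul, Polynomial.eval_C, Polynomial.eval_mul, Polynomial.eval_pow,
        Polynomial.eval_add, Polynomial.eval_one, Polynomial.eval_X, add_zero, one_pow, mul_one,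
        map_mul, hcc]
      congr 1
      simp
    rw [Finset.sum_congr rfl h1, htwo (fun j => (j 1 : E))]
    simp only [co, Finsupp.single_eq_same, ne_eq, one_ne_zero, zero_ne_one,
      not_false_eq_true, Finsupp.single_eq_of_ne, pow_zero, mul_zero, Nat.cast_zero, zero_add,
      mul_one]
    refine mul_ne_zero (mul_ne_zero ?_ (pow_ne_zero _ hβ)) ?_
    · exact_mod_cast h.hb
    · exact_mod_cast (Nat.mul_ne_zero (by omega) (by omega))
  obtain ⟨z, hz0, hz⟩ := Pool.Agent.H20.G.hensel_power P hP0 hP1
  -- the Laurent series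
  set ι := HahnSeries.ofPowerSeries ℤ E with hι
  have hz1 : PoleLe (1 + ι z) 0 := by
    intro k hk
    rw [neg_zero] at hk
    rw [HahnSeries.coeff_add, HahnSeries.coeff_one, if_neg (by omega), zero_add]
    exact coeff_ofPowerSeries_neg z k hk
  have hz2 : (1 + ι z).coeff (-0) = 1 := by
    rw [neg_zero, HahnSeries.coeff_add, HahnSeries.coeff_one, if_pos rfl]
    have h5 := HahnSeries.ofPowerSeries_apply_coeff (Γ := ℤ) z 0
    rw [Nat.cast_zero] at h5
    rw [hι, h5, PowerSeries.coeff_zero_eq_constantCoeff, hz0, add_zero]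
  have hs1 : ∀ (r : ℤ) (c : E), PoleLe (HahnSeries.single (-r) c) r := by
    intro r c k hk
    rw [HahnSeries.coeff_single_of_ne (by omega)]
  have hy := coeff_mul_top (HahnSeries.single (-(n : ℤ)) β) (1 + ι z) n 0 (hs1 _ _) hz1
  rw [add_zero, hz2, HahnSeries.coeff_single_same, mul_one] at hy
  refine ⟨HahnSeries.single (-(d : ℤ)) α, HahnSeries.single (-(n : ℤ)) β * (1 + ι z), ?_, ?_, ?_⟩
  · intro k hk
    have h6 : (d : ℤ) ≤ ((max d n : ℕ) : ℤ) := by exact_mod_cast le_max_left d n
    have h7 : (n : ℤ) ≤ ((max d n : ℕ) : ℤ) := by exact_mod_cast le_max_right d n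
    exact ⟨HahnSeries.coeff_single_of_ne (by omega), hy.1 k (by omega)⟩
  · rcases le_total n d with h8 | h8
    · left
      rw [max_eq_left h8, HahnSeries.coeff_single_same]
      exact hα
    · right
      rw [max_eq_right h8, hy.2]
      exact hβ
  · have hterm : ∀ j ∈ f.support,
        (Int.castRingHom (LaurentSeries E)) (f.coeff j) *
          ∏ i, ![(δ : LaurentSeries E) * (HahnSeries.single (-(d : ℤ)) α) ^ m,
            HahnSeries.single (-(n : ℤ)) β * (1 + ι z)] i ^ j i
        = HahnSeries.single (-(W : ℤ)) (1 : E) * ι (Polynomial.eval z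
          (Polynomial.C (PowerSeries.C (co j) * PowerSeries.X ^ (W - (j 0 * (m * d) + j 1 * n)))
            * (1 + Polynomial.X) ^ j 1)) := by
      intro j hj
      rw [Fin.prod_univ_two]
      simp only [Matrix.cons_val_zero, Matrix.cons_val_one, eq_intCast]
      have hι1 : ι (PowerSeries.C (co j) * PowerSeries.X ^ (W - (j 0 * (m * d) + j 1 * n))
          * (1 + z) ^ j 1) = HahnSeries.C (co j) *
            HahnSeries.single ((W - (j 0 * (m * d) + j 1 * n) : ℕ) : ℤ) (1 : E)
            * (1 + ι z) ^ j 1 := by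
        rw [map_mul, map_mul, map_pow ι (1 + z), map_add, map_one ι, hι, HahnSeries.ofPowerSeries_C,
          HahnSeries.ofPowerSeries_X_pow]
      rw [Polynomial.eval_mul, Polynomial.eval_C, Polynomial.eval_pow, Polynomial.eval_add,
        Polynomial.eval_one, Polynomial.eval_X, hι1]
      have hint : ∀ c : ℤ, (c : LaurentSeries E) = HahnSeries.single 0 (c : E) := by
        intro c
        have h9 : (c : LaurentSeries E) = HahnSeries.C (c : E) := by simp
        rw [h9, HahnSeries.C_apply]
      rw [hint, hint, mul_pow, mul_pow, ← pow_mul, HahnSeries.single_pow,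
        HahnSeries.single_pow, HahnSeries.single_pow, HahnSeries.C_apply]
      have h10 := hwt j hj
      have h11 : HahnSeries.single (0 : ℤ) ((f.coeff j : ℤ) : E) *
          ((HahnSeries.single (j 0 • (0 : ℤ)) ((δ : E) ^ j 0) *
            HahnSeries.single ((m * j 0) • (-(d : ℤ))) (α ^ (m * j 0))) *
          (HahnSeries.single (j 1 • (-(n : ℤ))) (β ^ j 1)))
          = HahnSeries.single (-(W : ℤ)) (1 : E) * (HahnSeries.single 0 (co j) *
            HahnSeries.single ((W - (j 0 * (m * d) + j 1 * n) : ℕ) : ℤ) (1 : E)) := by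
        rw [HahnSeries.single_mul_single, HahnSeries.single_mul_single,
          HahnSeries.single_mul_single, HahnSeries.single_mul_single,
          HahnSeries.single_mul_single]
        congr 1
        · rw [Nat.cast_sub h10]
          simp only [smul_zero, nsmul_eq_mul]
          push_cast
          ring_nf
        · simp only [co]
          ring
      rw [← mul_assoc (HahnSeries.single (j 0 • (0 : ℤ)) ((δ : E) ^ j 0) *
            HahnSeries.single ((m * j 0) • (-(d : ℤ))) (α ^ (m * j 0)))
          (HahnSeries.single (j 1 • (-(n : ℤ))) (β ^ j 1)) ((1 + _) ^ j 1),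
        ← mul_assoc (HahnSeries.single (0 : ℤ) ((f.coeff j : ℤ) : E)), h11]
      ring
    rw [eval₂_eq', Finset.sum_congr rfl hterm, ← Finset.mul_sum, ← map_sum]
    have h12 : ∑ j ∈ f.support, Polynomial.eval z
          (Polynomial.C (PowerSeries.C (co j) * PowerSeries.X ^ (W - (j 0 * (m * d) + j 1 * n)))
            * (1 + Polynomial.X) ^ j 1) = P.eval z := by
      simp only [P]
      rw [Polynomial.eval_finsetSum]
    rw [h12, hz, map_zero, mul_zero]

end hensel

end Pool.Agent.H20.TD
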