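import Pool.Agent.H20.TE
import Pool.Agent.H20.Q1

set_option autoImplicit false

namespace Pool.Agent.H20.TD

open Module

/-- The polynomial whose roots are the `m`-th roots, `1 ≤ m ≤ D`, of the integers of size
at most `T`. -/
noncomputable def rootPoly (D T : ℕ) : Polynomial ℚ :=
  ∏ m ∈ Finset.Icc 1 D, ∏ η ∈ Finset.Icc (-(T : ℤ)) T,
    (Polynomial.X ^ m - Polynomial.C (η : ℚ))

lemma rootPoly_ne (D T : ℕ) : rootPoly D T ≠ 0 := by
  unfold rootPoly
  refine Finset.prod_ne_zero_iff.mpr (fun m hm => Finset.prod_ne_zero_iff.mpr (fun η _ => ?_))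
  exact Polynomial.X_pow_sub_C_ne_zero (by have := (Finset.mem_Icc.mp hm).1; omega) _

lemma dvd_rootPoly (D T m : ℕ) (hm : 1 ≤ m) (hmD : m ≤ D) (η : ℤ) (hη : η.natAbs ≤ T) :
    (Polynomial.X ^ m - Polynomial.C (η : ℚ)) ∣ rootPoly D T := by
  unfold rootPoly
  refine dvd_trans ?_ (Finset.dvd_prod_of_mem _ (Finset.mem_Icc.mpr ⟨hm, hmD⟩))
  exact Finset.dvd_prod_of_mem (fun η : ℤ => Polynomial.X ^ m - Polynomial.C (η : ℚ))
    (Finset.mem_Icc.mpr (by omega))

/-- The number field containing all the radicals. -/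
abbrev RK (D T : ℕ) : Type := Polynomial.SplittingField (rootPoly D T)

noncomputable instance (D T : ℕ) : NumberField (RK D T) where
  to_charZero := inferInstance
  to_finiteDimensional := inferInstance

/-- The fields generated by radicals embed compatibly. -/
lemma radical_embed (D T m : ℕ) (hm : 1 ≤ m) (hmD : m ≤ D) (η : ℤ) (hη : η.natAbs ≤ T)
    (E : Type) [Field E] [NumberField E] (θ : E) (hθ : θ ^ m = (η : E)) :
    ∃ F : IntermediateField ℚ (RK D T),
      finrank ℚ F = finrank ℚ (IntermediateField.adjoin ℚ {θ}) ∧ Nonempty (F →+* E) := by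
  have hint : IsIntegral ℚ θ := Algebra.IsIntegral.isIntegral θ
  have hdvd : minpoly ℚ θ ∣ rootPoly D T := by
    refine dvd_trans ?_ (dvd_rootPoly D T m hm hmD η hη)
    apply minpoly.dvd
    simp [hθ]
  have hsp : ((rootPoly D T).map (algebraMap ℚ (RK D T))).Splits :=
    Polynomial.SplittingField.splits _
  have hsp2 : ((minpoly ℚ θ).map (algebraMap ℚ (RK D T))).Splits := by
    refine hsp.of_dvd ?_ (Polynomial.map_dvd _ hdvd)
    exact (Polynomial.map_ne_zero_iff (algebraMap ℚ (RK D T)).injective).mpr (rootPoly_ne D T)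
  obtain ⟨θ', hθ'⟩ := hsp2.exists_eval_eq_zero (by
    rw [Polynomial.degree_map]
    exact (minpoly.degree_pos hint).ne')
  have hroot : Polynomial.aeval θ' (minpoly ℚ θ) = 0 := by
    rw [Polynomial.aeval_def, ← Polynomial.eval_map]
    exact hθ'
  have hint' : IsIntegral ℚ θ' := Algebra.IsIntegral.isIntegral θ'
  have hmin : minpoly ℚ θ = minpoly ℚ θ' :=
    minpoly.eq_of_irreducible_of_monic (minpoly.irreducible hint) hroot (minpoly.monic hint)
  refine ⟨IntermediateField.adjoin ℚ {θ'}, ?_, ?_⟩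
  · rw [IntermediateField.adjoin.finrank hint', IntermediateField.adjoin.finrank hint, hmin]
  · have h1 : Polynomial.aeval θ (minpoly ℚ (IntermediateField.adjoin.powerBasis hint').gen) = 0 := by
      have h2 : minpoly ℚ (IntermediateField.AdjoinSimple.gen ℚ θ') = minpoly ℚ θ :=
        (minpoly.algebraMap_eq (algebraMap (IntermediateField.adjoin ℚ {θ'}) (RK D T)).injective
          (IntermediateField.AdjoinSimple.gen ℚ θ')).symm.trans hmin.symm
      rw [IntermediateField.adjoin.powerBasis_gen]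
      exact (congrArg (fun p => Polynomial.aeval θ p) h2).trans (minpoly.aeval ℚ θ)
    exact ⟨((IntermediateField.adjoin.powerBasis hint').lift θ h1).toRingHom⟩

end Pool.Agent.H20.TD
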