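import Pool.Agent.H20.TF

set_option autoImplicit false

namespace Pool.Agent.H20.TD

open MvPolynomial Module

lemma bd_mono (S : Finset ℕ) {m D : ℕ} (h : m ≤ D) : bd S m ≤ bd S D := by
  unfold bd
  apply Nat.pow_le_pow_right _ h
  apply Finset.prod_pos
  intro q hq
  exact (Finset.mem_filter.mp hq).2.pos

lemma Smooth.neg_mul_pow {S : Finset ℕ} {a δ : ℤ} (ha : Smooth S a) (hδ : Smooth S δ) (n : ℕ) :
    Smooth S (-(a * δ ^ n)) := by
  refine ⟨neg_ne_zero.mpr (mul_ne_zero ha.1 (pow_ne_zero _ hδ.1)), ?_⟩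
  intro q hq hqd
  rw [dvd_neg] at hqd
  have hq' : Prime (q : ℤ) := Nat.prime_iff_prime_int.mp hq
  rcases hq'.dvd_or_dvd hqd with h | h
  · exact ha.2 q hq h
  · exact hδ.2 q hq (hq'.dvd_of_dvd_pow h)

lemma Edge.le_deg {f : MvPolynomial (Fin 2) ℤ} {m d n : ℕ} (h : Edge f m d n) (δ : ℤ)
    (hδ : δ ≠ 0) : m * max d n ≤ (cover m δ f).totalDegree := by
  have hm := h.hm
  have h1 : m * n ≤ (cover m δ f).totalDegree := by
    have h2 := coeff_cover m (by omega) δ f (Finsupp.single 0 n)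
    have h3 : (Finsupp.single (0 : Fin 2) (m * (Finsupp.single (0 : Fin 2) n : Fin 2 →₀ ℕ) 0)
        + Finsupp.single 1 ((Finsupp.single (0 : Fin 2) n : Fin 2 →₀ ℕ) 1))
        = Finsupp.single 0 (m * n) := by
      simp
    rw [h3] at h2
    have h4 : Finsupp.single 0 (m * n) ∈ (cover m δ f).support := by
      rw [MvPolynomial.mem_support_iff, h2]
      exact mul_ne_zero h.ha (pow_ne_zero _ hδ)
    have h5 := le_totalDegree h4
    rwa [Finsupp.sum_single_index rfl] at h5
  have h1' : m * d ≤ (cover m δ f).totalDegree := by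
    have h2 := coeff_cover m (by omega) δ f (Finsupp.single 1 (m * d))
    have h3 : (Finsupp.single (0 : Fin 2) (m * (Finsupp.single (1 : Fin 2) (m * d) : Fin 2 →₀ ℕ) 0)
        + Finsupp.single 1 ((Finsupp.single (1 : Fin 2) (m * d) : Fin 2 →₀ ℕ) 1))
        = Finsupp.single 1 (m * d) := by
      simp
    rw [h3] at h2
    have h4 : Finsupp.single 1 (m * d) ∈ (cover m δ f).support := by
      rw [MvPolynomial.mem_support_iff, h2]
      exact mul_ne_zero h.hb (pow_ne_zero _ hδ)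
    have h5 := le_totalDegree h4
    rwa [Finsupp.sum_single_index rfl] at h5
  rcases le_total d n with h6 | h6
  · rwa [max_eq_right h6]
  · rwa [max_eq_left h6]

/-- The condition at infinity for the covering curves. -/
lemma Edge.condF {f : MvPolynomial (Fin 2) ℤ} {m d n : ℕ} (h : Edge f m d n) (S : Finset ℕ)
    (D : ℕ) (hmD : m ≤ D) (ha : Smooth S (f.coeff (Finsupp.single 0 n)))
    (hb : Smooth S (f.coeff (Finsupp.single 1 (m * d)))) (δ : ℤ) (hδ : Smooth S δ) :
    Pool.Agent.H20.G.CondF (RK D (bd S D)) (cover m δ f).totalDegree (cover m δ f) := by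
  have hm := h.hm
  by_cases hsmall : ∃ (E : Type) (_ : Field E) (_ : NumberField E) (θ : E),
      ((f.coeff (Finsupp.single 1 (m * d)) : ℤ) : E) * θ ^ m
        = ((-(f.coeff (Finsupp.single 0 n) * δ ^ n) : ℤ) : E) ∧ finrank ℚ E ≤ 2
  · left
    obtain ⟨E, fE, nE, θ, hθ, hE⟩ := hsmall
    obtain ⟨u, y, h1, h2, h3⟩ := h.branch δ hδ.1 θ hθ
    refine ⟨E, fE, nE, u, y, max d n, ?_, ⟨?_, h1, h2⟩, ?_⟩
    · rw [eval₂_cover]
      exact h3
    · exact le_trans h.hd (le_max_left _ _)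
    · have h4 := h.le_deg δ hδ.1
      have h5 : 1 ≤ max d n := le_trans h.hd (le_max_left _ _)
      calc finrank ℚ E * max d n ≤ 2 * max d n := Nat.mul_le_mul_right _ hE
        _ < 3 * max d n := by omega
        _ ≤ m * max d n := Nat.mul_le_mul_right _ hm
        _ ≤ _ := h4
  · right
    intro L fL nL u y e hf hp
    rw [eval₂_cover] at hf
    obtain ⟨θ, hθ⟩ := h.lead δ hδ.1 u y e hp.1 hp.2.1 hp.2.2 hf
    obtain ⟨η, r, hr, hη0, hη, hab⟩ := smooth_ratio S m (by omega) _ _ (ha.neg_mul_pow hδ n) hb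
    have key : ∀ (E : Type) [Field E] [NumberField E] (θ1 : E), θ1 ^ m = (η : E) →
        ((f.coeff (Finsupp.single 1 (m * d)) : ℤ) : E) * ((r : E) * θ1) ^ m
        = ((-(f.coeff (Finsupp.single 0 n) * δ ^ n) : ℤ) : E) := by
      intro E _ _ θ1 h1
      have h2 := congrArg (fun q : ℚ => (q : E)) hab
      rw [mul_pow, h1]
      push_cast at h2 ⊢
      rw [h2]
      ring
    have hr' : (r : L) ≠ 0 := by exact_mod_cast hr
    have hθ1 : (θ / r) ^ m = (η : L) := by
      have h2 := congrArg (fun q : ℚ => (q : L)) hab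
      have hb' : ((f.coeff (Finsupp.single 1 (m * d)) : ℤ) : L) ≠ 0 := by exact_mod_cast hb.1
      rw [div_pow, div_eq_iff (pow_ne_zero _ hr')]
      apply mul_left_cancel₀ hb'
      rw [hθ]
      push_cast at h2 ⊢
      exact h2
    obtain ⟨F, hF1, hF2⟩ := radical_embed D (bd S D) m (by omega) hmD η (hη.trans (bd_mono S hmD)) L
      (θ / r) hθ1
    refine ⟨F, ?_, hF2⟩
    rw [hF1]
    by_contra hcon
    apply hsmall
    have hgen : (IntermediateField.AdjoinSimple.gen ℚ (θ / r)) ^ m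
        = ((η : ℤ) : IntermediateField.adjoin ℚ {θ / (r : L)}) := by
      apply (algebraMap (IntermediateField.adjoin ℚ {θ / (r : L)}) L).injective
      rw [map_pow, IntermediateField.AdjoinSimple.algebraMap_gen, hθ1, map_intCast]
    exact ⟨IntermediateField.adjoin ℚ {θ / (r : L)}, inferInstance, inferInstance,
      (r : IntermediateField.adjoin ℚ {θ / (r : L)}) *
        IntermediateField.AdjoinSimple.gen ℚ (θ / (r : L)), key _ _ hgen, by omega⟩

lemma HF_nonneg (F : MvPolynomial (Fin 2) ℤ) : 0 ≤ HF F :=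
  Finset.sum_nonneg (fun _ _ => abs_nonneg _)

lemma HF_eq' (F : MvPolynomial (Fin 2) ℤ) (s : Finset (Fin 2 →₀ ℕ)) (hs : F.support ⊆ s) :
    HF F = ∑ m ∈ s, |((F.coeff m : ℤ) : ℝ)| := by
  unfold HF
  refine Finset.sum_subset hs (fun m _ hm => ?_)
  rw [notMem_support_iff.mp hm]
  simp

lemma HF_add_le' (F G : MvPolynomial (Fin 2) ℤ) : HF (F + G) ≤ HF F + HF G := by
  classical
  rw [HF_eq' (F + G) (F.support ∪ G.support) support_add,
    HF_eq' F (F.support ∪ G.support) Finset.subset_union_left,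
    HF_eq' G (F.support ∪ G.support) Finset.subset_union_right, ← Finset.sum_add_distrib]
  refine Finset.sum_le_sum (fun m _ => ?_)
  rw [coeff_add]
  push_cast
  exact abs_add_le _ _

lemma HF_sum_monomial_le {ι : Type*} (s : Finset ι) (φ : ι → (Fin 2 →₀ ℕ)) (c : ι → ℤ) :
    HF (∑ j ∈ s, monomial (φ j) (c j)) ≤ ∑ j ∈ s, |(c j : ℝ)| := by
  classical
  induction s using Finset.induction_on with
  | empty => simp [HF]
  | insert i s hi ih =>
    rw [Finset.sum_insert hi, Finset.sum_insert hi]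
    refine (HF_add_le' _ _).trans (add_le_add ?_ ih)
    rw [HF_eq' _ {φ i} support_monomial_subset, Finset.sum_singleton, coeff_monomial, if_pos rfl]

lemma HF_cover_le (m D : ℕ) (δ : ℤ) (f : MvPolynomial (Fin 2) ℤ) (hf : f.totalDegree ≤ D) (T : ℕ)
    (hT : 1 ≤ T) (hδ : δ.natAbs ≤ T) : HF (cover m δ f) ≤ (T : ℝ) ^ D * HF f := by
  rw [cover_eq_sum]
  refine (HF_sum_monomial_le _ _ _).trans ?_
  unfold HF
  rw [Finset.mul_sum]
  refine Finset.sum_le_sum (fun j hj => ?_)
  push_cast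
  rw [abs_mul, abs_pow, mul_comm]
  refine mul_le_mul_of_nonneg_right ?_ (abs_nonneg _)
  have h1 : |(δ : ℝ)| ≤ T := by
    have h2 : ((δ.natAbs : ℕ) : ℝ) ≤ T := by exact_mod_cast hδ
    rw [Nat.cast_natAbs] at h2
    push_cast at h2
    exact h2
  have h3 : j 0 ≤ D := by
    refine le_trans ?_ hf
    have h4 := le_totalDegree hj
    have h5 : j.sum (fun _ e => e) = j 0 + j 1 := by
      conv_lhs => rw [fin2_eq j]
      rw [Finsupp.sum_add_index' (fun _ => rfl) (fun _ _ _ => rfl), Finsupp.sum_single_index rfl,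
        Finsupp.sum_single_index rfl]
    omega
  calc |(δ : ℝ)| ^ j 0 ≤ (T : ℝ) ^ j 0 := pow_le_pow_left₀ (abs_nonneg _) h1 _
    _ ≤ (T : ℝ) ^ D := pow_le_pow_right₀ (by exact_mod_cast hT) h3

lemma Edge.one_le_HF {f : MvPolynomial (Fin 2) ℤ} {m d n : ℕ} (h : Edge f m d n) : 1 ≤ HF f := by
  unfold HF
  have h1 : Finsupp.single 0 n ∈ f.support := MvPolynomial.mem_support_iff.mpr h.ha
  refine le_trans ?_ (Finset.single_le_sum (f := fun m => |((f.coeff m : ℤ) : ℝ)|)
    (fun _ _ => abs_nonneg _) h1)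
  have h2 : (1 : ℤ) ≤ |f.coeff (Finsupp.single 0 n)| := Int.one_le_abs h.ha
  exact_mod_cast h2

/-- Points with `x = 0`. -/
lemma Edge.zero_bound {f : MvPolynomial (Fin 2) ℤ} {m d n : ℕ} (h : Edge f m d n) (y : ℤ)
    (hy : eval ![0, y] f = 0) : |(y : ℝ)| ≤ HF f := by
  classical
  by_cases hy0 : y = 0
  · rw [hy0]
    simpa using HF_nonneg f
  have hm := h.hm
  have hd := h.hd
  have hn := h.hn
  have hN : 1 ≤ m * d := Nat.mul_pos (by omega) hd
  set N := m * d with hNdef
  have hy1 : (1 : ℝ) ≤ |(y : ℝ)| := by exact_mod_cast Int.one_le_abs hy0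
  rw [eval_eq'] at hy
  have hmem : Finsupp.single 1 N ∈ f.support := MvPolynomial.mem_support_iff.mpr h.hb
  rw [← Finset.add_sum_erase _ _ hmem] at hy
  have h1 : (f.coeff (Finsupp.single 1 N)) * (∏ i, ![(0 : ℤ), y] i ^ (Finsupp.single 1 N : Fin 2 →₀ ℕ) i)
      = f.coeff (Finsupp.single 1 N) * y ^ N := by
    rw [Fin.prod_univ_two]
    simp
  rw [h1] at hy
  have h2 : |((f.coeff (Finsupp.single 1 N) * y ^ N : ℤ) : ℝ)| ≤ HF f * |(y : ℝ)| ^ (N - 1) := by
    have h3 : (f.coeff (Finsupp.single 1 N) * y ^ N : ℤ) = -∑ x ∈ f.support.erase (Finsupp.single 1 N),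
        f.coeff x * ∏ i, ![(0 : ℤ), y] i ^ x i := by linarith
    rw [h3]
    push_cast
    rw [abs_neg]
    refine (Finset.abs_sum_le_sum_abs _ _).trans ?_
    have h4 : ∀ x ∈ f.support.erase (Finsupp.single 1 N),
        |((f.coeff x : ℤ) : ℝ) * ∏ i, ((![(0 : ℤ), y] i : ℤ) : ℝ) ^ x i|
        ≤ |((f.coeff x : ℤ) : ℝ)| * |(y : ℝ)| ^ (N - 1) := by
      intro x hx
      rw [Finset.mem_erase] at hx
      rw [abs_mul]
      refine mul_le_mul_of_nonneg_left ?_ (abs_nonneg _)
      rw [Fin.prod_univ_two]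
      simp only [Matrix.cons_val_zero, Matrix.cons_val_one, Int.cast_zero]
      by_cases hx0 : x 0 = 0
      · rw [hx0, pow_zero, one_mul, abs_pow]
        apply pow_le_pow_right₀ hy1
        have h5 : x ≠ Finsupp.single 0 n := by
          intro h6
          rw [h6, Finsupp.single_eq_same] at hx0
          omega
        have h7 := h.low x hx.2 h5 hx.1
        rw [hx0, zero_mul, zero_add, ← hNdef, mul_comm] at h7
        have := lt_of_mul_lt_mul_left h7 (Nat.zero_le n)
        omega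
      · rw [zero_pow hx0, zero_mul, abs_zero]
        positivity
    refine (Finset.sum_le_sum h4).trans ?_
    rw [← Finset.sum_mul]
    refine mul_le_mul_of_nonneg_right ?_ (by positivity)
    unfold HF
    exact Finset.sum_le_sum_of_subset_of_nonneg (Finset.erase_subset _ _)
      (fun _ _ _ => abs_nonneg _)
  have h8 : |(y : ℝ)| * |(y : ℝ)| ^ (N - 1) ≤ HF f * |(y : ℝ)| ^ (N - 1) := by
    refine le_trans ?_ h2
    push_cast
    rw [abs_mul, abs_pow, ← pow_succ']
    have h9 : N - 1 + 1 = N := by omega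
    rw [h9]
    have h10 : (1 : ℝ) ≤ |((f.coeff (Finsupp.single 1 N) : ℤ) : ℝ)| := by
      exact_mod_cast Int.one_le_abs h.hb
    have h11 : 0 ≤ |(y : ℝ)| ^ N := by positivity
    nlinarith
  exact le_of_mul_le_mul_right h8 (by positivity)

end Pool.Agent.H20.TD
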