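import Pool.Agent.H20.TG

set_option autoImplicit false

namespace Pool.Agent.H20.TD

open MvPolynomial Module

/-- The class of curves. -/
structure Tang (S : Finset ℕ) (f : MvPolynomial (Fin 2) ℤ) (m d n k : ℕ) (G U V : Polynomial ℤ)
    (B : MvPolynomial (Fin 2) ℤ) (c s : ℤ) : Prop where
  edge : Edge f m d n
  hk : Nat.Coprime k m
  hc : Smooth S c
  hs : Smooth S s
  ha : Smooth S (f.coeff (Finsupp.single 0 n))
  hb : Smooth S (f.coeff (Finsupp.single 1 (m * d)))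
  rel : f = C c * (Polynomial.aeval (X 1 : MvPolynomial (Fin 2) ℤ) G) ^ m - X 0 ^ k * B
  bez : U * G + V * (aeval ![0, Polynomial.X] B : Polynomial ℤ) = Polynomial.C s
  irr : ∀ δ : ℤ, Smooth S δ → Irreducible (map (Int.castRingHom ℚ) (cover m δ f))

lemma dvd_eval_sub (B : MvPolynomial (Fin 2) ℤ) (x y : ℤ) :
    x ∣ eval ![x, y] B - eval ![0, y] B := by
  induction B using MvPolynomial.induction_on with
  | C a => simp
  | add p q hp hq =>
    rw [map_add, map_add]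
    have h : (eval ![x, y] p + eval ![x, y] q) - (eval ![0, y] p + eval ![0, y] q)
        = (eval ![x, y] p - eval ![0, y] p) + (eval ![x, y] q - eval ![0, y] q) := by ring
    rw [h]
    exact dvd_add hp hq
  | mul_X p i hp =>
    rw [map_mul, map_mul, eval_X, eval_X]
    fin_cases i
    · simp
    · have h : eval ![x, y] p * (![x, y] : Fin 2 → ℤ) 1 - eval ![0, y] p * (![0, y] : Fin 2 → ℤ) 1
          = (eval ![x, y] p - eval ![0, y] p) * y := by
        have h1 : (![x, y] : Fin 2 → ℤ) 1 = y := rfl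
        have h2 : (![0, y] : Fin 2 → ℤ) 1 = y := rfl
        rw [h1, h2]
        ring
      exact h ▸ Dvd.dvd.mul_right hp y

lemma eval_aeval_X (G : Polynomial ℤ) (x y : ℤ) :
    eval ![x, y] (Polynomial.aeval (X 1 : MvPolynomial (Fin 2) ℤ) G) = G.eval y := by
  have h : (eval ![x, y]).comp (Polynomial.aeval (X 1 : MvPolynomial (Fin 2) ℤ)).toRingHom
      = (Polynomial.evalRingHom y) := by
    apply Polynomial.ringHom_ext
    · intro a; simp
    · simp
  exact RingHom.congr_fun h G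

lemma eval_aeval_zero (B : MvPolynomial (Fin 2) ℤ) (y : ℤ) :
    (aeval ![0, Polynomial.X] B : Polynomial ℤ).eval y = eval ![0, y] B := by
  have h : (Polynomial.evalRingHom y).comp
      (aeval ![(0 : Polynomial ℤ), Polynomial.X] : MvPolynomial (Fin 2) ℤ →ₐ[ℤ] Polynomial ℤ).toRingHom
      = (eval ![0, y]) := by
    apply MvPolynomial.ringHom_ext
    · intro a; simp
    · intro i
      fin_cases i <;> simp
  exact RingHom.congr_fun h B

lemma Tang.point {S : Finset ℕ} {f : MvPolynomial (Fin 2) ℤ} {m d n k : ℕ} {G U V : Polynomial ℤ}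
    {B : MvPolynomial (Fin 2) ℤ} {c s : ℤ} (h : Tang S f m d n k G U V B c s) (x y : ℤ)
    (hx : x ≠ 0) (hxy : eval ![x, y] f = 0) :
    ∃ δ t : ℤ, x = δ * t ^ m ∧ Smooth S δ ∧ δ.natAbs ≤ bd S m := by
  have hrel : c * (G.eval y) ^ m = x ^ k * eval ![x, y] B := by
    have h1 := hxy
    rw [h.rel, map_sub, map_mul, map_mul, map_pow, map_pow, eval_C, eval_X, eval_aeval_X] at h1
    have h2 : (![x, y] : Fin 2 → ℤ) 0 = x := rfl
    rw [h2] at h1
    linarith
  have hbez : U.eval y * G.eval y + V.eval y * eval ![0, y] B = s := by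
    have h1 := congrArg (Polynomial.eval y) h.bez
    rw [Polynomial.eval_add, Polynomial.eval_mul, Polynomial.eval_mul, Polynomial.eval_C,
      eval_aeval_zero] at h1
    exact h1
  exact descent S m k h.edge.hm h.hk x (G.eval y) (eval ![x, y] B) c s (eval ![0, y] B)
    (U.eval y) (V.eval y) hx h.hc h.hs hrel (dvd_eval_sub B x y) hbez

lemma Edge.md_le {f : MvPolynomial (Fin 2) ℤ} {m d n : ℕ} (h : Edge f m d n) :
    m * d ≤ f.totalDegree := by
  have h4 : Finsupp.single 1 (m * d) ∈ f.support := MvPolynomial.mem_support_iff.mpr h.hb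
  have h5 := le_totalDegree h4
  rwa [Finsupp.sum_single_index rfl] at h5

theorem main (D : ℕ) : ∃ κ : ℕ, ∀ S : Finset ℕ, ∃ A : ℝ, 1 ≤ A ∧
    ∀ (f : MvPolynomial (Fin 2) ℤ) (m d n k : ℕ) (G U V : Polynomial ℤ)
      (B : MvPolynomial (Fin 2) ℤ) (c s : ℤ), Tang S f m d n k G U V B c s →
      f.totalDegree ≤ D → ∀ x y : ℤ, eval ![x, y] f = 0 →
        |(x : ℝ)| ≤ A * HF f ^ κ ∧ |(y : ℝ)| ≤ A * HF f ^ κ := by
  classical
  have hk : ∀ e : ℕ, ∃ κ : ℕ, 3 ≤ e → ∀ (K : Type) [Field K] [NumberField K], ∃ A : ℝ, 1 ≤ A ∧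
      ∀ F : MvPolynomial (Fin 2) ℤ, Irreducible (MvPolynomial.map (Int.castRingHom ℚ) F) →
      F.totalDegree = e → Pool.Agent.H20.G.CondF K e F →
      ∀ x y : ℤ, MvPolynomial.eval ![x, y] F = 0 →
        |(x : ℝ)| ≤ A * HF F ^ κ ∧ |(y : ℝ)| ≤ A * HF F ^ κ := by
    intro e
    by_cases he : 3 ≤ e
    · obtain ⟨κ, hκ⟩ := Pool.Agent.H20.G.general_boundG e he
      exact ⟨κ, fun _ => hκ⟩
    · exact ⟨0, fun h => absurd h he⟩
  choose κ hκ using hk
  set K1 : ℕ := ∑ e ∈ Finset.range (D * D + 1), κ e with hK1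
  refine ⟨K1 * D + 1, fun S => ?_⟩
  set T : ℕ := bd S D with hT
  have hT1 : 1 ≤ T := bd_pos S D
  have hA : ∀ e : ℕ, ∃ A : ℝ, 1 ≤ A ∧ (3 ≤ e →
      ∀ F : MvPolynomial (Fin 2) ℤ, Irreducible (MvPolynomial.map (Int.castRingHom ℚ) F) →
      F.totalDegree = e → Pool.Agent.H20.G.CondF (RK D T) e F →
      ∀ x y : ℤ, MvPolynomial.eval ![x, y] F = 0 →
        |(x : ℝ)| ≤ A * HF F ^ κ e ∧ |(y : ℝ)| ≤ A * HF F ^ κ e) := by
    intro e
    by_cases he : 3 ≤ e
    · obtain ⟨A, hA1, hA2⟩ := hκ e he (RK D T)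
      exact ⟨A, hA1, fun _ => hA2⟩
    · exact ⟨1, le_refl _, fun h => absurd h he⟩
  choose A hA1 hA2 using hA
  set A1 : ℝ := ∑ e ∈ Finset.range (D * D + 1), A e with hA1def
  have hT1' : (1 : ℝ) ≤ T := by exact_mod_cast hT1
  have hA11 : 1 ≤ A1 := by
    refine (hA1 0).trans ?_
    exact Finset.single_le_sum (f := A) (fun e _ => by linarith [hA1 e])
      (Finset.mem_range.mpr (Nat.succ_pos _))
  refine ⟨T * (A1 * ((T : ℝ) ^ D) ^ K1) ^ D, ?_, ?_⟩
  · exact one_le_mul_of_one_le_of_one_le hT1'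
      (one_le_pow₀ (one_le_mul_of_one_le_of_one_le hA11 (one_le_pow₀ (one_le_pow₀ hT1'))))
  intro f m d n k G U V B c s h hfD x y hxy
  have hm := h.edge.hm
  have hd := h.edge.hd
  have hn := h.edge.hn
  have hmD : m ≤ D := by
    have h1 := h.edge.md_le
    have h2 : m ≤ m * d := Nat.le_mul_of_pos_right m hd
    omega
  have hH1 : 1 ≤ HF f := h.edge.one_le_HF
  have hA0 : (1 : ℝ) ≤ T * (A1 * ((T : ℝ) ^ D) ^ K1) ^ D := one_le_mul_of_one_le_of_one_le hT1'
      (one_le_pow₀ (one_le_mul_of_one_le_of_one_le hA11 (one_le_pow₀ (one_le_pow₀ hT1'))))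
  by_cases hx : x = 0
  · subst hx
    have h1 := h.edge.zero_bound y hxy
    have h2 : HF f ≤ T * (A1 * ((T : ℝ) ^ D) ^ K1) ^ D * HF f ^ (K1 * D + 1) := by
      have h3 : HF f ≤ HF f ^ (K1 * D + 1) := le_self_pow₀ hH1 (by omega)
      have h4 : 0 ≤ HF f ^ (K1 * D + 1) := by positivity
      nlinarith
    refine ⟨?_, h1.trans h2⟩
    have h3 : |((0 : ℤ) : ℝ)| = 0 := by simp
    rw [h3]
    exact (HF_nonneg f).trans h2
  · obtain ⟨δ, t, hxt, hδS, hδ⟩ := h.point x y hx hxy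
    have hδT : δ.natAbs ≤ T := hδ.trans (bd_mono S hmD)
    set g := cover m δ f with hg
    set e := g.totalDegree with he
    have hpt : eval ![t, y] g = 0 := by
      rw [hg, eval_cover, ← hxt]
      exact hxy
    have he3 : 3 ≤ e := by
      have h1 := h.edge.le_deg δ hδS.1
      have h2 : 1 ≤ max d n := le_trans hd (le_max_left _ _)
      calc 3 ≤ m * 1 := by omega
        _ ≤ m * max d n := Nat.mul_le_mul_left _ h2
        _ ≤ e := h1
    have heD : e ≤ D * D := by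
      have h1 := totalDegree_cover_le m (by omega) δ f
      exact h1.trans (Nat.mul_le_mul hmD hfD)
    have hmem : e ∈ Finset.range (D * D + 1) := Finset.mem_range.mpr (by omega)
    have hcond : Pool.Agent.H20.G.CondF (RK D T) e g := h.edge.condF S D hmD h.ha h.hb δ hδS
    have hb := hA2 e he3 g (h.irr δ hδS) he.symm hcond t y hpt
    have hHg : HF g ≤ (T : ℝ) ^ D * HF f := HF_cover_le m D δ f hfD T hT1 hδT
    have hHg0 : 0 ≤ HF g := HF_nonneg g
    have hTH : 1 ≤ (T : ℝ) ^ D * HF f := one_le_mul_of_one_le_of_one_le (one_le_pow₀ hT1') hH1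
    have hκe : κ e ≤ K1 := Finset.single_le_sum (f := κ) (fun _ _ => Nat.zero_le _) hmem
    have hAe : A e ≤ A1 := Finset.single_le_sum (f := A) (fun e _ => by linarith [hA1 e]) hmem
    set Q : ℝ := A1 * ((T : ℝ) ^ D * HF f) ^ K1 with hQ
    have hQ1 : 1 ≤ Q := one_le_mul_of_one_le_of_one_le hA11 (one_le_pow₀ hTH)
    have hbQ : A e * HF g ^ κ e ≤ Q := by
      refine mul_le_mul hAe ?_ (pow_nonneg hHg0 _) (by linarith)
      exact (pow_le_pow_left₀ hHg0 hHg _).trans (pow_le_pow_right₀ hTH hκe)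
    have ht : |(t : ℝ)| ≤ Q := hb.1.trans hbQ
    have hy : |(y : ℝ)| ≤ Q := hb.2.trans hbQ
    have hfin : (T : ℝ) * Q ^ D
        ≤ T * (A1 * ((T : ℝ) ^ D) ^ K1) ^ D * HF f ^ (K1 * D + 1) := by
      have h1 : Q ^ D = (A1 * ((T : ℝ) ^ D) ^ K1) ^ D * HF f ^ (K1 * D) := by
        rw [hQ, mul_pow ((T : ℝ) ^ D) (HF f) K1, ← mul_assoc, mul_pow, ← pow_mul (HF f)]
      rw [h1, ← mul_assoc]
      refine mul_le_mul_of_nonneg_left ?_ (by linarith)
      exact pow_le_pow_right₀ hH1 (by omega)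
    have hδ' : |(δ : ℝ)| ≤ T := by
      have h2 : ((δ.natAbs : ℕ) : ℝ) ≤ T := by exact_mod_cast hδT
      rw [Nat.cast_natAbs] at h2
      push_cast at h2
      exact h2
    constructor
    · refine le_trans ?_ hfin
      rw [hxt]
      push_cast
      rw [abs_mul, abs_pow]
      refine mul_le_mul hδ' ?_ (pow_nonneg (abs_nonneg _) _) (by linarith)
      exact (pow_le_pow_left₀ (abs_nonneg _) ht _).trans (pow_le_pow_right₀ hQ1 hmD)
    · refine le_trans ?_ hfin
      refine hy.trans ?_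
      have h1 : Q ≤ Q ^ D := le_self_pow₀ hQ1 (by omega)
      have h2 : 0 ≤ Q ^ D := by positivity
      nlinarith

end Pool.Agent.H20.TD
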