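import Mathlib

set_option autoImplicit false

namespace Pool.Agent.H20.TD

open MvPolynomial

lemma no_cube_root_two (q : ℚ) (h : q ^ 3 = 2) : False := by
  have hq : q ≠ 0 := by
    rintro rfl
    norm_num at h
  have h1 : padicValRat 2 (q ^ 3) = 1 := by
    rw [h]
    exact_mod_cast padicValRat.self (p := 2) (by norm_num)
  rw [padicValRat.pow] at h1
  push_cast at h1
  omega

/-- `y ^ 3 = 2 x ^ 4 + b x ^ 2 y + x` with `x = δ u ^ 3` has no solution with `y` a polynomial
in `u`. -/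
lemma no_root (δ b : ℚ) (hδ : δ ≠ 0) (r : Polynomial ℚ)
    (h : r ^ 3 - 2 * (Polynomial.C δ * Polynomial.X ^ 3) ^ 4
      - Polynomial.C b * (Polynomial.C δ * Polynomial.X ^ 3) ^ 2 * r
      - Polynomial.C δ * Polynomial.X ^ 3 = 0) : False := by
  have h0 : r.eval 0 = 0 := by
    have h1 := congrArg (Polynomial.eval 0) h
    simp at h1
    exact h1
  obtain ⟨s, hs⟩ := Polynomial.dvd_iff_isRoot.mpr h0
  rw [Polynomial.C_0, sub_zero] at hs
  have h2 : (Polynomial.X : Polynomial ℚ) ^ 3 * (s ^ 3 - 2 * Polynomial.C δ ^ 4 * Polynomial.X ^ 9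
      - Polynomial.C b * Polynomial.C δ ^ 2 * Polynomial.X ^ 4 * s - Polynomial.C δ) = 0 := by
    rw [← h, hs]
    ring
  have h3 : s ^ 3 - 2 * Polynomial.C δ ^ 4 * Polynomial.X ^ 9
      - Polynomial.C b * Polynomial.C δ ^ 2 * Polynomial.X ^ 4 * s - Polynomial.C δ = 0 :=
    (mul_eq_zero.mp h2).resolve_left (pow_ne_zero _ Polynomial.X_ne_zero)
  have hw : (s.eval 0) ^ 3 = δ := by
    have h1 := congrArg (Polynomial.eval 0) h3
    simp at h1
    linarith
  have hs3 : s ^ 3 = Polynomial.C (2 * δ ^ 4) * Polynomial.X ^ 9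
      + Polynomial.C (b * δ ^ 2) * (s * Polynomial.X ^ 4) + Polynomial.C δ := by
    have h4 : (Polynomial.C (2 * δ ^ 4) : Polynomial ℚ) = 2 * Polynomial.C δ ^ 4 := by
      rw [map_mul, map_pow]
      rfl
    have h5 : (Polynomial.C (b * δ ^ 2) : Polynomial ℚ) = Polynomial.C b * Polynomial.C δ ^ 2 := by
      rw [map_mul, map_pow]
    rw [h4, h5]
    linear_combination h3
  have hdeg : (s ^ 3).natDegree = 3 * s.natDegree := Polynomial.natDegree_pow s 3
  have hs0 : s ≠ 0 := by
    rintro rfl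
    simp at hw
    exact hδ hw.symm
  -- coefficients
  have hcoef : ∀ N : ℕ, 1 ≤ N → (s ^ 3).coeff N = (if N = 9 then 2 * δ ^ 4 else 0)
      + b * δ ^ 2 * (if 4 ≤ N then s.coeff (N - 4) else 0) := by
    intro N hN
    rw [hs3, Polynomial.coeff_add, Polynomial.coeff_add, Polynomial.coeff_C_mul,
      Polynomial.coeff_C_mul, Polynomial.coeff_X_pow, Polynomial.coeff_mul_X_pow',
      Polynomial.coeff_C, if_neg (by omega : ¬ N = 0)]
    split_ifs <;> ring
  have hlt : s.natDegree = 3 := by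
    rcases lt_trichotomy s.natDegree 3 with hlt | heq | hgt
    · exfalso
      have h4 : (s ^ 3).coeff 9 = 0 := Polynomial.coeff_eq_zero_of_natDegree_lt (by omega)
      rw [hcoef 9 (by norm_num), if_pos rfl, if_pos (by norm_num),
        Polynomial.coeff_eq_zero_of_natDegree_lt (by omega : s.natDegree < 9 - 4)] at h4
      have h5 : δ ^ 4 ≠ 0 := pow_ne_zero _ hδ
      apply h5
      linarith
    · exact heq
    · exfalso
      have h4 : (s ^ 3).coeff (3 * s.natDegree) = s.leadingCoeff ^ 3 := by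
        rw [← hdeg, ← Polynomial.leadingCoeff, Polynomial.leadingCoeff_pow]
      rw [hcoef _ (by omega), if_neg (by omega), if_pos (by omega),
        Polynomial.coeff_eq_zero_of_natDegree_lt
          (by omega : s.natDegree < 3 * s.natDegree - 4), mul_zero, add_zero] at h4
      exact pow_ne_zero 3 (Polynomial.leadingCoeff_ne_zero.mpr hs0) h4.symm
  have h4 : (s ^ 3).coeff 9 = s.leadingCoeff ^ 3 := by
    have h5 : 9 = (s ^ 3).natDegree := by omega
    rw [h5, ← Polynomial.leadingCoeff, Polynomial.leadingCoeff_pow]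
  rw [hcoef 9 (by norm_num), if_pos rfl, if_pos (by norm_num),
    Polynomial.coeff_eq_zero_of_natDegree_lt (by omega : s.natDegree < 9 - 4), mul_zero,
    add_zero] at h4
  apply no_cube_root_two (s.leadingCoeff / (s.eval 0) ^ 4)
  have h5 : (s.eval 0) ^ 12 = δ ^ 4 := by
    rw [← hw]; ring
  rw [div_pow, ← h4, ← pow_mul, h5]
  field_simp

lemma irr_example (δ b : ℤ) (hδ : δ ≠ 0) :
    Irreducible (map (Int.castRingHom ℚ) (aeval ![C δ * X 0 ^ 3, (X 1 : MvPolynomial (Fin 2) ℤ)]
      (X 1 ^ 3 - 2 * X 0 ^ 4 - C b * X 0 ^ 2 * X 1 - X 0 : MvPolynomial (Fin 2) ℤ))) := by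
  set e := (renameEquiv ℚ (Equiv.swap (0 : Fin 2) 1)).toRingEquiv.trans
    (finSuccEquiv ℚ 1).toRingEquiv with he
  refine (MulEquiv.irreducible_iff e).mp ?_
  have hX0 : e (X 0) = Polynomial.C (X 0) := by
    rw [he]
    change finSuccEquiv ℚ 1 (rename _ (X 0)) = _
    rw [rename_X, Equiv.swap_apply_left]
    exact finSuccEquiv_X_succ (j := 0)
  have hX1 : e (X 1) = Polynomial.X := by
    rw [he]
    change finSuccEquiv ℚ 1 (rename _ (X 1)) = _
    rw [rename_X, Equiv.swap_apply_right]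
    exact finSuccEquiv_X_zero
  have hC : ∀ q : ℚ, e (C q) = Polynomial.C (C q) := by
    intro q
    rw [he]
    change finSuccEquiv ℚ 1 (rename _ (C q)) = _
    rw [rename_C]
    exact (finSuccEquiv ℚ 1).commutes q
  have hF : e (map (Int.castRingHom ℚ) (aeval ![C δ * X 0 ^ 3, (X 1 : MvPolynomial (Fin 2) ℤ)]
      (X 1 ^ 3 - 2 * X 0 ^ 4 - C b * X 0 ^ 2 * X 1 - X 0 : MvPolynomial (Fin 2) ℤ)))
      = Polynomial.X ^ 3 - Polynomial.C (C (b : ℚ) * (C (δ : ℚ) * X 0 ^ 3) ^ 2) * Polynomial.X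
        - Polynomial.C (2 * (C (δ : ℚ) * X 0 ^ 3) ^ 4 + C (δ : ℚ) * X 0 ^ 3) := by
    have h2 : (2 : MvPolynomial (Fin 2) ℤ) = C 2 := rfl
    rw [h2]
    simp only [map_sub, map_mul, map_pow, aeval_X, aeval_C, Matrix.cons_val_zero,
      Matrix.cons_val_one, map_X, algebraMap_eq, map_C, hX0, hX1, hC, map_add]
    have h3 : (Int.castRingHom ℚ) 2 = 2 := by norm_num
    have h4 : (C (2 : ℚ) : MvPolynomial (Fin 1) ℚ) = 2 := rfl
    rw [h3, h4]
    simp only [eq_intCast]
    ring
  rw [hF]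
  set u : MvPolynomial (Fin 1) ℚ := X 0 with hu
  set P : MvPolynomial (Fin 1) ℚ := C (b : ℚ) * (C (δ : ℚ) * u ^ 3) ^ 2 with hP
  set Q : MvPolynomial (Fin 1) ℚ := 2 * (C (δ : ℚ) * u ^ 3) ^ 4 + C (δ : ℚ) * u ^ 3 with hQ
  have hform : (Polynomial.X ^ 3 - Polynomial.C P * Polynomial.X - Polynomial.C Q)
      = Polynomial.X ^ 3 + (- Polynomial.C P * Polynomial.X - Polynomial.C Q) := by ring
  have hlow : (- Polynomial.C P * Polynomial.X - Polynomial.C Q).degree < 3 := by
    refine lt_of_le_of_lt (Polynomial.degree_sub_le _ _) ?_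
    rw [max_lt_iff]
    constructor
    · have h7 : -Polynomial.C P * Polynomial.X = Polynomial.C (-P) * Polynomial.X := by
        rw [map_neg]
      rw [h7]
      exact lt_of_le_of_lt (Polynomial.degree_C_mul_X_le _) (by norm_num)
    · exact lt_of_le_of_lt Polynomial.degree_C_le (by norm_num)
  have hmon : (Polynomial.X ^ 3 - Polynomial.C P * Polynomial.X - Polynomial.C Q).Monic := by
    rw [hform]
    exact Polynomial.monic_X_pow_add hlow
  have hnd : (Polynomial.X ^ 3 - Polynomial.C P * Polynomial.X - Polynomial.C Q).natDegree = 3 := by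
    rw [hform]
    refine Polynomial.natDegree_eq_of_degree_eq_some ?_
    rw [Polynomial.degree_add_eq_left_of_degree_lt (by rw [Polynomial.degree_X_pow]; exact hlow),
      Polynomial.degree_X_pow]
  rw [Polynomial.Monic.irreducible_iff_roots_eq_zero_of_degree_le_three hmon (by omega) (by omega)]
  rw [Multiset.eq_zero_iff_forall_notMem]
  intro r hr
  rw [Polynomial.mem_roots hmon.ne_zero] at hr
  have hr' : r ^ 3 - P * r - Q = 0 := by
    have := hr
    rw [Polynomial.IsRoot.def] at this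
    simpa using this
  have h5 := congrArg (aeval (fun _ => (Polynomial.X : Polynomial ℚ))) hr'
  apply no_root (δ : ℚ) (b : ℚ) (by exact_mod_cast hδ)
    (aeval (fun _ => (Polynomial.X : Polynomial ℚ)) r)
  rw [hP, hQ] at h5
  simp only [map_sub, map_mul, map_pow, map_add, aeval_C, aeval_X, hu, map_zero, map_ofNat] at h5
  have h6 : ∀ q : ℚ, algebraMap ℚ (Polynomial ℚ) q = Polynomial.C q := fun _ => rfl
  simp only [h6] at h5
  linear_combination h5

end Pool.Agent.H20.TD
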