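import Pool.Agent.H20.TH
import Pool.Agent.H20.TI
import Pool.Agent.H20.Comp

set_option autoImplicit false

namespace Pool.Agent.Results.MP_2d259b_nt.TangentDescent

open MvPolynomial

/-- The polynomial `f(x, y) = ∑ c x^i y^j` given by a finite list of triples `(i, j, c)`. -/
noncomputable def poly (L : List (ℕ × ℕ × ℤ)) : MvPolynomial (Fin 2) ℤ :=
  (L.map (fun t => C t.2.2 * X 0 ^ t.1 * X 1 ^ t.2.1)).sum

/-- `a` is a nonzero integer all of whose prime factors lie in `S`
(a unit of `ℤ[1/p : p ∈ S]`). -/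
def Smooth (S : Finset ℕ) (a : ℤ) : Prop := a ≠ 0 ∧ ∀ q : ℕ, q.Prime → (q : ℤ) ∣ a → q ∈ S

/-- The polynomial `f(δ u^m, y)` in the variables `u, y`. The curve `f(δ u^m, y) = 0` is the
covering of the curve `f = 0` obtained by adjoining an `m`-th root of `x / δ`. -/
noncomputable def cover (m : ℕ) (δ : ℤ) (f : MvPolynomial (Fin 2) ℤ) : MvPolynomial (Fin 2) ℤ :=
  aeval ![C δ * X 0 ^ m, X 1] f

/-- Shape at infinity: `f = b y^(m d) + a x^n + ∑ c_ij x^i y^j`, where `n` is coprime to `m d`,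
all other terms satisfy `i m d + j n < n m d`, and `a, b` are units outside `S`. Such a curve has
exactly one place at infinity, and this place is rational. -/
def OnePlaceAtInfinity (S : Finset ℕ) (m d n : ℕ) (f : MvPolynomial (Fin 2) ℤ) : Prop :=
  1 ≤ d ∧ 1 ≤ n ∧ Nat.Coprime n (m * d) ∧
    Smooth S (f.coeff (Finsupp.single 0 n)) ∧ Smooth S (f.coeff (Finsupp.single 1 (m * d))) ∧
    ∀ j ∈ f.support, j ≠ Finsupp.single 0 n → j ≠ Finsupp.single 1 (m * d) →
      j 0 * (m * d) + j 1 * n < n * (m * d)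

/-- Contact of order `m` with the line `x = 0`: `f = c g(y)^m - x^k h(x, y)` where `k` is coprime
to `m`, `c` is a unit outside `S`, and `g(y)`, `h(0, y)` generate the unit ideal outside `S`.
(For `k = 1`: the line `x = 0` meets the curve with all multiplicities divisible by `m`, and these
points are smooth, over `ℚ` and modulo every prime outside `S`.) -/
def ContactAtZero (S : Finset ℕ) (m : ℕ) (f : MvPolynomial (Fin 2) ℤ) : Prop :=
  ∃ (k : ℕ) (c s : ℤ) (g u v : Polynomial ℤ) (h : MvPolynomial (Fin 2) ℤ),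
    Nat.Coprime k m ∧ Smooth S c ∧ Smooth S s ∧
    f = C c * (Polynomial.aeval (X 1 : MvPolynomial (Fin 2) ℤ) g) ^ m - X 0 ^ k * h ∧
    u * g + v * (aeval ![0, Polynomial.X] h : Polynomial ℤ) = Polynomial.C s

/-- The class of curves: one rational place at infinity, contact of order `m ≥ 3` with the line
`x = 0`, and all coverings `f(δ u^m, y) = 0` with `δ` a unit outside `S` irreducible over `ℚ`. -/
def TangentCurve (S : Finset ℕ) (f : MvPolynomial (Fin 2) ℤ) : Prop :=
  ∃ m d n : ℕ, 3 ≤ m ∧ OnePlaceAtInfinity S m d n f ∧ ContactAtZero S m f ∧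
    ∀ δ : ℤ, Smooth S δ → Irreducible (map (Int.castRingHom ℚ) (cover m δ f))

lemma eval_poly (L : List (ℕ × ℕ × ℤ)) (x y : ℤ) :
    eval ![x, y] (poly L) = (L.map (fun t => t.2.2 * x ^ t.1 * y ^ t.2.1)).sum := by
  unfold poly
  rw [map_list_sum, List.map_map]
  congr 1
  refine List.map_congr_left (fun t _ => ?_)
  simp

lemma HF_monomial_le (i j : ℕ) (c : ℤ) :
    Pool.Agent.H20.HF (C c * X 0 ^ i * X 1 ^ j) ≤ c.natAbs := by
  classical
  have h : (C c * X 0 ^ i * X 1 ^ j : MvPolynomial (Fin 2) ℤ)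
      = monomial (Finsupp.single 0 i + Finsupp.single 1 j) c := by
    rw [X_pow_eq_monomial, X_pow_eq_monomial, C_mul_monomial, monomial_mul, mul_one, mul_one]
  rw [h, Pool.Agent.H20.TD.HF_eq' _ {Finsupp.single 0 i + Finsupp.single 1 j}
    support_monomial_subset, Finset.sum_singleton, coeff_monomial, if_pos rfl]
  have h1 : ((c.natAbs : ℕ) : ℝ) = |(c : ℝ)| := by
    rw [Nat.cast_natAbs]
    push_cast
    rfl
  rw [h1]

lemma HF_poly_le (L : List (ℕ × ℕ × ℤ)) :
    Pool.Agent.H20.HF (poly L) ≤ ((L.map (fun t => t.2.2.natAbs)).sum : ℕ) := by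
  induction L with
  | nil =>
    simp [poly, Pool.Agent.H20.HF]
  | cons t L ih =>
    have h : poly (t :: L) = C t.2.2 * X 0 ^ t.1 * X 1 ^ t.2.1 + poly L := by
      simp [poly]
    rw [h, List.map_cons, List.sum_cons]
    push_cast
    have h1 := HF_monomial_le t.1 t.2.1 t.2.2
    have h2 := Pool.Agent.H20.TD.HF_add_le' (C t.2.2 * X 0 ^ t.1 * X 1 ^ t.2.1) (poly L)
    push_cast at ih
    linarith

/-- The curves `y ^ 3 = 2 x ^ 4 + b x ^ 2 y + x` belong to the class for `S = {2}`. -/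
lemma example_mem (b : ℤ) :
    TangentCurve {2} (poly [(0, 3, 1), (4, 0, -2), (2, 1, -b), (1, 0, -1)]) := by
  classical
  have hpoly : poly [(0, 3, 1), (4, 0, -2), (2, 1, -b), (1, 0, -1)]
      = X 1 ^ 3 - 2 * X 0 ^ 4 - C b * X 0 ^ 2 * X 1 - X 0 := by
    have h2 : (2 : MvPolynomial (Fin 2) ℤ) = C 2 := rfl
    simp only [poly, List.map_cons, List.map_nil, List.sum_cons, List.sum_nil, h2, C_neg, C_1]
    ring
  have hmono : poly [(0, 3, 1), (4, 0, -2), (2, 1, -b), (1, 0, -1)]
      = monomial (Finsupp.single 1 3) 1 + (monomial (Finsupp.single 0 4) (-2) +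
        (monomial (Finsupp.single 0 2 + Finsupp.single 1 1) (-b) +
          monomial (Finsupp.single 0 1) (-1))) := by
    simp only [poly, List.map_cons, List.map_nil, List.sum_cons, List.sum_nil, X_pow_eq_monomial,
      C_mul_monomial, monomial_mul, mul_one, add_zero, Finsupp.single_zero, zero_add]
  have hcoeff : ∀ j : Fin 2 →₀ ℕ,
      (poly [(0, 3, 1), (4, 0, -2), (2, 1, -b), (1, 0, -1)]).coeff j
      = (if Finsupp.single 1 3 = j then 1 else 0) + ((if Finsupp.single 0 4 = j then -2 else 0) +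
        ((if Finsupp.single 0 2 + Finsupp.single 1 1 = j then -b else 0) +
          (if Finsupp.single 0 1 = j then -1 else 0))) := by
    intro j
    rw [hmono, coeff_add, coeff_add, coeff_add, coeff_monomial, coeff_monomial, coeff_monomial,
      coeff_monomial]
  have hne : ∀ i j : Fin 2 →₀ ℕ, i 0 ≠ j 0 → i ≠ j := fun i j h h1 => h (by rw [h1])
  refine ⟨3, 1, 4, le_refl _, ⟨le_refl _, by norm_num, by norm_num, ?_, ?_, ?_⟩, ?_, ?_⟩
  · rw [hcoeff, if_neg (hne _ _ (by simp)), if_pos rfl, if_neg (hne _ _ (by simp)),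
      if_neg (hne _ _ (by simp))]
    refine ⟨by norm_num, ?_⟩
    intro q hq hqd
    have h1 : q ∣ 2 := by
      have h2 : (q : ℤ) ∣ 2 := by
        have h3 := (dvd_neg.mpr hqd)
        norm_num at h3
        exact h3
      exact_mod_cast h2
    rw [Finset.mem_singleton]
    exact (Nat.prime_dvd_prime_iff_eq hq Nat.prime_two).mp h1
  · rw [hcoeff, if_pos (by norm_num), if_neg (hne _ _ (by simp)), if_neg (hne _ _ (by simp)),
      if_neg (hne _ _ (by simp))]
    refine ⟨by norm_num, ?_⟩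
    intro q hq hqd
    exfalso
    have h1 : (q : ℤ) ∣ 1 := by simpa using hqd
    have h2 : q ∣ 1 := by exact_mod_cast h1
    exact hq.one_lt.ne' (Nat.dvd_one.mp h2)
  · intro j hj h0 h1
    rw [mem_support_iff, hcoeff] at hj
    have h1' : j ≠ Finsupp.single 1 3 := by simpa using h1
    rw [if_neg (fun h => h1' h.symm), if_neg (fun h => h0 h.symm)] at hj
    by_cases h2 : Finsupp.single 0 2 + Finsupp.single 1 1 = j
    · rw [← h2]
      simp
    · rw [if_neg h2] at hj
      by_cases h3 : Finsupp.single 0 1 = j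
      · rw [← h3]
        simp
      · rw [if_neg h3] at hj
        simp at hj
  · refine ⟨1, 1, 1, Polynomial.X, 0, 1, 2 * X 0 ^ 3 + C b * X 0 * X 1 + 1, by norm_num, ?_, ?_,
      ?_, ?_⟩
    · refine ⟨by norm_num, ?_⟩
      intro q hq hqd
      exfalso
      have h2 : q ∣ 1 := by exact_mod_cast hqd
      exact hq.one_lt.ne' (Nat.dvd_one.mp h2)
    · refine ⟨by norm_num, ?_⟩
      intro q hq hqd
      exfalso
      have h2 : q ∣ 1 := by exact_mod_cast hqd
      exact hq.one_lt.ne' (Nat.dvd_one.mp h2)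
    · rw [hpoly, Polynomial.aeval_X, C_1]
      ring
    · simp
  · intro δ hδ
    rw [hpoly]
    exact Pool.Agent.H20.TD.irr_example δ b hδ.1

/-- For every `D` there is an exponent `k`, and for every finite set `S` of primes there is a
constant `C`, such that the computable function `B = C * (∑ |coefficients|)^k` bounds the integral
points of all curves of degree at most `D` in the class `TangentCurve S`. For every integer `b` the
curve `y ^ 3 = 2 x ^ 4 + b x ^ 2 y + x` belongs to this class with `S = {2}`. -/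
theorem result (D : ℕ) :
    (∃ k : ℕ, ∀ S : Finset ℕ, ∃ (C : ℕ) (B : List (ℕ × ℕ × ℤ) → ℕ), Computable B ∧
      (∀ L, B L = C * (L.map (fun t => t.2.2.natAbs)).sum ^ k) ∧
      ∀ L : List (ℕ × ℕ × ℤ), (poly L).totalDegree ≤ D → TangentCurve S (poly L) →
        ∀ x y : ℤ, (L.map (fun t => t.2.2 * x ^ t.1 * y ^ t.2.1)).sum = 0 →
          x.natAbs ≤ B L ∧ y.natAbs ≤ B L) ∧
    ∀ b : ℤ, TangentCurve {2} (poly [(0, 3, 1), (4, 0, -2), (2, 1, -b), (1, 0, -1)]) := by
  refine ⟨?_, example_mem⟩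
  obtain ⟨k, hk⟩ := Pool.Agent.H20.TD.main D
  refine ⟨k, fun S => ?_⟩
  obtain ⟨A, hA1, hA⟩ := hk S
  refine ⟨⌈A⌉₊, _, Pool.Agent.H20.computable_bound ⌈A⌉₊ k, fun L => rfl, ?_⟩
  intro L hLD hcl x y hxy
  obtain ⟨m, d, n, hm, ⟨hd, hn, hcop, ha, hb, hlow⟩, ⟨k', c, s, g, u, v, h, hk', hc, hs, hrel,
    hbez⟩, hirr⟩ := hcl
  have hT : Pool.Agent.H20.TD.Tang S (poly L) m d n k' g u v h c s :=
    ⟨⟨hm, hd, hn, hcop, ha.1, hb.1, hlow⟩, hk', hc, hs, ha, hb, hrel, hbez, hirr⟩
  have h1 := hA (poly L) m d n k' g u v h c s hT hLD x y (by rw [eval_poly]; exact hxy)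
  have h0 : 0 ≤ Pool.Agent.H20.HF (poly L) := Finset.sum_nonneg (fun _ _ => abs_nonneg _)
  have h2 : A * Pool.Agent.H20.HF (poly L) ^ k
      ≤ ((⌈A⌉₊ * (L.map (fun t => t.2.2.natAbs)).sum ^ k : ℕ) : ℝ) := by
    push_cast
    refine mul_le_mul (Nat.le_ceil A) ?_ (pow_nonneg h0 _) (by positivity)
    have h3 := HF_poly_le L
    push_cast at h3
    exact pow_le_pow_left₀ h0 h3 _
  have hcast : ∀ z : ℤ, ((z.natAbs : ℕ) : ℝ) = |(z : ℝ)| := by
    intro z
    rw [Nat.cast_natAbs]
    push_cast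
    rfl
  constructor
  · have h4 := (h1.1).trans h2
    rw [← hcast] at h4
    exact_mod_cast h4
  · have h4 := (h1.2).trans h2
    rw [← hcast] at h4
    exact_mod_cast h4

end Pool.Agent.Results.MP_2d259b_nt.TangentDescent
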