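import Pool.Agent.H20.L1

set_option autoImplicit false

namespace Pool.Agent.H20

open Polynomial Finset

section

variable {R : Type*} [CommRing R]

/-- the cofactor `B(ζ)` -/
noncomputable def tB (Φ : R[X][X]) : R[X] := (Φ.coeff 0).divX

/-- constant coefficient -/
noncomputable def c0 : R[X][X] →ₗ[R] R where
  toFun u := (u.coeff 0).coeff 0
  map_add' u v := by simp
  map_smul' r u := by simp

/-- the division operator along the curve `Φ = 0` at `(0,0)` -/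
noncomputable def tau (Φ : R[X][X]) : R[X][X] →ₗ[R] R[X][X] where
  toFun u := C (tB Φ) * u.divX - Φ.divX * C ((u.coeff 0).divX)
  map_add' u v := by
    simp only [divX_add, coeff_add, C_add]
    ring
  map_smul' r u := by
    have h1 : ∀ w : R[X][X], r • w = C (C r) * w := by
      intro w
      ext1 i
      rw [coeff_C_mul, coeff_smul, smul_eq_C_mul]
    have h2 : ∀ w : R[X], r • w = C r * w := fun w => smul_eq_C_mul r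
    simp only [RingHom.id_apply]
    rw [h1 u, divX_C_mul, coeff_C_mul, divX_C_mul, h1, C_mul]
    ring

lemma tau_apply (Φ u : R[X][X]) :
    tau Φ u = C (tB Φ) * u.divX - Φ.divX * C ((u.coeff 0).divX) := rfl

lemma c0_apply (u : R[X][X]) : c0 u = (u.coeff 0).coeff 0 := rfl

lemma tau_identity (Φ u : R[X][X]) (hΦ : c0 Φ = 0) :
    C (tB Φ) * (u - C (C (c0 u))) = X * tau Φ u + Φ * C ((u.coeff 0).divX) := by
  have h1 : u = X * u.divX + C (X * (u.coeff 0).divX + C (c0 u)) := by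
    conv_lhs => rw [← X_mul_divX_add u]
    conv_lhs => rw [← X_mul_divX_add (u.coeff 0)]
    rfl
  have h2 : Φ = X * Φ.divX + C (X * tB Φ) := by
    conv_lhs => rw [← X_mul_divX_add Φ]
    conv_lhs => rw [← X_mul_divX_add (Φ.coeff 0)]
    have : (Φ.coeff 0).coeff 0 = 0 := hΦ
    rw [this, C_0, add_zero]
    rfl
  rw [tau_apply]
  calc C (tB Φ) * (u - C (C (c0 u)))
      = C (tB Φ) * ((X * u.divX + C (X * (u.coeff 0).divX + C (c0 u))) - C (C (c0 u))) := by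
        rw [← h1]
    _ = X * (C (tB Φ) * u.divX - Φ.divX * C ((u.coeff 0).divX))
        + (X * Φ.divX + C (X * tB Φ)) * C ((u.coeff 0).divX) := by
        simp only [C_add, C_mul]
        ring
    _ = _ := by rw [← h2]

variable (ν : Nrm R)

lemma c0_le (u : R[X][X]) : ν.v (c0 u) ≤ ν.poly.l1 u :=
  (ν.coeff_le _ _).trans (ν.poly.coeff_le _ _)

lemma tau_le (Φ u : R[X][X]) : ν.poly.l1 (tau Φ u) ≤ ν.poly.l1 Φ * ν.poly.l1 u := by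
  rw [tau_apply]
  refine (ν.poly.poly.sub_le _ _).trans ?_
  have h1 := ν.poly.l1_mul_le (C (tB Φ)) u.divX
  have h2 := ν.poly.l1_mul_le Φ.divX (C ((u.coeff 0).divX))
  rw [ν.poly.l1_C] at h1 h2
  have h3 := ν.poly.l1_coeff_zero_add_divX Φ
  have h4 : ν.poly.v (tB Φ) ≤ ν.poly.v (Φ.coeff 0) := ν.l1_divX_le _
  have h5 : ν.poly.v ((u.coeff 0).divX) ≤ ν.poly.l1 u :=
    (ν.l1_divX_le _).trans (ν.poly.coeff_le _ _)
  have h6 := ν.poly.l1_divX_le u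
  have n1 := ν.poly.nonneg (tB Φ)
  have n2 := ν.poly.l1_nonneg u
  have n3 := ν.poly.l1_nonneg Φ.divX
  have n4 := ν.poly.l1_nonneg u.divX
  have e1 : ν.poly.v (tB Φ) * ν.poly.l1 u.divX ≤ ν.poly.v (Φ.coeff 0) * ν.poly.l1 u :=
    mul_le_mul h4 h6 n4 (n1.trans h4)
  have e2 : ν.poly.l1 Φ.divX * ν.poly.v ((u.coeff 0).divX) ≤ ν.poly.l1 Φ.divX * ν.poly.l1 u :=
    mul_le_mul_of_nonneg_left h5 n3
  change ν.poly.l1 (C (tB Φ) * u.divX) + ν.poly.l1 (Φ.divX * C ((u.coeff 0).divX)) ≤ _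
  nlinarith

lemma tau_pow_le (Φ u : R[X][X]) (a : ℕ) :
    ν.poly.l1 ((tau Φ ^ a) u) ≤ ν.poly.l1 Φ ^ a * ν.poly.l1 u := by
  induction a with
  | zero => simp
  | succ a ih =>
    rw [pow_succ', Module.End.mul_apply, pow_succ', mul_assoc]
    exact (tau_le ν Φ _).trans (mul_le_mul_of_nonneg_left ih (ν.poly.l1_nonneg _))

/-- evaluation at a complex point -/
noncomputable def ev (φ : R →+* ℂ) (t ζ : ℂ) : R[X][X] →+* ℂ :=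
  eval₂RingHom (eval₂RingHom φ ζ) t

lemma ev_le (φ : R →+* ℂ) (hφ : ∀ a, ‖φ a‖ ≤ ν.v a) (t ζ : ℂ) (ht : ‖t‖ ≤ 1) (hζ : ‖ζ‖ ≤ 1)
    (u : R[X][X]) : ‖ev φ t ζ u‖ ≤ ν.poly.l1 u := by
  refine ν.poly.eval₂_le nrmC (eval₂RingHom φ ζ) (fun a => ?_) t ht u
  exact ν.eval₂_le nrmC φ hφ ζ hζ a

lemma ev_smul (φ : R →+* ℂ) (t ζ : ℂ) (r : R) (u : R[X][X]) :
    ev φ t ζ (r • u) = φ r * ev φ t ζ u := by
  have h1 : r • u = C (C r) * u := by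
    ext1 i
    rw [coeff_C_mul, coeff_smul, smul_eq_C_mul]
  rw [h1, map_mul]
  simp [ev]

lemma ev_step (φ : R →+* ℂ) (t ζ : ℂ) (Φ u : R[X][X]) (hΦ : c0 Φ = 0)
    (hz : ev φ t ζ Φ = 0) (hB : eval₂ φ ζ (tB Φ) ≠ 0) :
    ev φ t ζ u = φ (c0 u) + (t / eval₂ φ ζ (tB Φ)) * ev φ t ζ (tau Φ u) := by
  have h := congrArg (ev φ t ζ) (tau_identity Φ u hΦ)
  rw [map_mul, map_sub, map_add, map_mul, map_mul, hz, zero_mul, add_zero] at h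
  have e1 : ev φ t ζ (C (tB Φ)) = eval₂ φ ζ (tB Φ) := by simp [ev]
  have e2 : ev φ t ζ (C (C (c0 u))) = φ (c0 u) := by simp [ev]
  have e3 : ev φ t ζ X = t := by simp [ev]
  rw [e1, e2, e3] at h
  field_simp
  linear_combination h

lemma ev_expand (φ : R →+* ℂ) (t ζ : ℂ) (Φ u : R[X][X]) (hΦ : c0 Φ = 0)
    (hz : ev φ t ζ Φ = 0) (hB : eval₂ φ ζ (tB Φ) ≠ 0) (T : ℕ) :
    ev φ t ζ u = ∑ a ∈ range T, φ (c0 ((tau Φ ^ a) u)) * (t / eval₂ φ ζ (tB Φ)) ^ a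
      + (t / eval₂ φ ζ (tB Φ)) ^ T * ev φ t ζ ((tau Φ ^ T) u) := by
  induction T with
  | zero => simp
  | succ T ih =>
    rw [Finset.sum_range_succ, ih, ev_step φ t ζ Φ ((tau Φ ^ T) u) hΦ hz hB, pow_succ' (tau Φ),
      Module.End.mul_apply]
    ring

end

/-- The main upper bound for an auxiliary function on a product of two curves. -/
theorem two_curve_bound {R : Type*} [CommRing R] (ν : Nrm R) (φ : R →+* ℂ)
    (hφ : ∀ a, ‖φ a‖ ≤ ν.v a) {ι₁ ι₂ : Type*} [Fintype ι₁] [Fintype ι₂]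
    (Φ₁ Φ₂ : R[X][X]) (hΦ₁ : c0 Φ₁ = 0) (hΦ₂ : c0 Φ₂ = 0)
    (m₁ : ι₁ → R[X][X]) (m₂ : ι₂ → R[X][X]) (g : ι₁ → ι₂ → ℤ) (n T : ℕ) (hn : 1 ≤ n)
    (hg : ∀ a b : ℕ, a + n * b < T →
      ∑ i, ∑ j, (g i j : R) * (c0 ((tau Φ₁ ^ a) (m₁ i)) * c0 ((tau Φ₂ ^ b) (m₂ j))) = 0)
    (t₁ ζ₁ t₂ ζ₂ : ℂ) (ht₁ : ‖t₁‖ ≤ 1) (hζ₁ : ‖ζ₁‖ ≤ 1) (ht₂ : ‖t₂‖ ≤ 1) (hζ₂ : ‖ζ₂‖ ≤ 1)
    (hz₁ : ev φ t₁ ζ₁ Φ₁ = 0) (hz₂ : ev φ t₂ ζ₂ Φ₂ = 0)
    (hB₁ : eval₂ φ ζ₁ (tB Φ₁) ≠ 0) (hB₂ : eval₂ φ ζ₂ (tB Φ₂) ≠ 0)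
    (δ : ℝ) (hδ0 : 0 ≤ δ) (hδ1 : δ ≤ 1)
    (hδ₁ : ‖t₁ / eval₂ φ ζ₁ (tB Φ₁)‖ * ν.poly.l1 Φ₁ ≤ δ)
    (hδ₂ : ‖t₂ / eval₂ φ ζ₂ (tB Φ₂)‖ * ν.poly.l1 Φ₂ ≤ δ ^ n)
    (Q : ℝ) (hQ : ∑ i, ∑ j, |(g i j : ℝ)| * (ν.poly.l1 (m₁ i) * ν.poly.l1 (m₂ j)) ≤ Q) :
    ‖∑ i, ∑ j, (g i j : ℂ) * (ev φ t₁ ζ₁ (m₁ i) * ev φ t₂ ζ₂ (m₂ j))‖ ≤ (T + 1) * Q * δ ^ T := by
  set s₁ := t₁ / eval₂ φ ζ₁ (tB Φ₁) with hs₁
  set s₂ := t₂ / eval₂ φ ζ₂ (tB Φ₂) with hs₂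
  set H₁ := ν.poly.l1 Φ₁ with hH₁
  set H₂ := ν.poly.l1 Φ₂ with hH₂
  have hH₁0 : 0 ≤ H₁ := ν.poly.l1_nonneg _
  have hH₂0 : 0 ≤ H₂ := ν.poly.l1_nonneg _
  have hQ0 : 0 ≤ Q := by
    refine le_trans (Finset.sum_nonneg (fun i _ => Finset.sum_nonneg (fun j _ => ?_))) hQ
    exact mul_nonneg (abs_nonneg _) (mul_nonneg (ν.poly.l1_nonneg _) (ν.poly.l1_nonneg _))
  -- the functions `V a`
  let V : ℕ → R[X][X] := fun a => ∑ i, ∑ j, ((g i j : R) * c0 ((tau Φ₁ ^ a) (m₁ i))) • m₂ j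
  have hgν : ∀ z : ℤ, ν.v (z : R) ≤ |(z : ℝ)| := by
    intro z
    rcases Int.natAbs_eq z with h | h
    · rw [h]
      simpa using ν.natCast_le z.natAbs
    · rw [h]
      push_cast
      rw [ν.neg, abs_neg]
      simpa using ν.natCast_le z.natAbs
  have hsmul_le : ∀ (r : R) (u : R[X][X]), ν.poly.l1 (r • u) ≤ ν.v r * ν.poly.l1 u := by
    intro r u
    have h1 : r • u = C (C r) * u := by
      ext1 i
      rw [coeff_C_mul, coeff_smul, smul_eq_C_mul]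
    rw [h1]
    refine (ν.poly.l1_mul_le _ _).trans ?_
    rw [ν.poly.l1_C]
    change ν.l1 (C r) * _ ≤ _
    rw [ν.l1_C]
  have hVl1 : ∀ a, ν.poly.l1 (V a) ≤ H₁ ^ a * Q := by
    intro a
    have h0 : ν.poly.l1 (V a) ≤ ∑ i, ∑ j, |(g i j : ℝ)| * (H₁ ^ a * ν.poly.l1 (m₁ i)
        * ν.poly.l1 (m₂ j)) := by
      refine (ν.poly.l1_sum_le' _ _).trans (Finset.sum_le_sum (fun i _ => ?_))
      refine (ν.poly.l1_sum_le' _ _).trans (Finset.sum_le_sum (fun j _ => ?_))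
      refine (hsmul_le _ _).trans ?_
      have h1 : ν.v ((g i j : R) * c0 ((tau Φ₁ ^ a) (m₁ i)))
          ≤ |(g i j : ℝ)| * (H₁ ^ a * ν.poly.l1 (m₁ i)) := by
        refine (ν.mul_le _ _).trans ?_
        refine mul_le_mul (hgν _) ?_ (ν.nonneg _) (abs_nonneg _)
        exact (c0_le ν _).trans (tau_pow_le ν Φ₁ _ a)
      calc ν.v ((g i j : R) * c0 ((tau Φ₁ ^ a) (m₁ i))) * ν.poly.l1 (m₂ j)
          ≤ (|(g i j : ℝ)| * (H₁ ^ a * ν.poly.l1 (m₁ i))) * ν.poly.l1 (m₂ j) :=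
            mul_le_mul_of_nonneg_right h1 (ν.poly.l1_nonneg _)
        _ = _ := by ring
    refine h0.trans ?_
    calc ∑ i, ∑ j, |(g i j : ℝ)| * (H₁ ^ a * ν.poly.l1 (m₁ i) * ν.poly.l1 (m₂ j))
        = H₁ ^ a * ∑ i, ∑ j, |(g i j : ℝ)| * (ν.poly.l1 (m₁ i) * ν.poly.l1 (m₂ j)) := by
          rw [Finset.mul_sum]
          refine Finset.sum_congr rfl (fun i _ => ?_)
          rw [Finset.mul_sum]
          exact Finset.sum_congr rfl (fun j _ => by ring)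
      _ ≤ H₁ ^ a * Q := mul_le_mul_of_nonneg_left hQ (pow_nonneg hH₁0 _)
  -- values of `V a` at the second point
  have hVev : ∀ a, a < T → ‖ev φ t₂ ζ₂ (V a)‖ ≤ δ ^ (T - a) * (H₁ ^ a * Q) := by
    intro a ha
    set Ta := (T - a + (n - 1)) / n with hTa
    have hTa1 : ∀ b, b < Ta → a + n * b < T := by
      intro b hb
      have h1 : b + 1 ≤ Ta := hb
      have h2 : n * (b + 1) ≤ T - a + (n - 1) := by
        calc n * (b + 1) ≤ n * Ta := Nat.mul_le_mul_left _ h1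
          _ ≤ T - a + (n - 1) := Nat.mul_div_le _ _
      have h3 : n * (b + 1) = n * b + n := by ring
      omega
    have hTa2 : T - a ≤ n * Ta := by
      have h1 := Nat.div_add_mod (T - a + (n - 1)) n
      have h2 := Nat.mod_lt (T - a + (n - 1)) (by omega : n > 0)
      rw [← hTa] at h1
      omega
    rw [ev_expand φ t₂ ζ₂ Φ₂ (V a) hΦ₂ hz₂ hB₂ Ta]
    have hzero : ∑ b ∈ range Ta, φ (c0 ((tau Φ₂ ^ b) (V a))) * (t₂ / eval₂ φ ζ₂ (tB Φ₂)) ^ b = 0 := by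
      refine Finset.sum_eq_zero (fun b hb => ?_)
      have h1 : c0 ((tau Φ₂ ^ b) (V a)) = 0 := by
        rw [← hg a b (hTa1 b (Finset.mem_range.mp hb))]
        simp only [V, map_sum, map_smul, smul_eq_mul]
        refine Finset.sum_congr rfl (fun i _ => Finset.sum_congr rfl (fun j _ => ?_))
        ring
      rw [h1, map_zero, zero_mul]
    rw [hzero, zero_add, norm_mul, norm_pow]
    have h2 : ‖ev φ t₂ ζ₂ ((tau Φ₂ ^ Ta) (V a))‖ ≤ H₂ ^ Ta * (H₁ ^ a * Q) := by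
      refine (ev_le ν φ hφ t₂ ζ₂ ht₂ hζ₂ _).trans ((tau_pow_le ν Φ₂ _ Ta).trans ?_)
      exact mul_le_mul_of_nonneg_left (hVl1 a) (pow_nonneg hH₂0 _)
    calc ‖s₂‖ ^ Ta * ‖ev φ t₂ ζ₂ ((tau Φ₂ ^ Ta) (V a))‖
        ≤ ‖s₂‖ ^ Ta * (H₂ ^ Ta * (H₁ ^ a * Q)) :=
          mul_le_mul_of_nonneg_left h2 (pow_nonneg (norm_nonneg _) _)
      _ = (‖s₂‖ * H₂) ^ Ta * (H₁ ^ a * Q) := by rw [mul_pow]; ring
      _ ≤ (δ ^ n) ^ Ta * (H₁ ^ a * Q) := by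
          refine mul_le_mul_of_nonneg_right ?_ (mul_nonneg (pow_nonneg hH₁0 _) hQ0)
          exact pow_le_pow_left₀ (mul_nonneg (norm_nonneg _) hH₂0) hδ₂ _
      _ ≤ δ ^ (T - a) * (H₁ ^ a * Q) := by
          refine mul_le_mul_of_nonneg_right ?_ (mul_nonneg (pow_nonneg hH₁0 _) hQ0)
          rw [← pow_mul]
          exact pow_le_pow_of_le_one hδ0 hδ1 hTa2
  -- expansion
  have hexp : ∑ i, ∑ j, (g i j : ℂ) * (ev φ t₁ ζ₁ (m₁ i) * ev φ t₂ ζ₂ (m₂ j))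
      = ∑ a ∈ range T, s₁ ^ a * ev φ t₂ ζ₂ (V a)
        + s₁ ^ T * ∑ i, ∑ j, (g i j : ℂ) * (ev φ t₁ ζ₁ ((tau Φ₁ ^ T) (m₁ i))
          * ev φ t₂ ζ₂ (m₂ j)) := by
    have h1 : ∀ i j, (g i j : ℂ) * (ev φ t₁ ζ₁ (m₁ i) * ev φ t₂ ζ₂ (m₂ j))
        = ∑ a ∈ range T, s₁ ^ a * (φ ((g i j : R) * c0 ((tau Φ₁ ^ a) (m₁ i)))
            * ev φ t₂ ζ₂ (m₂ j))
          + s₁ ^ T * ((g i j : ℂ) * (ev φ t₁ ζ₁ ((tau Φ₁ ^ T) (m₁ i)) * ev φ t₂ ζ₂ (m₂ j))) := by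
      intro i j
      rw [ev_expand φ t₁ ζ₁ Φ₁ (m₁ i) hΦ₁ hz₁ hB₁ T, add_mul, mul_add, Finset.sum_mul,
        Finset.mul_sum]
      congr 1
      · refine Finset.sum_congr rfl (fun a _ => ?_)
        rw [map_mul, map_intCast]
        ring
      · ring
    simp only [h1, Finset.sum_add_distrib]
    congr 1
    · have h2 : ∀ i, ∑ j, ∑ a ∈ range T, s₁ ^ a * (φ ((g i j : R) * c0 ((tau Φ₁ ^ a) (m₁ i)))
            * ev φ t₂ ζ₂ (m₂ j))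
          = ∑ a ∈ range T, ∑ j, s₁ ^ a * (φ ((g i j : R) * c0 ((tau Φ₁ ^ a) (m₁ i)))
            * ev φ t₂ ζ₂ (m₂ j)) := fun i => Finset.sum_comm
      simp only [h2]
      rw [Finset.sum_comm]
      refine Finset.sum_congr rfl (fun a _ => ?_)
      simp only [V, map_sum, ev_smul, Finset.mul_sum]
    · simp only [Finset.mul_sum]
  rw [hexp]
  refine (norm_add_le _ _).trans ?_
  have hs₁0 : 0 ≤ ‖s₁‖ := norm_nonneg _
  have hpart1 : ‖∑ a ∈ range T, s₁ ^ a * ev φ t₂ ζ₂ (V a)‖ ≤ T * (Q * δ ^ T) := by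
    refine (norm_sum_le _ _).trans ?_
    calc ∑ a ∈ range T, ‖s₁ ^ a * ev φ t₂ ζ₂ (V a)‖ ≤ ∑ _a ∈ range T, Q * δ ^ T := by
          refine Finset.sum_le_sum (fun a ha => ?_)
          have ha' := Finset.mem_range.mp ha
          rw [norm_mul, norm_pow]
          calc ‖s₁‖ ^ a * ‖ev φ t₂ ζ₂ (V a)‖ ≤ ‖s₁‖ ^ a * (δ ^ (T - a) * (H₁ ^ a * Q)) :=
                mul_le_mul_of_nonneg_left (hVev a ha') (pow_nonneg hs₁0 _)
            _ = (‖s₁‖ * H₁) ^ a * (δ ^ (T - a) * Q) := by rw [mul_pow]; ring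
            _ ≤ δ ^ a * (δ ^ (T - a) * Q) := by
                refine mul_le_mul_of_nonneg_right ?_ (mul_nonneg (pow_nonneg hδ0 _) hQ0)
                exact pow_le_pow_left₀ (mul_nonneg hs₁0 hH₁0) hδ₁ _
            _ = Q * δ ^ T := by
                rw [← mul_assoc, ← pow_add, Nat.add_sub_cancel' ha'.le]; ring
      _ = T * (Q * δ ^ T) := by simp
  have hpart2 : ‖s₁ ^ T * ∑ i, ∑ j, (g i j : ℂ) * (ev φ t₁ ζ₁ ((tau Φ₁ ^ T) (m₁ i))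
          * ev φ t₂ ζ₂ (m₂ j))‖ ≤ Q * δ ^ T := by
    rw [norm_mul, norm_pow]
    have h1 : ‖∑ i, ∑ j, (g i j : ℂ) * (ev φ t₁ ζ₁ ((tau Φ₁ ^ T) (m₁ i))
          * ev φ t₂ ζ₂ (m₂ j))‖ ≤ H₁ ^ T * Q := by
      have h0 : ‖∑ i, ∑ j, (g i j : ℂ) * (ev φ t₁ ζ₁ ((tau Φ₁ ^ T) (m₁ i))
          * ev φ t₂ ζ₂ (m₂ j))‖ ≤ ∑ i, ∑ j, |(g i j : ℝ)| * (H₁ ^ T * ν.poly.l1 (m₁ i)
            * ν.poly.l1 (m₂ j)) := by
        refine (norm_sum_le _ _).trans (Finset.sum_le_sum (fun i _ => ?_))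
        refine (norm_sum_le _ _).trans (Finset.sum_le_sum (fun j _ => ?_))
        rw [norm_mul, norm_mul, Complex.norm_intCast]
        refine mul_le_mul_of_nonneg_left ?_ (abs_nonneg _)
        refine mul_le_mul ?_ (ev_le ν φ hφ t₂ ζ₂ ht₂ hζ₂ _) (norm_nonneg _)
          (mul_nonneg (pow_nonneg hH₁0 _) (ν.poly.l1_nonneg _))
        exact (ev_le ν φ hφ t₁ ζ₁ ht₁ hζ₁ _).trans (tau_pow_le ν Φ₁ _ T)
      refine h0.trans ?_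
      calc ∑ i, ∑ j, |(g i j : ℝ)| * (H₁ ^ T * ν.poly.l1 (m₁ i) * ν.poly.l1 (m₂ j))
          = H₁ ^ T * ∑ i, ∑ j, |(g i j : ℝ)| * (ν.poly.l1 (m₁ i) * ν.poly.l1 (m₂ j)) := by
            rw [Finset.mul_sum]
            refine Finset.sum_congr rfl (fun i _ => ?_)
            rw [Finset.mul_sum]
            exact Finset.sum_congr rfl (fun j _ => by ring)
        _ ≤ H₁ ^ T * Q := mul_le_mul_of_nonneg_left hQ (pow_nonneg hH₁0 _)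
    calc ‖s₁‖ ^ T * ‖∑ i, ∑ j, (g i j : ℂ) * (ev φ t₁ ζ₁ ((tau Φ₁ ^ T) (m₁ i))
          * ev φ t₂ ζ₂ (m₂ j))‖ ≤ ‖s₁‖ ^ T * (H₁ ^ T * Q) :=
          mul_le_mul_of_nonneg_left h1 (pow_nonneg hs₁0 _)
      _ = (‖s₁‖ * H₁) ^ T * Q := by rw [mul_pow]; ring
      _ ≤ δ ^ T * Q := by
          refine mul_le_mul_of_nonneg_right ?_ hQ0
          exact pow_le_pow_left₀ (mul_nonneg hs₁0 hH₁0) hδ₁ _
      _ = Q * δ ^ T := by ring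
  calc _ ≤ T * (Q * δ ^ T) + Q * δ ^ T := add_le_add hpart1 hpart2
    _ = (T + 1) * Q * δ ^ T := by ring

end Pool.Agent.H20
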