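import Pool.Agent.H20.G8

set_option autoImplicit false

namespace Pool.Agent.H20.G

open Polynomial Finset NumberField Module Metric
open scoped Pointwise

/-- The Thue-Siegel principle: two large points near places at infinity whose fields of definition
contain a common field of degree at least three have comparable logarithms. -/
theorem MC.window (F : IntermediateField ℚ ℂ) (hF : 3 ≤ finrank ℚ F) (d m : ℕ) (hd : 3 ≤ d)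
    (hm : 1 ≤ m) (κ₁ : ℕ) (hκ₁ : kap d m ≤ κ₁) (P₁ P₂ : MC F d m κ₁) :
    P₂.y ≤ P₁.y ^ (68 * d ^ 2) := by
  by_contra hP₂
  push Not at hP₂
  have := P₁.nf
  have := P₂.nf
  have hy2 := P₁.y_two
  have hy1 : 1 < P₁.y := by linarith
  have hy0 : 0 < P₁.y := by linarith
  have hP₂2 := P₂.y_two
  have hP₂1 : 1 ≤ P₂.y := by linarith
  obtain ⟨n, hn1, hn2⟩ := exists_nat_pow_near hP₂1 hy1
  have hn : 68 * d ^ 2 ≤ n := by
    by_contra hlt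
    push Not at hlt
    have h1 : P₁.y ^ (n + 1) ≤ P₁.y ^ (68 * d ^ 2) := pow_le_pow_right₀ hy1.le hlt
    linarith
  have hn0 : 1 ≤ n := by
    have : 0 < 68 * d ^ 2 := by positivity
    omega
  have hlev : P₁.y ^ (n + 1) ≤ P₂.y ^ 2 := by
    calc P₁.y ^ (n + 1) ≤ P₁.y ^ (n * 2) := pow_le_pow_right₀ hy1.le (by omega)
      _ = (P₁.y ^ n) ^ 2 := pow_mul _ _ _
      _ ≤ P₂.y ^ 2 := pow_le_pow_left₀ (by positivity) hn1 2
  -- the compositum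
  have hfd₁ : FiniteDimensional ℚ P₁.E := P₁.nf.to_finiteDimensional
  have hfd₂ : FiniteDimensional ℚ P₂.E := P₂.nf.to_finiteDimensional
  have hfd : FiniteDimensional ℚ ↥(P₁.E ⊔ P₂.E) := IntermediateField.finiteDimensional_sup _ _
  have hnf : NumberField ↥(P₁.E ⊔ P₂.E) := { to_finiteDimensional := hfd }
  have hfr := finrank_sup_mul_le F P₁.E P₂.E P₁.hF P₂.hF
  have he : 3 * (finrank ℚ ↥(P₁.E ⊔ P₂.E) * m ^ 2) ≤ d ^ 2 := by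
    calc 3 * (finrank ℚ ↥(P₁.E ⊔ P₂.E) * m ^ 2)
        ≤ finrank ℚ F * (finrank ℚ ↥(P₁.E ⊔ P₂.E) * m ^ 2) := Nat.mul_le_mul_right _ hF
      _ = (finrank ℚ ↥(P₁.E ⊔ P₂.E) * finrank ℚ F) * m ^ 2 := by ring
      _ ≤ (finrank ℚ P₁.E * finrank ℚ P₂.E) * m ^ 2 := Nat.mul_le_mul_right _ hfr
      _ = (finrank ℚ P₁.E * m) * (finrank ℚ P₂.E * m) := by ring
      _ ≤ d * d := Nat.mul_le_mul P₁.hdeg P₂.hdeg
      _ = d ^ 2 := by ring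
  have hfrd : finrank ℚ ↥(P₁.E ⊔ P₂.E) ≤ d ^ 2 := by
    have : finrank ℚ ↥(P₁.E ⊔ P₂.E) ≤ finrank ℚ ↥(P₁.E ⊔ P₂.E) * m ^ 2 :=
      Nat.le_mul_of_pos_right _ (by positivity)
    omega
  set i₁ : P₁.E ≤ P₁.E ⊔ P₂.E := le_sup_left
  set i₂ : P₂.E ≤ P₁.E ⊔ P₂.E := le_sup_right
  -- coordinates
  let T : Set (𝓞 ↥(P₁.E ⊔ P₂.E)) := {x | ∃ s ∈ P₁.S, ∃ t ∈ P₂.S, x = incl i₁ s * incl i₂ t}
  have hspan : Submodule.span ℚ ((algebraMap (𝓞 ↥(P₁.E ⊔ P₂.E)) ↥(P₁.E ⊔ P₂.E)) '' T) = ⊤ := by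
    refine span_sup P₁.E P₂.E _ _ P₁.span P₂.span _ ?_
    rintro _ ⟨s, hs, rfl⟩ _ ⟨t, ht, rfl⟩
    refine ⟨_, ⟨incl i₁ s * incl i₂ t, ⟨s, hs, t, ht, rfl⟩, rfl⟩, ?_⟩
    rfl
  have hTle : ∀ x ∈ T, (nrmHouse ↥(P₁.E ⊔ P₂.E)).v x ≤ P₁.y ^ (n + 2) := by
    rintro _ ⟨s, hs, t, ht, rfl⟩
    refine ((nrmHouse _).mul_le _ _).trans ?_
    calc (nrmHouse ↥(P₁.E ⊔ P₂.E)).v (incl i₁ s) * (nrmHouse ↥(P₁.E ⊔ P₂.E)).v (incl i₂ t)
        ≤ P₁.y * P₁.y ^ (n + 1) := by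
          refine mul_le_mul ((nrm_incl_le i₁ s).trans (P₁.S_le s hs)) ?_ ((nrmHouse _).nonneg _)
            hy0.le
          exact ((nrm_incl_le i₂ t).trans (P₂.S_le t ht)).trans hn2.le
      _ = P₁.y ^ (n + 2) := by rw [← pow_succ']
  obtain ⟨co, hinj, hco⟩ := exists_co ↥(P₁.E ⊔ P₂.E) T hspan (P₁.y ^ (n + 2)) hTle
  have hfrpos : (1 : ℝ) ≤ (finrank ℚ ↥(P₁.E ⊔ P₂.E) : ℝ) := by
    exact_mod_cast (finrank_pos : 0 < finrank ℚ ↥(P₁.E ⊔ P₂.E))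
  have hcK1 : (1 : ℝ) ≤ finrank ℚ ↥(P₁.E ⊔ P₂.E) * P₁.y ^ (n + 2) :=
    one_le_mul_of_one_le_of_one_le hfrpos (one_le_pow₀ hy1.le)
  have hcKle : (finrank ℚ ↥(P₁.E ⊔ P₂.E) : ℝ) * P₁.y ^ (n + 2) ≤ P₁.y ^ (d ^ 6 * n) := by
    calc (finrank ℚ ↥(P₁.E ⊔ P₂.E) : ℝ) * P₁.y ^ (n + 2)
        ≤ P₁.y ^ (d ^ 2) * P₁.y ^ (n + 2) :=
          mul_le_mul_of_nonneg_right (natCast_le_pow' _ _ _ hy2 hfrd) (by positivity)
      _ = P₁.y ^ (d ^ 2 + (n + 2)) := by rw [← pow_add]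
      _ ≤ P₁.y ^ (d ^ 6 * n) := by
          apply pow_le_pow_right₀ hy1.le
          have h1 : 81 * d ^ 2 ≤ d ^ 6 := by
            calc 81 * d ^ 2 = 3 ^ 4 * d ^ 2 := by norm_num
              _ ≤ d ^ 4 * d ^ 2 := Nat.mul_le_mul_right _ (Nat.pow_le_pow_left hd 4)
              _ = d ^ 6 := by ring
          have h2 : 1 ≤ d ^ 2 := Nat.one_le_iff_ne_zero.mpr (by positivity)
          have h3 : d ^ 2 ≤ d ^ 2 * n := Nat.le_mul_of_pos_right _ (by omega)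
          have h4 : 81 * d ^ 2 * n ≤ d ^ 6 * n := Nat.mul_le_mul_right _ h1
          have h5 : n ≤ d ^ 2 * n := Nat.le_mul_of_pos_left _ (by omega)
          have h6 : 81 * d ^ 2 * n = 81 * (d ^ 2 * n) := by ring
          omega
  refine gap (emb (P₁.E ⊔ P₂.E)) (P₁.E ⊔ P₂.E).val.toRingHom rfl _ hcK1 co hinj hco d m n hd hm hn
    he P₁.y hy2 hcKle κ₁ hκ₁
    ((P₁.cp.level P₁.y le_rfl ?_).map (incl i₁) (emb_incl i₁) (nrm_incl_le i₁) (incl_injective i₁))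
    ((P₂.cp.level (P₁.y ^ (n + 1)) hn2.le ?_).map (incl i₂) (emb_incl i₂) (nrm_incl_le i₂)
      (incl_injective i₂)) ?_ ?_ ?_
  · exact P₁.near.trans (near_level d P₁.y P₁.y hy0 (by nlinarith))
  · exact P₂.near.trans (near_level d P₂.y _ (by positivity) hlev)
  · exact P₁.y_pow
  · change _ ≤ |(P₂.cp.a : ℝ)|
    rw [P₂.y_pow, mul_comm (m * κ₁) n, pow_mul]
    exact pow_le_pow_left₀ (by positivity) hn1 _
  · change |(P₂.cp.a : ℝ)| ≤ _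
    rw [P₂.y_pow, mul_comm (m * κ₁) (n + 1), pow_mul P₁.y]
    exact pow_le_pow_left₀ (by linarith) hn2.le _

end Pool.Agent.H20.G
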