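import Pool.Agent.H20.S3

set_option autoImplicit false

namespace Pool.Agent.H20.G

open Polynomial Finset NumberField Module

/-- Small polynomials do not vanish at the expansion of a place of full degree. -/
lemma small_ne {E : Type} [Field E] [NumberField E] (w : E) (hw : w ≠ 0) (m : ℕ) (hm : 1 ≤ m)
    (Z : PowerSeries E) (d : ℕ)
    (hdist : ∀ (σ σ' : E →+* ℂ) (x x' : ℂ), x ≠ 0 → x' ≠ 0 → σ w * x ^ m = 1 → σ' w * x' ^ m = 1 →
      cj σ x Z = cj σ' x' Z → σ = σ' ∧ x = x') (hfull : finrank ℚ E * m = d)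
    (hT0 : PowerSeries.constantCoeff (PowerSeries.C w * PowerSeries.X ^ m) = 0)
    (G : (PowerSeries ℚ)[X]) (hG : G ≠ 0) (hGd : G.natDegree < d) :
    eval₂ (Sb (PowerSeries.C w * PowerSeries.X ^ m) hT0) Z G ≠ 0 := by
  classical
  have hXm : PowerSeries.constantCoeff (PowerSeries.X ^ m : PowerSeries ℂ) = 0 := by
    rw [map_pow, PowerSeries.constantCoeff_X, zero_pow (by omega)]
  set S := Sb (PowerSeries.C w * PowerSeries.X ^ m) hT0 with hS
  set S' := Sb (PowerSeries.X ^ m : PowerSeries ℂ) hXm with hS'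
  have hS'inj : Function.Injective S' := Sb_injective _ _ (pow_ne_zero _ PowerSeries.X_ne_zero)
  have hcomp : ∀ (σ : E →+* ℂ) (x : ℂ), σ w * x ^ m = 1 → (cj σ x).comp S = S' := by
    intro σ x hx
    have h1 : ((cj σ x).comp S) PowerSeries.X = PowerSeries.X ^ m := by
      rw [RingHom.comp_apply, hS, Sb_X, map_mul, map_pow]
      unfold cj
      rw [RingHom.comp_apply, RingHom.comp_apply, PowerSeries.map_C, PowerSeries.map_X,
        PowerSeries.rescale_X, mul_pow, ← map_pow, ← mul_assoc]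
      have h2 : PowerSeries.rescale x (PowerSeries.C (σ w)) = PowerSeries.C (σ w) := by
        ext n
        rw [PowerSeries.coeff_rescale, PowerSeries.coeff_C]
        split_ifs with h3
        · rw [h3, pow_zero, one_mul]
        · rw [mul_zero]
      rw [h2, ← map_mul, hx, map_one, one_mul]
    apply ps_hom_unique
    · rw [h1, hS', Sb_X]
    · rw [h1]
      exact dvd_pow_self _ (by omega)
  intro hG0
  have hroot : ∀ σ : E →+* ℂ, ∃ x : ℂ, σ w * x ^ m = 1 := by
    intro σ
    obtain ⟨x, hx⟩ := IsAlgClosed.exists_pow_nat_eq (σ w)⁻¹ (by omega : 0 < m)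
    refine ⟨x, ?_⟩
    rw [hx]
    exact mul_inv_cancel₀ ((map_ne_zero σ).mpr hw)
  choose x₀ hx₀ using hroot
  have hx₀ne : ∀ σ, x₀ σ ≠ 0 := by
    intro σ h1
    have := hx₀ σ
    rw [h1, zero_pow (by omega), mul_zero] at this
    exact zero_ne_one this
  obtain ⟨ω, hω⟩ : ∃ ω : ℂ, IsPrimitiveRoot ω m :=
    ⟨_, Complex.isPrimitiveRoot_exp m (by omega)⟩
  have hω0 : ω ≠ 0 := hω.ne_zero (by omega)
  have hx : ∀ (σ : E →+* ℂ) (k : ℕ), σ w * (x₀ σ * ω ^ k) ^ m = 1 := by
    intro σ k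
    rw [mul_pow, ← pow_mul, mul_comm k m, pow_mul, hω.pow_eq_one, one_pow, mul_one]
    exact hx₀ σ
  let f : (E →+* ℂ) × Fin m → PowerSeries ℂ := fun i => cj i.1 (x₀ i.1 * ω ^ (i.2 : ℕ)) Z
  have hf : Function.Injective f := by
    rintro ⟨σ, k⟩ ⟨σ', k'⟩ hij
    obtain ⟨h1, h2⟩ := hdist σ σ' _ _ (mul_ne_zero (hx₀ne σ) (pow_ne_zero _ hω0))
      (mul_ne_zero (hx₀ne σ') (pow_ne_zero _ hω0)) (hx σ k) (hx σ' k') hij
    subst h1
    have h3 := mul_left_cancel₀ (hx₀ne σ) h2
    have h4 := hω.pow_inj k.isLt k'.isLt h3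
    rw [Prod.mk.injEq]
    exact ⟨rfl, Fin.ext h4⟩
  have h1 : G.map S' = 0 := by
    refine eq_zero_of_natDegree_lt_card_of_eval_eq_zero (G.map S') hf ?_ ?_
    · rintro ⟨σ, k⟩
      simp only [f]
      rw [eval_map, ← hcomp σ _ (hx σ k), ← hom_eval₂, hG0, map_zero]
    · rw [Fintype.card_prod, Fintype.card_fin]
      have h2 : Fintype.card (E →+* ℂ) = finrank ℚ E := NumberField.Embeddings.card E ℂ
      rw [h2, hfull]
      exact lt_of_le_of_lt natDegree_map_le hGd
  exact hG ((Polynomial.map_eq_zero_iff hS'inj).mp h1)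

/-- Every element is a fraction in the expansion of a place of full degree. -/
lemma exists_frac {E : Type} [Field E] [NumberField E] (w : E) (hw : w ≠ 0) (m : ℕ) (hm : 1 ≤ m)
    (Z : PowerSeries E) (d : ℕ)
    (hdist : ∀ (σ σ' : E →+* ℂ) (x x' : ℂ), x ≠ 0 → x' ≠ 0 → σ w * x ^ m = 1 → σ' w * x' ^ m = 1 →
      cj σ x Z = cj σ' x' Z → σ = σ' ∧ x = x') (hfull : finrank ℚ E * m = d)
    (hT0 : PowerSeries.constantCoeff (PowerSeries.C w * PowerSeries.X ^ m) = 0)
    (α : PowerSeries E) :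
    ∃ (r : PowerSeries ℚ) (P : (PowerSeries ℚ)[X]), r ≠ 0 ∧
      Sb (PowerSeries.C w * PowerSeries.X ^ m) hT0 r * α =
        eval₂ (Sb (PowerSeries.C w * PowerSeries.X ^ m) hT0) Z P := by
  classical
  have hcard : Fintype.card (Fin (finrank ℚ E) × Fin m) = d := by
    simp only [Fintype.card_prod, Fintype.card_fin]; exact hfull
  let eq : (Fin (finrank ℚ E) × Fin m) ≃ Fin d := Fintype.equivFinOfCardEq hcard
  have hwu : IsUnit (PowerSeries.C w : PowerSeries E) := (IsUnit.mk0 w hw).map _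
  have hgen := ps_generate m hm (PowerSeries.C w) hwu (PowerSeries.C w * PowerSeries.X ^ m)
    (mul_comm _ _) hT0
  let zs : ℕ → PowerSeries E := fun k => if k < d then Z ^ k else α
  choose a ha using fun k : ℕ => hgen (zs k)
  let M : Matrix (Fin (d + 1)) (Fin (d + 1)) (PowerSeries ℚ) := fun k i =>
    if h : (i : ℕ) < d then a k (eq.symm ⟨i, h⟩) else 0
  have hdet : M.det = 0 := by
    apply Matrix.det_eq_zero_of_column_eq_zero (Fin.last d)
    intro k
    simp only [M]
    rw [dif_neg]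
    simp
  obtain ⟨v, hv0, hv⟩ := Matrix.exists_vecMul_eq_zero_iff.mpr hdet
  have hvi : ∀ i : Fin (finrank ℚ E) × Fin m, ∑ k, v k * a k i = 0 := by
    intro i
    have h1 := congrFun hv ⟨eq i, by have := (eq i).isLt; omega⟩
    simp only [Matrix.vecMul, dotProduct, Pi.zero_apply, M] at h1
    rw [← h1]
    refine Finset.sum_congr rfl (fun k _ => ?_)
    rw [dif_pos (eq i).isLt]
    congr 2
    rw [Fin.eta, Equiv.symm_apply_apply]
  set S := Sb (PowerSeries.C w * PowerSeries.X ^ m) hT0 with hS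
  have hsum : ∑ k : Fin (d + 1), S (v k) * zs k = 0 := by
    have h1 : ∀ k : Fin (d + 1), S (v k) * zs k = ∑ i, S (v k * a k i) *
        (PowerSeries.C (Module.finBasis ℚ E i.1) * PowerSeries.X ^ (i.2 : ℕ)) := by
      intro k
      conv_lhs => rw [ha k]
      rw [Finset.mul_sum]
      refine Finset.sum_congr rfl (fun i _ => ?_)
      rw [map_mul]
      ring
    rw [Finset.sum_congr rfl (fun k _ => h1 k), Finset.sum_comm]
    refine Finset.sum_eq_zero (fun i _ => ?_)
    rw [← Finset.sum_mul, ← map_sum, hvi i, map_zero, zero_mul]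
  rw [Fin.sum_univ_castSucc] at hsum
  have hz1 : ∀ k : Fin d, zs (Fin.castSucc k : Fin (d + 1)) = Z ^ (k : ℕ) := by
    intro k
    simp only [zs, Fin.val_castSucc]
    rw [if_pos k.isLt]
  have hz2 : zs (Fin.last d : Fin (d + 1)) = α := by
    simp [zs]
  rw [hz2] at hsum
  set G : (PowerSeries ℚ)[X] := ∑ k : Fin d, monomial (k : ℕ) (v (Fin.castSucc k)) with hG
  have hGe : eval₂ S Z G = ∑ k : Fin d, S (v (Fin.castSucc k)) * zs (Fin.castSucc k : Fin (d + 1)) := by
    rw [hG, eval₂_finsetSum]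
    refine Finset.sum_congr rfl (fun k _ => ?_)
    rw [eval₂_monomial, hz1]
  have hd0 : 0 < d := by
    have h1 : 0 < finrank ℚ E := finrank_pos
    rw [← hfull]; positivity
  have hGd : G.natDegree < d := by
    have : G.natDegree ≤ d - 1 := by
      refine natDegree_sum_le_of_forall_le _ _ (fun k _ => ?_)
      refine (natDegree_monomial_le _).trans ?_
      have := k.isLt
      omega
    omega
  refine ⟨v (Fin.last d), -G, ?_, ?_⟩
  · intro hv1
    rw [hv1, map_zero, zero_mul, add_zero, ← hGe] at hsum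
    have hG0 : G ≠ 0 := by
      intro h0
      apply hv0
      funext k
      refine Fin.lastCases hv1 (fun k => ?_) k
      have h2 := congrArg (fun g => g.coeff (k : ℕ)) h0
      simp only [hG, finsetSum_coeff, coeff_zero] at h2
      rw [Finset.sum_eq_single k] at h2
      · rwa [coeff_monomial, if_pos rfl] at h2
      · intro j _ hj
        rw [coeff_monomial, if_neg]
        intro h
        exact hj (Fin.ext h)
      · intro h
        exact absurd (Finset.mem_univ _) h
    exact small_ne w hw m hm Z d hdist hfull hT0 G hG0 hGd hsum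
  · rw [eval₂_neg, hGe]
    linear_combination hsum

/-- The field of definition of a place of full degree embeds in the field of definition of every
branch at infinity. -/
theorem full_embed {E : Type} [Field E] [NumberField E] (w : E) (hw : w ≠ 0) (m : ℕ) (hm : 1 ≤ m)
    (Z : PowerSeries E) (d : ℕ) (c : ℕ → ℕ → ℤ) (hc : c 0 d = 1)
    (hF : F0 d c (PowerSeries.C w * PowerSeries.X ^ m) Z = 0)
    (hdist : ∀ (σ σ' : E →+* ℂ) (x x' : ℂ), x ≠ 0 → x' ≠ 0 → σ w * x ^ m = 1 → σ' w * x' ^ m = 1 →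
      cj σ x Z = cj σ' x' Z → σ = σ' ∧ x = x') (hfull : finrank ℚ E * m = d)
    {A : Type} [Field A] [NumberField A] (e : ℕ) (he : 1 ≤ e) (U : PowerSeries A) (hU : IsUnit U)
    (Z₀ : PowerSeries A) (h0 : F0 d c (PowerSeries.X ^ e * U) Z₀ = 0) :
    Nonempty (E →+* A) := by
  classical
  have hT0 : PowerSeries.constantCoeff (PowerSeries.C w * PowerSeries.X ^ m) = 0 := by
    rw [map_mul, map_pow, PowerSeries.constantCoeff_X, zero_pow (by omega), mul_zero]
  have hT0' : PowerSeries.constantCoeff (PowerSeries.X ^ e * U : PowerSeries A) = 0 := by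
    rw [map_mul, map_pow, PowerSeries.constantCoeff_X, zero_pow (by omega), zero_mul]
  set S := Sb (PowerSeries.C w * PowerSeries.X ^ m) hT0 with hS
  set S' := Sb (PowerSeries.X ^ e * U) hT0' with hS'
  have hS'inj : Function.Injective S' := Sb_injective _ _
    (mul_ne_zero (pow_ne_zero _ PowerSeries.X_ne_zero) hU.ne_zero)
  obtain ⟨hmon, hdeg⟩ := F0_monic d c hc (PowerSeries.X : PowerSeries ℚ)
  set 𝔽 : (PowerSeries ℚ)[X] := F0 d c (C PowerSeries.X) X with h𝔽
  have hev : ∀ {B : Type} [CommRing B] (ρ : PowerSeries ℚ →+* B) (z : B),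
      eval₂ ρ z 𝔽 = F0 d c (ρ PowerSeries.X) z := by
    intro B _ ρ z
    have h1 := map_F0 (eval₂RingHom ρ z) d c (C PowerSeries.X) (X : (PowerSeries ℚ)[X])
    rw [coe_eval₂RingHom, eval₂_C, eval₂_X] at h1
    exact h1
  have hd1 : 1 ≤ d := by
    have h1 : 0 < finrank ℚ E := finrank_pos
    have : 0 < finrank ℚ E * m := by positivity
    omega
  -- transport of relations
  have htr : ∀ G : (PowerSeries ℚ)[X], eval₂ S Z G = 0 → eval₂ S' Z₀ G = 0 := by
    intro G hG
    have h1 := modByMonic_add_div G 𝔽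
    have hr : G %ₘ 𝔽 = 0 := by
      by_contra hne
      have h2 : (G %ₘ 𝔽).natDegree < d := by
        have h3 := natDegree_modByMonic_lt G hmon (by
          intro h4
          rw [h4, natDegree_one] at hdeg
          omega)
        rwa [hdeg] at h3
      refine small_ne w hw m hm Z d hdist hfull hT0 _ hne h2 ?_
      rw [← h1, eval₂_add, eval₂_mul, hev, hS, Sb_X, hF, zero_mul, add_zero] at hG
      exact hG
    rw [← h1, hr, zero_add, eval₂_mul, hev, hS', Sb_X, h0, zero_mul]
  -- a primitive element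
  let pb := Field.powerBasisOfFiniteOfSeparable ℚ E
  set g := minpoly ℚ pb.gen with hg
  have hgm : g.Monic := minpoly.monic (Algebra.IsIntegral.isIntegral pb.gen)
  set n := g.natDegree with hn
  obtain ⟨r, P, hr0, hrP⟩ := exists_frac w hw m hm Z d hdist hfull hT0 (PowerSeries.C pb.gen)
  rw [← hS] at hrP
  set Q : (PowerSeries ℚ)[X] := ∑ i ∈ range (n + 1),
    C (PowerSeries.C (g.coeff i)) * P ^ i * C r ^ (n - i) with hQ
  have hQe : ∀ {B : Type} [CommRing B] (ρ : PowerSeries ℚ →+* B) (z : B),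
      eval₂ ρ z Q = ∑ i ∈ range (n + 1), ρ (PowerSeries.C (g.coeff i)) * (eval₂ ρ z P) ^ i *
        ρ r ^ (n - i) := by
    intro B _ ρ z
    rw [hQ, eval₂_finsetSum]
    refine Finset.sum_congr rfl (fun i _ => ?_)
    rw [eval₂_mul, eval₂_mul, eval₂_C, eval₂_pow, eval₂_pow, eval₂_C]
  have hQ0 : eval₂ S Z Q = 0 := by
    rw [hQe, ← hrP]
    have h1 : ∀ i ∈ range (n + 1), S (PowerSeries.C (g.coeff i)) *
        (S r * PowerSeries.C pb.gen) ^ i * S r ^ (n - i)
        = S r ^ n * PowerSeries.C (algebraMap ℚ E (g.coeff i) * pb.gen ^ i) := by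
      intro i hi
      have hi' := Finset.mem_range.mp hi
      have e1 : S r ^ n = S r ^ i * S r ^ (n - i) := by rw [← pow_add]; congr 1; omega
      rw [hS, Sb_C, map_mul, map_pow, ← hS, e1, mul_pow]
      ring
    rw [Finset.sum_congr rfl h1, ← Finset.mul_sum, ← map_sum]
    have h2 : ∑ i ∈ range (n + 1), algebraMap ℚ E (g.coeff i) * pb.gen ^ i = 0 := by
      have h3 := minpoly.aeval ℚ pb.gen
      rw [aeval_eq_sum_range] at h3
      rw [← h3]
      refine Finset.sum_congr rfl (fun i _ => ?_)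
      rw [Algebra.smul_def]
    rw [h2, map_zero, mul_zero]
  have h1 := htr Q hQ0
  rw [hQe] at h1
  set p := eval₂ S' Z₀ P with hp
  set q := S' r with hq
  have hq0 : q ≠ 0 := fun h => hr0 (hS'inj (by rw [map_zero]; exact h))
  let Fr := FractionRing (PowerSeries A)
  let ι := algebraMap (PowerSeries A) Fr
  have hιinj : Function.Injective ι := IsFractionRing.injective (PowerSeries A) Fr
  have hιq : ι q ≠ 0 := fun h => hq0 (hιinj (by rw [map_zero]; exact h))
  set gA : (PowerSeries A)[X] := g.map (PowerSeries.C.comp (algebraMap ℚ A)) with hgA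
  have hgAm : gA.Monic := hgm.map _
  have hgAe : ∀ {B : Type} [CommRing B] (ρ : PowerSeries A →+* B) (z : B),
      eval₂ ρ z gA = ∑ i ∈ range (n + 1), ρ (PowerSeries.C (algebraMap ℚ A (g.coeff i))) * z ^ i := by
    intro B _ ρ z
    rw [hgA, eval₂_map, eval₂_eq_sum_range]
    rfl
  have hx : eval₂ ι (ι p / ι q) gA = 0 := by
    rw [hgAe]
    have h2 : (∑ i ∈ range (n + 1), ι (PowerSeries.C (algebraMap ℚ A (g.coeff i))) *
        (ι p / ι q) ^ i) * ι q ^ n = 0 := by
      have h3 := congrArg ι h1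
      rw [map_zero, map_sum] at h3
      rw [← h3, Finset.sum_mul]
      refine Finset.sum_congr rfl (fun i hi => ?_)
      have hi' := Finset.mem_range.mp hi
      have e1 : ι q ^ n = ι q ^ i * ι q ^ (n - i) := by rw [← pow_add]; congr 1; omega
      have e2 : (ι p / ι q) ^ i * ι q ^ i = ι p ^ i := by
        rw [← mul_pow, div_mul_cancel₀ _ hιq]
      have e3 : S' (PowerSeries.C (g.coeff i)) = PowerSeries.C (algebraMap ℚ A (g.coeff i)) := by
        rw [hS', Sb_C]
      rw [e3, map_mul, map_mul, map_pow, map_pow, e1, ← e2]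
      ring
    exact (mul_eq_zero.mp h2).resolve_right (pow_ne_zero _ hιq)
  obtain ⟨y, hy⟩ := IsIntegrallyClosed.algebraMap_eq_of_integral (R := PowerSeries A) (K := Fr)
    ⟨gA, hgAm, hx⟩
  rw [← hy] at hx
  have hy0 : eval₂ (RingHom.id (PowerSeries A)) y gA = 0 := by
    apply hιinj
    rw [map_zero, hom_eval₂, RingHom.comp_id]
    exact hx
  have hroot : aeval (PowerSeries.constantCoeff y) g = 0 := by
    rw [hgAe] at hy0
    have h2 := congrArg PowerSeries.constantCoeff hy0
    rw [map_sum, map_zero] at h2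
    rw [aeval_eq_sum_range, ← h2]
    refine Finset.sum_congr rfl (fun i _ => ?_)
    rw [RingHom.id_apply, map_mul, map_pow, PowerSeries.constantCoeff_C, Algebra.smul_def]
  exact ⟨(pb.lift _ hroot).toRingHom⟩

/-- The field of definition of a simple node of full degree embeds in the field of definition
of every branch at infinity. -/
theorem Node.embed {d : ℕ} {c : ℕ → ℕ → ℤ} {a b : ℤ} (hd : 1 ≤ d) (hc : c 0 d = 1)
    (N : Node d c a b) (nf : NumberField N.E) (hr : N.r = 1) (hfull : finrank ℚ N.E * N.m = d)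
    {A : Type} [Field A] [NumberField A] (x y : LaurentSeries A) (e : ℕ) (he : 1 ≤ e)
    (h0 : evR x y (fP d c) = 0)
    (hlow : ∀ n : ℤ, n < -(e : ℤ) → x.coeff n = 0 ∧ y.coeff n = 0)
    (hne : x.coeff (-(e : ℤ)) ≠ 0 ∨ y.coeff (-(e : ℤ)) ≠ 0) : Nonempty (N.E →+* A) := by
  obtain ⟨U, Z₀, hU, hZ₀⟩ := branch_series d hd c hc x y e he h0 hlow hne
  obtain ⟨z, hz0, hz⟩ := N.series hr
  have hw : (algebraMap (𝓞 N.E) N.E N.w) ≠ 0 := fun h0 =>
    N.w_ne (RingOfIntegers.coe_injective (by rw [map_zero]; exact h0))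
  set φ : 𝓞 N.E →+* PowerSeries N.E := PowerSeries.C.comp (algebraMap (𝓞 N.E) N.E) with hφ
  set Z : PowerSeries N.E := evA φ PowerSeries.X z (zt N.V N.v N.k₀) with hZ
  have hT : evA φ PowerSeries.X z (C (C N.w) * X ^ N.m)
      = PowerSeries.C (algebraMap (𝓞 N.E) N.E N.w) * PowerSeries.X ^ N.m := by
    rw [map_mul, map_pow, evA_C, evA_X, eval₂_C]
    rfl
  have hF : F0 d c (PowerSeries.C (algebraMap (𝓞 N.E) N.E N.w) * PowerSeries.X ^ N.m) Z = 0 := by
    have h6 := congrArg (evA φ PowerSeries.X z) N.rel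
    rw [map_F0, map_mul, hz, mul_zero, hT] at h6
    exact h6.symm
  have hZc : ∀ k ≤ N.k₀, PowerSeries.coeff k Z = algebraMap (𝓞 N.E) N.E (N.V.coeff k) := by
    intro k hk
    rw [hZ, evA_zt, hφ, eval₂_C_X, map_add, Polynomial.coeff_coe, coeff_map]
    have h7 : PowerSeries.coeff k ((PowerSeries.C.comp (algebraMap (𝓞 N.E) N.E)) N.v *
        PowerSeries.X ^ N.k₀ * z) = 0 := by
      have h8 : (PowerSeries.X : PowerSeries N.E) ∣ z := PowerSeries.X_dvd_iff.mpr hz0
      obtain ⟨z', hz'⟩ := h8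
      have h9 : (PowerSeries.C.comp (algebraMap (𝓞 N.E) N.E)) N.v * PowerSeries.X ^ N.k₀ * z
          = PowerSeries.X ^ (N.k₀ + 1) *
            ((PowerSeries.C.comp (algebraMap (𝓞 N.E) N.E)) N.v * z') := by
        rw [hz', pow_succ]; ring
      rw [h9]
      exact PowerSeries.X_pow_dvd_iff.mp ⟨_, rfl⟩ k (by omega)
    rw [h7, add_zero]
  refine full_embed (algebraMap (𝓞 N.E) N.E N.w) hw N.m N.m_pos Z d c hc hF ?_ hfull e he U hU Z₀
    hZ₀
  intro σ σ' x x' hx hx' h1 h2 h3
  refine N.dist σ σ' x x' hx hx' (by rw [h1, h2]) ?_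
  intro k hk
  have h4 := congrArg (PowerSeries.coeff k) h3
  rw [cj_coeff, cj_coeff, hZc k hk] at h4
  linear_combination h4

end Pool.Agent.H20.G
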