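import Pool.Agent.H20.Q1
import Pool.Agent.H20.W1
import Pool.Agent.H20.W2

set_option autoImplicit false

namespace Pool.Agent.H20.G

open Polynomial Finset NumberField Module

/-- The condition at infinity: either there is a branch at infinity which is smaller than the
degree, or every field over which the curve has a branch at infinity has degree at least three. -/
def CondWC (d : ℕ) (c : ℕ → ℕ → ℤ) : Prop :=
  (∃ (L : Type) (_ : Field L) (_ : NumberField L) (x y : LaurentSeries L) (e : ℕ),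
    evR x y (fP d c) = 0 ∧ Pole x y e ∧ finrank ℚ L * e < d) ∨
  ∀ (L : Type) [Field L] [NumberField L] (x y : LaurentSeries L) (e : ℕ),
    evR x y (fP d c) = 0 → Pole x y e → 3 ≤ finrank ℚ L

/-- A large integral point lies near a place of full degree. -/
lemma large_node (d : ℕ) (hd : 3 ≤ d) : ∃ C κ₁ : ℕ, 1 ≤ C ∧ 0 < κ₁ ∧ (∀ m, m ≤ d → kap d m ≤ κ₁) ∧
    ∀ c : ℕ → ℕ → ℤ, c 0 d = 1 → Irreducible (fP d c) →
      ∀ a b : ℤ, a ≠ 0 → evalEval a b (fP d c) = 0 →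
      (2 * hS d c) ^ (C * (d * κ₁)) ≤ |(a : ℝ)| →
      ∃ (N : Node d c a b) (_ : NumberField N.E), N.r = 1 ∧ finrank ℚ N.E * N.m = d ∧
        ∃ y : ℝ, 2 ≤ y ∧ |(a : ℝ)| = y ^ (N.m * κ₁) ∧
          ∀ F ≤ N.E, ∃ P : MC F d N.m κ₁, P.y = y := by
  have hd1 : 1 ≤ d := by omega
  obtain ⟨C, hC1, hC⟩ := exists_simple d hd1
  set κ₁ := kk d C with hκ₁
  have hkap : ∀ m, m ≤ d → kap d m ≤ κ₁ := by
    intro m hm
    have h1 : kap d m ≤ ∑ m ∈ range (d + 1), kap d m :=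
      Finset.single_le_sum (f := fun m => kap d m) (fun _ _ => Nat.zero_le _)
        (Finset.mem_range.mpr (by omega))
    rw [hκ₁]
    unfold kk
    omega
  have hκC : (2 * d ^ 2 + 4) * C ≤ κ₁ := by rw [hκ₁]; unfold kk; omega
  have hκR : kR d < κ₁ := by rw [hκ₁]; unfold kk; omega
  have hκpos : 0 < κ₁ := by
    have : 0 < (2 * d ^ 2 + 4) * C := by positivity
    omega
  refine ⟨C, κ₁, hC1, hκpos, hkap, ?_⟩
  intro c hc hirr a b ha hz hlarge
  have hH := one_le_hS d c hc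
  have hH0 : 0 < hS d c := by linarith
  have hapos : 0 < |(a : ℝ)| := abs_pos.mpr (by exact_mod_cast ha)
  set h := 2 * hS d c with hh
  have hh2 : 2 ≤ h := by linarith
  have hh1 : 1 ≤ h := by linarith
  have hCd : C ≤ C * (d * κ₁) := Nat.le_mul_of_pos_right _ (by positivity)
  obtain ⟨N, nf, hr, hN, hs, hζ⟩ := hC c hc hirr a b ha hz h hh2 (by linarith)
    ((pow_le_pow_right₀ hh1 hCd).trans hlarge)
  obtain ⟨-, hmd, -⟩ := N.r_le nf
  have hm1 := N.m_pos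
  -- the parameter
  have hmκ0 : ((N.m * κ₁ : ℕ) : ℝ) ≠ 0 := by
    have : 0 < N.m * κ₁ := by positivity
    exact_mod_cast this.ne'
  obtain ⟨y, hy⟩ : ∃ y : ℝ, y = |(a : ℝ)| ^ (1 / ((N.m * κ₁ : ℕ) : ℝ)) := ⟨_, rfl⟩
  have hy0 : 0 < y := by rw [hy]; positivity
  have hyk : |(a : ℝ)| = y ^ (N.m * κ₁) := by
    rw [hy, ← Real.rpow_natCast, ← Real.rpow_mul hapos.le, one_div, inv_mul_cancel₀ hmκ0,
      Real.rpow_one]
  have hhy : h ^ C ≤ y := by
    refine le_of_pow_le_pow_left₀ (by positivity : N.m * κ₁ ≠ 0) hy0.le ?_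
    rw [← hyk, ← pow_mul]
    refine (pow_le_pow_right₀ hh1 ?_).trans hlarge
    exact Nat.mul_le_mul_left _ (Nat.mul_le_mul_right _ hmd)
  have hC2 : h ≤ h ^ C := le_self_pow₀ hh1 (by omega)
  have hy2 : 2 ≤ y := by linarith
  have hy1 : 1 ≤ y := by linarith
  have hnear : ‖N.ζ‖ ≤ 1 / (4 * (y ^ 2) ^ (d ^ 2 + 1)) := by
    rw [le_div_iff₀ (by positivity)]
    have h1 : (‖N.ζ‖ * (4 * (y ^ 2) ^ (d ^ 2 + 1))) ^ C ≤ 1 ^ C := by
      rw [one_pow]
      calc (‖N.ζ‖ * (4 * (y ^ 2) ^ (d ^ 2 + 1))) ^ C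
          ≤ (‖N.ζ‖ * (y ^ 2 * (y ^ 2) ^ (d ^ 2 + 1))) ^ C := by
            refine pow_le_pow_left₀ (by positivity) ?_ _
            refine mul_le_mul_of_nonneg_left ?_ (norm_nonneg _)
            refine mul_le_mul_of_nonneg_right ?_ (by positivity)
            nlinarith
        _ = ‖N.ζ‖ ^ C * y ^ ((2 * d ^ 2 + 4) * C) := by
            rw [mul_pow, ← pow_succ', ← pow_mul, ← pow_mul]
            congr 2
            ring
        _ ≤ ‖N.ζ‖ ^ C * y ^ (N.m * κ₁) := by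
            refine mul_le_mul_of_nonneg_left ?_ (by positivity)
            refine pow_le_pow_right₀ hy1 (hκC.trans ?_)
            exact Nat.le_mul_of_pos_left _ hm1
        _ = ‖N.ζ‖ ^ C * |(a : ℝ)| := by rw [← hyk]
        _ ≤ 1 := hζ
    exact le_of_pow_le_pow_left₀ (by omega) zero_le_one h1
  have hnear' : ‖N.ζ‖ ≤ bet d y / (4 * y) :=
    hnear.trans (near_level d y y hy0 (by nlinarith))
  have hdeg := N.hdeg
  rw [hr, mul_one] at hdeg
  let P₀ : CP N.E (emb N.E) d N.m y :=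
    N.toCP hr hc hirr ha hz C (h ^ C) hN y hhy (by linarith) hnear'
  have hfull : finrank ℚ N.E * N.m = d := by
    rcases Nat.lt_or_ge (finrank ℚ N.E * N.m) d with hlt | hge
    · exfalso
      have h1 := P₀.runge (emb N.E) N.E.val.toRingHom rfl d N.m hd1 hm1 hlt N.S N.span y hy2
        (fun x hx => (hN.hS x hx).trans hhy)
      change |(a : ℝ)| ≤ _ at h1
      rw [hyk] at h1
      have h2 := (pow_le_pow_iff_right₀ (by linarith : (1 : ℝ) < y)).mp h1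
      have h3 : κ₁ ≤ N.m * κ₁ := Nat.le_mul_of_pos_left _ hm1
      omega
    · exact le_antisymm hdeg hge
  refine ⟨N, nf, hr, hfull, y, hy2, hyk, fun F hF => ?_⟩
  exact ⟨{ E := N.E
           nf := nf
           hF := hF
           hdeg := hdeg
           y := y
           y_two := hy2
           S := N.S
           span := N.span
           S_le := fun x hx => (hN.hS x hx).trans hhy
           cp := P₀
           y_pow := hyk
           near := hnear }, rfl⟩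

/-- the image of a number field in the complex numbers -/
noncomputable def imgK {K : Type} [Field K] [NumberField K] (σ : K →+* ℂ) :
    IntermediateField ℚ ℂ := (σ.toRatAlgHom).fieldRange

lemma mem_imgK {K : Type} [Field K] [NumberField K] (σ : K →+* ℂ) (x : ℂ) :
    x ∈ imgK σ ↔ ∃ y, σ y = x := Iff.rfl

lemma finrank_imgK {K : Type} [Field K] [NumberField K] (σ : K →+* ℂ) :
    finrank ℚ (imgK σ) = finrank ℚ K :=
  (LinearEquiv.finrank_eq (AlgEquiv.ofInjectiveField (σ.toRatAlgHom)).toLinearEquiv).symm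

lemma finrank_le_of_hom {K L : Type*} [Field K] [NumberField K] [Field L] [NumberField L]
    (j : K →+* L) : finrank ℚ K ≤ finrank ℚ L :=
  LinearMap.finrank_le_finrank_of_injective (f := j.toRatAlgHom.toLinearMap) j.injective

/-- windows for the monic model -/
theorem monic_windows (d : ℕ) (hd : 3 ≤ d) :
    ∃ κ n : ℕ, 1 ≤ n ∧ ∀ c : ℕ → ℕ → ℤ, c 0 d = 1 → Irreducible (fP d c) → CondWC d c →
      ∃ R : Fin d → ℝ, (∀ i, 1 ≤ R i) ∧ ∀ a b : ℤ, evalEval a b (fP d c) = 0 →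
        |(a : ℝ)| ≤ (2 * hS d c) ^ κ ∨ ∃ i, R i ≤ |(a : ℝ)| ∧ |(a : ℝ)| ≤ R i ^ n := by
  classical
  have hd1 : 1 ≤ d := by omega
  obtain ⟨C, κ₁, hC1, hκ0, hkap, hL⟩ := large_node d hd
  set M := 68 * d ^ 2 with hM
  have hM0 : 0 < M := by positivity
  refine ⟨C * (d * κ₁), M ^ 2, Nat.one_le_pow _ _ hM0, ?_⟩
  intro c hc hirr hcond
  by_cases hbig : ∃ a b : ℤ, evalEval a b (fP d c) = 0 ∧ (2 * hS d c) ^ (C * (d * κ₁)) < |(a : ℝ)|
  swap
  · push Not at hbig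
    exact ⟨fun _ => 1, fun _ => le_refl _, fun a b hz => Or.inl (hbig a b hz)⟩
  have hH := one_le_hS d c hc
  have hne : ∀ a : ℤ, (2 * hS d c) ^ (C * (d * κ₁)) < |(a : ℝ)| → a ≠ 0 := by
    rintro a ha rfl
    have : 0 ≤ (2 * hS d c) ^ (C * (d * κ₁)) := by positivity
    simp at ha
    linarith
  obtain ⟨a₁, b₁, hz₁, hl₁⟩ := hbig
  obtain ⟨N₁, nf₁, hr₁, hf₁, -⟩ := hL c hc hirr a₁ b₁ (hne a₁ hl₁) hz₁ hl₁.le
  have hm₁ := N₁.m_pos
  -- the condition
  have hcond2 : ∀ (L : Type) [Field L] [NumberField L] (x y : LaurentSeries L) (e : ℕ),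
      evR x y (fP d c) = 0 → Pole x y e → 3 ≤ finrank ℚ L := by
    rcases hcond with ⟨L, fL, nL, x', y', e, h0, ⟨he1, hlow, hne⟩, hlt⟩ | hcond
    · exfalso
      have := N₁.no_small hd1 hc nf₁ hr₁ hf₁ x' y' e he1 h0 hlow hne
      omega
    · exact hcond
  have hdim : 3 ≤ finrank ℚ N₁.E := by
    obtain ⟨X, Y, hXY, hX, hlow⟩ := N₁.laurent hr₁
    exact hcond2 N₁.E X Y N₁.m hXY ⟨hm₁, hlow, Or.inl hX⟩
  have hmd : N₁.m ≤ d :=
    (Nat.le_mul_of_pos_left _ (by omega : 0 < finrank ℚ N₁.E)).trans hf₁.le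
  -- the embeddings
  have hcard : Fintype.card (N₁.E →+* ℂ) ≤ Fintype.card (Fin d) := by
    rw [Fintype.card_fin, NumberField.Embeddings.card N₁.E ℂ]
    exact (Nat.le_mul_of_pos_right _ hm₁).trans hf₁.le
  obtain ⟨e⟩ := Function.Embedding.nonempty_of_card_le hcard
  -- a large point for each embedding
  have hP : ∀ σ : N₁.E →+* ℂ, ∃ R : ℝ, 1 ≤ R ∧ ∀ P : MC (imgK σ) d N₁.m κ₁,
      R ≤ P.y ^ (N₁.m * κ₁) ∧ P.y ^ (N₁.m * κ₁) ≤ R ^ (M ^ 2) := by
    intro σ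
    by_cases hne : Nonempty (MC (imgK σ) d N₁.m κ₁)
    swap
    · exact ⟨1, le_refl _, fun P => absurd ⟨P⟩ hne⟩
    obtain ⟨P₀⟩ := hne
    have hdimσ : 3 ≤ finrank ℚ (imgK σ) := by rw [finrank_imgK]; exact hdim
    set B := P₀.y ^ (N₁.m * κ₁) with hB
    have hy0 := P₀.y_two
    have hB1 : 1 ≤ B := one_le_pow₀ (by linarith)
    have hR : (B ^ (1 / (M : ℝ))) ^ M = B := by
      rw [← Real.rpow_natCast, ← Real.rpow_mul (by linarith), one_div,
        inv_mul_cancel₀ (by exact_mod_cast hM0.ne'), Real.rpow_one]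
    have hR1 : 1 ≤ B ^ (1 / (M : ℝ)) := Real.one_le_rpow hB1 (by positivity)
    refine ⟨B ^ (1 / (M : ℝ)), hR1, fun P => ?_⟩
    have hy := P.y_two
    have h1 := MC.window (imgK σ) hdimσ d N₁.m hd hm₁ κ₁ (hkap _ hmd) P₀ P
    have h2 := MC.window (imgK σ) hdimσ d N₁.m hd hm₁ κ₁ (hkap _ hmd) P P₀
    rw [← hM] at h1 h2
    constructor
    · refine le_of_pow_le_pow_left₀ hM0.ne' (by positivity) ?_
      rw [hR, hB]
      calc P₀.y ^ (N₁.m * κ₁) ≤ (P.y ^ M) ^ (N₁.m * κ₁) :=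
            pow_le_pow_left₀ (by linarith) h2 _
        _ = (P.y ^ (N₁.m * κ₁)) ^ M := by rw [← pow_mul, ← pow_mul, mul_comm]
    · have e1 : (B ^ (1 / (M : ℝ))) ^ (M ^ 2) = B ^ M := by rw [pow_two, pow_mul, hR]
      rw [e1, hB]
      calc P.y ^ (N₁.m * κ₁) ≤ (P₀.y ^ M) ^ (N₁.m * κ₁) :=
            pow_le_pow_left₀ (by linarith) h1 _
        _ = (P₀.y ^ (N₁.m * κ₁)) ^ M := by rw [← pow_mul, ← pow_mul, mul_comm]
  choose R hR1 hR using hP
  refine ⟨fun i => if h : ∃ σ, e σ = i then R h.choose else 1, ?_, ?_⟩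
  · intro i
    dsimp only
    split_ifs
    · exact hR1 _
    · exact le_refl _
  intro a b hz
  rcases le_or_gt (|(a : ℝ)|) ((2 * hS d c) ^ (C * (d * κ₁))) with hsmall | hl
  · exact Or.inl hsmall
  right
  obtain ⟨N, nf, hr, hf, y, hy2, hya, hMC⟩ := hL c hc hirr a b (hne a hl) hz hl.le
  have hm := N.m_pos
  obtain ⟨X, Y, hXY, hX, hlow⟩ := N.laurent hr
  obtain ⟨j⟩ := N₁.embed hd1 hc nf₁ hr₁ hf₁ X Y N.m hm hXY hlow (Or.inl hX)
  obtain ⟨X₁, Y₁, hXY₁, hX₁, hlow₁⟩ := N₁.laurent hr₁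
  obtain ⟨j'⟩ := N.embed hd1 hc nf hr hf X₁ Y₁ N₁.m hm₁ hXY₁ hlow₁ (Or.inl hX₁)
  have hfr : finrank ℚ N.E = finrank ℚ N₁.E :=
    le_antisymm (finrank_le_of_hom j') (finrank_le_of_hom j)
  have hmm : N.m = N₁.m := by
    have h1 := hf.trans hf₁.symm
    rw [hfr] at h1
    exact Nat.eq_of_mul_eq_mul_left (by omega) h1
  set σ : N₁.E →+* ℂ := (N.E.val.toRingHom).comp j with hσ
  have hFE : imgK σ ≤ N.E := by
    intro x hx
    obtain ⟨z, rfl⟩ := (mem_imgK σ x).mp hx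
    exact (j z).2
  obtain ⟨P, hPy⟩ : ∃ P : MC (imgK σ) d N₁.m κ₁, P.y = y := by
    have := hMC (imgK σ) hFE
    rw [hmm] at this
    exact this
  refine ⟨e σ, ?_⟩
  have hex : ∃ τ, e τ = e σ := ⟨σ, rfl⟩
  have hch : hex.choose = σ := e.injective hex.choose_spec
  dsimp only
  rw [dif_pos hex, hch, hya, hmm, ← hPy]
  exact hR σ P

end Pool.Agent.H20.G
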