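import Pool.Agent.H20.W3
import Pool.Agent.H15D.AssembleG

set_option autoImplicit false

namespace Pool.Agent.H20.G

open Polynomial Finset NumberField Module

lemma b_bound (d : ℕ) (hd1 : 1 ≤ d) (c : ℕ → ℕ → ℤ) (hc : c 0 d = 1) (a b : ℤ)
    (hz : evalEval a b (fP d c) = 0) : |(b : ℝ)| ≤ hS d c * max 1 |(a : ℝ)| := by
  have hH := one_le_hS d c hc
  by_cases ha : a = 0
  · subst ha
    have h1 : ‖(b : ℂ)‖ ≤ hS d c := by
      refine root_le_gen d c hd1 hc (b : ℂ) (fun i _ => (0 : ℂ) ^ i) (fun i j => ?_) (by simp) ?_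
      · rw [norm_pow, norm_zero]
        exact pow_le_one₀ le_rfl zero_le_one
      · have h2 := evC_int 0 b (fP d c)
        rw [hz, Int.cast_zero, fP_evC] at h2
        simpa using h2
    rw [Complex.norm_intCast] at h1
    refine h1.trans ?_
    nlinarith [le_max_left (1 : ℝ) |((0 : ℤ) : ℝ)|]
  · have hapos : 0 < |(a : ℝ)| := abs_pos.mpr (by exact_mod_cast ha)
    obtain ⟨-, h2, -⟩ := ratio_le d c hd1 hc a b ha hz
    rw [norm_div, Complex.norm_intCast, Complex.norm_intCast, div_le_iff₀ hapos] at h2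
    exact h2.trans (mul_le_mul_of_nonneg_left (le_max_right _ _) (by linarith))

/-- The condition at infinity for an arbitrary polynomial. -/
def CondWF (d : ℕ) (F : MvPolynomial (Fin 2) ℤ) : Prop :=
  (∃ (L : Type) (_ : Field L) (_ : NumberField L) (x y : LaurentSeries L) (e : ℕ),
    MvPolynomial.eval₂ (Int.castRingHom (LaurentSeries L)) ![x, y] F = 0 ∧ Pole x y e ∧
      finrank ℚ L * e < d) ∨
  ∀ (L : Type) [Field L] [NumberField L] (x y : LaurentSeries L) (e : ℕ),
    MvPolynomial.eval₂ (Int.castRingHom (LaurentSeries L)) ![x, y] F = 0 → Pole x y e →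
      3 ≤ finrank ℚ L

lemma CondWF.toC (d : ℕ) (hd : 1 ≤ d)
    (F : MvPolynomial (Fin 2) ℤ) (hF : F.totalDegree ≤ d) (k : ℤ) (h0 : cf k F 0 d ≠ 0)
    (h : CondWF d F) : CondWC d (mon d (cf k F)) := by
  rcases h with ⟨L, fL, nL, x, y, e, hxy, hp, hlt⟩ | h
  · left
    obtain ⟨x', y', h1, h2⟩ := pole_forth d hd F hF k h0 x y e hxy hp
    exact ⟨L, fL, nL, x', y', e, h1, h2, hlt⟩
  · right
    intro L fL nL x y e hxy hp
    obtain ⟨x', y', h1, h2⟩ := pole_back d hd F hF k h0 x y e hxy hp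
    exact h L x' y' e h1 h2

/-- The windows for all irreducible curves satisfying the condition at infinity. -/
theorem general_windows (d : ℕ) (hd : 3 ≤ d) :
    ∃ (κ n : ℕ) (A : ℝ), 1 ≤ n ∧ 1 ≤ A ∧
      ∀ F : MvPolynomial (Fin 2) ℤ, Irreducible (MvPolynomial.map (Int.castRingHom ℚ) F) →
      F.totalDegree = d → CondWF d F →
      ∃ R : Fin d → ℝ, (∀ i, 1 ≤ R i) ∧ ∀ x y : ℤ, MvPolynomial.eval ![x, y] F = 0 →
        max |(x : ℝ)| |(y : ℝ)| ≤ A * HF F ^ κ ∨
          ∃ i, R i ≤ max |(x : ℝ)| |(y : ℝ)| ∧ max |(x : ℝ)| |(y : ℝ)| ≤ R i ^ n := by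
  have hd1 : 1 ≤ d := by omega
  obtain ⟨κ₀, n, hn1, hmon⟩ := monic_windows d hd
  have hd2 : (1 : ℝ) ≤ 1 + d := by
    have : (0 : ℝ) ≤ d := by positivity
    linarith
  refine ⟨d * (κ₀ + 2), 4 * n, (1 + d) ^ 2 * 2 ^ κ₀ * ((1 + d) ^ d) ^ (d * (κ₀ + 2)), by omega, ?_,
    ?_⟩
  · exact one_le_mul_of_one_le_of_one_le (one_le_mul_of_one_le_of_one_le (one_le_pow₀ hd2)
      (one_le_pow₀ (by norm_num))) (one_le_pow₀ (one_le_pow₀ hd2))
  intro F hirr hFd hcond
  have hF0 : F ≠ 0 := by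
    rintro rfl
    rw [MvPolynomial.totalDegree_zero] at hFd
    omega
  have hF : F.totalDegree ≤ d := hFd.le
  obtain ⟨k, hkd, hk0⟩ := exists_shear' d F hFd hF0
  have hk0' : cf (k : ℤ) F 0 d ≠ 0 := hk0
  have hcondC := hcond.toC d hd1 F hF (k : ℤ) hk0'
  set c := cf (k : ℤ) F with hc
  have hirr2 : Irreducible ((fP d c).map (mapRingHom (Int.castRingHom ℚ))) := by
    rw [hc, ← shear_eq_fP k F d hF, shear_map]
    exact shR_irreducible _ _ hirr
  have hirr3 := mon_irreducible' d hd1 c hk0' hirr2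
  obtain ⟨R, hR1, hR⟩ := hmon (mon d c) (mon_top d c) hirr3 hcondC
  refine ⟨fun i => Real.sqrt (R i), fun i => Real.one_le_sqrt.mpr (hR1 i), ?_⟩
  intro x y hxy
  -- the point
  have h1 : evalEval (x - k * y) y (fP d c) = 0 := by
    have h2 := evR_shear (R := ℤ) (k : ℤ) (x - k * y) y F
    rw [shear_eq_fP k F d hF, Int.cast_id] at h2
    have h3 : MvPolynomial.eval₂ (Int.castRingHom ℤ) ![x - k * y + (k : ℤ) * y, y] F = 0 := by
      have h4 : (x - k * y + (k : ℤ) * y) = x := by ring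
      rw [h4, ← hxy]
      have h5 : (Int.castRingHom ℤ) = RingHom.id ℤ := RingHom.ext_int _ _
      rw [h5, MvPolynomial.eval₂_id]
    rw [h3] at h2
    rw [← h2]
    have h6 : (Int.castRingHom ℤ) = RingHom.id ℤ := RingHom.ext_int _ _
    unfold evR evalEval
    rw [h6, coe_eval₂RingHom]
    have h7 : (eval₂RingHom (RingHom.id ℤ) (x - k * y)) = evalRingHom (x - k * y) := by
      ext <;> simp
    rw [h7, eval₂_evalRingHom]
  have h2 : evalEval (x - k * y) (c 0 d * y) (fP d (mon d c)) = 0 := by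
    have h3 := congrArg (evalEval (x - k * y) y) (mon_comp d hd1 c)
    rw [evalEval_mul, h1, mul_zero] at h3
    rw [← h3]
    unfold evalEval
    rw [eval_comp]
    simp
  -- sizes
  have hH0 : 0 ≤ HF F := Finset.sum_nonneg (fun _ _ => abs_nonneg _)
  set s := hS d (mon d c) with hs
  have hS1 : s ≤ ((1 + d) ^ d * HF F) ^ d :=
    (hS_mon_le d hd1 c hk0').trans
      (pow_le_pow_left₀ (hS_nonneg _ _) (hS_cf_le k F d hF hkd) _)
  have hS2 : (1 : ℝ) ≤ s := one_le_hS d _ (mon_top d c)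
  set T := ((1 + d) ^ d * HF F) ^ d with hT
  have hT1 : 1 ≤ T := hS2.trans hS1
  have hAT : (1 + d) ^ 2 * 2 ^ κ₀ * ((1 + d) ^ d) ^ (d * (κ₀ + 2)) * HF F ^ (d * (κ₀ + 2))
      = (1 + d) ^ 2 * 2 ^ κ₀ * T ^ (κ₀ + 2) := by
    rw [hT, ← pow_mul, mul_pow]
    ring
  rw [hAT]
  set a : ℝ := ((x - k * y : ℤ) : ℝ) with ha
  set σ : ℝ := max |(x : ℝ)| |(y : ℝ)| with hσ
  have hxσ : |(x : ℝ)| ≤ σ := le_max_left _ _
  have hyσ : |(y : ℝ)| ≤ σ := le_max_right _ _
  have hσ0 : 0 ≤ σ := (abs_nonneg _).trans hxσ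
  have hkR : (k : ℝ) ≤ d := by exact_mod_cast hkd
  have hk0R : (0 : ℝ) ≤ k := by positivity
  have ha1 : |a| ≤ (1 + d) * σ := by
    have h3 : a = (x : ℝ) - k * y := by rw [ha]; push_cast; ring
    calc |a| = |(x : ℝ) - k * y| := by rw [h3]
      _ ≤ |(x : ℝ)| + |(k : ℝ) * y| := abs_sub _ _
      _ = |(x : ℝ)| + k * |(y : ℝ)| := by rw [abs_mul, abs_of_nonneg hk0R]
      _ ≤ σ + d * σ := add_le_add hxσ (mul_le_mul hkR hyσ (abs_nonneg _) (by positivity))
      _ = (1 + d) * σ := by ring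
  have hb := b_bound d hd1 (mon d c) (mon_top d c) (x - k * y) (c 0 d * y) h2
  rw [← hs, ← ha] at hb
  have hy1 : |(y : ℝ)| ≤ s * max 1 |a| := by
    refine le_trans ?_ hb
    push_cast
    rw [abs_mul]
    have : (1 : ℝ) ≤ |(c 0 d : ℝ)| := by exact_mod_cast Int.one_le_abs hk0'
    nlinarith [abs_nonneg (y : ℝ)]
  have hmax1 : 1 ≤ max 1 |a| := le_max_left _ _
  have hx1 : |(x : ℝ)| ≤ (1 + d) * s * max 1 |a| := by
    have h3 : (x : ℝ) = a + k * y := by rw [ha]; push_cast; ring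
    have h4 : |a| ≤ s * max 1 |a| := by
      calc |a| ≤ max 1 |a| := le_max_right _ _
        _ = 1 * max 1 |a| := (one_mul _).symm
        _ ≤ _ := mul_le_mul_of_nonneg_right hS2 (by linarith)
    calc |(x : ℝ)| = |a + k * y| := by rw [← h3]
      _ ≤ |a| + |(k : ℝ) * y| := abs_add_le _ _
      _ = |a| + k * |(y : ℝ)| := by rw [abs_mul, abs_of_nonneg hk0R]
      _ ≤ s * max 1 |a| + d * (s * max 1 |a|) :=
          add_le_add h4 (mul_le_mul hkR hy1 (abs_nonneg _) (by positivity))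
      _ = _ := by ring
  have hσ1 : σ ≤ (1 + d) * s * max 1 |a| := by
    refine max_le hx1 (hy1.trans ?_)
    refine mul_le_mul_of_nonneg_right ?_ (by linarith)
    nlinarith
  set W := (1 + d) * s with hW
  have hW1 : 1 ≤ W := one_le_mul_of_one_le_of_one_le hd2 hS2
  have hWT : W ≤ (1 + d) * T := mul_le_mul_of_nonneg_left hS1 (by linarith)
  have h2κ : (1 : ℝ) ≤ 2 ^ κ₀ := one_le_pow₀ (by norm_num)
  rcases hR (x - k * y) (c 0 d * y) h2 with hsm | ⟨i, hi1, hi2⟩
  · left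
    rw [← ha] at hsm
    have h3 : max 1 |a| ≤ (2 * s) ^ κ₀ := max_le (one_le_pow₀ (by linarith)) hsm
    calc σ ≤ W * max 1 |a| := hσ1
      _ ≤ ((1 + d) * T) * (2 * T) ^ κ₀ := by
          refine mul_le_mul hWT (h3.trans ?_) (by linarith) (by positivity)
          exact pow_le_pow_left₀ (by positivity) (by linarith) _
      _ = (1 + d) * 2 ^ κ₀ * T ^ (κ₀ + 1) := by rw [mul_pow, pow_succ]; ring
      _ ≤ (1 + d) ^ 2 * 2 ^ κ₀ * T ^ (κ₀ + 2) := by
          refine mul_le_mul ?_ (pow_le_pow_right₀ hT1 (by omega)) (by positivity) (by positivity)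
          refine mul_le_mul_of_nonneg_right ?_ (by positivity)
          exact le_self_pow₀ hd2 (by norm_num)
  · rw [← ha] at hi1 hi2
    rcases le_or_gt σ (W ^ 2) with hsm | hl
    · left
      calc σ ≤ W ^ 2 := hsm
        _ ≤ ((1 + d) * T) ^ 2 := pow_le_pow_left₀ (by linarith) hWT _
        _ = (1 + d) ^ 2 * 1 * T ^ 2 := by ring
        _ ≤ _ := by
            refine mul_le_mul ?_ (pow_le_pow_right₀ hT1 (by omega)) (by positivity) (by positivity)
            exact mul_le_mul_of_nonneg_left h2κ (by positivity)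
    · right
      have ha2 : 1 < |a| := by
        by_contra hcon
        push Not at hcon
        rw [max_eq_left hcon, mul_one] at hσ1
        have : W ≤ W ^ 2 := le_self_pow₀ hW1 (by norm_num)
        linarith
      rw [max_eq_right ha2.le] at hσ1
      -- `W < |a|`
      have ha3 : W < |a| := by
        by_contra hcon
        push Not at hcon
        have : W * |a| ≤ W ^ 2 := by rw [pow_two]; exact mul_le_mul_of_nonneg_left hcon (by linarith)
        linarith
      have hσ2 : σ ≤ |a| ^ 2 := by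
        rw [pow_two]
        exact hσ1.trans (mul_le_mul_of_nonneg_right ha3.le (by linarith))
      have hW2 : W ≤ W ^ 2 := le_self_pow₀ hW1 (by norm_num)
      have hσ3 : |a| ≤ σ ^ 2 := by
        rw [pow_two]
        refine ha1.trans (mul_le_mul_of_nonneg_right ?_ hσ0)
        have : (1 + (d : ℝ)) ≤ W := by
          rw [hW]
          exact le_mul_of_one_le_right (by linarith) hS2
        linarith
      refine ⟨i, ?_, ?_⟩
      · dsimp only
        rw [Real.sqrt_le_left hσ0]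
        exact hi1.trans hσ3
      · dsimp only
        have hRi : 0 ≤ R i := by linarith [hR1 i]
        have e1 : (Real.sqrt (R i)) ^ (4 * n) = (R i ^ n) ^ 2 := by
          have e2 : 4 * n = 2 * (n * 2) := by ring
          rw [e2, pow_mul, Real.sq_sqrt hRi, pow_mul]
        rw [e1]
        exact hσ2.trans (pow_le_pow_left₀ (by linarith) hi2 _)

end Pool.Agent.H20.G
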