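import Pool.Agent.H20.Jet

set_option autoImplicit false

namespace Pool.Agent.H20

open Polynomial Finset

/-- bidegree bound -/
def Deg2 (p : ℤ[X][X]) (N M : ℕ) : Prop := (∀ j, (p.coeff j).natDegree ≤ N) ∧ p.natDegree ≤ M

lemma Deg2.mono {p : ℤ[X][X]} {N M N' M' : ℕ} (h : Deg2 p N M) (hN : N ≤ N') (hM : M ≤ M') :
    Deg2 p N' M' := ⟨fun j => (h.1 j).trans hN, h.2.trans hM⟩

lemma Deg2.mul {p q : ℤ[X][X]} {N M N' M' : ℕ} (h : Deg2 p N M) (h' : Deg2 q N' M') :
    Deg2 (p * q) (N + N') (M + M') := by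
  refine ⟨fun j => ?_, natDegree_mul_le_of_le h.2 h'.2⟩
  rw [coeff_mul]
  refine natDegree_sum_le_of_forall_le _ _ (fun x _ => ?_)
  exact natDegree_mul_le_of_le (h.1 _) (h'.1 _)

lemma Deg2.sub {p q : ℤ[X][X]} {N M : ℕ} (h : Deg2 p N M) (h' : Deg2 q N M) :
    Deg2 (p - q) N M := by
  refine ⟨fun j => ?_, natDegree_sub_le_of_le h.2 h'.2 |>.trans (by simp)⟩
  rw [coeff_sub]
  exact natDegree_sub_le_of_le (h.1 j) (h'.1 j) |>.trans (by simp)

lemma Deg2.dX {p : ℤ[X][X]} {N M : ℕ} (h : Deg2 p N M) : Deg2 (dX p) N M := by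
  refine ⟨fun j => ?_, ?_⟩
  · rw [coeff_dX]
    exact (natDegree_derivative_le _).trans ((Nat.sub_le _ _).trans (h.1 j))
  · rw [natDegree_le_iff_coeff_eq_zero]
    intro i hi
    rw [coeff_dX, coeff_eq_zero_of_natDegree_lt (lt_of_le_of_lt h.2 hi), derivative_zero]

lemma Deg2.deriv {p : ℤ[X][X]} {N M : ℕ} (h : Deg2 p N M) : Deg2 (derivative p) N M := by
  refine ⟨fun j => ?_, (natDegree_derivative_le _).trans ((Nat.sub_le _ _).trans h.2)⟩
  rw [coeff_derivative]
  have h1 : p.coeff (j + 1) * ((j : ℤ[X]) + 1) = p.coeff (j + 1) * C ((j + 1 : ℕ) : ℤ) := by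
    simp
  rw [h1]
  exact (natDegree_mul_C_le _ _).trans (h.1 _)

lemma Deg2.dl {f p : ℤ[X][X]} {N M d : ℕ} (hf : Deg2 f d d) (h : Deg2 p N M) :
    Deg2 (dl f p) (N + d) (M + d) := by
  unfold H20.dl
  refine Deg2.sub ?_ ?_
  · exact (hf.deriv.mul h.dX).mono (by omega) (by omega)
  · exact (hf.dX.mul h.deriv).mono (by omega) (by omega)

lemma nrm_dX_le {p : ℤ[X][X]} {N M : ℕ} (h : Deg2 p N M) : nrm2.v (dX p) ≤ N * nrm2.v p := by
  change nrm1.l1 (dX p) ≤ N * nrm1.l1 p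
  rw [nrm1.l1_eq_range p (M + 1) (by have := h.2; omega),
    nrm1.l1_eq_range (dX p) (M + 1) (by have := h.dX.2; omega), Finset.mul_sum]
  refine Finset.sum_le_sum (fun i _ => ?_)
  rw [coeff_dX]
  exact nrmInt.l1_derivative_le _ _ (h.1 i)

lemma nrm_deriv_le {p : ℤ[X][X]} {N M : ℕ} (h : Deg2 p N M) :
    nrm2.v (derivative p) ≤ M * nrm2.v p := nrm1.l1_derivative_le _ _ h.2

lemma nrm_dl_le {f p : ℤ[X][X]} {N M d : ℕ} (hf : Deg2 f d d) (h : Deg2 p N M) :
    nrm2.v (dl f p) ≤ (d * nrm2.v f * (N + M)) * nrm2.v p := by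
  unfold dl
  refine (nrm2.sub_le _ _).trans ?_
  have h1 := nrm2.mul_le (derivative f) (dX p)
  have h2 := nrm2.mul_le (dX f) (derivative p)
  have h3 := nrm_dX_le hf
  have h4 := nrm_deriv_le hf
  have h5 := nrm_dX_le h
  have h6 := nrm_deriv_le h
  have n1 := nrm2.nonneg f
  have n2 := nrm2.nonneg p
  have n3 := nrm2.nonneg (dX p)
  have n4 := nrm2.nonneg (derivative p)
  have h7 : nrm2.v (derivative f) * nrm2.v (dX p) ≤ (d * nrm2.v f) * (N * nrm2.v p) :=
    mul_le_mul h4 h5 n3 (by positivity)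
  have h8 : nrm2.v (dX f) * nrm2.v (derivative p) ≤ (d * nrm2.v f) * (M * nrm2.v p) :=
    mul_le_mul h3 h6 n4 (by positivity)
  nlinarith

lemma Deg2.dl_iterate {f p : ℤ[X][X]} {N M d : ℕ} (hf : Deg2 f d d) (h : Deg2 p N M) (k : ℕ) :
    Deg2 ((H20.dl f)^[k] p) (N + k * d) (M + k * d) := by
  induction k with
  | zero => simpa using h
  | succ k ih =>
    rw [Function.iterate_succ_apply']
    exact (Deg2.dl hf ih).mono (by ring_nf; omega) (by ring_nf; omega)

lemma nrm_dl_iterate_le {f p : ℤ[X][X]} {N M d r : ℕ} (hf : Deg2 f d d) (h : Deg2 p N M)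
    (k : ℕ) (hk : k ≤ r) :
    nrm2.v ((dl f)^[k] p) ≤ (d * nrm2.v f * (N + M + 2 * (r * d))) ^ k * nrm2.v p := by
  induction k with
  | zero => simp
  | succ k ih =>
    rw [Function.iterate_succ_apply', pow_succ', mul_assoc]
    refine (nrm_dl_le hf (Deg2.dl_iterate hf h k)).trans ?_
    have ih' := ih (by omega)
    have n1 := nrm2.nonneg f
    have n2 := nrm2.nonneg ((dl f)^[k] p)
    have h1 : (d * nrm2.v f * (((N + k * d : ℕ) : ℝ) + ((M + k * d : ℕ) : ℝ)))
        ≤ d * nrm2.v f * (N + M + 2 * (r * d)) := by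
      refine mul_le_mul_of_nonneg_left ?_ (by positivity)
      have : ((k * d : ℕ) : ℝ) ≤ ((r * d : ℕ) : ℝ) := by
        exact_mod_cast Nat.mul_le_mul_right d (by omega : k ≤ r)
      push_cast at this ⊢
      linarith
    exact mul_le_mul h1 ih' n2 (by positivity)

lemma natDegree_det_le {r : ℕ} (M : Matrix (Fin r) (Fin r) ℤ[X][X]) (m : ℕ)
    (h : ∀ i j, (M i j).natDegree ≤ m) : M.det.natDegree ≤ r * m := by
  rw [Matrix.det_apply']
  refine natDegree_sum_le_of_forall_le _ _ (fun σ _ => ?_)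
  refine (natDegree_mul_le).trans ?_
  have h1 : (((Equiv.Perm.sign σ : ℤ) : ℤ[X][X])).natDegree = 0 := natDegree_intCast _
  rw [h1, zero_add]
  refine (natDegree_prod_le _ _).trans ?_
  calc ∑ i : Fin r, (M (σ i) i).natDegree ≤ ∑ _i : Fin r, m := Finset.sum_le_sum (fun i _ => h _ _)
    _ = r * m := by simp

lemma one_le_nrm_of_monic (f : ℤ[X][X]) (hf : f.Monic) : 1 ≤ nrm2.v f := by
  have h1 := nrm1.coeff_le f f.natDegree
  rw [hf.coeff_natDegree] at h1
  have h2 : nrm1.v (1 : ℤ[X]) = 1 := by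
    rw [← C_1]
    change nrmInt.l1 (C 1) = 1
    rw [nrmInt.l1_C]
    simp [nrmInt]
  rw [h2] at h1
  exact h1

/-- explicit bound in the zero estimate -/
noncomputable def zeBound (d r N : ℕ) (F A : ℝ) : ℝ :=
  ((d + r * (d + r * d)).factorial : ℝ) *
    ((r.factorial : ℝ) * ((d * F * (N + d + 2 * (r * d))) ^ r * A) ^ r) ^ (d + r * (d + r * d))

theorem zero_estimate (f : ℤ[X][X]) (hf : f.Monic) (hirr : Irreducible f) (d : ℕ)
    (hd : 1 ≤ d) (hdeg : f.natDegree = d) (hf2 : Deg2 f d d) (a : ℤ) (ha : a ≠ 0)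
    (ys : PowerSeries ℚ) (hfz : io a ys f = 0)
    (hfy : io a ys (derivative f) ≠ 0)
    (r N : ℕ) (A : Fin r → ℤ[X][X]) (hA : ∀ l, Deg2 (A l) N d) (𝓐 : ℝ) (h1 : 1 ≤ 𝓐)
    (h𝓐 : ∀ l, nrm2.v (A l) ≤ 𝓐) (w : Fin r → ℤ)
    (hu : ¬ f ∣ ∑ l, C (C (w l)) * A l) (J : ℕ)
    (hJ : PowerSeries.X ^ J ∣ io a ys (∑ l, C (C (w l)) * A l)) :
    |(a : ℝ)| ^ (J - r) ≤ zeBound d r N (nrm2.v f) 𝓐 := by
  classical
  set D : Derivation ℚ (PowerSeries ℚ) (PowerSeries ℚ) :=
    (io a ys (derivative f) • PowerSeries.derivative ℚ) with hD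
  have hdeg0 : f.natDegree ≠ 0 := by omega
  -- choose a basis
  obtain ⟨κ, s, hs, hspan, hli⟩ := exists_linearIndependent' ℚ (fun l : Fin r => io a ys (A l))
  have hfin : Finite κ := Finite.of_injective s hs
  have : Fintype κ := Fintype.ofFinite κ
  set r' := Fintype.card κ with hr'
  have hr'r : r' ≤ r := by
    have := Fintype.card_le_of_injective s hs
    simpa using this
  let e : Fin r' ≃ κ := (Fintype.equivFin κ).symm
  set v : Fin r' → PowerSeries ℚ := fun j => io a ys (A (s (e j))) with hv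
  have hvli : LinearIndependent ℚ v := hli.comp e e.injective
  -- the combination
  have humem : io a ys (∑ l, C (C (w l)) * A l) ∈ Submodule.span ℚ (Set.range v) := by
    have h2 : Set.range v = Set.range ((fun l : Fin r => io a ys (A l)) ∘ s) := by
      ext x
      constructor
      · rintro ⟨j, rfl⟩
        exact ⟨e j, rfl⟩
      · rintro ⟨k, rfl⟩
        exact ⟨e.symm k, by simp [hv]⟩
    rw [h2, hspan, map_sum]
    refine Submodule.sum_mem _ (fun l _ => ?_)
    have h3 : io a ys (C (C (w l)) * A l) = (w l : ℚ) • io a ys (A l) := by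
      rw [map_mul, io_C, sg_C, PowerSeries.smul_eq_C_mul]
    rw [h3]
    exact Submodule.smul_mem _ _ (Submodule.subset_span ⟨l, rfl⟩)
  rw [Submodule.mem_span_range_iff_exists_fun] at humem
  obtain ⟨c, hc⟩ := humem
  have hu0 : io a ys (∑ l, C (C (w l)) * A l) ≠ 0 := by
    intro h0
    exact hu (dvd_of_io_eq_zero f _ hf hirr a hdeg0 ys hfz h0)
  have hc0 : c ≠ 0 := by
    rintro rfl
    apply hu0
    rw [← hc]
    simp
  -- constants of the derivation
  have hconst : ∀ p q : PowerSeries ℚ, q ≠ 0 → q * D p = p * D q →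
      ∃ c : ℚ, p = PowerSeries.C c * q := by
    intro p q hq h
    apply exists_const_of_wronskian_zero p q hq
    simp only [hD, Derivation.smul_apply, smul_eq_mul] at h
    have h' : io a ys (derivative f) * (q * PowerSeries.derivative ℚ p)
        = io a ys (derivative f) * (p * PowerSeries.derivative ℚ q) := by
      linear_combination h
    exact mul_left_cancel₀ hfy h'
  have hW0 := wmat_det_ne_zero D hconst r' v hvli
  have hWd := X_pow_dvd_wmat_det (io a ys (derivative f)) r' v c hc0 J (by rw [hc]; exact hJ)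
  -- the polynomial Wronskian
  set W : ℤ[X][X] := (wmat (dl f) (fun j => A (s (e j)))).det with hW
  have hioW : io a ys W = (wmat D v).det := by
    rw [hW, RingHom.map_det]
    congr 1
    ext1 i j
    rw [RingHom.mapMatrix_apply, Matrix.map_apply]
    simp only [wmat, Matrix.of_apply]
    rw [io_dl_iterate f a ys hfz]
  have hfW : ¬ f ∣ W := by
    rintro ⟨q, hq⟩
    apply hW0
    rw [← hioW, hq, map_mul, hfz, zero_mul]
  have hordr : |(a : ℝ)| ^ (J - r') ≤ nrmInt.l1 (resultant f W) := by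
    refine order_bound f W hf hirr a ha hdeg0 ys hfz hfW _ ?_
    rw [hioW]
    exact hWd
  have ha1 : (1 : ℝ) ≤ |(a : ℝ)| := by
    have : (1 : ℤ) ≤ |a| := Int.one_le_abs ha
    exact_mod_cast this
  have hord : |(a : ℝ)| ^ (J - r) ≤ nrmInt.l1 (resultant f W) :=
    (pow_le_pow_right₀ ha1 (by omega)).trans hordr
  refine hord.trans ?_
  -- norms
  obtain ⟨F, hF⟩ : ∃ F, F = nrm2.v f := ⟨_, rfl⟩
  have hF1 : 1 ≤ F := by rw [hF]; exact one_le_nrm_of_monic f hf
  obtain ⟨K0, hK0⟩ : ∃ K0 : ℝ, K0 = d * F * (N + d + 2 * (r * d)) := ⟨_, rfl⟩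
  have hd' : (1 : ℝ) ≤ d := by exact_mod_cast hd
  have hK01 : 1 ≤ K0 := by
    rw [hK0]
    have h2 : (1 : ℝ) ≤ (N : ℝ) + d + 2 * (r * d) := by
      have : (0 : ℝ) ≤ (N : ℝ) := Nat.cast_nonneg _
      have : (0 : ℝ) ≤ 2 * ((r : ℝ) * d) := by positivity
      linarith
    have h3 : (1 : ℝ) ≤ d * F := one_le_mul_of_one_le_of_one_le hd' hF1
    exact one_le_mul_of_one_le_of_one_le h3 h2
  have hK00 : 0 ≤ K0 := by linarith
  have hent : ∀ i j : Fin r', nrm2.v (wmat (dl f) (fun j => A (s (e j))) i j) ≤ K0 ^ r * 𝓐 := by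
    intro i j
    simp only [wmat, Matrix.of_apply]
    have h2 := nrm_dl_iterate_le (r := r) hf2 (hA (s (e j))) i (by have := i.isLt; omega)
    rw [← hF, ← hK0] at h2
    refine h2.trans ?_
    refine mul_le_mul ?_ (h𝓐 _) (nrm2.nonneg _) (pow_nonneg hK00 _)
    exact pow_le_pow_right₀ hK01 (by have := i.isLt; omega)
  obtain ⟨B1, hB1⟩ : ∃ B1 : ℝ, B1 = K0 ^ r * 𝓐 := ⟨_, rfl⟩
  rw [← hB1] at hent
  have hB11 : 1 ≤ B1 := by
    rw [hB1]; exact one_le_mul_of_one_le_of_one_le (one_le_pow₀ hK01) h1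
  have hB10 : 0 ≤ B1 := by linarith
  have hWn : nrm2.v W ≤ (r.factorial : ℝ) * B1 ^ r := by
    refine (nrm2.det_le _ B1 hent).trans ?_
    refine mul_le_mul ?_ (pow_le_pow_right₀ hB11 hr'r) (pow_nonneg hB10 _) (Nat.cast_nonneg _)
    exact_mod_cast Nat.factorial_le hr'r
  have hfac1 : (1 : ℝ) ≤ (r.factorial : ℝ) := by exact_mod_cast Nat.succ_le_of_lt (Nat.factorial_pos r)
  -- r ≥ 1
  have hr1 : 1 ≤ r := by
    rcases Nat.eq_zero_or_pos r with h0 | h0
    · subst h0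
      exfalso
      apply hu
      simp
    · exact h0
  have hFB : F ≤ (r.factorial : ℝ) * B1 ^ r := by
    have h2 : F ≤ K0 := by
      rw [hK0]
      have h3 : (1 : ℝ) ≤ (N : ℝ) + d + 2 * (r * d) := by
        have : (0 : ℝ) ≤ (N : ℝ) := Nat.cast_nonneg _
        have : (0 : ℝ) ≤ 2 * ((r : ℝ) * d) := by positivity
        linarith
      calc F = 1 * F * 1 := by ring
        _ ≤ d * F * (N + d + 2 * (r * d)) := by
          refine mul_le_mul (mul_le_mul_of_nonneg_right hd' (by linarith)) h3 (by norm_num) (by positivity)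
    have h3 : K0 ≤ K0 ^ r := le_self_pow₀ hK01 (by omega)
    have h4 : K0 ^ r ≤ B1 := by
      have h41 : 0 ≤ K0 ^ r := pow_nonneg hK00 _
      have h42 : K0 ^ r * 1 ≤ K0 ^ r * 𝓐 := mul_le_mul_of_nonneg_left h1 h41
      rw [hB1]; linarith
    have h5 : B1 ≤ B1 ^ r := le_self_pow₀ hB11 (by omega)
    have h6 : B1 ^ r ≤ (r.factorial : ℝ) * B1 ^ r := le_mul_of_one_le_left (pow_nonneg hB10 _) hfac1
    linarith
  have hWdeg : W.natDegree ≤ r * (d + r * d) := by
    have h2 : W.natDegree ≤ r' * (d + r * d) := by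
      refine natDegree_det_le _ _ (fun i j => ?_)
      simp only [wmat, Matrix.of_apply]
      refine (Deg2.dl_iterate hf2 (hA (s (e j))) i).2.trans ?_
      have := i.isLt
      have : (i : ℕ) * d ≤ r * d := Nat.mul_le_mul_right d (by omega)
      omega
    exact h2.trans (Nat.mul_le_mul_right _ hr'r)
  rw [hF] at hFB
  have hres := res_l1_le f W f.natDegree W.natDegree _ hFB hWn
  refine hres.trans ?_
  unfold zeBound
  rw [← hF, ← hK0, ← hB1]
  have hbase : 1 ≤ (r.factorial : ℝ) * B1 ^ r :=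
    one_le_mul_of_one_le_of_one_le hfac1 (one_le_pow₀ hB11)
  refine mul_le_mul ?_ ?_ (pow_nonneg (by linarith) _) (Nat.cast_nonneg _)
  · have : (f.natDegree + W.natDegree).factorial ≤ (d + r * (d + r * d)).factorial :=
      Nat.factorial_le (by omega)
    exact_mod_cast this
  · exact pow_le_pow_right₀ hbase (by omega)

end Pool.Agent.H20
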